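import Pool.Agent.P.MP_6c8efb_pr.Cardy.AIface

/-! Analyticity and boundedness of the double row operators. -/

open Matrix Complex
open scoped Matrix.Norms.L2Operator ComplexConjugate Real

namespace Pool.Agent.P.MP_6c8efb_pr.Cardy

namespace AnA

theorem nsin (z : ℂ) : ‖sin z‖ ^ 2 = Real.sin z.re ^ 2 + Real.sinh z.im ^ 2 := by
  rw [Complex.sq_norm, Complex.sin_eq, ← ofReal_sin, ← ofReal_cosh, ← ofReal_cos, ← ofReal_sinh,
    ← ofReal_mul, ← ofReal_mul, normSq_add_mul_I]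
  have h1 := Real.cosh_sq z.im
  have h2 := Real.sin_sq_add_cos_sq z.re
  linear_combination Real.sin z.re ^ 2 * h1 + Real.sinh z.im ^ 2 * h2

theorem ncos (z : ℂ) : ‖cos z‖ ^ 2 = Real.cos z.re ^ 2 + Real.sinh z.im ^ 2 := by
  rw [Complex.sq_norm, Complex.cos_eq, ← ofReal_sin, ← ofReal_cosh, ← ofReal_cos, ← ofReal_sinh,
    ← ofReal_mul, ← ofReal_mul, sub_eq_add_neg, ← neg_mul, ← ofReal_neg, normSq_add_mul_I]
  have h1 := Real.cosh_sq z.im
  have h2 := Real.sin_sq_add_cos_sq z.re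
  linear_combination Real.cos z.re ^ 2 * h1 + Real.sinh z.im ^ 2 * h2

theorem cos_ne {z : ℂ} (h1 : -(π / 2) < z.re) (h2 : z.re < π / 2) : cos z ≠ 0 := by
  intro h
  have h3 := ncos z
  have h4 := Real.cos_pos_of_mem_Ioo ⟨h1, h2⟩
  rw [h, norm_zero] at h3
  nlinarith [sq_nonneg (Real.sinh z.im), sq_pos_of_pos h4]

theorem key {w z : ℂ} (hw : ‖w‖ ^ 2 ≤ 1 + Real.sinh z.im ^ 2) (hz : |z.re| ≤ 11 / 10) :
    ‖w / cos z‖ ≤ 3 := by
  have h1 : 1 / 3 ≤ Real.cos z.re := by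
    have h := Real.one_sub_sq_div_two_le_cos (x := z.re)
    have h' : z.re ^ 2 ≤ (11 / 10) ^ 2 := by
      rw [← sq_abs]
      exact pow_le_pow_left₀ (abs_nonneg _) hz 2
    linarith
  have h2 := ncos z
  rw [norm_div]
  refine div_le_of_le_mul₀ (norm_nonneg _) (by norm_num) ?_
  refine (pow_le_pow_iff_left₀ (norm_nonneg _) (by positivity) two_ne_zero).1 ?_
  rw [mul_pow, h2]
  nlinarith [sq_nonneg (Real.sinh z.im)]

theorem nsin_le (w : ℂ) {y : ℝ} (h : w.im = y ∨ w.im = -y ∨ w.im = 0) :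
    ‖sin w‖ ^ 2 ≤ 1 + Real.sinh y ^ 2 := by
  rw [nsin]
  have := Real.sin_sq_le_one w.re
  rcases h with h | h | h <;> rw [h]
  · linarith
  · rw [Real.sinh_neg, neg_sq]; linarith
  · rw [Real.sinh_zero]; nlinarith [sq_nonneg (Real.sinh y)]

theorem sn_eq (u : ℂ) : sn u = cos (π / 6 - u / 3) := by
  rw [sn, ← Complex.cos_pi_div_two_sub]
  congr 1
  ring

theorem big_sub {u : ℂ} (h : u ∈ Big) : π - u ∈ Big := by
  obtain ⟨h1, h2⟩ := h
  constructor <;> simp only [sub_re, ofReal_re] <;> linarith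

theorem sn_ne {u : ℂ} (h : u ∈ Big) : sn u ≠ 0 := by
  obtain ⟨h1, h2⟩ := h
  rw [sn_eq]
  have := Real.pi_pos
  refine cos_ne ?_ ?_ <;> simp <;> linarith

theorem kd_ne {u : ℂ} (h : u ∈ Big) : cos (π / 3 - u / 3) ≠ 0 := by
  obtain ⟨h1, h2⟩ := h
  have := Real.pi_pos
  refine cos_ne ?_ ?_ <;> simp <;> linarith

theorem diff_Lg {u : ℂ} (h : u ∈ Big) (a b t s : Bool) :
    DifferentiableAt ℂ (fun u => Lg u a b t s) u := by
  have hn := sn_ne h
  have h1 : Differentiable ℂ sa := by unfold sa; fun_prop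
  have h2 : Differentiable ℂ sb := by unfold sb; fun_prop
  have h3 : Differentiable ℂ sn := by unfold sn; fun_prop
  simp only [Lg, Lw, Matrix.of_apply]
  split_ifs
  · exact (h2 u).div (h3 u) hn
  · exact (h1 u).div (h3 u) hn
  · exact differentiableAt_const _
  · exact (differentiableAt_const _).div (h3 u) hn
  · exact differentiableAt_const _

theorem diff_kb {u : ℂ} (h : u ∈ Big) (a b : Bool) :
    DifferentiableAt ℂ (fun u => kb u a b) u := by
  have hn := kd_ne h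
  have h2 : Differentiable ℂ sb := by unfold sb; fun_prop
  have h3 : DifferentiableAt ℂ (fun u : ℂ => cos (π / 3 - u / 3)) u := by fun_prop
  unfold kb
  split_ifs
  · exact (h2 u).div h3 hn
  · exact (differentiableAt_const _).div h3 hn

variable {ι : Type} [Fintype ι] [DecidableEq ι]

theorem diff_row {u : ℂ} (h : u ∈ Big) (l : List ι) (a b : Bool) :
    DifferentiableAt ℂ (fun u => row u l a b) u :=
  differentiableAt_chain (diff_Lg h) l a b

theorem diff_row' {u : ℂ} (h : u ∈ Big) (l : List ι) (a b : Bool) :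
    DifferentiableAt ℂ (fun u => row (π - u) l a b) u :=
  DifferentiableAt.comp (g := fun u => row u l a b) u (diff_row (big_sub h) l a b) (by fun_prop)

theorem diff_cl {u : ℂ} (h : u ∈ Big) (α₁ α₂ γ : ℝ)
    {M : ℂ → Matrix (Bool × Bool) (Bool × Bool) (Op ι)}
    (hM : ∀ a b, DifferentiableAt ℂ (fun u => M u a b) u) :
    DifferentiableAt ℂ (fun u => cl (kL α₁ α₂ u) (kR γ u) (M u)) u := by
  unfold cl
  refine DifferentiableAt.fun_sum fun a _ => DifferentiableAt.fun_sum fun b _ =>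
    DifferentiableAt.fun_smul (DifferentiableAt.fun_mul ?_ ?_) (hM a b)
  · exact ((diff_kb h _ _).mul_const _).mul_const _
  · have : DifferentiableAt ℂ (fun u => kb (π - u) b.1 b.2) u :=
      DifferentiableAt.comp (g := fun u => kb u b.1 b.2) u (diff_kb (big_sub h) _ _) (by fun_prop)
    exact (this.mul_const _).mul_const _

/-- the region of the crude bounds -/
def Rg : Set ℂ := {u | -(1 / 10) ≤ u.re ∧ u.re ≤ π + 1 / 10}

theorem rg_sub {u : ℂ} (h : u ∈ Rg) : π - u ∈ Rg := by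
  obtain ⟨h1, h2⟩ := h
  constructor <;> simp only [sub_re, ofReal_re] <;> linarith

theorem phys_sub {u : ℂ} (h : u ∈ Phys) : π - u ∈ Phys := by
  obtain ⟨h1, h2⟩ := h
  constructor <;> simp only [sub_re, ofReal_re] <;> linarith

theorem phys_rg {u : ℂ} (h : u ∈ Phys) : u ∈ Rg := by
  obtain ⟨h1, h2⟩ := h
  constructor <;> linarith

theorem norm_kb {u : ℂ} (h : u ∈ Rg) (a b : Bool) : ‖kb u a b‖ ≤ 3 := by
  obtain ⟨h1, h2⟩ := h
  have h3 := Real.pi_lt_d2
  have h4 := Real.pi_pos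
  refine key ?_ ?_
  · split_ifs
    · exact nsin_le _ (by simp)
    · norm_num
      nlinarith [sq_nonneg (Real.sinh (u.im / 3))]
  · rw [abs_le]
    constructor <;> simp <;> linarith

theorem norm_Lg {u : ℂ} (h : u ∈ Rg) (a b t s : Bool) : ‖Lg u a b t s‖ ≤ 3 := by
  obtain ⟨h1, h2⟩ := h
  have h3 := Real.pi_lt_d2
  have h4 := Real.pi_pos
  have hz : |(π / 6 - u / 3 : ℂ).re| ≤ 11 / 10 := by
    rw [abs_le]
    constructor <;> simp <;> linarith
  simp only [Lg, Lw, Matrix.of_apply, sn_eq]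
  split_ifs
  · exact key (nsin_le _ (by simp)) hz
  · exact key (nsin_le _ (by simp)) hz
  · simp
  · exact key (nsin_le _ (by simp)) hz
  · simp

theorem norm_cl {u : ℂ} (h : u ∈ Rg) (α₁ α₂ γ : ℝ)
    {M : Matrix (Bool × Bool) (Bool × Bool) (Op ι)} {c : ℝ} (hM : ∀ a b, ‖M a b‖ ≤ c) :
    ‖cl (kL α₁ α₂ u) (kR γ u) M‖ ≤ 144 * c := by
  have hc : 0 ≤ c := (norm_nonneg _).trans (hM (true, true) (true, true))
  refine (norm_cl_le _ _ hM).trans (mul_le_mul_of_nonneg_right ?_ hc)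
  have h1 : ∑ a, ‖kL α₁ α₂ u a‖ ≤ 12 := by
    refine (Finset.sum_le_card_nsmul _ _ 3 fun a _ => ?_).trans (by norm_num)
    simp only [kL, norm_mul, norm_ph, mul_one]
    exact norm_kb h _ _
  have h2 : ∑ a, ‖kR γ u a‖ ≤ 12 := by
    refine (Finset.sum_le_card_nsmul _ _ 3 fun a _ => ?_).trans (by norm_num)
    simp only [kR, norm_mul, norm_ph, mul_one]
    exact norm_kb (rg_sub h) _ _
  calc _ ≤ (12 : ℝ) * 12 := mul_le_mul h1 h2 (by positivity) (by norm_num)
    _ = 144 := by norm_num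

theorem nmul {X Y : Op ι} {a b : ℝ} (hX : ‖X‖ ≤ a) (hY : ‖Y‖ ≤ b) : ‖X * Y‖ ≤ a * b :=
  (norm_mul_le _ _).trans (mul_le_mul hX hY (norm_nonneg _) ((norm_nonneg _).trans hX))

end AnA

open AnA

theorem s_An : S_An := by
  intro ι _ _ α γ l₁ l₂
  refine ⟨fun u hu => DifferentiableAt.differentiableWithinAt ?_,
    fun u hu => DifferentiableAt.differentiableWithinAt ?_,
    fun u hu => DifferentiableAt.differentiableWithinAt ?_⟩
  · exact diff_cl hu _ _ _ fun a b => (diff_row' hu _ _ _).mul (diff_row hu _ _ _)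
  · refine DifferentiableAt.fun_smul (by fun_prop) (diff_cl hu _ _ _ fun a b => ?_)
    exact (diff_row' hu _ _ _).mul
      (((diff_row hu _ _ _).mul (diff_row hu _ _ _)).const_mul _)
  · refine DifferentiableAt.fun_smul (by fun_prop) (diff_cl hu _ _ _ fun a b => ?_)
    exact (((diff_row' hu _ _ _).mul (diff_row' hu _ _ _)).const_mul _).mul (diff_row hu _ _ _)

theorem s_Bnd (h : S_Row) (h2 : S_Crude) : S_Bnd := by
  refine ⟨600, fun ι _ _ α γ l₁ l₂ hl => ?_⟩
  have hl₁ : l₁.Nodup := (List.nodup_append.1 hl).1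
  have hl₂ : l₂.Nodup := (List.nodup_append.1 hl).2.1
  have hc : ∀ u ∈ Phys, ∀ a b, ‖str tw l₁ * rowc u l₁ l₂ a b‖ ≤ 1 := fun u hu a b => by
    simpa [rowc] using nmul (norm_str_tw l₁) (nmul (h ι l₁ hl₁ u hu a true)
      (h ι l₂ hl₂ u hu false b))
  refine ⟨fun u hu => ⟨?_, ?_, ?_⟩, fun u hu => ?_⟩
  · refine (norm_cl (phys_rg hu) _ _ _ (c := 1 * 1) fun a b => ?_).trans (by norm_num)
    exact nmul (h ι l₁ hl₁ _ (phys_sub hu) _ _) (h ι l₁ hl₁ _ hu _ _)
  · rw [Yb, norm_smul, Complex.norm_exp, mul_comm]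
    have e : (-I * (u - π / 2) / 3).re = u.im / 3 := by simp
    rw [e]
    refine mul_le_mul_of_nonneg_right ?_ (Real.exp_pos _).le
    refine (norm_cl (phys_rg hu) _ _ _ (c := 1 * 1) fun a b => ?_).trans (by norm_num)
    exact nmul (h ι _ hl _ (phys_sub hu) _ _) (hc u hu _ _)
  · rw [Yt, norm_smul, Complex.norm_exp, mul_comm]
    have e : (-I * (π / 2 - u) / 3).re = -u.im / 3 := by simp
    rw [e]
    refine mul_le_mul_of_nonneg_right ?_ (Real.exp_pos _).le
    refine (norm_cl (phys_rg hu) _ _ _ (c := 1 * 1) fun a b => ?_).trans (by norm_num)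
    exact nmul (hc _ (phys_sub hu) _ _) (h ι _ hl _ hu _ _)
  · have hR : u ∈ Rg := by
      have := abs_le.1 hu
      have := Real.pi_pos
      constructor <;> linarith
    have hr : ∀ v ∈ Rg, ∀ a b, ‖row v l₁ a b‖ ≤ 24 ^ l₁.length := fun v hv a b => by
      have := h2 Bool (Lg v) 3 (norm_Lg hv) ι l₁ a b
      norm_num at this
      exact this
    refine (norm_cl hR _ _ _ (c := 24 ^ l₁.length * 24 ^ l₁.length) fun a b => ?_).trans ?_
    · exact nmul (hr _ (rg_sub hR) _ _) (hr _ hR _ _)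
    · rw [← mul_pow]
      exact mul_le_mul (by norm_num) (pow_le_pow_left₀ (by norm_num) (by norm_num) _)
        (by positivity) (by norm_num)

end Pool.Agent.P.MP_6c8efb_pr.Cardy
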