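import Pool.Agent.P.MP_6c8efb_pr.Cardy.AIface

/-! A Cauchy formula on two glued rectangles. -/

open Matrix Complex
open scoped Matrix.Norms.L2Operator ComplexConjugate Real

namespace Pool.Agent.P.MP_6c8efb_pr.Cardy

namespace CauA

variable {E : Type} [NormedAddCommGroup E] [NormedSpace ℂ E] [CompleteSpace E]

/-- the four poles -/
noncomputable def pol : Fin 4 → ℂ := ![1, I, -1, -I]

theorem norm_pol (j : Fin 4) : ‖pol j‖ = 1 := by fin_cases j <;> simp [pol]

theorem norm_ex (u : ℂ) : ‖exp (I * u)‖ = Real.exp (-u.im) := by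
  rw [Complex.norm_exp]; simp

theorem ex_ne (u : ℂ) (hu : u.im ≠ 0) (j : Fin 4) : exp (I * u) - pol j ≠ 0 := by
  intro h
  have h1 := congrArg norm (sub_eq_zero.mp h)
  rw [norm_ex, norm_pol, Real.exp_eq_one_iff] at h1
  exact hu (neg_eq_zero.mp h1)

theorem eq_of_ex (u : ℂ) (p : ℝ) (h : exp (I * u) = exp (I * p)) (hp : |u.re - p| < 2 * π) :
    u = p := by
  obtain ⟨n, hn⟩ := Complex.exp_eq_exp_iff_exists_int.mp h
  have h1 : u = p + n * (2 * π) := by
    apply mul_left_cancel₀ I_ne_zero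
    rw [hn]; ring
  have h2 : u.re - p = n * (2 * π) := by rw [h1]; simp
  rw [h2, abs_mul, abs_of_pos Real.two_pi_pos] at hp
  have h3 : |(n : ℝ)| < 1 := by
    by_contra hc
    nlinarith [Real.two_pi_pos, not_lt.mp hc]
  have h4 : n = 0 := by
    have : |n| < 1 := by exact_mod_cast h3
    exact Int.abs_lt_one_iff.mp this
  rw [h1, h4]; simp

theorem dslope_an {F : Type} [NormedAddCommGroup F] [NormedSpace ℂ F] {f : ℂ → F} {p : ℂ}
    (hf : AnalyticAt ℂ f p) : AnalyticAt ℂ (dslope f p) p := by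
  obtain ⟨q, hq⟩ := hf
  exact hq.has_fpower_series_dslope_fslope.analyticAt

omit [CompleteSpace E] in
/-- removable singularities -/
theorem remov (f : ℂ → E) (R : Set ℂ) (a : ℂ) (c : E) (hf : ∀ u ∈ R, AnalyticAt ℂ f u)
    (hc : ∀ u ∈ R, exp (I * u) = a → f u = c) :
    ∃ φ : ℂ → E, (∀ u ∈ R, AnalyticAt ℂ φ u) ∧
      ∀ u, exp (I * u) - a ≠ 0 → φ u = (exp (I * u) - a)⁻¹ • (f u - c) := by
  classical
  let e : ℂ → ℂ := fun u => exp (I * u)
  have he : ∀ u, AnalyticAt ℂ e u := fun u => by fun_prop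
  have hde : ∀ u, deriv e u ≠ 0 := fun u => by
    have : HasDerivAt e (exp (I * u) * (I * 1)) u := ((hasDerivAt_id u).const_mul I).cexp
    rw [this.deriv]
    simp
  refine ⟨fun u => if e u - a = 0 then (deriv e u)⁻¹ • deriv f u else (e u - a)⁻¹ • (f u - c),
    fun p hp => ?_, fun u hu => if_neg hu⟩
  by_cases hpa : e p - a = 0
  · have h1 := dslope_an (he p)
    have h2 := dslope_an (hf p hp)
    have h3 : dslope e p p ≠ 0 := by rw [dslope_same]; exact hde p
    have h4 : AnalyticAt ℂ (fun u => (dslope e p u)⁻¹ • dslope f p u) p := (h1.inv h3).smul h2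
    refine h4.congr ?_
    filter_upwards [h1.continuousAt.eventually_ne h3] with u hu
    by_cases hup : u = p
    · subst hup
      rw [if_pos hpa, dslope_same, dslope_same]
    · have h5 : e u - a = (u - p) • dslope e p u := by
        rw [sub_smul_dslope, ← sub_eq_zero.mp hpa]
      have h6 : f u - c = (u - p) • dslope f p u := by
        rw [sub_smul_dslope, ← hc p hp (sub_eq_zero.mp hpa)]
      have h7 : u - p ≠ 0 := sub_ne_zero.mpr hup
      have h8 : e u - a ≠ 0 := by rw [h5]; exact smul_ne_zero h7 hu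
      rw [if_neg h8, h5, h6, smul_smul, smul_eq_mul]
      congr 1
      field_simp
  · have h1 : AnalyticAt ℂ (fun u => e u - a) p := (he p).sub analyticAt_const
    have h4 : AnalyticAt ℂ (fun u => (e u - a)⁻¹ • (f u - c)) p :=
      (h1.inv hpa).smul ((hf p hp).sub analyticAt_const)
    refine h4.congr ?_
    filter_upwards [h1.continuousAt.eventually_ne hpa] with u hu
    rw [if_neg hu]

/-- the kernel -/
noncomputable def ker (u : ℂ) : ℂ := ∑ j, (exp (I * u) - pol j)⁻¹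

/-- the explicit part -/
noncomputable def rr (c : Fin 4 → E) (u : ℂ) : E := ∑ j, (exp (I * u) - pol j)⁻¹ • c j

omit [CompleteSpace E] in
theorem remov4 (f : ℂ → E) (R : Set ℂ) (c : Fin 4 → E) (hf : ∀ u ∈ R, AnalyticAt ℂ f u)
    (hc : ∀ j, ∀ u ∈ R, exp (I * u) = pol j → f u = c j) :
    ∃ H : ℂ → E, (∀ u ∈ R, AnalyticAt ℂ H u) ∧
      ∀ u, u.im ≠ 0 → H u + rr c u = ker u • f u := by
  choose φ h1 h2 using fun j => remov f R (pol j) (c j) hf (hc j)
  refine ⟨fun u => ∑ j, φ j u, fun u hu => Finset.analyticAt_fun_sum _ fun j _ => h1 j u hu,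
    fun u hu => ?_⟩
  simp only [rr, ker, Finset.sum_smul, ← Finset.sum_add_distrib]
  refine Finset.sum_congr rfl fun j _ => ?_
  rw [h2 j u (ex_ne u hu j), smul_sub, sub_add_cancel]

theorem ker_le (u : ℂ) (hu : u.im ≠ 0) :
    ‖ker u‖ * |Real.exp (-u.im) ^ 4 - 1| ≤ 4 * Real.exp (-u.im) ^ 3 := by
  have h0 := ex_ne u hu 0
  have h1 := ex_ne u hu 1
  have h2 := ex_ne u hu 2
  have h3 := ex_ne u hu 3
  have hk : ker u * (exp (I * u) ^ 4 - 1) = 4 * exp (I * u) ^ 3 := by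
    have hz : exp (I * u) ^ 4 - 1 = (exp (I * u) - pol 0) * (exp (I * u) - pol 1) *
        (exp (I * u) - pol 2) * (exp (I * u) - pol 3) := by
      simp only [pol, Matrix.cons_val_zero, Matrix.cons_val_one, Matrix.cons_val]
      linear_combination (exp (I * u) ^ 2 - 1) * I_sq
    rw [hz, ker, Fin.sum_univ_four]
    field_simp
    simp only [pol, Matrix.cons_val_zero, Matrix.cons_val_one, Matrix.cons_val]
    linear_combination (-2 * exp (I * u)) * I_sq
  have h4 := congrArg norm hk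
  rw [norm_mul, norm_mul, norm_pow, norm_ex] at h4
  have h5 : |Real.exp (-u.im) ^ 4 - 1| ≤ ‖exp (I * u) ^ 4 - 1‖ := by
    have := abs_norm_sub_norm_le (exp (I * u) ^ 4) 1
    rwa [norm_pow, norm_ex, norm_one] at this
  calc _ ≤ ‖ker u‖ * ‖exp (I * u) ^ 4 - 1‖ := by gcongr
    _ = _ := by rw [h4]; simp

theorem cube_le (s : ℝ) (hs : 0 ≤ s) : s * (1 + s ^ 2) ≤ 6 * (Real.exp s - 1) := by
  have := Real.sum_le_exp_of_nonneg hs 4
  simp only [Finset.sum_range_succ, Finset.range_zero, Finset.sum_empty, Nat.factorial] at this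
  norm_num at this
  nlinarith [sq_nonneg s]

theorem ker_vert (u : ℂ) (hu : u.im ≠ 0) : ‖ker u‖ * |u.im| ≤ 24 * (1 + u.im ^ 2)⁻¹ := by
  have h := ker_le u hu
  have hs := cube_le |u.im| (abs_nonneg _)
  rw [sq_abs] at hs
  set t := Real.exp (-u.im) with ht
  have ht0 : 0 < t := Real.exp_pos _
  have key : t ^ 3 * (Real.exp |u.im| - 1) ≤ |t ^ 4 - 1| := by
    rcases lt_or_gt_of_ne hu with h1 | h1
    · rw [abs_of_neg h1, ← ht]
      have : 1 ≤ t := Real.one_le_exp (by linarith)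
      have h3 : 1 ≤ t ^ 3 := one_le_pow₀ this
      refine le_trans ?_ (le_abs_self _)
      nlinarith
    · rw [abs_of_pos h1]
      have h2 : t * Real.exp u.im = 1 := by rw [ht, ← Real.exp_add]; simp
      have : t ≤ 1 := Real.exp_le_one_iff.mpr (by linarith)
      refine le_trans ?_ (neg_le_abs _)
      have h3 : t ^ 3 * (Real.exp u.im - 1) = t ^ 2 - t ^ 3 := by
        linear_combination t ^ 2 * h2
      rw [h3]
      have h4 : t ^ 2 ≤ 1 := pow_le_one₀ ht0.le this
      have h5 : t ^ 4 ≤ t ^ 3 := pow_le_pow_of_le_one ht0.le this (by norm_num)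
      linarith
  have h1 : ‖ker u‖ * (Real.exp |u.im| - 1) ≤ 4 := by
    have h2 : t ^ 3 * (‖ker u‖ * (Real.exp |u.im| - 1)) ≤ t ^ 3 * 4 := by
      have := mul_le_mul_of_nonneg_left key (norm_nonneg (ker u))
      linarith
    exact le_of_mul_le_mul_left h2 (by positivity)
  rw [← div_eq_mul_inv, le_div_iff₀ (by positivity)]
  have := mul_le_mul_of_nonneg_left hs (norm_nonneg (ker u))
  linarith

theorem ker_hor (u : ℂ) (Y : ℝ) (hY : 1 ≤ Y) (hu : |u.im| = Y) :
    ‖ker u‖ * Real.exp (u.im / 3) ≤ 8 * Real.exp (-4 * Y / 3) := by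
  have hu0 : u.im ≠ 0 := by
    intro h; rw [h, abs_zero] at hu; linarith
  have h := ker_le u hu0
  have h2 : 2 ≤ Real.exp Y := by linarith [Real.add_one_le_exp Y]
  set s := Real.exp Y with hs
  set t := Real.exp (-Y) with ht
  have hst : s * t = 1 := by rw [hs, ht, ← Real.exp_add]; simp
  have ht0 : 0 < t := Real.exp_pos _
  have hk := norm_nonneg (ker u)
  rcases lt_or_gt_of_ne hu0 with h1 | h1
  · rw [abs_of_neg h1] at hu
    rw [hu, ← hs] at h
    have h3 : Real.exp (-4 * Y / 3) = t * Real.exp (u.im / 3) := by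
      rw [ht, ← Real.exp_add]; congr 1; linarith
    have h4 : s ^ 4 / 2 ≤ |s ^ 4 - 1| := by
      refine le_trans ?_ (le_abs_self _)
      have : (2 : ℝ) ^ 4 ≤ s ^ 4 := by gcongr
      linarith
    have h5 : s ^ 3 * (‖ker u‖ * s) ≤ s ^ 3 * 8 := by
      have := mul_le_mul_of_nonneg_left h4 hk
      linarith
    have h6 := le_of_mul_le_mul_left h5 (by positivity)
    have h7 : ‖ker u‖ ≤ 8 * t := by
      have := mul_le_mul_of_nonneg_right h6 ht0.le
      rwa [mul_assoc, hst, mul_one] at this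
    rw [h3, ← mul_assoc]
    gcongr
  · rw [abs_of_pos h1] at hu
    rw [hu, ← ht] at h
    have ht2 : t ≤ 1 / 2 := by nlinarith
    have h4 : 1 / 2 ≤ |t ^ 4 - 1| := by
      refine le_trans ?_ (neg_le_abs _)
      have : t ^ 4 ≤ (1 / 2) ^ 4 := by gcongr
      linarith
    have h7 : ‖ker u‖ ≤ 8 * t ^ 3 := by
      have := mul_le_mul_of_nonneg_left h4 hk
      linarith
    have h3 : t ^ 3 * Real.exp (u.im / 3) ≤ Real.exp (-4 * Y / 3) := by
      rw [ht, ← Real.exp_nat_mul, ← Real.exp_add, Real.exp_le_exp, hu]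
      push_cast
      linarith
    calc _ ≤ 8 * t ^ 3 * Real.exp (u.im / 3) := by gcongr
      _ ≤ _ := by linarith

theorem int_zero (w σ : ℂ) (hw : ‖w‖ < 1) (hσ : σ = I ∨ σ = -I) :
    ∫ x in (-π)..π, w * exp (σ * x) / (1 - w * exp (σ * x)) = 0 := by
  have hn : ∀ x : ℝ, ‖-(w * exp (σ * x))‖ < 1 := fun x => by
    rw [norm_neg, norm_mul, Complex.norm_exp]
    rcases hσ with rfl | rfl <;> simpa using hw
  have hs : ∀ x : ℝ, 1 - w * exp (σ * x) ∈ slitPlane := fun x => by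
    rw [sub_eq_add_neg]; exact mem_slitPlane_of_norm_lt_one (hn x)
  have hσ0 : σ ≠ 0 := by rcases hσ with rfl | rfl <;> simp
  have hd : ∀ x ∈ Set.uIcc (-π) π, HasDerivAt (fun x : ℝ => -σ⁻¹ * log (1 - w * exp (σ * x)))
      (w * exp (σ * x) / (1 - w * exp (σ * x))) x := fun x _ => by
    have h1 : HasDerivAt (fun z : ℂ => -σ⁻¹ * log (1 - w * exp (σ * z)))
        (-σ⁻¹ * ((-(w * (exp (σ * x) * (σ * 1)))) / (1 - w * exp (σ * x)))) (x : ℂ) :=
      ((((((hasDerivAt_id (x : ℂ)).const_mul σ).cexp).const_mul w).const_sub 1).clog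
        (hs x)).const_mul _
    convert h1.comp_ofReal using 1
    have := slitPlane_ne_zero (hs x)
    field_simp
  rw [intervalIntegral.integral_eq_sub_of_hasDerivAt hd]
  · have : exp (σ * ((-π : ℝ) : ℂ)) = exp (σ * π) := by
      rw [Complex.exp_eq_exp_iff_exists_int]
      rcases hσ with rfl | rfl
      · exact ⟨-1, by push_cast; ring⟩
      · exact ⟨1, by push_cast; ring⟩
    rw [this, sub_self]
  · refine Continuous.intervalIntegrable ?_ _ _
    exact Continuous.div (by fun_prop) (by fun_prop) fun x => slitPlane_ne_zero (hs x)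

theorem cont_pol (y : ℝ) (hy : y ≠ 0) (j : Fin 4) :
    Continuous fun x : ℝ => (exp (I * (x + y * I)) - pol j)⁻¹ :=
  Continuous.inv₀ (by fun_prop) fun x => ex_ne _ (by simpa using hy) j

theorem int_bot (Y : ℝ) (hY : 0 < Y) (j : Fin 4) :
    ∫ x in (-π)..π, (exp (I * (x + (-Y : ℝ) * I)) - pol j)⁻¹ = 0 := by
  have hp : pol j ≠ 0 := by rw [← norm_ne_zero_iff, norm_pol]; norm_num
  have h := int_zero (pol j * exp (-Y)) (-I) (by
    rw [norm_mul, norm_pol, Complex.norm_exp]; simpa using hY) (Or.inr rfl)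
  have h1 : ∀ x : ℝ, (exp (I * (x + (-Y : ℝ) * I)) - pol j)⁻¹ = (pol j)⁻¹ *
      (pol j * exp (-Y) * exp (-I * x) / (1 - pol j * exp (-Y) * exp (-I * x))) := fun x => by
    have h2 := ex_ne (x + (-Y : ℝ) * I) (by simpa using hY.ne') j
    have h3 : exp (-Y) * exp (-I * x) = (exp (I * (x + (-Y : ℝ) * I)))⁻¹ := by
      rw [← exp_add, ← exp_neg]; congr 1; push_cast; linear_combination (-Y : ℂ) * I_sq
    have h4 := exp_ne_zero (I * (x + (-Y : ℝ) * I))
    rw [mul_assoc (pol j), h3]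
    field_simp
  simp_rw [h1]
  rw [intervalIntegral.integral_const_mul, h, mul_zero]

theorem int_top (Y : ℝ) (hY : 0 < Y) (j : Fin 4) :
    ∫ x in (-π)..π, (exp (I * (x + Y * I)) - pol j)⁻¹ = -(2 * π) * (pol j)⁻¹ := by
  have hp : pol j ≠ 0 := by rw [← norm_ne_zero_iff, norm_pol]; norm_num
  have h := int_zero ((pol j)⁻¹ * exp (-Y)) I (by
    rw [norm_mul, norm_inv, norm_pol, Complex.norm_exp]; simpa using hY) (Or.inl rfl)
  have h1 : ∀ x : ℝ, (pol j)⁻¹ * exp (-Y) * exp (I * x) / (1 - (pol j)⁻¹ * exp (-Y) * exp (I * x))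
      = -pol j * (exp (I * (x + Y * I)) - pol j)⁻¹ - 1 := fun x => by
    have h2 := ex_ne (x + Y * I) (by simpa using hY.ne') j
    have h3 : exp (-Y) * exp (I * x) = exp (I * (x + Y * I)) := by
      rw [← exp_add]; congr 1; linear_combination (-Y : ℂ) * I_sq
    rw [mul_assoc (pol j)⁻¹, h3]
    generalize exp (I * (x + Y * I)) = z at h2
    have h5 : pol j - z ≠ 0 := by rwa [← neg_sub, neg_ne_zero]
    field_simp
    ring
  simp_rw [h1] at h
  rw [intervalIntegral.integral_sub (((cont_pol Y hY.ne' j).const_mul _).intervalIntegrable _ _)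
    (by simp), intervalIntegral.integral_const_mul] at h
  simp only [intervalIntegral.integral_const, sub_neg_eq_add, real_smul, mul_one] at h
  push_cast at h
  generalize ∫ x in (-π)..π, (exp (I * (x + Y * I)) - pol j)⁻¹ = w at h
  field_simp
  linear_combination -h

omit [CompleteSpace E] in
theorem cont_rr (c : Fin 4 → E) (y : ℝ) (hy : y ≠ 0) :
    Continuous fun x : ℝ => rr c (x + y * I) :=
  continuous_finsetSum _ fun j _ => (cont_pol y hy j).smul continuous_const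

theorem int_rr (c : Fin 4 → E) (y : ℝ) (hy : y ≠ 0) :
    (∫ x in (-π)..0, rr c (x + y * I)) + (∫ x in (0 : ℝ)..π, rr c (x + y * I)) =
      ∑ j, (∫ x in (-π)..π, (exp (I * (x + y * I)) - pol j)⁻¹) • c j := by
  rw [intervalIntegral.integral_add_adjacent_intervals ((cont_rr c y hy).intervalIntegrable _ _)
    ((cont_rr c y hy).intervalIntegrable _ _)]
  simp only [rr]
  rw [intervalIntegral.integral_finsetSum
    (f := fun j (x : ℝ) => (exp (I * (x + y * I)) - pol j)⁻¹ • c j) fun j _ =>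
    ((cont_pol y hy j).smul continuous_const).intervalIntegrable _ _]
  simp only [intervalIntegral.integral_smul_const]

omit [CompleteSpace E] in
theorem hor (H f : ℂ → E) (c : Fin 4 → E) (x0 x1 y Y K : ℝ) (hY : 1 ≤ Y) (hy : |y| = Y)
    (hx : x0 ≤ x1) (hH : ∀ x ∈ Set.Icc x0 x1, AnalyticAt ℂ H (x + y * I))
    (hHf : ∀ u, u.im ≠ 0 → H u + rr c u = ker u • f u)
    (hf : ∀ x ∈ Set.Icc x0 x1, ‖f (x + y * I)‖ ≤ K * Real.exp (y / 3)) :
    ‖(∫ x in x0..x1, H (x + y * I)) + ∫ x in x0..x1, rr c (x + y * I)‖ ≤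
      8 * (K * Real.exp (-4 * Y / 3)) * (x1 - x0) := by
  have hy0 : y ≠ 0 := by
    intro h; rw [h, abs_zero] at hy; linarith
  have hK : 0 ≤ K := by
    have := (norm_nonneg _).trans (hf x0 ⟨le_rfl, hx⟩)
    exact nonneg_of_mul_nonneg_left this (Real.exp_pos _)
  have hc : ContinuousOn (fun x : ℝ => H (x + y * I)) (Set.uIcc x0 x1) := by
    rw [Set.uIcc_of_le hx]
    intro x hx'
    exact (ContinuousAt.comp (f := fun x : ℝ => (x : ℂ) + y * I) (hH x hx').continuousAt
      (by fun_prop)).continuousWithinAt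
  rw [← intervalIntegral.integral_add hc.intervalIntegrable
    ((cont_rr c y hy0).intervalIntegrable _ _), ← abs_of_nonneg (sub_nonneg.mpr hx)]
  refine intervalIntegral.norm_integral_le_of_norm_le_const fun x hx' => ?_
  rw [Set.uIoc_of_le hx] at hx'
  rw [hHf _ (by simpa using hy0), norm_smul]
  have h1 := ker_hor (x + y * I) Y hY (by simpa using hy)
  have h2 := hf x ⟨hx'.1.le, hx'.2⟩
  simp only [add_im, ofReal_im, mul_im, ofReal_re, I_im, mul_one, I_re, mul_zero, add_zero,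
    zero_add] at h1
  calc _ ≤ ‖ker (x + y * I)‖ * (K * Real.exp (y / 3)) := by gcongr
    _ = K * (‖ker (x + y * I)‖ * Real.exp (y / 3)) := by ring
    _ ≤ K * (8 * Real.exp (-4 * Y / 3)) := by gcongr
    _ = _ := by ring

omit [CompleteSpace E] in
theorem ver (H H' f f' : ℂ → E) (c : Fin 4 → E) (x x' Y J : ℝ) (hY : 1 ≤ Y)
    (hx : exp (I * x) = exp (I * x'))
    (hH : ∀ y : ℝ, |y| ≤ Y → AnalyticAt ℂ H (x + y * I))
    (hH' : ∀ y : ℝ, |y| ≤ Y → AnalyticAt ℂ H' (x' + y * I))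
    (hHf : ∀ u, u.im ≠ 0 → H u + rr c u = ker u • f u)
    (hHf' : ∀ u, u.im ≠ 0 → H' u + rr c u = ker u • f' u)
    (hf : ∀ y : ℝ, |y| ≤ Y → ‖f (x + y * I) - f' (x' + y * I)‖ ≤ J * |y|) :
    ‖(∫ y in (-Y)..Y, H (x + y * I)) - ∫ y in (-Y)..Y, H' (x' + y * I)‖ ≤ 24 * π * J := by
  have hYY : -Y ≤ Y := by linarith
  have hJ : 0 ≤ J := by
    have := (norm_nonneg _).trans (hf 1 (by simpa using hY))
    simpa using this
  have hc : ∀ (G : ℂ → E) (a : ℝ), (∀ y : ℝ, |y| ≤ Y → AnalyticAt ℂ G (a + y * I)) →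
      ContinuousOn (fun y : ℝ => G (a + y * I)) (Set.uIcc (-Y) Y) := by
    intro G a hG
    rw [Set.uIcc_of_le hYY]
    intro y hy
    exact (ContinuousAt.comp (f := fun y : ℝ => (a : ℂ) + y * I) (hG y (abs_le.mpr hy)).continuousAt
      (by fun_prop)).continuousWithinAt
  rw [← intervalIntegral.integral_sub (hc H x hH).intervalIntegrable
    (hc H' x' hH').intervalIntegrable]
  have hb : ∀ᵐ y : ℝ, y ∈ Set.Ioc (-Y) Y →
      ‖H (x + y * I) - H' (x' + y * I)‖ ≤ 24 * J * (1 + y ^ 2)⁻¹ := by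
    filter_upwards [MeasureTheory.Measure.ae_ne MeasureTheory.volume (0 : ℝ)] with y hy0 hy
    have he : exp (I * (x' + y * I)) = exp (I * (x + y * I)) := by
      rw [mul_add, mul_add, exp_add, exp_add, hx]
    have h1 := hHf (x + y * I) (by simpa using hy0)
    have h2 := hHf' (x' + y * I) (by simpa using hy0)
    have h3 : rr c (x' + y * I) = rr c (x + y * I) := by simp only [rr, he]
    have h4 : ker (x' + y * I) = ker (x + y * I) := by simp only [ker, he]
    have h5 : H (x + y * I) - H' (x' + y * I) =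
        ker (x + y * I) • (f (x + y * I) - f' (x' + y * I)) := by
      rw [smul_sub, ← h1, ← h4, ← h2, h3]; abel
    have h6 := ker_vert (x + y * I) (by simpa using hy0)
    simp only [add_im, ofReal_im, mul_im, ofReal_re, I_im, mul_one, I_re, mul_zero, add_zero,
      zero_add] at h6
    have h7 := hf y (abs_le.mpr ⟨hy.1.le, hy.2⟩)
    rw [h5, norm_smul]
    calc _ ≤ ‖ker (x + y * I)‖ * (J * |y|) := by gcongr
      _ = J * (‖ker (x + y * I)‖ * |y|) := by ring
      _ ≤ J * (24 * (1 + y ^ 2)⁻¹) := by gcongr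
      _ = _ := by ring
  have hi : IntervalIntegrable (fun y : ℝ => 24 * J * (1 + y ^ 2)⁻¹) MeasureTheory.volume
      (-Y) Y := by
    refine Continuous.intervalIntegrable (continuous_const.mul (Continuous.inv₀ (by fun_prop)
      fun y => by positivity)) _ _
  refine (intervalIntegral.norm_integral_le_of_norm_le hYY hb hi).trans ?_
  rw [intervalIntegral.integral_const_mul, integral_inv_one_add_sq]
  have h1 := Real.arctan_lt_pi_div_two Y
  have h2 := Real.neg_pi_div_two_lt_arctan (-Y)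
  nlinarith

end CauA

open CauA in
theorem s_Cau : S_Cau := by
  refine ⟨40, fun E _ _ _ g h Y K J hY hgh hJ => ?_⟩
  have hpi := Real.pi_pos
  let c : Fin 4 → E := ![g 0, g (π / 2), g π, h (π / 2)]
  let k : ℂ → E := fun u => h (-u)
  let R1 : Set ℂ := {u | (0 ≤ u.re ∧ u.re ≤ π) ∧ |u.im| ≤ Y}
  let R2 : Set ℂ := {u | (-π ≤ u.re ∧ u.re ≤ 0) ∧ |u.im| ≤ Y}
  have hR : ∀ u ∈ R2, -u ∈ Phys ∧ |(-u).im| ≤ Y := fun u hu =>
    ⟨⟨by simpa using hu.1.2, by simpa [neg_le] using hu.1.1⟩, by simpa using hu.2⟩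
  have hk : ∀ u ∈ R2, AnalyticAt ℂ k u := fun u hu =>
    AnalyticAt.comp (f := fun u : ℂ => -u) (hgh _ (hR u hu).1 (hR u hu).2).2.1 (by fun_prop)
  have hkb : ∀ u ∈ R2, ‖k u‖ ≤ K * Real.exp (u.im / 3) := fun u hu => by
    simpa using (hgh _ (hR u hu).1 (hR u hu).2).2.2.2
  have e0 : pol 0 = exp (I * (0 : ℝ)) := by simp [pol]
  have e1 : pol 1 = exp (I * (π / 2 : ℝ)) := by
    rw [mul_comm]; push_cast; rw [exp_pi_div_two_mul_I]; rfl
  have e2 : pol 2 = exp (I * (π : ℝ)) := by rw [mul_comm, exp_pi_mul_I]; rfl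
  have e2' : pol 2 = exp (I * (-π : ℝ)) := by
    rw [mul_comm]; push_cast; rw [neg_mul, exp_neg_pi_mul_I]; rfl
  have e3 : pol 3 = exp (I * (-π / 2 : ℝ)) := by
    rw [mul_comm]; push_cast; rw [exp_neg_pi_div_two_mul_I]; rfl
  have j0 := hJ 0 (by simpa using zero_le_one.trans hY)
  simp only [ofReal_zero, zero_mul, neg_zero, abs_zero, mul_zero, add_zero, sub_zero,
    norm_le_zero_iff, sub_eq_zero] at j0
  obtain ⟨H1, a1, b1⟩ := remov4 g R1 c (fun u hu => (hgh u hu.1 hu.2).1) (by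
    intro j u hu hj
    obtain ⟨⟨h1, h2⟩, -⟩ := hu
    fin_cases j
    · have := eq_of_ex u 0 (hj.trans e0) (abs_lt.mpr ⟨by linarith, by linarith⟩)
      simp [this, c]
    · have := eq_of_ex u _ (hj.trans e1) (abs_lt.mpr ⟨by linarith, by linarith⟩)
      simp [this, c]
    · have := eq_of_ex u _ (hj.trans e2) (abs_lt.mpr ⟨by linarith, by linarith⟩)
      simp [this, c]
    · have := eq_of_ex u _ (hj.trans e3) (abs_lt.mpr ⟨by linarith, by linarith⟩)
      rw [this, ofReal_re] at h1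
      linarith)
  obtain ⟨H2, a2, b2⟩ := remov4 k R2 c hk (by
    intro j u hu hj
    obtain ⟨⟨h1, h2⟩, -⟩ := hu
    fin_cases j
    · have := eq_of_ex u 0 (hj.trans e0) (abs_lt.mpr ⟨by linarith, by linarith⟩)
      simp [this, c, k, j0.1]
    · have := eq_of_ex u _ (hj.trans e1) (abs_lt.mpr ⟨by linarith, by linarith⟩)
      rw [this, ofReal_re] at h2
      linarith
    · have := eq_of_ex u _ (hj.trans e2') (abs_lt.mpr ⟨by linarith, by linarith⟩)
      simp [this, c, k, j0.2]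
    · have := eq_of_ex u _ (hj.trans e3) (abs_lt.mpr ⟨by linarith, by linarith⟩)
      simp [this, c, k, neg_div])
  have hYY : -Y ≤ Y := by linarith
  have hY0 : 0 < Y := by linarith
  have c1 := integral_boundary_rect_eq_zero_of_differentiableOn H1 ⟨0, -Y⟩ ⟨π, Y⟩ (by
    intro u hu
    rw [mem_reProdIm, Set.uIcc_of_le hpi.le, Set.uIcc_of_le hYY] at hu
    exact (a1 u ⟨hu.1, abs_le.mpr hu.2⟩).differentiableAt.differentiableWithinAt)
  have c2 := integral_boundary_rect_eq_zero_of_differentiableOn H2 ⟨-π, -Y⟩ ⟨0, Y⟩ (by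
    intro u hu
    rw [mem_reProdIm, Set.uIcc_of_le (by simpa using hpi.le), Set.uIcc_of_le hYY] at hu
    exact (a2 u ⟨hu.1, abs_le.mpr hu.2⟩).differentiableAt.differentiableWithinAt)
  simp only at c1 c2
  have m1 : ∀ x ∈ Set.Icc 0 π, ∀ y : ℝ, |y| ≤ Y → (x : ℂ) + y * I ∈ R1 := fun x hx y hy =>
    ⟨by simpa using hx, by simpa using hy⟩
  have m2 : ∀ x ∈ Set.Icc (-π) 0, ∀ y : ℝ, |y| ≤ Y → (x : ℂ) + y * I ∈ R2 := fun x hx y hy =>
    ⟨by simpa using hx, by simpa using hy⟩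
  have q1 : ∀ y : ℝ, |y| = Y → _ := fun y hy => hor H1 g c 0 π y Y K hY hy hpi.le
    (fun x hx => a1 _ (m1 x hx y hy.le)) b1 fun x hx => by
      simpa using (hgh _ (m1 x hx y hy.le).1 (m1 x hx y hy.le).2).2.2.1
  have q2 : ∀ y : ℝ, |y| = Y → _ := fun y hy => hor H2 k c (-π) 0 y Y K hY hy (by linarith)
    (fun x hx => a2 _ (m2 x hx y hy.le)) b2 fun x hx => by
      simpa using hkb _ (m2 x hx y hy.le)
  have v1 := ver H1 H2 g k c 0 0 Y J hY rfl (fun y hy => a1 _ (m1 0 ⟨le_rfl, hpi.le⟩ y hy))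
    (fun y hy => a2 _ (m2 0 ⟨by linarith, le_rfl⟩ y hy)) b1 b2 fun y hy => by
      simpa [k] using (hJ y hy).1
  have v2 := ver H1 H2 g k c π (-π) Y J hY (e2.symm.trans e2')
    (fun y hy => a1 _ (m1 π ⟨hpi.le, le_rfl⟩ y hy))
    (fun y hy => a2 _ (m2 (-π) ⟨le_rfl, by linarith⟩ y hy)) b1 b2 fun y hy => by
      have : k (((-π : ℝ) : ℂ) + y * I) = h (π - y * I) := by
        simp only [k]; congr 1; push_cast; ring
      rw [this]
      exact (hJ y hy).2
  have t1 := q1 Y (abs_of_pos hY0)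
  have t2 := q2 Y (abs_of_pos hY0)
  have t3 := q1 (-Y) (by rw [abs_neg, abs_of_pos hY0])
  have t4 := q2 (-Y) (by rw [abs_neg, abs_of_pos hY0])
  have rt := int_rr c Y hY0.ne'
  have rb := int_rr c (-Y) (neg_ne_zero.mpr hY0.ne')
  simp only [int_top Y hY0] at rt
  simp only [int_bot Y hY0, zero_smul, Finset.sum_const_zero] at rb
  have hs : ∑ j, (-(2 * π : ℂ) * (pol j)⁻¹) • c j =
      ((2 * π : ℂ) * I) • (g (π / 2) - h (π / 2) + I • (g 0 - g π)) := by
    simp only [Fin.sum_univ_four, pol, c, Matrix.cons_val_zero, Matrix.cons_val_one,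
      Matrix.cons_val, inv_neg, inv_I, inv_one]
    match_scalars <;> first | ring1 | linear_combination (2 * π : ℂ) * I_sq |
      linear_combination (-2 * π : ℂ) * I_sq
  rw [hs] at rt
  generalize g (π / 2) - h (π / 2) + I • (g 0 - g π) = W at rt ⊢
  generalize K * Real.exp (-4 * Y / 3) = L at t1 t2 t3 t4 ⊢
  generalize ∫ x in (-π)..0, rr c (x + Y * I) = r1 at *
  generalize ∫ x in (0 : ℝ)..π, rr c (x + Y * I) = r2 at *
  generalize ∫ x in (-π)..0, rr c (x + (-Y : ℝ) * I) = r3 at *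
  generalize ∫ x in (0 : ℝ)..π, rr c (x + (-Y : ℝ) * I) = r4 at *
  generalize ∫ x in (0 : ℝ)..π, H1 (x + Y * I) = T1 at *
  generalize ∫ x in (0 : ℝ)..π, H1 (x + (-Y : ℝ) * I) = B1 at *
  generalize ∫ x in (-π)..0, H2 (x + Y * I) = T2 at *
  generalize ∫ x in (-π)..0, H2 (x + (-Y : ℝ) * I) = B2 at *
  generalize ∫ y in (-Y)..Y, H1 ((0 : ℝ) + y * I) = V1 at *
  generalize ∫ y in (-Y)..Y, H1 ((π : ℝ) + y * I) = V2 at *
  generalize ∫ y in (-Y)..Y, H2 ((0 : ℝ) + y * I) = V3 at *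
  generalize ∫ y in (-Y)..Y, H2 ((-π : ℝ) + y * I) = V4 at *
  have key : ((2 * π : ℂ) * I) • W = (T1 + r2) + (T2 + r1) - (B1 + r4) - (B2 + r3) +
      I • (V1 - V3) - I • (V2 - V4) := by
    rw [← rt, smul_sub, smul_sub]
    linear_combination (norm := abel) c1 + c2 + rb
  have hn : 2 * π * ‖W‖ ≤ ‖T1 + r2‖ + ‖T2 + r1‖ + ‖B1 + r4‖ + ‖B2 + r3‖ + ‖V1 - V3‖ +
      ‖V2 - V4‖ := by
    have h1 : ‖((2 * π : ℂ) * I) • W‖ = 2 * π * ‖W‖ := by
      rw [norm_smul]; simp [abs_of_pos hpi]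
    have h2 : ∀ v : E, ‖I • v‖ = ‖v‖ := fun v => by rw [norm_smul, norm_I, one_mul]
    rw [← h1, key, ← h2 (V1 - V3), ← h2 (V2 - V4)]
    refine (norm_sub_le _ _).trans (add_le_add ((norm_add_le _ _).trans (add_le_add
      ((norm_sub_le _ _).trans (add_le_add ((norm_sub_le _ _).trans (add_le_add (norm_add_le _ _)
        le_rfl)) le_rfl)) le_rfl)) le_rfl)
  have hL : 0 ≤ L := by
    have := (norm_nonneg _).trans t1
    by_contra hc
    nlinarith [not_le.mp hc]
  have hJ0 : 0 ≤ J := by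
    have := (norm_nonneg _).trans v1
    by_contra hc
    nlinarith [not_le.mp hc]
  have hf : 2 * π * ‖W‖ ≤ 2 * π * (40 * (L + J)) := by nlinarith
  exact le_of_mul_le_mul_left hf (by positivity)

end Pool.Agent.P.MP_6c8efb_pr.Cardy
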