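import Pool.Agent.P.MP_6c8efb_pr.Cardy.AIface

/-! The double row transfer operators commute. -/

open Matrix Complex
open scoped Matrix.Norms.L2Operator ComplexConjugate Real

namespace Pool.Agent.P.MP_6c8efb_pr.Cardy

namespace CommA

variable {ι : Type} [Fintype ι] [DecidableEq ι]

/-- functions of four auxiliary arrows -/
abbrev K4 := Bool → Bool → Bool → Bool → ℂ

/-- matrices on a pair of auxiliary arrows -/
abbrev X4 := Matrix (Bool × Bool) (Bool × Bool) ℂ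

/-- four rows closed with boundary tensors -/
noncomputable def F (κ κ' : K4) (M₁ M₂ M₃ M₄ : Matrix Bool Bool (Op ι)) : Op ι :=
  ∑ a₁, ∑ a₂, ∑ a₃, ∑ a₄, ∑ b₁, ∑ b₂, ∑ b₃, ∑ b₄,
    (κ a₁ a₂ a₃ a₄ * κ' b₁ b₂ b₃ b₄) • (M₄ a₄ b₄ * (M₃ a₃ b₃ * (M₂ a₂ b₂ * M₁ a₁ b₁)))

theorem F23 (κ κ' : K4) (M₁ M₂ M₃ M₄ : Matrix Bool Bool (Op ι)) :
    F κ κ' M₁ M₂ M₃ M₄ = ∑ a₁, ∑ a₄, ∑ b₁, ∑ b₄,
      M₄ a₄ b₄ * cl (fun a : Bool × Bool => κ a₁ a.1 a.2 a₄) (fun b => κ' b₁ b.1 b.2 b₄)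
        (st M₃ M₂) * M₁ a₁ b₁ := by
  simp only [F, cl, st_apply, Finset.sum_mul, Finset.mul_sum, smul_mul_assoc, mul_smul_comm,
    mul_assoc]
  simp only [← Fintype.sum_prod_type']
  exact Fintype.sum_equiv
    ⟨fun x => (x.1, x.2.2.2.1, x.2.2.2.2.1, x.2.2.2.2.2.2.2, (x.2.1, x.2.2.1),
        (x.2.2.2.2.2.1, x.2.2.2.2.2.2.1)),
     fun y => (y.1, y.2.2.2.2.1.1, y.2.2.2.2.1.2, y.2.1, y.2.2.1, y.2.2.2.2.2.1, y.2.2.2.2.2.2,
        y.2.2.2.1), fun _ => rfl, fun _ => rfl⟩ _ _ fun x => rfl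

theorem F12 (κ κ' : K4) (M₁ M₂ M₃ M₄ : Matrix Bool Bool (Op ι)) :
    F κ κ' M₁ M₂ M₃ M₄ = ∑ a₃, ∑ a₄, ∑ b₃, ∑ b₄,
      M₄ a₄ b₄ * (M₃ a₃ b₃ * cl (fun a : Bool × Bool => κ a.1 a.2 a₃ a₄)
        (fun b => κ' b.1 b.2 b₃ b₄) (st M₂ M₁)) := by
  simp only [F, cl, st_apply, Finset.mul_sum, mul_smul_comm]
  simp only [← Fintype.sum_prod_type']
  exact Fintype.sum_equiv
    ⟨fun x => (x.2.2.1, x.2.2.2.1, x.2.2.2.2.2.2.1, x.2.2.2.2.2.2.2, (x.1, x.2.1),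
        (x.2.2.2.2.1, x.2.2.2.2.2.1)),
     fun y => (y.2.2.2.2.1.1, y.2.2.2.2.1.2, y.1, y.2.1, y.2.2.2.2.2.1, y.2.2.2.2.2.2, y.2.2.1,
        y.2.2.2.1), fun _ => rfl, fun _ => rfl⟩ _ _ fun x => rfl

theorem F34 (κ κ' : K4) (M₁ M₂ M₃ M₄ : Matrix Bool Bool (Op ι)) :
    F κ κ' M₁ M₂ M₃ M₄ = ∑ a₁, ∑ a₂, ∑ b₁, ∑ b₂,
      cl (fun a : Bool × Bool => κ a₁ a₂ a.1 a.2) (fun b => κ' b₁ b₂ b.1 b.2) (st M₄ M₃) *
        (M₂ a₂ b₂ * M₁ a₁ b₁) := by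
  simp only [F, cl, st_apply, Finset.sum_mul, smul_mul_assoc, mul_assoc]
  simp only [← Fintype.sum_prod_type']
  exact Fintype.sum_equiv
    ⟨fun x => (x.1, x.2.1, x.2.2.2.2.1, x.2.2.2.2.2.1, (x.2.2.1, x.2.2.2.1),
        (x.2.2.2.2.2.2.1, x.2.2.2.2.2.2.2)),
     fun y => (y.1, y.2.1, y.2.2.2.2.1.1, y.2.2.2.2.1.2, y.2.2.1, y.2.2.2.1, y.2.2.2.2.2.1,
        y.2.2.2.2.2.2), fun _ => rfl, fun _ => rfl⟩ _ _ fun x => rfl

theorem cl_swap {X : X4} (hX : Xᵀ = X) {M M' : Matrix (Bool × Bool) (Bool × Bool) (Op ι)}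
    (h : lift (Op ι) X * M = M' * lift (Op ι) X) (k k' : Bool × Bool → ℂ) :
    cl (X *ᵥ k) k' M = cl k (X *ᵥ k') M' := by
  rw [← cl_mul_lift, ← h, cl_lift_mul, ← Matrix.mulVec_transpose, hX]

variable {X : X4} {N₁ N₂ N₁' N₂' : Matrix Bool Bool (Op ι)}

theorem swap23 (hX : Xᵀ = X) (h : lift (Op ι) X * st N₂ N₁ = st N₂' N₁' * lift (Op ι) X)
    (κ κ' : K4) (M₁ M₄ : Matrix Bool Bool (Op ι)) :
    F (x23 X κ) κ' M₁ N₁ N₂ M₄ = F κ (x23 X κ') M₁ N₁' N₂' M₄ := by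
  rw [F23, F23]
  refine Finset.sum_congr rfl fun a₁ _ => Finset.sum_congr rfl fun a₄ _ =>
    Finset.sum_congr rfl fun b₁ _ => Finset.sum_congr rfl fun b₄ _ => ?_
  exact congrArg (fun T => M₄ a₄ b₄ * T * M₁ a₁ b₁)
    (cl_swap hX h (fun a => κ a₁ a.1 a.2 a₄) fun b => κ' b₁ b.1 b.2 b₄)

theorem swap12 (hX : Xᵀ = X) (h : lift (Op ι) X * st N₂ N₁ = st N₂' N₁' * lift (Op ι) X)
    (κ κ' : K4) (M₃ M₄ : Matrix Bool Bool (Op ι)) :
    F (x12 X κ) κ' N₁ N₂ M₃ M₄ = F κ (x12 X κ') N₁' N₂' M₃ M₄ := by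
  rw [F12, F12]
  refine Finset.sum_congr rfl fun a₃ _ => Finset.sum_congr rfl fun a₄ _ =>
    Finset.sum_congr rfl fun b₃ _ => Finset.sum_congr rfl fun b₄ _ => ?_
  exact congrArg (fun T => M₄ a₄ b₄ * (M₃ a₃ b₃ * T))
    (cl_swap hX h (fun a => κ a.1 a.2 a₃ a₄) fun b => κ' b.1 b.2 b₃ b₄)

theorem swap34 (hX : Xᵀ = X) (h : lift (Op ι) X * st N₂ N₁ = st N₂' N₁' * lift (Op ι) X)
    (κ κ' : K4) (M₁ M₂ : Matrix Bool Bool (Op ι)) :
    F (x34 X κ) κ' M₁ M₂ N₁ N₂ = F κ (x34 X κ') M₁ M₂ N₁' N₂' := by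
  rw [F34, F34]
  refine Finset.sum_congr rfl fun a₁ _ => Finset.sum_congr rfl fun a₂ _ =>
    Finset.sum_congr rfl fun b₁ _ => Finset.sum_congr rfl fun b₂ _ => ?_
  exact congrArg (fun T => T * (M₂ a₂ b₂ * M₁ a₁ b₁))
    (cl_swap hX h (fun a => κ a₁ a₂ a.1 a.2) fun b => κ' b₁ b₂ b.1 b.2)

theorem F_smul_left (c : ℂ) (κ κ' : K4) (M₁ M₂ M₃ M₄ : Matrix Bool Bool (Op ι)) :
    F (c • κ) κ' M₁ M₂ M₃ M₄ = c • F κ κ' M₁ M₂ M₃ M₄ := by
  simp only [F, Finset.smul_sum, smul_smul, Pi.smul_apply, smul_eq_mul, mul_assoc]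

theorem F_smul_right (c : ℂ) (κ κ' : K4) (M₁ M₂ M₃ M₄ : Matrix Bool Bool (Op ι)) :
    F κ (c • κ') M₁ M₂ M₃ M₄ = c • F κ κ' M₁ M₂ M₃ M₄ := by
  simp only [F, Finset.smul_sum, smul_smul, Pi.smul_apply, smul_eq_mul, mul_left_comm]

theorem cl_mul_cl_eq (k₁ k₁' k₂ k₂' : Bool × Bool → ℂ) (M₁ M₂ M₃ M₄ : Matrix Bool Bool (Op ι)) :
    cl k₂ k₂' (st M₄ M₃) * cl k₁ k₁' (st M₂ M₁) = F (k4 k₁ k₂) (k4 k₁' k₂') M₁ M₂ M₃ M₄ := by
  rw [cl_mul_cl, F23]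
  rfl

/-- the scalar of the unitarity relation -/
noncomputable def g (w : ℂ) : ℂ := sa w * sa (-w)

theorem g_neg (w : ℂ) : g (-w) = g w := by rw [g, g, neg_neg, mul_comm]

theorem Rx_symm (w : ℂ) : (Rx w)ᵀ = Rx w := by
  ext ⟨a, b⟩ ⟨c, d⟩
  cases a <;> cases b <;> cases c <;> cases d <;> simp [Rx]

theorem Rx_mul (w : ℂ) : Rx w * Rx (-w) = g w • (1 : X4) := by
  have h1 : sb (-w) = -sb w := by rw [sb, sb, neg_div, Complex.sin_neg]
  have h2 : sc * sc - sb w * sb w = sa w * sa (-w) := by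
    rw [sa, sa, sb, sc, neg_div, sub_neg_eq_add, Complex.sin_sub, Complex.sin_add]
    linear_combination (-(Complex.sin (π / 3)) ^ 2) * Complex.sin_sq_add_cos_sq (w / 3) +
      Complex.sin (w / 3) ^ 2 * Complex.sin_sq_add_cos_sq (π / 3)
  ext ⟨a, b⟩ ⟨c, d⟩
  cases a <;> cases b <;> cases c <;> cases d <;>
    simp [Rx, Matrix.mul_apply, Fintype.sum_prod_type, g, h1, ← h2] <;> ring

theorem mulVec_Rx (w : ℂ) (k : Bool × Bool → ℂ) : Rx w *ᵥ (Rx (-w) *ᵥ k) = g w • k := by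
  rw [Matrix.mulVec_mulVec, Rx_mul, Matrix.smul_mulVec, Matrix.one_mulVec]

theorem x12_Rx (w : ℂ) (κ : K4) : x12 (Rx w) (x12 (Rx (-w)) κ) = g w • κ := by
  ext a b c d
  exact congrFun (mulVec_Rx w fun m => κ m.1 m.2 c d) (a, b)

theorem x23_Rx (w : ℂ) (κ : K4) : x23 (Rx w) (x23 (Rx (-w)) κ) = g w • κ := by
  ext a b c d
  exact congrFun (mulVec_Rx w fun m => κ a m.1 m.2 d) (b, c)

theorem x34_Rx (w : ℂ) (κ : K4) : x34 (Rx w) (x34 (Rx (-w)) κ) = g w • κ := by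
  ext a b c d
  exact congrFun (mulVec_Rx w fun m => κ a b m.1 m.2) (c, d)

theorem x12_smul (Y : X4) (c : ℂ) (κ : K4) : x12 Y (c • κ) = c • x12 Y κ := by
  ext a b c d
  simp only [x12, Pi.smul_apply, smul_eq_mul, Finset.mul_sum, mul_left_comm]

theorem x23_smul (Y : X4) (c : ℂ) (κ : K4) : x23 Y (c • κ) = c • x23 Y κ := by
  ext a b c d
  simp only [x23, Pi.smul_apply, smul_eq_mul, Finset.mul_sum, mul_left_comm]

theorem rtt (h : S_Ybe) {l : List ι} (hl : l.Nodup) (x y w : ℂ) (hw : w = y - x) :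
    lift (Op ι) (Rx w) * st (row y l) (row x l) = st (row x l) (row y l) * lift (Op ι) (Rx w) := by
  rw [hw, row, row, ← chain_st _ _ hl, ← chain_st _ _ hl]
  exact chain_lift (h x y) l

theorem scaled (h : S_Ybe) (h2 : S_Refl) (α γ : ℝ) {l : List ι} (hl : l.Nodup) (u v : ℂ) :
    (g (u + v - π) * g (v - u)) • (DD α γ l v * DD α γ l u) =
      (g (u + v - π) * g (v - u)) • (DD α γ l u * DD α γ l v) := by
  have eR : ∀ z, kR γ z = kL (-γ) (-γ) (π - z) := fun z => rfl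
  have hL : x23 (Rx (u + v - π)) (x12 (Rx (v - u)) (x34 (Rx (u - v)) (x23 (Rx (π - v - u))
      (k4 (kL α α v) (kL α α u))))) =
      (g (u + v - π) * g (v - u)) • k4 (kL α α u) (kL α α v) := by
    rw [h2 α v u, show u - v = -(v - u) by ring, x12_Rx, x23_smul,
      show π - v - u = -(u + v - π) by ring, x23_Rx, smul_smul, mul_comm]
  have hR : x23 (Rx (π - v - u)) (x34 (Rx (u - v)) (x12 (Rx (v - u)) (x23 (Rx (u + v - π))
      (k4 (kR γ u) (kR γ v))))) =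
      (g (u + v - π) * g (v - u)) • k4 (kR γ v) (kR γ u) := by
    have e := h2 (-γ) (π - v) (π - u)
    rw [show π - u - (π - v) = v - u by ring, show π - (π - v) - (π - u) = u + v - π by ring] at e
    rw [eR, eR, ← e, show v - u = -(u - v) by ring, x34_Rx, x23_smul,
      show u + v - π = -(π - v - u) by ring, x23_Rx, smul_smul, g_neg, g_neg, mul_comm]
  simp only [DD, cl_mul_cl_eq]
  rw [← F_smul_left, ← F_smul_right, ← hL, ← hR,
    swap23 (Rx_symm _) (rtt h hl (π - u) v _ (by ring)),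
    swap12 (Rx_symm _) (rtt h hl u v _ rfl),
    swap34 (Rx_symm _) (rtt h hl (π - u) (π - v) _ (by ring)),
    swap23 (Rx_symm _) (rtt h hl u (π - v) _ rfl)]

theorem countable_sa (f : ℂ → ℂ) (hf : Function.Injective f) : {u | sa (f u) = 0}.Countable := by
  have : {w : ℂ | sa w = 0}.Countable :=
    (Set.countable_range fun k : ℤ => (π : ℂ) - 3 * (k * π)).mono fun w hw => by
      obtain ⟨k, hk⟩ := Complex.sin_eq_zero_iff.1 hw
      exact ⟨k, by linear_combination 3 * hk⟩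
  exact this.preimage hf

theorem countable_g (f : ℂ → ℂ) (hf : Function.Injective f) : {u | g (f u) = 0}.Countable :=
  ((countable_sa f hf).union (countable_sa (fun u => -f u) (neg_injective.comp hf))).mono
    fun _ hu => mul_eq_zero.1 hu

end CommA

open CommA in
theorem s_Comm (h : S_Ybe) (h2 : S_Refl) (h3 : S_An) : S_Comm := by
  intro ι _ _ α γ l hl u hu v _
  have hZ : {z : ℂ | g (z + v - π) * g (v - z) = 0}.Countable :=
    ((countable_g (fun z => z + v - π) fun a b e => by simpa using e).union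
      (countable_g (fun z => v - z) fun a b e => by simpa using e)).mono
      fun _ hz => mul_eq_zero.1 hz
  have hO : IsOpen Big := (isOpen_lt continuous_const Complex.continuous_re).inter
    (isOpen_lt Complex.continuous_re continuous_const)
  have hc : ContinuousAt (DD α γ l) u :=
    ((h3 ι α γ l l).1.differentiableAt (hO.mem_nhds hu)).continuousAt
  have hf : ContinuousAt (fun z => DD α γ l z * DD α γ l v - DD α γ l v * DD α γ l z) u :=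
    (hc.mul continuousAt_const).sub (continuousAt_const.mul hc)
  have := hf.continuousWithinAt.mem_closure (t := {0}) (hZ.dense_compl ℂ u) fun z hz => by
    have e := scaled h h2 α γ hl z v
    rw [Set.mem_singleton_iff, sub_eq_zero]
    exact (smul_right_injective _ hz e).symm
  rw [closure_singleton, Set.mem_singleton_iff, sub_eq_zero] at this
  exact this

end Pool.Agent.P.MP_6c8efb_pr.Cardy
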