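import Pool.Agent.P.MP_6c8efb_pr.Cardy.AIface

/-! Crossing symmetry, initial value and adjoint of the double row transfer operator. -/

open Matrix Complex
open scoped Matrix.Norms.L2Operator ComplexConjugate Real

namespace Pool.Agent.P.MP_6c8efb_pr.Cardy

namespace CrossA

variable {ι : Type} [Fintype ι] [DecidableEq ι]

theorem cos_ne {z : ℂ} (h1 : -(π / 2) < z.re) (h2 : z.re < π / 2) : cos z ≠ 0 := fun h => by
  obtain ⟨k, rfl⟩ := cos_eq_zero_iff.1 h
  have e : ((2 * k + 1) * π / 2 : ℂ) = (((2 * k + 1) * π / 2 : ℝ) : ℂ) := by push_cast; rfl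
  rw [e, ofReal_re] at h1 h2
  have h3 : (-1 : ℝ) < k := by nlinarith [Real.pi_pos]
  have h4 : (k : ℝ) < 0 := by nlinarith [Real.pi_pos]
  have h5 : (-1 : ℤ) < k := by exact_mod_cast h3
  have h6 : k < 0 := by exact_mod_cast h4
  omega

theorem ph_tf (α : ℝ) : ph α true * ph α false = 1 := by
  rw [← ph_mul_neg α true, ← ph_not]; rfl

theorem kL_Rx (α : ℝ) {u : ℂ} (hu : u ∈ Big) :
    kL α α (π - u) ᵥ* Rx (π - u - u) = sn (π - u - u) • kL α α u := by
  have p := Real.pi_pos
  have hB : cos (u / 3) ≠ 0 := cos_ne (by simp; linarith [hu.1]) (by simp; linarith [hu.2])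
  have hA : cos (π / 3 - u / 3) ≠ 0 := cos_ne (by simp; linarith [hu.2]) (by simp; linarith [hu.1])
  have e1 : sa (π - u - u) = 2 * sin (u / 3) * cos (u / 3) := by
    rw [← sin_two_mul, sa]; congr 1; ring
  have e2 : sn (π - u - u) = 2 * sin (π / 3 - u / 3) * cos (π / 3 - u / 3) := by
    rw [← sin_two_mul, sn]; congr 1; ring
  have e3 : sb (π - u - u) = sin (π / 3 - u / 3) * cos (u / 3) - cos (π / 3 - u / 3) * sin (u / 3) := by
    rw [← sin_sub, sb]; congr 1; ring
  have e4 : sc = sin (π / 3 - u / 3) * cos (u / 3) + cos (π / 3 - u / 3) * sin (u / 3) := by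
    rw [← sin_add, sc]; congr 1; ring
  have e5 : (π - u) / 3 = π / 3 - u / 3 := by ring
  have e6 : π / 3 - (π / 3 - u / 3) = u / 3 := by ring
  have k1 : ∀ a b, kb u a b = (if a = b then sin (u / 3) else 1 / 2) / cos (π / 3 - u / 3) :=
    fun a b => rfl
  have k2 : ∀ a b, kb (π - u) a b = (if a = b then sin (π / 3 - u / 3) else 1 / 2) / cos (u / 3) :=
    fun a b => by rw [kb, sb, e5, e6]
  ext ⟨a, b⟩
  simp only [vecMul, dotProduct, Fintype.sum_prod_type, Fintype.sum_bool, kL, k1, k2, Rx, of_apply,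
    Pi.smul_apply, smul_eq_mul, e1, e2, e3, e4, Prod.mk.injEq]
  generalize cos (u / 3) = x, cos (π / 3 - u / 3) = x', sin (u / 3) = y, sin (π / 3 - u / 3) = y'
    at hA hB ⊢
  cases a <;> cases b <;> simp <;> field_simp <;> ring

theorem Rx_symm (w : ℂ) : (Rx w)ᵀ = Rx w := by
  ext ⟨a, b⟩ ⟨c, d⟩
  cases a <;> cases b <;> cases c <;> cases d <;> simp [Rx]

omit [Fintype ι] [DecidableEq ι] in
theorem cl_smul (c : ℂ) (k k' : Bool × Bool → ℂ) (M : Matrix (Bool × Bool) (Bool × Bool) (Op ι)) :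
    cl (c • k) k' M = c • cl k k' M ∧ cl k (c • k') M = c • cl k k' M := by
  simp only [cl, Pi.smul_apply, smul_eq_mul, Finset.smul_sum, smul_smul, mul_assoc, mul_left_comm,
    and_self]

theorem mem_big {u : ℂ} (hu : u ∈ Big) : π - u ∈ Big :=
  ⟨by simp; linarith [hu.2], by simp; linarith [hu.1]⟩

theorem cross (h : S_Ybe) (α γ : ℝ) {l : List ι} (hl : l.Nodup) {u : ℂ} (hu : u ∈ Big)
    (h0 : u ≠ π) : DD α γ l (π - u) = DD α γ l u := by
  have h1 := congrArg (cl (kL α α (π - u)) (kR γ u)) (chain_lift (h u (π - u)) l)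
  have h2 : Rx (π - u - u) *ᵥ kR γ u = sn (π - u - u) • kR γ (π - u) := by
    rw [← Rx_symm, mulVec_transpose]
    refine (kL_Rx (-γ) hu).trans ?_
    congr 1
    ext b
    simp only [kL, kR, sub_sub_cancel]
  rw [cl_lift_mul, cl_mul_lift, kL_Rx α hu, h2, (cl_smul _ _ _ _).1, (cl_smul _ _ _ _).2,
    chain_st _ _ hl, chain_st _ _ hl] at h1
  have h3 : sn (π - u - u) ≠ 0 := fun h3 => by
    obtain ⟨k, hk⟩ := sin_eq_zero_iff.1 h3
    have h4 := congrArg re hk
    have p := Real.pi_pos
    simp at h4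
    have h5 : (-1 : ℝ) < k := by nlinarith [hu.2]
    have h6 : (k : ℝ) < 1 := by nlinarith [hu.1]
    have h7 : (-1 : ℤ) < k := by exact_mod_cast h5
    have h8 : k < 1 := by exact_mod_cast h6
    obtain rfl : k = 0 := by omega
    exact h0 (by push_cast at hk; linear_combination -3 / 2 * hk)
  rw [DD, DD, sub_sub_cancel]
  exact (smul_right_injective _ h3 h1).symm

theorem star_row {l : List ι} (hl : l.Nodup) (u : ℂ) (a b : Bool) :
    star (row u l a b) = row (π - conj u) l (!a) (!b) := by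
  have e1 : sa (π - conj u) = conj (sb u) := by
    rw [sa, sb, ← sin_conj]; congr 1; simp [map_ofNat]; ring
  have e2 : sb (π - conj u) = conj (sa u) := by
    rw [sa, sb, ← sin_conj]; congr 1; simp [map_ofNat]; ring
  have e3 : sn (π - conj u) = conj (sn u) := by
    rw [sn, sn, ← sin_conj, ← sin_pi_sub]; congr 1; simp [map_ofNat]; ring
  have e4 : conj sc = sc := by rw [sc, ← sin_conj]; congr 1; simp [map_ofNat]
  have e : (Lg u).map star = (Lg (π - conj u)).submatrix Equiv.boolNot Equiv.boolNot := by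
    ext a b t s
    cases a <;> cases b <;> cases t <;> cases s <;> simp [Lg, Lw, e1, e2, e3, e4]
  rw [row, star_chain _ hl, e, chain_reindex]
  rfl

theorem star_kL (α : ℝ) (u : ℂ) (a : Bool × Bool) :
    star (kL α α u a) = kL α α (conj u) (!a.2, !a.1) := by
  have e1 : star (sb u) = sb (conj u) := by
    rw [sb, sb, star_def, ← sin_conj]; congr 1; simp [map_ofNat]
  have e2 : star (cos (π / 3 - u / 3)) = cos (π / 3 - conj u / 3) := by
    rw [star_def, ← cos_conj]; congr 1; simp [map_ofNat]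
  simp only [kL, kb, star_mul', star_div₀, star_ph, ph_not, e2, Bool.not_inj_iff]
  rw [mul_right_comm]
  obtain ⟨a, b⟩ := a
  cases a <;> cases b <;> simp [e1]

/-- reversing both arrows and exchanging the rows -/
def sw : Bool × Bool ≃ Bool × Bool :=
  ⟨fun a => (!a.2, !a.1), fun a => (!a.2, !a.1), fun a => by simp, fun a => by simp⟩

theorem kb_half (a b : Bool) : kb (π / 2) a b = ((√3)⁻¹ : ℝ) := by
  have e1 : sb (π / 2) = 1 / 2 := by
    rw [sb, show (π / 2 / 3 : ℂ) = (π / 6 : ℝ) by push_cast; ring, ← ofReal_sin, Real.sin_pi_div_six]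
    simp
  rw [kb, e1, ite_self, show (π / 3 - π / 2 / 3 : ℂ) = (π / 6 : ℝ) by push_cast; ring, ← ofReal_cos,
    Real.cos_pi_div_six]
  push_cast
  field_simp

end CrossA

open CrossA in
theorem s_Cross (h : S_Ybe) (h2 : S_Fus) (h3 : S_An) : S_Cross := by
  intro ι _ _ α γ l hl
  have p := Real.pi_pos
  have hh : (π - π / 2 : ℂ) = π / 2 := by ring
  refine ⟨fun u hu => ?_, ?_, fun u => ?_, ?_, ?_⟩
  · by_cases h0 : u = π
    · rw [h0, sub_self, ← cross h α γ hl (u := 0) ⟨by simp; linarith, by simp; linarith⟩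
        (by exact_mod_cast p.ne), sub_zero]
    · exact cross h α γ hl hu h0
  · have h4 := (h2 ι l 0 (by simpa)).2.2.2
    have e : cos (π / 3 : ℂ) = 1 / 2 := by
      rw [show (π / 3 : ℂ) = (π / 3 : ℝ) by push_cast; ring, ← ofReal_cos, Real.cos_pi_div_three]
      simp
    have h5 : kL α α 0 = cv := by
      ext ⟨a, b⟩
      have := ph_tf α
      cases a <;> cases b <;> simp [kL, kb, cv, sb, e, this, mul_comm (ph α false)]
    rw [P1, chain_st _ _ hl, add_zero] at h4
    rw [DD, sub_zero, h5, cl, Finset.sum_comm]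
    simp only [mul_comm (cv _), ← smul_smul, ← Finset.smul_sum, row, h4]
    simp only [smul_smul, ← Finset.sum_smul]
    have := ph_tf (-γ)
    convert one_smul ℂ _
    simp [Fintype.sum_prod_type, kR, kb, cv, mul_assoc, this, mul_comm (ph (-γ) false)]
    norm_num
  · have e : π - conj (π - u) = conj u := by simp
    simp only [DD, cl, star_sum, star_smul, st_apply, star_mul, star_row hl, e]
    refine Fintype.sum_equiv sw _ _ fun a => Fintype.sum_equiv sw _ _ fun b => ?_
    congr 1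
    rw [mul_comm, star_kL]
    congr 1
    refine (star_kL (-γ) (π - u) b).trans ?_
    simp only [kL, kR, sw, Equiv.coe_fn_mk, map_sub, conj_ofReal]
  · simp only [DD, T1, cl, cl1, hh, kL, kR, kb_half, st_apply, pow_two, Fintype.sum_prod_type,
      Fintype.sum_bool, add_mul, mul_add, smul_mul_smul_comm]
    module
  · have e : π - conj (π / 2 : ℂ) = π / 2 := by simp [map_ofNat, hh]
    simp only [T1, cl1, star_sum, star_smul, star_row hl, e, star_mul', star_ph, ← ph_not α,
      ← ph_not (-γ)]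
    refine Fintype.sum_equiv Equiv.boolNot _ _ fun a => Fintype.sum_equiv Equiv.boolNot _ _
      fun b => ?_
    simp

end Pool.Agent.P.MP_6c8efb_pr.Cardy
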