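import Pool.Agent.P.MP_6c8efb_pr.Cardy.AIface

/-! Simultaneous diagonalisation of a commuting normal family. -/

open Matrix Complex
open scoped Matrix.Norms.L2Operator ComplexConjugate Real

namespace Pool.Agent.P.MP_6c8efb_pr.Cardy

namespace EigA

variable {n : Type} [Fintype n] [DecidableEq n]

theorem simul {κ : Type} (A : κ → Matrix n n ℂ) (hA : ∀ i, (A i).IsHermitian)
    (hc : ∀ i j, Commute (A i) (A j)) :
    ∃ V ∈ Matrix.unitaryGroup n ℂ, ∀ i, ∃ d : n → ℂ, A i * V = V * diagonal d := by
  classical
  set T : κ → Module.End ℂ (EuclideanSpace ℂ n) := fun i => toEuclideanLin (A i) with hT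
  have hs : ∀ i, (T i).IsSymmetric := fun i => isSymmetric_toEuclideanLin_iff.2 (hA i)
  have hC : Pairwise (Function.onFun Commute T) := fun i j _ => by
    show T i * T j = T j * T i
    simp only [hT, Module.End.mul_eq_comp, ← Matrix.toLpLin_mul_same, (hc i j).eq]
  have hI := LinearMap.IsSymmetric.directSum_isInternal_of_pairwise_commute hs hC
  have hO := LinearMap.IsSymmetric.orthogonalFamily_iInf_eigenspaces hs
  set b := hI.collectedBasis fun χ => (stdOrthonormalBasis ℂ _).toBasis with hb
  have ho : Orthonormal ℂ b := DirectSum.IsInternal.collectedBasis_orthonormal hO hI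
    fun χ => by simp
  set e := b.indexEquiv (EuclideanSpace.basisFun n ℂ).toBasis with he
  have ho' : Orthonormal ℂ (b.reindex e) := by
    rw [Module.Basis.coe_reindex]; exact ho.comp _ e.symm.injective
  set B := (b.reindex e).toOrthonormalBasis ho' with hB
  refine ⟨(EuclideanSpace.basisFun n ℂ).toBasis.toMatrix B,
    (EuclideanSpace.basisFun n ℂ).toMatrix_orthonormalBasis_mem_unitary B, fun i =>
      ⟨fun k => (e.symm k).1 i, ?_⟩⟩
  ext r k
  have h1 : B k ∈ ⨅ j, Module.End.eigenspace (T j) ((e.symm k).1 j) := by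
    have := hI.collectedBasis_mem (fun χ => (stdOrthonormalBasis ℂ _).toBasis) (e.symm k)
    simpa only [hB, Module.Basis.coe_toOrthonormalBasis, Module.Basis.reindex_apply] using this
  have h2 := Module.End.mem_eigenspace_iff.1 ((Submodule.mem_iInf _).1 h1 i)
  have h3 := congrArg (fun v : EuclideanSpace ℂ n => v r) h2
  simp only [hT, toLpLin_apply, PiLp.smul_apply, smul_eq_mul, mulVec, dotProduct] at h3
  rw [Matrix.mul_diagonal, Matrix.mul_apply, mul_comm]
  exact h3

theorem entry_le {V X : Matrix n n ℂ} (hV : V ∈ Matrix.unitaryGroup n ℂ) {d : n → ℂ}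
    (h : star V * X * V = diagonal d) (k : n) : ‖d k‖ ≤ ‖X‖ := by
  have h1 : ‖star V * X * V‖ = ‖X‖ := by
    rw [CStarRing.norm_mul_mem_unitary _ hV, CStarRing.norm_mem_unitary_mul _ (Unitary.star_mem hV)]
  rw [← h1, h, l2_opNorm_diagonal]
  exact norm_le_pi_norm d k

theorem conj_mem {u : ℂ} (h : u ∈ Big) : conj u ∈ Big := by simpa [Big] using h

theorem sub_mem {u : ℂ} (h : u ∈ Big) : π - u ∈ Big := by
  obtain ⟨h1, h2⟩ := h
  constructor <;> simp only [sub_re, ofReal_re] <;> linarith

theorem phys_mem {u : ℂ} (h : u ∈ Phys) : u ∈ Big := by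
  obtain ⟨h1, h2⟩ := h
  have := Real.pi_pos
  constructor <;> linarith

theorem thin_mem {u : ℂ} (h : |u.re| ≤ 1 / 10) : u ∈ Big := by
  have := Real.pi_gt_three
  rw [abs_le] at h
  constructor <;> linarith [h.1, h.2]

end EigA

open EigA in
theorem s_Eig : S_Eig := by
  intro n _ _ C N D hD
  have hc1 : ∀ u ∈ Big, ∀ v ∈ Big, Commute (D u) (star (D v)) := fun u hu v hv => by
    rw [hD.adj v hv]; exact hD.comm u hu _ (conj_mem hv)
  have hc2 : ∀ u ∈ Big, ∀ v ∈ Big, Commute (star (D u)) (star (D v)) := fun u hu v hv => by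
    rw [hD.adj u hu]; exact hc1 _ (conj_mem hu) v hv
  obtain ⟨V, hV, hd⟩ := simul (κ := Big × Bool) (fun i => if i.2 then D i.1 + star (D i.1) else
    I • (D i.1 - star (D i.1))) (by
      rintro ⟨u, _ | _⟩
      · show star _ = _
        simp only [Bool.false_eq_true, if_false, star_smul, star_sub, star_star, RCLike.star_def,
          conj_I, neg_smul, ← smul_neg, neg_sub]
      · show star _ = _
        simp only [if_true, star_add, star_star, add_comm]) (by
      have h1 : ∀ (u v : Big) (a b : ℂ) (c d : ℂ), Commute (a • D u + b • star (D u))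
          (c • D v + d • star (D v)) := fun u v a b c d =>
        ((((hD.comm u u.2 v v.2).smul_left a).smul_right c).add_right
          (((hc1 u u.2 v v.2).smul_left a).smul_right d)).add_left
        (((((hc1 v v.2 u u.2).symm).smul_left b).smul_right c).add_right
          (((hc2 u u.2 v v.2).smul_left b).smul_right d))
      have h2 : ∀ i : Big × Bool, ∃ a b : ℂ, (if i.2 then D i.1 + star (D i.1) else
          I • (D i.1 - star (D i.1))) = a • D i.1 + b • star (D i.1) := by
        rintro ⟨u, _ | _⟩
        · exact ⟨I, -I, by simp [sub_eq_add_neg]⟩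
        · exact ⟨1, 1, by simp⟩
      intro i j
      obtain ⟨a, b, e⟩ := h2 i
      obtain ⟨c, d, e'⟩ := h2 j
      rw [e, e']
      exact h1 _ _ _ _ _ _)
  have hV1 : star V * V = 1 := (Matrix.mem_unitaryGroup_iff').1 hV
  have hV2 : V * star V = 1 := (Matrix.mem_unitaryGroup_iff).1 hV
  have hdiag : ∀ u ∈ Big, star V * D u * V = diagonal fun k => (star V * D u * V) k k := by
    intro u hu
    obtain ⟨d₁, h1⟩ := hd (⟨u, hu⟩, true)
    obtain ⟨d₂, h2⟩ := hd (⟨u, hu⟩, false)
    simp only [if_true, Bool.false_eq_true, if_false] at h1 h2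
    have h3 : D u = (1 / 2 : ℂ) • ((D u + star (D u)) - I • (I • (D u - star (D u)))) := by
      rw [smul_smul, I_mul_I]
      module
    have h4 : star V * D u * V = diagonal fun k => (1 / 2 : ℂ) * (d₁ k - I * d₂ k) := by
      rw [mul_assoc, h3, smul_mul_assoc, sub_mul, smul_mul_assoc, h1, h2, mul_smul_comm, mul_sub,
        mul_smul_comm, ← mul_assoc, ← mul_assoc, hV1, one_mul, one_mul]
      ext r s
      by_cases h : r = s
      · subst h; simp
      · simp [diagonal_apply_ne _ h]
    rw [h4]; simp
  refine ⟨V, hV, fun k u => (star V * D u * V) k k, fun k => ⟨?_, fun u hu => ?_, fun u hu => ?_,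
    ?_, fun u hu => ?_, fun u hu => ?_, fun u hu => ?_⟩, fun u hu => ?_⟩
  · let L : Matrix n n ℂ →ₗ[ℂ] ℂ :=
      { toFun := fun X => (star V * X * V) k k
        map_add' := fun X Y => by simp [mul_add, add_mul]
        map_smul' := fun c X => by simp }
    exact (LinearMap.toContinuousLinearMap L).differentiable.comp_differentiableOn hD.diff
  · beta_reduce
    rw [← hD.adj u hu]
    have : star V * star (D u) * V = star (star V * D u * V) := by simp [mul_assoc]
    rw [this, Matrix.star_apply, RCLike.star_def]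
  · simp only [hD.cross u hu]
  · simp [hD.zero, hV1]
  · exact (entry_le hV (hdiag u (phys_mem hu)) k).trans (hD.bd u hu)
  · refine le_trans (entry_le hV (X := D (-u) * D u - 1)
      (d := fun k => (star V * D (-u) * V) k k * (star V * D u * V) k k - 1) ?_ k) (hD.inv u hu)
    have h1 : star V * (D (-u) * D u - 1) * V =
        (star V * D (-u) * V) * (star V * D u * V) - 1 := by
      rw [mul_sub, sub_mul, mul_one, hV1]
      congr 1
      simp only [mul_assoc]
      rw [← mul_assoc V, hV2, one_mul]
    rw [h1, hdiag u (thin_mem hu), hdiag (-u) (thin_mem (by simpa using hu)), diagonal_mul_diagonal,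
      ← diagonal_one, diagonal_sub]
    simp
  · exact (entry_le hV (hdiag u (thin_mem hu)) k).trans (hD.crude u hu)
  · rw [← hdiag u hu]
    simp only [mul_assoc]
    rw [hV2, mul_one, ← mul_assoc, hV2, one_mul]

end Pool.Agent.P.MP_6c8efb_pr.Cardy
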