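import Pool.Agent.P.MP_6c8efb_pr.Cardy.AIface

/-! Fusion and the Yang-Baxter equation. -/

open Matrix Complex
open scoped Matrix.Norms.L2Operator ComplexConjugate Real

namespace Pool.Agent.P.MP_6c8efb_pr.Cardy

namespace FusA

theorem cos3 : cos (π / 3 : ℂ) = 1 / 2 := by
  rw [show (π / 3 : ℂ) = ((π / 3 : ℝ) : ℂ) by push_cast; rfl, ← ofReal_cos, Real.cos_pi_div_three]
  norm_num

theorem sc_sq : sc ^ 2 = 3 / 4 := by
  have := sin_sq_add_cos_sq (π / 3 : ℂ)
  rw [cos3] at this
  rw [sc]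
  linear_combination this

theorem sc_ne : sc ≠ 0 := fun h => by
  have := sc_sq
  rw [h] at this
  norm_num at this

theorem sa_eq (u : ℂ) : sa u = sc * cos (u / 3) - sin (u / 3) / 2 := by
  rw [sa, sin_sub, cos3, sc]; ring

theorem sn_eq (u : ℂ) : sn u = sa u + sb u := by
  rw [sa_eq, sn, sin_add, cos3, sc, sb]; ring

theorem quad (u : ℂ) : sc ^ 2 = sa u ^ 2 + sa u * sb u + sb u ^ 2 := by
  rw [sa_eq, sb]
  linear_combination (-sc ^ 2) * sin_sq_add_cos_sq (u / 3) + sin (u / 3) ^ 2 * sc_sq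

theorem sb_sub (u v : ℂ) : sc * sb (v - u) = sb v * sa u - sa v * sb u := by
  rw [sa_eq, sa_eq, sb, sb, sb, sub_div, sin_sub]; ring

theorem sa_sub (u v : ℂ) : sc * sa (v - u) = sa v * sa u + sa v * sb u + sb v * sb u := by
  rw [sa_eq, sa_eq, sa_eq, sb, sb, sub_div, sin_sub, cos_sub]
  linear_combination sin (v / 3) * sin (u / 3) * sc_sq

theorem sa_ne {u : ℂ} (h : |u.re| < π) : sa u ≠ 0 := fun h0 => by
  obtain ⟨k, hk⟩ := Complex.sin_eq_zero_iff.1 h0
  have h1 := congrArg Complex.re hk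
  simp only [sub_re, div_ofNat_re, ofReal_re, mul_re, intCast_re, intCast_im, ofReal_im,
    mul_zero, sub_zero] at h1
  rw [abs_lt] at h
  have := Real.pi_pos
  have h2 : (0 : ℝ) < k := by nlinarith
  have h3 : (k : ℝ) < 1 := by nlinarith
  norm_cast at h2 h3
  omega

theorem sa_neg (u : ℂ) : sa (-u) = sn u := by rw [sa, sn]; congr 1; ring

theorem Lg_neg (u : ℂ) : Lg (-u) = Lw (sn u / sa u) (-sb u / sa u) (sc / sa u) := by
  rw [Lg, sa_neg, ← sa_neg (-u), neg_neg, sb, sb, neg_div, sin_neg]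

theorem Lg_sub (u : ℂ) : Lg (π - u) = Lw (sb u / sn u) (sa u / sn u) (sc / sn u) := by
  have h1 : sa (π - u) = sb u := by rw [sa, sb]; congr 1; ring
  have h2 : sb (π - u) = sa u := by rw [sa, sb]; congr 1; ring
  rw [Lg, sn_eq, h1, h2, sn_eq, add_comm]

theorem Lg_add (u : ℂ) : Lg (π + u) = Lw (-sb u / sa u) (sn u / sa u) (sc / sa u) := by
  have h1 : sa (π + u) = -sb u := by rw [sa, sb, ← sin_neg]; congr 1; ring
  have h2 : sb (π + u) = sn u := by rw [sn, sb]; congr 1; ring
  rw [Lg, sn_eq, h1, h2, show -sb u + sn u = sa u by rw [sn_eq]; ring]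

theorem f1 {u : ℂ} (ha : sa u ≠ 0) (hn : sn u ≠ 0) : lift M2 pq * P2 u = Q2 u * lift M2 pq := by
  have h := quad u
  have e := sn_eq u
  rw [P2, Lg_neg, Lg_sub, Q2, G3]
  generalize sa u = a at *
  generalize sb u = b at *
  generalize sn u = n at *
  generalize sc = c at *
  ext i ⟨a₁, a₂⟩ t s
  rw [lift_mul_apply, mul_lift_apply]
  fin_cases i <;> cases a₁ <;> cases a₂ <;> cases t <;> cases s <;>
    simp [pq, st_apply, Lw, Fintype.sum_prod_type, Fin.sum_univ_three, Matrix.mul_apply] <;>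
    field_simp <;> grind

theorem f2 {u : ℂ} (ha : sa u ≠ 0) (hn : sn u ≠ 0) :
    lift M2 (Matrix.of fun a (_ : Unit) => cv a) * (1 : Gate Unit) =
      P2 u * lift M2 (Matrix.of fun a (_ : Unit) => cv a) := by
  have h := quad u
  have e := sn_eq u
  rw [P2, Lg_neg, Lg_sub]
  generalize sa u = a at *
  generalize sb u = b at *
  generalize sn u = n at *
  generalize sc = c at *
  ext ⟨a₁, a₂⟩ i t s
  rw [lift_mul_apply, mul_lift_apply]
  cases a₁ <;> cases a₂ <;> cases t <;> cases s <;>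
    simp [cv, st_apply, Lw, Fintype.sum_prod_type, Matrix.mul_apply] <;>
    field_simp <;> grind

theorem f3 {u : ℂ} (ha : sa u ≠ 0) (hn : sn u ≠ 0) : lift M2 pqᵀ * Q1 u = P1 u * lift M2 pqᵀ := by
  have h := quad u
  have e := sn_eq u
  rw [P1, Lg_add, Lg, Q1, Q2, G3]
  generalize sa u = a at *
  generalize sb u = b at *
  generalize sn u = n at *
  generalize sc = c at *
  ext ⟨a₁, a₂⟩ i t s
  rw [lift_mul_apply, mul_lift_apply]
  fin_cases i <;> cases a₁ <;> cases a₂ <;> cases t <;> cases s <;>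
    simp [pq, st_apply, Lw, Fintype.sum_prod_type, Fin.sum_univ_three, Matrix.mul_apply,
      Fin.rev] <;>
    field_simp <;> grind

theorem f4 {u : ℂ} (ha : sa u ≠ 0) (hn : sn u ≠ 0) :
    lift M2 (Matrix.of fun (_ : Unit) a => cv a) * P1 u =
      (1 : Gate Unit) * lift M2 (Matrix.of fun (_ : Unit) a => cv a) := by
  have h := quad u
  have e := sn_eq u
  rw [P1, Lg_add, Lg]
  generalize sa u = a at *
  generalize sb u = b at *
  generalize sn u = n at *
  generalize sc = c at *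
  ext i ⟨a₁, a₂⟩ t s
  rw [lift_mul_apply, mul_lift_apply]
  cases a₁ <;> cases a₂ <;> cases t <;> cases s <;>
    simp [cv, st_apply, Lw, Fintype.sum_prod_type, Matrix.mul_apply] <;>
    field_simp <;> grind

theorem chain_one {ι : Type} [Fintype ι] [DecidableEq ι] (l : List ι) :
    chain (1 : Gate Unit) l = 1 := by
  induction l with
  | nil => rfl
  | cons k l ih => rw [chain_cons, ih, mul_one, Matrix.map_one _ (map_zero _) (map_one _)]

end FusA

open FusA

theorem s_Fus : S_Fus := by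
  intro ι _ _ l u hu
  have ha := sa_ne hu
  have hn : sn u ≠ 0 := sa_neg u ▸ sa_ne (by simpa using hu)
  refine ⟨chain_lift (f1 ha hn) l, fun a => ?_, (chain_lift (f3 ha hn) l).symm, fun b => ?_⟩
  · have := congrFun (congrFun (chain_lift (f2 ha hn) l) a) ()
    rw [chain_one, lift_mul_apply, mul_lift_apply] at this
    simpa using this.symm
  · have := congrFun (congrFun (chain_lift (f4 ha hn) l) ()) b
    rw [chain_one, lift_mul_apply, mul_lift_apply] at this
    simpa using this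

theorem s_Ybe : S_Ybe := by
  intro u v
  have h1 := sa_sub u v
  have h2 := sb_sub u v
  have h3 := quad u
  have h4 := quad v
  have hc := sc_ne
  rw [Lg, Lg, Rx]
  simp only [div_eq_mul_inv]
  generalize sa (v - u) = a₃ at *
  generalize sb (v - u) = b₃ at *
  generalize sa u = a₁ at *
  generalize sb u = b₁ at *
  generalize sa v = a₂ at *
  generalize sb v = b₂ at *
  generalize (sn u)⁻¹ = x
  generalize (sn v)⁻¹ = y
  generalize sc = c at *
  ext ⟨p₁, p₂⟩ ⟨q₁, q₂⟩ t s
  rw [lift_mul_apply, mul_lift_apply]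
  cases p₁ <;> cases p₂ <;> cases q₁ <;> cases q₂ <;> cases t <;> cases s <;>
    simp [st_apply, Lw, Fintype.sum_prod_type, Matrix.mul_apply] <;> grind

end Pool.Agent.P.MP_6c8efb_pr.Cardy
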