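import Pool.Agent.P.MP_6c8efb_pr.Cardy.AIface

/-! A three lines estimate in a thin rectangle and the lower bound for large eigenvalues. -/

open Matrix Complex
open scoped Matrix.Norms.L2Operator ComplexConjugate Real

namespace Pool.Agent.P.MP_6c8efb_pr.Cardy

namespace HarnA

theorem cos_re (z : ℂ) : (cos z).re = Real.cos z.re * Real.cosh z.im := by
  rw [Complex.cos_eq]
  simp [← ofReal_cos, ← ofReal_cosh, ← ofReal_sin, ← ofReal_sinh]

theorem cos_im (z : ℂ) : (cos z).im = -(Real.sin z.re * Real.sinh z.im) := by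
  rw [Complex.cos_eq]
  simp [← ofReal_cos, ← ofReal_cosh, ← ofReal_sin, ← ofReal_sinh]

theorem sin_re (z : ℂ) : (sin z).re = Real.sin z.re * Real.cosh z.im := by
  rw [Complex.sin_eq]
  simp [← ofReal_cos, ← ofReal_cosh, ← ofReal_sin, ← ofReal_sinh]

theorem sin_im (z : ℂ) : (sin z).im = Real.cos z.re * Real.sinh z.im := by
  rw [Complex.sin_eq]
  simp [← ofReal_cos, ← ofReal_cosh, ← ofReal_sin, ← ofReal_sinh]

theorem norm_w (μ : ℝ) (u : ℂ) : ‖exp (-(μ : ℂ) * cos (((10 * π / 3 : ℝ) : ℂ) * u))‖ =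
    Real.exp (-(μ * (Real.cos (10 * π / 3 * u.re) * Real.cosh (10 * π / 3 * u.im)))) := by
  rw [Complex.norm_exp, neg_mul, neg_re, re_ofReal_mul, cos_re, re_ofReal_mul, im_ofReal_mul]

theorem half_le_cos {x : ℝ} (h : |x| ≤ 1 / 10) : 1 / 2 ≤ Real.cos (10 * π / 3 * x) := by
  rw [← Real.cos_abs, ← Real.cos_pi_div_three]
  refine Real.cos_le_cos_of_nonneg_of_le_pi (abs_nonneg _) (by linarith [Real.pi_pos]) ?_
  rw [abs_mul, abs_of_pos (by positivity)]
  nlinarith [Real.pi_pos]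

theorem tan_sq_le {u : ℂ} (h : |u.re| ≤ 1 / 10) :
    ‖tan (u / 2)‖ ^ 2 ≤ Real.exp (-(1 / (2 * Real.exp |u.im|))) := by
  have e1 : (u / 2).re = u.re / 2 := by simp
  have e2 : (u / 2).im = u.im / 2 := by simp
  set a := u.re / 2 with ha
  set b := u.im / 2 with hb
  have hs := Real.sin_sq_add_cos_sq a
  have hc := Real.cosh_sq b
  have c2 : Real.cos u.re = 2 * Real.cos a ^ 2 - 1 := by
    rw [← Real.cos_two_mul]; congr 1; rw [ha]; ring
  have h2 : Real.cosh u.im = 2 * Real.sinh b ^ 2 + 1 := by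
    have := Real.cosh_two_mul b
    rw [show 2 * b = u.im by rw [hb]; ring] at this
    linarith
  have n1 : ‖sin (u / 2)‖ ^ 2 = (Real.cosh u.im - Real.cos u.re) / 2 := by
    rw [Complex.sq_norm, normSq_apply, sin_re, sin_im, e1, e2, c2, h2]
    linear_combination (Real.sinh b ^ 2 + 1) * hs + Real.sin a ^ 2 * hc
  have n2 : ‖cos (u / 2)‖ ^ 2 = (Real.cosh u.im + Real.cos u.re) / 2 := by
    rw [Complex.sq_norm, normSq_apply, cos_re, cos_im, e1, e2, c2, h2]
    linear_combination Real.sinh b ^ 2 * hs + Real.cos a ^ 2 * hc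
  have k1 : 1 / 2 ≤ Real.cos u.re := by
    have := Real.one_sub_sq_div_two_le_cos (x := u.re)
    have h3 : u.re ^ 2 ≤ 1 := by rw [← sq_abs]; nlinarith [abs_nonneg u.re]
    linarith
  have k2 := Real.one_le_cosh u.im
  have k3 := Real.cos_le_one u.re
  have k4 : Real.cosh u.im ≤ Real.exp |u.im| := by
    rw [← Real.cosh_abs, Real.cosh_eq]
    have : Real.exp (-|u.im|) ≤ Real.exp |u.im| :=
      Real.exp_le_exp.2 (by linarith [abs_nonneg u.im])
    linarith
  rw [Complex.tan_eq_sin_div_cos, norm_div, div_pow, n1, n2]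
  refine le_trans ?_ (Real.add_one_le_exp _)
  have k5 : 1 / (2 * Real.exp |u.im|) ≤ 1 / (2 * Real.cosh u.im) :=
    one_div_le_one_div_of_le (by positivity) (by linarith)
  have k6 : 1 / (2 * Real.cosh u.im) * ((Real.cosh u.im + Real.cos u.re) / 2) ≤ 1 / 2 := by
    rw [div_mul_eq_mul_div, div_le_iff₀ (by positivity)]; linarith
  rw [div_le_iff₀ (by linarith)]
  nlinarith

end HarnA

open HarnA

theorem s_Thin : S_Thin := by
  intro f Y m μ hY hμ hd h1 h2 u hx hy
  have hm : 0 ≤ m := (norm_nonneg _).trans (h1 (1 / 10 : ℝ) (by simp) (by simpa using hY.le))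
  set g : ℂ → ℂ := fun u => f u * exp (-(μ : ℂ) * cos (((10 * π / 3 : ℝ) : ℂ) * u)) with hg
  set U : Set ℂ := Set.Ioo (-(1 / 10) : ℝ) (1 / 10) ×ℂ Set.Ioo (-Y) Y with hU
  have hcl : closure U = Set.Icc (-(1 / 10) : ℝ) (1 / 10) ×ℂ Set.Icc (-Y) Y := by
    rw [hU, closure_reProdIm, closure_Ioo (by norm_num), closure_Ioo (by linarith)]
  have hdg : DifferentiableOn ℂ g (closure U) := fun z hz => by
    rw [hcl] at hz
    exact ((hd z (abs_le.2 hz.1) (abs_le.2 hz.2)).mul (by fun_prop)).differentiableWithinAt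
  have key : ‖g u‖ ≤ m := by
    refine Complex.norm_le_of_forall_mem_frontier_norm_le (U := U)
      ((Metric.isBounded_Ioo _ _).reProdIm (Metric.isBounded_Ioo _ _)) hdg.diffContOnCl
      (fun z hz => ?_) (by rw [hcl]; exact ⟨abs_le.1 hx, abs_le.1 hy⟩)
    rw [hU, frontier_reProdIm, closure_Ioo (by norm_num), closure_Ioo (by linarith),
      frontier_Ioo (by linarith), frontier_Ioo (by norm_num)] at hz
    simp only [hg, norm_mul, norm_w]
    rcases hz with ⟨z1, z2⟩ | ⟨z1, z2⟩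
    · have a1 : |z.re| ≤ 1 / 10 := abs_le.2 z1
      have a2 : |z.im| = Y := by
        rcases z2 with e | e
        · rw [e, abs_neg, abs_of_pos hY]
        · rw [e, abs_of_pos hY]
      have a3 : Real.cosh (10 * π / 3 * z.im) = Real.cosh (10 * π / 3 * Y) := by
        rw [← Real.cosh_abs, abs_mul, a2, abs_of_pos (by positivity)]
      refine (mul_le_mul_of_nonneg_right (h2 z a1 a2) (Real.exp_pos _).le).trans ?_
      rw [mul_assoc, ← Real.exp_add, a3]
      refine mul_le_of_le_one_right hm (Real.exp_le_one_iff.2 ?_)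
      have := mul_nonneg (mul_nonneg hμ (Real.cosh_pos (10 * π / 3 * Y)).le)
        (sub_nonneg.2 (half_le_cos a1))
      linarith
    · have a1 : |z.re| = 1 / 10 := by
        rcases z1 with e | e <;> rw [e] <;> norm_num
      refine (mul_le_mul_of_nonneg_right (h1 z a1 (abs_le.2 z2)) (Real.exp_pos _).le).trans ?_
      refine mul_le_of_le_one_right hm (Real.exp_le_one_iff.2 ?_)
      have := mul_nonneg hμ (mul_nonneg (le_trans (by norm_num) (half_le_cos a1.le))
        (Real.cosh_pos (10 * π / 3 * z.im)).le)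
      linarith
  simp only [hg, norm_mul, norm_w] at key
  rw [Real.exp_neg, ← div_eq_mul_inv, div_le_iff₀ (Real.exp_pos _)] at key
  refine key.trans (mul_le_mul_of_nonneg_left (Real.exp_le_exp.2 ?_) hm)
  exact mul_le_mul_of_nonneg_left (mul_le_of_le_one_left (Real.cosh_pos _).le
    (Real.cos_le_one _)) hμ

namespace HarnA

/-- the middle part of the strip -/
theorem mid (h : S_Maj) (h2 : S_Mid) {C s : ℝ} {N : ℕ} {Λ : ℂ → ℂ} (F : Fam1 C N Λ) (hC : 1 ≤ C)
    (hN : (N : ℝ) = s ^ 100) (hs : 8000 * (1 + 2 * C) ≤ s) {c : ℝ} (hc : |c| = 1)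
    (hl : (c : ℂ) * Λ (π / 2) = (‖Λ (π / 2)‖ : ℝ)) (hb : Real.exp (-(1 / s ^ 95)) ≤ ‖Λ (π / 2)‖)
    {u : ℂ} (h1 : 1 / 10 ≤ u.re) (h1' : u.re ≤ π / 2) (h3 : Real.exp |u.im| ≤ s ^ 94) :
    ‖c * Λ u - 1‖ ≤ 1 / 20 := by
  have hπ := Real.pi_gt_three
  have s1 : 1 ≤ s := by linarith
  have s0 : 0 < s := by linarith
  have N1 : 1 ≤ N := by
    have : (1 : ℝ) ≤ N := hN ▸ one_le_pow₀ s1
    exact_mod_cast this
  have M := h C N Λ N1 F
  have hcn : ‖(c : ℂ)‖ = 1 := by rw [norm_real, Real.norm_eq_abs, hc]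
  set f : ℂ → ℂ := fun u => 1 - c * (Λ u * exp (-C * maj N u)) with hf
  have hP : ∀ z : ℂ, 0 < z.re → z.re < π → z ∈ Phys := fun z a b => ⟨a.le, b.le⟩
  have hfd : DifferentiableOn ℂ f {u | 0 < u.re ∧ u.re < π} := fun z hz => by
    have a1 := (M z (hP z hz.1 hz.2)).2.2.1
    have a2 : DifferentiableWithinAt ℂ Λ {u | 0 < u.re ∧ u.re < π} z :=
      (F.diff.mono fun w (hw : 0 < w.re ∧ w.re < π) =>
        (⟨by linarith [hw.1], by linarith [hw.2]⟩ : w ∈ Big)) z hz
    have a3 : DifferentiableAt ℂ (fun u => exp (-C * maj N u)) z := (a1.const_mul _).cexp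
    exact ((a2.mul a3.differentiableWithinAt).const_mul _).const_sub 1
  have hfr : ∀ z : ℂ, 0 < z.re → z.re < π → 0 ≤ (f z).re := fun z a b => by
    have a1 := (M z (hP z a b)).1
    have a2 := re_le_norm (c * (Λ z * exp (-C * maj N z)))
    rw [norm_mul, hcn, one_mul] at a2
    simp only [hf, sub_re, one_re]
    linarith
  have hm : (π / 2 : ℂ) ∈ Phys := hP _ (by simp; positivity) (by simp; positivity)
  have p95 : 0 < s ^ 95 := by positivity
  have hf0 : ‖f (π / 2)‖ ≤ (1 + 2 * C) / s ^ 95 := by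
    have e : f (π / 2) = ((1 - ‖Λ (π / 2)‖ * Real.exp (-(2 * C / (N + 1))) : ℝ) : ℂ) := by
      simp only [hf]
      rw [← mul_assoc, hl, (M _ hm).2.2.2]
      push_cast
      congr 3
      ring
    have a0 := hfr (π / 2) (by simp; positivity) (by simp; positivity)
    rw [e, ofReal_re] at a0
    rw [e, norm_real, Real.norm_eq_abs, abs_of_nonneg a0]
    have a1 := mul_le_mul_of_nonneg_right hb (Real.exp_pos (-(2 * C / (N + 1)))).le
    rw [← Real.exp_add] at a1
    have a2 := Real.add_one_le_exp (-(1 / s ^ 95) + -(2 * C / (N + 1)))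
    have a3 : 2 * C / (N + 1) ≤ 2 * C / s ^ 95 := by
      refine div_le_div_of_nonneg_left (by linarith) p95 ?_
      have : s ^ 95 ≤ s ^ 100 := pow_le_pow_right₀ s1 (by norm_num)
      linarith
    rw [add_div]
    linarith
  have hu : u ∈ Phys := hP u (by linarith) (by linarith)
  have hfu : ‖f u‖ ≤ 1 / 100 := by
    refine (h2 f hfd hfr u (by linarith) (by linarith)).trans ?_
    have a1 : 1 / 20 ≤ Real.sin u.re := by
      refine le_trans ?_ (Real.mul_le_sin (by linarith) h1')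
      have : 1 / 2 ≤ 2 / π := by
        rw [div_le_div_iff₀ (by norm_num) (by linarith)]; linarith [Real.pi_le_four]
      nlinarith
    rw [div_le_iff₀ (by linarith)]
    have a2 : ‖f (π / 2)‖ * Real.exp |u.im| ≤ (1 + 2 * C) / s ^ 95 * s ^ 94 :=
      mul_le_mul hf0 h3 (Real.exp_pos _).le (by positivity)
    have a3 : (1 + 2 * C) / s ^ 95 * s ^ 94 = (1 + 2 * C) / s := by field_simp
    have a4 : (1 + 2 * C) / s ≤ 1 / 8000 := by rw [div_le_iff₀ s0]; linarith
    linarith
  have hz : ‖(C : ℂ) * maj N u‖ ≤ 1 / 100 := by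
    rw [norm_mul, norm_real, Real.norm_eq_abs, abs_of_pos (by linarith)]
    have a1 := (M u hu).2.1
    have a2 : 2 * Real.exp |u.im| / N ≤ 2 / s := by
      rw [hN, div_le_div_iff₀ (by positivity) s0]
      have p1 : s ^ 95 ≤ s ^ 100 := pow_le_pow_right₀ s1 (by norm_num)
      have p2 := mul_le_mul_of_nonneg_right h3 s0.le
      have p3 : s ^ 94 * s = s ^ 95 := by ring
      linarith
    have a3 : C * (2 / s) ≤ 1 / 100 := by
      rw [← mul_div_assoc, div_le_iff₀ s0]; linarith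
    exact (mul_le_mul_of_nonneg_left (a1.trans a2) (by linarith)).trans a3
  have he := Complex.norm_exp_sub_one_le (x := C * maj N u) (by linarith)
  have e : c * Λ u - 1 = (exp (C * maj N u) - 1) - f u - f u * (exp (C * maj N u) - 1) := by
    have : exp (-C * maj N u) * exp (C * maj N u) = 1 := by rw [← Complex.exp_add]; simp
    simp only [hf]
    linear_combination (-(c * Λ u)) * this
  rw [e]
  have a1 := norm_sub_le ((exp (C * maj N u) - 1) - f u) (f u * (exp (C * maj N u) - 1))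
  have a2 := norm_sub_le (exp (C * maj N u) - 1) (f u)
  have a3 : ‖f u * (exp (C * maj N u) - 1)‖ ≤ 1 / 100 * (2 / 100) := by
    rw [norm_mul]; exact mul_le_mul hfu (by linarith) (norm_nonneg _) (by norm_num)
  linarith

/-- the left side of the thin rectangle -/
theorem left {C s : ℝ} {N : ℕ} {Λ : ℂ → ℂ} (F : Fam1 C N Λ) (hC : 1 ≤ C)
    (hN : (N : ℝ) = s ^ 100) (hs : 8000 * (1 + 2 * C) ≤ s) {c : ℝ} (hc : |c| = 1)
    {u : ℂ} (h1 : |u.re| ≤ 1 / 10) (h3 : Real.exp |u.im| ≤ s ^ 94)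
    (h4 : ‖c * Λ (-u) - 1‖ ≤ 1 / 20) : ‖c * Λ u - 1‖ ≤ 1 / 10 := by
  have s1 : 1 ≤ s := by linarith
  have s0 : 0 < s := by linarith
  have a1 : ‖tan (u / 2)‖ ≤ Real.exp (-(1 / (4 * s ^ 94))) := by
    refine le_of_pow_le_pow_left₀ two_ne_zero (Real.exp_pos _).le ((tan_sq_le h1).trans ?_)
    rw [← Real.exp_nat_mul]
    refine Real.exp_le_exp.2 ?_
    have p1 : 1 / (2 * s ^ 94) ≤ 1 / (2 * Real.exp |u.im|) :=
      one_div_le_one_div_of_le (by positivity) (by linarith)
    have p2 : ((2 : ℕ) : ℝ) * -(1 / (4 * s ^ 94)) = -(1 / (2 * s ^ 94)) := by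
      push_cast; field_simp; norm_num
    linarith
  have a2 : ‖tan (u / 2)‖ ^ N ≤ Real.exp (-(s ^ 6 / 4)) := by
    refine (pow_le_pow_left₀ (norm_nonneg _) a1 N).trans (le_of_eq ?_)
    rw [← Real.exp_nat_mul, hN]
    congr 1
    field_simp
  have a3 : C * Real.exp (-(s ^ 6 / 4)) ≤ 1 / 100 := by
    rw [Real.exp_neg, ← div_eq_mul_inv, div_le_iff₀ (Real.exp_pos _)]
    have := Real.add_one_le_exp (s ^ 6 / 4)
    have : s ≤ s ^ 6 := le_self_pow₀ s1 (by norm_num)
    linarith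
  have a4 := (F.inv u h1).trans ((mul_le_mul_of_nonneg_left a2 (by linarith)).trans a3)
  have c2 : (c : ℂ) * c = 1 := by
    have : c * c = 1 := by rw [← abs_mul_abs_self, hc, one_mul]
    exact_mod_cast this
  have e : c * Λ u - 1 = (Λ (-u) * Λ u - 1) - (c * Λ (-u) - 1) -
      (c * Λ (-u) - 1) * (c * Λ u - 1) := by
    linear_combination (Λ (-u) * Λ u) * c2
  have b1 := norm_sub_le ((Λ (-u) * Λ u - 1) - (c * Λ (-u) - 1))
    ((c * Λ (-u) - 1) * (c * Λ u - 1))
  have b2 := norm_sub_le (Λ (-u) * Λ u - 1) (c * Λ (-u) - 1)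
  rw [← e, norm_mul] at b1
  nlinarith [norm_nonneg (c * Λ u - 1)]

end HarnA

theorem s_Harn (h : S_Maj) (h2 : S_Mid) : S_Harn := by
  intro C
  refine ⟨⌈(8000 * (1 + 2 * |C|)) ^ 100⌉₊, fun N hN Λ F => ?_⟩
  have hπ := Real.pi_gt_three
  have hC : 1 ≤ C := by simpa [F.zero] using F.bd 0 ⟨by simp, by simp; linarith⟩
  rw [abs_of_pos (by linarith), Nat.ceil_le] at hN
  have A1 : (1 : ℝ) ≤ 8000 * (1 + 2 * C) := by linarith
  have N1 : (1 : ℝ) ≤ N := (one_le_pow₀ A1).trans hN
  have hm : (π / 2 : ℂ) ∈ Phys := ⟨by simp; positivity, by simp; positivity⟩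
  obtain ⟨t, ht⟩ : ∃ t, t = Real.log N / 100 := ⟨_, rfl⟩
  have t0 : 0 ≤ t := ht ▸ div_nonneg (Real.log_nonneg N1) (by norm_num)
  obtain ⟨s, hs⟩ : ∃ s, s = Real.exp t := ⟨_, rfl⟩
  have s0 : 0 < s := hs ▸ Real.exp_pos t
  have sp : ∀ k : ℕ, s ^ k = Real.exp (k * t) := fun k => by rw [hs, Real.exp_nat_mul]
  have hNs : (N : ℝ) = s ^ 100 := by
    rw [sp, ht, show ((100 : ℕ) : ℝ) * (Real.log N / 100) = Real.log N by push_cast; ring,
      Real.exp_log (by linarith)]
  have hs' : 8000 * (1 + 2 * C) ≤ s :=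
    le_of_pow_le_pow_left₀ (by norm_num : 100 ≠ 0) s0.le (hN.trans hNs.le)
  have s1 : 1 ≤ s := by linarith
  refine ⟨?_, fun hb => ?_⟩
  · obtain ⟨a1, -, -, a2⟩ := h C N Λ (by exact_mod_cast N1) F _ hm
    have e : -(C : ℂ) * maj N (π / 2) = ((-(2 * C / (N + 1)) : ℝ) : ℂ) := by
      rw [a2]; push_cast; ring
    rw [norm_mul, e, Complex.norm_exp_ofReal, Real.exp_neg, ← div_eq_mul_inv,
      div_le_one (Real.exp_pos _)] at a1
    exact a1.trans (Real.exp_le_exp.2
      (div_le_div_of_nonneg_left (by linarith) (by linarith) (by linarith)))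
  have hb' : Real.exp (-(1 / s ^ 95)) ≤ ‖Λ (π / 2)‖ := by
    convert hb using 3
    rw [Real.rpow_def_of_pos (by linarith), sp, one_div, ← Real.exp_neg, ht]
    congr 1
    push_cast
    ring
  obtain ⟨c, hc, hl⟩ : ∃ c : ℝ, |c| = 1 ∧ (c : ℂ) * Λ (π / 2) = (‖Λ (π / 2)‖ : ℝ) := by
    have a1 := F.adj (π / 2) ⟨by simp; linarith, by simp; linarith⟩
    have a2 : conj (π / 2 : ℂ) = π / 2 := by simp [map_ofNat]
    rw [a2, conj_eq_iff_real] at a1
    obtain ⟨r, hr⟩ := a1
    rw [hr, norm_real, Real.norm_eq_abs]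
    rcases le_total 0 r with h0 | h0
    · exact ⟨1, abs_one, by simp [abs_of_nonneg h0]⟩
    · exact ⟨-1, by simp, by simp [abs_of_nonpos h0]⟩
  have hcn : ‖(c : ℂ)‖ = 1 := by rw [norm_real, Real.norm_eq_abs, hc]
  have M := fun u => mid h h2 F hC hNs hs' hc hl hb' (u := u)
  have y94 : ∀ u : ℂ, |u.im| ≤ 94 * t → Real.exp |u.im| ≤ s ^ 94 := fun u hu => by
    rw [sp]; exact Real.exp_le_exp.2 (by exact_mod_cast hu)
  have t1 : 0 < t := by
    by_contra h0
    have : s ≤ 1 := hs ▸ Real.exp_le_one_iff.2 (not_lt.1 h0)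
    linarith
  obtain ⟨K, hK⟩ : ∃ K, K = 20 * C ^ 2 := ⟨_, rfl⟩
  have K1 : 1 ≤ K := by nlinarith
  obtain ⟨μ, hμ⟩ : ∃ μ, μ = 4 * (N * K) / Real.exp (10 * π / 3 * (94 * t)) := ⟨_, rfl⟩
  have μ0 : 0 ≤ μ := by rw [hμ]; positivity
  have T := s_Thin (fun u => c * Λ u - 1) (94 * t) (1 / 10) μ (by linarith) μ0
    (fun u h1 _ => by
      have : Big ∈ nhds u := ((isOpen_lt continuous_const continuous_re).inter
        (isOpen_lt continuous_re continuous_const)).mem_nhds
          ⟨show -(π / 2) < u.re by linarith [abs_le.1 h1],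
            show u.re < 3 * π / 2 by linarith [abs_le.1 h1]⟩
      exact ((F.diff.differentiableAt this).const_mul _).sub_const 1)
    (fun u h1 h3 => by
      rcases abs_eq (by norm_num : (0 : ℝ) ≤ 1 / 10) |>.1 h1 with e | e
      · exact (M u e.ge (by linarith) (y94 u h3)).trans (by norm_num)
      · exact left F hC hNs hs' hc h1.le (y94 u h3)
          (M (-u) (by simp [e]) (by simp [e]; linarith) (by simpa using y94 u h3)))
    (fun u h1 _ => by
      have a1 := F.crude u h1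
      have a2 : ‖c * Λ u - 1‖ ≤ C * C ^ N + 1 := by
        refine (norm_sub_le _ _).trans ?_
        rw [norm_mul, hcn, one_mul, norm_one]
        linarith
      have a3 : N * K ≤ μ * Real.cosh (10 * π / 3 * (94 * t)) / 2 := by
        rw [Real.cosh_eq, hμ]
        have p1 := Real.exp_pos (10 * π / 3 * (94 * t))
        have p2 := Real.exp_pos (-(10 * π / 3 * (94 * t)))
        have p3 : 0 ≤ (N : ℝ) * K := by positivity
        generalize Real.exp (10 * π / 3 * (94 * t)) = E at *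
        generalize Real.exp (-(10 * π / 3 * (94 * t))) = E' at *
        have : 4 * (N * K) / E * ((E + E') / 2) / 2 = N * K + N * K * E' / E := by
          field_simp; norm_num
        rw [this]
        have : 0 ≤ N * K * E' / E := by positivity
        linarith
      have a4 : K ^ N ≤ Real.exp (N * K) := by
        rw [Real.exp_nat_mul]
        exact pow_le_pow_left₀ (by linarith) (by linarith [Real.add_one_le_exp K]) N
      have a5 : 20 * (C * C ^ N) ≤ K ^ N := by
        have n0 : N ≠ 0 := by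
          rintro rfl
          norm_num at N1
        rw [hK, mul_pow, pow_two, mul_pow]
        have p1 : (20 : ℝ) ≤ 20 ^ N := le_self_pow₀ (by norm_num) n0
        have p2 : C ≤ C ^ N := le_self_pow₀ hC n0
        gcongr
      have a6 : 1 ≤ C * C ^ N := one_le_mul_of_one_le_of_one_le hC (one_le_pow₀ hC)
      have a7 := Real.exp_le_exp.2 a3
      linarith)
  have fin : ∀ u : ℂ, ‖c * Λ u - 1‖ ≤ 1 / 2 → 1 / 2 ≤ ‖Λ u‖ := fun u hu => by
    have := norm_sub_norm_le (1 : ℂ) (c * Λ u)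
    rw [norm_sub_rev, norm_mul, hcn, one_mul, norm_one] at this
    linarith
  have half : ∀ u : ℂ, 0 ≤ u.re → u.re ≤ π / 2 → |u.im| ≤ 80 * t → 1 / 2 ≤ ‖Λ u‖ :=
      fun u h0 h1 h3 => by
    refine fin u ?_
    rcases le_total (1 / 10) u.re with h4 | h4
    · exact (M u h4 h1 (y94 u (by linarith))).trans (by norm_num)
    refine (T u (by rw [abs_of_nonneg h0]; exact h4) (by linarith)).trans ?_
    have a1 : Real.cosh (10 * π / 3 * u.im) ≤ Real.exp (10 * π / 3 * (80 * t)) := by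
      have : |10 * π / 3 * u.im| ≤ 10 * π / 3 * (80 * t) := by
        rw [abs_mul, abs_of_pos (by positivity)]
        exact mul_le_mul_of_nonneg_left h3 (by positivity)
      rw [Real.cosh_eq]
      have p1 := Real.exp_le_exp.2 (abs_le.1 this).2
      have p2 := Real.exp_le_exp.2 (neg_le.1 (abs_le.1 this).1)
      linarith
    have a2 : μ * Real.exp (10 * π / 3 * (80 * t)) ≤ 1 := by
      have p1 : Real.exp (10 * π / 3 * (80 * t)) * s ^ 140 ≤ Real.exp (10 * π / 3 * (94 * t)) := by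
        rw [sp, ← Real.exp_add]
        exact Real.exp_le_exp.2 (by push_cast; nlinarith)
      have p2 : 4 * K ≤ s ^ 40 := by
        have : s ^ 2 ≤ s ^ 40 := pow_le_pow_right₀ s1 (by norm_num)
        nlinarith
      rw [hμ, div_mul_eq_mul_div, div_le_one (Real.exp_pos _), hNs]
      refine le_trans ?_ p1
      rw [mul_comm, show s ^ 140 = s ^ 100 * s ^ 40 by ring]
      refine mul_le_mul_of_nonneg_left ?_ (Real.exp_pos _).le
      have := mul_le_mul_of_nonneg_left p2 (pow_pos s0 100).le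
      linarith
    have a3 := Real.exp_le_exp.2 ((mul_le_mul_of_nonneg_left a1 μ0).trans a2)
    linarith [Real.exp_one_lt_d9]
  intro u hu hy
  have hy' : |u.im| ≤ 80 * t := by rw [ht]; linarith
  rcases le_total u.re (π / 2) with h0 | h0
  · exact half u hu.1 h0 hy'
  · rw [← F.cross u ⟨by linarith, by linarith [hu.2]⟩]
    exact half _ (by simpa using hu.2) (by simp; linarith) (by simpa using hy')

end Pool.Agent.P.MP_6c8efb_pr.Cardy
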