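import Pool.Agent.P.MP_6c8efb_pr.Cardy.AIface

/-! The inversion relation. -/

open Matrix Complex
open scoped Matrix.Norms.L2Operator ComplexConjugate Real

set_option linter.unusedSectionVars false

namespace Pool.Agent.P.MP_6c8efb_pr.Cardy

namespace InvA

section Abs

variable {R A B A' B' : Type} [Ring R] [Algebra ℂ R] [Fintype A] [Fintype B] [Fintype A']
  [Fintype B'] [DecidableEq A] [DecidableEq B] [DecidableEq A'] [DecidableEq B']

theorem lift_mul (X : Matrix A B ℂ) (Y : Matrix B A' ℂ) : lift R (X * Y) = lift R X * lift R Y :=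
  Matrix.map_mul

theorem lift_add (X Y : Matrix A B ℂ) : lift R (X + Y) = lift R X + lift R Y := by
  ext a b; simp [lift]

theorem lift_one : lift R (1 : Matrix A A ℂ) = 1 := Matrix.map_one _ (map_zero _) (map_one _)

theorem lift_zero : lift R (0 : Matrix A B ℂ) = 0 := by ext a b; simp [lift]

theorem lift_smul (c : ℂ) (X : Matrix A B ℂ) : lift R (c • X) = c • lift R X := by
  ext a b; simp [lift, Algebra.smul_def]

/-- the entrywise pairing -/
def pair (X Y : Matrix A B R) : R := ∑ a, ∑ b, X a b * Y a b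

theorem pair_add (X X' Y : Matrix A B R) : pair (X + X') Y = pair X Y + pair X' Y := by
  simp [pair, add_mul, Finset.sum_add_distrib]

theorem pair_smul (c : ℂ) (X Y : Matrix A B R) : pair X (c • Y) = c • pair X Y := by
  simp [pair, Finset.smul_sum]

theorem pair_left (S : Matrix A A' ℂ) (X : Matrix A' B R) (Y : Matrix A B R) :
    pair (lift R S * X) Y = pair X (lift R Sᵀ * Y) := by
  simp only [pair, lift_mul_apply, Finset.sum_mul, Finset.mul_sum, smul_mul_assoc, mul_smul_comm,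
    Matrix.transpose_apply]
  rw [Finset.sum_comm]
  conv_rhs => rw [Finset.sum_comm]
  exact Finset.sum_congr rfl fun b _ => Finset.sum_comm

theorem pair_right (S : Matrix B' B ℂ) (X : Matrix A B' R) (Y : Matrix A B R) :
    pair (X * lift R S) Y = pair X (Y * lift R Sᵀ) := by
  simp only [pair, mul_lift_apply, Finset.sum_mul, Finset.mul_sum, smul_mul_assoc, mul_smul_comm,
    Matrix.transpose_apply]
  exact Finset.sum_congr rfl fun b _ => Finset.sum_comm

theorem pair_one (P : Matrix A A ℂ) : pair (lift R P) 1 = algebraMap ℂ R P.trace := by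
  simp [pair, lift, Matrix.one_apply, Matrix.trace]

theorem key {p : Matrix B A ℂ} {s : Matrix A B ℂ} {P KL KR : Matrix A A ℂ} {M₁ M₂ : Matrix A A R}
    {N₁ N₂ : Matrix B B R} {l r : ℂ} (h1 : s * p + P = 1) (hP : Pᵀ = P) (tr : P.trace = 1)
    (pP : p * P = 0) (e1 : lift R p * M₂ = N₂ * lift R p) (e2 : M₂ * lift R P = lift R P)
    (e3 : M₁ * lift R pᵀ = lift R pᵀ * N₁) (e4 : lift R P * M₁ = lift R P)
    (k1 : KL * P = l • P) (k2 : P * KR = r • P) :
    pair M₂ (lift R KLᵀ * M₁ * lift R KR) = (l * r) • 1 +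
      pair N₂ (lift R (p * KL * s)ᵀ * N₁ * lift R (sᵀ * KR * pᵀ)) := by
  have a2 : M₂ = lift R P * M₂ + lift R s * (N₂ * lift R p) := by
    rw [← e1, ← Matrix.mul_assoc, ← lift_mul, ← Matrix.add_mul, ← lift_add, add_comm, h1, lift_one,
      Matrix.one_mul]
  have a1 : M₁ = M₁ * lift R P + lift R pᵀ * N₁ * lift R sᵀ := by
    rw [← e3, Matrix.mul_assoc, ← lift_mul, ← Matrix.mul_add, ← lift_add, ← hP,
      ← Matrix.transpose_mul, ← Matrix.transpose_add, add_comm, h1, Matrix.transpose_one, lift_one,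
      Matrix.mul_one]
  have b1 : lift R Pᵀ * (lift R KLᵀ * M₁ * lift R KR) = (l * r) • (1 * lift R Pᵀ) := by
    rw [← Matrix.mul_assoc, ← Matrix.mul_assoc, ← lift_mul, ← Matrix.transpose_mul, k1,
      Matrix.transpose_smul, hP, lift_smul, Matrix.smul_mul, e4, Matrix.smul_mul, ← lift_mul, k2,
      lift_smul, smul_smul, Matrix.one_mul]
  have b2 : lift R P * (lift R KR * lift R pᵀ) = 0 := by
    rw [← lift_mul, ← lift_mul, ← Matrix.mul_assoc, k2, Matrix.smul_mul, ← hP,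
      ← Matrix.transpose_mul, pP, Matrix.transpose_zero, smul_zero, lift_zero]
  conv_lhs => rw [a2]
  rw [pair_add, pair_left, b1, pair_smul, ← pair_right, e2, pair_one, tr, map_one, pair_left,
    pair_right]
  congr 2
  conv_lhs => rw [a1]
  simp only [Matrix.transpose_mul, lift_mul, Matrix.mul_add, Matrix.add_mul, Matrix.mul_assoc, b2,
    Matrix.mul_zero, zero_add]

end Abs

theorem norm_mul_le {A B A' : Type} [Fintype B] {X : Matrix A B ℂ} {Y : Matrix B A' ℂ} {x y : ℝ}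
    (hx : ∀ i j, ‖X i j‖ ≤ x) (hy : ∀ i j, ‖Y i j‖ ≤ y) (i : A) (j : A') :
    ‖(X * Y) i j‖ ≤ Fintype.card B * (x * y) := by
  rw [Matrix.mul_apply]
  refine (norm_sum_le_of_le (n := fun _ => x * y) _ fun k _ => ?_).trans (by simp)
  rw [norm_mul]
  exact mul_le_mul (hx _ _) (hy _ _) (norm_nonneg _) ((norm_nonneg _).trans (hx i k))

theorem norm_pair_le {ι : Type} [Fintype ι] [DecidableEq ι] {X Y : Matrix (Fin 3) (Fin 3) ℂ}
    {N₁ N₂ : Matrix (Fin 3) (Fin 3) (Op ι)} {x t : ℝ} (hx : ∀ i j, ‖X i j‖ ≤ x)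
    (hy : ∀ i j, ‖Y i j‖ ≤ x) (h1 : ∀ i j, ‖N₁ i j‖ ≤ 1) (h2 : ∀ i j, ‖N₂ i j‖ ≤ t) :
    ‖pair N₂ (lift _ X * N₁ * lift _ Y)‖ ≤ 81 * x ^ 2 * t := by
  have x0 : 0 ≤ x := (norm_nonneg _).trans (hx 0 0)
  have t0 : 0 ≤ t := (norm_nonneg _).trans (h2 0 0)
  have a1 : ∀ i j, ‖(lift (Op ι) X * N₁) i j‖ ≤ 3 * x := fun i j => by
    rw [lift_mul_apply]
    refine (norm_sum_le_of_le (n := fun _ => x) _ fun k _ => ?_).trans (by simp)
    rw [norm_smul]
    exact (mul_le_of_le_one_right (norm_nonneg _) (h1 _ _)).trans (hx _ _)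
  have a2 : ∀ i j, ‖(lift (Op ι) X * N₁ * lift (Op ι) Y) i j‖ ≤ 9 * x ^ 2 := fun i j => by
    rw [mul_lift_apply]
    refine (norm_sum_le_of_le (n := fun _ => x * (3 * x)) _ fun k _ => ?_).trans
      (by simp; nlinarith)
    rw [norm_smul]
    exact mul_le_mul (hy _ _) (a1 _ _) (norm_nonneg _) x0
  refine (norm_sum_le_of_le (n := fun _ => 3 * (t * (9 * x ^ 2))) _ fun i _ => ?_).trans
    (by simp; nlinarith)
  refine (norm_sum_le_of_le (n := fun _ => t * (9 * x ^ 2)) _ fun j _ => ?_).trans (by simp)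
  exact (_root_.norm_mul_le _ _).trans (mul_le_mul (h2 _ _) (a2 _ _) (norm_nonneg _) t0)

theorem nsin (z : ℂ) : ‖sin z‖ ^ 2 = Real.sin z.re ^ 2 + Real.sinh z.im ^ 2 := by
  rw [Complex.sq_norm, Complex.normSq_apply, Complex.sin_eq]
  simp only [← ofReal_sin, ← ofReal_cos, ← ofReal_sinh, ← ofReal_cosh, add_re, add_im, mul_re,
    mul_im, ofReal_re, ofReal_im, I_re, I_im]
  nlinarith [Real.sin_sq_add_cos_sq z.re, Real.cosh_sq z.im]

theorem ncos (z : ℂ) : ‖cos z‖ ^ 2 = Real.cos z.re ^ 2 + Real.sinh z.im ^ 2 := by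
  rw [Complex.sq_norm, Complex.normSq_apply, Complex.cos_eq]
  simp only [← ofReal_sin, ← ofReal_cos, ← ofReal_sinh, ← ofReal_cosh, sub_re, sub_im, mul_re,
    mul_im, ofReal_re, ofReal_im, I_re, I_im]
  nlinarith [Real.sin_sq_add_cos_sq z.re, Real.cosh_sq z.im]

theorem sin_le {z : ℂ} {y : ℝ} (h : |z.im| = |y|) : ‖sin z‖ ≤ Real.cosh y := by
  rw [← Real.cosh_abs, ← h, Real.cosh_abs]
  refine (pow_le_pow_iff_left₀ (norm_nonneg _) (Real.cosh_pos _).le two_ne_zero).1 ?_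
  rw [nsin, Real.cosh_sq]
  linarith [Real.sin_sq_le_one z.re]

theorem le_cos {z : ℂ} {y : ℝ} (h : |z.im| = |y|) (h' : |z.re| ≤ 11 / 10) :
    Real.cosh y / 4 ≤ ‖cos z‖ := by
  rw [← Real.cosh_abs, ← h, Real.cosh_abs]
  refine (pow_le_pow_iff_left₀ (by positivity) (norm_nonneg _) two_ne_zero).1 ?_
  rw [ncos, div_pow, Real.cosh_sq]
  have h1 := Real.one_sub_sq_div_two_le_cos (x := z.re)
  have h2 : z.re ^ 2 ≤ (11 / 10) ^ 2 := sq_le_sq' (abs_le.1 h').1 (abs_le.1 h').2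
  nlinarith [sq_nonneg (Real.sinh z.im)]

theorem tan_le {z : ℂ} (h : |z.re| ≤ 1 / 2) : ‖tan z‖ ≤ 1 := by
  rw [Complex.tan_eq_sin_div_cos, norm_div]
  refine div_le_one_of_le₀ ?_ (norm_nonneg _)
  refine (pow_le_pow_iff_left₀ (norm_nonneg _) (norm_nonneg _) two_ne_zero).1 ?_
  rw [nsin, ncos]
  have h2 : z.re ^ 2 ≤ (1 / 2) ^ 2 := sq_le_sq' (abs_le.1 h).1 (abs_le.1 h).2
  nlinarith [Real.sin_sq_le_sq (x := z.re), Real.sin_sq_add_cos_sq z.re]

theorem kb_le {v : ℂ} (h1 : -(1 / 10) ≤ v.re) (h2 : v.re ≤ π + 1 / 10) (a b : Bool) :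
    ‖kb v a b‖ ≤ 4 := by
  have h3 := le_cos (z := π / 3 - v / 3) (y := v.im / 3) (by simp) (by
    simp only [sub_re, div_ofNat_re, ofReal_re]
    rw [abs_le]
    constructor <;> linarith [Real.pi_lt_d2, Real.pi_pos])
  have h4 := Real.one_le_cosh (v.im / 3)
  rw [kb, norm_div, div_le_iff₀ (by linarith)]
  split_ifs
  · have : ‖sb v‖ ≤ _ := sin_le (z := v / 3) (y := v.im / 3) (by simp)
    linarith
  · simp; linarith

theorem rx_le (w : ℂ) {y : ℝ} (h : |w.im / 3| = |y|) (a b : Bool × Bool) :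
    ‖Rx w a b‖ ≤ Real.cosh y := by
  simp only [Rx, Matrix.of_apply]
  split_ifs
  · exact sin_le (by simpa using h)
  · simpa using (Real.cosh_pos y).le
  · simpa using (Real.cosh_pos y).le
  · exact (sin_le (y := 0) (by simp)).trans (by simp)
  · exact sin_le (by simpa using h)

theorem le_sa {w : ℂ} {y : ℝ} (h : |w.im / 3| = |y|) (h' : |w.re| ≤ 1) :
    Real.cosh y / 4 ≤ ‖sa w‖ := by
  rw [sa, ← Complex.cos_pi_div_two_sub]
  refine le_cos (by simpa using h) ?_
  simp only [sub_re, div_ofNat_re, ofReal_re]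
  rw [abs_le] at h' ⊢
  constructor <;> linarith [Real.pi_lt_d2, Real.pi_pos]

theorem rx_symm (w : ℂ) (a b : Bool × Bool) : Rx w a b = Rx w b a := by
  obtain ⟨a, a'⟩ := a
  obtain ⟨b, b'⟩ := b
  cases a <;> cases a' <;> cases b <;> cases b' <;> simp [Rx]

theorem rx_inv (w : ℂ) : Rx (-w) * Rx w = (sa w * sa (-w)) • 1 := by
  have h1 : sb (-w) = -sb w := by rw [sb, sb, neg_div, Complex.sin_neg]
  have h2 : sa w * sa (-w) = sc * sc - sb w * sb w := by
    rw [sa, sa, sb, sc, neg_div, sub_neg_eq_add, Complex.sin_sub, Complex.sin_add]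
    linear_combination sin (π / 3 : ℂ) ^ 2 * Complex.sin_sq_add_cos_sq (w / 3) -
      sin (w / 3) ^ 2 * Complex.sin_sq_add_cos_sq (π / 3 : ℂ)
  ext ⟨a, a'⟩ ⟨b, b'⟩
  cases a <;> cases a' <;> cases b <;> cases b' <;>
    simp [Rx, Matrix.mul_apply, Fintype.sum_prod_type, h1] <;>
    first | ring1 | linear_combination (-1) * h2

theorem x23_le {X : Matrix (Bool × Bool) (Bool × Bool) ℂ} {k k' : Bool × Bool → ℂ} {c : ℝ}
    (hX : ∀ a b, ‖X a b‖ ≤ c) (hk : ∀ a, ‖k a‖ ≤ 4) (hk' : ∀ a, ‖k' a‖ ≤ 4) (a b a' b' : Bool) :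
    ‖x23 X (k4 k k') a b a' b'‖ ≤ 64 * c := by
  refine (norm_sum_le_of_le (n := fun _ => c * (4 * 4)) _ fun m _ => ?_).trans
    (by simp; linarith)
  rw [k4, norm_mul, norm_mul]
  exact mul_le_mul (hX _ _) (mul_le_mul (hk _) (hk' _) (norm_nonneg _) (by norm_num))
    (by positivity) ((norm_nonneg _).trans (hX m m))

/-- the projector on the invariant vector -/
noncomputable def PP : Matrix (Bool × Bool) (Bool × Bool) ℂ := Matrix.of fun a b => cv a * cv b / 2

theorem vec_eq {v : Bool × Bool → ℂ} (h : ∀ i, ∑ a, pq i a * v a = 0) (a : Bool × Bool) :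
    v a = (∑ b, cv b * v b) / 2 * cv a := by
  have h0 := h 0
  have h1 := h 1
  have h2 := h 2
  obtain ⟨a, a'⟩ := a
  simp [pq, Fintype.sum_prod_type] at h0 h1 h2
  cases a <;> cases a' <;> simp [cv, Fintype.sum_prod_type, h0, h2]
  · linear_combination (-1 / 2) * h1
  · linear_combination (1 / 2) * h1

theorem pq_le (i : Fin 3) (a : Bool × Bool) : ‖pq i a‖ ≤ 1 := by
  fin_cases i <;> simp [pq] <;> split_ifs <;> simp

theorem sq_le (a : Bool × Bool) (i : Fin 3) : ‖sq a i‖ ≤ 1 := by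
  have := pq_le i a
  simp only [sq, Matrix.of_apply, norm_mul]
  split_ifs <;> simp <;> linarith [norm_nonneg (pq i a)]

theorem swap {ι : Type} [Fintype ι] [DecidableEq ι] (k₁ k₁' k₂ k₂' : Bool × Bool → ℂ)
    (M₁ M₂ M₃ M₄ : Matrix Bool Bool (Op ι)) (w : ℂ)
    (h : lift (Op ι) (Rx w) * st M₃ M₂ = st M₂ M₃ * lift (Op ι) (Rx w)) :
    (sa w * sa (-w)) • (cl k₂ k₂' (st M₄ M₃) * cl k₁ k₁' (st M₂ M₁)) = pair (st M₄ M₂)
      (lift _ (Matrix.of fun a b : Bool × Bool => x23 (Rx (-w)) (k4 k₁ k₂) a.1 a.2 b.1 b.2)ᵀ *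
        st M₃ M₁ * lift _ (Matrix.of fun a b : Bool × Bool =>
          x23 (Rx w) (k4 k₁' k₂') a.1 a.2 b.1 b.2)) := by
  have h1 : ∀ κ κ', (sa w * sa (-w)) • cl κ κ' (st M₃ M₂) =
      cl (κ ᵥ* Rx (-w)) (Rx w *ᵥ κ') (st M₂ M₃) := fun κ κ' => by
    rw [← cl_mul_lift, ← cl_lift_mul, ← h, ← Matrix.mul_assoc, ← lift_mul, rx_inv, lift_smul,
      lift_one, Matrix.smul_mul, Matrix.one_mul]
    simp only [cl, Finset.smul_sum, Matrix.smul_apply, smul_comm (sa w * sa (-w))]
  have h2 : ∀ a₁ a₄ a, ((fun a : Bool × Bool => k₁ (a₁, a.1) * k₂ (a.2, a₄)) ᵥ* Rx (-w)) a =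
      x23 (Rx (-w)) (k4 k₁ k₂) a₁ a.1 a.2 a₄ := fun a₁ a₄ a => by
    simp only [Matrix.vecMul, dotProduct, x23, k4]
    exact Finset.sum_congr rfl fun m _ => by rw [mul_comm, rx_symm]
  have h3 : ∀ a₁ a₄ a, (Rx w *ᵥ fun a : Bool × Bool => k₁' (a₁, a.1) * k₂' (a.2, a₄)) a =
      x23 (Rx w) (k4 k₁' k₂') a₁ a.1 a.2 a₄ := fun a₁ a₄ a => rfl
  have h4 : ∀ (c : ℂ) (X Y Z : Op ι), c • (X * Y * Z) = X * (c • Y) * Z := fun c X Y Z => by simp
  simp only [cl_mul_cl, Finset.smul_sum, h4, h1]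
  simp only [cl, h2, h3, pair, mul_lift_apply, lift_mul_apply, st_apply, Finset.sum_mul,
    Finset.mul_sum, smul_mul_assoc, mul_smul_comm, smul_smul, mul_assoc, Finset.smul_sum,
    Matrix.transpose_apply, Matrix.of_apply]
  simp only [← Fintype.sum_prod_type']
  refine Fintype.sum_equiv
    ⟨fun x => ((x.2.2.2.2.1.2, x.2.1), (x.2.2.2.2.2.2, x.2.2.2.1), (x.2.2.1, x.2.2.2.2.2.1),
      (x.1, x.2.2.2.2.1.1)),
     fun y => (y.2.2.2.1, y.1.2, y.2.2.1.1, y.2.1.2, (y.2.2.2.2, y.1.1), (y.2.2.1.2, y.2.1.1)),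
     fun _ => rfl, fun _ => rfl⟩ _ _ fun x => ?_
  simp only [Equiv.coe_fn_mk]
  rw [mul_comm]

end InvA

open InvA in
theorem s_Inv (h : S_Ybe) (h2 : S_Fus) (h3 : S_Quot) (h4 : S_Cross) (h5 : S_InvK) : S_Inv := by
  refine ⟨81 * 1024 ^ 2 * 16, fun ι _ _ α γ l hl u hu => ?_⟩
  have hu' := abs_le.1 hu
  have pi3 := Real.pi_gt_three
  obtain ⟨f1, f2, f3, f4⟩ := h2 ι l u (by linarith)
  obtain ⟨i1, i2, i3⟩ := h5 α γ u hu
  have q := h3 ι l hl u (by linarith)
  have t1 : ‖tan (u / 2)‖ ^ l.length ≤ 1 := pow_le_one₀ (norm_nonneg _) (tan_le (by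
    simp only [div_ofNat_re]; rw [abs_le]; constructor <;> linarith))
  have y := chain_lift (h (π - u) (π + u)) l
  rw [chain_st _ _ hl, chain_st _ _ hl, show π + u - (π - u) = 2 * u by ring] at y
  have e := swap (kL α α u) (kR γ u) (kL α α (π + u)) (kR γ (π + u)) (row u l) _ _ (row (-u) l) _ y
  rw [P1, chain_st _ _ hl] at f3 f4
  rw [P2, chain_st _ _ hl] at f1 f2
  set KL := Matrix.of fun a b : Bool × Bool =>
    x23 (Rx (-(2 * u))) (k4 (kL α α u) (kL α α (π + u))) a.1 a.2 b.1 b.2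
  set KR := Matrix.of fun a b : Bool × Bool =>
    x23 (Rx (2 * u)) (k4 (kR γ u) (kR γ (π + u))) a.1 a.2 b.1 b.2
  have v1 := vec_eq (v := KL *ᵥ cv) fun i => by
    rw [← i1 i]
    simp only [Matrix.mulVec, dotProduct, Finset.mul_sum]
    exact Finset.sum_congr rfl fun a _ => Finset.sum_congr rfl fun b _ => by
      simp only [KL, Matrix.of_apply]; ring
  have v2 := vec_eq (v := cv ᵥ* KR) fun i => by
    rw [← i2 i, Finset.sum_comm]
    simp only [Matrix.vecMul, dotProduct, Finset.mul_sum]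
    exact Finset.sum_congr rfl fun a _ => Finset.sum_congr rfl fun b _ => by
      simp only [KR, Matrix.of_apply]; ring
  have g4 : (∑ b, cv b * (KL *ᵥ cv) b) / 2 * ((∑ b, cv b * (cv ᵥ* KR) b) / 2) =
      sa (2 * u) * sa (-(2 * u)) := by
    rw [div_mul_div_comm, div_eq_iff (by norm_num), mul_comm _ (2 * 2 : ℂ),
      show (2 * 2 : ℂ) = 4 by norm_num, ← i3]
    congr 1
    · simp only [Matrix.mulVec, dotProduct, Finset.mul_sum]
      exact Finset.sum_congr rfl fun a _ => Finset.sum_congr rfl fun b _ => by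
        simp only [KL, Matrix.of_apply]; ring
    · rw [Finset.sum_comm]
      simp only [Matrix.vecMul, dotProduct, Finset.mul_sum]
      exact Finset.sum_congr rfl fun a _ => Finset.sum_congr rfl fun b _ => by
        simp only [KR, Matrix.of_apply]; ring
  have k := key (p := pq) (s := sq) (P := PP) (KL := KL) (KR := KR)
    (l := (∑ b, cv b * (KL *ᵥ cv) b) / 2) (r := (∑ b, cv b * (cv ᵥ* KR) b) / 2)
    (by
      ext ⟨a, a'⟩ ⟨b, b'⟩
      cases a <;> cases a' <;> cases b <;> cases b' <;>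
        simp [PP, sq, pq, cv, Matrix.mul_apply, Fin.sum_univ_three] <;> norm_num)
    (by ext a b; simp [PP, mul_comm])
    (by simp [PP, cv, Matrix.trace, Fintype.sum_prod_type]; norm_num)
    (by
      ext i ⟨b, b'⟩
      fin_cases i <;> simp [PP, pq, cv, Matrix.mul_apply, Fintype.sum_prod_type])
    f1
    (by
      ext1 a c
      have := congrArg (fun z => (cv c / 2) • z) (f2 a)
      simp only [Finset.smul_sum, smul_smul] at this
      rw [mul_lift_apply, lift, Matrix.map_apply, Algebra.algebraMap_eq_smul_one]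
      convert this using 2 <;> simp only [PP, Matrix.of_apply] <;> ring_nf)
    f3
    (by
      ext1 a c
      have := congrArg (fun z => (cv a / 2) • z) (f4 c)
      simp only [Finset.smul_sum, smul_smul] at this
      rw [lift_mul_apply, lift, Matrix.map_apply, Algebra.algebraMap_eq_smul_one]
      convert this using 2 <;> simp only [PP, Matrix.of_apply] <;> ring_nf)
    (by
      ext a c
      have := v1 a
      simp only [Matrix.mul_apply, Matrix.smul_apply, PP, Matrix.of_apply, smul_eq_mul]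
      rw [← mul_div_assoc, ← mul_assoc, ← this]
      simp only [Matrix.mulVec, dotProduct, Finset.sum_mul, Finset.sum_div]
      exact Finset.sum_congr rfl fun b _ => by ring)
    (by
      ext a c
      have := v2 c
      simp only [Matrix.mul_apply, Matrix.smul_apply, PP, Matrix.of_apply, smul_eq_mul]
      rw [mul_comm (cv a) (cv c), ← mul_div_assoc, ← mul_assoc, ← this]
      simp only [Matrix.vecMul, dotProduct, Finset.sum_mul, Finset.sum_div]
      exact Finset.sum_congr rfl fun b _ => by ring)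
  have hD : DD α γ l (-u) = cl (kL α α (π + u)) (kR γ (π + u))
      (st (row (-u) l) (chain (Lg (π + u)) l)) := by
    rw [← (h4 ι α γ l hl).1 (-u) ⟨by simp; linarith, by simp; linarith⟩, sub_neg_eq_add, DD,
      show π - (π + u) = -u by ring]
    rfl
  rw [g4] at k
  have e' : (sa (2 * u) * sa (-(2 * u))) • (DD α γ l (-u) * DD α γ l u - 1) =
      pair (chain (Q2 u) l) (lift (Op ι) (pq * KL * sq)ᵀ * chain (Q1 u) l *
        lift (Op ι) (sqᵀ * KR * pqᵀ)) := by
    rw [smul_sub, hD]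
    exact sub_eq_of_eq_add' (e.trans k)
  have c1 := Real.one_le_cosh (2 * u.im / 3)
  set c := Real.cosh (2 * u.im / 3)
  have s1 : c / 4 ≤ ‖sa (2 * u)‖ := le_sa (by simp) (by simp; linarith)
  have s2 : c / 4 ≤ ‖sa (-(2 * u))‖ :=
    le_sa (by simp [neg_div]) (by simp; linarith)
  have l1 : ∀ a b, ‖KL a b‖ ≤ 64 * c := fun a b => x23_le (rx_le _ (by simp [neg_div]))
    (fun a => by simpa [kL, norm_ph] using kb_le (by linarith) (by linarith) _ _)
    (fun a => by simpa [kL, norm_ph] using kb_le (by simp; linarith) (by simp; linarith) _ _) _ _ _ _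
  have l2 : ∀ a b, ‖KR a b‖ ≤ 64 * c := fun a b => x23_le (rx_le _ (by simp))
    (fun a => by simpa [kR, norm_ph] using kb_le (by simp; linarith) (by simp; linarith) _ _)
    (fun a => by simpa [kR, norm_ph] using kb_le (by simp; linarith) (by simp; linarith) _ _) _ _ _ _
  have n := norm_pair_le (X := (pq * KL * sq)ᵀ) (Y := sqᵀ * KR * pqᵀ) (x := 1024 * c)
    (fun i j => (norm_mul_le (norm_mul_le pq_le l1) sq_le j i).trans (by simp; linarith))
    (fun i j => (norm_mul_le (norm_mul_le (fun i a => sq_le a i) l2) (fun a i => pq_le i a) i j).trans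
      (by simp; linarith))
    (fun i j => (q i j).2.trans t1) fun i j => (q i j).1
  rw [← e', norm_smul, norm_mul] at n
  have s3 := mul_le_mul s1 s2 (by positivity) (norm_nonneg _)
  have s4 := mul_le_mul_of_nonneg_right s3 (norm_nonneg (DD α γ l (-u) * DD α γ l u - 1))
  refine le_of_mul_le_mul_left (a := c / 4 * (c / 4)) ?_ (by positivity)
  nlinarith

end Pool.Agent.P.MP_6c8efb_pr.Cardy
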