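import Pool.Agent.P.MP_6c8efb_pr.Cardy.AIface

/-! The majorant of the eigenvalues and a growth bound for functions with positive real part. -/

open Matrix Complex
open scoped Matrix.Norms.L2Operator ComplexConjugate Real

namespace Pool.Agent.P.MP_6c8efb_pr.Cardy

namespace MajA

/-- the map from the strip to the right half plane -/
noncomputable def zz (u : ℂ) : ℂ := I * exp (-I * u)

theorem norm_zz (u : ℂ) : ‖zz u‖ = Real.exp u.im := by
  simp [zz, norm_exp]

theorem re_zz (u : ℂ) : (zz u).re = Real.exp u.im * Real.sin u.re := by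
  simp [zz, exp_im]

theorem zz_ne (u : ℂ) : zz u ≠ 0 := mul_ne_zero I_ne_zero (exp_ne_zero _)

theorem zz_eq (u : ℂ) : zz u = exp (-I * (u - π / 2)) := by
  rw [show -I * (u - π / 2) = π / 2 * I + -I * u by ring, exp_add, exp_pi_div_two_mul_I, zz]

theorem maj_eq (N : ℝ) (u : ℂ) : maj N u = zz u / (N + zz u) + (zz u)⁻¹ / (N + (zz u)⁻¹) := rfl

theorem re_inv_nonneg {z : ℂ} (h : 0 ≤ z.re) : 0 ≤ z⁻¹.re := by
  rw [inv_re]
  exact div_nonneg h (normSq_nonneg z)

theorem le_norm_add {N : ℝ} {z : ℂ} (h : 0 ≤ z.re) : N ≤ ‖(N : ℂ) + z‖ :=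
  le_trans (by simpa using h) (re_le_norm _)

theorem add_ne {N : ℝ} (hN : 0 < N) {z : ℂ} (h : 0 ≤ z.re) : (N : ℂ) + z ≠ 0 :=
  norm_pos_iff.1 (hN.trans_le (le_norm_add h))

theorem norm_frac_le {N : ℝ} (hN : 0 < N) {z : ℂ} (h : 0 ≤ z.re) :
    ‖z / (N + z)‖ ≤ ‖z‖ / N := by
  rw [norm_div]
  exact div_le_div_of_nonneg_left (norm_nonneg _) hN (le_norm_add h)

theorem re_frac (N : ℝ) (z : ℂ) :
    (z / (N + z)).re = (N * z.re + ‖z‖ ^ 2) / (N ^ 2 + 2 * N * z.re + ‖z‖ ^ 2) := by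
  rw [div_re, Complex.sq_norm, normSq_apply, normSq_apply, ← add_div]
  simp only [add_re, add_im, ofReal_re, ofReal_im]
  congr 1 <;> ring

theorem re_frac_nonneg {N : ℝ} (hN : 0 < N) {z : ℂ} (h : 0 ≤ z.re) : 0 ≤ (z / (N + z)).re := by
  rw [re_frac]
  positivity

theorem re_frac_bd {N T : ℝ} (hN : 0 < N) (hT : 0 < T) {z : ℂ} (h : z.re = 0) (hz : ‖z‖ = T) :
    Real.exp (-(N / T)) ≤ 2 * (z / (N + z)).re := by
  rw [re_frac, h, hz, Real.exp_neg]
  have hs : 0 ≤ N / T := by positivity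
  have h1 := Real.quadratic_le_exp_of_nonneg hs
  have e : 2 * ((N * 0 + T ^ 2) / (N ^ 2 + 2 * N * 0 + T ^ 2)) = ((1 + (N / T) ^ 2) / 2)⁻¹ := by
    field_simp
    ring
  rw [e]
  exact inv_anti₀ (by positivity) (by nlinarith)

theorem re_zz_nonneg {u : ℂ} (hu : u ∈ Phys) : 0 ≤ (zz u).re := by
  rw [re_zz]
  exact mul_nonneg (Real.exp_pos _).le (Real.sin_nonneg_of_nonneg_of_le_pi hu.1 hu.2)

theorem re_maj_nonneg {N : ℝ} (hN : 0 < N) {u : ℂ} (hu : u ∈ Phys) : 0 ≤ (maj N u).re := by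
  rw [maj_eq, add_re]
  exact add_nonneg (re_frac_nonneg hN (re_zz_nonneg hu))
    (re_frac_nonneg hN (re_inv_nonneg (re_zz_nonneg hu)))

theorem re_maj_bd {N : ℝ} (hN : 0 < N) {u : ℂ} (hu : Real.sin u.re = 0) :
    Real.exp (-(N / Real.exp |u.im|)) ≤ 2 * (maj N u).re := by
  have h0 : (zz u).re = 0 := by rw [re_zz, hu, mul_zero]
  have h1 : (zz u)⁻¹.re = 0 := by rw [inv_re, h0, zero_div]
  have h2 := re_frac_nonneg hN h0.ge
  have h3 := re_frac_nonneg hN h1.ge
  rw [maj_eq, add_re]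
  rcases le_total 0 u.im with h | h
  · have := re_frac_bd hN (Real.exp_pos |u.im|) h0 (by rw [norm_zz, abs_of_nonneg h])
    linarith
  · have := re_frac_bd hN (Real.exp_pos |u.im|) h1
      (by rw [norm_inv, norm_zz, abs_of_nonpos h, Real.exp_neg])
    linarith

theorem diff_maj {N : ℝ} (hN : 0 < N) {u : ℂ} (hu : u ∈ Phys) : DifferentiableAt ℂ (maj N) u := by
  have h : DifferentiableAt ℂ zz u := by
    unfold zz
    fun_prop
  have h' := h.inv (zz_ne u)
  exact (h.div (h.const_add _) (add_ne hN (re_zz_nonneg hu))).add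
    (h'.div (h'.const_add _) (add_ne hN (re_inv_nonneg (re_zz_nonneg hu))))

theorem abs_tanh_le (y : ℝ) : |Real.tanh (y / 2)| ≤ Real.exp (-(Real.exp |y|)⁻¹) := by
  have key : ∀ y : ℝ, 0 ≤ y → |Real.tanh (y / 2)| ≤ Real.exp (-(Real.exp |y|)⁻¹) := fun y hy => by
    have h1 := Real.add_one_le_exp (-(Real.exp |y|)⁻¹)
    refine le_trans ?_ h1
    have e : Real.exp |y| = Real.exp (y / 2) ^ 2 := by
      rw [← Real.exp_nat_mul, abs_of_nonneg hy]
      congr 1
      push_cast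
      ring
    have h2 : 1 ≤ Real.exp (y / 2) := Real.one_le_exp (by positivity)
    rw [Real.tanh_eq, Real.exp_neg, e]
    generalize Real.exp (y / 2) = a at h2
    have h3 : a⁻¹ ≤ 1 := inv_le_one_of_one_le₀ h2
    have h4 : 0 < a⁻¹ := by positivity
    rw [abs_of_nonneg (div_nonneg (by linarith) (by positivity)), div_le_iff₀ (by positivity),
      ← inv_pow]
    have h5 : a * a⁻¹ = 1 := mul_inv_cancel₀ (by positivity)
    generalize a⁻¹ = b at h3 h4 h5
    have h6 : b ^ 2 * a = b := by rw [pow_two, mul_assoc, mul_comm b a, h5, mul_one]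
    nlinarith [mul_pos h4 h4, mul_nonneg (mul_pos h4 h4).le h4.le]
  rcases le_total 0 y with h | h
  · exact key y h
  · have := key (-y) (by linarith)
    rwa [neg_div, Real.tanh_neg, abs_neg, abs_neg] at this

theorem norm_tan_le {u : ℂ} (hu : u.re = 0) : ‖tan (u / 2)‖ ≤ Real.exp (-(Real.exp |u.im|)⁻¹) := by
  have e : u / 2 = ((u.im / 2 : ℝ) : ℂ) * I := by
    apply Complex.ext <;> simp [hu]
  rw [e, tan_mul_I, ← ofReal_tanh, norm_mul, norm_I, mul_one, norm_real, Real.norm_eq_abs]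
  exact abs_tanh_le _

theorem phys_big {u : ℂ} (hu : u ∈ Phys) : u ∈ Big :=
  ⟨by linarith [hu.1, Real.pi_pos], by linarith [hu.2, Real.pi_pos]⟩

theorem isOpen_big : IsOpen Big :=
  (isOpen_lt continuous_const continuous_re).inter (isOpen_lt continuous_re continuous_const)

variable {C : ℝ} {N : ℕ} {Λ : ℂ → ℂ}

theorem sq_le (h : Fam1 C N Λ) (hC : 0 ≤ C) {u : ℂ} (hu : u.re = 0) :
    ‖Λ u‖ ^ 2 ≤ Real.exp (C * Real.exp (-(N / Real.exp |u.im|))) := by
  have hB : u ∈ Big := phys_big ⟨hu.ge, by rw [hu]; exact Real.pi_pos.le⟩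
  have e : -u = conj u := by
    apply Complex.ext <;> simp [hu]
  have h1 := h.inv u (by rw [hu]; norm_num)
  have h2 : ‖Λ u‖ ^ 2 = ‖Λ (-u) * Λ u‖ := by
    rw [e, ← h.adj u hB, norm_mul, norm_conj, pow_two]
  have h3 : ‖tan (u / 2)‖ ^ N ≤ Real.exp (-(N / Real.exp |u.im|)) := by
    refine (pow_le_pow_left₀ (norm_nonneg _) (norm_tan_le hu) N).trans (le_of_eq ?_)
    rw [← Real.exp_nat_mul, div_eq_mul_inv, mul_neg]
  have h4 := norm_add_le (Λ (-u) * Λ u - 1) 1
  rw [sub_add_cancel, norm_one] at h4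
  have h5 := Real.add_one_le_exp (C * Real.exp (-(N / Real.exp |u.im|)))
  have h6 := mul_le_mul_of_nonneg_left h3 hC
  linarith

theorem bdry (hN : 0 < (N : ℝ)) (hC : 0 ≤ C) {u : ℂ} {a : ℂ} (hu : Real.sin u.re = 0)
    (ha : ‖a‖ ^ 2 ≤ Real.exp (C * Real.exp (-(N / Real.exp |u.im|)))) :
    ‖a * exp (-C * maj N u)‖ ≤ 1 := by
  refine (pow_le_one_iff_of_nonneg (norm_nonneg _) two_ne_zero).1 ?_
  rw [norm_mul, mul_pow, norm_exp, ← Real.exp_nat_mul]
  refine (mul_le_mul_of_nonneg_right ha (Real.exp_pos _).le).trans ?_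
  rw [← Real.exp_add, Real.exp_le_one_iff]
  have := mul_le_mul_of_nonneg_left (re_maj_bd hN hu) hC
  simp only [mul_re, neg_re, neg_im, ofReal_re, ofReal_im, Nat.cast_ofNat]
  linarith

theorem first (hN : 0 < (N : ℝ)) (h : Fam1 C N Λ) {u : ℂ} (hu : u ∈ Phys) :
    ‖Λ u * exp (-C * maj N u)‖ ≤ 1 := by
  have hC : 0 ≤ C := (norm_nonneg _).trans (h.bd u hu)
  have hd : ∀ v ∈ Phys, DifferentiableAt ℂ (fun v => Λ v * exp (-C * maj N v)) v := fun v hv =>
    (h.diff.differentiableAt (isOpen_big.mem_nhds (phys_big hv))).mul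
      ((diff_maj hN hv).const_mul _).cexp
  refine PhragmenLindelof.vertical_strip (f := fun v => Λ v * exp (-C * maj N v)) (a := 0) (b := π)
    (DifferentiableOn.diffContOnCl fun v hv => (hd v ?_).differentiableWithinAt)
    ⟨0, div_pos Real.pi_pos (by linarith [Real.pi_pos]), 0, ?_⟩ (fun v hv => ?_) (fun v hv => ?_)
    hu.1 hu.2
  · rw [closure_preimage_re, closure_Ioo Real.pi_pos.ne] at hv
    exact hv
  · refine Asymptotics.IsBigO.of_bound C (Filter.Eventually.filter_mono inf_le_right ?_)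
    refine Filter.eventually_principal.2 fun v hv => ?_
    have hv' : v ∈ Phys := ⟨hv.1.le, hv.2.le⟩
    rw [zero_mul, Real.exp_zero, norm_one, norm_mul, norm_exp]
    refine mul_le_mul (h.bd v hv') (Real.exp_le_one_iff.2 ?_) (Real.exp_pos _).le hC
    have := mul_nonneg hC (re_maj_nonneg hN hv')
    simp only [mul_re, neg_re, neg_im, ofReal_re, ofReal_im]
    linarith
  · exact bdry hN hC (by rw [hv, Real.sin_zero]) (sq_le h hC hv)
  · refine bdry hN hC (by rw [hv, Real.sin_pi]) ?_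
    have := sq_le h hC (u := π - v) (by simp [hv])
    rw [h.cross v (phys_big ⟨by rw [hv]; exact Real.pi_pos.le, hv.le⟩)] at this
    simpa using this

/-- the map from the disc to the strip -/
noncomputable def φ (w : ℂ) : ℂ := π / 2 + I * log ((1 + w) / (1 - w))

theorem cay_pos {w : ℂ} (hw : ‖w‖ < 1) : 1 - w ≠ 0 ∧ 0 < ((1 + w) / (1 - w)).re := by
  have h1 : 1 - w ≠ 0 := fun e => by
    rw [← sub_eq_zero.1 e, norm_one] at hw
    exact lt_irrefl _ hw
  refine ⟨h1, ?_⟩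
  have h2 : ‖w‖ ^ 2 < 1 := pow_lt_one₀ (norm_nonneg _) hw two_ne_zero
  rw [Complex.sq_norm, normSq_apply] at h2
  rw [div_re, ← add_div]
  refine div_pos ?_ (normSq_pos.2 h1)
  simp only [add_re, add_im, sub_re, sub_im, one_re, one_im]
  nlinarith

theorem φ_mem {w : ℂ} (hw : ‖w‖ < 1) : 0 < (φ w).re ∧ (φ w).re < π := by
  have h := abs_lt.1 (abs_arg_lt_pi_div_two_iff.2 (Or.inl (cay_pos hw).2))
  have e : (φ w).re = π / 2 - arg ((1 + w) / (1 - w)) := by
    simp [φ, log_im, sub_eq_add_neg]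
  rw [e]
  constructor <;> linarith [h.1, h.2]

theorem φ_diff {w : ℂ} (hw : ‖w‖ < 1) : DifferentiableAt ℂ φ w := by
  have h : DifferentiableAt ℂ (fun w : ℂ => (1 + w) / (1 - w)) w :=
    DifferentiableAt.div (by fun_prop) (by fun_prop) (cay_pos hw).1
  exact ((h.clog (Or.inl (cay_pos hw).2)).const_mul I).const_add _

theorem disc {F : ℂ → ℂ} (hF : DifferentiableOn ℂ F (Metric.ball 0 1))
    (h : ∀ w ∈ Metric.ball (0 : ℂ) 1, (F w).re ≤ 0) {w : ℂ} (hw : ‖w‖ < 1) :
    ‖F w‖ ≤ ‖F 0‖ * ((1 + ‖w‖) / (1 - ‖w‖)) := by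
  refine le_of_forall_pos_le_add fun ε hε => ?_
  have h1 : 0 < 1 - ‖w‖ := sub_pos.2 hw
  have := borelCaratheodory (M := ε * (1 - ‖w‖) / 2) (by positivity) hF
    (fun v hv => (h v hv).trans (by positivity)) one_pos (mem_ball_zero_iff.2 hw)
  have e : 2 * (ε * (1 - ‖w‖) / 2) * ‖w‖ / (1 - ‖w‖) = ε * ‖w‖ := by field_simp
  rw [e, mul_div_assoc] at this
  nlinarith

theorem ratio {a b t T σ : ℝ} (hb : 0 ≤ b) (ht : 0 < t) (hσ : 0 < σ) (ha : 0 < a)
    (e : a ^ 2 - b ^ 2 = 4 * (t * σ)) (ha' : a ≤ t + 1) (hb' : b ≤ t + 1) (h1 : t ≤ T)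
    (h2 : 1 ≤ T * t) : b / a < 1 ∧ (1 + b / a) / (1 - b / a) ≤ 4 * T / σ := by
  have h3 : b < a := by
    by_contra hc
    nlinarith [mul_pos ht hσ, not_lt.1 hc]
  have h4 : b / a < 1 := (div_lt_one ha).2 h3
  refine ⟨h4, ?_⟩
  have e2 : (1 + b / a) / (1 - b / a) = (a + b) ^ 2 / (4 * (t * σ)) := by
    have : a - b ≠ 0 := by linarith
    have : a + b ≠ 0 := by linarith
    rw [← e, sq_sub_sq]
    field_simp
  have h5 : (a + b) ^ 2 ≤ 16 * (T * t) := by
    have h6 : (a + b) ^ 2 ≤ (2 * (t + 1)) ^ 2 := pow_le_pow_left₀ (by linarith) (by linarith) 2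
    have h7 : t * t ≤ T * t := mul_le_mul_of_nonneg_right h1 ht.le
    nlinarith [sq_nonneg (t - 1)]
  rw [e2, div_le_div_iff₀ (by positivity) hσ]
  nlinarith

end MajA

open MajA

theorem s_Maj : S_Maj := by
  intro C N Λ hN h u hu
  have hN' : 0 < (N : ℝ) := by exact_mod_cast hN
  refine ⟨first hN' h hu, ?_, diff_maj hN' hu, ?_⟩
  · rw [maj_eq]
    have h1 := norm_frac_le hN' (re_zz_nonneg hu)
    have h2 := norm_frac_le hN' (re_inv_nonneg (re_zz_nonneg hu))
    rw [norm_inv, norm_zz, ← Real.exp_neg] at h2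
    rw [norm_zz] at h1
    refine (norm_add_le _ _).trans ((add_le_add h1 h2).trans ?_)
    rw [← add_div, two_mul]
    exact div_le_div_of_nonneg_right (add_le_add (Real.exp_le_exp.2 (le_abs_self _))
      (Real.exp_le_exp.2 (neg_le_abs _))) hN'.le
  · rw [maj_eq, zz_eq, sub_self, mul_zero, exp_zero, inv_one, ← add_div]
    norm_num

theorem s_Mid : S_Mid := by
  intro f hf hp u h0 h1
  have hσ := Real.sin_pos_of_pos_of_lt_pi h0 h1
  have hz : 0 < (zz u).re := by
    rw [re_zz]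
    positivity
  have hne : zz u + 1 ≠ 0 := fun e => by
    have := congrArg re e
    simp only [add_re, one_re, zero_re] at this
    linarith
  have hr := ratio (a := ‖zz u + 1‖) (b := ‖zz u - 1‖) (t := Real.exp u.im)
    (T := Real.exp |u.im|) (norm_nonneg _) (Real.exp_pos _) hσ (norm_pos_iff.2 hne)
    (by
      rw [← re_zz, Complex.sq_norm, Complex.sq_norm, normSq_apply, normSq_apply]
      simp only [add_re, add_im, sub_re, sub_im, one_re, one_im]
      ring)
    ((norm_add_le _ _).trans (by rw [norm_zz, norm_one]))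
    ((norm_sub_le _ _).trans (by rw [norm_zz, norm_one]))
    (Real.exp_le_exp.2 (le_abs_self _))
    (by
      rw [← Real.exp_add]
      exact Real.one_le_exp (by linarith [neg_le_abs u.im]))
  rw [← norm_div] at hr
  have hd := disc (F := fun w => -f (φ w))
    (fun w hw => by
      have hw' := mem_ball_zero_iff.1 hw
      exact ((hf.differentiableAt (((isOpen_lt continuous_const continuous_re).inter
        (isOpen_lt continuous_re continuous_const)).mem_nhds (φ_mem hw'))).comp w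
          (φ_diff hw')).neg.differentiableWithinAt)
    (fun w hw => by
      have hw' := φ_mem (mem_ball_zero_iff.1 hw)
      simpa using hp _ hw'.1 hw'.2) hr.1
  have e1 : φ ((zz u - 1) / (zz u + 1)) = u := by
    have e : (1 + (zz u - 1) / (zz u + 1)) / (1 - (zz u - 1) / (zz u + 1)) = zz u := by
      field_simp
      ring
    rw [φ, e, zz_eq, log_exp]
    · linear_combination (-(u - π / 2)) * I_mul_I
    · simp
      linarith [Real.pi_pos]
    · simp
      linarith [Real.pi_pos]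
  have e2 : φ 0 = π / 2 := by simp [φ]
  simp only [e1, e2, norm_neg] at hd
  refine hd.trans ((mul_le_mul_of_nonneg_left hr.2 (norm_nonneg _)).trans (le_of_eq ?_))
  ring

end Pool.Agent.P.MP_6c8efb_pr.Cardy
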