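import Pool.Agent.P.MP_6c8efb_pr.Cardy.AIface

/-! A crude bound and the Phragmen-Lindelof bound for chains of gates. -/

open Matrix Complex
open scoped Matrix.Norms.L2Operator ComplexConjugate Real

namespace Pool.Agent.P.MP_6c8efb_pr.Cardy

namespace PlcA

variable {ι : Type} [Fintype ι] [DecidableEq ι]

theorem norm_single (k : ι) (t s : Bool) : ‖emb k (Matrix.single t s 1)‖ ≤ 1 := by
  have h : ∀ t s : Bool, star (emb k (Matrix.single t s 1)) * emb k (Matrix.single t s 1) =
      emb k (Matrix.single s s 1) := fun t s => by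
    rw [← map_star, ← map_mul, Matrix.star_eq_conjTranspose, Matrix.conjTranspose_single,
      Matrix.single_mul_single_same]
    simp
  have h1 := CStarRing.norm_star_mul_self (x := emb k (Matrix.single s s 1))
  have h2 := CStarRing.norm_star_mul_self (x := emb k (Matrix.single t s 1))
  rw [h] at h1 h2
  have h3 : ‖emb k (Matrix.single s s 1)‖ ≤ 1 := by nlinarith
  nlinarith

theorem norm_emb (k : ι) {m : M2} {c : ℝ} (h : ∀ t s, ‖m t s‖ ≤ c) : ‖emb k m‖ ≤ 4 * c := by
  have e : emb k m = ∑ t, ∑ s, m t s • emb k (Matrix.single t s 1) := by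
    conv_lhs => rw [Matrix.matrix_eq_sum_single m]
    simp only [map_sum, ← map_smul, Matrix.smul_single, smul_eq_mul, mul_one]
  rw [e]
  refine (norm_sum_le_of_le (n := fun _ => 2 * c) _ fun t _ =>
    (norm_sum_le_of_le (n := fun _ => c) _ fun s _ => ?_).trans (by simp)).trans (by simp; linarith)
  rw [norm_smul]
  exact (mul_le_of_le_one_right (norm_nonneg _) (norm_single k t s)).trans (h t s)

end PlcA

theorem s_Crude : S_Crude := by
  intro A _ _ L c h ι _ _ l i j
  have hc : 0 ≤ c := (norm_nonneg _).trans (h i j true true)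
  induction l generalizing i with
  | nil =>
    simp only [chain_nil, Matrix.one_apply, List.length_nil, pow_zero]
    split_ifs
    · exact norm_one_le
    · simp
  | cons k l ih =>
    rw [chain_cons, Matrix.mul_apply]
    refine (norm_sum_le_of_le (n := fun _ => 4 * c * (4 * Fintype.card A * c) ^ l.length) _
      fun a _ => (norm_mul_le _ _).trans ?_).trans (le_of_eq ?_)
    · exact mul_le_mul (PlcA.norm_emb k (h i a)) (ih a) (norm_nonneg _) (by positivity)
    · rw [Finset.sum_const, Finset.card_univ, nsmul_eq_mul, List.length_cons]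
      ring

theorem s_Plc : S_Plc := by
  intro A _ _ G a b C hab hG hU ι _ _ l hl u ha hb i j
  have hc : 0 < π / (b - a) / 2 := by have := Real.pi_pos; have := sub_pos.2 hab; positivity
  set c := π / (b - a) / 2 with hcd
  refine PhragmenLindelof.vertical_strip (f := fun u => chain (G u) l i j) (a := a) (b := b)
    (DifferentiableOn.diffContOnCl fun z hz => ?_) ⟨c, by linarith, l.length * |C| / c, ?_⟩
    (fun z hz => norm_chain_le (hU z (Or.inl hz)) hl i j)
    (fun z hz => norm_chain_le (hU z (Or.inr hz)) hl i j) ha hb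
  · rw [closure_preimage_re, closure_Ioo hab.ne] at hz
    exact (differentiableAt_chain (fun i j t s => (hG z hz.1 hz.2 i j t s).1) l i
      j).differentiableWithinAt
  · refine Asymptotics.IsBigO.of_bound ((4 * Fintype.card A * |C|) ^ l.length) ?_
    refine Filter.eventually_inf_principal.2 (Filter.Eventually.of_forall fun z hz => ?_)
    refine (s_Crude A (G z) (|C| * Real.exp (|C| * |z.im|)) (fun i j t s =>
      (hG z hz.1.le hz.2.le i j t s).2.trans ?_) ι l i j).trans ?_
    · gcongr <;> exact le_abs_self C
    · rw [← mul_assoc, mul_pow, ← Real.exp_nat_mul, Real.norm_eq_abs, Real.abs_exp]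
      refine mul_le_mul_of_nonneg_left (Real.exp_le_exp.2 ?_) (by positivity)
      calc l.length * (|C| * |z.im|) = l.length * |C| / c * (c * |z.im|) := by field_simp
        _ ≤ _ := by gcongr; linarith [Real.add_one_le_exp (c * |z.im|)]

end Pool.Agent.P.MP_6c8efb_pr.Cardy
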