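import Pool.Agent.P.MP_6c8efb_pr.Cardy.AIface

/-! Unitarity of the spin one gate on the two boundary lines. -/

open Matrix Complex
open scoped Matrix.Norms.L2Operator ComplexConjugate Real

namespace Pool.Agent.P.MP_6c8efb_pr.Cardy

namespace QUniA

/-- the spin one gate with abstract weights -/
noncomputable def GG (A B S k : ℂ) : Gate (Fin 3) :=
  !![Matrix.diagonal fun s => if s then -A else B, Matrix.single true false k, 0;
     Matrix.single false true (-k), (-S) • 1, Matrix.single true false k;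
     0, Matrix.single false true (-k), Matrix.diagonal fun s => if s then B else -A]

theorem uni1 {A B S k : ℂ} (hA : conj A = S) (hS : conj S = A) (hB : conj B = B) (hk : conj k = k)
    (e : B = A + S) (e' : k ^ 2 = A ^ 2 + A * S + S ^ 2) :
    (GG A B S k)ᴴ * GG A B S k = B ^ 2 • (1 : Gate (Fin 3)) := by
  ext i j s t
  fin_cases i <;> fin_cases j <;> cases s <;> cases t <;>
    simp [GG, Matrix.mul_apply, Fin.sum_univ_three, Matrix.conjTranspose_apply, Matrix.star_apply,
      Matrix.single_apply, Matrix.diagonal_apply, hA, hS, hB, hk] <;> grind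

theorem uni2 {A B S k : ℂ} (hA : conj A = A) (hS : conj S = -B) (hB : conj B = -S)
    (hk : conj k = k) (e : B = A + S) (e' : k ^ 2 = A ^ 2 + A * S + S ^ 2) :
    (GG A B S k)ᵀᴴ * (GG A B S k)ᵀ = A ^ 2 • (1 : Gate (Fin 3)) := by
  ext i j s t
  fin_cases i <;> fin_cases j <;> cases s <;> cases t <;>
    simp [GG, Matrix.mul_apply, Fin.sum_univ_three, Matrix.conjTranspose_apply, Matrix.star_apply,
      Matrix.single_apply, Matrix.diagonal_apply, hA, hS, hB, hk] <;> grind

theorem sin_ne {z : ℂ} (h0 : 0 < z.re) (h1 : z.re < π) : sin z ≠ 0 := by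
  rw [Complex.sin_ne_zero_iff]
  rintro k rfl
  simp only [mul_re, intCast_re, ofReal_re, intCast_im, ofReal_im, mul_zero, sub_zero] at h0 h1
  have h2 : (0 : ℝ) < k := (mul_pos_iff_of_pos_right Real.pi_pos).1 h0
  have h3 : (k : ℝ) < 1 := lt_of_mul_lt_mul_right (by rwa [one_mul]) Real.pi_pos.le
  have h4 : 0 < k := by exact_mod_cast h2
  have h5 : k < 1 := by exact_mod_cast h3
  omega

theorem cos3 : cos ((π : ℂ) / 3) = 1 / 2 := by
  have := congrArg ((↑) : ℝ → ℂ) Real.cos_pi_div_three
  push_cast at this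
  exact this

theorem sn_eq (u : ℂ) : sn u = sa u + sb u := by
  rw [sn, sa, sb, sin_add, sin_sub, cos3]; ring

theorem sc_sq (u : ℂ) : sc ^ 2 = sa u ^ 2 + sa u * sb u + sb u ^ 2 := by
  have h1 := sin_sq_add_cos_sq ((π : ℂ) / 3)
  have h2 := sin_sq_add_cos_sq (u / 3)
  rw [cos3] at h1
  rw [sa, sb, sc, sin_sub, cos3]
  linear_combination (-sin ((π : ℂ) / 3) ^ 2) * h2 + sin (u / 3) ^ 2 * h1

theorem conj_sc : conj sc = sc := by
  rw [sc, ← sin_conj]; simp only [map_div₀, conj_ofReal, map_ofNat]

theorem smul_uni (c d : ℂ) (G : Gate (Fin 3)) (h : Gᴴ * G = d • (1 : Gate (Fin 3)))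
    (e : conj c * c * d = 1) : (c • G)ᴴ * (c • G) = 1 := by
  rw [Matrix.conjTranspose_smul, Matrix.smul_mul, Matrix.mul_smul, h, smul_smul, smul_smul]
  change (conj c * c * d) • _ = _
  rw [e, one_smul]

end QUniA

open QUniA in
theorem s_QUni : S_QUni := by
  intro u
  have hp := Real.pi_pos
  constructor
  · intro h
    have hu : conj u = π - u := Complex.ext (by simp [h]; ring) (by simp)
    have hA : conj (sa u) = sb u := by
      rw [sa, sb, ← sin_conj]; simp only [map_sub, map_div₀, conj_ofReal, map_ofNat, hu]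
      congr 1; ring
    have hS : conj (sb u) = sa u := by rw [← hA, conj_conj]
    have hB : conj (sn u) = sn u := by rw [sn_eq, map_add, hA, hS, add_comm]
    have h1 : sa u ≠ 0 := sin_ne (by simp [h]; linarith) (by simp [h]; linarith)
    have h2 : sn u ≠ 0 := sin_ne (by simp [h]; linarith) (by simp [h]; linarith)
    have h3 : sb u ≠ 0 := by rw [← hA]; simpa using h1
    refine smul_uni _ _ _ (uni1 hA hS hB conj_sc (sn_eq u) (sc_sq u)) ?_
    rw [map_div₀, map_mul, hA, hS, hB]
    field_simp
  · intro h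
    have hu : conj u = -π - u := Complex.ext (by simp [h]; ring) (by simp)
    have hS : conj (sb u) = -sn u := by
      rw [sn, sb, ← sin_conj, ← sin_neg]; simp only [map_div₀, map_ofNat, hu]
      congr 1; ring
    have hB : conj (sn u) = -sb u := by rw [← neg_neg (sn u), ← hS, map_neg, conj_conj]
    have hA : conj (sa u) = sa u := by
      have := sn_eq u
      have e : sa u = sn u - sb u := by rw [this]; ring
      rw [e, map_sub, hS, hB]; ring
    have h1 : sa u ≠ 0 := sin_ne (by simp [h]; linarith) (by simp [h]; linarith)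
    have h2 : sn u ≠ 0 := sin_ne (by simp [h]; linarith) (by simp [h]; linarith)
    have h3 : sb u ≠ 0 := by
      intro h0
      rw [h0, map_zero] at hS
      exact h2 (neg_eq_zero.1 hS.symm)
    refine smul_uni _ _ (G3 u)ᵀ (uni2 hA hS hB conj_sc (sn_eq u) (sc_sq u)) ?_
    rw [map_div₀, map_mul, hA, hS, hB]
    field_simp

end Pool.Agent.P.MP_6c8efb_pr.Cardy
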