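import Pool.Agent.P.MP_6c8efb_pr.Cardy.AIface

/-! The bound for chains of spin one gates. -/

open Matrix Complex
open scoped Matrix.Norms.L2Operator ComplexConjugate Real

namespace Pool.Agent.P.MP_6c8efb_pr.Cardy

namespace QuotA

theorem re_sin (z : ℂ) : (sin z).re = Real.sin z.re * Real.cosh z.im := by
  rw [Complex.sin_eq]
  simp [← Complex.ofReal_sin, ← Complex.ofReal_cos, ← Complex.ofReal_cosh, ← Complex.ofReal_sinh]

theorem im_sin (z : ℂ) : (sin z).im = Real.cos z.re * Real.sinh z.im := by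
  rw [Complex.sin_eq]
  simp [← Complex.ofReal_sin, ← Complex.ofReal_cos, ← Complex.ofReal_cosh, ← Complex.ofReal_sinh]

theorem re_cos (z : ℂ) : (cos z).re = Real.cos z.re * Real.cosh z.im := by
  rw [Complex.cos_eq]
  simp [← Complex.ofReal_sin, ← Complex.ofReal_cos, ← Complex.ofReal_cosh, ← Complex.ofReal_sinh]

theorem im_cos (z : ℂ) : (cos z).im = -(Real.sin z.re * Real.sinh z.im) := by
  rw [Complex.cos_eq]
  simp [← Complex.ofReal_sin, ← Complex.ofReal_cos, ← Complex.ofReal_cosh, ← Complex.ofReal_sinh]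

theorem cosh_le (y : ℝ) : Real.cosh y ≤ Real.exp |y| := by
  rw [Real.cosh_eq]
  have h1 := Real.exp_le_exp.2 (le_abs_self y)
  have h2 := Real.exp_le_exp.2 (neg_le_abs y)
  linarith

theorem norm_sin_le (z : ℂ) {y : ℝ} (h : |z.im| ≤ y) : ‖sin z‖ ≤ Real.exp y := by
  refine le_trans ?_ ((cosh_le z.im).trans (Real.exp_le_exp.2 h))
  refine (pow_le_pow_iff_left₀ (norm_nonneg _) (Real.cosh_pos _).le two_ne_zero).1 ?_
  rw [Complex.sq_norm, Complex.normSq_apply, re_sin, im_sin]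
  have h1 := Real.cosh_sq z.im
  have h2 := Real.sin_sq_add_cos_sq z.re
  have h3 : Real.sin z.re * Real.cosh z.im * (Real.sin z.re * Real.cosh z.im) +
      Real.cos z.re * Real.sinh z.im * (Real.cos z.re * Real.sinh z.im) =
      Real.cosh z.im ^ 2 - Real.cos z.re ^ 2 := by
    linear_combination (Real.cosh z.im ^ 2) * h2 - (Real.cos z.re ^ 2) * h1
  rw [h3]
  nlinarith [sq_nonneg (Real.cos z.re)]

theorem norm_cos_le (z : ℂ) {y : ℝ} (h : |z.im| ≤ y) : ‖cos z‖ ≤ Real.exp y := by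
  rw [← Complex.sin_add_pi_div_two]
  exact norm_sin_le _ (by simpa using h)

theorem half_le_sin {z : ℂ} (h1 : π / 6 ≤ z.re) (h2 : z.re ≤ π / 2) : 1 / 2 ≤ ‖sin z‖ := by
  refine le_trans ?_ (Complex.re_le_norm _)
  rw [re_sin]
  have hp := Real.pi_pos
  have h3 : Real.sin (π / 6) ≤ Real.sin z.re :=
    Real.sin_le_sin_of_le_of_le_pi_div_two (by linarith) h2 h1
  rw [Real.sin_pi_div_six] at h3
  nlinarith [Real.one_le_cosh z.im]

theorem re_cos_pos {z : ℂ} (h : |z.re| < π / 2) : 0 < (cos z).re := by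
  rw [re_cos]
  exact mul_pos (Real.cos_pos_of_mem_Ioo ⟨(abs_lt.1 h).1, (abs_lt.1 h).2⟩) (Real.cosh_pos _)

theorem cos_half_ne {u : ℂ} (h : |u.re| ≤ π / 2) : cos (u / 2) ≠ 0 := fun h0 => by
  have hp := Real.pi_pos
  have h' := abs_le.1 h
  have := re_cos_pos (z := u / 2) (by
    rw [Complex.div_ofNat_re, abs_lt]; constructor <;> linarith [h'.1, h'.2])
  rw [h0] at this
  simp at this

theorem one_le_den {u : ℂ} (h : |u.re| ≤ π / 2) : 1 ≤ ‖1 + 2 * cos (u / 3)‖ := by
  have hp := Real.pi_pos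
  have h' := abs_le.1 h
  have := re_cos_pos (z := u / 3) (by
    rw [Complex.div_ofNat_re, abs_lt]; constructor <;> linarith [h'.1, h'.2])
  refine le_trans ?_ (Complex.re_le_norm _)
  simp only [Complex.add_re, Complex.one_re, Complex.mul_re, Complex.re_ofNat, Complex.im_ofNat]
  linarith

theorem half_le_sa {u : ℂ} (h : |u.re| ≤ π / 2) : 1 / 2 ≤ ‖sa u‖ := by
  have h' := abs_le.1 h
  refine half_le_sin ?_ ?_ <;>
    simp only [Complex.sub_re, Complex.div_ofNat_re, Complex.ofReal_re] <;> linarith [h'.1, h'.2]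

theorem half_le_sn {u : ℂ} (h : |u.re| ≤ π / 2) : 1 / 2 ≤ ‖sn u‖ := by
  have h' := abs_le.1 h
  refine half_le_sin ?_ ?_ <;>
    simp only [Complex.add_re, Complex.div_ofNat_re, Complex.ofReal_re] <;> linarith [h'.1, h'.2]

theorem norm_tan {u : ℂ} (h : u.re = -(π / 2) ∨ u.re = π / 2) : ‖tan (u / 2)‖ = 1 := by
  have hp := Real.pi_pos
  have hc : cos (u / 2) ≠ 0 := cos_half_ne (by
    rcases h with h | h <;> rw [h]
    · rw [abs_neg, abs_of_pos (by positivity)]
    · rw [abs_of_pos (by positivity)])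
  have h1 : Real.sin (u / 2).re ^ 2 = Real.cos (u / 2).re ^ 2 := by
    rw [Complex.div_ofNat_re]
    rcases h with h | h <;> rw [h]
    · rw [show -(π / 2) / 2 = -(π / 4) by ring, Real.sin_neg, Real.cos_neg, neg_sq,
        Real.sin_pi_div_four, Real.cos_pi_div_four]
    · rw [show π / 2 / 2 = π / 4 by ring, Real.sin_pi_div_four, Real.cos_pi_div_four]
  rw [Complex.tan_eq_sin_div_cos, norm_div, div_eq_one_iff_eq (norm_ne_zero_iff.2 hc)]
  refine (pow_left_inj₀ (norm_nonneg _) (norm_nonneg _) two_ne_zero).1 ?_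
  rw [Complex.sq_norm, Complex.sq_norm, Complex.normSq_apply, Complex.normSq_apply, re_sin, im_sin,
    re_cos, im_cos]
  linear_combination (Real.cosh (u / 2).im ^ 2 - Real.sinh (u / 2).im ^ 2) * h1

/-- the scalar factor -/
noncomputable def ff (u : ℂ) : ℂ :=
  2 * cos (u / 6) * cos (u / 2) / ((1 + 2 * cos (u / 3)) * sa u * sn u)

theorem tan_ff {u : ℂ} (h : |u.re| ≤ π / 2) : tan (u / 2) * ff u = sb u / (sa u * sn u) := by
  have h1 := cos_half_ne h
  have h2 : 1 + 2 * cos (u / 3) ≠ 0 := norm_pos_iff.1 (by linarith [one_le_den h])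
  have h3 : sa u ≠ 0 := norm_pos_iff.1 (by linarith [half_le_sa h])
  have h4 : sn u ≠ 0 := norm_pos_iff.1 (by linarith [half_le_sn h])
  have e1 : sin (u / 2) = sin (u / 6) * (1 + 2 * cos (u / 3)) := by
    rw [show u / 2 = 3 * (u / 6) by ring, show u / 3 = 2 * (u / 6) by ring, Complex.sin_three_mul,
      Complex.cos_two_mul]
    linear_combination (-4 * sin (u / 6)) * Complex.sin_sq_add_cos_sq (u / 6)
  have e2 : sb u = 2 * sin (u / 6) * cos (u / 6) := by
    rw [sb, show u / 3 = 2 * (u / 6) by ring, Complex.sin_two_mul]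
  rw [Complex.tan_eq_sin_div_cos, ff, e1, e2]
  field_simp

theorem ff_facts {u : ℂ} (h : |u.re| ≤ π / 2) :
    DifferentiableAt ℂ ff u ∧ ‖ff u‖ ≤ 8 * Real.exp (2 * |u.im|) := by
  have h2 := one_le_den h
  have h3 := half_le_sa h
  have h4 := half_le_sn h
  have hd : 1 / 4 ≤ ‖(1 + 2 * cos (u / 3)) * sa u * sn u‖ := by
    rw [norm_mul, norm_mul]
    have : 1 / 2 ≤ ‖1 + 2 * cos (u / 3)‖ * ‖sa u‖ := by nlinarith
    nlinarith
  constructor
  · refine DifferentiableAt.div (by fun_prop) (by unfold sa sn; fun_prop)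
      (norm_pos_iff.1 (by linarith))
  · have a0 := abs_nonneg u.im
    have b1 := norm_cos_le (u / 6) (y := |u.im|) (by
      rw [Complex.div_ofNat_im, abs_div, Nat.abs_ofNat]; linarith)
    have b2 := norm_cos_le (u / 2) (y := |u.im|) (by
      rw [Complex.div_ofNat_im, abs_div, Nat.abs_ofNat]; linarith)
    have b3 : ‖cos (u / 6)‖ * ‖cos (u / 2)‖ ≤ Real.exp (2 * |u.im|) := by
      rw [two_mul, Real.exp_add]
      exact mul_le_mul b1 b2 (norm_nonneg _) (Real.exp_pos _).le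
    rw [ff, norm_div, div_le_iff₀ (by linarith), norm_mul, norm_mul, Complex.norm_ofNat]
    nlinarith [Real.exp_pos (2 * |u.im|)]

theorem G3_facts (u : ℂ) (i j : Fin 3) (t s : Bool) :
    DifferentiableAt ℂ (fun u => G3 u i j t s) u ∧ ‖G3 u i j t s‖ ≤ Real.exp |u.im| := by
  have a0 := abs_nonneg u.im
  have b1 : ‖sa u‖ ≤ Real.exp |u.im| := norm_sin_le _ (by
    simp only [Complex.sub_im, Complex.div_ofNat_im, Complex.ofReal_im, zero_div, zero_sub,
      abs_neg, abs_div, Nat.abs_ofNat]; linarith)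
  have b2 : ‖sn u‖ ≤ Real.exp |u.im| := norm_sin_le _ (by
    simp only [Complex.add_im, Complex.div_ofNat_im, Complex.ofReal_im, zero_div, zero_add,
      abs_div, Nat.abs_ofNat]; linarith)
  have b3 : ‖sb u‖ ≤ Real.exp |u.im| := norm_sin_le _ (by
    simp only [Complex.div_ofNat_im, abs_div, Nat.abs_ofNat]; linarith)
  have b4 : ‖sc‖ ≤ Real.exp |u.im| := norm_sin_le _ (by simp)
  have b5 : 0 ≤ Real.exp |u.im| := (Real.exp_pos _).le
  have d1 : DifferentiableAt ℂ sa u := by unfold sa; fun_prop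
  have d2 : DifferentiableAt ℂ sn u := by unfold sn; fun_prop
  have d3 : DifferentiableAt ℂ sb u := by unfold sb; fun_prop
  have z0 : DifferentiableAt ℂ (fun _ : ℂ => (0 : ℂ)) u ∧ ‖(0 : ℂ)‖ ≤ Real.exp |u.im| :=
    ⟨differentiableAt_const _, by rwa [norm_zero]⟩
  have p1 : DifferentiableAt ℂ (fun u => -sa u) u ∧ ‖-sa u‖ ≤ Real.exp |u.im| :=
    ⟨d1.neg, by rwa [norm_neg]⟩
  have p2 : DifferentiableAt ℂ (fun u => sn u) u ∧ ‖sn u‖ ≤ Real.exp |u.im| := ⟨d2, b2⟩
  have p3 : DifferentiableAt ℂ (fun u => -sb u * 1) u ∧ ‖-sb u * 1‖ ≤ Real.exp |u.im| :=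
    ⟨d3.neg.mul_const _, by rwa [mul_one, norm_neg]⟩
  have p4 : DifferentiableAt ℂ (fun u => -sb u * 0) u ∧ ‖-sb u * 0‖ ≤ Real.exp |u.im| :=
    ⟨d3.neg.mul_const _, by rwa [mul_zero, norm_zero]⟩
  have p5 : DifferentiableAt ℂ (fun _ : ℂ => sc) u ∧ ‖sc‖ ≤ Real.exp |u.im| :=
    ⟨differentiableAt_const _, b4⟩
  have p6 : DifferentiableAt ℂ (fun _ : ℂ => -sc) u ∧ ‖-sc‖ ≤ Real.exp |u.im| :=
    ⟨differentiableAt_const _, by rwa [norm_neg]⟩
  fin_cases i <;> fin_cases j <;> cases t <;> cases s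
  exacts [p2, z0, z0, p1, z0, z0, p5, z0, z0, z0, z0, z0,
    z0, p6, z0, z0, p3, p4, p4, p3, z0, z0, p5, z0,
    z0, z0, z0, z0, z0, p6, z0, z0, p1, z0, z0, p2]

theorem iso_smul {A : Type} [Fintype A] [DecidableEq A] {c : ℂ} (hc : ‖c‖ = 1) {L : Gate A}
    (h : Lᴴ * L = 1) : (c • L)ᴴ * (c • L) = 1 := by
  rw [Matrix.conjTranspose_smul, Matrix.smul_mul, Matrix.mul_smul, h, smul_smul,
    Complex.star_def, Complex.conj_mul', hc]
  simp

theorem main (h : S_Plc) (h2 : S_QUni) (ι : Type) [Fintype ι] [DecidableEq ι] (l : List ι)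
    (hl : l.Nodup) (u : ℂ) (hu : |u.re| ≤ π / 2) (i j : Fin 3) :
    ‖chain (Q2 u) l i j‖ ≤ ‖tan (u / 2)‖ ^ l.length := by
  have hp := Real.pi_pos
  have hQ : ∀ u : ℂ, |u.re| ≤ π / 2 → Q2 u = tan (u / 2) • (ff u • G3 u) := fun u hu => by
    rw [smul_smul, tan_ff hu, Q2]
  have hb := h (Fin 3) (fun u => ff u • G3 u) (-(π / 2)) (π / 2) 8 (by linarith)
    (fun u h1 h1' i j t s => by
      obtain ⟨f1, f2⟩ := ff_facts (abs_le.2 ⟨h1, h1'⟩)
      obtain ⟨g1, g2⟩ := G3_facts u i j t s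
      refine ⟨f1.mul g1, ?_⟩
      have a0 := abs_nonneg u.im
      calc ‖(ff u • G3 u) i j t s‖ = ‖ff u‖ * ‖G3 u i j t s‖ := norm_mul _ _
        _ ≤ 8 * Real.exp (2 * |u.im|) * Real.exp |u.im| :=
          mul_le_mul f2 g2 (norm_nonneg _) (by positivity)
        _ ≤ 8 * Real.exp (8 * |u.im|) := by
          rw [mul_assoc, ← Real.exp_add]
          gcongr
          linarith)
    (fun u hu => by
      have ht := norm_tan hu
      have hu' : |u.re| ≤ π / 2 := by
        rcases hu with h | h <;> rw [h]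
        · rw [abs_neg, abs_of_pos (by positivity)]
        · rw [abs_of_pos (by positivity)]
      have e : ff u • G3 u = (tan (u / 2))⁻¹ • Q2 u := by
        rw [hQ u hu', inv_smul_smul₀ (norm_pos_iff.1 (by rw [ht]; exact one_pos))]
      have hc : ‖(tan (u / 2))⁻¹‖ = 1 := by rw [norm_inv, ht, inv_one]
      simp only [e]
      rcases hu with h | h
      · right
        rw [Matrix.transpose_smul]
        exact iso_smul hc ((h2 u).2 h)
      · left
        exact iso_smul hc ((h2 u).1 h))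
    ι l hl u (abs_le.1 hu).1 (abs_le.1 hu).2 i j
  rw [hQ u hu, chain_smul, Matrix.smul_apply, norm_smul, norm_pow]
  exact mul_le_of_le_one_right (by positivity) hb

end QuotA

theorem s_Quot (h : S_Plc) (h2 : S_QUni) : S_Quot := by
  intro ι _ _ l hl u hu i j
  refine ⟨QuotA.main h h2 ι l hl u hu i j, ?_⟩
  have h1 := QuotA.main h h2 ι l.reverse (List.nodup_reverse.2 hl) u hu j.rev i.rev
  rw [List.length_reverse] at h1
  have e1 : chain ((Q2 u)ᵀ.submatrix Fin.revPerm Fin.revPerm) l i j =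
      chain (Q2 u) l.reverse j.rev i.rev := by
    have := chain_transpose (Q2 u) (List.nodup_reverse.2 hl)
    rw [List.reverse_reverse] at this
    rw [chain_reindex, ← this]
    rfl
  have e2 := chain_lift (L := (Q2 u)ᵀ.submatrix Fin.revPerm Fin.revPerm) (L' := Q1 u)
    (X := Matrix.diagonal fun a : Fin 3 => (-1 : ℂ) ^ a.1) (by
      ext1 a b
      rw [lift_mul_apply, mul_lift_apply, Finset.sum_eq_single a, Finset.sum_eq_single b]
      · simp only [Matrix.diagonal_apply_eq, Q1, Matrix.of_apply, smul_smul]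
        rw [← pow_add, show b.1 + (a.1 + b.1) = a.1 + 2 * b.1 by ring, pow_add, pow_mul]
        simp
      · intro c _ hc; rw [Matrix.diagonal_apply_ne _ hc, zero_smul]
      · simp
      · intro c _ hc; rw [Matrix.diagonal_apply_ne' _ hc, zero_smul]
      · simp) l
  have e3 := congrFun (congrFun e2 i) j
  rw [lift_mul_apply, mul_lift_apply, Finset.sum_eq_single i, Finset.sum_eq_single j] at e3
  · have e4 := congrArg norm e3
    simp only [Matrix.diagonal_apply_eq, norm_smul, norm_pow, norm_neg, norm_one, one_pow,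
      one_mul] at e4
    rw [← e4, e1]
    exact h1
  · intro c _ hc; rw [Matrix.diagonal_apply_ne _ hc, zero_smul]
  · simp
  · intro c _ hc; rw [Matrix.diagonal_apply_ne' _ hc, zero_smul]
  · simp

end Pool.Agent.P.MP_6c8efb_pr.Cardy
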