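import Pool.Agent.P.MP_6c8efb_pr.Cardy.AIface

/-! The reflection equation and the finite identities behind the inversion relation. -/

open Matrix Complex
open scoped Matrix.Norms.L2Operator ComplexConjugate Real

namespace Pool.Agent.P.MP_6c8efb_pr.Cardy

namespace ReflA

/-- the exchange matrix with free weights -/
def Rg (p q c : ℂ) : Matrix (Bool × Bool) (Bool × Bool) ℂ := Matrix.of fun a b =>
  if a.1 = a.2 then (if a = b then p else 0)
  else if b.1 = b.2 then 0 else if a = b then c else q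

/-- the boundary vector with free weights -/
noncomputable def kg (n s e e' : ℂ) (l : Bool × Bool) : ℂ :=
  n * (if l.1 = l.2 then (if l.1 then s * e' ^ 2 else s * e ^ 2) else 1 / 2)

theorem Rx_eq (w : ℂ) : Rx w = Rg (sa w) (sb w) sc := rfl

theorem ph_mul (α : ℝ) : ph α false * ph α true = 1 := by
  have := ph_mul_neg α false
  rwa [← ph_not] at this

theorem kL_eq (α : ℝ) (u : ℂ) :
    kL α α u = kg (cos (π / 3 - u / 3))⁻¹ (sb u) (ph α false) (ph α true) := by
  funext ⟨a, b⟩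
  have := ph_mul α
  cases a <;> cases b <;> simp only [kL, kb, kg, div_eq_mul_inv, if_true, if_false, reduceCtorEq]
  · ring
  · linear_combination (cos (π * 3⁻¹ - u * 3⁻¹))⁻¹ / 2 * this
  · linear_combination (cos (π * 3⁻¹ - u * 3⁻¹))⁻¹ / 2 * this
  · ring

theorem kR_eq (γ : ℝ) (u : ℂ) : kR γ u = kL (-γ) (-γ) (π - u) := rfl

theorem sin3 : sin (π / 3 : ℂ) = (√3 : ℝ) / 2 := by
  have : ((Real.sin (π / 3) : ℝ) : ℂ) = ((√3 / 2 : ℝ) : ℂ) := by rw [Real.sin_pi_div_three]
  rw [ofReal_sin] at this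
  push_cast at this
  exact this

theorem cos3 : cos (π / 3 : ℂ) = 1 / 2 := by
  have : ((Real.cos (π / 3) : ℝ) : ℂ) = ((1 / 2 : ℝ) : ℂ) := by rw [Real.cos_pi_div_three]
  rw [ofReal_cos] at this
  push_cast at this
  exact this

theorem r2 : ((√3 : ℝ) : ℂ) ^ 2 = 3 := by
  rw [← ofReal_pow, Real.sq_sqrt (by norm_num)]
  norm_num

theorem refl {A B A' B' c s t e e' n n' : ℂ}
    (h1 : B * (B' * t + c * s) + c * A' * s = A * A' * t)
    (h2 : c * (B' * t + c * s) + B * A' * s = A * (B' * s + c * t)) (a b c' d : Bool) :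
    x34 (Rg A B c) (x23 (Rg A' B' c) (k4 (kg n s e e') (kg n' t e e'))) a b c' d =
      x12 (Rg A B c) (x23 (Rg A' B' c) (k4 (kg n' t e e') (kg n s e e'))) a b c' d := by
  cases a <;> cases b <;> cases c' <;> cases d <;>
    simp [x34, x23, x12, k4, kg, Rg, Fintype.sum_prod_type, -mul_eq_mul_left_iff,
      -mul_eq_mul_right_iff] <;>
    first
      | ring1
      | linear_combination (n * n' * e ^ 2 / 2) * h1
      | linear_combination (n * n' * e' ^ 2 / 2) * h1
      | linear_combination (-(n * n' * e ^ 2 / 2)) * h1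
      | linear_combination (-(n * n' * e' ^ 2 / 2)) * h1
      | linear_combination (n * n' * e ^ 2 / 2) * h2
      | linear_combination (n * n' * e' ^ 2 / 2) * h2
      | linear_combination (-(n * n' * e ^ 2 / 2)) * h2
      | linear_combination (-(n * n' * e' ^ 2 / 2)) * h2

theorem inv1 {A B c s t e e' n n' : ℂ} (h : A * s + c * s + B * t = 0) (i : Fin 3) :
    ∑ a, ∑ b, x23 (Rg A B c) (k4 (kg n s e e') (kg n' t e e')) a.1 a.2 b.1 b.2 *
      pq i a * cv b = 0 := by
  fin_cases i <;> simp [x23, k4, kg, Rg, pq, cv, Fintype.sum_prod_type]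
  · linear_combination (n * n' * e' ^ 2 / 2) * h
  · ring
  · linear_combination (n * n' * e ^ 2 / 2) * h

theorem inv2 {A B c s t e e' n n' : ℂ} (h : B * s + c * t + A * t = 0) (i : Fin 3) :
    ∑ a, ∑ b, x23 (Rg A B c) (k4 (kg n s e e') (kg n' t e e')) a.1 a.2 b.1 b.2 *
      cv a * pq i b = 0 := by
  fin_cases i <;> simp [x23, k4, kg, Rg, pq, cv, Fintype.sum_prod_type]
  · linear_combination (n * n' * e' ^ 2 / 2) * h
  · ring
  · linear_combination (n * n' * e ^ 2 / 2) * h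

theorem inv3 {A B c s t e e' n n' : ℂ} (he : e * e' = 1) :
    ∑ a, ∑ b, x23 (Rg A B c) (k4 (kg n s e e') (kg n' t e e')) a.1 a.2 b.1 b.2 *
      cv a * cv b = n * n' * (2 * B * s * t + (A + c) / 2) := by
  simp [x23, k4, kg, Rg, cv, Fintype.sum_prod_type]
  linear_combination (2 * n * n' * B * s * t * (e * e' + 1)) * he

theorem cos_ne {z : ℂ} (h : |z.re| < π / 2) : cos z ≠ 0 := by
  intro h0
  obtain ⟨k, rfl⟩ := cos_eq_zero_iff.1 h0
  have e : ((2 * k + 1) * π / 2 : ℂ).re = (2 * k + 1) * (π / 2) := by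
    rw [show ((2 * k + 1) * π / 2 : ℂ) = (((2 * k + 1) * (π / 2) : ℝ) : ℂ) by push_cast; ring,
      ofReal_re]
  have hp : 0 < π / 2 := by positivity
  rw [e, abs_mul, abs_of_pos hp, mul_lt_iff_lt_one_left hp] at h
  have : |2 * k + 1| < 1 := by exact_mod_cast h
  rw [abs_lt] at this
  omega

theorem sa_eq (w : ℂ) : sa w = (√3 : ℝ) / 2 * cos (w / 3) - 1 / 2 * sin (w / 3) := by
  rw [sa, sin_sub, sin3, cos3]

theorem sa_pi (w : ℂ) : sa (π - w) = sin (w / 3) := by
  rw [sa]; congr 1; ring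

theorem sb_pi (w : ℂ) : sb (π - w) = sa w := by
  rw [sa, sb]; congr 1; ring

theorem sb_pi' (w : ℂ) : sb (π + w) = (√3 : ℝ) / 2 * cos (w / 3) + 1 / 2 * sin (w / 3) := by
  rw [sb, add_div, sin_add, sin3, cos3]

theorem fin {a b c P Q R : ℂ} (ha : a ≠ 0) (hb : b ≠ 0) (hc : c ≠ 0)
    (h : P * Q = R * (a * b * b * c)) : a⁻¹ * b⁻¹ * P * (b⁻¹ * c⁻¹ * Q) = R := by
  field_simp
  linear_combination h

end ReflA

open ReflA

theorem s_Refl : S_Refl := by
  intro α u v
  funext a b c d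
  have hx := sin_sq_add_cos_sq (u / 3)
  have hy := sin_sq_add_cos_sq (v / 3)
  have hr := r2
  rw [kL_eq, kL_eq, Rx_eq, Rx_eq]
  refine refl ?_ ?_ a b c d <;>
    simp only [sub_sub, sa_pi, sb_pi] <;>
    simp only [sa_eq, sb, sc, sin3, sub_div, add_div, sin_sub, cos_sub, sin_add, cos_add] <;>
    grind

theorem s_InvK : S_InvK := by
  intro α γ u hu
  have hx := sin_sq_add_cos_sq (u / 3)
  have hr := r2
  have e2 : 2 * u / 3 = 2 * (u / 3) := by ring
  have e3 : (π - (π + u) : ℂ) = -u := by ring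
  have hp := Real.pi_gt_three
  rw [abs_le] at hu
  simp only [kR_eq, kL_eq, Rx_eq, e3]
  refine ⟨inv1 ?_, inv2 ?_, ?_⟩
  · simp only [sb_pi', sa_eq, sc, sin3]
    simp only [sb, neg_div, sin_neg, cos_neg, e2, sin_two_mul, cos_two_mul]
    grind
  · simp only [sb_pi, sa_eq, sc, sin3]
    simp only [sb, neg_div, sin_neg, cos_neg, e2, sin_two_mul, cos_two_mul]
    grind
  · have n1 : cos (u / 3) ≠ 0 := cos_ne (by
      rw [abs_lt, div_ofNat_re]; constructor <;> linarith [hu.1, hu.2])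
    have n2 : cos (π / 3 - u / 3) ≠ 0 := cos_ne (by
      rw [abs_lt, sub_re, div_ofNat_re, div_ofNat_re, ofReal_re]
      constructor <;> linarith [hu.1, hu.2])
    have n3 : cos (π / 3 - -u / 3) ≠ 0 := cos_ne (by
      rw [abs_lt, sub_re, div_ofNat_re, div_ofNat_re, ofReal_re, neg_re]
      constructor <;> linarith [hu.1, hu.2])
    have e4 : cos (π / 3 - (π + u) / 3) = cos (u / 3) := by
      rw [← cos_neg]; congr 1; ring
    have e5 : cos (π / 3 - (π - u) / 3) = cos (u / 3) := by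
      congr 1; ring
    rw [inv3 (ph_mul _), inv3 (ph_mul _), e4, e5]
    refine fin n2 n1 n3 ?_
    simp only [sb_pi, sb_pi', sa_eq, sc, sin3]
    simp only [sb, neg_div, sin_neg, cos_neg, e2, sin_two_mul, cos_two_mul, cos_sub, sin3, cos3]
    grind

end Pool.Agent.P.MP_6c8efb_pr.Cardy
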