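import Pool.Agent.P.MP_6c8efb_pr.Cardy.AIface

/-! The current relation on the line `re u = 0`. -/

open Matrix Complex
open scoped Matrix.Norms.L2Operator ComplexConjugate Real

set_option linter.unusedSectionVars false

namespace Pool.Agent.P.MP_6c8efb_pr.Cardy

namespace Rel0A

theorem nsin (z : ℂ) : ‖sin z‖ ^ 2 = Real.sin z.re ^ 2 + Real.sinh z.im ^ 2 := by
  rw [Complex.sq_norm, Complex.normSq_apply, Complex.sin_eq]
  simp only [← ofReal_sin, ← ofReal_cos, ← ofReal_cosh, ← ofReal_sinh, ← ofReal_mul, add_re,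
    ofReal_re, mul_re, I_re, mul_zero, ofReal_im, I_im, mul_one, sub_self, add_zero, add_im, mul_im,
    zero_add]
  nlinarith [Real.sin_sq_add_cos_sq z.re, Real.cosh_sq z.im]

theorem ncos (z : ℂ) : ‖cos z‖ ^ 2 = Real.cos z.re ^ 2 + Real.sinh z.im ^ 2 := by
  rw [Complex.sq_norm, Complex.normSq_apply, Complex.cos_eq]
  simp only [← ofReal_sin, ← ofReal_cos, ← ofReal_cosh, ← ofReal_sinh, ← ofReal_mul, sub_re,
    ofReal_re, mul_re, I_re, mul_zero, ofReal_im, I_im, mul_one, sub_self, add_zero, sub_im, mul_im,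
    zero_sub, sub_zero]
  nlinarith [Real.sin_sq_add_cos_sq z.re, Real.cosh_sq z.im]

theorem norm_kb {u : ℂ} (hu : u ∈ Phys) (a b : Bool) : ‖kb u a b‖ ≤ 2 := by
  obtain ⟨h0, h1⟩ := hu
  have hc : 1 / 2 ≤ Real.cos (π / 3 - u.re / 3) := by
    rw [← Real.cos_pi_div_three]
    exact Real.cos_le_cos_of_nonneg_of_le_pi (by linarith) (by linarith [Real.pi_pos]) (by linarith)
  have e1 : (π / 3 - u / 3 : ℂ).re = π / 3 - u.re / 3 := by simp
  have e2 : (π / 3 - u / 3 : ℂ).im = -(u.im / 3) := by simp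
  have e3 : (u / 3 : ℂ).im = u.im / 3 := by simp
  have h2 := ncos (π / 3 - u / 3)
  have h3 := nsin (u / 3)
  rw [e1, e2, Real.sinh_neg, neg_sq] at h2
  rw [e3] at h3
  have h4 := Real.sin_sq_le_one (u / 3 : ℂ).re
  have h5 := sq_nonneg (Real.sinh (u.im / 3))
  have h6 := norm_nonneg (cos (π / 3 - u / 3 : ℂ))
  have h7 : 1 / 2 ≤ ‖cos (π / 3 - u / 3 : ℂ)‖ := by
    refine (pow_le_pow_iff_left₀ (by norm_num) h6 two_ne_zero).1 ?_
    nlinarith
  rw [kb, norm_div, div_le_iff₀ (by linarith)]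
  split_ifs
  · refine (pow_le_pow_iff_left₀ (norm_nonneg _) (by linarith) two_ne_zero).1 ?_
    rw [sb]
    nlinarith
  · rw [norm_div, norm_one, Complex.norm_two]
    linarith

theorem norm_kL {u : ℂ} (hu : u ∈ Phys) (α α' : ℝ) (a : Bool × Bool) : ‖kL α α' u a‖ ≤ 2 := by
  rw [kL, norm_mul, norm_mul, norm_ph, norm_ph, mul_one, mul_one]
  exact norm_kb hu _ _

theorem norm_kR {u : ℂ} (hu : (π - u : ℂ) ∈ Phys) (γ : ℝ) (a : Bool × Bool) : ‖kR γ u a‖ ≤ 2 := by
  rw [kR, norm_mul, norm_mul, norm_ph, norm_ph, mul_one, mul_one]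
  exact norm_kb hu _ _

variable {ι : Type} [Fintype ι] [DecidableEq ι]

theorem norm_mul_apply {A B C : Type} [Fintype B] {M : Matrix A B (Op ι)} {N : Matrix B C (Op ι)}
    {x y : ℝ} (hM : ∀ a b, ‖M a b‖ ≤ x) (hN : ∀ b c, ‖N b c‖ ≤ y) (a : A) (c : C) :
    ‖(M * N) a c‖ ≤ Fintype.card B * (x * y) := by
  rw [Matrix.mul_apply]
  refine (norm_sum_le_of_le (n := fun _ => x * y) _ fun b _ => ?_).trans (by simp)
  exact (norm_mul_le _ _).trans
    (mul_le_mul (hM a b) (hN b c) (norm_nonneg _) ((norm_nonneg _).trans (hM a b)))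

theorem norm_lift {A B : Type} (X : Matrix A B ℂ) (a : A) (b : B) :
    ‖lift (Op ι) X a b‖ ≤ ‖X a b‖ := by
  rw [lift, Matrix.map_apply, Algebra.algebraMap_eq_smul_one, norm_smul]
  exact mul_le_of_le_one_right (norm_nonneg _) norm_one_le

theorem lift_mul {A B C : Type} [Fintype B] (X : Matrix A B ℂ) (Y : Matrix B C ℂ) :
    lift (Op ι) (X * Y) = lift (Op ι) X * lift (Op ι) Y :=
  Matrix.map_mul (f := algebraMap ℂ (Op ι))

/-- the cut in the upper row of a pair -/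
def X1 : Matrix (Bool × Bool) (Bool × Bool) ℂ := Matrix.of fun c d =>
  if c.1 = d.1 ∧ c.2 = true ∧ d.2 = false then 1 else 0

/-- the cut in the lower row of a pair, after moving the twist -/
noncomputable def X2 : Matrix (Bool × Bool) (Bool × Bool) ℂ := Matrix.of fun c d =>
  if c.1 = true ∧ d.1 = false ∧ c.2 = d.2 then ph (-β) c.2 else 0

theorem mid (X : Matrix (Bool × Bool) (Bool × Bool) ℂ)
    (M N : Matrix (Bool × Bool) (Bool × Bool) (Op ι)) (a b : Bool × Bool) :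
    (M * lift (Op ι) X * N) a b = ∑ c, ∑ d, X c d • (M a c * N d b) := by
  rw [Matrix.mul_apply, Finset.sum_comm]
  simp only [mul_lift_apply, Finset.sum_mul, smul_mul_assoc]

theorem mid1 {l₁ l₂ : List ι} (h : l₁.Disjoint l₂) (u v : ℂ) (a b : Bool × Bool) :
    st (Matrix.of fun a b => str tw l₁ * rowc u l₁ l₂ a b) (row v (l₁ ++ l₂)) a b =
      str tw l₁ * (st (row u l₁) (row v l₁) * lift (Op ι) X1 * st (row u l₂) (row v l₂)) a b := by
  have e : row v (l₁ ++ l₂) = row v l₁ * row v l₂ := chain_append _ _ _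
  have c : ∀ x y z w, row v l₁ x y * row u l₂ z w = row u l₂ z w * row v l₁ x y :=
    fun x y z w => (chain_comm_chain h _ _ x y z w).eq
  rw [mid, e]
  simp only [st_apply, Matrix.of_apply, rowc, Matrix.mul_apply, Fintype.sum_prod_type,
    Fintype.sum_bool, X1]
  simp only [mul_assoc, mul_add]
  simp only [← mul_assoc (row v l₁ _ _), c]
  simp [mul_assoc]

theorem row_str (u : ℂ) {l : List ι} (h : l.Nodup) (a b : Bool) :
    row u l a b * str tw l = (ph β a * ph (-β) b) • (str tw l * row u l a b) := by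
  rw [str_tw_row u h, smul_smul]
  have : ph β a * ph (-β) b * (ph (-β) a * ph β b) = 1 := by
    have := ph_mul_neg β a
    have := ph_mul_neg β b
    grind
  rw [this, one_smul]

theorem mid2 {l₁ l₂ : List ι} (h₁ : l₁.Nodup) (h : l₁.Disjoint l₂) (u v : ℂ) (a b : Bool × Bool) :
    st (row u (l₁ ++ l₂)) (Matrix.of fun a b => str tw l₁ * rowc v l₁ l₂ a b) a b = ph β a.2 •
      (str tw l₁ * (st (row u l₁) (row v l₁) * lift (Op ι) X2 * st (row u l₂) (row v l₂)) a b) := by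
  have e : row u (l₁ ++ l₂) = row u l₁ * row u l₂ := chain_append _ _ _
  have c : ∀ x y z w, row v l₁ x y * row u l₂ z w = row u l₂ z w * row v l₁ x y :=
    fun x y z w => (chain_comm_chain h _ _ x y z w).eq
  have c' : ∀ z w, row u l₂ z w * str tw l₁ = str tw l₁ * row u l₂ z w :=
    fun z w => (str_comm_chain h _ _ z w).eq.symm
  rw [mid, e]
  simp only [st_apply, Matrix.of_apply, rowc, Matrix.mul_apply, Fintype.sum_prod_type,
    Fintype.sum_bool, X2]
  simp only [mul_assoc, add_mul]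
  simp only [← mul_assoc (row v l₁ _ _), c]
  simp only [← mul_assoc (row u l₂ _ _), c']
  simp only [mul_assoc]
  simp only [← mul_assoc (row u l₁ _ _), row_str u h₁]
  simp [mul_assoc, mul_add, smul_smul]

theorem X_sq (e : ℂ) : (e • X1 + (e * exp (-I * π / 3)) • X2) * sq * pq =
    e • X1 + (e * exp (-I * π / 3)) • X2 := by
  have h : exp (-I * π / 3) * ph (-β) true = -1 := by
    rw [ph, ← Complex.exp_add, ← Complex.exp_neg_pi_mul_I]
    congr 1
    simp [β]
    ring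
  have h' : e * exp (-I * π / 3) * ph (-β) true = -e := by rw [mul_assoc, h, mul_neg_one]
  generalize e * exp (-I * π / 3) = f at h'
  ext ⟨a, b⟩ ⟨c, d⟩
  simp only [Matrix.mul_apply, Fintype.sum_prod_type, Fintype.sum_bool, Fin.sum_univ_three, X1, X2,
    sq, pq, Matrix.of_apply, Matrix.add_apply, Matrix.smul_apply, smul_eq_mul]
  cases a <;> cases b <;> cases c <;> cases d <;> simp [h'] <;> ring

theorem norm_pq (i : Fin 3) (a : Bool × Bool) : ‖pq i a‖ ≤ 1 := by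
  obtain ⟨a, b⟩ := a
  fin_cases i <;> cases a <;> cases b <;> simp [pq]

theorem norm_sq (a : Bool × Bool) (i : Fin 3) : ‖sq a i‖ ≤ 1 := by
  have := norm_pq i a
  have := norm_nonneg (pq i a)
  rw [sq, Matrix.of_apply, norm_mul]
  split_ifs
  · rw [norm_div, norm_one, Complex.norm_two]
    linarith
  · simpa

theorem norm_X {e f : ℂ} {E : ℝ} (he : ‖e‖ = E) (hf : ‖f‖ = E) (c d : Bool × Bool) :
    ‖(e • X1 + f • X2) c d‖ ≤ 2 * E := by
  have h1 : ‖X1 c d‖ ≤ 1 := by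
    rw [X1, Matrix.of_apply]
    split_ifs <;> simp
  have h2 : ‖X2 c d‖ ≤ 1 := by
    rw [X2, Matrix.of_apply]
    split_ifs <;> simp [norm_ph]
  have h0 : 0 ≤ E := he ▸ norm_nonneg e
  rw [Matrix.add_apply, Matrix.smul_apply, Matrix.smul_apply]
  refine (norm_add_le _ _).trans ?_
  rw [norm_smul, norm_smul, he, hf]
  nlinarith

theorem kL_ph (α : ℝ) (u : ℂ) (a b : Bool) :
    kL (α - β) (α - β) u (a, b) * ph β a = kL α (α - β) u (a, b) := by
  have : ph α a = ph (α - β) a * ph β a := by rw [← ph_add, sub_add_cancel]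
  simp only [kL, this]
  ring

end Rel0A

open Rel0A

theorem s_Rel0 (h : S_Row) (h2 : S_Fus) (h3 : S_Quot) : S_Rel0 := by
  refine ⟨16 * (16 * 16 * (4 * (3 * (3 * (4 * 2))))), fun ι _ _ α γ l₁ l₂ hl u hu => ?_⟩
  obtain ⟨hl₁, hl₂, hd⟩ := List.nodup_append'.1 hl
  have hπ := Real.pi_pos
  have p1 : u ∈ Phys := ⟨by rw [hu], by rw [hu]; positivity⟩
  have p2 : -u ∈ Phys := ⟨by simp [hu], by simp [hu, hπ.le]⟩
  have p3 : (π - u : ℂ) ∈ Phys := ⟨by simp [hu, hπ.le], by simp [hu]⟩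
  have p4 : (π - -u : ℂ) ∈ Phys := ⟨by simp [hu, hπ.le], by simp [hu]⟩
  set e := exp (-I * (u - π / 2) / 3) with he
  have hf : exp (-I * (π / 2 - -u) / 3) = e * exp (-I * π / 3) := by
    rw [he, ← Complex.exp_add]
    congr 1
    ring
  have ne : ‖e‖ = Real.exp (u.im / 3) := by
    rw [he, Complex.norm_exp]
    congr 1
    simp
  have nf : ‖e * exp (-I * π / 3)‖ = Real.exp (u.im / 3) := by
    rw [norm_mul, ne, Complex.norm_exp]
    simp
  set f := e * exp (-I * π / 3) with hf'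
  have hP : ∀ l : List ι, l.Nodup → st (row u l) (row (π - -u) l) = chain (P2 (-u)) l :=
    fun l hl => by rw [P2, chain_st _ _ hl, neg_neg]; rfl
  set Z : Matrix (Bool × Bool) (Bool × Bool) (Op ι) := Matrix.of fun a b => str tw l₁ *
    (chain (P2 (-u)) l₁ * lift (Op ι) (e • X1 + f • X2) * chain (P2 (-u)) l₂) a b with hZ
  set t := ‖tan (u / 2)‖ ^ l₂.length with ht
  set E := Real.exp (u.im / 3) with hE
  have t0 : 0 ≤ t := by positivity
  have E0 : 0 ≤ E := by positivity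
  have nZ : ∀ a b, ‖Z a b‖ ≤ 4 * (3 * (3 * (4 * 2))) * E * t := fun a b => by
    have q1 : ∀ c i, ‖lift (Op ι) ((e • X1 + f • X2) * sq) c i‖ ≤ 4 * 2 * E := fun c i => by
      refine (norm_lift _ _ _).trans ?_
      rw [Matrix.mul_apply]
      refine (norm_sum_le_of_le (n := fun _ => 2 * E) _ fun d _ => ?_).trans
        (by simp; linarith)
      rw [norm_mul]
      exact (mul_le_of_le_one_right (norm_nonneg _) (norm_sq _ _)).trans (norm_X ne nf _ _)
    have q2 : ∀ i j, ‖chain (Q2 (-u)) l₂ i j‖ ≤ t := fun i j => by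
      have := (h3 ι l₂ hl₂ (-u) (by simp [hu]; positivity) i j).1
      rwa [neg_div, Complex.tan_neg, norm_neg] at this
    have q3 : ∀ j b, ‖lift (Op ι) pq j b‖ ≤ 1 := fun j b => (norm_lift _ _ _).trans (norm_pq _ _)
    have q4 : ∀ a c, ‖chain (P2 (-u)) l₁ a c‖ ≤ 1 := fun a c => by
      rw [← hP l₁ hl₁, st_apply]
      exact (norm_mul_le _ _).trans
        (mul_le_one₀ (h ι l₁ hl₁ _ p1 _ _) (norm_nonneg _) (h ι l₁ hl₁ _ p4 _ _))
    have q5 := norm_mul_apply q4 (norm_mul_apply q1 (norm_mul_apply q2 q3)) a b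
    rw [hZ, Matrix.of_apply, hf', ← X_sq e, ← hf', lift_mul, Matrix.mul_assoc, Matrix.mul_assoc,
      (h2 ι l₂ (-u) (by simp [hu, hπ])).1]
    refine (norm_mul_le _ _).trans
      ((mul_le_of_le_one_left (norm_nonneg _) (norm_str_tw _)).trans (q5.trans_eq ?_))
    simp
    ring
  have key : Yb α γ l₁ l₂ u * DD α γ (l₁ ++ l₂) (-u) +
      DD (α - β) γ (l₁ ++ l₂) u * Yt α γ l₁ l₂ (-u) = ∑ a₁, ∑ a₄, ∑ b₁, ∑ b₄,
      row (π - u) (l₁ ++ l₂) a₄ b₄ * cl (fun a => kL α α (-u) (a₁, a.1) * kL α (α - β) u (a.2, a₄))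
        (fun b => kR γ (-u) (b₁, b.1) * kR γ u (b.2, b₄)) Z * row (-u) (l₁ ++ l₂) a₁ b₁ := by
    rw [Yb, Yt, DD, DD, smul_mul_assoc, mul_smul_comm, cl_mul_cl, cl_mul_cl, hf, ← he]
    simp only [Finset.smul_sum, ← Finset.sum_add_distrib]
    refine Finset.sum_congr rfl fun a₁ _ => Finset.sum_congr rfl fun a₄ _ =>
      Finset.sum_congr rfl fun b₁ _ => Finset.sum_congr rfl fun b₄ _ => ?_
    rw [← smul_mul_assoc e, ← smul_mul_assoc f, ← mul_smul_comm e, ← mul_smul_comm f, ← add_mul,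
      ← mul_add]
    congr 2
    simp only [cl, Finset.smul_sum, ← Finset.sum_add_distrib]
    refine Finset.sum_congr rfl fun a _ => Finset.sum_congr rfl fun b _ => ?_
    rw [mid1 hd, mid2 hl₁ hd, hP l₁ hl₁, hP l₂ hl₂, hZ, Matrix.of_apply, mid, mid, mid, smul_smul,
      smul_smul, smul_smul, ← kL_ph]
    simp only [Finset.mul_sum, Finset.smul_sum, ← Finset.sum_add_distrib, Matrix.add_apply,
      Matrix.smul_apply, smul_eq_mul, mul_smul_comm, smul_smul, ← add_smul]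
    refine Finset.sum_congr rfl fun c _ => Finset.sum_congr rfl fun d _ => ?_
    congr 1
    ring
  rw [key]
  have b4 : ∀ {k : Bool × Bool → ℂ}, (∀ a, ‖k a‖ ≤ 2 * 2) → ∑ a, ‖k a‖ ≤ 16 := fun hk =>
    (Finset.sum_le_sum fun a _ => hk a).trans (by simp; norm_num)
  have : ∀ a₁ a₄ b₁ b₄, ‖row (π - u) (l₁ ++ l₂) a₄ b₄ *
      cl (fun a => kL α α (-u) (a₁, a.1) * kL α (α - β) u (a.2, a₄))
        (fun b => kR γ (-u) (b₁, b.1) * kR γ u (b.2, b₄)) Z * row (-u) (l₁ ++ l₂) a₁ b₁‖ ≤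
      16 * 16 * (4 * (3 * (3 * (4 * 2))) * E * t) := fun a₁ a₄ b₁ b₄ => by
    refine (norm_mul_le _ _).trans ((mul_le_of_le_one_right (norm_nonneg _)
      (h ι _ hl _ p2 _ _)).trans ((norm_mul_le _ _).trans ((mul_le_of_le_one_left (norm_nonneg _)
      (h ι _ hl _ p3 _ _)).trans ((norm_cl_le _ _ nZ).trans ?_))))
    refine mul_le_mul_of_nonneg_right (mul_le_mul (b4 fun a => ?_) (b4 fun a => ?_)
      (Finset.sum_nonneg fun _ _ => norm_nonneg _) (by norm_num)) (by positivity)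
    · rw [norm_mul]
      exact mul_le_mul (norm_kL p2 _ _ _) (norm_kL p1 _ _ _) (norm_nonneg _) (by norm_num)
    · rw [norm_mul]
      exact mul_le_mul (norm_kR p4 _ _) (norm_kR p3 _ _) (norm_nonneg _) (by norm_num)
  refine (norm_sum_le_of_le _ fun a₁ _ => norm_sum_le_of_le _ fun a₄ _ =>
    norm_sum_le_of_le _ fun b₁ _ => norm_sum_le_of_le _ fun b₄ _ => this a₁ a₄ b₁ b₄).trans_eq ?_
  simp
  ring

end Pool.Agent.P.MP_6c8efb_pr.Cardy
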