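import Pool.Agent.P.MP_6c8efb_pr.Cardy.AIface

/-! The second functional relation of the conserved current. -/

open Matrix Complex
open scoped Matrix.Norms.L2Operator ComplexConjugate Real

set_option linter.unusedSectionVars false

namespace Pool.Agent.P.MP_6c8efb_pr.Cardy

namespace Rel1A

theorem norm_sin_le (w : ℂ) : ‖sin w‖ ≤ Real.cosh w.im := by
  refine (pow_le_pow_iff_left₀ (norm_nonneg _) (Real.cosh_pos _).le two_ne_zero).1 ?_
  rw [Complex.sq_norm, Complex.sin_eq, ← ofReal_sin, ← ofReal_cos, ← ofReal_cosh, ← ofReal_sinh,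
    ← ofReal_mul, ← ofReal_mul, normSq_add_mul_I]
  nlinarith [Real.sin_sq_add_cos_sq w.re, Real.cosh_sq w.im, sq_nonneg (Real.cos w.re)]

theorem le_norm_cos (w : ℂ) : Real.cos w.re * Real.cosh w.im ≤ ‖cos w‖ := by
  refine le_trans (le_of_eq ?_) (re_le_norm _)
  rw [Complex.cos_eq, ← ofReal_sin, ← ofReal_cos, ← ofReal_cosh, ← ofReal_sinh]
  simp only [sub_re, mul_re, mul_im, ofReal_re, ofReal_im, I_re, I_im]
  ring

theorem norm_kb {u : ℂ} (hu : u ∈ Phys) (a b : Bool) : ‖kb u a b‖ ≤ 2 := by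
  have h1 := le_norm_cos (π / 3 - u / 3)
  have h2 : (π / 3 - u / 3 : ℂ).re = π / 3 - u.re / 3 := by simp
  have h3 : (π / 3 - u / 3 : ℂ).im = -(u / 3).im := by simp
  have h4 : 1 / 2 ≤ Real.cos (π / 3 - u.re / 3) := by
    rw [← Real.cos_pi_div_three]
    exact Real.cos_le_cos_of_nonneg_of_le_pi (by linarith [hu.2]) (by linarith [Real.pi_pos])
      (by linarith [hu.1])
  rw [h2, h3, Real.cosh_neg] at h1
  have h5 := Real.one_le_cosh (u / 3).im
  have h6 : Real.cosh (u / 3).im ≤ 2 * ‖cos (π / 3 - u / 3)‖ := by nlinarith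
  rw [kb, norm_div, div_le_iff₀ (by linarith)]
  split_ifs
  · exact (norm_sin_le _).trans h6
  · norm_num
    linarith

variable {ι : Type} [Fintype ι] [DecidableEq ι]

theorem row_str (u : ℂ) {l : List ι} (h : l.Nodup) (a b : Bool) :
    row u l a b * str tw l = (ph β a * ph (-β) b) • (str tw l * row u l a b) := by
  rw [str_tw_row u h, smul_smul, mul_mul_mul_comm, ph_mul_neg, mul_comm (ph (-β) b), ph_mul_neg,
    mul_one, one_smul]

theorem row_append (u : ℂ) (l₁ l₂ : List ι) (a b : Bool) :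
    row u (l₁ ++ l₂) a b = ∑ c, row u l₁ a c * row u l₂ c b := by
  rw [row, chain_append, Matrix.mul_apply]
  rfl

theorem chain_P1 (u : ℂ) {l : List ι} (h : l.Nodup) (a b : Bool × Bool) :
    chain (P1 u) l a b = row (π + u) l a.2 b.2 * row u l a.1 b.1 := by
  rw [P1, chain_st _ _ h]
  rfl

theorem mid1 (u : ℂ) {l₁ l₂ : List ι} (h : (l₁ ++ l₂).Nodup) (a b : Bool × Bool) :
    str tw l₁ * rowc (π + u) l₁ l₂ a.2 b.2 * row u (l₁ ++ l₂) a.1 b.1 =
      str tw l₁ * ∑ c, chain (P1 u) l₁ a (c, true) * chain (P1 u) l₂ (c, false) b := by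
  obtain ⟨h1, h2, h3⟩ := List.nodup_append'.1 h
  rw [mul_assoc, row_append, Finset.mul_sum]
  congr 1
  refine Finset.sum_congr rfl fun c _ => ?_
  have := (chain_comm_chain h3 (Lg u) (Lg (π + u)) a.1 c false b.2).eq
  rw [chain_P1 u h1, chain_P1 u h2, rowc, Matrix.of_apply, mul_assoc, mul_assoc,
    ← mul_assoc (row u l₁ _ _), ← mul_assoc (row (π + u) l₂ _ _)]
  unfold row
  rw [this]

theorem mid2 (u : ℂ) {l₁ l₂ : List ι} (h : (l₁ ++ l₂).Nodup) (a b : Bool × Bool) :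
    row (π + u) (l₁ ++ l₂) a.2 b.2 * (str tw l₁ * rowc u l₁ l₂ a.1 b.1) = ph β a.2 •
      (str tw l₁ * ∑ c, ph (-β) c •
        (chain (P1 u) l₁ a (true, c) * chain (P1 u) l₂ (false, c) b)) := by
  obtain ⟨h1, h2, h3⟩ := List.nodup_append'.1 h
  rw [row_append, Finset.sum_mul, Finset.mul_sum, Finset.smul_sum]
  refine Finset.sum_congr rfl fun c _ => ?_
  have e1 : row u l₁ a.1 true * row (π + u) l₂ c b.2 = row (π + u) l₂ c b.2 * row u l₁ a.1 true :=
    (chain_comm_chain h3 (Lg u) (Lg (π + u)) a.1 true c b.2).eq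
  have e2 : str tw l₁ * row (π + u) l₂ c b.2 = row (π + u) l₂ c b.2 * str tw l₁ :=
    (str_comm_chain h3 tw (Lg (π + u)) c b.2).eq
  rw [chain_P1 u h1, chain_P1 u h2, rowc, Matrix.of_apply, mul_assoc,
    ← mul_assoc (row (π + u) l₂ _ _), ← e2, ← mul_assoc, ← mul_assoc (row (π + u) l₁ _ _),
    row_str _ h1, mul_smul_comm, smul_smul, smul_mul_assoc, smul_mul_assoc]
  congr 1
  simp only [mul_assoc]
  rw [← mul_assoc (row (π + u) l₂ _ _), ← e1, mul_assoc]

theorem phase (u : ℂ) : exp (-I * (π / 2 - (π - u)) / 3) * ph (-β) false =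
    -exp (-I * (π + u - π / 2) / 3) := by
  rw [ph, ← Complex.exp_add, ← mul_neg_one (exp _), ← exp_pi_mul_I, ← Complex.exp_add]
  congr 1
  simp [β]
  ring

theorem norm_mid (h : S_Row) (h2 : S_Fus) (h3 : S_Quot) {l₁ l₂ : List ι} (hl : (l₁ ++ l₂).Nodup)
    {u : ℂ} (hu : u.re = 0) (a b : Bool × Bool) :
    ‖exp (-I * (π + u - π / 2) / 3) •
      (str tw l₁ * ∑ c, chain (P1 u) l₁ a (c, true) * chain (P1 u) l₂ (c, false) b) +
      exp (-I * (π / 2 - (π - u)) / 3) • (str tw l₁ * ∑ c, ph (-β) c •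
        (chain (P1 u) l₁ a (true, c) * chain (P1 u) l₂ (false, c) b))‖ ≤
      9 * (Real.exp (u.im / 3) * ‖tan (u / 2)‖ ^ l₁.length) := by
  obtain ⟨g1, g2, -⟩ := List.nodup_append'.1 hl
  have n1 : ‖exp (-I * (π + u - π / 2) / 3)‖ = Real.exp (u.im / 3) := by
    rw [Complex.norm_exp]; congr 1; simp
  have n2 : ‖exp (-I * (π / 2 - (π - u)) / 3)‖ = Real.exp (u.im / 3) := by
    rw [Complex.norm_exp]; congr 1; simp
  have p1 : ∀ c, ‖chain (P1 u) l₂ c b‖ ≤ 1 := fun c => by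
    rw [chain_P1 u g2]
    exact (norm_mul_le _ _).trans (mul_le_one₀
      (h ι l₂ g2 _ ⟨by simp [hu, Real.pi_pos.le], by simp [hu]⟩ _ _) (norm_nonneg _)
      (h ι l₂ g2 _ ⟨hu.ge, hu.trans_le Real.pi_pos.le⟩ _ _))
  have q : ∀ i, ‖∑ c, pq i c • chain (P1 u) l₁ a c‖ ≤ 3 * ‖tan (u / 2)‖ ^ l₁.length := fun i => by
    have := congrFun (congrFun (h2 ι l₁ u (by simp [hu, Real.pi_pos])).2.2.1 a) i
    rw [mul_lift_apply, lift_mul_apply] at this
    simp only [Matrix.transpose_apply] at this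
    rw [this]
    refine (norm_sum_le_of_le _ (n := fun _ => ‖tan (u / 2)‖ ^ l₁.length) fun j _ => ?_).trans
      (by simp)
    have b1 : ‖pq j a‖ ≤ 1 := by
      fin_cases j <;> simp only [pq, Matrix.of_apply] <;> split_ifs <;> simp
    rw [norm_smul]
    exact (mul_le_of_le_one_left (norm_nonneg _) b1).trans
      (h3 ι l₁ g1 u (by rw [hu, abs_zero]; positivity) j i).2
  have q0 := q 0
  have q1 := q 1
  simp only [pq, Fintype.sum_prod_type, Fintype.sum_bool, Matrix.of_apply, Matrix.cons_val_zero,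
    Matrix.cons_val_one, Prod.mk.injEq, Bool.false_eq_true, Bool.true_eq_false, and_self,
    and_false, false_and, if_true, if_false, one_smul, zero_smul, add_zero, zero_add,
    neg_smul] at q0 q1
  have e0 := phase u
  generalize exp (-I * (π + u - π / 2) / 3) = e1 at *
  generalize exp (-I * (π / 2 - (π - u)) / 3) = e2 at *
  generalize ‖tan (u / 2)‖ ^ l₁.length = τ at *
  generalize chain (P1 u) l₁ a = P at *
  have e : e1 • (str tw l₁ * ∑ c, P (c, true) * chain (P1 u) l₂ (c, false) b) +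
      e2 • (str tw l₁ * ∑ c, ph (-β) c • (P (true, c) * chain (P1 u) l₂ (false, c) b)) =
      str tw l₁ * (e1 • (P (true, true) * chain (P1 u) l₂ (true, false) b) +
        (e2 * ph (-β) true) • (P (true, true) * chain (P1 u) l₂ (false, true) b) -
        e1 • ((P (true, false) + -P (false, true)) * chain (P1 u) l₂ (false, false) b)) := by
    rw [← mul_smul_comm, ← mul_smul_comm, ← mul_add]
    congr 1
    simp only [Fintype.sum_bool, smul_add, smul_smul, e0, add_mul, neg_mul, neg_smul, smul_neg]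
    abel
  have m : ∀ (c : ℂ) (X : Op ι) (d : Bool × Bool), ‖c‖ = Real.exp (u.im / 3) → ‖X‖ ≤ 3 * τ →
      ‖c • (X * chain (P1 u) l₂ d b)‖ ≤ 3 * (Real.exp (u.im / 3) * τ) := fun c X d hc hX => by
    rw [norm_smul, hc, mul_left_comm]
    exact mul_le_mul_of_nonneg_left ((norm_mul_le _ _).trans
      ((mul_le_of_le_one_right (norm_nonneg _) (p1 d)).trans hX)) (Real.exp_pos _).le
  rw [e]
  refine (norm_mul_le _ _).trans ((mul_le_of_le_one_left (norm_nonneg _) (norm_str_tw _)).trans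
    ((norm_sub_le_of_le (norm_add_le_of_le (m _ _ _ n1 q0)
      (m _ _ _ (by rw [norm_mul, norm_ph, n2, mul_one]) q0)) (m _ _ _ n1 q1)).trans_eq (by ring)))

end Rel1A

open Rel1A in
theorem s_Rel1 (h : S_Row) (h2 : S_Fus) (h3 : S_Quot) : S_Rel1 := by
  refine ⟨16 * (16 * 16 * 9), fun ι _ _ α γ l₁ l₂ hl u hu => ?_⟩
  have u1 : u ∈ Phys := ⟨hu.ge, hu.trans_le Real.pi_pos.le⟩
  have u2 : -u ∈ Phys := ⟨by simp [hu], by simp [hu, Real.pi_pos.le]⟩
  have u3 : π + u ∈ Phys := ⟨by simp [hu, Real.pi_pos.le], by simp [hu]⟩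
  have u4 : π - u ∈ Phys := ⟨by simp [hu, Real.pi_pos.le], by simp [hu]⟩
  rw [Yb, Yt, DD, DD, smul_mul_assoc, mul_smul_comm, cl_mul_cl, cl_mul_cl,
    show (π : ℂ) - (π + u) = -u by ring, show (π : ℂ) - (π - u) = u by ring]
  simp only [Finset.smul_sum, ← Finset.sum_add_distrib, ← smul_mul_assoc, ← add_mul]
  simp only [smul_mul_assoc, ← mul_smul_comm, ← mul_add]
  have key : ∀ a₁ a₄ b₁ b₄ : Bool, ‖row (-u) (l₁ ++ l₂) a₄ b₄ *
      (exp (-I * (π + u - π / 2) / 3) • cl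
        (fun a => kL α α (π - u) (a₁, a.1) * kL α (α - β) (π + u) (a.2, a₄))
        (fun b => kR γ (π - u) (b₁, b.1) * kR γ (π + u) (b.2, b₄))
        (st (Matrix.of fun a b => str tw l₁ * rowc (π + u) l₁ l₂ a b) (row u (l₁ ++ l₂))) +
      exp (-I * (π / 2 - (π - u)) / 3) • cl
        (fun a => kL α α (π - u) (a₁, a.1) * kL (α - β) (α - β) (π + u) (a.2, a₄))
        (fun b => kR γ (π - u) (b₁, b.1) * kR γ (π + u) (b.2, b₄))
        (st (row (π + u) (l₁ ++ l₂)) (Matrix.of fun a b => str tw l₁ * rowc u l₁ l₂ a b))) *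
      row (π - u) (l₁ ++ l₂) a₁ b₁‖ ≤
      16 * 16 * (9 * (Real.exp (u.im / 3) * ‖tan (u / 2)‖ ^ l₁.length)) := by
    intro a₁ a₄ b₁ b₄
    refine (norm_mul_le _ _).trans ((mul_le_of_le_one_right (norm_nonneg _)
      (h ι _ hl _ u4 _ _)).trans ((norm_mul_le _ _).trans
      ((mul_le_of_le_one_left (norm_nonneg _) (h ι _ hl _ u2 _ _)).trans ?_)))
    have k1 : ∑ a : Bool × Bool, ‖kL α α (π - u) (a₁, a.1) * kL α (α - β) (π + u) (a.2, a₄)‖ ≤
        16 := (Finset.sum_le_card_nsmul _ _ 4 fun a _ => by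
          simp only [kL, norm_mul, norm_ph, mul_one]
          exact (mul_le_mul (norm_kb u4 _ _) (norm_kb u3 _ _) (norm_nonneg _)
            zero_le_two).trans_eq (by norm_num)).trans_eq (by simp; norm_num)
    have k2 : ∑ b : Bool × Bool, ‖kR γ (π - u) (b₁, b.1) * kR γ (π + u) (b.2, b₄)‖ ≤
        16 := (Finset.sum_le_card_nsmul _ _ 4 fun a _ => by
          simp only [kR, norm_mul, norm_ph, mul_one, sub_sub_cancel, sub_add_cancel_left]
          exact (mul_le_mul (norm_kb u1 _ _) (norm_kb u2 _ _) (norm_nonneg _)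
            zero_le_two).trans_eq (by norm_num)).trans_eq (by simp; norm_num)
    refine le_trans (le_of_eq (congrArg _ ?_)) ((norm_cl_le
      (fun a => kL α α (π - u) (a₁, a.1) * kL α (α - β) (π + u) (a.2, a₄))
      (fun b => kR γ (π - u) (b₁, b.1) * kR γ (π + u) (b.2, b₄))
      (M := Matrix.of fun a b => (exp (-I * (π + u - π / 2) / 3) •
        (str tw l₁ * ∑ c, chain (P1 u) l₁ a (c, true) * chain (P1 u) l₂ (c, false) b) +
        exp (-I * (π / 2 - (π - u)) / 3) • (str tw l₁ * ∑ c, ph (-β) c •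
          (chain (P1 u) l₁ a (true, c) * chain (P1 u) l₂ (false, c) b)) : Op ι))
      fun a b => norm_mid h h2 h3 hl hu a b).trans ?_)
    · simp only [cl, st_apply, Matrix.of_apply, mid1 u hl, mid2 u hl]
      rw [Finset.smul_sum, Finset.smul_sum, ← Finset.sum_add_distrib]
      refine Finset.sum_congr rfl fun a _ => ?_
      rw [Finset.smul_sum, Finset.smul_sum, ← Finset.sum_add_distrib]
      refine Finset.sum_congr rfl fun b _ => ?_
      have e : ph (α - β) a.2 * ph β a.2 = ph α a.2 := by rw [← ph_add, sub_add_cancel]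
      simp only [smul_add, smul_smul]
      congr 2
      · ring
      · simp only [kL, ← e]
        ring
    · gcongr
  refine (norm_sum_le_of_le _ fun a₁ _ => norm_sum_le_of_le _ fun a₄ _ =>
    norm_sum_le_of_le _ fun b₁ _ => norm_sum_le_of_le _ fun b₄ _ => key a₁ a₄ b₁ b₄).trans_eq ?_
  simp only [Fintype.sum_bool]
  ring

end Pool.Agent.P.MP_6c8efb_pr.Cardy
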