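import Pool.Agent.P.MP_6c8efb_pr.Cardy.AIface

/-! The entries of a row of tiles are contractions in the physical strip. -/

open Matrix Complex
open scoped Matrix.Norms.L2Operator ComplexConjugate Real

namespace Pool.Agent.P.MP_6c8efb_pr.Cardy

namespace RowA

theorem uni {p q c : ℂ} (h1 : conj p * p = 1) (h2 : conj q * q + conj c * c = 1)
    (h3 : conj q * c + conj c * q = 0) : (Lw p q c)ᴴ * Lw p q c = 1 := by
  ext a b s t
  cases a <;> cases b <;> cases s <;> cases t <;>
    simp [Matrix.mul_apply, Matrix.sum_apply, Lw, Matrix.star_apply] <;>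
    first | linear_combination h1 | linear_combination h2 | linear_combination h3

theorem uni' {p q c : ℂ} (h1 : conj q * q = 1) (h2 : conj p * p + conj c * c = 1)
    (h3 : conj p * c + conj c * p = 0) : (Lw p q c)ᵀᴴ * (Lw p q c)ᵀ = 1 := by
  ext a b s t
  cases a <;> cases b <;> cases s <;> cases t <;>
    simp [Matrix.mul_apply, Matrix.sum_apply, Lw, Matrix.star_apply] <;>
    first | linear_combination h1 | linear_combination h2 | linear_combination h3

theorem norm_sin_le (z : ℂ) : ‖sin z‖ ≤ Real.exp |z.im| := by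
  have a1 : ‖exp (-z * I)‖ ≤ Real.exp |z.im| := by
    rw [norm_exp]; exact Real.exp_le_exp.2 (by simpa using le_abs_self _)
  have a2 : ‖exp (z * I)‖ ≤ Real.exp |z.im| := by
    rw [norm_exp]; exact Real.exp_le_exp.2 (by simpa using neg_le_abs _)
  have := norm_sub_le (exp (-z * I)) (exp (z * I))
  rw [Complex.sin, norm_div, norm_mul, norm_I, mul_one, Complex.norm_ofNat]
  linarith

theorem half_le {u : ℂ} (h0 : 0 ≤ u.re) (h1 : u.re ≤ π) : 1 / 2 ≤ ‖sn u‖ := by
  have e : (sn u).re = Real.sin (π / 3 + u.re / 3) * Real.cosh (u.im / 3) := by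
    have k : ∀ z : ℂ, (sin z).re = Real.sin z.re * Real.cosh z.im := fun z => by
      rw [Complex.sin_eq]
      simp [← ofReal_sin, ← ofReal_cos, ← ofReal_cosh, ← ofReal_sinh]
    rw [sn, k]
    simp
  have a1 : 1 / 2 ≤ Real.sin (π / 3 + u.re / 3) := by
    rw [← Real.cos_pi_div_two_sub]
    refine le_trans ?_ Real.one_sub_sq_div_two_le_cos
    have := Real.pi_le_four
    nlinarith
  have a2 := Real.one_le_cosh (u.im / 3)
  refine le_trans ?_ (re_le_norm _)
  rw [e]
  nlinarith

theorem sn_ne {u : ℂ} (h0 : 0 ≤ u.re) (h1 : u.re ≤ π) : sn u ≠ 0 :=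
  norm_pos_iff.1 (lt_of_lt_of_le (by norm_num) (half_le h0 h1))

theorem div_le {u z : ℂ} (h0 : 0 ≤ u.re) (h1 : u.re ≤ π) (hz : |z.im| ≤ 2 * |u.im|) :
    ‖sin z / sn u‖ ≤ 2 * Real.exp (2 * |u.im|) := by
  have a1 := half_le h0 h1
  have a2 := (norm_sin_le z).trans (Real.exp_le_exp.2 hz)
  rw [norm_div, div_le_iff₀ (by linarith)]
  nlinarith [Real.exp_pos (2 * |u.im|)]

theorem prod_eq (u : ℂ) : sa u * sn u = sc ^ 2 - sb u ^ 2 := by
  rw [sa, sn, sb, sc, sin_sub, sin_add]
  linear_combination sin (π / 3) ^ 2 * sin_sq_add_cos_sq (u / 3) -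
    sin (u / 3) ^ 2 * sin_sq_add_cos_sq (π / 3)

theorem rel {u : ℂ} (h : u.re = 0) : conj (sa u / sn u) * (sa u / sn u) = 1 ∧
    conj (sb u / sn u) * (sb u / sn u) + conj (sc / sn u) * (sc / sn u) = 1 ∧
    conj (sb u / sn u) * (sc / sn u) + conj (sc / sn u) * (sb u / sn u) = 0 := by
  have e : conj u = -u := Complex.ext (by simp [h]) (by simp)
  have e3 : conj (3 : ℂ) = 3 := map_ofNat _ 3
  have a1 : conj (sa u) = sn u := by
    simp only [sa, sn, ← sin_conj, map_sub, map_div₀, conj_ofReal, e, e3, neg_div, sub_neg_eq_add]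
  have a2 : conj (sn u) = sa u := by rw [← a1, conj_conj]
  have a3 : conj (sb u) = -sb u := by simp only [sb, ← sin_conj, map_div₀, e, e3, neg_div, sin_neg]
  have a4 : conj sc = sc := by simp only [sc, ← sin_conj, map_div₀, conj_ofReal, e3]
  have n1 := sn_ne h.ge (h ▸ Real.pi_pos.le)
  have n2 : sa u ≠ 0 := by rw [← a2]; simpa using n1
  simp only [map_div₀, a1, a2, a3, a4]
  refine ⟨by field_simp, ?_, by ring⟩
  field_simp
  linear_combination -prod_eq u

end RowA

theorem s_Row (h : S_Plc) : S_Row := by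
  intro ι _ _ l hl u hu a b
  refine h Bool Lg 0 π 2 Real.pi_pos (fun u h0 h1 i j t s => ?_) (fun u hu => ?_) ι l hl u hu.1 hu.2
    a b
  · have n := RowA.sn_ne h0 h1
    have d0 : DifferentiableAt ℂ sn u := by unfold sn; fun_prop
    have d1 : DifferentiableAt ℂ (fun u => sa u / sn u) u :=
      DifferentiableAt.div (by unfold sa; fun_prop) d0 n
    have d2 : DifferentiableAt ℂ (fun u => sb u / sn u) u :=
      DifferentiableAt.div (by unfold sb; fun_prop) d0 n
    have d3 : DifferentiableAt ℂ (fun u => sc / sn u) u :=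
      (differentiableAt_const _).div d0 n
    have i0 := abs_nonneg u.im
    have b1 : ‖sa u / sn u‖ ≤ 2 * Real.exp (2 * |u.im|) :=
      RowA.div_le h0 h1 (by simp [abs_div]; linarith)
    have b2 : ‖sb u / sn u‖ ≤ 2 * Real.exp (2 * |u.im|) :=
      RowA.div_le h0 h1 (by simp [abs_div]; linarith)
    have b3 : ‖sc / sn u‖ ≤ 2 * Real.exp (2 * |u.im|) := RowA.div_le h0 h1 (by simp)
    simp only [Lg, Lw, Matrix.of_apply]
    split_ifs
    exacts [⟨d2, b2⟩, ⟨d1, b1⟩, ⟨differentiableAt_const _, by rw [norm_zero]; positivity⟩, ⟨d3, b3⟩,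
      ⟨differentiableAt_const _, by rw [norm_zero]; positivity⟩]
  · rcases hu with hu | hu
    · obtain ⟨h1, h2, h3⟩ := RowA.rel hu
      exact Or.inl (RowA.uni h1 h2 h3)
    · obtain ⟨h1, h2, h3⟩ := RowA.rel (u := π - u) (by simp [hu])
      have e1 : sa (π - u) = sb u := by rw [sa, sb]; congr 1; ring
      have e2 : sb (π - u) = sa u := by rw [sa, sb]; congr 1; ring
      have e3 : sn (π - u) = sn u := by rw [sn, sn, ← sin_pi_sub]; congr 1; ring
      rw [e1, e3] at h1
      rw [e2, e3] at h2 h3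
      exact Or.inr (RowA.uni' h1 h2 h3)

end Pool.Agent.P.MP_6c8efb_pr.Cardy
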