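import Pool.Agent.P.MP_6c8efb_pr.Cardy.AIface

/-! The cut double rows at the special angles. -/

open Matrix Complex
open scoped Matrix.Norms.L2Operator ComplexConjugate Real

namespace Pool.Agent.P.MP_6c8efb_pr.Cardy

namespace SpecA

variable {ι : Type} [Fintype ι] [DecidableEq ι]

theorem cl_st (f₁ f₂ g₁ g₂ : Bool → ℂ) (M₁ M₂ : Matrix Bool Bool (Op ι)) :
    cl (fun a => f₁ a.1 * f₂ a.2) (fun b => g₁ b.1 * g₂ b.2) (st M₂ M₁) =
      cl f₂ g₂ M₂ * cl f₁ g₁ M₁ := by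
  simp only [cl, st_apply, Fintype.sum_prod_type, Fintype.sum_bool, mul_add, add_mul,
    smul_mul_assoc, mul_smul_comm]
  module

theorem cl_left (f g : Bool → ℂ) (X : Op ι) (M : Matrix Bool Bool (Op ι)) :
    cl f g (Matrix.of fun a b => X * M a b) = X * cl f g M := by
  simp only [cl, Matrix.of_apply, Finset.mul_sum, mul_smul_comm]

omit [Fintype ι] [DecidableEq ι] in
theorem cl1_eq (α γ : ℝ) (M : Matrix Bool Bool (Op ι)) :
    cl1 α γ M = cl (fun a => (((Real.sqrt 3)⁻¹ : ℝ) : ℂ) * ph α a) (ph (-γ)) M := rfl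

theorem kb_half (a b : Bool) : kb (π / 2) a b = (((Real.sqrt 3)⁻¹ : ℝ) : ℂ) := by
  have e1 : sb (π / 2) = 1 / 2 := by
    rw [sb, show (π : ℂ) / 2 / 3 = ((π / 6 : ℝ) : ℂ) by push_cast; ring, ← ofReal_sin,
      Real.sin_pi_div_six]
    simp
  have h3 : (Real.sqrt 3 : ℂ) ≠ 0 := by simp
  rw [kb, e1, ite_self, show (π : ℂ) / 3 - π / 2 / 3 = ((π / 6 : ℝ) : ℂ) by push_cast; ring,
    ← ofReal_cos, Real.cos_pi_div_six]
  push_cast
  field_simp

theorem half (α₁ α₂ γ : ℝ) (M₁ M₂ : Matrix Bool Bool (Op ι)) :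
    cl (kL α₁ α₂ (π / 2)) (kR γ (π / 2)) (st M₂ M₁) = cl1 α₂ γ M₂ * cl1 α₁ γ M₁ := by
  rw [cl1_eq, cl1_eq, ← cl_st]
  simp only [cl, kL, kR, show (π : ℂ) - π / 2 = π / 2 by ring, kb_half]
  refine Finset.sum_congr rfl fun a _ => Finset.sum_congr rfl fun b _ => ?_
  congr 1
  ring

theorem kb_zero (a b : Bool) : kb 0 a b = cv (a, b) := by
  have : cos ((π : ℂ) / 3) = 1 / 2 := by
    rw [show (π : ℂ) / 3 = ((π / 3 : ℝ) : ℂ) by push_cast; ring, ← ofReal_cos, Real.cos_pi_div_three]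
    simp
  cases a <;> cases b <;> simp [kb, cv, sb, this]

theorem cv_ph (θ : ℝ) (a : Bool × Bool) : cv a * (ph θ a.1 * ph θ a.2) = cv a := by
  have h1 : ph θ true * ph θ false = 1 := by rw [← ph_mul_neg θ true, ← ph_not]; rfl
  obtain ⟨a, b⟩ := a
  cases a <;> cases b <;> simp [cv, h1, mul_comm (ph θ false)]

theorem sum_pi (θ : ℝ) : ∑ a : Bool × Bool, kb π a.1 a.2 * (ph θ a.1 * ph θ a.2) * cv a = 1 := by
  have h : ∀ a : Bool × Bool, kb π a.1 a.2 * (ph θ a.1 * ph θ a.2) * cv a = kb π a.1 a.2 * cv a :=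
    fun a => by rw [mul_assoc, mul_comm _ (cv a), cv_ph]
  simp only [h]
  simp [Fintype.sum_prod_type, kb, cv]
  norm_num

theorem sc_ne : sin ((π : ℂ) / 3) ≠ 0 := by
  rw [show (π : ℂ) / 3 = ((π / 3 : ℝ) : ℂ) by push_cast; ring, ← ofReal_sin, Real.sin_pi_div_three]
  simp

theorem Lg_zero : Lg 0 = Lw 1 0 1 := by simp [Lg, sa, sb, sc, sn, sc_ne]

theorem Lg_pi : Lg π = Lw 0 1 1 := by
  have : sn π = sin ((π : ℂ) / 3) := by
    rw [sn, ← sin_pi_sub]
    congr 1
    ring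
  simp [Lg, sa, sb, sc, this, sc_ne]

theorem P1_zero (m : Bool × Bool) : st (Lg π) (Lg 0) (false, false) m = cv m • snk := by
  obtain ⟨a, b⟩ := m
  ext t s
  cases a <;> cases b <;> cases t <;> cases s <;>
    simp [st_apply, Lg_zero, Lg_pi, Lw, cv, snk, Matrix.mul_apply]

theorem P2_zero (m : Bool × Bool) : st (Lg 0) (Lg π) m (true, true) = cv m • snk := by
  obtain ⟨a, b⟩ := m
  ext t s
  cases a <;> cases b <;> cases t <;> cases s <;>
    simp [st_apply, Lg_zero, Lg_pi, Lw, cv, snk, Matrix.mul_apply]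

theorem split (u v : ℂ) {l₁ l₂ : List ι} (h : (l₁ ++ l₂).Nodup) (a b : Bool × Bool) :
    st (row v (l₁ ++ l₂)) (Matrix.of fun a b => str tw l₁ * rowc u l₁ l₂ a b) a b =
      (ph (-β) a.1 * ph β true) • ∑ m, chain (st (Lg v) (Lg u)) l₁ a (true, m) * str tw l₁ *
        chain (st (Lg v) (Lg u)) l₂ (false, m) b := by
  obtain ⟨h1, h2, h3⟩ := List.nodup_append'.1 h
  rw [st_apply, Matrix.of_apply, rowc, Matrix.of_apply, ← mul_assoc (str tw l₁), str_tw_row u h1,
    chain_st _ _ h1, chain_st _ _ h2, row, chain_append, Matrix.mul_apply, smul_mul_assoc,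
    mul_smul_comm, Finset.sum_mul]
  congr 1
  refine Finset.sum_congr rfl fun m _ => ?_
  simp only [st_apply, row, mul_assoc]
  congr 1
  rw [← mul_assoc, ← (chain_comm_chain h3 _ _ _ _ _ _).eq, mul_assoc, ← mul_assoc (chain _ l₂ _ _),
    ← (str_comm_chain h3 _ _ _ _).eq, mul_assoc]

theorem kL_ph (α : ℝ) (u : ℂ) (a : Bool × Bool) : kL α (α - β) u a * ph (-β) a.1 =
    kb u a.1 a.2 * (ph (α - β) a.1 * ph (α - β) a.2) := by
  rw [kL, sub_eq_add_neg, ph_add α (-β) a.1]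
  ring

theorem cl_split (α γ : ℝ) (u v : ℂ) {l₁ l₂ : List ι} (h : (l₁ ++ l₂).Nodup) :
    cl (kL α (α - β) u) (kR γ u)
      (st (row v (l₁ ++ l₂)) (Matrix.of fun a b => str tw l₁ * rowc u l₁ l₂ a b)) =
      ph β true • ∑ m, (∑ a : Bool × Bool, (kb u a.1 a.2 * (ph (α - β) a.1 * ph (α - β) a.2)) •
        chain (st (Lg v) (Lg u)) l₁ a (true, m)) * str tw l₁ *
        ∑ b, kR γ u b • chain (st (Lg v) (Lg u)) l₂ (false, m) b := by
  simp only [cl, split u v h, ← kL_ph, Finset.sum_mul, Finset.mul_sum, Finset.smul_sum,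
    smul_mul_assoc, mul_smul_comm, smul_smul]
  conv_rhs => rw [Finset.sum_comm]
  rw [Finset.sum_comm]
  refine Finset.sum_congr rfl fun b _ => ?_
  rw [Finset.sum_comm]
  refine Finset.sum_congr rfl fun m _ => Finset.sum_congr rfl fun a _ => ?_
  congr 1
  ring

end SpecA

open SpecA

theorem s_Spec (h : S_Fus) : S_Spec := by
  intro ι _ _ α γ l₁ l₂ hl
  have e0 : (π : ℂ) - π / 2 = π / 2 := by ring
  have h0 : |(0 : ℂ).re| < π := by simpa using Real.pi_pos
  have h2 : ∀ (l : List ι) a, ∑ b, cv b • chain (st (Lg 0) (Lg π)) l a b = cv a • (1 : Op ι) :=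
    fun l => by simpa only [P2, neg_zero, sub_zero] using (h ι l 0 h0).2.1
  have h4 : ∀ (l : List ι) b, ∑ a, cv a • chain (st (Lg π) (Lg 0)) l a b = cv b • (1 : Op ι) :=
    fun l => by simpa only [P1, add_zero] using (h ι l 0 h0).2.2.2
  refine ⟨?_, ?_, ?_, ?_⟩
  · rw [Yb, half, e0, cl1_eq α, cl_left]
    simp [T1, Sh, cl1_eq]
  · rw [Yt, half, e0, cl1_eq α, cl_left]
    simp [T1, Sh, cl1_eq]
  · rintro k l rfl
    have e1 : ∑ b, kR γ 0 b • chain (st (Lg π) (Lg 0)) (k :: l) (false, false) b = emb k snk := by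
      simp only [chain_cons, Matrix.mul_apply, Matrix.map_apply, P1_zero, map_smul, smul_mul_assoc,
        ← mul_smul_comm (cv _), ← Finset.mul_sum, h4]
      simp only [mul_smul_comm, mul_one, smul_smul, ← Finset.sum_smul, kR, sub_zero, mul_assoc _ (ph _ _)]
      rw [sum_pi, one_smul]
    have e2 : exp (-I * (0 - π / 2) / 3) * ph β true = -exp (-I * π / 6) := by
      rw [ph, ← Complex.exp_add, ← exp_add_pi_mul_I, β]
      congr 1
      simp
      ring
    rw [Yb, cl_split α γ _ _ hl, sub_zero]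
    simp only [kb_zero, cv_ph, h4, Fintype.sum_bool, e1]
    rw [smul_smul, e2]
    simp [cv, Sv]
  · rintro l j rfl
    have hj : j ∉ l := fun e => List.disjoint_of_nodup_append (List.Nodup.of_append_left hl) e
      (by simp)
    have e1 : ∑ a : Bool × Bool, (kb π a.1 a.2 * (ph (α - β) a.1 * ph (α - β) a.2)) •
        chain (st (Lg 0) (Lg π)) (l ++ [j]) a (true, true) = emb j snk := by
      simp only [chain_append, chain_cons, chain_nil, mul_one, Matrix.mul_apply, Matrix.map_apply,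
        P2_zero, map_smul, mul_smul_comm, ← smul_mul_assoc (cv _), ← Finset.sum_mul, h2]
      simp only [smul_mul_assoc, one_mul, smul_smul, ← Finset.sum_smul]
      rw [sum_pi, one_smul]
    have e2 : ∀ b, kR γ π b = cv b := fun b => by
      rw [kR, sub_self, kb_zero, mul_assoc, cv_ph]
    have e3 : ph β true • (snk * tw) = snk := by
      ext t s
      rw [Matrix.smul_apply, tw, Matrix.mul_diagonal]
      cases t <;> cases s <;> simp [snk, ph_mul_neg]
    rw [Yb, cl_split α γ _ _ hl, sub_self]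
    simp only [e2, h2, Fintype.sum_bool, e1]
    rw [Sv, str_append, str_cons, str_nil, mul_one, ← mul_assoc, (emb_comm_str hj _ _).eq,
      mul_assoc (str tw l), ← map_mul]
    conv_rhs => rw [← e3]
    simp only [cv, map_smul, mul_smul_comm]
    simp
    congr 2
    ring

end Pool.Agent.P.MP_6c8efb_pr.Cardy
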