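import Pool.Agent.P.MP_6c8efb_pr.Cardy.Abs
import Pool.Agent.P.MP_6c8efb_pr.Cardy.An
import Pool.Agent.P.MP_6c8efb_pr.Cardy.Cau
import Pool.Agent.P.MP_6c8efb_pr.Cardy.Comm
import Pool.Agent.P.MP_6c8efb_pr.Cardy.Cross
import Pool.Agent.P.MP_6c8efb_pr.Cardy.Eig
import Pool.Agent.P.MP_6c8efb_pr.Cardy.Fus
import Pool.Agent.P.MP_6c8efb_pr.Cardy.Harn
import Pool.Agent.P.MP_6c8efb_pr.Cardy.Inv
import Pool.Agent.P.MP_6c8efb_pr.Cardy.Low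
import Pool.Agent.P.MP_6c8efb_pr.Cardy.Maj
import Pool.Agent.P.MP_6c8efb_pr.Cardy.Plc
import Pool.Agent.P.MP_6c8efb_pr.Cardy.QUni
import Pool.Agent.P.MP_6c8efb_pr.Cardy.Quot
import Pool.Agent.P.MP_6c8efb_pr.Cardy.Refl
import Pool.Agent.P.MP_6c8efb_pr.Cardy.Rel0
import Pool.Agent.P.MP_6c8efb_pr.Cardy.Rel1
import Pool.Agent.P.MP_6c8efb_pr.Cardy.Row
import Pool.Agent.P.MP_6c8efb_pr.Cardy.Spec

/-! The operator estimate in a strip. -/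

namespace Pool.Agent.P.MP_6c8efb_pr.Cardy

theorem partA : S_A :=
  have row := s_Row s_Plc
  have quot := s_Quot s_Plc s_QUni
  have cross := s_Cross s_Ybe s_Fus s_An
  s_A (s_Abs (s_Harn s_Maj s_Mid) s_Eig (s_Low s_Cau)) s_An (s_Bnd row s_Crude)
    (s_Comm s_Ybe s_Refl s_An) cross (s_Spec s_Fus) (s_Inv s_Ybe s_Fus quot cross s_InvK)
    (s_Rel0 row s_Fus quot) (s_Rel1 row s_Fus quot)

end Pool.Agent.P.MP_6c8efb_pr.Cardy
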