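import Pool.Agent.P.MP_6c8efb_pr.Cardy.ADefs

/-! Algebra of chains of local gates. -/

open Matrix
open scoped Matrix.Norms.L2Operator

set_option linter.unusedSectionVars false

namespace Pool.Agent.P.MP_6c8efb_pr.Cardy

variable {ι : Type} [Fintype ι] [DecidableEq ι]
variable {A A' : Type} [Fintype A] [DecidableEq A] [Fintype A'] [DecidableEq A']

theorem emb_mul_emb_apply {j k : ι} (h : j ≠ k) (m m' : M2) (s s' : ι → Bool) :
    (emb j m * emb k m') s s' =
      if ∀ i, i ≠ j → i ≠ k → s i = s' i then m (s j) (s' j) * m' (s k) (s' k) else 0 := by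
  rw [Matrix.mul_apply, Finset.sum_eq_single (Function.update s j (s' j))]
  · simp only [emb_apply, Function.update_self, Function.update_of_ne h.symm]
    rw [if_pos fun i hi => by rw [Function.update_of_ne hi]]
    by_cases h1 : ∀ i, i ≠ j → i ≠ k → s i = s' i
    · rw [if_pos h1, if_pos fun i hi => by
        by_cases e : i = j
        · subst e; simp
        · rw [Function.update_of_ne e, h1 i e hi]]
    · rw [if_neg h1, if_neg fun h2 => h1 fun i e hi => by
        rw [← h2 i hi, Function.update_of_ne e], mul_zero]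
  · intro t _ ht
    simp only [emb_apply]
    split_ifs with h1 h2
    · refine (ht (funext fun i => ?_)).elim
      by_cases e : i = j
      · subst e; simp [h2 i h]
      · rw [Function.update_of_ne e, h1 i e]
    all_goals simp
  · simp

theorem emb_comm {j k : ι} (h : j ≠ k) (m m' : M2) : Commute (emb j m) (emb k m') := by
  ext s s'
  rw [emb_mul_emb_apply h, emb_mul_emb_apply h.symm, mul_comm]
  exact if_congr ⟨fun h i a b => h i b a, fun h i a b => h i b a⟩ rfl rfl

@[simp] theorem chain_nil (L : Gate A) : chain L ([] : List ι) = 1 := rfl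

theorem chain_cons (L : Gate A) (k : ι) (l : List ι) :
    chain L (k :: l) = L.map (emb k) * chain L l := by simp [chain]

theorem chain_append (L : Gate A) (l l' : List ι) :
    chain L (l ++ l') = chain L l * chain L l' := by simp [chain]

@[simp] theorem str_nil (m : M2) : str m ([] : List ι) = 1 := rfl

theorem str_cons (m : M2) (k : ι) (l : List ι) : str m (k :: l) = emb k m * str m l := by
  simp [str]

theorem str_append (m : M2) (l l' : List ι) : str m (l ++ l') = str m l * str m l' := by
  simp [str]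

theorem comm_chain {X : Op ι} {l : List ι} (h : ∀ k ∈ l, ∀ m, Commute X (emb k m)) (L : Gate A)
    (a b : A) : Commute X (chain L l a b) := by
  induction l generalizing a with
  | nil => simp only [chain_nil, Matrix.one_apply]; split_ifs <;> simp
  | cons k l ih =>
    rw [chain_cons, Matrix.mul_apply]
    exact Commute.sum_right _ _ _ fun c _ => (h k (by simp) _).mul_right
      (ih (fun j hj => h j (by simp [hj])) c)

theorem comm_str {X : Op ι} {l : List ι} (h : ∀ k ∈ l, ∀ m, Commute X (emb k m)) (m : M2) :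
    Commute X (str m l) :=
  Commute.list_prod_right _ _ fun y hy => by
    obtain ⟨k, hk, rfl⟩ := List.mem_map.1 hy
    exact h k hk m

theorem emb_comm_chain {k : ι} {l : List ι} (h : k ∉ l) (m : M2) (L : Gate A) (a b : A) :
    Commute (emb k m) (chain L l a b) :=
  comm_chain (fun _ hj _ => emb_comm (by rintro rfl; exact h hj) _ _) L a b

theorem emb_comm_str {k : ι} {l : List ι} (h : k ∉ l) (m m' : M2) :
    Commute (emb k m) (str m' l) :=
  comm_str (fun _ hj _ => emb_comm (by rintro rfl; exact h hj) _ _) m'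

theorem chain_comm_chain {l l' : List ι} (h : l.Disjoint l') (L : Gate A) (L' : Gate A')
    (a b : A) (a' b' : A') : Commute (chain L l a b) (chain L' l' a' b') :=
  comm_chain (fun _ hk m => (emb_comm_chain (fun e => h e hk) m L a b).symm) L' a' b'

theorem str_comm_chain {l l' : List ι} (h : l.Disjoint l') (m : M2) (L : Gate A)
    (a b : A) : Commute (str m l) (chain L l' a b) :=
  comm_chain (fun _ hk m' => (emb_comm_str (fun e => h e hk) m' m).symm) L a b

theorem st_apply {R : Type} [Mul R] (M₂ : Matrix A' A' R) (M₁ : Matrix A A R) (l r : A × A') :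
    st M₂ M₁ l r = M₂ l.2 r.2 * M₁ l.1 r.1 := rfl

theorem st_mul {R : Type} [Ring R] (M₂ N₂ : Matrix A' A' R) (M₁ N₁ : Matrix A A R)
    (h : ∀ a b a' b', Commute (M₁ a b) (N₂ a' b')) :
    st M₂ M₁ * st N₂ N₁ = st (M₂ * N₂) (M₁ * N₁) := by
  ext l r
  simp only [Matrix.mul_apply, st_apply, Fintype.sum_prod_type, Finset.sum_mul_sum]
  rw [Finset.sum_comm]
  refine Finset.sum_congr rfl fun a _ => Finset.sum_congr rfl fun b _ => ?_
  rw [mul_assoc, ← mul_assoc (M₁ _ _), (h _ _ _ _).eq]
  simp only [mul_assoc]

theorem st_one {R : Type} [Ring R] : st (1 : Matrix A' A' R) (1 : Matrix A A R) = 1 := by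
  ext l r
  simp only [st_apply, Matrix.one_apply, Prod.ext_iff]
  split_ifs <;> simp_all

theorem chain_st (L₂ : Gate A') (L₁ : Gate A) {l : List ι} (h : l.Nodup) :
    chain (st L₂ L₁) l = st (chain L₂ l) (chain L₁ l) := by
  induction l with
  | nil => exact st_one.symm
  | cons k l ih =>
    rw [List.nodup_cons] at h
    rw [chain_cons, chain_cons, chain_cons, ih h.2,
      ← st_mul (L₂.map (emb k)) (chain L₂ l) (L₁.map (emb k)) (chain L₁ l)
        fun a b a' b' => emb_comm_chain h.1 _ _ _ _]
    congr 1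
    ext1 a b
    simp only [Matrix.map_apply, st_apply, map_mul]

theorem lift_map (X : Matrix A A' ℂ) (k : ι) : (lift M2 X).map (emb k) = lift (Op ι) X := by
  ext1 a b
  exact (emb k).commutes (X a b)

theorem lift_mul_apply {R B : Type} [Ring R] [Algebra ℂ R] (X : Matrix A A' ℂ) (M : Matrix A' B R)
    (a : A) (b : B) : (lift R X * M) a b = ∑ c, X a c • M c b := by
  simp only [Matrix.mul_apply, lift, Matrix.map_apply, Algebra.smul_def]

theorem mul_lift_apply {R B : Type} [Ring R] [Algebra ℂ R] (M : Matrix B A R) (X : Matrix A A' ℂ)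
    (b : B) (a : A') : (M * lift R X) b a = ∑ c, X c a • M b c := by
  simp only [Matrix.mul_apply, lift, Matrix.map_apply, Algebra.smul_def, Algebra.commutes]

theorem chain_lift {L : Gate A} {L' : Gate A'} {X : Matrix A' A ℂ}
    (h : lift M2 X * L = L' * lift M2 X) (l : List ι) :
    lift (Op ι) X * chain L l = chain L' l * lift (Op ι) X := by
  induction l with
  | nil => simp
  | cons k l ih =>
    have := congrArg (fun M => M.map (emb k)) h
    simp only [Matrix.map_mul (f := (emb k : M2 →⋆ₐ[ℂ] Op ι)), lift_map] at this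
    rw [chain_cons, chain_cons, ← Matrix.mul_assoc, this, Matrix.mul_assoc, ih, Matrix.mul_assoc]

theorem chain_transpose (L : Gate A) {l : List ι} (h : l.Nodup) :
    (chain L l)ᵀ = chain Lᵀ l.reverse := by
  induction l with
  | nil => simp
  | cons k l ih =>
    rw [List.nodup_cons] at h
    rw [List.reverse_cons, chain_append, ← ih h.2, chain_cons, chain_cons, chain_nil, mul_one]
    ext1 a b
    simp only [Matrix.mul_apply, Matrix.transpose_apply, Matrix.map_apply]
    exact Finset.sum_congr rfl fun c _ => (emb_comm_chain h.1 _ _ _ _).eq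

theorem star_chain (L : Gate A) {l : List ι} (h : l.Nodup) (a b : A) :
    star (chain L l a b) = chain (L.map star) l a b := by
  induction l generalizing a with
  | nil => simp only [chain_nil, Matrix.one_apply]; split_ifs <;> simp
  | cons k l ih =>
    rw [List.nodup_cons] at h
    simp only [chain_cons, Matrix.mul_apply, star_sum, star_mul, Matrix.map_apply, ih h.2,
      ← map_star]
    exact Finset.sum_congr rfl fun c _ => (emb_comm_chain h.1 _ _ _ _).eq.symm

theorem chain_reindex (L : Gate A) (e : A' ≃ A) (l : List ι) :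
    chain (L.submatrix e e) l = (chain L l).submatrix e e := by
  induction l with
  | nil => simp
  | cons k l ih =>
    rw [chain_cons, chain_cons, ih, ← Matrix.submatrix_mul_equiv _ _ _ e]
    rfl

/-- a block of an isometry is a contraction -/
theorem norm_block_le {M : Matrix A A (Op ι)} (h : Mᴴ * M = 1) (a b : A) : ‖M a b‖ ≤ 1 := by
  have h1 : ∑ c, star (M c b) * M c b = 1 := by
    have := congrFun (congrFun h b) b
    simpa [Matrix.mul_apply] using this
  rw [Matrix.cstar_norm_def]
  refine ContinuousLinearMap.opNorm_le_bound _ zero_le_one fun v => ?_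
  set f := Matrix.toEuclideanCLM (n := ι → Bool) (𝕜 := ℂ)
  have h2 : ∑ c, ‖f (M c b) v‖ ^ 2 = ‖v‖ ^ 2 := by
    have h3 : ∑ c, star (f (M c b)) * f (M c b) = 1 := by
      simp only [← map_star, ← map_mul, ← map_sum, h1, map_one]
    have h4 := congrArg (fun T : EuclideanSpace ℂ (ι → Bool) →L[ℂ] EuclideanSpace ℂ (ι → Bool) =>
      RCLike.re (inner ℂ v (T v))) h3
    simp only [_root_.sum_apply, inner_sum, map_sum, mul_apply_eq_comp,
      ContinuousLinearMap.star_eq_adjoint, ContinuousLinearMap.adjoint_inner_right,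
      one_apply_eq_self, inner_self_eq_norm_sq] at h4
    exact h4
  have h5 := Finset.single_le_sum (f := fun c => ‖f (M c b) v‖ ^ 2) (fun c _ => sq_nonneg _)
    (Finset.mem_univ a)
  rw [h2] at h5
  rw [one_mul]
  exact (pow_le_pow_iff_left₀ (norm_nonneg _) (norm_nonneg _) two_ne_zero).1 h5

theorem chain_isometry {L : Gate A} (h : Lᴴ * L = 1) (l : List ι) :
    (chain L l)ᴴ * chain L l = 1 := by
  induction l with
  | nil => simp
  | cons k l ih =>
    have h1 : (L.map (emb k))ᴴ * L.map (emb k) = 1 := by
      have := congrArg (fun M => M.map (emb k)) h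
      simp only [Matrix.map_mul (f := (emb k : M2 →⋆ₐ[ℂ] Op ι))] at this
      rw [Matrix.map_one _ (map_zero _) (map_one _)] at this
      rw [← this]
      congr 1
      ext1 a b
      simp only [Matrix.conjTranspose_apply, Matrix.map_apply, map_star]
    rw [chain_cons, Matrix.conjTranspose_mul, Matrix.mul_assoc, ← Matrix.mul_assoc _ (L.map _), h1,
      Matrix.one_mul, ih]

/-- the blocks of a chain of gates which are unitary in one of the two channels -/
theorem norm_chain_le {L : Gate A} (h : Lᴴ * L = 1 ∨ Lᵀᴴ * Lᵀ = 1) {l : List ι} (hl : l.Nodup)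
    (a b : A) : ‖chain L l a b‖ ≤ 1 := by
  rcases h with h | h
  · exact norm_block_le (chain_isometry h l) a b
  · have := norm_block_le (chain_isometry h l.reverse) b a
    rwa [← chain_transpose L hl] at this

theorem norm_le_of_isometry {X : Op ι} (h : star X * X = 1) : ‖X‖ ≤ 1 :=
  norm_block_le (A := Unit) (M := Matrix.of fun _ _ => X) (by
    ext1 a b
    simp [Matrix.mul_apply, h]) () ()

theorem norm_one_le : ‖(1 : Op ι)‖ ≤ 1 := norm_le_of_isometry (by simp)

theorem chain_smul (c : ℂ) (L : Gate A) (l : List ι) :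
    chain (c • L) l = c ^ l.length • chain L l := by
  induction l with
  | nil => simp
  | cons k l ih =>
    have : (c • L).map (emb k) = c • L.map (emb k) := by
      ext1 a b
      simp only [Matrix.map_apply, Matrix.smul_apply, map_smul]
    rw [chain_cons, chain_cons, ih, this, Matrix.smul_mul, Matrix.mul_smul, smul_smul,
      List.length_cons, pow_succ']

/-- chains of differentiable gates are differentiable -/
theorem differentiableAt_chain {G : ℂ → Gate A} {u : ℂ}
    (h : ∀ a b t s, DifferentiableAt ℂ (fun u => G u a b t s) u) (l : List ι) (a b : A) :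
    DifferentiableAt ℂ (fun u => chain (G u) l a b) u := by
  induction l generalizing a with
  | nil => simp
  | cons k l ih =>
    simp only [chain_cons, Matrix.mul_apply, Matrix.map_apply]
    refine DifferentiableAt.fun_sum fun c _ => DifferentiableAt.mul ?_ (ih c)
    have e : ∀ u, emb k (G u a c) = ∑ t, ∑ s, G u a c t s • emb k (Matrix.single t s 1) :=
      fun u => by
        conv_lhs => rw [Matrix.matrix_eq_sum_single (G u a c)]
        simp only [map_sum, ← map_smul, Matrix.smul_single, smul_eq_mul, mul_one]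
    simp only [e]
    exact DifferentiableAt.fun_sum fun t _ => DifferentiableAt.fun_sum fun s _ =>
      (h a c t s).smul_const _

theorem cl_lift_mul (k k' : A → ℂ) (X : Matrix A A ℂ) (M : Matrix A A (Op ι)) :
    cl k k' (lift (Op ι) X * M) = cl (k ᵥ* X) k' M := by
  simp only [cl, lift_mul_apply, Finset.smul_sum, smul_smul, Matrix.vecMul, dotProduct,
    Finset.sum_mul, Finset.sum_smul]
  rw [Finset.sum_comm]
  conv_rhs => rw [Finset.sum_comm]
  refine Finset.sum_congr rfl fun b _ => ?_
  rw [Finset.sum_comm]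
  exact Finset.sum_congr rfl fun c _ => Finset.sum_congr rfl fun a _ => by rw [mul_right_comm]

theorem cl_mul_lift (k k' : A → ℂ) (X : Matrix A A ℂ) (M : Matrix A A (Op ι)) :
    cl k k' (M * lift (Op ι) X) = cl k (X *ᵥ k') M := by
  simp only [cl, mul_lift_apply, Finset.smul_sum, smul_smul, Matrix.mulVec, dotProduct,
    Finset.mul_sum, Finset.sum_smul]
  refine Finset.sum_congr rfl fun a _ => ?_
  rw [Finset.sum_comm]
  exact Finset.sum_congr rfl fun c _ => Finset.sum_congr rfl fun b _ => by congr 1; ring

theorem norm_cl_le (k k' : A → ℂ) {M : Matrix A A (Op ι)} {c : ℝ} (h : ∀ a b, ‖M a b‖ ≤ c) :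
    ‖cl k k' M‖ ≤ (∑ a, ‖k a‖) * (∑ b, ‖k' b‖) * c := by
  rw [Finset.sum_mul_sum, Finset.sum_mul]
  refine norm_sum_le_of_le _ fun a _ => ?_
  rw [Finset.sum_mul]
  refine norm_sum_le_of_le _ fun b _ => ?_
  rw [norm_smul, norm_mul]
  exact mul_le_mul_of_nonneg_left (h a b) (by positivity)

/-- four rows, with the two middle rows grouped -/
theorem cl_mul_cl (k₁ k₁' k₂ k₂' : Bool × Bool → ℂ) (M₁ M₂ M₃ M₄ : Matrix Bool Bool (Op ι)) :
    cl k₂ k₂' (st M₄ M₃) * cl k₁ k₁' (st M₂ M₁) = ∑ a₁, ∑ a₄, ∑ b₁, ∑ b₄,
      M₄ a₄ b₄ * cl (fun a => k₁ (a₁, a.1) * k₂ (a.2, a₄)) (fun b => k₁' (b₁, b.1) * k₂' (b.2, b₄))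
        (st M₃ M₂) * M₁ a₁ b₁ := by
  simp only [cl, st_apply, Finset.sum_mul, Finset.mul_sum, smul_mul_assoc, mul_smul_comm, smul_smul,
    mul_assoc, Finset.smul_sum]
  simp only [← Fintype.sum_prod_type']
  refine Fintype.sum_equiv
    ⟨fun x => (x.1.1, x.2.2.1.2, x.2.1.1, x.2.2.2.2, (x.1.2, x.2.2.1.1), (x.2.1.2, x.2.2.2.1)),
     fun y => ((y.1, y.2.2.2.2.1.1), (y.2.2.1, y.2.2.2.2.2.1), (y.2.2.2.2.1.2, y.2.1),
       (y.2.2.2.2.2.2, y.2.2.2.1)), fun _ => rfl, fun _ => rfl⟩ _ _ fun x => ?_
  simp only [Equiv.coe_fn_mk]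
  congr 1
  ring

theorem norm_ph (α : ℝ) (a : Bool) : ‖ph α a‖ = 1 := Complex.norm_exp_ofReal_mul_I _

theorem ph_add (α α' : ℝ) (a : Bool) : ph (α + α') a = ph α a * ph α' a := by
  rw [ph, ph, ph, ← Complex.exp_add]
  cases a <;> simp <;> ring_nf

theorem ph_zero (a : Bool) : ph 0 a = 1 := by cases a <;> simp [ph]

theorem ph_mul_neg (α : ℝ) (a : Bool) : ph α a * ph (-α) a = 1 := by
  rw [← ph_add, add_neg_cancel, ph_zero]

theorem ph_not (α : ℝ) (a : Bool) : ph α (!a) = ph (-α) a := by cases a <;> simp [ph]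

theorem star_ph (α : ℝ) (a : Bool) : star (ph α a) = ph (-α) a := by
  cases a <;> simp [ph, ← Complex.exp_conj]

theorem str_isometry {m : M2} (h : star m * m = 1) (l : List ι) :
    star (str m l) * str m l = 1 := by
  induction l with
  | nil => simp
  | cons k l ih =>
    rw [str_cons, star_mul, mul_assoc, ← mul_assoc (star (emb k m)), ← map_star, ← map_mul, h,
      map_one, one_mul, ih]

theorem tw_isometry : star tw * tw = 1 := by
  rw [tw, Matrix.star_eq_conjTranspose, Matrix.diagonal_conjTranspose, Matrix.diagonal_mul_diagonal,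
    ← Matrix.diagonal_one]
  congr 1
  ext a
  rw [Pi.star_apply, star_ph, mul_comm, ph_mul_neg]

theorem norm_str_tw (l : List ι) : ‖str tw l‖ ≤ 1 :=
  norm_le_of_isometry (str_isometry tw_isometry l)

theorem tw_Lw (p q c : ℂ) (a b : Bool) :
    tw * Lw p q c a b = (ph (-β) a * ph β b) • (Lw p q c a b * tw) := by
  have h1 := ph_mul_neg β true
  have h2 := ph_mul_neg β false
  have h3 : ph (-β) false = ph β true := by rw [← ph_not]; rfl
  have h4 : ph (-β) true = ph β false := by rw [← ph_not]; rfl
  ext t s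
  rw [tw, Matrix.smul_apply, Matrix.diagonal_mul, Matrix.mul_diagonal, smul_eq_mul]
  cases a <;> cases b <;> cases t <;> cases s <;> simp only [Lw, Matrix.of_apply, h3, h4] at * <;>
    simp <;> grind

/-- the ice rule: moving the twist through a row -/
theorem str_tw_row (u : ℂ) {l : List ι} (h : l.Nodup) (a b : Bool) :
    str tw l * row u l a b = (ph (-β) a * ph β b) • (row u l a b * str tw l) := by
  unfold row
  induction l generalizing a with
  | nil =>
    simp only [chain_nil, str_nil, one_mul, mul_one, Matrix.one_apply]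
    split_ifs with e
    · rw [e, mul_comm, ph_mul_neg, one_smul]
    · simp
  | cons k l ih =>
    rw [List.nodup_cons] at h
    simp only [chain_cons, str_cons, Matrix.mul_apply, Matrix.map_apply, Finset.mul_sum,
      Finset.sum_mul, Finset.smul_sum]
    refine Finset.sum_congr rfl fun c _ => ?_
    rw [mul_assoc, ← mul_assoc (str tw l), ← (emb_comm_str h.1 _ _).eq, mul_assoc, ih h.2,
      ← mul_assoc, ← map_mul, Lg, tw_Lw, map_smul, map_mul, smul_mul_assoc, mul_smul_comm,
      smul_smul, mul_assoc (emb k _), ← mul_assoc (emb k tw), (emb_comm_chain h.1 _ _ _ _).eq]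
    simp only [mul_assoc]
    congr 1
    rw [← mul_assoc (ph β c), ph_mul_neg, one_mul]

end Pool.Agent.P.MP_6c8efb_pr.Cardy
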