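import Mathlib

/-! The six-vertex transfer operators of a strip with absorbing walls: definitions and basic
algebra of chains of local gates. -/

open Matrix
open scoped Matrix.Norms.L2Operator

namespace Pool.Agent.P.MP_6c8efb_pr.Cardy

/-- operators on one spin (`true` is an arrow pointing up); the first index is the output -/
abbrev M2 := Matrix Bool Bool ℂ

/-- operators on the spins of the sites `ι` -/
abbrev Op (ι : Type) := Matrix (ι → Bool) (ι → Bool) ℂ

/-- gates: matrices indexed by the left and right auxiliary states with entries in `M2` -/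
abbrev Gate (A : Type) := Matrix A A M2

section Chain

variable {ι : Type} [Fintype ι] [DecidableEq ι]

/-- the operator `m` acting at the site `k` -/
def embF (k : ι) (m : M2) : Op ι :=
  Matrix.of fun s s' => if ∀ j, j ≠ k → s j = s' j then m (s k) (s' k) else 0

theorem embF_mul (k : ι) (m m' : M2) : embF k (m * m') = embF k m * embF k m' := by
  ext s s'
  simp only [embF, Matrix.mul_apply, Matrix.of_apply]
  have key : ∀ t : ι → Bool, ((if ∀ j, j ≠ k → s j = t j then m (s k) (t k) else 0) *
      if ∀ j, j ≠ k → t j = s' j then m' (t k) (s' k) else 0) =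
      ∑ b : Bool, if t = Function.update s k b then
        (if ∀ j, j ≠ k → s j = s' j then m (s k) b * m' b (s' k) else 0) else 0 := fun t => by
    by_cases h : ∀ j, j ≠ k → s j = t j
    · have e : t = Function.update s k (t k) := funext fun j => by
        by_cases hj : j = k
        · subst hj; simp
        · rw [Function.update_of_ne hj, h j hj]
      rw [Finset.sum_eq_single (t k), if_pos h, if_pos e]
      · by_cases h' : ∀ j, j ≠ k → s j = s' j
        · rw [if_pos h', if_pos fun j hj => (h j hj).symm.trans (h' j hj)]
        · rw [if_neg h', if_neg fun h'' => h' fun j hj => (h j hj).trans (h'' j hj), mul_zero]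
      · intro b _ hb
        exact if_neg fun e' => hb (by rw [e']; simp)
      · simp
    · rw [if_neg h, zero_mul, eq_comm]
      refine Finset.sum_eq_zero fun b _ => if_neg fun e => h fun j hj => ?_
      rw [e, Function.update_of_ne hj]
  simp only [key]
  rw [Finset.sum_comm]
  simp only [Finset.sum_ite_eq', Finset.mem_univ, if_true]
  split_ifs <;> simp

/-- the operator `m` acting at the site `k`, as a star algebra homomorphism -/
def emb (k : ι) : M2 →⋆ₐ[ℂ] Op ι where
  toFun := embF k
  map_one' := by
    ext s s'
    simp only [embF, Matrix.of_apply, Matrix.one_apply]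
    by_cases h : s = s'
    · subst h; simp
    · rw [if_neg h]
      split_ifs with h1 h2
      · exact (h (funext fun j => by
          by_cases hj : j = k
          · rw [hj, h2]
          · exact h1 j hj)).elim
      · rfl
      · rfl
  map_mul' := embF_mul k
  map_zero' := by ext s s'; simp [embF]
  map_add' m m' := by
    ext s s'
    simp only [embF, Matrix.of_apply, Matrix.add_apply]
    split_ifs <;> simp
  commutes' c := by
    ext s s'
    simp only [embF, Matrix.of_apply, Matrix.algebraMap_matrix_apply]
    by_cases h : s = s'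
    · subst h; simp
    · rw [if_neg h]
      split_ifs with h1 h2
      · exact (h (funext fun j => by
          by_cases hj : j = k
          · rw [hj, h2]
          · exact h1 j hj)).elim
      · rfl
      · rfl
  map_star' m := by
    ext s s'
    simp only [embF, Matrix.of_apply, Matrix.star_apply]
    by_cases h : ∀ j, j ≠ k → s j = s' j
    · rw [if_pos h, if_pos fun j hj => (h j hj).symm]
    · rw [if_neg h, if_neg fun h' => h fun j hj => (h' j hj).symm, star_zero]

theorem emb_apply (k : ι) (m : M2) (s s' : ι → Bool) :
    emb k m s s' = if ∀ j, j ≠ k → s j = s' j then m (s k) (s' k) else 0 := rfl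

variable {A A' : Type} [Fintype A] [DecidableEq A] [Fintype A'] [DecidableEq A']

/-- the product of the gate `L` over the sites of the list `l`, from left to right -/
def chain (L : Gate A) (l : List ι) : Matrix A A (Op ι) := (l.map fun k => L.map (emb k)).prod

/-- two rows on top of each other: `M₁` is the lower row and has the first auxiliary index -/
def st {R : Type} [Mul R] (M₂ : Matrix A' A' R) (M₁ : Matrix A A R) :
    Matrix (A × A') (A × A') R := Matrix.of fun l r => M₂ l.2 r.2 * M₁ l.1 r.1

/-- a matrix of scalars as a matrix over an algebra -/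
def lift (R : Type) [Ring R] [Algebra ℂ R] (X : Matrix A A' ℂ) : Matrix A A' R :=
  X.map (algebraMap ℂ R)

/-- the product of the one-spin operator `m` over the sites of `l` -/
def str (m : M2) (l : List ι) : Op ι := (l.map fun k => emb k m).prod

end Chain

/-! ### The weights -/

noncomputable def sa (u : ℂ) : ℂ := Complex.sin (Real.pi / 3 - u / 3)
noncomputable def sb (u : ℂ) : ℂ := Complex.sin (u / 3)
noncomputable def sc : ℂ := Complex.sin (Real.pi / 3)
noncomputable def sn (u : ℂ) : ℂ := Complex.sin (Real.pi / 3 + u / 3)

/-- the six-vertex gate; for the auxiliary arrows `true` points to the right -/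
def Lw (p q c : ℂ) : Gate Bool := Matrix.of fun l r => Matrix.of fun t b =>
  if l = r then (if t = b then (if l = b then q else p) else 0)
  else if t = l ∧ b = r then c else 0

/-- the tile of angle `u` -/
noncomputable def Lg (u : ℂ) : Gate Bool := Lw (sa u / sn u) (sb u / sn u) (sc / sn u)

/-- the matrix exchanging two rows -/
noncomputable def Rx (w : ℂ) : Matrix (Bool × Bool) (Bool × Bool) ℂ := Matrix.of fun a b =>
  if a.1 = a.2 then (if a = b then sa w else 0)
  else if b.1 = b.2 then 0 else if a = b then sc else sb w

/-- phase of an arrow at the left wall; at the right wall the angle is negated -/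
noncomputable def ph (α : ℝ) (a : Bool) : ℂ :=
  Complex.exp ((if a then -α else α : ℝ) * Complex.I)

/-- the reflection matrix -/
noncomputable def kb (u : ℂ) (a b : Bool) : ℂ :=
  (if a = b then sb u else 1 / 2) / Complex.cos (Real.pi / 3 - u / 3)

/-- left boundary vector of a double row, the two rows seeing the angles `α₁` and `α₂` -/
noncomputable def kL (α₁ α₂ : ℝ) (u : ℂ) (l : Bool × Bool) : ℂ :=
  kb u l.1 l.2 * ph α₁ l.1 * ph α₂ l.2

/-- right boundary vector of a double row -/
noncomputable def kR (γ : ℝ) (u : ℂ) (r : Bool × Bool) : ℂ :=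
  kb (Real.pi - u) r.1 r.2 * ph (-γ) r.1 * ph (-γ) r.2

/-- the twist angle -/
noncomputable def β : ℝ := -(2 * Real.pi / 3)

/-- the twist -/
noncomputable def tw : M2 := Matrix.diagonal (ph (-β))

/-- a sink for the two vertical arrows -/
def snk : M2 := Matrix.single false true 1

/-- the unnormalised spin one gate -/
noncomputable def G3 (u : ℂ) : Gate (Fin 3) :=
  !![Matrix.diagonal fun s => if s then -sa u else sn u, Matrix.single true false sc, 0;
     Matrix.single false true (-sc), (-sb u) • 1, Matrix.single true false sc;
     0, Matrix.single false true (-sc), Matrix.diagonal fun s => if s then sn u else -sa u]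

/-- the spin one gate of the pair of rows `π - u`, `-u` -/
noncomputable def Q2 (u : ℂ) : Gate (Fin 3) := (sb u / (sa u * sn u)) • G3 u

/-- the spin one gate of the pair of rows `u`, `π + u` -/
noncomputable def Q1 (u : ℂ) : Gate (Fin 3) :=
  Matrix.of fun i j => (-1 : ℂ) ^ (i.1 + j.1) • Q2 u j.rev i.rev

/-- the pair of rows `π - u` (below) and `-u` (above) -/
noncomputable def P2 (u : ℂ) : Gate (Bool × Bool) := st (Lg (-u)) (Lg (Real.pi - u))

/-- the pair of rows `u` (below) and `π + u` (above) -/
noncomputable def P1 (u : ℂ) : Gate (Bool × Bool) := st (Lg (Real.pi + u)) (Lg u)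

/-- the invariant vector of a fused pair of rows -/
def cv (a : Bool × Bool) : ℂ := if a.1 = a.2 then 0 else 1

/-- the projection onto the quotient by the invariant vector -/
def pq : Matrix (Fin 3) (Bool × Bool) ℂ := Matrix.of fun i a =>
  ![if a = (true, true) then 1 else 0,
    if a = (true, false) then 1 else if a = (false, true) then -1 else 0,
    if a = (false, false) then 1 else 0] i

/-- a section of `pq`; one has `sq * pq + vecMulVec cv cv / 2 = 1` -/
noncomputable def sq : Matrix (Bool × Bool) (Fin 3) ℂ := Matrix.of fun a i =>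
  (if i = 1 then 1 / 2 else 1) * pq i a

/-- the strip in which all weights are analytic -/
def Big : Set ℂ := {u | -(Real.pi / 2) < u.re ∧ u.re < 3 * Real.pi / 2}

/-- the physical strip -/
def Phys : Set ℂ := {u | 0 ≤ u.re ∧ u.re ≤ Real.pi}

section Ops

variable {ι : Type} [Fintype ι] [DecidableEq ι]

/-- a row of tiles -/
noncomputable def row (u : ℂ) (l : List ι) : Matrix Bool Bool (Op ι) := chain (Lg u) l

/-- a row of tiles with a sink for the horizontal arrows between `l₁` and `l₂` -/
noncomputable def rowc (u : ℂ) (l₁ l₂ : List ι) : Matrix Bool Bool (Op ι) :=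
  Matrix.of fun a b => row u l₁ a true * row u l₂ false b

/-- closing a family of rows with boundary vectors -/
noncomputable def cl {A : Type} [Fintype A] (k k' : A → ℂ) (M : Matrix A A (Op ι)) : Op ι :=
  ∑ a, ∑ b, (k a * k' b) • M a b

/-- the double row transfer operator -/
noncomputable def DD (α γ : ℝ) (l : List ι) (u : ℂ) : Op ι :=
  cl (kL α α u) (kR γ u) (st (row (Real.pi - u) l) (row u l))

/-- the double row cut in the lower row -/
noncomputable def Yb (α γ : ℝ) (l₁ l₂ : List ι) (u : ℂ) : Op ι :=
  Complex.exp (-Complex.I * (u - Real.pi / 2) / 3) • cl (kL α (α - β) u) (kR γ u)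
    (st (row (Real.pi - u) (l₁ ++ l₂)) (Matrix.of fun a b => str tw l₁ * rowc u l₁ l₂ a b))

/-- the double row cut in the upper row -/
noncomputable def Yt (α γ : ℝ) (l₁ l₂ : List ι) (u : ℂ) : Op ι :=
  Complex.exp (-Complex.I * (Real.pi / 2 - u) / 3) • cl (kL α α u) (kR γ u)
    (st (Matrix.of fun a b => str tw l₁ * rowc (Real.pi - u) l₁ l₂ a b) (row u (l₁ ++ l₂)))

/-- a sink on the vertical line `k`, with the twist on the sites of `l` -/
noncomputable def Sv (l : List ι) (k : ι) : Op ι :=
  Complex.exp (-Complex.I * Real.pi / 6) • (str tw l * emb k snk)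

/-- closing one row at absorbing walls -/
noncomputable def cl1 (α γ : ℝ) (M : Matrix Bool Bool (Op ι)) : Op ι :=
  ∑ a, ∑ b, (((Real.sqrt 3)⁻¹ : ℝ) * ph α a * ph (-γ) b) • M a b

/-- the transfer operator of one row of square tiles -/
noncomputable def T1 (α γ : ℝ) (l : List ι) : Op ι := cl1 α γ (row (Real.pi / 2) l)

/-- one row of square tiles with a sink, followed by the twist -/
noncomputable def Sh (α γ : ℝ) (l₁ l₂ : List ι) : Op ι :=
  str tw l₁ * cl1 α γ (rowc (Real.pi / 2) l₁ l₂)

/-- the Cauchy-Riemann defect on four rows, at the vertex between the sites `j` and `k` -/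
noncomputable def CR (α γ : ℝ) (l₁ : List ι) (j k : ι) (l₂ : List ι) : Op ι :=
  T1 (α - β) γ (l₁ ++ j :: k :: l₂) * Sh α γ (l₁ ++ [j]) (k :: l₂) * T1 α γ (l₁ ++ j :: k :: l₂) ^ 2 +
  T1 (α - β) γ (l₁ ++ j :: k :: l₂) ^ 2 * Sh α γ (l₁ ++ [j]) (k :: l₂) * T1 α γ (l₁ ++ j :: k :: l₂) -
  Complex.I • (T1 (α - β) γ (l₁ ++ j :: k :: l₂) ^ 2 * (Sv (l₁ ++ [j]) k + Sv l₁ j) *
    T1 α γ (l₁ ++ j :: k :: l₂) ^ 2)

end Ops

end Pool.Agent.P.MP_6c8efb_pr.Cardy
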