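import Pool.Agent.P.MP_6c8efb_pr.Cardy.ABasic

/-! Statements of the steps of the operator estimate in a strip. -/

open Matrix Complex
open scoped Matrix.Norms.L2Operator ComplexConjugate Real

namespace Pool.Agent.P.MP_6c8efb_pr.Cardy

/-- exchange matrices acting on functions of four auxiliary arrows -/
noncomputable def x12 (X : Matrix (Bool × Bool) (Bool × Bool) ℂ) (κ : Bool → Bool → Bool → Bool → ℂ)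
    (a b c d : Bool) : ℂ := ∑ m, X (a, b) m * κ m.1 m.2 c d
noncomputable def x23 (X : Matrix (Bool × Bool) (Bool × Bool) ℂ) (κ : Bool → Bool → Bool → Bool → ℂ)
    (a b c d : Bool) : ℂ := ∑ m, X (b, c) m * κ a m.1 m.2 d
noncomputable def x34 (X : Matrix (Bool × Bool) (Bool × Bool) ℂ) (κ : Bool → Bool → Bool → Bool → ℂ)
    (a b c d : Bool) : ℂ := ∑ m, X (c, d) m * κ a b m.1 m.2
def k4 (k k' : Bool × Bool → ℂ) (a b c d : Bool) : ℂ := k (a, b) * k' (c, d)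

section
variable {n : Type} [Fintype n] [DecidableEq n]

/-- a commuting normal family with crossing symmetry and an inversion relation -/
structure Fam (C : ℝ) (N : ℕ) (D : ℂ → Matrix n n ℂ) : Prop where
  diff : DifferentiableOn ℂ D Big
  comm : ∀ u ∈ Big, ∀ v ∈ Big, Commute (D u) (D v)
  adj : ∀ u ∈ Big, star (D u) = D (conj u)
  cross : ∀ u ∈ Big, D (π - u) = D u
  zero : D 0 = 1
  bd : ∀ u ∈ Phys, ‖D u‖ ≤ C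
  inv : ∀ u : ℂ, |u.re| ≤ 1 / 10 → ‖D (-u) * D u - 1‖ ≤ C * ‖tan (u / 2)‖ ^ N
  crude : ∀ u : ℂ, |u.re| ≤ 1 / 10 → ‖D u‖ ≤ C * C ^ N

/-- an eigenvalue of such a family -/
structure Fam1 (C : ℝ) (N : ℕ) (Λ : ℂ → ℂ) : Prop where
  diff : DifferentiableOn ℂ Λ Big
  adj : ∀ u ∈ Big, conj (Λ u) = Λ (conj u)
  cross : ∀ u ∈ Big, Λ (π - u) = Λ u
  zero : Λ 0 = 1
  bd : ∀ u ∈ Phys, ‖Λ u‖ ≤ C
  inv : ∀ u : ℂ, |u.re| ≤ 1 / 10 → ‖Λ (-u) * Λ u - 1‖ ≤ C * ‖tan (u / 2)‖ ^ N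
  crude : ∀ u : ℂ, |u.re| ≤ 1 / 10 → ‖Λ u‖ ≤ C * C ^ N

/-- the two halves of a conserved current of spin one third -/
structure Cur (C : ℝ) (d : ℕ) (D D' Y Y' : ℂ → Matrix n n ℂ) : Prop where
  diff : DifferentiableOn ℂ Y Big
  diff' : DifferentiableOn ℂ Y' Big
  bd : ∀ u ∈ Phys, ‖Y u‖ ≤ C * Real.exp (u.im / 3)
  bd' : ∀ u ∈ Phys, ‖Y' u‖ ≤ C * Real.exp (-u.im / 3)
  rel0 : ∀ u : ℂ, u.re = 0 →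
    ‖Y u * D (-u) + D' u * Y' (-u)‖ ≤ C * Real.exp (u.im / 3) * ‖tan (u / 2)‖ ^ d
  rel1 : ∀ u : ℂ, u.re = 0 → ‖Y (π + u) * D (π - u) + D' (π + u) * Y' (π - u)‖ ≤
    C * Real.exp (u.im / 3) * ‖tan (u / 2)‖ ^ d

/-- the Cauchy-Riemann defect of a current -/
noncomputable def dfc (D D' Y Y' : ℂ → Matrix n n ℂ) : Matrix n n ℂ :=
  Y (π / 2) * D (π / 2) + D' (π / 2) * Y' (π / 2) + I • (D' (π / 2) * (Y 0 - Y π) * D (π / 2))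

end

/-- the auxiliary function of the majorant -/
noncomputable def maj (N : ℝ) (u : ℂ) : ℂ :=
  I * exp (-I * u) / (N + I * exp (-I * u)) + (I * exp (-I * u))⁻¹ / (N + (I * exp (-I * u))⁻¹)

/-! ### Algebra -/

def S_Plc : Prop := ∀ (A : Type) [Fintype A] [DecidableEq A] (G : ℂ → Gate A) (a b C : ℝ), a < b →
  (∀ u : ℂ, a ≤ u.re → u.re ≤ b → ∀ i j t s, DifferentiableAt ℂ (fun u => G u i j t s) u ∧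
    ‖G u i j t s‖ ≤ C * Real.exp (C * |u.im|)) →
  (∀ u : ℂ, u.re = a ∨ u.re = b → (G u)ᴴ * G u = 1 ∨ (G u)ᵀᴴ * (G u)ᵀ = 1) →
  ∀ (ι : Type) [Fintype ι] [DecidableEq ι] (l : List ι), l.Nodup →
    ∀ u : ℂ, a ≤ u.re → u.re ≤ b → ∀ i j, ‖chain (G u) l i j‖ ≤ 1

def S_Crude : Prop := ∀ (A : Type) [Fintype A] [DecidableEq A] (L : Gate A) (c : ℝ),
  (∀ i j t s, ‖L i j t s‖ ≤ c) → ∀ (ι : Type) [Fintype ι] [DecidableEq ι] (l : List ι) (i j : A),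
    ‖chain L l i j‖ ≤ (4 * Fintype.card A * c) ^ l.length

def S_Row : Prop := ∀ (ι : Type) [Fintype ι] [DecidableEq ι] (l : List ι), l.Nodup →
  ∀ u ∈ Phys, ∀ a b, ‖row u l a b‖ ≤ 1

def S_QUni : Prop := ∀ u : ℂ, (u.re = π / 2 → (Q2 u)ᴴ * Q2 u = 1) ∧
  (u.re = -(π / 2) → (Q2 u)ᵀᴴ * (Q2 u)ᵀ = 1)

def S_Quot : Prop := ∀ (ι : Type) [Fintype ι] [DecidableEq ι] (l : List ι), l.Nodup →
  ∀ u : ℂ, |u.re| ≤ π / 2 → ∀ i j, ‖chain (Q2 u) l i j‖ ≤ ‖tan (u / 2)‖ ^ l.length ∧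
    ‖chain (Q1 u) l i j‖ ≤ ‖tan (u / 2)‖ ^ l.length

def S_Fus : Prop := ∀ (ι : Type) [Fintype ι] [DecidableEq ι] (l : List ι) (u : ℂ), |u.re| < π →
  lift (Op ι) pq * chain (P2 u) l = chain (Q2 u) l * lift (Op ι) pq ∧
  (∀ a, ∑ b, cv b • chain (P2 u) l a b = cv a • (1 : Op ι)) ∧
  chain (P1 u) l * lift (Op ι) pqᵀ = lift (Op ι) pqᵀ * chain (Q1 u) l ∧
  (∀ b, ∑ a, cv a • chain (P1 u) l a b = cv b • (1 : Op ι))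

def S_Ybe : Prop := ∀ u v : ℂ,
  lift M2 (Rx (v - u)) * st (Lg v) (Lg u) = st (Lg u) (Lg v) * lift M2 (Rx (v - u))

def S_Refl : Prop := ∀ (α : ℝ) (u v : ℂ),
  x34 (Rx (v - u)) (x23 (Rx (π - u - v)) (k4 (kL α α u) (kL α α v))) =
    x12 (Rx (v - u)) (x23 (Rx (π - u - v)) (k4 (kL α α v) (kL α α u)))

def S_An : Prop := ∀ (ι : Type) [Fintype ι] [DecidableEq ι] (α γ : ℝ) (l₁ l₂ : List ι),
  DifferentiableOn ℂ (DD α γ l₁) Big ∧ DifferentiableOn ℂ (Yb α γ l₁ l₂) Big ∧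
    DifferentiableOn ℂ (Yt α γ l₁ l₂) Big

def S_Bnd : Prop := ∃ C : ℝ, ∀ (ι : Type) [Fintype ι] [DecidableEq ι] (α γ : ℝ) (l₁ l₂ : List ι),
  (l₁ ++ l₂).Nodup →
  (∀ u ∈ Phys, ‖DD α γ l₁ u‖ ≤ C ∧ ‖Yb α γ l₁ l₂ u‖ ≤ C * Real.exp (u.im / 3) ∧
    ‖Yt α γ l₁ l₂ u‖ ≤ C * Real.exp (-u.im / 3)) ∧
  ∀ u : ℂ, |u.re| ≤ 1 / 10 → ‖DD α γ l₁ u‖ ≤ C * C ^ l₁.length

def S_Comm : Prop := ∀ (ι : Type) [Fintype ι] [DecidableEq ι] (α γ : ℝ) (l : List ι), l.Nodup →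
  ∀ u ∈ Big, ∀ v ∈ Big, Commute (DD α γ l u) (DD α γ l v)

def S_Cross : Prop := ∀ (ι : Type) [Fintype ι] [DecidableEq ι] (α γ : ℝ) (l : List ι), l.Nodup →
  (∀ u ∈ Big, DD α γ l (π - u) = DD α γ l u) ∧ DD α γ l 0 = 1 ∧
  (∀ u, star (DD α γ l u) = DD α γ l (conj u)) ∧ DD α γ l (π / 2) = T1 α γ l ^ 2 ∧
    star (T1 α γ l) = T1 α γ l

def S_Spec : Prop := ∀ (ι : Type) [Fintype ι] [DecidableEq ι] (α γ : ℝ) (l₁ l₂ : List ι),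
  (l₁ ++ l₂).Nodup →
  Yb α γ l₁ l₂ (π / 2) = T1 (α - β) γ (l₁ ++ l₂) * Sh α γ l₁ l₂ ∧
  Yt α γ l₁ l₂ (π / 2) = Sh α γ l₁ l₂ * T1 α γ (l₁ ++ l₂) ∧
  (∀ k l, l₂ = k :: l → Yb α γ l₁ l₂ 0 = -Sv l₁ k) ∧
  (∀ l j, l₁ = l ++ [j] → Yb α γ l₁ l₂ π = Sv l j)

/-- the finite identities behind the inversion relation -/
def S_InvK : Prop := ∀ (α γ : ℝ) (u : ℂ), |u.re| ≤ 1 / 10 →
  (∀ i, ∑ a, ∑ b, x23 (Rx (-(2 * u))) (k4 (kL α α u) (kL α α (π + u))) a.1 a.2 b.1 b.2 *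
    pq i a * cv b = 0) ∧
  (∀ i, ∑ a, ∑ b, x23 (Rx (2 * u)) (k4 (kR γ u) (kR γ (π + u))) a.1 a.2 b.1 b.2 *
    cv a * pq i b = 0) ∧
  (∑ a, ∑ b, x23 (Rx (-(2 * u))) (k4 (kL α α u) (kL α α (π + u))) a.1 a.2 b.1 b.2 * cv a * cv b) *
  (∑ a, ∑ b, x23 (Rx (2 * u)) (k4 (kR γ u) (kR γ (π + u))) a.1 a.2 b.1 b.2 * cv a * cv b) =
    4 * (sa (2 * u) * sa (-(2 * u)))

def S_Inv : Prop := ∃ C : ℝ, ∀ (ι : Type) [Fintype ι] [DecidableEq ι] (α γ : ℝ) (l : List ι),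
  l.Nodup → ∀ u : ℂ, |u.re| ≤ 1 / 10 →
    ‖DD α γ l (-u) * DD α γ l u - 1‖ ≤ C * ‖tan (u / 2)‖ ^ l.length

def S_Rel0 : Prop := ∃ C : ℝ, ∀ (ι : Type) [Fintype ι] [DecidableEq ι] (α γ : ℝ) (l₁ l₂ : List ι),
  (l₁ ++ l₂).Nodup → ∀ u : ℂ, u.re = 0 →
    ‖Yb α γ l₁ l₂ u * DD α γ (l₁ ++ l₂) (-u) + DD (α - β) γ (l₁ ++ l₂) u * Yt α γ l₁ l₂ (-u)‖ ≤
      C * Real.exp (u.im / 3) * ‖tan (u / 2)‖ ^ l₂.length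

def S_Rel1 : Prop := ∃ C : ℝ, ∀ (ι : Type) [Fintype ι] [DecidableEq ι] (α γ : ℝ) (l₁ l₂ : List ι),
  (l₁ ++ l₂).Nodup → ∀ u : ℂ, u.re = 0 →
    ‖Yb α γ l₁ l₂ (π + u) * DD α γ (l₁ ++ l₂) (π - u) +
      DD (α - β) γ (l₁ ++ l₂) (π + u) * Yt α γ l₁ l₂ (π - u)‖ ≤
      C * Real.exp (u.im / 3) * ‖tan (u / 2)‖ ^ l₁.length

/-! ### Analysis -/

def S_Maj : Prop := ∀ (C : ℝ) (N : ℕ) (Λ : ℂ → ℂ), 1 ≤ N → Fam1 C N Λ → ∀ u ∈ Phys,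
  ‖Λ u * exp (-C * maj N u)‖ ≤ 1 ∧ ‖maj N u‖ ≤ 2 * Real.exp |u.im| / N ∧
    DifferentiableAt ℂ (maj N) u ∧ maj N (π / 2) = 2 / (N + 1)

def S_Mid : Prop := ∀ f : ℂ → ℂ, DifferentiableOn ℂ f {u | 0 < u.re ∧ u.re < π} →
  (∀ u : ℂ, 0 < u.re → u.re < π → 0 ≤ (f u).re) → ∀ u : ℂ, 0 < u.re → u.re < π →
    ‖f u‖ ≤ 4 * ‖f (π / 2)‖ * Real.exp |u.im| / Real.sin u.re

def S_Thin : Prop := ∀ (f : ℂ → ℂ) (Y m μ : ℝ), 0 < Y → 0 ≤ μ →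
  (∀ u : ℂ, |u.re| ≤ 1 / 10 → |u.im| ≤ Y → DifferentiableAt ℂ f u) →
  (∀ u : ℂ, |u.re| = 1 / 10 → |u.im| ≤ Y → ‖f u‖ ≤ m) →
  (∀ u : ℂ, |u.re| ≤ 1 / 10 → |u.im| = Y →
    ‖f u‖ ≤ m * Real.exp (μ * Real.cosh (10 * π / 3 * Y) / 2)) →
  ∀ u : ℂ, |u.re| ≤ 1 / 10 → |u.im| ≤ Y →
    ‖f u‖ ≤ m * Real.exp (μ * Real.cosh (10 * π / 3 * u.im))

def S_Harn : Prop := ∀ C : ℝ, ∃ N₀ : ℕ, ∀ N : ℕ, N₀ ≤ N → ∀ Λ : ℂ → ℂ, Fam1 C N Λ →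
  ‖Λ (π / 2)‖ ≤ Real.exp (2 * C / N) ∧
  (Real.exp (-(N : ℝ) ^ (-19 / 20 : ℝ)) ≤ ‖Λ (π / 2)‖ →
    ∀ u ∈ Phys, |u.im| ≤ 4 / 5 * Real.log N → 1 / 2 ≤ ‖Λ u‖)

def S_Eig : Prop := ∀ (n : Type) [Fintype n] [DecidableEq n] (C : ℝ) (N : ℕ)
  (D : ℂ → Matrix n n ℂ), Fam C N D → ∃ V ∈ Matrix.unitaryGroup n ℂ, ∃ Λ : n → ℂ → ℂ,
    (∀ k, Fam1 C N (Λ k)) ∧ ∀ u ∈ Big, D u = V * Matrix.diagonal (fun k => Λ k u) * star V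

def S_Cau : Prop := ∃ C : ℝ, ∀ (E : Type) [NormedAddCommGroup E] [NormedSpace ℂ E] [CompleteSpace E]
  (g h : ℂ → E) (Y K J : ℝ), 1 ≤ Y →
  (∀ u ∈ Phys, |u.im| ≤ Y → AnalyticAt ℂ g u ∧ AnalyticAt ℂ h u ∧
    ‖g u‖ ≤ K * Real.exp (u.im / 3) ∧ ‖h u‖ ≤ K * Real.exp (-u.im / 3)) →
  (∀ y : ℝ, |y| ≤ Y → ‖g (y * I) - h (-(y * I))‖ ≤ J * |y| ∧
    ‖g (π + y * I) - h (π - y * I)‖ ≤ J * |y|) →
  ‖g (π / 2) - h (π / 2) + I • (g 0 - g π)‖ ≤ C * (K * Real.exp (-4 * Y / 3) + J)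

def S_Low : Prop := ∀ C ε : ℝ, 0 < ε → ∃ (C' : ℝ) (N₀ : ℕ), ∀ (n : Type) [Fintype n] [DecidableEq n]
  (N d : ℕ) (Λ Λ' : n → ℂ → ℂ) (Y Y' : ℂ → Matrix n n ℂ) (P P' : Finset n), N₀ ≤ N → ε * N ≤ d →
  (∀ k, Fam1 C N (Λ k)) → (∀ k, Fam1 C N (Λ' k)) →
  Cur C d (fun u => diagonal fun k => Λ k u) (fun u => diagonal fun k => Λ' k u) Y Y' →
  (∀ k ∈ P, ∀ u ∈ Phys, |u.im| ≤ 4 / 5 * Real.log N → 1 / 2 ≤ ‖Λ k u‖) →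
  (∀ k ∈ P', ∀ u ∈ Phys, |u.im| ≤ 4 / 5 * Real.log N → 1 / 2 ≤ ‖Λ' k u‖) →
  ‖diagonal (fun k => if k ∈ P' then (1 : ℂ) else 0) *
    dfc (fun u => diagonal fun k => Λ k u) (fun u => diagonal fun k => Λ' k u) Y Y' *
      diagonal (fun k => if k ∈ P then (1 : ℂ) else 0)‖ ≤ C' * (N : ℝ) ^ (-16 / 15 : ℝ)

def S_Abs : Prop := ∀ C ε : ℝ, 0 < ε → ∃ C' : ℝ, ∀ (n : Type) [Fintype n] [DecidableEq n]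
  (N d M : ℕ) (D D' Y Y' : ℂ → Matrix n n ℂ), 1 ≤ N → ε * N ≤ d → ε * N ≤ M → M ≤ N →
  Fam C N D → Fam C N D' → Cur C d D D' Y Y' →
  ‖D' (π / 2) ^ M * dfc D D' Y Y' * D (π / 2) ^ M‖ ≤ C' * (N : ℝ) ^ (-16 / 15 : ℝ)

/-- the operator estimate: the Cauchy-Riemann defect far from the walls is of smaller order than
the inverse width -/
def S_A : Prop := ∀ ε : ℝ, 0 < ε → ∃ C : ℝ, ∀ (ι : Type) [Fintype ι] [DecidableEq ι] (α γ : ℝ)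
  (l₁ : List ι) (j k : ι) (l₂ : List ι) (N M : ℕ), (l₁ ++ j :: k :: l₂).Nodup →
  N = (l₁ ++ j :: k :: l₂).length → ε * N ≤ l₁.length → ε * N ≤ l₂.length → ε * N ≤ M → M ≤ N →
  ‖T1 (α - β) γ (l₁ ++ j :: k :: l₂) ^ (2 * M) * CR α γ l₁ j k l₂ *
    T1 α γ (l₁ ++ j :: k :: l₂) ^ (2 * M)‖ ≤ C * (N : ℝ) ^ (-16 / 15 : ℝ)

end Pool.Agent.P.MP_6c8efb_pr.Cardy
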