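import Pool.Agent.P.MP_6c8efb_pr.Cardy.AIface

/-! The abstract operator estimate and its application to the transfer operators. -/

open Matrix Complex
open scoped Matrix.Norms.L2Operator ComplexConjugate Real

namespace Pool.Agent.P.MP_6c8efb_pr.Cardy

namespace AbsA

variable {n : Type} [Fintype n] [DecidableEq n]

theorem norm_conj {V V' : Matrix n n ℂ} (hV : V ∈ Matrix.unitaryGroup n ℂ)
    (hV' : V' ∈ Matrix.unitaryGroup n ℂ) (X : Matrix n n ℂ) : ‖star V' * X * V‖ = ‖X‖ := by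
  rw [CStarRing.norm_mul_mem_unitary _ hV, CStarRing.norm_mem_unitary_mul _ (Unitary.star_mem hV')]

theorem norm_diag {v : n → ℂ} {c : ℝ} (c0 : 0 ≤ c) (h : ∀ k, ‖v k‖ ≤ c) : ‖diagonal v‖ ≤ c := by
  rw [l2_opNorm_diagonal]; exact (pi_norm_le_iff_of_nonneg c0).2 h

theorem norm3 {A X B : Matrix n n ℂ} {a x b : ℝ} (ha : ‖A‖ ≤ a) (hx : ‖X‖ ≤ x) (hb : ‖B‖ ≤ b) :
    ‖A * X * B‖ ≤ a * x * b :=
  norm_mul_le_of_le (norm_mul_le_of_le ha hx) hb

theorem phys (x : ℝ) (h0 : 0 ≤ x) (h1 : x ≤ π) : (x : ℂ) ∈ Phys := ⟨by simpa, by simpa⟩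

theorem phys_half : (π / 2 : ℂ) ∈ Phys := by
  have := phys (π / 2) (by positivity) (by linarith [Real.pi_pos])
  simpa using this

theorem phys_zero : (0 : ℂ) ∈ Phys := ⟨by simp, by simpa using Real.pi_pos.le⟩

theorem phys_pi : (π : ℂ) ∈ Phys := phys π Real.pi_pos.le le_rfl

theorem big {u : ℂ} (h : u ∈ Phys) : u ∈ Big :=
  ⟨by linarith [h.1, Real.pi_pos], by linarith [h.2, Real.pi_pos]⟩

variable {C : ℝ} {N d : ℕ} {D D' Y Y' : ℂ → Matrix n n ℂ}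

theorem norm_dfc (hD : Fam C N D) (hD' : Fam C N D') (h : Cur C d D D' Y Y') :
    ‖dfc D D' Y Y'‖ ≤ 2 * C ^ 2 + 2 * C ^ 3 := by
  have a := hD.bd _ phys_half
  have a' := hD'.bd _ phys_half
  have b : ‖Y (π / 2)‖ ≤ C := by simpa using h.bd _ phys_half
  have b' : ‖Y' (π / 2)‖ ≤ C := by simpa using h.bd' _ phys_half
  have b0 : ‖Y 0‖ ≤ C := by simpa using h.bd _ phys_zero
  have b1 : ‖Y π‖ ≤ C := by simpa using h.bd _ phys_pi
  refine (norm_add_le_of_le (norm_add_le_of_le (norm_mul_le_of_le b a) (norm_mul_le_of_le a' b'))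
    ((norm_smul_le _ _).trans (mul_le_mul_of_nonneg_left
      (norm3 a' (norm_sub_le_of_le b0 b1) a) (norm_nonneg _)))).trans (le_of_eq ?_)
  rw [norm_I]; ring

theorem cur_conj {V V' : Matrix n n ℂ} (hV : V ∈ Matrix.unitaryGroup n ℂ)
    (hV' : V' ∈ Matrix.unitaryGroup n ℂ) {δ δ' : ℂ → Matrix n n ℂ}
    (e : ∀ u ∈ Big, D u * V = V * δ u) (e' : ∀ u ∈ Big, star V' * D' u = δ' u * star V')
    (h : Cur C d D D' Y Y') :
    Cur C d δ δ' (fun u => star V' * Y u * V) fun u => star V' * Y' u * V := by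
  have key : ∀ a ∈ Big, ∀ b ∈ Big, star V' * Y a * V * δ b + δ' a * (star V' * Y' b * V) =
      star V' * (Y a * D b + D' a * Y' b) * V := fun a ha b hb => by
    rw [mul_assoc _ V, ← e b hb, ← mul_assoc (δ' a), ← mul_assoc (δ' a), ← e' a ha]
    noncomm_ring
  have hb : ∀ u : ℂ, u.re = 0 ∨ u.re = π → u ∈ Big := fun u hu =>
    big (by rcases hu with hu | hu <;> constructor <;> linarith [Real.pi_pos])
  refine ⟨(h.diff.const_mul _).mul_const _, (h.diff'.const_mul _).mul_const _,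
    fun u hu => ?_, fun u hu => ?_, fun u hu => ?_, fun u hu => ?_⟩
  · rw [norm_conj hV hV']; exact h.bd u hu
  · rw [norm_conj hV hV']; exact h.bd' u hu
  · rw [key _ (hb _ (by simp [hu])) _ (hb _ (by simp [hu])), norm_conj hV hV']
    exact h.rel0 u hu
  · rw [key _ (hb _ (by simp [hu])) _ (hb _ (by simp [hu])), norm_conj hV hV']
    exact h.rel1 u hu

theorem decay {ε : ℝ} (ε0 : 0 < ε) {N M : ℕ} (N1 : 1 ≤ N) (h : ε * N ≤ M) :
    Real.exp (-(N : ℝ) ^ (-19 / 20 : ℝ)) ^ M ≤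
      (22 : ℕ).factorial / ε ^ 22 * (N : ℝ) ^ (-16 / 15 : ℝ) := by
  have N1' : (1 : ℝ) ≤ N := by exact_mod_cast N1
  have N0 : (0 : ℝ) < N := by linarith
  have x0 : 0 < ε * (N : ℝ) ^ (1 / 20 : ℝ) := by positivity
  have h1 : ε * (N : ℝ) ^ (1 / 20 : ℝ) ≤ M * (N : ℝ) ^ (-19 / 20 : ℝ) := by
    refine le_trans (le_of_eq ?_) (mul_le_mul_of_nonneg_right h (by positivity))
    rw [mul_assoc, mul_comm (N : ℝ), ← Real.rpow_add_one N0.ne']; norm_num
  have h2 := Real.pow_div_factorial_le_exp _ x0.le 22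
  rw [← Real.exp_nat_mul, mul_neg, Real.exp_neg]
  refine (inv_anti₀ (by positivity) (h2.trans (Real.exp_le_exp.2 h1))).trans ?_
  rw [inv_div, mul_pow, ← div_div, div_eq_mul_inv (_ / _), ← Real.rpow_natCast ((N : ℝ) ^ _),
    ← Real.rpow_mul N0.le, ← Real.rpow_neg N0.le]
  exact mul_le_mul_of_nonneg_left (Real.rpow_le_rpow_of_exponent_le N1' (by norm_num))
    (by positivity)

theorem split {Λ Λ' : n → ℂ} (X : Matrix n n ℂ) (P P' : Finset n) {E η x y : ℝ} (E0 : 0 ≤ E)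
    (η0 : 0 ≤ η) (h : ∀ k, ‖Λ k‖ ≤ E) (h' : ∀ k, ‖Λ' k‖ ≤ E) (g : ∀ k ∉ P, ‖Λ k‖ ≤ η)
    (g' : ∀ k ∉ P', ‖Λ' k‖ ≤ η) (hx : ‖X‖ ≤ x)
    (hy : ‖diagonal (fun k => if k ∈ P' then (1 : ℂ) else 0) * X *
      diagonal (fun k => if k ∈ P then (1 : ℂ) else 0)‖ ≤ y) :
    ‖diagonal Λ' * X * diagonal Λ‖ ≤ E * y * E + E * x * η + η * x * E := by
  have e1 : diagonal Λ = diagonal (fun k => if k ∈ P then (1 : ℂ) else 0) * diagonal Λ +
      diagonal fun k => if k ∈ P then 0 else Λ k := by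
    rw [diagonal_mul_diagonal, diagonal_add]
    congr 1; funext k; split_ifs <;> simp
  have e2 : diagonal Λ' * diagonal (fun k => if k ∈ P' then (1 : ℂ) else 0) =
      diagonal fun k => if k ∈ P' then Λ' k else 0 := by
    rw [diagonal_mul_diagonal]
    congr 1; funext k; split_ifs <;> simp
  have e3 : diagonal Λ' = diagonal (fun k => if k ∈ P' then Λ' k else 0) +
      diagonal fun k => if k ∈ P' then 0 else Λ' k := by
    rw [diagonal_add]
    congr 1; funext k; split_ifs <;> simp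
  have e : diagonal Λ' * X * diagonal Λ =
      diagonal Λ' * (diagonal (fun k => if k ∈ P' then (1 : ℂ) else 0) * X *
        diagonal (fun k => if k ∈ P then (1 : ℂ) else 0)) * diagonal Λ +
      diagonal (fun k => if k ∈ P' then Λ' k else 0) * X *
        diagonal (fun k => if k ∈ P then 0 else Λ k) +
      diagonal (fun k => if k ∈ P' then 0 else Λ' k) * X * diagonal Λ := by
    rw [← mul_assoc, ← mul_assoc, e2, mul_assoc (_ * X) _ (diagonal Λ), ← mul_add, ← e1, ← add_mul,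
      ← add_mul, ← e3]
  rw [e]
  refine norm_add_le_of_le (norm_add_le_of_le (norm3 (norm_diag E0 h') hy (norm_diag E0 h))
    (norm3 (norm_diag E0 fun k => ?_) hx (norm_diag η0 fun k => ?_)))
    (norm3 (norm_diag η0 fun k => ?_) hx (norm_diag E0 h))
  · split_ifs
    · exact h' k
    · simpa
  · split_ifs with hk
    · simpa
    · exact g k hk
  · split_ifs with hk
    · simpa
    · exact g' k hk

theorem norm_tan {u : ℂ} (h : u.re = 0) : ‖tan (u / 2)‖ ≤ 1 := by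
  have : u / 2 = (u.im / 2 : ℝ) * I := by apply Complex.ext <;> simp [h]
  rw [this, tan_mul_I, ← ofReal_tanh, norm_mul, norm_I, mul_one, norm_real]
  exact (Real.abs_tanh_lt_one _).le

end AbsA

open AbsA

theorem s_Abs (h : S_Harn) (h2 : S_Eig) (h3 : S_Low) : S_Abs := by
  classical
  intro C ε ε0
  obtain ⟨N₁, h⟩ := h C
  obtain ⟨C₁, N₂, h3⟩ := h3 C ε ε0
  set B := 2 * C ^ 2 + 2 * |C| ^ 3 with hB
  set E := Real.exp (2 * C) with hE
  set K : ℝ := (22 : ℕ).factorial / ε ^ 22 with hK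
  set L : ℝ := (|C| + 1) ^ max N₁ N₂ * B * (|C| + 1) ^ max N₁ N₂ *
    ((max N₁ N₂ : ℕ) : ℝ) ^ (16 / 15 : ℝ) with hL
  have B0 : 0 ≤ B := by positivity
  have E0 : 0 ≤ E := by positivity
  have K0 : 0 ≤ K := by positivity
  have L0 : 0 ≤ L := by positivity
  refine ⟨E * |C₁| * E + E * B * K + K * B * E + L,
    fun n _ _ N d M D D' Y Y' N1 hd hM MN hD hD' hc => ?_⟩
  have C0 : 0 ≤ C := (norm_nonneg _).trans (hD.bd _ phys_zero)
  have N0 : (0 : ℝ) < N := by exact_mod_cast N1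
  have hX : ‖dfc D D' Y Y'‖ ≤ B := by rw [hB, abs_of_nonneg C0]; exact norm_dfc hD hD' hc
  have r0 : 0 ≤ (N : ℝ) ^ (-16 / 15 : ℝ) := by positivity
  rcases lt_or_ge N (max N₁ N₂) with hN | hN
  · have M0 : 0 < M := by exact_mod_cast (mul_pos ε0 N0).trans_le hM
    have a : ∀ {F : ℂ → Matrix n n ℂ}, Fam C N F → ‖F (π / 2) ^ M‖ ≤ (|C| + 1) ^ max N₁ N₂ :=
      fun hF => (norm_pow_le' _ M0).trans ((pow_le_pow_left₀ (norm_nonneg _)
        ((hF.bd _ phys_half).trans (by linarith [le_abs_self C])) M).trans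
          (pow_le_pow_right₀ (by linarith [abs_nonneg C]) (MN.trans hN.le)))
    refine (norm3 (a hD') hX (a hD)).trans (le_trans ?_
      (mul_le_mul_of_nonneg_right (le_add_of_nonneg_left (by positivity)) r0))
    rw [hL, mul_assoc _ _ (_ ^ (-16 / 15 : ℝ))]
    refine le_mul_of_one_le_right (by positivity) ?_
    rw [neg_div, Real.rpow_neg N0.le, ← div_eq_mul_inv, one_le_div (by positivity)]
    exact Real.rpow_le_rpow N0.le (by exact_mod_cast hN.le) (by norm_num)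
  obtain ⟨V, hV, Λ, hΛ, e⟩ := h2 n C N D hD
  obtain ⟨V', hV', Λ', hΛ', e'⟩ := h2 n C N D' hD'
  replace e : ∀ u ∈ Big, D u * V = V * diagonal fun k => Λ k u := fun u hu => by
    rw [e u hu, mul_assoc, (Unitary.mem_iff.1 hV).1, mul_one]
  replace e' : ∀ u ∈ Big, star V' * D' u = (diagonal fun k => Λ' k u) * star V' := fun u hu => by
    rw [e' u hu, ← mul_assoc, ← mul_assoc, (Unitary.mem_iff.1 hV').1, one_mul]
  have hb := big phys_half
  have h1 := fun Λ hΛ => h N ((le_max_left _ _).trans hN) Λ hΛ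
  have low := h3 n N d Λ Λ' _ _
    (Finset.univ.filter fun k => Real.exp (-(N : ℝ) ^ (-19 / 20 : ℝ)) ≤ ‖Λ k (π / 2)‖)
    (Finset.univ.filter fun k => Real.exp (-(N : ℝ) ^ (-19 / 20 : ℝ)) ≤ ‖Λ' k (π / 2)‖)
    ((le_max_right _ _).trans hN) hd hΛ hΛ' (cur_conj hV hV' e e' hc)
    (fun k hk => (h1 _ (hΛ k)).2 (Finset.mem_filter.1 hk).2)
    fun k hk => (h1 _ (hΛ' k)).2 (Finset.mem_filter.1 hk).2
  have e1 : dfc (fun u => diagonal fun k => Λ k u) (fun u => diagonal fun k => Λ' k u)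
      (fun u => star V' * Y u * V) (fun u => star V' * Y' u * V) =
      star V' * dfc D D' Y Y' * V := by
    simp only [dfc, mul_add, add_mul, mul_sub, sub_mul, mul_smul_comm, smul_mul_assoc, mul_assoc,
      ← e _ hb]
    simp only [← mul_assoc, ← e' _ hb]
  rw [e1] at low
  have p1 : V * (diagonal fun k => Λ k (π / 2)) ^ M = D (π / 2) ^ M * V :=
    SemiconjBy.pow_right (e _ hb).symm M
  have p2 : star V' * D' (π / 2) ^ M = (diagonal fun k => Λ' k (π / 2)) ^ M * star V' :=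
    SemiconjBy.pow_right (e' _ hb) M
  have e2 : star V' * (D' (π / 2) ^ M * dfc D D' Y Y' * D (π / 2) ^ M) * V =
      diagonal (fun k => Λ' k (π / 2) ^ M) * (star V' * dfc D D' Y Y' * V) *
        diagonal fun k => Λ k (π / 2) ^ M := by
    rw [← mul_assoc, ← mul_assoc, p2, mul_assoc _ _ V, ← p1, diagonal_pow, diagonal_pow]
    simp only [mul_assoc]; rfl
  have a1 : ∀ f : ℂ → ℂ, Fam1 C N f → ‖f (π / 2) ^ M‖ ≤ E := fun f hf => by
    rw [norm_pow]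
    refine (pow_le_pow_left₀ (norm_nonneg _) (h1 f hf).1 M).trans ?_
    rw [← Real.exp_nat_mul, hE, Real.exp_le_exp, mul_div_assoc', div_le_iff₀ N0, mul_comm]
    exact mul_le_mul_of_nonneg_left (by exact_mod_cast MN) (by positivity)
  have a2 : ∀ f : ℂ → ℂ, ¬ Real.exp (-(N : ℝ) ^ (-19 / 20 : ℝ)) ≤ ‖f (π / 2)‖ →
      ‖f (π / 2) ^ M‖ ≤ K * (N : ℝ) ^ (-16 / 15 : ℝ) := fun f hf => by
    rw [norm_pow]
    exact (pow_le_pow_left₀ (norm_nonneg _) (not_le.1 hf).le M).trans (decay ε0 N1 hM)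
  rw [← norm_conj hV hV', e2]
  refine (split _ _ _ E0 (mul_nonneg K0 r0) (fun k => a1 _ (hΛ k)) (fun k => a1 _ (hΛ' k))
    (fun k hk => a2 _ (by simpa using hk)) (fun k hk => a2 _ (by simpa using hk))
    ((norm_conj hV hV' _).trans_le hX)
    (low.trans (mul_le_mul_of_nonneg_right (le_abs_self _) r0))).trans ?_
  nlinarith [mul_nonneg L0 r0]

theorem s_A (h : S_Abs) (h1 : S_An) (h2 : S_Bnd) (h3 : S_Comm) (h4 : S_Cross) (h5 : S_Spec)
    (h6 : S_Inv) (h7 : S_Rel0) (h8 : S_Rel1) : S_A := by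
  intro ε ε0
  obtain ⟨C₂, h2⟩ := h2
  obtain ⟨C₆, h6⟩ := h6
  obtain ⟨C₇, h7⟩ := h7
  obtain ⟨C₈, h8⟩ := h8
  obtain ⟨C, c0, c2, c6, c7, c8⟩ : ∃ C : ℝ, 0 ≤ C ∧ C₂ ≤ C ∧ C₆ ≤ C ∧ C₇ ≤ C ∧ C₈ ≤ C :=
    ⟨max (max 0 C₂) (max C₆ (max C₇ C₈)), by simp, by simp, by simp, by simp, by simp⟩
  obtain ⟨C', h⟩ := h C ε ε0
  refine ⟨C', fun ι _ _ α γ l₁ j k l₂ N M nd hN d1 d2 hM MN => ?_⟩
  have el : (l₁ ++ [j]) ++ k :: l₂ = l₁ ++ j :: k :: l₂ := by simp
  have nd' : ((l₁ ++ [j]) ++ k :: l₂).Nodup := el ▸ nd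
  have fam : ∀ α, Fam C N (DD α γ (l₁ ++ j :: k :: l₂)) := fun α => by
    obtain ⟨b1, b2⟩ := h2 ι α γ (l₁ ++ j :: k :: l₂) [] (by simpa using nd)
    obtain ⟨b3, b4, b5, -⟩ := h4 ι α γ _ nd
    have c2' : 0 ≤ C₂ := (norm_nonneg _).trans (b1 _ phys_zero).1
    refine ⟨(h1 ι α γ _ []).1, h3 ι α γ _ nd, fun u _ => b5 u, b3, b4,
      fun u hu => (b1 u hu).1.trans c2, fun u hu => (h6 ι α γ _ nd u hu).trans ?_,
      fun u hu => (b2 u hu).trans ?_⟩
    · rw [hN]; gcongr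
    · rw [hN]; gcongr
  have tn : ∀ (u : ℂ) (c : ℝ) (m : ℕ), u.re = 0 → c ≤ C → min l₁.length l₂.length ≤ m →
      c * Real.exp (u.im / 3) * ‖tan (u / 2)‖ ^ m ≤
        C * Real.exp (u.im / 3) * ‖tan (u / 2)‖ ^ min l₁.length l₂.length :=
    fun u c m hu hc hm => mul_le_mul (by gcongr)
      (pow_le_pow_of_le_one (norm_nonneg _) (norm_tan hu) hm) (by positivity) (by positivity)
  have cur : Cur C (min l₁.length l₂.length) (DD α γ (l₁ ++ j :: k :: l₂))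
      (DD (α - β) γ (l₁ ++ j :: k :: l₂)) (Yb α γ (l₁ ++ [j]) (k :: l₂))
      (Yt α γ (l₁ ++ [j]) (k :: l₂)) := by
    obtain ⟨b1, -⟩ := h2 ι α γ _ _ nd'
    refine ⟨(h1 ι α γ _ _).2.1, (h1 ι α γ _ _).2.2, fun u hu => (b1 u hu).2.1.trans (by gcongr),
      fun u hu => (b1 u hu).2.2.trans (by gcongr), fun u hu => ?_, fun u hu => ?_⟩
    · rw [← el]; exact (h7 ι α γ _ _ nd' u hu).trans (tn u _ _ hu c7 (by simp))
    · rw [← el]; exact (h8 ι α γ _ _ nd' u hu).trans (tn u _ _ hu c8 (by simp))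
  have key := h _ N (min l₁.length l₂.length) M _ _ _ _ (by simp [hN]; omega)
    (by push_cast; exact le_min d1 d2) hM MN (fam α) (fam (α - β)) cur
  obtain ⟨s1, s2, s3, s4⟩ := h5 ι α γ _ _ nd'
  rw [dfc, s1, s2, s3 _ _ rfl, s4 _ _ rfl, el, (h4 ι α γ _ nd).2.2.2.1,
    (h4 ι (α - β) γ _ nd).2.2.2.1, ← pow_mul, ← pow_mul] at key
  convert key using 4
  rw [CR, ← neg_add', mul_neg, neg_mul, smul_neg, ← sub_eq_add_neg, mul_assoc (_ ^ 2)]

end Pool.Agent.P.MP_6c8efb_pr.Cardy
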