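import Pool.Agent.P.MP_6c8efb_pr.Cardy.Val

/-! Monotonicity of the observable along the first arc; crossings of two colours exclude each
other. -/

open Complex MeasureTheory
open scoped Real

namespace Pool.Agent.P.MP_6c8efb_pr.Cardy

open Arm (TC Pt TConn)

variable {P : Dom} {τ : TC} {k₁ k₂ s t : ℕ}

open Classical in
theorem im_val (h : Mk P k₁ k₂) (hs : s ≤ k₁) : (P.val k₁ k₂ τ (P.c s)).im =
    if P.Sec k₁ k₂ τ 0 (P.c s) then -ζ.im else if P.Sec k₁ k₂ τ 1 (P.c s) then ζ.im else 0 := by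
  obtain ⟨h1, h2, h3⟩ := h
  have e : ∀ m, m ≠ 0 → P.pock k₁ k₂ τ m (P.c s) = ∅ := fun m hm =>
    Finset.eq_empty_of_forall_notMem fun q hq => by
      obtain ⟨a, b, -, c⟩ := Vl.mem_pock.1 hq
      rw [a.inn_c (by omega)] at c
      rw [arc, if_pos (by omega)] at b
      exact hm b.symm
  unfold Dom.val
  split_ifs
  · rw [show ζ ^ 5 = 1 - ζ by linear_combination ζ ^ 2 * Vl.ζ3 - Vl.ζ2]; simp
  · rfl
  · rw [Vl.ζ3]; simp
  · simp only [Finset.sum_range_succ, Finset.sum_range_zero, e 1 one_ne_zero, e 2 two_ne_zero]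
    split_ifs <;> simp_all

theorem val_mono (h : Mk P k₁ k₂) (hst : s ≤ t) (ht : t ≤ k₁) :
    (P.val k₁ k₂ τ (P.c s)).im ≤ (P.val k₁ k₂ τ (P.c t)).im := by
  have h0 : 0 ≤ ζ.im := by
    rw [ζ, show (π / 3 * I : ℂ) = (π / 3 : ℝ) * I by push_cast; ring, exp_ofReal_mul_I_im,
      Real.sin_pi_div_three]
    positivity
  rw [im_val h (hst.trans ht), im_val h ht]
  obtain ⟨h1, h2, h3⟩ := h
  have a : P.Sec k₁ k₂ τ 0 (P.c t) → P.Sec k₁ k₂ τ 0 (P.c s) := fun a => by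
    obtain ⟨i, j, b, c, d, e⟩ := Vl.sec_zero.1 a
    refine Vl.sec_zero.2 ⟨i, j, b, c, d, ?_⟩
    rw [b.inn_c (by omega)] at e ⊢
    unfold arc at d
    split_ifs at d <;> omega
  have b : P.Sec k₁ k₂ τ 1 (P.c s) → P.Sec k₁ k₂ τ 1 (P.c t) := fun a => by
    obtain ⟨i, j, b, c, d, e⟩ := (Vl.sec_pos one_ne_zero).1 a
    refine (Vl.sec_pos one_ne_zero).2 ⟨i, j, b, c, d, ?_⟩
    rw [b.inn_c (by omega)] at e ⊢
    unfold arc at d
    split_ifs at d <;> omega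
  split_ifs <;> first | linarith | tauto

theorem F_mono (hV : S_Val) (P : Dom) {k₁ k₂ s t : ℕ} (h : Mk P k₁ k₂) (hst : s ≤ t) (ht : t ≤ k₁) :
    (P.F k₁ k₂ (P.c s)).im ≤ (P.F k₁ k₂ (P.c t)).im := by
  obtain ⟨a, b⟩ := hV P k₁ k₂ h
  have i : ∀ v, Integrable (fun τ => P.val k₁ k₂ τ v) (PM fun _ => hf) := fun v =>
    Integrable.of_bound (a v).measurable.aestronglyMeasurable 1 (ae_of_all _ fun τ => (b τ).1 v)
  have e : ∀ v, (P.F k₁ k₂ v).im = ∫ τ, (P.val k₁ k₂ τ v).im ∂PM fun _ => hf := fun v =>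
    (integral_im (i v)).symm
  rw [e, e]
  exact integral_mono (i _).im (i _).im fun τ => val_mono h hst ht

/-- clusters of different colours do not cross -/
theorem Dom.no_cross (P : Dom) {a a' b b' : ℕ} (h1 : a ≤ a') (h2 : a' ≤ b) (h3 : b ≤ b')
    (h4 : b' ≤ P.n) (h : TConn τ P.D (P.c a) (P.c b)) (h' : TConn τ P.D (P.c a') (P.c b')) :
    ((P.c a).1 + (P.c a).2) % 2 = ((P.c a').1 + (P.c a').2) % 2 := by
  classical
  by_contra hp
  have n : ∀ {v w : V}, TConn τ P.D (P.c a) v → TConn τ P.D (P.c a') w → v ≠ w := by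
    rintro v w p q rfl
    have := p.even
    have := q.even
    simp only [Int.even_iff] at *
    omega
  have n1 : a ≠ a' := fun e => n .refl' .refl' (by rw [e])
  have n2 : b ≠ a' := fun e => n h .refl' (by rw [e])
  have n3 : b ≠ b' := fun e => n h h' (by rw [e])
  have j1 := Nat.findGreatest_spec (P := fun m => TConn τ P.D (P.c a) (P.c m)) h1 .refl'
  have j2 := Nat.findGreatest_le (P := fun m => TConn τ P.D (P.c a) (P.c m)) a'
  have j3 := fun m => Nat.findGreatest_is_greatest (P := fun m => TConn τ P.D (P.c a) (P.c m))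
    (n := a') (k := m)
  generalize Nat.findGreatest (fun m => TConn τ P.D (P.c a) (P.c m)) a' = j at j1 j2 j3
  have n4 : j ≠ a' := fun e => n j1 .refl' (by rw [e])
  obtain ⟨p, q, s, e⟩ := Dom.exists_str (P := P) τ (k := j) (by omega)
  have s1 := s.1
  have s2 := s.2.1
  have c1 := Dom.inn_tconn (i := p) (j1.symm'.trans' h)
  have c2 := Dom.inn_tconn (i := p) h'
  rw [s.inn_c (by omega), s.inn_c (by omega)] at c1 c2
  rcases e with rfl | rfl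
  · have c3 : ¬TConn τ P.D (P.c j) (P.c q) := fun c => by
      have := Dom.inn_tconn (i := j) c
      rw [s.inn_c (by omega), s.inn_c (by omega)] at this
      omega
    have c4 : TConn τ P.D (P.c a) (P.c (q + 1)) := by
      obtain ⟨x, y⟩ := s.2.2.tconn
      rcases P.b_lr j with ⟨u, -⟩ | ⟨-, u⟩ <;> rcases P.b_lr q with ⟨v, w⟩ | ⟨v, w⟩
      · exact absurd (u ▸ v ▸ x) c3
      · exact j1.trans' (u ▸ v ▸ x)
      · exact j1.trans' (u ▸ w ▸ y)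
      · exact absurd (u ▸ w ▸ y) c3
    have n5 : q + 1 ≠ a' := fun e => n c4 .refl' (by rw [e])
    have : ¬q + 1 ≤ a' := fun y => j3 (q + 1) (by omega) y c4
    omega
  · omega

theorem loc_Crs (P : Dom) (κ : ℤ) (a a' b b' : ℕ) : Loc (P.Crs κ a a' b b') :=
  ⟨P.D, P.D.finite_toSet, fun _ _ hτ ⟨i, j, h1, h2, h3, h4, h5, h6⟩ =>
    ⟨i, j, h1, h2, h3, h4, h5, h6.mono subset_rfl hτ⟩⟩

theorem crs_le (P : Dom) {k₁ k₂ s : ℕ} (_h : Mk P k₁ k₂) (_hs : s ≤ k₁) :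
    Pt (P.Crs 0 0 s k₁ k₂) + Pt (P.Crs 1 s k₁ k₂ P.n) ≤ 1 ∧
      Pt (P.Crs 1 0 s k₁ k₂) + Pt (P.Crs 0 s k₁ k₂ P.n) ≤ 1 := by
  have key : ∀ κ κ' : ℤ, κ ≠ κ' → Pt (P.Crs κ 0 s k₁ k₂) + Pt (P.Crs κ' s k₁ k₂ P.n) ≤ 1 := by
    intro κ κ' hκ
    have h1 : P.Crs κ 0 s k₁ k₂ ⊆ (P.Crs κ' s k₁ k₂ P.n)ᶜ := by
      rintro τ ⟨i, j, -, a2, a3, a4, a5, a6⟩ ⟨i', j', b1, b2, b3, b4, b5, b6⟩
      exact hκ (by rw [← a5, ← b5, P.no_cross (a2.trans b1) (b2.trans a3) (a4.trans b3) b4 a6 b6])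
    have h2 := Arm.Pt_mono h1
    rw [Pt.eq_1 _ᶜ, Pr_compl _ (loc_Crs ..), ← Pt] at h2
    linarith
  exact ⟨key 0 1 zero_ne_one, key 1 0 one_ne_zero⟩

end Pool.Agent.P.MP_6c8efb_pr.Cardy
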