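import Pool.Agent.P.MP_6c8efb_pr.Cardy.TDom

/-! The blow-up of a disc. -/

namespace Pool.Agent.P.MP_6c8efb_pr.Cardy

theorem div_iff {M q x : ℤ} (hM : 0 < M) : x / M = q ↔ M * q ≤ x ∧ x < M * q + M := by
  rw [Int.ediv_eq_iff_of_pos hM, mul_comm]

theorem mul_add_inj {M p q r s : ℤ} (hr : 0 ≤ r) (hr' : r < M) (hs : 0 ≤ s) (hs' : s < M)
    (h : M * p + r = M * q + s) : p = q ∧ r = s := by
  have h1 : (M * p + r) / M = p := (div_iff (by omega)).2 (by omega)
  have h2 : (M * p + r) / M = q := (div_iff (by omega)).2 (by omega)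
  obtain rfl := h1.symm.trans h2
  omega

namespace Dom

variable (P : Dom) {M : ℕ}

theorem mem_blowD (hM : 0 < M) {t : V} : t ∈ P.blowD M ↔ (t.1 / M, t.2 / M) ∈ P.D := by
  have hM' : (0 : ℤ) < M := by exact_mod_cast hM
  simp only [blowD, Finset.mem_biUnion, Finset.mem_product, Finset.mem_Ico, ← div_iff hM']
  exact ⟨fun ⟨q, h, a, b⟩ => by rwa [a, b], fun h => ⟨_, h, rfl, rfl⟩⟩

/-- the tiles along a blown up dart -/
theorem fc_div (hM : 0 < M) (v : V) (d : Fin 4) {r : ℤ} (h0 : 0 ≤ r) (h1 : r < M) :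
    ((fc (M • v + r • u d) d).1 / M, (fc (M • v + r • u d) d).2 / M) = fc v d ∧
    ((fc (M • v + r • u d) (d + 1)).1 / M, (fc (M • v + r • u d) (d + 1)).2 / M) = fc v (d + 1) := by
  have hM' : (0 : ℤ) < M := by exact_mod_cast hM
  rcases cases4 d with rfl | rfl | rfl | rfl <;>
    simp [Prod.ext_iff, div_iff hM', mul_sub] <;> omega

theorem exists_div (hM : 0 < M) (v : V) (d : Fin 4)
    (h : ((fc v d).1 / M, (fc v d).2 / M) ≠ ((fc v (d + 1)).1 / M, (fc v (d + 1)).2 / M)) :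
    ∃ w : V, ∃ r : ℕ, r < M ∧ v = M • w + (r : ℤ) • u d := by
  have hM' : (0 : ℤ) < M := by exact_mod_cast hM
  have k1 : ∀ x : ℤ, (x - 1) / M ≠ x / M → x = M * (x / M) := fun x hx => by
    have := (div_iff hM').1 (rfl : x / M = x / M)
    rw [Ne, div_iff hM'] at hx
    omega
  have k2 : ∀ x : ℤ, ∃ (q : ℤ) (r : ℕ), r < M ∧ x = M * q + r := fun x =>
    ⟨x / M, (x % M).toNat, by have := Int.emod_lt_of_pos x hM'; omega, by
      have := Int.emod_nonneg x hM'.ne'
      have := Int.mul_ediv_add_emod x M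
      omega⟩
  obtain ⟨x, y⟩ := v
  rcases cases4 d with rfl | rfl | rfl | rfl <;> simp at h
  · obtain ⟨q, r, a, b⟩ := k2 x
    exact ⟨(q, y / M), r, a, by simpa [← k1 y h] using b⟩
  · obtain ⟨q, r, a, b⟩ := k2 y
    exact ⟨(x / M, q), r, a, by simpa [← k1 x (Ne.symm h)] using b⟩
  · obtain ⟨q, r, a, b⟩ := k2 (-x)
    exact ⟨(-q, y / M), r, a, by simp [← k1 y (Ne.symm h)]; omega⟩
  · obtain ⟨q, r, a, b⟩ := k2 (-y)
    exact ⟨(x / M, -q), r, a, by simp [← k1 x h]; omega⟩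

theorem blow_inj {v w : V} {d d' : Fin 4} {r s : ℤ} (hr : 0 ≤ r) (hr' : r < M) (hs : 0 ≤ s)
    (hs' : s < M) (h : M • v + r • u d = M • w + s • u d') :
    (v = w ∧ r = s) ∨ (w = v + u d ∧ d' = d + 2) := by
  have k : ∀ {p q r s : ℤ}, 0 ≤ r → r < M → 0 ≤ s → s < M → M * p + r = M * q - s →
      (p = q ∧ r = 0 ∧ s = 0) ∨ q = p + 1 := fun {p q r s} a b c e f => by
    rcases c.eq_or_lt with rfl | c
    · have := mul_add_inj a b le_rfl e (by simpa using f)
      omega
    · have := mul_add_inj (p := p) (q := q - 1) (s := M - s) a b (by omega) (by omega)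
        (by rw [f]; ring)
      omega
  have h0 : (0 : ℤ) < M := by omega
  have z : ∀ {p q : ℤ}, M * p = M * q → p = q := fun a => mul_left_cancel₀ h0.ne' a
  have a1 : ∀ {p q r : ℤ}, 0 ≤ r → r < M → M * p + r = M * q → p = q ∧ r = 0 := fun a b c =>
    mul_add_inj a b le_rfl h0 (by simpa using c)
  obtain ⟨x, y⟩ := v
  obtain ⟨x', y'⟩ := w
  rcases cases4 d with rfl | rfl | rfl | rfl <;> rcases cases4 d' with rfl | rfl | rfl | rfl <;>
    simp only [u0, u1, u2, u3, Prod.smul_mk, Prod.mk_add_mk, Prod.mk.injEq, nsmul_eq_mul,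
      smul_eq_mul, mul_one, mul_zero, add_zero, mul_neg, a02, a12, a22, a32, ← sub_eq_add_neg]
      at h ⊢ <;> obtain ⟨h1, h2⟩ := h
  · have := mul_add_inj hr hr' hs hs' h1; have := z h2; omega
  · have := a1 hr hr' h1; have := a1 hs hs' h2.symm; omega
  · have := k hr hr' hs hs' h1; have := z h2; simp; omega
  · have := a1 hr hr' h1; have := a1 (p := y) (q := y') hs hs' (by omega); omega
  · have := a1 hr hr' h2; have := a1 hs hs' h1.symm; omega
  · have := mul_add_inj hr hr' hs hs' h2; have := z h1; omega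
  · have := a1 hr hr' h2; have := a1 (p := x) (q := x') hs hs' (by omega); omega
  · have := k hr hr' hs hs' h2; have := z h1; simp; omega
  · have := k hs hs' hr hr' h1.symm; have := z h2; simp; omega
  · have := a1 (p := x') (q := x) hr hr' (by omega); have := a1 hs hs' h2.symm; omega
  · have := mul_add_inj (p := x) (q := x') hs hs' hr hr' (by omega); have := z h2; omega
  · have := a1 (p := x') (q := x) hr hr' (by omega)
    have := a1 (p := y) (q := y') hs hs' (by omega); omega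
  · have := a1 (p := y') (q := y) hr hr' (by omega); have := a1 hs hs' h1.symm; omega
  · have := k hs hs' hr hr' h2.symm; have := z h1; simp; omega
  · have := a1 (p := y') (q := y) hr hr' (by omega)
    have := a1 (p := x) (q := x') hs hs' (by omega); omega
  · have := mul_add_inj (p := y) (q := y') hs hs' hr hr' (by omega); have := z h1; omega

theorem smul_succ (r : ℕ) (v : V) : ((r + 1 : ℕ) : ℤ) • v = (r : ℤ) • v + v := by
  rw [Nat.cast_succ, add_smul, one_smul]

/-- the boundary vertices of the blow-up -/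
def blowC (M i : ℕ) : V := M • P.c (i / M) + ((i % M : ℕ) : ℤ) • u (P.dir (i / M))

theorem blowC_eq (i : ℕ) {r : ℕ} (hr : r < M) :
    P.blowC M (M * i + r) = M • P.c i + (r : ℤ) • u (P.dir i) := by
  rw [blowC, Nat.mul_add_div (by omega), Nat.div_eq_of_lt hr, add_zero, Nat.mul_add_mod,
    Nat.mod_eq_of_lt hr]

theorem blowC_step (hM : 0 < M) (i : ℕ) : P.blowC M (i + 1) = P.blowC M i + u (P.dir (i / M)) := by
  have h1 := Nat.mod_lt i hM
  rw [blowC.eq_1 P M i]
  nth_rewrite 1 [← Nat.div_add_mod i M]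
  rcases (Nat.succ_le_of_lt h1).eq_or_lt with h | h
  · rw [add_assoc, show i % M + 1 = M from h, ← Nat.mul_succ, ← add_zero (M * _), P.blowC_eq _ hM,
      P.step, smul_add, add_assoc, add_assoc, ← smul_succ, show i % M + 1 = M from h]
    simp
  · rw [add_assoc, P.blowC_eq _ h, add_assoc, smul_succ]

/-- the blow-up -/
noncomputable def blow (hM : 0 < M) : Dom where
  D := P.blowD M
  n := M * P.n
  c := P.blowC M
  dir i := P.dir (i / M)
  pos := Nat.mul_pos hM P.pos
  step := P.blowC_step hM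
  per i := by rw [Nat.add_mul_div_left _ _ hM, P.per]
  close := by
    have a := P.blowC_eq (M := M) P.n hM
    have b := P.blowC_eq (M := M) 0 hM
    simp only [add_zero, mul_zero, Nat.cast_zero, zero_smul] at a b
    rw [a, b, P.close]
  inj i hi j hj h := by
    have a : ∀ i : ℕ, ((i % M : ℕ) : ℤ) < M := fun i => by exact_mod_cast Nat.mod_lt i hM
    rcases blow_inj (Int.natCast_nonneg _) (a i) (Int.natCast_nonneg _) (a j) h with
      ⟨h1, h2⟩ | ⟨h1, h2⟩
    · rw [← Nat.div_add_mod i M, ← Nat.div_add_mod j M, Int.ofNat_inj.1 h2,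
        P.inj _ (Nat.div_lt_of_lt_mul hi) _ (Nat.div_lt_of_lt_mul hj) h1]
    · rw [← P.step] at h1
      exact absurd ((P.dir_eq h1).symm.trans h2) (P.dir_ne_back _)
  bdry v d := by
    rw [P.mem_blowD hM, P.mem_blowD hM]
    constructor
    · rintro ⟨h1, h2⟩
      obtain ⟨w, r, hr, rfl⟩ := exists_div hM v d fun h => h2 (h ▸ h1)
      obtain ⟨a, b⟩ := fc_div hM w d (Int.natCast_nonneg r) (by exact_mod_cast hr)
      obtain ⟨i, rfl, rfl⟩ := (P.bdry w d).1 ⟨b ▸ h1, a ▸ h2⟩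
      exact ⟨M * i + r, P.blowC_eq i hr, by
        rw [Nat.mul_add_div hM, Nat.div_eq_of_lt hr, add_zero]⟩
    · rintro ⟨i, rfl, rfl⟩
      obtain ⟨a, b⟩ := fc_div hM (P.c (i / M)) (P.dir (i / M)) (Int.natCast_nonneg (i % M))
        (by exact_mod_cast Nat.mod_lt i hM)
      rw [blowC, a, b]
      exact ⟨P.fc_in _, P.fc_out _⟩

variable {P} {P' : Dom}

theorem Blow.mem (h : P.Blow M P') (hM : 0 < M) {t : V} : t ∈ P'.D ↔ (t.1 / M, t.2 / M) ∈ P.D := by
  rw [h.D, P.mem_blowD hM]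

theorem Blow.dir' (h : P.Blow M P') (i : ℕ) {r : ℕ} (hr : r < M) : P'.dir (M * i + r) = P.dir i := by
  rw [h.dir, Nat.mul_add_div (by omega), Nat.div_eq_of_lt hr, add_zero]

theorem Blow.c' (h : P.Blow M P') (i : ℕ) {r : ℕ} (hr : r ≤ M) :
    P'.c (M * i + r) = M • P.c i + (r : ℤ) • u (P.dir i) := by
  induction r with
  | zero => simp [h.c]
  | succ r ih =>
    rw [← add_assoc, P'.step, ih (by omega), h.dir' i (by omega), add_assoc, smul_succ]

theorem Blow.ψ (h : P.Blow M P') (i : ℕ) : P'.ψ i = P.ψ (i / M) := by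
  induction i with
  | zero => simp [Dom.ψ]
  | succ i ih =>
    rw [Dom.ψ, Finset.sum_range_succ, ← Dom.ψ, ih, h.dir, h.dir, Nat.succ_div]
    split_ifs
    · rw [Dom.ψ.eq_1 P (_ + 1), Finset.sum_range_succ, Dom.ψ]
    · simp [tn]

theorem Blow.cvx (h : P.Blow M P') (hM : 0 < M) (i : ℕ) : P'.Cvx (M * i) ↔ P.Cvx i := by
  have := P.pos
  have e : M * i + M * P.n - 1 = M * (i + P.n - 1) + (M - 1) := by
    obtain ⟨m, hm⟩ : ∃ m, i + P.n = m + 1 := ⟨i + P.n - 1, by omega⟩
    rw [← mul_add, hm, Nat.add_sub_cancel, mul_add]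
    omega
  rw [Cvx, Cvx, h.n, e, h.dir' (i + P.n - 1) (by omega), ← mul_add, h.dir, Nat.mul_div_cancel_left _ hM]

end Dom

theorem arc_blow {M : ℕ} (hM : 0 < M) (k₁ k₂ i : ℕ) :
    arc (M * k₁) (M * k₂) i = arc k₁ k₂ (i / M) := by
  simp only [arc, Nat.div_lt_iff_lt_mul hM, mul_comm]

theorem s_blow : S_Blow := fun P M hM => ⟨P.blow hM, rfl, rfl, fun i => by
  simpa [Dom.blow] using P.blowC_eq i hM, fun _ => rfl⟩

end Pool.Agent.P.MP_6c8efb_pr.Cardy
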