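import Pool.Agent.P.MP_6c8efb_pr.Cardy.CLim
import Pool.Agent.P.MP_6c8efb_pr.Cardy.CMon
import Pool.Agent.P.MP_6c8efb_pr.Cardy.TBlow
import Pool.Agent.P.MP_6c8efb_pr.SLE.Iface

/-! The crossing formula in raw form. -/

open Complex Set Filter Topology Metric
open scoped Real

namespace Pool.Agent.P.MP_6c8efb_pr.Cardy

open Lim Arm

theorem mem_seg {P : Dom} {i j : ℕ} {z : ℂ} (h : z ∈ SLE.seg P.c i j) :
    ∃ k, i ≤ k ∧ k < j ∧ ∃ θ ∈ Icc (0 : ℝ) 1, z = Lim.sg P k θ := by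
  simp only [SLE.seg, mem_iUnion, segment_eq_image'] at h
  obtain ⟨k, hk, θ, hθ, rfl⟩ := h
  exact ⟨k, hk.1, hk.2, θ, hθ, by simp [Lim.sg, P.step, SLE.cx, toC, Complex.ext_iff]⟩

theorem s_CARDY (hCR : S_CR) (hV : S_Val) (hMod : S_Mod) (hNor : S_Nor) (hCor : S_Cor)
    (hCrs : S_Crs) : SLE.S_CARDY := by
  refine ⟨2, 1, one_pos, fun P s k₁ k₂ h0 h1 h2 h3 c0 c1 c2 ε hε => ?_⟩
  have hk : MkC P k₁ k₂ := ⟨⟨h0.trans h1, h2, h3⟩, c0, c1, c2⟩
  have : Nonempty Dom := ⟨P⟩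
  choose! P' hB using s_blow P
  refine mem_iff_ultrafilter.2 fun 𝒰 h𝒰 => ?_
  obtain ⟨f, a1, a2, a3, -, -, a4⟩ := lim_main hB h𝒰 hCR hV hMod hNor hCor hk
  have r3 : (0 : ℝ) < √3 := by positivity
  have r3' : √3 * √3 = 3 := Real.mul_self_sqrt (by norm_num)
  have gre : ∀ w : ℂ, (w / (√3 * I)).re = w.im / √3 ∧ (w / (√3 * I)).im = -w.re / √3 := fun w => by
    rw [mul_comm, ← div_div, div_ofReal_re, div_ofReal_im, div_I]
    simp
  have tl : ∀ j < k₁, ∀ θ ∈ Icc (0 : ℝ) 1, Tendsto (fun M => (FF P' k₁ k₂ M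
      ((P' M).c (M * j + ⌊θ * M⌋₊))).im) 𝒰 (𝓝 (f (Lim.sg P j θ)).im) := fun j hj θ hθ => by
    simpa [arc, hj] using im_tendsto hB h𝒰 hj hθ (a4 j (by omega) θ hθ).2
  have ts := tl s h1 0 ⟨le_rfl, zero_le_one⟩
  simp only [zero_mul, Nat.floor_zero, add_zero] at ts
  have fl : ∀ θ ∈ Icc (0 : ℝ) 1, ∀ M j : ℕ, M * j + ⌊θ * M⌋₊ ≤ M * (j + 1) := fun θ hθ M j =>
    Nat.add_le_add_left (Nat.floor_le_of_le (mul_le_of_le_one_left M.cast_nonneg hθ.2)) _
  have e3 : ζ ^ 3 = -1 := by linear_combination (ζ + 1) * zeta_sq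
  have re1 : ζ.re = 1 / 2 := by rw [zeta_eq]
  have im1 : ζ.im = √3 / 2 := by rw [zeta_eq]
  have hz := zeta_ne
  have hI : (√3 * I : ℂ) = 2 * ζ - 1 := by rw [zeta_eq]; simp [Complex.ext_iff]; ring
  filter_upwards [h𝒰 (eventually_gt_atTop 0), Metric.tendsto_nhds.1 ts ε hε] with M hM hd
  have mk := mk_blow (hB M hM) hM hk.1
  simp only [one_mul]
  refine ⟨P' M, hB M hM, fun z => (f z - ζ ^ 5) / (√3 * I), (f (Lim.sg P s 0)).im / √3 + 1 / 2,
    (a1.sub continuousOn_const).div_const _, (a2.sub_const _).div_const _, fun z hz => ?_,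
    fun z hz => ?_, fun z hz => ?_, fun z hz => ?_, fun z hz => ?_, fun z hz => ?_, ?_⟩
  · rw [norm_div, div_le_iff₀ (by simp), norm_mul, norm_I, norm_real, Real.norm_of_nonneg r3.le]
    refine (norm_sub_le _ _).trans ?_
    rw [norm_pow, norm_zeta]
    nlinarith [a3 z hz]
  · obtain ⟨k, -, b2, θ, hθ, rfl⟩ := mem_seg hz
    have := (a4 k (by omega) θ hθ).1
    simp only [arc, b2, if_true, mul_zero, pow_zero, div_one] at this
    rw [(gre _).2, sub_re, this, zeta_five, sub_re, re1]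
    norm_num
  · obtain ⟨k, b1, b2, θ, hθ, rfl⟩ := mem_seg hz
    have := (a4 k (by omega) θ hθ).1
    simp only [arc, b2, b1.not_gt, if_true, if_false] at this
    rw [show ((f (Lim.sg P k θ) - ζ ^ 5) / (√3 * I) - 1) * SLE.om =
      (1 - ζ - f (Lim.sg P k θ) / ζ ^ (2 * 1)) / (√3 * I) from ?_, (gre _).2, sub_re, this, sub_re, re1]
    · norm_num
    · have : (√3 * I : ℂ) ≠ 0 := by simp
      rw [show SLE.om = ζ from rfl]
      field_simp
      linear_combination (f (Lim.sg P k θ) - ζ ^ 5 - √3 * I + 1) * e3 + hI + zeta_five - zeta_sq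
  · obtain ⟨k, b1, b2, θ, hθ, rfl⟩ := mem_seg hz
    have := (a4 k (by omega) θ hθ).1
    simp only [arc, b1.not_gt, (h2.le.trans b1).not_gt, if_false] at this
    rw [show ((f (Lim.sg P k θ) - ζ ^ 5) / (√3 * I)) / SLE.om =
      (ζ - f (Lim.sg P k θ) / ζ ^ (2 * 2)) / (√3 * I) from ?_, (gre _).2, sub_re, this, re1]
    · norm_num
    · have : (√3 * I : ℂ) ≠ 0 := by simp
      rw [show SLE.om = ζ from rfl]
      field_simp
      linear_combination (ζ * f (Lim.sg P k θ) - ζ ^ 6) * e3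
  · obtain ⟨k, -, b2, θ, hθ, rfl⟩ := mem_seg hz
    have := le_of_tendsto_of_tendsto (tl k (b2.trans h1) θ hθ) ts (h𝒰 ((eventually_gt_atTop 0).mono
      fun M hM => F_mono hV _ (mk_blow (hB M hM) hM hk.1)
        ((fl θ hθ M k).trans (Nat.mul_le_mul_left _ b2)) (Nat.mul_le_mul_left _ h1.le)))
    rw [(gre _).1, sub_im, zeta_five, sub_im, im1, div_add' _ _ _ r3.ne']
    gcongr
    simp
    linarith
  · obtain ⟨k, b1, b2, θ, hθ, rfl⟩ := mem_seg hz
    have := le_of_tendsto_of_tendsto ts (tl k b2 θ hθ) (h𝒰 ((eventually_gt_atTop 0).mono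
      fun M hM => F_mono hV _ (mk_blow (hB M hM) hM hk.1)
        ((Nat.mul_le_mul_left _ b1).trans (Nat.le_add_right _ _))
        ((fl θ hθ M k).trans (Nat.mul_le_mul_left _ b2))))
    rw [(gre _).1, sub_im, zeta_five, sub_im, im1, div_add' _ _ _ r3.ne']
    gcongr
    simp
    linarith
  · obtain ⟨b1, b2⟩ := hCrs _ _ _ (M * s) mk (Nat.mul_le_mul_left _ h1.le)
    obtain ⟨b3, b4⟩ := crs_le _ mk (Nat.mul_le_mul_left M h1.le)
    rw [Real.dist_eq] at hd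
    have b5 : |2 / √3 * (FF P' k₁ k₂ M ((P' M).c (M * s))).im - 2 * ((f (Lim.sg P s 0)).im / √3)| ≤
        2 * ε := by
      rw [show ∀ x y : ℝ, 2 / √3 * x - 2 * (y / √3) = 2 / √3 * (x - y) from fun x y => by ring,
        abs_mul, abs_of_pos (by positivity)]
      gcongr
      exact div_le_self zero_le_two (by nlinarith)
    rw [abs_le] at b5
    simp only [SLE.TP, ← (hB M hM).n, abs_le]
    refine ⟨⟨?_, ?_⟩, ?_, ?_⟩ <;> linarith [b5.1, b5.2]

end Pool.Agent.P.MP_6c8efb_pr.Cardy
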