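import Pool.Agent.P.MP_6c8efb_pr.Cardy.TDom

/-! The two sides of a strand. -/

namespace Pool.Agent.P.MP_6c8efb_pr.Cardy

open Arm (TC Pt TConn)

variable {τ : TC}

/-- a property of vertices which changes along paired sides in the same way is constant along
open diagonals -/
theorem link_const {D : Finset V} {A : Type*} [AddCommGroup A] (h2 : ∀ x : A, x + x = 0)
    {φ : V → A} {χ : E → A} (h : ∀ e ∈ sd D, φ (hd e) - φ e.1 = χ e)
    (hχ : ∀ t ∈ D, ∀ e ∈ sd1 t, χ (prt (τ t) t e) = χ e) {x y : V} (hl : Arm.link τ D x y) :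
    φ x = φ y := by
  have key : ∀ t ∈ D, φ (Arm.ends τ t).1 = φ (Arm.ends τ t).2 := fun t ht => by
    have a1 := h _ (mem_sd_of ht (mem_sd1_iff.2 (Or.inl rfl)))
    have a2 := h _ (mem_sd_of ht (mem_sd1_iff.2 (Or.inr (Or.inl rfl))))
    have a3 := h _ (mem_sd_of ht (mem_sd1_iff.2 (Or.inr (Or.inr (Or.inr rfl)))))
    have a4 := hχ t ht _ (mem_sd1_iff.2 (Or.inl rfl))
    rw [prt_bot] at a4
    unfold Arm.ends
    cases hb : τ t <;> simp only [hb, Bool.false_eq_true, if_false, if_true] at a4 ⊢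
    · rw [← a1, ← a2] at a4
      exact (sub_left_inj.1 a4).symm
    · rw [← a3] at a4
      rw [← a4] at a1
      simp only [bot, rgt, hd_true, hd_false] at a1
      have := h2 (φ (t.1 + 1, t.2 + 1) - φ (t.1 + 1, t.2))
      nth_rewrite 1 [← a1] at this
      rw [add_comm, sub_add_sub_cancel] at this
      exact (sub_eq_zero.1 this).symm
  obtain ⟨t, ht, a | a⟩ := hl <;> have := key t ht <;> rw [a] at this
  exacts [this, this.symm]

namespace Dom

variable {P : Dom} {i j : ℕ} {v w : V}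

/-- the moves which do not cross the strand through `b i` -/
def Mv (P : Dom) (τ : TC) (i : ℕ) (x y : V) : Prop :=
  Arm.link τ P.D x y ∨ ∃ d, y = x + u d ∧ edge x d ∈ sd P.D ∧ ¬Same τ P.D (P.b i) (edge x d)

theorem Mv.side {e : E} (he : e ∈ sd P.D) (h : ¬Same τ P.D (P.b i) e) :
    P.Mv τ i e.1 (hd e) ∧ P.Mv τ i (hd e) e.1 := by
  obtain ⟨d, -, h1, h2⟩ := exists_dart e
  exact ⟨Or.inr ⟨d, h2.symm, h1.symm ▸ he, h1.symm ▸ h⟩, Or.inr ⟨d + 2, by rw [← h2, u_back],
    by rwa [← h2, edge_back, h1], by rwa [← h2, edge_back, h1]⟩⟩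

theorem mv_tconn {x : V} (h : TConn τ P.D v w) (h' : Relation.ReflTransGen (P.Mv τ i) x v) :
    Relation.ReflTransGen (P.Mv τ i) x w :=
  h.ind (P := fun w => Relation.ReflTransGen (P.Mv τ i) x w) h' fun _ _ _ a b => b.tail (Or.inl a)

/-- clusters do not cross strands -/
theorem inn_tconn (h : TConn τ P.D v w) : P.Inn τ i v ↔ P.Inn τ i w :=
  ⟨mv_tconn h, mv_tconn h.symm'⟩

theorem inn_side {e : E} (he : e ∈ sd P.D) (h : ¬Same τ P.D (P.b i) e) :
    P.Inn τ i e.1 ↔ P.Inn τ i (hd e) :=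
  ⟨fun a => a.tail (Mv.side he h).1, fun a => a.tail (Mv.side he h).2⟩

theorem Inn.mem (h : P.Inn τ i v) : v ∈ vx P.D := by
  rcases h.cases_tail with rfl | ⟨x, -, a | ⟨d, rfl, a, -⟩⟩
  · exact P.c_mem_vx _
  · obtain ⟨s, t, h1, ⟨-, ⟨-, rfl⟩ | ⟨rfl, -⟩⟩ | ⟨-, ⟨-, rfl⟩ | ⟨rfl, -⟩⟩⟩ := Arm.link_iff.1 a
    · exact mem_vx.2 ⟨3, by simpa using h1⟩
    · exact mem_vx.2 ⟨1, by simpa using h1⟩
    · exact mem_vx.2 ⟨0, by simpa using h1⟩
    · exact mem_vx.2 ⟨2, by simpa using h1⟩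
  · rcases edge_ends x d with ⟨-, b⟩ | ⟨b, -⟩ <;> rw [← b]
    exacts [hd_mem_vx a, fst_mem_vx a]

/-- every vertex is reached from one of the two ends of the side `b i` -/
theorem mv_cover (P : Dom) (τ : TC) (i : ℕ) : ∀ v ∈ vx P.D,
    P.Inn τ i v ∨ Relation.ReflTransGen (P.Mv τ i) (P.c i) v := by
  refine P.vx_ind (i := i) (Or.inr .refl) fun e he => ?_
  by_cases h : Same τ P.D (P.b i) e
  · obtain ⟨a, b⟩ := h.tconn
    have : ∀ v, (v = lv e ∨ v = rv e) → P.Inn τ i v ∨ Relation.ReflTransGen (P.Mv τ i) (P.c i) v := by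
      rcases P.b_lr i with ⟨p, q⟩ | ⟨p, q⟩ <;> rw [p] at a <;> rw [q] at b <;> rintro v (rfl | rfl)
      exacts [Or.inr (mv_tconn a .refl), Or.inl (mv_tconn b .refl), Or.inl (mv_tconn a .refl),
        Or.inr (mv_tconn b .refl)]
    rcases lv_rv e with ⟨p, q⟩ | ⟨p, q⟩
    · exact iff_of_true (this _ (Or.inl p.symm)) (this _ (Or.inr q.symm))
    · exact iff_of_true (this _ (Or.inr q.symm)) (this _ (Or.inl p.symm))
  · exact or_congr (inn_side he h)
      ⟨fun a => a.tail (Mv.side he h).1, fun a => a.tail (Mv.side he h).2⟩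

open Classical in
/-- the parity of the number of crossings of a strand -/
theorem Str.exists_par (h : P.Str τ i j) : ∃ φ : V → ZMod 2,
    (∀ e ∈ sd P.D, φ (hd e) - φ e.1 = if Same τ P.D (P.b i) e then 1 else 0) ∧
    (∀ m ≤ P.n, φ (P.c m) = if i < m ∧ m ≤ j then 1 else 0) ∧
    ∀ v ∈ vx P.D, (P.Inn τ i v ↔ φ v = 1) := by
  have h1 := h.1
  have h2 := h.2.1
  have hχ : ∀ t ∈ P.D, ∀ e ∈ sd1 t, (if Same τ P.D (P.b i) (prt (τ t) t e) then (1 : ZMod 2) else 0) =
      if Same τ P.D (P.b i) e then 1 else 0 := fun t ht e he =>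
    if_congr (same_prt ht he).congr.symm rfl rfl
  obtain ⟨φ, a, b⟩ := P.exists_pot' (fun e => if Same τ P.D (P.b i) e then (1 : ZMod 2) else 0)
    (fun m => if i < m ∧ m ≤ j then 1 else 0) (by rw [if_neg (by omega), if_neg (by omega)])
    (fun t ht => by
      have a1 := hχ t ht _ (mem_sd1_iff.2 (Or.inl rfl))
      have a2 := hχ t ht _ (mem_sd1_iff.2 (Or.inr (Or.inr (Or.inl rfl))))
      rw [prt_bot] at a1
      rw [prt_top] at a2
      cases hb : τ t <;> simp only [hb, Bool.false_eq_true, if_false, if_true] at a1 a2 <;>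
        rw [a1, a2]
      rw [CharTwo.add_self_eq_zero, CharTwo.add_self_eq_zero])
    fun m hm => by
      have : ∀ x : ZMod 2, sg (P.dir m) • x = x := fun x => by
        rcases cases4 (P.dir m) with a | a | a | a <;> simp [a]
      rw [this]
      simp only [h.same_iff hm]
      split_ifs <;> first | rfl | omega
  have mv : ∀ {x y}, Relation.ReflTransGen (P.Mv τ i) x y → φ x = φ y := fun {x y} hxy => by
    induction hxy with
    | refl => rfl
    | tail _ c ih =>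
      rw [ih]
      rcases c with c | ⟨d, rfl, c, c'⟩
      · exact link_const CharTwo.add_self_eq_zero a hχ c
      · have := a _ c
        rw [if_neg c', sub_eq_zero] at this
        rcases edge_ends _ d with ⟨p, q⟩ | ⟨p, q⟩ <;> rw [p, q] at this
        exacts [this.symm, this]
  refine ⟨φ, a, b, fun v hv => ⟨fun c => ?_, fun c => (P.mv_cover τ i v hv).resolve_right fun d => ?_⟩⟩
  · rw [← mv c, b _ (by omega), if_pos (by omega)]
  · rw [← mv d, b _ (by omega), if_neg (by omega)] at c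
    exact zero_ne_one c

/-- the side of the strand changes exactly along the sides of the strand -/
theorem Str.inn_side (h : P.Str τ i j) {e : E} (he : e ∈ sd P.D) :
    (P.Inn τ i e.1 ↔ P.Inn τ i (hd e)) ↔ ¬Same τ P.D (P.b i) e := by
  refine ⟨fun h1 h2 => ?_, Dom.inn_side he⟩
  obtain ⟨φ, a, -, c⟩ := h.exists_par
  have := a e he
  rw [c _ (fst_mem_vx he), c _ (hd_mem_vx he)] at h1
  rw [if_pos h2] at this
  revert h1 this
  generalize φ (hd e) = x
  generalize φ e.1 = y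
  revert x y
  decide

theorem Str.inn_c (h : P.Str τ i j) {m : ℕ} (hm : m ≤ P.n) : P.Inn τ i (P.c m) ↔ i < m ∧ m ≤ j := by
  obtain ⟨φ, -, b, c⟩ := h.exists_par
  rw [c _ (P.c_mem_vx m), b m hm]
  simp

theorem Str.inn_lr (h : P.Str τ i j) {e : E} (he : Same τ P.D (P.b i) e) :
    (P.Inn τ i (rv e) ↔ tin (P.b i) ∈ P.D) ∧ (P.Inn τ i (lv e) ↔ tin (P.b i) ∉ P.D) := by
  have h1 := h.1
  have h2 := h.2.1
  have a := h.inn_c (m := i) (by omega)
  have b := h.inn_c (m := i + 1) (by omega)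
  rw [← inn_tconn he.tconn.1, ← inn_tconn he.tconn.2]
  by_cases hp : Even ((P.c i).1 + (P.c i).2)
  · obtain ⟨p, -, q, r⟩ := P.b_even hp
    rw [q, r, a, b]
    exact ⟨iff_of_true (by omega) p, iff_of_false (by omega) (not_not.2 p)⟩
  · obtain ⟨p, -, q, r⟩ := P.b_odd hp
    rw [q, r, a, b]
    exact ⟨iff_of_false (by omega) p, iff_of_true (by omega) p⟩

/-- another class lies on one side of a strand -/
theorem inn_other {e e' : E} (he : e ∈ sd P.D) (h : ¬Same τ P.D (P.b i) e) (h' : Same τ P.D e e') :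
    (P.Inn τ i e.1 ↔ P.Inn τ i e'.1) ∧ (P.Inn τ i e.1 ↔ P.Inn τ i (hd e')) := by
  have a := inn_side he h
  have b := inn_side (h'.mem he) fun c => h (c.trans' h'.symm')
  have c := inn_tconn (i := i) h'.tconn.1
  rcases lv_rv e with ⟨p, -⟩ | ⟨p, -⟩ <;> rcases lv_rv e' with ⟨q, -⟩ | ⟨q, -⟩ <;>
    rw [p, q] at c <;> tauto

/-- strands do not cross -/
theorem Str.nest {i' j' : ℕ} (h : P.Str τ i j) (h' : P.Str τ i' j') (hi : i < i') :
    j < i' ∨ j' < j := by
  have h1 := h.1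
  have h2 := h.2.1
  have h3 := h'.1
  have h4 := h'.2.1
  have hs : ¬Same τ P.D (P.b i) (P.b i') := fun a => hi.ne (h.eq_of_same h' a).1
  have n1 : i' ≠ j := by rintro rfl; exact hs h.2.2
  have n2 : j' ≠ j := by rintro rfl; exact hs (h.2.2.trans' h'.2.2.symm')
  have a := (inn_other (P.b_mem_sd i') hs h'.2.2).1
  rcases P.b_ends i' with ⟨p, -⟩ | ⟨p, -⟩ <;> rcases P.b_ends j' with ⟨q, -⟩ | ⟨q, -⟩ <;>
    rw [p, q, h.inn_c (by omega), h.inn_c (by omega)] at a <;> omega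

/-- the inner side of a nested strand is contained in the inner side of the outer strand -/
theorem Str.inn_sub {i' j' : ℕ} (h : P.Str τ i j) (h' : P.Str τ i' j') (hi : i ≤ i') (hj : j' ≤ j)
    (hv : P.Inn τ i' v) : P.Inn τ i v := by
  rcases hi.eq_or_lt with rfl | hi
  · exact hv
  have h1 := h.1
  have h2 := h.2.1
  have h3 := h'.1
  have hs : ¬Same τ P.D (P.b i') (P.b i) := fun a => hi.ne (h.eq_of_same h' a.symm').1
  have out : ∀ e, Same τ P.D (P.b i) e → ¬P.Inn τ i' e.1 ∧ ¬P.Inn τ i' (hd e) := fun e he => by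
    obtain ⟨a, b⟩ := inn_other (P.b_mem_sd i) hs he
    rw [← a, ← b, and_self]
    rcases P.b_ends i with ⟨p, -⟩ | ⟨p, -⟩ <;> rw [p, h'.inn_c (by omega)] <;> omega
  induction hv with
  | refl => exact (h.inn_c (by omega)).2 (by omega)
  | tail a c ih =>
    refine ih.tail (c.imp_right fun ⟨d, p, q, _⟩ => ⟨d, p, q, fun s => ?_⟩)
    obtain ⟨s1, s2⟩ := out _ s
    rcases edge_ends _ d with ⟨x, -⟩ | ⟨-, x⟩
    exacts [s1 (x.symm ▸ a), s2 (x.symm ▸ a)]

/-- the inner sides of two strands side by side are disjoint -/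
theorem Str.inn_disj {i' j' : ℕ} (h : P.Str τ i j) (h' : P.Str τ i' j') (hi : j < i')
    (hv : P.Inn τ i v) : ¬P.Inn τ i' v := by
  have h1 := h.1
  have h3 := h'.1
  have h4 := h'.2.1
  have hs : ¬Same τ P.D (P.b i) (P.b i') := fun a => by have := (h.eq_of_same h' a).1; omega
  have out : ∀ e, Same τ P.D (P.b i') e → ¬P.Inn τ i e.1 ∧ ¬P.Inn τ i (hd e) := fun e he => by
    obtain ⟨a, b⟩ := inn_other (P.b_mem_sd i') hs he
    rw [← a, ← b, and_self]
    rcases P.b_ends i' with ⟨p, -⟩ | ⟨p, -⟩ <;> rw [p, h.inn_c (by omega)] <;> omega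
  induction hv with
  | refl => exact fun a => by have := (h'.inn_c (by omega)).1 a; omega
  | @tail z _ a c ih =>
    rcases c with c | ⟨d, rfl, q, -⟩
    · exact fun s => ih ((inn_tconn c.conn).2 s)
    · by_cases s : Same τ P.D (P.b i') (edge z d)
      · obtain ⟨s1, s2⟩ := out _ s
        rcases edge_ends _ d with ⟨x, -⟩ | ⟨-, x⟩
        exacts [absurd (x.symm ▸ a) s1, absurd (x.symm ▸ a) s2]
      · have := Dom.inn_side q s
        rcases edge_ends _ d with ⟨x, y⟩ | ⟨x, y⟩ <;> rw [x, y] at this <;> tauto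

end Dom

theorem s_top1 : S_Top1 := fun P τ =>
  ⟨P.bd_eq, fun _ hi _ hj => P.b_inj hi hj, fun _ hi => P.partner τ hi,
    fun _ _ h => ⟨fun _ he => h.inn_side he, fun _ hm => h.inn_c hm⟩⟩

end Pool.Agent.P.MP_6c8efb_pr.Cardy
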