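import Pool.Agent.P.MP_6c8efb_pr.Cardy.RMod
import Pool.Agent.P.MP_6c8efb_pr.Cardy.TInn

/-! Crossing probabilities and the values of the observable at the marked vertices. -/

open Complex MeasureTheory
open scoped Real

namespace Pool.Agent.P.MP_6c8efb_pr.Cardy

open Arm (TC Pt TConn)

namespace CrsA

variable {P : Dom} {τ : TC} {k₁ k₂ i j s a b : ℕ} {v w : V} {r R : ℤ}

/-- the two banks of a strand -/
theorem bank (h : P.Str τ i j) :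
    TConn τ P.D (P.c (i + 1)) (P.c j) ∧ TConn τ P.D (P.c i) (P.c (j + 1)) := by
  have h1 := h.1
  have h2 := h.2.1
  obtain ⟨p, q⟩ := h.2.2.tconn
  rcases P.b_lr i with ⟨a1, a2⟩ | ⟨a1, a2⟩ <;> rcases P.b_lr j with ⟨b1, b2⟩ | ⟨b1, b2⟩ <;>
    rw [a1, b1] at p <;> rw [a2, b2] at q
  · have := Dom.inn_tconn (i := i) p
    rw [h.inn_c (by omega), h.inn_c (by omega)] at this
    omega
  · exact ⟨q, p⟩
  · exact ⟨p, q⟩
  · have := Dom.inn_tconn (i := i) q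
    rw [h.inn_c (by omega), h.inn_c (by omega)] at this
    omega

theorem orb1 (h1 : s ≤ a) (h2 : a ≤ b) (h3 : b ≤ P.n)
    (hn : ∀ i j, P.Str τ i j → s ≤ i → i < a → j < b) :
    ∃ x y, x ≤ s ∧ a ≤ y ∧ y ≤ b ∧ TConn τ P.D (P.c x) (P.c y) := by
  have key : ∀ k m x, a - m < k → s ≤ m → m ≤ a → x ≤ s → TConn τ P.D (P.c x) (P.c m) →
      ∃ x y, x ≤ s ∧ a ≤ y ∧ y ≤ b ∧ TConn τ P.D (P.c x) (P.c y) := by
    intro k
    induction k with
    | zero => intro m x h; omega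
    | succ k ih =>
      intro m x e1 e2 e3 e4 e5
      rcases e3.eq_or_lt with rfl | e3
      · exact ⟨x, m, e4, le_rfl, h2, e5⟩
      obtain ⟨i, j, hs, rfl | rfl⟩ := Dom.exists_str (P := P) τ (k := m) (by omega)
      · have f1 := hn _ _ hs e2 e3
        have f2 := hs.1
        by_cases f3 : a ≤ j + 1
        · exact ⟨x, j + 1, e4, f3, f1, e5.trans' (bank hs).2⟩
        · exact ih (j + 1) x (by omega) (by omega) (by omega) e4 (e5.trans' (bank hs).2)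
      · have f2 := hs.1
        by_cases f3 : i ≤ s
        · exact ih (m + 1) i (by omega) (by omega) (by omega) f3 (bank hs).2
        · have := Dom.inn_tconn (i := i) e5
          rw [hs.inn_c (by omega), hs.inn_c (by omega)] at this
          omega
  exact key (a - s + 1) s s (by omega) le_rfl h1 le_rfl .refl'

theorem orb2 (h1 : s ≤ a) (h2 : a ≤ b) (h3 : b ≤ P.n)
    (hn : ∀ i j, P.Str τ i j → i < s → a ≤ j → b ≤ j) :
    ∃ x y, s ≤ x ∧ x ≤ a ∧ b ≤ y ∧ y ≤ P.n ∧ TConn τ P.D (P.c x) (P.c y) := by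
  have key : ∀ k m x, m < k → m ≤ s → s ≤ x → x ≤ a → TConn τ P.D (P.c x) (P.c m) →
      ∃ x y, s ≤ x ∧ x ≤ a ∧ b ≤ y ∧ y ≤ P.n ∧ TConn τ P.D (P.c x) (P.c y) := by
    intro k
    induction k with
    | zero => intro m x h; omega
    | succ k ih =>
      intro m x e1 e2 e3 e4 e5
      rcases m with _ | m
      · exact ⟨x, P.n, e3, e4, h3, le_rfl, P.close ▸ e5⟩
      obtain ⟨i, j, hs, rfl | rfl⟩ := Dom.exists_str (P := P) τ (k := m) (by omega)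
      · have f2 := hs.1
        have f4 := hs.2.1
        by_cases f3 : a ≤ j
        · exact ⟨x, j, e3, e4, hn _ _ hs (by omega) f3, f4.le, e5.trans' (bank hs).1⟩
        by_cases f5 : s ≤ j + 1
        · exact ih m (j + 1) (by omega) (by omega) f5 (by omega) (bank hs).2.symm'
        · have := Dom.inn_tconn (i := m) e5
          rw [hs.inn_c (by omega), hs.inn_c (by omega)] at this
          omega
      · have f2 := hs.1
        exact ih i x (by omega) (by omega) e3 e4 (e5.trans' (bank hs).2.symm')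
  exact key (s + 1) s s (by omega) le_rfl le_rfl h1 .refl'

theorem arc0 : arc k₁ k₂ i = 0 ↔ i < k₁ := by unfold arc; split_ifs <;> simp <;> omega
theorem arc1 : arc k₁ k₂ i = 1 ↔ k₁ ≤ i ∧ i < k₂ := by unfold arc; split_ifs <;> simp <;> omega
theorem arc2 : arc k₁ k₂ i = 2 ↔ k₁ ≤ i ∧ k₂ ≤ i := by unfold arc; split_ifs <;> simp <;> omega

theorem sec0 : P.Sec k₁ k₂ τ 0 v ↔
    ∃ i j, P.Str τ i j ∧ i < k₁ ∧ (k₁ ≤ j ∧ k₂ ≤ j) ∧ ¬P.Inn τ i v := by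
  simp only [Dom.Sec, if_true, arc0, arc2]

theorem sec1 : P.Sec k₁ k₂ τ 1 v ↔
    ∃ i j, P.Str τ i j ∧ i < k₁ ∧ (k₁ ≤ j ∧ j < k₂) ∧ P.Inn τ i v := by
  simp only [Dom.Sec, one_ne_zero, if_false, Nat.add_eq_right, arc0, arc1]

theorem sec2 : P.Sec k₁ k₂ τ 2 v ↔
    ∃ i j, P.Str τ i j ∧ (k₁ ≤ i ∧ i < k₂) ∧ (k₁ ≤ j ∧ k₂ ≤ j) ∧ P.Inn τ i v := by
  simp only [Dom.Sec, two_ne_zero, if_false, arc1, arc2,
    show ∀ x : ℕ, x + 1 = 2 ↔ x = 1 from fun x => by omega]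

theorem im_ζ : ζ.im = Real.sqrt 3 / 2 := by
  rw [ζ, show (π / 3 * I : ℂ) = (π / 3 : ℝ) * I by push_cast; ring, exp_ofReal_mul_I_im,
    Real.sin_pi_div_three]

theorem im_ζ5 : (ζ ^ 5).im = -(Real.sqrt 3 / 2) := by
  rw [ζ, ← exp_nat_mul, show ((5 : ℕ) * (π / 3 * I) : ℂ) = (2 * π - π / 3 : ℝ) * I by
    push_cast; ring, exp_ofReal_mul_I_im, Real.sin_two_pi_sub, Real.sin_pi_div_three]

open Classical in
/-- the imaginary part of the observable on the first arc -/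
theorem im_val (hk : Mk P k₁ k₂) (hs : s ≤ k₁) : 2 / Real.sqrt 3 * (P.val k₁ k₂ τ (P.c s)).im =
    if P.Sec k₁ k₂ τ 0 (P.c s) then -1 else if P.Sec k₁ k₂ τ 1 (P.c s) then 1 else 0 := by
  obtain ⟨g0, g1, g2⟩ := hk
  have h3 : Real.sqrt 3 ≠ 0 := by positivity
  have e2 : ¬P.Sec k₁ k₂ τ 2 (P.c s) := by
    rw [sec2]
    rintro ⟨i, j, h, a1, -, a3⟩
    rw [h.inn_c (by omega)] at a3
    omega
  have e3 : ∀ m, m ≠ 0 → P.pock k₁ k₂ τ m (P.c s) = ∅ := fun m hm => by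
    refine Finset.filter_eq_empty_iff.2 fun p hp ⟨a1, _, a3⟩ => hm ?_
    rw [(Dom.mem_strs.1 hp).inn_c (by omega)] at a3
    rw [← a1, arc0]
    omega
  unfold Dom.val
  rw [if_neg e2]
  split_ifs
  · rw [im_ζ5]; field_simp
  · rw [im_ζ]; field_simp
  · simp only [Finset.sum_range_succ, Finset.sum_range_zero, e3 1 one_ne_zero, e3 2 two_ne_zero]
    split_ifs <;> simp_all

theorem loc_crs (P : Dom) (κ : ℤ) (a a' b b' : ℕ) : Loc (P.Crs κ a a' b b') :=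
  ⟨P.D, P.D.finite_toSet, fun _ _ hτ ⟨i, j, h1, h2, h3, h4, h5, h6⟩ =>
    ⟨i, j, h1, h2, h3, h4, h5, h6.mono subset_rfl hτ⟩⟩

theorem crs_one {a a' b b' x y : ℕ} (h1 : a ≤ x) (h2 : x ≤ a') (h3 : b ≤ y) (h4 : y ≤ b')
    (h : TConn τ P.D (P.c x) (P.c y)) : τ ∈ P.Crs 0 a a' b b' ∨ τ ∈ P.Crs 1 a a' b b' :=
  (Int.emod_two_eq_zero_or_one ((P.c x).1 + (P.c x).2)).imp
    (fun e => ⟨x, y, h1, h2, h3, h4, e, h⟩) fun e => ⟨x, y, h1, h2, h3, h4, e, h⟩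

theorem crs_both {a a' b b' : ℕ} (h : P.Str τ i j) (h1 : a ≤ i) (h2 : i < a') (h3 : b ≤ j)
    (h4 : j < b') : τ ∈ P.Crs 0 a a' b b' ∧ τ ∈ P.Crs 1 a a' b b' := by
  obtain ⟨p, q⟩ := bank h
  have c1 := P.c_par i
  have c2 := P.c_par (i + 1)
  push_cast at c2
  rcases Int.emod_two_eq_zero_or_one ((P.c i).1 + (P.c i).2) with e | e
  · exact ⟨⟨i, j + 1, h1, h2.le, by omega, h4, e, q⟩,
      ⟨i + 1, j, by omega, h2, h3, h4.le, by omega, p⟩⟩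
  · exact ⟨⟨i + 1, j, by omega, h2, h3, h4.le, by omega, p⟩,
      ⟨i, j + 1, h1, h2.le, by omega, h4, e, q⟩⟩

theorem int_le {f : TC → ℝ} (hf' : LocF f) {A B : Set TC} (hA : Loc A) (hB : Loc B)
    (h : ∀ τ, f τ = -1 ∨ (f τ = 0 ∧ (τ ∈ A ∨ τ ∈ B)) ∨ (f τ = 1 ∧ τ ∈ A ∧ τ ∈ B)) :
    ∫ τ, f τ ∂(PM fun _ => hf) ≤ Pt A + Pt B - 1 := by
  have iA := (hA.locF_indicator 1).integrable fun _ => hf
  have iB := (hB.locF_indicator 1).integrable fun _ => hf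
  have e1 : (1 : ℝ) = ∫ _τ : TC, (1 : ℝ) ∂(PM fun _ => hf) := by simp
  have e2 := integral_sub (iA.add iB) (integrable_const (1 : ℝ))
  rw [← e1] at e2
  rw [Pt, Pt, Pr_eq_integral _ hA, Pr_eq_integral _ hB, ← integral_add iA iB]
  refine le_trans ?_ e2.le
  refine integral_mono (hf'.integrable _) ((iA.add iB).sub (integrable_const _)) fun τ => ?_
  have h1 := h τ
  clear e1 e2 iA iB h
  by_cases a : τ ∈ A <;> by_cases b : τ ∈ B <;>
    rcases h1 with e | ⟨e, e'⟩ | ⟨e, e'⟩ <;> simp [a, b, e] <;> first | tauto | norm_num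

theorem im_F (hV : S_Val) (hk : Mk P k₁ k₂) (c : ℝ) (v : V) : c * (P.F k₁ k₂ v).im =
    ∫ τ, c * (P.val k₁ k₂ τ v).im ∂(PM fun _ => hf) := by
  rw [integral_const_mul, Dom.F, ← RCLike.im_to_complex, ← integral_im
    (RM.integrable ((hV P k₁ k₂ hk).1 v) fun τ => ((hV P k₁ k₂ hk).2 τ).1 v)]
  rfl

/-- a strand which separates the ends of a path in a ball has both banks in the ball -/
theorem cross (hT : S_Top1) (h : P.Str τ i j) (hp : Nr P.D w r w v)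
    (hn : ¬(P.Inn τ i w ↔ P.Inn τ i v)) : (∃ x, dd w x ≤ r ∧ TConn τ P.D x (P.c (i + 1))) ∧
      ∃ x, dd w x ≤ r ∧ TConn τ P.D x (P.c i) := by
  by_contra hc
  refine hn (RM.nr_inn hT h hp fun x d h1 h2 h3 => hc ?_)
  obtain ⟨p, q⟩ := h3.symm'.tconn
  have : dd w (lv (edge x d)) ≤ r ∧ dd w (rv (edge x d)) ≤ r := by
    rcases lv_rv (edge x d) with ⟨a1, a2⟩ | ⟨a1, a2⟩ <;>
      rcases edge_ends x d with ⟨b1, b2⟩ | ⟨b1, b2⟩ <;> rw [a1, a2, b1, b2] <;> exact ⟨‹_›, ‹_›⟩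
  rcases P.b_lr i with ⟨a1, a2⟩ | ⟨a1, a2⟩ <;> rw [a1] at p <;> rw [a2] at q
  exacts [⟨⟨_, this.2, q⟩, _, this.1, p⟩, ⟨⟨_, this.1, p⟩, _, this.2, q⟩]

theorem nr_vx (hw : w ∈ vx P.D) {x : V} (hp : Nr P.D x r w v) : v ∈ vx P.D := by
  rcases hp.cases_tail with rfl | ⟨y, -, ⟨d, rfl, he⟩, -⟩
  · exact hw
  · rcases edge_ends y d with ⟨-, e⟩ | ⟨e, -⟩ <;> rw [← e]
    exacts [hd_mem_vx he, fst_mem_vx he]

theorem dd_self (w : V) : dd w w = 0 := by simp [dd]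

theorem arm0 (hT : S_Top1) (hk : Mk P k₁ k₂) (hr : 1 ≤ r) (hp : Nr P.D (P.c 0) r (P.c 0) v)
    (hR : ∀ y, k₁ ≤ y → y ≤ k₂ → R ≤ dd (P.c 0) (P.c y)) (hn : ¬P.Sec k₁ k₂ τ 0 v) :
    τ ∈ ArmC P.D (P.c 0) r R := by
  obtain ⟨g0, g1, g2⟩ := hk
  by_cases e : ∃ i, i < k₁ ∧ ∃ j, P.Str τ i j ∧ k₂ ≤ j
  · obtain ⟨i, ⟨a1, j, hs, a2⟩, hm⟩ := Set.exists_max_image
      {i | i < k₁ ∧ ∃ j, P.Str τ i j ∧ k₂ ≤ j} id ((Set.finite_lt_nat k₁).subset fun _ h => h.1) e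
    obtain ⟨x, y, b1, b2, b3, b4⟩ := orb1 (P := P) (τ := τ) (s := i + 1) (a := k₁) (b := k₂) a1
      g1.le g2.le fun i' j' hs' c1 c2 => by
        by_contra c3
        have := hm i' ⟨c2, j', hs', by omega⟩
        simp only [id] at this
        omega
    have c1 := Dom.inn_tconn (i := i) b4
    rw [hs.inn_c (by omega), hs.inn_c (by omega)] at c1
    obtain rfl : x = i + 1 := by omega
    have c2 : P.Inn τ i v := by_contra fun c => hn (sec0.2 ⟨i, j, hs, a1, ⟨by omega, a2⟩, c⟩)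
    obtain ⟨⟨z, d1, d2⟩, -⟩ := cross hT hs hp fun c => by
      have := (hs.inn_c (by omega)).1 (c.2 c2)
      omega
    exact ⟨z, _, d2.trans' b4, d1, hR y b2 b3⟩
  · obtain ⟨x, y, b1, b2, b3, b4⟩ := orb1 (P := P) (τ := τ) (s := 0) (a := k₁) (b := k₂) g0.le
      g1.le g2.le fun i j hs _ c2 => by_contra fun c3 => e ⟨i, c2, j, hs, by omega⟩
    obtain rfl : x = 0 := by omega
    exact ⟨_, _, b4, by rw [dd_self]; omega, hR y b2 b3⟩

theorem arm1 (hT : S_Top1) (hk : Mk P k₁ k₂) (hr : 1 ≤ r) (hp : Nr P.D (P.c k₁) r (P.c k₁) v)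
    (hR : ∀ y, k₂ ≤ y → y ≤ P.n → R ≤ dd (P.c k₁) (P.c y)) (hn : ¬P.Sec k₁ k₂ τ 1 v) :
    τ ∈ ArmC P.D (P.c k₁) r R := by
  classical
  obtain ⟨g0, g1, g2⟩ := hk
  by_cases e : ∃ i, i < k₁ ∧ ∃ j, P.Str τ i j ∧ k₁ ≤ j ∧ j < k₂
  · obtain ⟨a1, j, hs, a2, a3⟩ := Nat.find_spec e
    have hm := fun i' => Nat.find_min e (m := i')
    generalize Nat.find e = i at *
    obtain ⟨x, y, b0, b1, b2, b3, b4⟩ := orb2 (P := P) (τ := τ) (s := i) (a := k₁) (b := k₂) a1.le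
      g1.le g2.le fun i' j' hs' c1 c2 => by_contra fun c3 =>
        hm i' c1 ⟨by omega, j', hs', c2, by omega⟩
    have c1 := Dom.inn_tconn (i := i) b4
    rw [hs.inn_c (by omega), hs.inn_c (by omega)] at c1
    obtain rfl : x = i := by omega
    have c2 : ¬P.Inn τ x v := fun c => hn (sec1.2 ⟨x, j, hs, a1, ⟨a2, a3⟩, c⟩)
    obtain ⟨-, z, d1, d2⟩ := cross hT hs hp fun c => c2 (c.1 ((hs.inn_c (by omega)).2 (by omega)))
    exact ⟨z, _, d2.trans' b4, d1, hR y b2 b3⟩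
  · obtain ⟨x, y, b0, b1, b2, b3, b4⟩ := orb2 (P := P) (τ := τ) (s := k₁) (a := k₁) (b := k₂) le_rfl
      g1.le g2.le fun i j hs c1 c2 => by_contra fun c3 => e ⟨i, c1, j, hs, c2, by omega⟩
    obtain rfl : x = k₁ := by omega
    exact ⟨_, _, b4, by rw [dd_self]; omega, hR y b2 b3⟩

theorem arm2 (hT : S_Top1) (hk : Mk P k₁ k₂) (hr : 1 ≤ r) (hp : Nr P.D (P.c k₂) r (P.c k₂) v)
    (hR : ∀ y, y ≤ k₁ → R ≤ dd (P.c k₂) (P.c y)) (hn : ¬P.Sec k₁ k₂ τ 2 v) :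
    τ ∈ ArmC P.D (P.c k₂) r R := by
  classical
  obtain ⟨g0, g1, g2⟩ := hk
  by_cases e : ∃ i, (k₁ ≤ i ∧ i < k₂) ∧ ∃ j, P.Str τ i j ∧ k₂ ≤ j
  · obtain ⟨a1, j, hs, a2⟩ := Nat.find_spec e
    have hm := fun i' => Nat.find_min e (m := i')
    generalize Nat.find e = i at *
    obtain ⟨x, y, b1, b2, b3, b4⟩ := orb1 (P := P) (τ := τ) (s := k₁) (a := i) (b := k₂) a1.1
      a1.2.le g2.le fun i' j' hs' c1 c2 => by_contra fun c3 =>
        hm i' c2 ⟨by omega, j', hs', by omega⟩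
    have c1 := Dom.inn_tconn (i := i) b4
    rw [hs.inn_c (by omega), hs.inn_c (by omega)] at c1
    obtain rfl : y = i := by omega
    have c2 : ¬P.Inn τ y v := fun c => hn (sec2.2 ⟨y, j, hs, a1, ⟨by omega, a2⟩, c⟩)
    obtain ⟨-, z, d1, d2⟩ := cross hT hs hp fun c => c2 (c.1 ((hs.inn_c (by omega)).2 (by omega)))
    exact ⟨z, _, d2.trans' b4.symm', d1, hR x b1⟩
  · obtain ⟨x, y, b1, b2, b3, b4⟩ := orb1 (P := P) (τ := τ) (s := k₁) (a := k₂) (b := k₂) g1.le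
      le_rfl g2.le fun i j hs c1 c2 => by_contra fun c3 => e ⟨i, ⟨c1, c2⟩, j, hs, by omega⟩
    obtain rfl : y = k₂ := by omega
    exact ⟨_, _, b4.symm', by rw [dd_self]; omega, hR x b1⟩

end CrsA

open CrsA

theorem s_Crs (_hT : S_Top1) (hV : S_Val) : S_Crs := by
  classical
  intro P k₁ k₂ s hk hs
  obtain ⟨g0, g1, g2⟩ := id hk
  have hL := (hV P k₁ k₂ hk).1 (P.c s)
  have o1 : ∀ τ, ¬P.Sec k₁ k₂ τ 0 (P.c s) → τ ∈ P.Crs 0 0 s k₁ k₂ ∨ τ ∈ P.Crs 1 0 s k₁ k₂ :=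
    fun τ c => by
      obtain ⟨x, y, b1, b2, b3, b4⟩ := orb1 (P := P) (τ := τ) hs g1.le g2.le
        fun i j h c1 c2 => by_contra fun c3 => c (sec0.2 ⟨i, j, h, c2, by omega, fun c4 => by
          have := (h.inn_c (by omega)).1 c4
          omega⟩)
      exact crs_one x.zero_le b1 b2 b3 b4
  have o2 : ∀ τ, ¬P.Sec k₁ k₂ τ 1 (P.c s) → τ ∈ P.Crs 0 s k₁ k₂ P.n ∨ τ ∈ P.Crs 1 s k₁ k₂ P.n :=
    fun τ c => by
      obtain ⟨x, y, b0, b1, b2, b3, b4⟩ := orb2 (P := P) (τ := τ) hs g1.le g2.le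
        fun i j h c1 c2 => by_contra fun c3 => c (sec1.2 ⟨i, j, h, by omega, by omega,
          (h.inn_c (by omega)).2 (by omega)⟩)
      exact crs_one b0 b1 b2 b3 b4
  refine ⟨?_, ?_⟩
  · rw [im_F hV hk]
    refine int_le (hL.comp fun z => 2 / Real.sqrt 3 * z.im) (loc_crs ..) (loc_crs ..) fun τ => ?_
    rw [im_val hk hs]
    split_ifs with c0 c1
    · exact Or.inl rfl
    · obtain ⟨i, j, h, a1, a2, a3⟩ := sec1.1 c1
      rw [h.inn_c (by omega)] at a3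
      exact Or.inr (Or.inr ⟨rfl, crs_both h i.zero_le a3.1 a2.1 a2.2⟩)
    · exact Or.inr (Or.inl ⟨rfl, o1 τ c0⟩)
  · rw [← neg_mul, im_F hV hk]
    refine int_le (hL.comp fun z => -(2 / Real.sqrt 3) * z.im) (loc_crs ..) (loc_crs ..) fun τ => ?_
    rw [neg_mul, im_val hk hs]
    split_ifs with c0 c1
    · obtain ⟨i, j, h, a1, a2, a3⟩ := sec0.1 c0
      rw [h.inn_c (by omega)] at a3
      exact Or.inr (Or.inr ⟨neg_neg _, crs_both h (by omega) a1 a2.2 h.2.1⟩)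
    · exact Or.inl rfl
    · exact Or.inr (Or.inl ⟨neg_zero, o2 τ c1⟩)

theorem s_Cor (hT : S_Top1) (hV : S_Val) (hA : S_Arm) : S_Cor := by
  obtain ⟨C, c, c0, h⟩ := hA
  refine ⟨2 * C, c, c0, fun P k₁ k₂ m v r R hk hr hR hp hd => ?_⟩
  obtain ⟨g0, g1, g2⟩ := id hk
  have hv := nr_vx (P.c_mem_vx _) hp
  have key : ∀ τ ∉ ArmC P.D (P.c (![0, k₁, k₂] m)) r R, P.Sec k₁ k₂ τ m v := fun τ hτ => by
    by_contra hn
    refine hτ ?_
    fin_cases m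
    · refine arm0 hT hk hr hp (fun y b1 b2 => ?_) hn
      rcases b2.eq_or_lt with rfl | b2
      · have := (hd (y - 1) (by omega) (arc1.2 (by omega))).2
        rwa [show y - 1 + 1 = y by omega] at this
      · exact (hd y (by omega) (arc1.2 ⟨b1, b2⟩)).1
    · refine arm1 hT hk hr hp (fun y b1 b2 => ?_) hn
      rcases b2.eq_or_lt with rfl | b2
      · have := (hd (P.n - 1) (by omega) (arc2.2 (by omega))).2
        rwa [show P.n - 1 + 1 = P.n by omega] at this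
      · exact (hd y b2 (arc2.2 (by omega))).1
    · refine arm2 hT hk hr hp (fun y b2 => ?_) hn
      rcases b2.eq_or_lt with rfl | b2
      · have := (hd (y - 1) (by omega) (arc0.2 (by omega))).2
        rwa [show y - 1 + 1 = y by omega] at this
      · exact (hd y (by omega) (arc0.2 b2)).1
  have hL := (hV P k₁ k₂ hk).1 v
  have e : P.F k₁ k₂ v - ζ ^ (2 * m.1 + 5) =
      ∫ τ, (P.val k₁ k₂ τ v - ζ ^ (2 * m.1 + 5)) ∂PM fun _ => hf := by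
    rw [integral_sub (RM.integrable hL fun τ => ((hV P k₁ k₂ hk).2 τ).1 v) (integrable_const _)]
    simp [Dom.F]
  rw [e, mul_assoc]
  refine (RM.norm_int_le (K := 2) (hL.comp fun z => z - ζ ^ (2 * m.1 + 5)) (fun τ => ?_)
    fun τ hτ => ?_).trans
    (mul_le_mul_of_nonneg_left (h P.D (P.c (![0, k₁, k₂] m)) r R hr hR).2 zero_le_two)
  · refine (norm_sub_le _ _).trans ?_
    rw [RM.norm_ζ]
    linarith [((hV P k₁ k₂ hk).2 τ).1 v]
  · exact sub_eq_zero.2 (((hV P k₁ k₂ hk).2 τ).2.2 m m.2 v hv (key τ hτ))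

end Pool.Agent.P.MP_6c8efb_pr.Cardy
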