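import Pool.Agent.P.MP_6c8efb_pr.Cardy.LIface
import Pool.Agent.P.MP_6c8efb_pr.Cardy.TBlow

/-! The discrete Cauchy-Riemann equation for the observable in a blown up disc. -/

open Complex MeasureTheory
open scoped Real ComplexConjugate

namespace Pool.Agent.P.MP_6c8efb_pr.Cardy

open Arm (TC Pt TConn)

namespace CRa

/-- the maximal horizontal run of tiles through `q` -/
theorem run {D : Finset V} {q : V} (hq : q ∈ D) : ∃ a₀ a₁ : ℤ, a₀ ≤ q.1 ∧ q.1 < a₁ ∧
    (a₀ - 1, q.2) ∉ D ∧ (a₁, q.2) ∉ D ∧ (∀ a, a₀ ≤ a → a < a₁ → (a, q.2) ∈ D) ∧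
    a₁ - a₀ ≤ D.card := by
  classical
  obtain ⟨l, hl⟩ := (D.finite_toSet.image Prod.fst).bddBelow
  obtain ⟨r, hr⟩ := (D.finite_toSet.image Prod.fst).bddAbove
  have l1 : l ≤ q.1 := hl ⟨q, hq, rfl⟩
  have r1 : q.1 ≤ r := hr ⟨q, hq, rfl⟩
  have e0 : ∃ j : ℕ, (q.1 - j - 1, q.2) ∉ D := ⟨(q.1 - l).toNat, fun h => by
    have : l ≤ q.1 - (q.1 - l).toNat - 1 := hl ⟨_, h, rfl⟩
    omega⟩
  have e1 : ∃ j : ℕ, (q.1 + j + 1, q.2) ∉ D := ⟨(r - q.1).toNat, fun h => by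
    have : q.1 + (r - q.1).toNat + 1 ≤ r := hr ⟨_, h, rfl⟩
    omega⟩
  have key : ∀ a, q.1 - Nat.find e0 ≤ a → a < q.1 + Nat.find e1 + 1 → (a, q.2) ∈ D := by
    intro a h0 h1
    rcases lt_trichotomy a q.1 with h | rfl | h
    · have := Nat.find_min e0 (m := (q.1 - a - 1).toNat) (by omega)
      rwa [not_not, show q.1 - ((q.1 - a - 1).toNat : ℕ) - 1 = a by omega] at this
    · exact hq
    · have := Nat.find_min e1 (m := (a - q.1 - 1).toNat) (by omega)
      rwa [not_not, show q.1 + ((a - q.1 - 1).toNat : ℕ) + 1 = a by omega] at this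
  refine ⟨q.1 - Nat.find e0, q.1 + Nat.find e1 + 1, by omega, by omega, Nat.find_spec e0,
    Nat.find_spec e1, key, ?_⟩
  have := Finset.card_le_card_of_injOn (s := Finset.Ico (q.1 - Nat.find e0) (q.1 + Nat.find e1 + 1))
    (t := D) (fun a => (a, q.2)) (fun a ha => by
      have := Finset.mem_Ico.1 ha
      exact key a this.1 this.2) fun a _ b _ h => (Prod.ext_iff.1 h).1
  rw [Int.card_Ico] at this
  omega

theorem ang_b (P : Dom) (g : ℕ → ℝ) {i : ℕ} (hi : i < P.n) : P.ang g (P.b i) = g i := by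
  rw [Dom.ang, Finset.sum_eq_single i]
  · intro j hj hji
    obtain ⟨h1, h2⟩ := Finset.mem_filter.1 hj
    exact absurd (P.b_inj (Finset.mem_range.1 h1) hi h2) hji
  · exact fun h => (h (Finset.mem_filter.2 ⟨Finset.mem_range.2 hi, rfl⟩)).elim

variable {P P' : Dom} {M : ℕ}

theorem lt_n (h : P.Blow M P') {i r : ℕ} (hi : i < P.n) (hr : r < M) : M * i + r < P'.n := by
  rw [h.n]; nlinarith

theorem div_eq {i r : ℕ} (hr : r < M) : (M * i + r) / M = i := by
  rw [Nat.mul_add_div (by omega), Nat.div_eq_of_lt hr, add_zero]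

/-- the sides of a vertical wall inside one row of cells -/
theorem wall (h : P.Blow M P') (hM : 0 < M) {a y t : ℤ} (he : ((a, y), false) ∈ bd P'.D)
    (ht : t / M = y / M) : ∃ i < P'.n, ∃ i' < P'.n, i / M = i' / M ∧ P'.b i = ((a, y), false) ∧
      P'.b i' = ((a, t), false) ∧ a = M * (P.c (i / M)).1 := by
  have hM' : (0 : ℤ) < M := by exact_mod_cast hM
  obtain ⟨i, hi, e⟩ := P'.mem_bd_iff.1 he
  have hr := Nat.mod_lt i hM
  have hj : i / M < P.n := Nat.div_lt_of_lt_mul (h.n ▸ hi)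
  have e1 := h.c' (i / M) hr.le
  have e2 := h.dir i
  rw [Nat.div_add_mod] at e1
  have b1 := (div_iff hM').1 ht
  have b2 := (div_iff hM').1 (rfl : y / M = y / M)
  have key : ∀ r < M, edge (M • P.c (i / M) + (r : ℤ) • u (P.dir (i / M))) (P.dir (i / M)) =
      ((a, t), false) → a = M * (P.c (i / M)).1 → ∃ i < P'.n, ∃ i' < P'.n, i / M = i' / M ∧
      P'.b i = ((a, y), false) ∧ P'.b i' = ((a, t), false) ∧ a = M * (P.c (i / M)).1 :=
    fun r hr' h1 h2 => ⟨i, hi, _, lt_n h hj hr', (div_eq hr').symm, e,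
      by rw [Dom.b, h.c' _ hr'.le, h.dir' _ hr', h1], h2⟩
  rw [Dom.b, e1, e2] at e
  have hr' : ((i % M : ℕ) : ℤ) < M := by exact_mod_cast hr
  have hr0 : (0 : ℤ) ≤ (i % M : ℕ) := Int.natCast_nonneg _
  generalize ((i % M : ℕ) : ℤ) = r at e hr' hr0
  generalize P.c (i / M) = v at e key
  obtain ⟨v1, v2⟩ := v
  rcases cases4 (P.dir (i / M)) with hd | hd | hd | hd <;> rw [hd] at e key <;>
    simp [edge, u] at e
  · have := mul_add_inj (M := M) (p := v2) (q := y / M) (r := r) (s := y - M * (y / M)) hr0 hr'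
      (by omega) (by omega) (by omega)
    refine key (t - M * v2).toNat (by rw [← this.1] at b1; omega) ?_ e.1.symm
    rw [← this.1] at b1
    simp [edge, u]
    omega
  · have := mul_add_inj (M := M) (p := v2 - 1) (q := y / M) (r := M - 1 - r) (s := y - M * (y / M))
      (by omega) (by omega) (by omega) (by omega) (by rw [mul_sub]; omega)
    rw [← this.1, mul_sub] at b1
    refine key (M * v2 - t - 1).toNat (by omega) ?_ e.1.symm
    simp [edge, u]
    omega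

theorem gam_eq (h : P.Blow M P') (hM : 0 < M) (k₁ k₂ : ℕ) {s i i' : ℕ} (e : i / M = i' / M)
    (hs : s / M ≠ i / M) : P'.gam (M * k₁) (M * k₂) s i = P'.gam (M * k₁) (M * k₂) s i' := by
  have : s ≤ i ↔ s ≤ i' := by
    rcases lt_or_gt_of_ne hs with h1 | h1
    · exact iff_of_true (Nat.lt_of_div_lt_div h1).le (Nat.lt_of_div_lt_div (e ▸ h1)).le
    · exact iff_of_false (not_le.2 (Nat.lt_of_div_lt_div h1))
        (not_le.2 (Nat.lt_of_div_lt_div (e ▸ h1)))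
  simp only [Dom.gam, h.ψ, arc_blow hM, e, this]

theorem start (hM : 0 < M) {a : ℤ} (h : (a - 1) / M ≠ a / M) : a = M * (a / M) := by
  have hM' : (0 : ℤ) < M := by exact_mod_cast hM
  have := (div_iff hM').1 (rfl : a / M = a / M)
  rw [Ne, div_iff hM'] at h
  omega

theorem cut (h : P.Blow M P') (hM : 0 < M) (k₁ k₂ : ℕ) {a₀ a₁ b y : ℤ} {N H s : ℕ}
    (h0 : (a₀ - 1, b) ∉ P.D) (h1 : (a₁, b) ∉ P.D) (h2 : ∀ a, a₀ ≤ a → a < a₁ → (a, b) ∈ P.D)
    (hN : M * a₀ + N = M * a₁) (y0 : M * b < y) (y1 : y + H < M * b + M)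
    (hs : (P.c (s / M)).1 = a₀) :
    Cut P'.D (P'.ang (P'.gam (M * k₁) (M * k₂) s)) (M * a₀) y N H P.D.card := by
  have hM' : (0 : ℤ) < M := by exact_mod_cast hM
  have row : ∀ t, y - 1 ≤ t → t ≤ y + H → t / M = b := fun t a c => (div_iff hM').2 (by omega)
  have hy := row y (by omega) (by omega)
  have mem : ∀ a, (a, y) ∈ P'.D ↔ (a / M, b) ∈ P.D := fun a => by rw [h.mem hM, hy]
  have st : ∀ a, (a, y) ∈ P'.D → (a - 1, y) ∉ P'.D → a = M * (a / M) := fun a c d =>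
    start hM fun e => d (by rwa [mem, e, ← mem])
  refine ⟨fun a t c d => by rw [h.mem hM, row t c d, mem], ⟨?_, ?_, fun a c d => ?_⟩,
    fun a c d b' e f => ?_, ?_, fun a t c d e f => ?_⟩
  · rwa [mem, (div_iff hM').2 (show M * (a₀ - 1) ≤ M * a₀ - 1 ∧ _ by rw [mul_sub]; omega)]
  · rwa [mem, hN, Int.mul_ediv_cancel_left _ hM'.ne']
  · rw [mem]
    exact h2 _ ((Int.le_ediv_iff_mul_le hM').2 (by linarith))
      ((Int.ediv_lt_iff_lt_mul hM').2 (by linarith))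
  · have := st a c d
    rwa [mem, (div_iff hM').2 (show M * (a / M) ≤ b' ∧ _ by omega), ← mem]
  · have m2 : ∀ a ∈ (col P'.D y).filter fun a => (a - 1, y) ∉ P'.D,
        (a, y) ∈ P'.D ∧ (a - 1, y) ∉ P'.D := fun a ha => by
      obtain ⟨c, d⟩ := Finset.mem_filter.1 ha
      obtain ⟨t, e, rfl⟩ := Finset.mem_image.1 c
      obtain ⟨e', rfl⟩ := Finset.mem_filter.1 e
      exact ⟨e', d⟩
    refine Finset.card_le_card_of_injOn (fun a => (a / M, b)) (fun a ha => (mem a).1 (m2 a ha).1)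
      fun a ha a' ha' e => ?_
    rw [st a (m2 a ha).1 (m2 a ha).2, st a' (m2 a' ha').1 (m2 a' ha').2,
      show a / M = a' / M from (Prod.ext_iff.1 e).1]
  · obtain ⟨i, hi, i', hi', e1, e2, e3, e4⟩ :=
      wall h hM f ((row t (by omega) e.le).trans hy.symm)
    rw [← e2, ← e3, ang_b _ _ hi, ang_b _ _ hi']
    exact (gam_eq h hM _ _ e1 fun e5 => c (by rw [e4, ← e5, hs])).symm

theorem twi (h : P.Blow M P') (hM : 0 < M) (k₁ k₂ : ℕ) {a₀ b y j : ℤ} {H i r r' : ℕ}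
    (hi : i < P.n) (hc : P.c i = (a₀, b + 1)) (hd : P.dir i = 3) (y0 : M * b < y)
    (y1 : y + H < M * b + M) (hj : j + r' = M * b + M) (hr : r' = r ∨ r' + 1 = r) (j0 : y < j)
    (j1 : j < y + H) :
    Twi P'.D (P'.ang (P'.gam (M * k₁) (M * k₂) (M * i + r)))
      (P'.ang (P'.gam (M * k₁) (M * k₂) (M * i + r')))
      (π / 3 * (-(P.ψ i : ℝ) / 4 + arc k₁ k₂ i - 2)) (M * a₀) y j H := by
  have side : ∀ ρ < M, P'.b (M * i + ρ) = ((M * a₀, M * b + M - ρ - 1), false) := fun ρ hρ => by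
    rw [Dom.b, h.c' _ hρ.le, h.dir' _ hρ, hc, hd]
    simp [edge, u]
    ring
  refine ⟨fun t c d => ?_, fun e he hn => ?_⟩
  · obtain ⟨ρ, hρ⟩ : ∃ ρ : ℕ, (ρ : ℤ) = M * b + M - t - 1 := ⟨(M * b + M - t - 1).toNat, by omega⟩
    have h1 : ρ < M := by omega
    rw [show t = M * b + M - ρ - 1 by omega, ← side ρ h1, ang_b _ _ (lt_n h hi h1), Dom.gam, h.ψ,
      arc_blow hM, div_eq h1]
    split_ifs <;> first | omega | rfl | (rw [β]; ring)
  · obtain ⟨l, hl, rfl⟩ := P'.mem_bd_iff.1 he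
    rw [ang_b _ _ hl, ang_b _ _ hl]
    have : M * i + r' ≤ l ↔ M * i + r ≤ l := by
      refine ⟨fun c => by_contra fun d => hn ?_, fun c => by omega⟩
      rw [show l = M * i + r' by omega, side r' (by omega)]
      exact ⟨rfl, rfl, by simp only; omega, by simp only; omega⟩
    simp only [Dom.gam, this]

theorem incr (hV : S_Val) (hE : S_Exp) {k₁ k₂ : ℕ} (hk : Mk P k₁ k₂) {z : E} {S : Finset E}
    {γ : E → ℝ} {c : ℂ} (h1 : lo z ∈ P.D) (h2 : z.1 ∈ P.D) (h3 : z ∉ S) (h4 : S ⊆ sd P.D)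
    (h5 : ∀ τ, conj (P.jmp k₁ k₂ τ z) = c * ampc τ P.D γ z S) :
    conj (P.F k₁ k₂ (hd z) - P.F k₁ k₂ z.1) = c * Zcut P.D γ z S := by
  obtain ⟨v1, v2⟩ := hV P k₁ k₂ hk
  have hi : ∀ v, Integrable (fun τ => P.val k₁ k₂ τ v) (PM fun _ => hf) := fun v =>
    Integrable.of_bound (v1 v).measurable.aestronglyMeasurable 1
      (Filter.Eventually.of_forall fun τ => (v2 τ).1 v)
  rw [Dom.F, Dom.F, ← integral_sub (hi _) (hi _), ← integral_conj, (hE P.D γ).2 z S h1 h2 h3 h4,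
    ← integral_const_mul]
  exact integral_congr_ae (Filter.Eventually.of_forall fun τ => by
    simp only [(v2 τ).2.1 z (mem_sd.2 (Or.inl h2)), h5])

theorem norm_F (hV : S_Val) {k₁ k₂ : ℕ} (hk : Mk P k₁ k₂) (v : V) : ‖P.F k₁ k₂ v‖ ≤ 1 := by
  simpa [Dom.F] using norm_integral_le_of_norm_le_const (μ := PM fun _ => hf)
    (Filter.Eventually.of_forall fun τ => ((hV P k₁ k₂ hk).2 τ).1 v)

theorem norm_κ (P : Dom) (s : ℕ) : ‖κ P s‖ ≤ 2 := by
  have : ‖exp (-(π / 6 * P.ψ s) * I)‖ = 1 := by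
    simpa using norm_exp_ofReal_mul_I (-(π / 6 * P.ψ s))
  rw [κ, norm_mul, norm_mul, this, norm_neg, norm_I, norm_real, Real.norm_eq_abs,
    abs_of_nonneg (Real.sqrt_nonneg _), one_mul, mul_one]
  exact Real.sqrt_le_iff.2 ⟨by norm_num, by norm_num⟩

theorem lev_sub {D : Finset V} {x t : ℤ} {k : ℕ} (h : ∀ j ≤ k, (x + j, t) ∈ D) : lev x t k ⊆ sd D :=
  fun e he => by
    obtain ⟨j, hj, rfl⟩ := Finset.mem_image.1 he
    exact mem_sd.2 (Or.inl (h j (Finset.mem_range.1 hj).le))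

theorem not_lev {x t : ℤ} {k : ℕ} : ((x + k, t), true) ∉ lev x t k := fun he => by
  obtain ⟨j, hj, e⟩ := Finset.mem_image.1 he
  have := Finset.mem_range.1 hj
  simp only [Prod.mk.injEq] at e
  omega

theorem not_lev' {x t : ℤ} {k : ℕ} {v : V} : (v, false) ∉ lev x t k := fun he => by
  obtain ⟨j, hj, e⟩ := Finset.mem_image.1 he
  simp at e

end CRa

open CRa in
theorem s_CR (hC : S_Cut) (hV : S_Val) (hE : S_Exp) (hD : S_Def) (hN : S_NormX) : S_CR := by
  intro P k₁ k₂ ε hk hε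
  obtain ⟨C₁, e₁⟩ := hD (ε / (16 * (P.D.card + 1))) P.D.card (by positivity)
  obtain ⟨C₂, e₂⟩ := hN P k₁ k₂ (ε / 2) (1 / 60) hk (by positivity) (by norm_num)
  refine ⟨2 * (|C₁| * |C₂|) + 4 * (16 / ε) ^ (21 / 20 : ℝ), fun M P' hM h q hq X t x0 x1 t0 t1 => ?_⟩
  have hM0 : (0 : ℝ) < M := by exact_mod_cast hM
  have hM' : (0 : ℤ) < M := by exact_mod_cast hM
  have hk' : Mk P' (M * k₁) (M * k₂) := ⟨Nat.mul_pos hM hk.1.1, Nat.mul_lt_mul_of_pos_left hk.1.2.1 hM,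
    h.n ▸ Nat.mul_lt_mul_of_pos_left hk.1.2.2 hM⟩
  have hp : 0 < (M : ℝ) ^ (-21 / 20 : ℝ) := by positivity
  rcases le_total (ε * M) 16 with hs | hs
  · have h1 : (1 : ℝ) ≤ (16 / ε) ^ (21 / 20 : ℝ) * (M : ℝ) ^ (-21 / 20 : ℝ) := by
      rw [neg_div, Real.rpow_neg hM0.le, ← div_eq_mul_inv, ← Real.div_rpow (by positivity) hM0.le]
      exact Real.one_le_rpow (by rw [le_div_iff₀ hM0, le_div_iff₀ hε]; linarith) (by norm_num)
    have n := norm_F hV hk'
    refine (norm_sub_le _ _).trans ?_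
    rw [norm_mul, norm_I, one_mul]
    have h2 : 0 ≤ 2 * (|C₁| * |C₂|) * (M : ℝ) ^ (-21 / 20 : ℝ) := by positivity
    linarith [norm_sub_le (P'.F (M * k₁) (M * k₂) (X, t + 1)) (P'.F (M * k₁) (M * k₂) (X, t - 1)),
      norm_sub_le (P'.F (M * k₁) (M * k₂) (X + 1, t)) (P'.F (M * k₁) (M * k₂) (X - 1, t)),
      n (X, t + 1), n (X, t - 1), n (X + 1, t), n (X - 1, t)]
  obtain ⟨a₀, a₁, r0, r1, r2, r3, r4, r5⟩ := run hq
  obtain ⟨q1, b⟩ := q
  simp only at x0 x1 t0 t1 r0 r1 r2 r3 r4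
  obtain ⟨i, hi, hc, hd⟩ := P.bdry_lt (v := (a₀, b + 1)) (d := 3)
    (by simpa using r4 a₀ le_rfl (by omega)) (by simpa using r2)
  obtain ⟨m, m0, m1⟩ : ∃ m : ℕ, (m : ℝ) ≤ ε * M / 8 ∧ ε * M / 16 ≤ m :=
    ⟨⌊ε * M / 8⌋₊, Nat.floor_le (by positivity), by linarith [Nat.lt_floor_add_one (ε * M / 8)]⟩
  have a0 : (a₀ : ℝ) ≤ q1 := by exact_mod_cast r0
  have a1 : (q1 : ℝ) + 1 ≤ a₁ := by exact_mod_cast r1
  have a2 : (a₁ : ℝ) - a₀ ≤ P.D.card := by exact_mod_cast r5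
  have hε1 : ε * M ≤ M / 2 := by linarith
  have x2 : M * a₀ + 1 ≤ X := by
    have : (M : ℝ) * a₀ + 1 ≤ X := by nlinarith
    exact_mod_cast this
  have x3 : X < M * a₁ := by
    have : (X : ℝ) < M * a₁ := by nlinarith
    exact_mod_cast this
  have t2 : M * b < t - 2 * m - 2 := by
    have : (M : ℝ) * b < t - 2 * m - 2 := by linarith
    exact_mod_cast this
  have t3 : t + 2 * m + 2 < M * b + M := by
    have : (t : ℝ) + 2 * m + 2 < M * b + M := by linarith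
    exact_mod_cast this
  obtain ⟨k, rfl⟩ : ∃ k : ℕ, X = M * a₀ + (k + 1 : ℕ) := ⟨(X - M * a₀ - 1).toNat, by omega⟩
  obtain ⟨N, hN⟩ : ∃ N : ℕ, M * a₀ + N = M * a₁ := ⟨(M * a₁ - M * a₀).toNat, by omega⟩
  obtain ⟨r, hr⟩ : ∃ r : ℕ, t + 1 + r = M * b + M := ⟨(M * b + M - t - 1).toNat, by omega⟩
  obtain ⟨y, rfl⟩ : ∃ y, t = y + 2 * m + 2 := ⟨t - 2 * m - 2, by ring⟩
  have hN' : (N : ℝ) = M * (a₁ - a₀) := by
    have : (M : ℝ) * a₀ + N = M * a₁ := by exact_mod_cast hN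
    linarith
  have hMN : (M : ℝ) ≤ N := by nlinarith
  have hεN : ε / (16 * (P.D.card + 1)) * N ≤ ε * M / 16 := by
    rw [div_mul_eq_mul_div, div_le_div_iff₀ (by positivity) (by norm_num), hN']
    nlinarith [mul_pos hε hM0]
  have hcut := cut h hM k₁ k₂ (y := y) (H := 4 * m + 4) (s := M * i + (r + 1)) r2 r3 r4 hN
    (by omega) (by push_cast; omega) (by rw [div_eq (by omega), hc])
  push_cast at x0 x1 t0 t1
  have key := e₁ _ _ _ _ _ _ _ _ N m k hcut rfl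
    (twi h hM k₁ k₂ (r := r + 1) (r' := r + 1) hi hc hd (by omega) (by push_cast; omega)
      (by push_cast; omega) (Or.inl rfl) (by omega) (by push_cast; omega))
    (twi h hM k₁ k₂ (r := r + 1) (r' := r) hi hc hd (by omega) (by push_cast; omega)
      (by omega) (Or.inr rfl) (by omega) (by push_cast; omega))
    (by nlinarith) (by nlinarith) (by linarith) (by exact_mod_cast (by linarith : (m : ℝ) ≤ N))
  have cs : ∀ ρ < M, P'.c (M * i + ρ) = (M * a₀, M * b + M - ρ) := fun ρ hρ => by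
    rw [h.c' _ hρ.le, hc, hd]
    simp [u]
    ring
  have nrm := e₂ M P' b y (y + (4 * m + 4 : ℕ)) (M * i + (r + 1)) hM h (by linarith)
    (by rw [cs _ (by omega)]; simp only; omega) (by rw [cs _ (by omega)]; simp only; omega)
    (by push_cast; linarith) (lt_n h hi (by omega)) (by rw [h.dir' _ (by omega), hd])
  have mem : ∀ j : ℕ, j ≤ k + 1 → ∀ t', y ≤ t' → t' ≤ y + 2 * m + 3 → (M * a₀ + j, t') ∈ P'.D :=
    fun j hj t' c d => (hcut.cols _ _ (by omega) (by push_cast; omega)).2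
      (hcut.main.2.2 _ (by omega) (by omega))
  have cu : ∀ ρ : ℕ, 0 < ρ → ρ < M → ∀ (t' : ℤ) (j : ℕ), t' + ρ = M * b + M → j ≤ k + 1 → y < t' →
      t' ≤ y + 2 * m + 3 → _ := fun ρ c d t' j e f g g' =>
    fun τ => hC P' _ _ (M * i + ρ) (M * a₀) t' j τ hk' (by omega) (lt_n h hi d)
      (fun e' => by have := congrArg (· % M) e'; simp [Nat.mod_eq_of_lt d] at this; omega)
      (fun e' => by have := congrArg (· % M) e'; simp [Nat.mod_eq_of_lt d] at this; omega)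
      (by rw [cs _ d, ← e]; simp)
      (by rw [show M * i + ρ - 1 = M * i + (ρ - 1) by omega, h.dir' _ (by omega), hd])
      (by rw [h.dir' _ d, hd])
      fun l hl => ⟨mem l (by omega) _ g.le g', mem l (by omega) _ (by omega) (by omega)⟩
  have hκ : κ P' (M * i + r) = κ P' (M * i + (r + 1)) := by
    rw [κ, κ, h.ψ, h.ψ, div_eq (by omega), div_eq (by omega)]
  have i1 := incr hV hE hk' (by simpa [lo, add_sub_assoc] using mem k (by omega) _ (by omega) (by omega))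
    (mem _ le_rfl _ (by omega) (by omega)) not_lev'
    (lev_sub fun j hj => mem j hj _ (by omega) (by omega))
    fun τ => (cu r (by omega) (by omega) (y + 2 * m + 2 + 1) (k + 1) hr le_rfl (by omega) (by omega)
      τ).2 k.succ_pos
  have i2 := incr hV hE hk' (by simpa [lo, add_sub_assoc] using mem k (by omega) _ (by omega) (by omega))
    (mem _ le_rfl _ (by omega) (by omega)) not_lev'
    (lev_sub fun j hj => mem j hj _ (by omega) (by omega))
    fun τ => (cu (r + 1) (by omega) (by omega) (y + 2 * m + 2) (k + 1) (by push_cast; omega) le_rfl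
      (by omega) (by omega) τ).2 k.succ_pos
  have i3 := incr hV hE hk' (by exact mem (k + 1) le_rfl (y + 2 * m + 2 - 1) (by omega) (by omega))
    (mem _ le_rfl _ (by omega) (by omega)) not_lev
    (lev_sub fun j hj => mem j hj _ (by omega) (by omega))
    fun τ => (cu (r + 1) (by omega) (by omega) (y + 2 * m + 2) (k + 1) (by push_cast; omega) le_rfl
      (by omega) (by omega) τ).1
  have i4 := incr hV hE hk' (by exact mem k (by omega) (y + 2 * m + 2 - 1) (by omega) (by omega))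
    (mem _ (by omega) _ (by omega) (by omega)) not_lev
    (lev_sub fun j hj => mem j (by omega) _ (by omega) (by omega))
    fun τ => (cu (r + 1) (by omega) (by omega) (y + 2 * m + 2) k (by push_cast; omega) (by omega)
      (by omega) (by omega) τ).1
  simp only [hd_true, hd_false, add_sub_cancel_right, sub_add_cancel, hκ] at i1 i2 i3 i4
  rw [show (M : ℤ) * a₀ + k + 1 = M * a₀ + (k + 1 : ℕ) by push_cast; ring] at i4
  rw [show (M : ℤ) * a₀ + (k + 1 : ℕ) - 1 = M * a₀ + k by push_cast; ring, ← norm_conj]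
  simp only [map_sub, map_mul, conj_I] at i1 i2 i3 i4 ⊢
  have n0 : ∀ D γ y, 0 ≤ nlo D γ y ∧ 0 ≤ nup D γ y := fun _ _ _ =>
    ⟨Real.sqrt_nonneg _, Real.sqrt_nonneg _⟩
  have b1 : (N : ℝ) ^ (-16 / 15 : ℝ) ≤ (M : ℝ) ^ (-16 / 15 : ℝ) :=
    Real.rpow_le_rpow_of_nonpos hM0 hMN (by norm_num)
  have b2 : (M : ℝ) ^ (-16 / 15 : ℝ) * (M : ℝ) ^ (1 / 60 : ℝ) = (M : ℝ) ^ (-21 / 20 : ℝ) := by
    rw [← Real.rpow_add hM0]; norm_num
  have b3 := key.trans (mul_le_mul (mul_le_mul (le_abs_self C₁) b1 (by positivity) (abs_nonneg _))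
    (nrm.trans (mul_le_mul_of_nonneg_right (le_abs_self C₂) (by positivity)))
    (mul_nonneg (n0 _ _ _).1 (n0 _ _ _).2) (by positivity))
  have b4 := mul_le_mul (norm_κ P' (M * i + (r + 1))) b3 (norm_nonneg _) (by norm_num)
  rw [← norm_mul] at b4
  refine le_trans (le_of_eq ?_) (b4.trans ?_)
  · congr 1
    linear_combination i1 + i2 + I * (i3 + i4)
  · rw [mul_mul_mul_comm, b2]
    have : 0 ≤ 4 * (16 / ε) ^ (21 / 20 : ℝ) * (M : ℝ) ^ (-21 / 20 : ℝ) := by positivity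
    linarith

end Pool.Agent.P.MP_6c8efb_pr.Cardy
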