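import Pool.Agent.P.MP_6c8efb_pr.Cardy.LRow
import Pool.Agent.P.MP_6c8efb_pr.Cardy.AAll

/-! The Cauchy-Riemann defect of the cut partition functions. -/

open Complex Function Finset Matrix
open scoped Real Matrix.Norms.L2Operator

namespace Pool.Agent.P.MP_6c8efb_pr.Cardy

namespace DefA

variable {X : Finset ℤ}

theorem nrmX_eq (φ : (X → Bool) → ℂ) : nrmX φ = ‖WithLp.toLp 2 φ‖ := by
  rw [EuclideanSpace.norm_eq]; rfl

theorem nrmX_mulVec (A : Op X) (φ : (X → Bool) → ℂ) : nrmX (A *ᵥ φ) ≤ ‖A‖ * nrmX φ := by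
  rw [nrmX_eq, nrmX_eq]; exact l2_opNorm_mulVec A (WithLp.toLp 2 φ)

theorem norm_dot (φ ψ : (X → Bool) → ℂ) : ‖φ ⬝ᵥ ψ‖ ≤ nrmX φ * nrmX ψ :=
  (norm_sum_le _ _).trans (by simp only [norm_mul]; exact Real.sum_mul_le_sqrt_mul_sqrt _ _ _)

theorem norm_T1_pow : ∃ C : ℝ, 1 ≤ C ∧ ∀ (ι : Type) [Fintype ι] [DecidableEq ι] (α γ : ℝ)
    (l : List ι) (h : ℕ), l.Nodup → h ≤ l.length → ‖T1 α γ l ^ h‖ ≤ C := by
  have cross := s_Cross s_Ybe s_Fus s_An
  obtain ⟨C₂, h2⟩ := s_Bnd (s_Row s_Plc) s_Crude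
  obtain ⟨C₆, h6⟩ := s_Inv s_Ybe s_Fus (s_Quot s_Plc s_QUni) cross s_InvK
  obtain ⟨C, c0, c2, c6⟩ : ∃ C : ℝ, 1 ≤ C ∧ C₂ ≤ C ∧ C₆ ≤ C :=
    ⟨max (max 1 C₂) C₆, by simp, by simp, by simp⟩
  obtain ⟨N₀, H⟩ := s_Harn s_Maj s_Mid C
  have b0 : 1 ≤ max (Real.exp (2 * C)) (C ^ N₀) := le_max_of_le_right (one_le_pow₀ c0)
  refine ⟨_, b0, fun ι _ _ α γ l h nd hl => ?_⟩
  obtain ⟨b1, b2⟩ := h2 ι α γ l [] (by simpa using nd)
  obtain ⟨b3, b4, b5, b6, b7⟩ := cross ι α γ _ nd
  have c2' : 0 ≤ C₂ := (norm_nonneg _).trans (b1 _ AbsA.phys_zero).1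
  have fam : Fam C l.length (DD α γ l) := ⟨(s_An ι α γ _ []).1, s_Comm s_Ybe s_Refl s_An ι α γ _ nd,
    fun u _ => b5 u, b3, b4, fun u hu => (b1 u hu).1.trans c2,
    fun u hu => (h6 ι α γ _ nd u hu).trans (by gcongr), fun u hu => (b2 u hu).trans (by gcongr)⟩
  have key : ‖DD α γ l (π / 2) ^ h‖ ≤ max (Real.exp (2 * C)) (C ^ N₀) := by
    rcases Nat.eq_zero_or_pos h with rfl | h0
    · exact norm_one_le.trans b0
    rcases lt_or_ge l.length N₀ with hN | hN
    · exact le_max_of_le_right ((norm_pow_le' _ h0).trans ((pow_le_pow_left₀ (norm_nonneg _)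
        (fam.bd _ AbsA.phys_half) h).trans (pow_le_pow_right₀ c0 (by omega))))
    obtain ⟨V, hV, Λ, hΛ, e⟩ := s_Eig _ C _ _ fam
    have p : V * (diagonal fun k => Λ k (π / 2)) ^ h = DD α γ l (π / 2) ^ h * V :=
      SemiconjBy.pow_right (show V * _ = _ * V by
        rw [e _ (AbsA.big AbsA.phys_half), mul_assoc, (Unitary.mem_iff.1 hV).1, mul_one]) h
    rw [← CStarRing.norm_mul_mem_unitary _ hV, ← p, CStarRing.norm_mem_unitary_mul _ hV,
      diagonal_pow]
    refine le_max_of_le_left (AbsA.norm_diag (by positivity) fun k => ?_)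
    rw [Pi.pow_apply, norm_pow]
    refine (pow_le_pow_left₀ (norm_nonneg _) (H _ hN _ (hΛ k)).1 h).trans ?_
    rw [← Real.exp_nat_mul, Real.exp_le_exp, mul_div_assoc',
      div_le_iff₀ (by exact_mod_cast h0.trans_le hl), mul_comm]
    exact mul_le_mul_of_nonneg_left (by exact_mod_cast hl) (by positivity)
  rw [b6, ← pow_mul, two_mul, pow_add] at key
  nth_rw 1 [← b7] at key
  rw [← star_pow, CStarRing.norm_star_mul_self] at key
  nlinarith

variable {L L' : V → Gate Bool} {γ γ' : E → ℝ} {R : Finset V} {ht ht' : ℤ → ℤ}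
  {φ : (X → Bool) → ℂ} {l : List X} {x y : ℤ}

theorem rep_congr (H : Rep L γ R ht φ) (h1 : ∀ t ∈ R, L t = L' t) (h2 : ∀ c ∈ X, ht c = ht' c)
    (h3 : ∀ e ∈ bd R, e ∉ legs X ht → γ e = γ' e) : Rep L' γ' R ht' φ := fun a => by
  rw [← Zg_congr h1 (fun e _ => by simp only [mem_legs]; grind) h3, H]
  exact congrArg φ (funext fun k => by rw [rd, rd, h2 k k.2])

theorem rep_vec (R : Finset V) (γ : E → ℝ) (X : Finset ℤ) (y : ℤ) :
    Rep (fun _ => Lg (π / 2)) γ R (fun _ => y) (vecX R γ X y) := vecX_rd R γ X y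

/-- the strips which do not contain the sink -/
theorem oth : ∃ C : ℝ, 1 ≤ C ∧ ∀ (X : Finset ℤ) (γ : E → ℝ) (y : ℤ) (h K : ℕ) (Y : Finset ℤ)
    (R : Finset V) (ht : ℤ → ℤ) (φ : (X → Bool) → ℂ), (Y.filter fun a => a - 1 ∉ X).card ≤ K →
    (∀ c ∈ Y, c ∈ X ∧ (c + 1 ∈ X → c + 1 ∈ Y) ∧ (c - 1 ∈ X → c - 1 ∈ Y) ∧ ht c = y ∧
      (c, y - 1) ∈ R ∧ (c - 1 ∉ X → ∀ b, c ≤ b → b < c + h → b ∈ X)) →
    (∀ c t, y ≤ t → t ≤ y + h → (c, t) ∈ R → c ∈ X ∧ c ∉ Y) →
    (∀ a t, (a ∈ Y ∧ a - 1 ∉ X) ∨ (a - 1 ∈ Y ∧ a ∉ X) → y ≤ t → t < y + h →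
      γ ((a, t), false) = γ ((a, y), false)) → Rep (fun _ => Lg (π / 2)) γ R ht φ →
    ∃ ψ : (X → Bool) → ℂ, Rep (fun _ => Lg (π / 2)) γ (R ∪ Y ×ˢ Ico y (y + h))
      (fun c => if c ∈ Y then y + h else ht c) ψ ∧ nrmX ψ ≤ C ^ K * nrmX φ := by
  obtain ⟨C, c1, hC⟩ := norm_T1_pow
  refine ⟨C, c1, fun X γ y h K => ?_⟩
  induction K with
  | zero =>
    intro Y R ht φ h1 h2 _ _ H
    obtain rfl : Y = ∅ := by
      by_contra c
      have c := nonempty_iff_ne_empty.2 c
      exact (card_pos.2 ⟨_, mem_filter.2 ⟨Y.min'_mem c, fun d => by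
        have := Y.min'_le _ ((h2 _ (Y.min'_mem c)).2.2.1 d); omega⟩⟩).not_ge h1
    exact ⟨φ, by simpa using H, by simp⟩
  | succ K ih =>
    intro Y R ht φ h1 h2 h3 h4 H
    rcases Y.eq_empty_or_nonempty with rfl | c
    · exact ⟨φ, by simpa using H, le_mul_of_one_le_left (Real.sqrt_nonneg _) (one_le_pow₀ c1)⟩
    obtain ⟨x, x1, x2⟩ : ∃ x ∈ Y, x - 1 ∉ X := ⟨_, Y.min'_mem c, fun d => by
      have := Y.min'_le _ ((h2 _ (Y.min'_mem c)).2.2.1 d); omega⟩
    have ex : ∃ n : ℕ, x + n ∉ X := ⟨(X.max' ⟨x, (h2 x x1).1⟩ - x + 1).toNat, fun d => by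
      have := X.le_max' _ d
      have := X.le_max' _ (h2 x x1).1
      omega⟩
    have n1 := Nat.find_spec ex
    have n2 : ∀ a, x ≤ a → a < x + Nat.find ex → a ∈ X := fun a b c => by
      have := Nat.find_min ex (m := (a - x).toNat) (by omega)
      rwa [show x + (a - x).toNat = a by omega, not_not] at this
    obtain ⟨l, l1, l2⟩ := exists_con x _ n2
    rw [← l2] at n1 n2
    have n3 : ∀ a, x ≤ a → a < x + l.length → a ∈ Y := fun a b => by
      induction a, b using Int.leInduction with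
      | base => exact fun _ => x1
      | succ a b ih => exact fun c => (h2 a (ih (by omega))).2.1 (n2 _ (by omega) c)
    have n4 : h ≤ l.length := by
      by_contra d
      exact n1 ((h2 x x1).2.2.2.2.2 x2 _ (by omega) (by omega))
    have n5 : 0 < l.length := Nat.pos_of_ne_zero fun d => n1 (by simpa [d] using (h2 x x1).1)
    have H' := H.strip l1 n5 h (fun c a b => by have := h2 c (n3 c a b); tauto) fun c t a b d e f => by
      have := h3 c t d e f
      have := n3 c
      grind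
    rw [ops_const (T := T1 (γ ((x, y), false)) (γ ((x + l.length, y), false)) l) fun t a b => by
      rw [rop, gch_const fun _ _ => rfl, h4 x t (.inl ⟨x1, x2⟩) a b,
        h4 _ t (.inr ⟨n3 _ (by omega) (by omega), n1⟩) a b]; rfl] at H'
    obtain ⟨ψ, p1, p2⟩ := ih (Y.filter fun c => ¬(x ≤ c ∧ c < x + l.length)) _ _ _
      (Nat.le_of_lt_succ ((card_lt_card ⟨fun c => by simp +contextual, fun d => by
        simpa [n5.ne', ← List.length_eq_zero_iff] using d (mem_filter.2 ⟨x1, x2⟩)⟩).trans_le h1))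
      (fun c hc => by
        have := h2 c (mem_filter.1 hc).1
        simp only [mem_filter, mem_union, rz] at hc ⊢; grind)
      (fun c t a b d => by
        have := h3 c t a b
        simp only [mem_filter, mem_union, mem_rect] at d ⊢; grind)
      (fun a t b => h4 a t (by simp only [mem_filter] at b; tauto)) H'
    refine ⟨ψ, ?_, p2.trans ?_⟩
    · convert p1 using 1
      · ext t; simp only [mem_union, mem_product, mem_filter, mem_rect, mem_Ico]; grind
      · funext c; simp only [mem_filter, rz]; grind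
    · rw [pow_succ, mul_assoc]
      exact mul_le_mul_of_nonneg_left ((nrmX_mulVec _ _).trans (mul_le_mul_of_nonneg_right
        (hC _ _ _ _ _ l1.nodup n4) (Real.sqrt_nonneg _))) (by positivity)

/-- the gates with a sink at `z` and a twist along `S` -/
noncomputable def Lc (z : E) (S : Finset E) (t : V) : Gate Bool :=
  (if rgt t = z then Matrix.of fun l r => if r then 0 else Lg (π / 2) l true else Lg (π / 2)).map
    ((if top t ∈ S then tw else if top t = z then snk else 1) * ·)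

theorem lo_top (t : V) : lo (top t) = t := by simp [lo, top]
theorem lo_rgt (t : V) : lo (rgt t) = t := by simp [lo, rgt]

theorem Lc_plain {z : E} {S : Finset E} {t : V} (h : t ≠ lo z) (h' : top t ∉ S) :
    Lc z S t = Lg (π / 2) := by
  rw [Lc, if_neg h', if_neg fun c => h (by rw [← c, lo_rgt]), if_neg fun c => h (by rw [← c, lo_top])]
  ext1; simp

theorem Zcut_eq {D : Finset V} {z : E} {S : Finset E} (h1 : lo z ∈ D) (h2 : z.1 ∈ D) (h3 : z ∉ S)
    (h4 : ∀ e ∈ S, e.2 = true ∧ lo e ∈ D) :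
    Zcut D γ z S = Zg (Lc z S) D ∅ γ fun _ => false := by
  have key : ∀ (a : E → Bool) t, wg (Lc z S) a t = (if top t ∈ S then ph (-β) (a (top t)) else 1) *
      if t = lo z then if a z then 0 else wtl (update a z true) t else wtl a t := fun a t => by
    by_cases c : t = lo z
    · obtain rfl | rfl : z = top t ∨ z = rgt t := by
        obtain ⟨z, b⟩ := z
        cases b <;> simp [c, top, rgt, lo]
      · cases h : a (top t) <;>
          simp [wg, wtl, Lc, h, h3, lo_top, snk, Matrix.mul_apply,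
            show rgt t ≠ top t by simp [top, rgt], show lft t ≠ top t by simp [lft, top],
            show bot t ≠ top t by simp [bot, top, Prod.ext_iff]]
      · cases h : a (rgt t) <;> by_cases c : top t ∈ S <;>
          simp [wg, wtl, Lc, h, c, lo_rgt, tw, show top t ≠ rgt t by simp [top, rgt],
            show lft t ≠ rgt t by simp [lft, rgt, Prod.ext_iff], show bot t ≠ rgt t by simp [bot, rgt]]
    · by_cases c' : top t ∈ S
      · have : rgt t ≠ z := fun d => c (by rw [← d, lo_rgt])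
        simp [wg, wtl, Lc, c, c', tw, this]
      · simp [wg, wtl, Lc_plain c c', c, c']
  rw [Zg, sdiff_empty, ← insert_erase (mem_sd.2 (.inl h2)), sumOn_insert (notMem_erase _ _),
    Fintype.sum_bool, sumOn_congr (g := fun _ => 0) fun a ha => by
      rw [Zw, prod_eq_zero h1 (by simp [key, ha z]), zero_mul], update_eq_self_iff.2 rfl]
  simp only [sumOn, sum_const_zero, zero_add]
  refine (sumOn_congr fun a ha => ?_).symm
  have ha := ha z (notMem_erase _ _)
  simp only [Zw, key, prod_mul_distrib, sdiff_empty, ha, ← prod_filter]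
  rw [mul_comm (∏ _ ∈ filter _ _, _), mul_right_comm]
  congr 1
  · congr 1
    refine prod_congr rfl fun t _ => ?_
    by_cases c : t = lo z <;> simp [c, (update_eq_self_iff (f := a)).2 ha.symm]
  · refine prod_bij (fun t _ => top t) (fun t ht => (mem_filter.1 ht).2)
      (fun t _ t' _ h => by rw [← lo_top t, h, lo_top]) (fun ⟨e, b⟩ he => ?_) fun _ _ => rfl
    obtain ⟨rfl, h⟩ := h4 _ he
    have : top (lo (e, true)) = (e, true) := by simp [top, lo]
    exact ⟨_, mem_filter.2 ⟨h, this.symm ▸ he⟩, this⟩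

theorem mem_lev {m : ℕ} {e : E} :
    e ∈ lev x y m ↔ e.2 = true ∧ e.1.2 = y ∧ x ≤ e.1.1 ∧ e.1.1 < x + m := by
  obtain ⟨⟨a, t⟩, b⟩ := e
  simp only [lev, mem_image, mem_range, Prod.mk.injEq]
  exact ⟨by rintro ⟨j, h, ⟨rfl, rfl⟩, rfl⟩; simp [h],
    fun h => ⟨(a - x).toNat, by omega, ⟨by omega, h.2.1.symm⟩, h.1.symm⟩⟩

theorem prod_str {m : X → M2} {c : M2} (h : ∀ k ∈ l, m k = c) :
    (l.map fun k => emb k (m k)).prod = str c l :=
  congrArg List.prod (List.map_congr_left fun k hk => by rw [h k hk])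

theorem str_one (l : List X) : str 1 l = 1 := by simp [str]

theorem rop_Lc (h : l.Nodup) (z : E) (S : Finset E) : rop (Lc z S) γ x l y =
    (l.map fun k : X => emb k (if top (k, y) ∈ S then tw else if top (k, y) = z then snk else 1)).prod *
    cl1 (γ ((x, y), false)) (γ ((x + l.length, y), false)) (gch (fun k : X => if rgt (k, y) = z then
      Matrix.of fun l r => if r then 0 else Lg (π / 2) l true else Lg (π / 2)) l) := by
  simp only [rop, cl1, Lc, gch_mul _ _ h, mul_sum, mul_smul_comm]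

theorem rop_Sv {l₁ l₂ : List X} {k : X} (h : Con x (l₁ ++ k :: l₂)) :
    rop (Lc ((x + l₁.length, y + 1), true) (lev x (y + 1) l₁.length)) γ x (l₁ ++ k :: l₂) y =
      str tw l₁ * emb k snk * T1 (γ ((x, y), false))
        (γ ((x + (l₁ ++ k :: l₂).length, y), false)) (l₁ ++ k :: l₂) := by
  obtain ⟨h1, h2, h3⟩ := con_append.1 h
  rw [rop_Lc h.nodup, gch_const (L := Lg (π / 2)) fun _ _ => if_neg (by simp [rgt]), List.map_append,
    List.prod_append, List.map_cons, List.prod_cons,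
    prod_str (c := tw) fun j hj => if_pos (by simpa [mem_lev, top] using h1.mem.1 hj),
    prod_str (c := 1) fun j hj => by
      have := h3.mem.1 hj
      rw [if_neg (by simp [mem_lev, top]; omega), if_neg (by simp [top]; omega)],
    str_one, mul_one, if_neg (by simp [mem_lev, top, h2]), if_pos (by simp [top, h2])]
  rfl

theorem rop_Sh {l₁ l₂ : List X} {k : X} (h : Con x (l₁ ++ [k] ++ l₂)) :
    rop (Lc ((x + (l₁ ++ [k]).length, y), false) (lev x (y + 1) (l₁ ++ [k]).length)) γ x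
      (l₁ ++ [k] ++ l₂) y = Sh (γ ((x, y), false)) (γ ((x + (l₁ ++ [k] ++ l₂).length, y), false))
        (l₁ ++ [k]) l₂ := by
  obtain ⟨h1, h2⟩ := con_append.1 h
  obtain ⟨h3, h4, -⟩ := con_append.1 h1
  rw [rop_Lc h.nodup, List.map_append, List.prod_append,
    prod_str (c := tw) fun j hj => if_pos (by simpa [mem_lev, top] using h1.mem.1 hj),
    prod_str (c := 1) fun j hj => by
      have := h2.mem.1 hj
      rw [if_neg (by simp only [mem_lev, top]; omega), if_neg (by simp [top])],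
    str_one, mul_one, Sh, gch_append, gch_append,
    gch_const (l := l₁) (L := Lg (π / 2)) fun j hj => if_neg (by
      have := h3.mem.1 hj
      simp [rgt]; omega),
    gch_const (l := l₂) (L := Lg (π / 2)) fun j hj => if_neg (by
      have := h2.mem.1 hj
      simp only [rgt, Prod.mk.injEq]; omega)]
  congr 2
  ext1 a b
  simp [gch, rgt, h4, add_assoc, rowc, row, chain, Matrix.mul_apply]

theorem wall {D : Finset V} {N h K : ℕ} {α : ℝ} {j : ℤ} (hc : Cut D γ x y N h K)
    (ht : Twi D γ γ' α x y j h) (hN : 0 < N) (t : ℤ) (a : y ≤ t) (b : t < y + h) :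
    γ' ((x + N, t), false) = γ ((x + N, y), false) := by
  obtain ⟨c1, ⟨-, c3, c4⟩, -, -, c5⟩ := hc
  have := c1 (x + N) t
  have := c1 (x + N - 1) t
  have := c4 (x + N - 1)
  rw [ht.2 _ (by simp only [mem_bd, lo]; grind) (by simp only []; omega),
    c5 _ t (by omega) a b (by simp only [mem_bd, lo]; grind)]

theorem term {D : Finset V} {N h K i i' m : ℕ} {α : ℝ} {z : E} {ψ : (col D y → Bool) → ℂ}
    {l : List (col D y)} (hc : Cut D γ x y N h K) (ht : Twi D γ γ' α x y (y + i + 1) h)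
    (hh : h = i + 1 + i') (l1 : Con x l) (l2 : l.length = N) (hm : m ≤ N)
    (z1 : (lo z).2 = y + i ∧ x ≤ (lo z).1 ∧ (lo z).1 < x + N) (z2 : z.1 ∈ D)
    (z3 : z ∉ lev x (y + i + 1) m)
    (H : Rep (fun _ => Lg (π / 2)) γ (below D y ∪ (col D y \ Ico x (x + N)) ×ˢ Ico y (y + h))
      (fun c => if c ∈ col D y \ Ico x (x + N) then y + h else y) ψ) :
    Zcut D γ' z (lev x (y + i + 1) m) = vecX (above D (y + h)) γ (col D y) (y + h) ⬝ᵥ
      (T1 (α - β) (γ ((x + N, y), false)) l ^ i' * rop (Lc z (lev x (y + i + 1) m)) γ' x l (y + i) *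
        T1 α (γ ((x + N, y), false)) l ^ i) *ᵥ ψ := by
  have r1 := wall hc ht (by omega)
  obtain ⟨c1, ⟨c2, c3, c4⟩, -, -, c5⟩ := hc
  subst l2
  have pl : ∀ t : V, t.2 ≠ y + i ∨ t.1 < x ∨ x + l.length ≤ t.1 →
      Lg (π / 2) = Lc z (lev x (y + i + 1) m) t := fun t h =>
    (Lc_plain (by rintro rfl; omega) (by simp only [mem_lev, top]; omega)).symm
  have H1 := (rep_congr (L' := Lc z (lev x (y + i + 1) m)) (γ' := γ') H (fun t h => pl t (by
      simp only [mem_union, below, mem_filter, mem_product, mem_sdiff, mem_Ico] at h; omega))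
    (fun _ _ => rfl) fun ⟨⟨a, t⟩, b⟩ h1 h2 => (ht.2 _ (by
      have := c1 a t
      have := c1 a (t - 1)
      have := c1 (a - 1) t
      have := c4 a
      have := c4 (a - 1)
      cases b <;> simp only [mem_bd, mem_union, below, mem_filter, mem_product, mem_sdiff, mem_Ico,
        mem_col, mem_legs, lo] at h1 h2 ⊢ <;> grind) (by
      have := c4 a
      cases b <;> simp only [mem_bd, mem_union, below, mem_filter, mem_product, mem_sdiff, mem_Ico,
        mem_col, mem_legs, lo] at h1 h2 ⊢ <;> grind)).symm).strip (y := y) l1 (by omega) h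
    (fun c a b => by
      have := c1 c (y - 1)
      have := c4 c a b
      simp only [mem_union, below, mem_filter, mem_sdiff, mem_Ico, mem_col]; grind)
    fun c t a b d e => by
      simp only [mem_union, below, mem_filter, mem_product, mem_sdiff, mem_Ico, mem_col]; grind
  have H2 := rep_congr (L' := Lc z (lev x (y + i + 1) m)) (γ' := γ')
    (rep_vec (above D (y + h)) γ (col D y) (y + h))
    (fun t h => pl t (by simp only [above, mem_filter] at h; omega)) (fun _ _ => rfl)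
    fun ⟨⟨a, t⟩, b⟩ h1 h2 => (ht.2 _ (by
      have := c1 a t
      cases b <;> simp only [mem_bd, above, mem_filter, mem_col, mem_legs, lo] at h1 h2 ⊢ <;> grind)
      (by cases b <;> simp only [mem_bd, above, mem_filter, lo] at h1 ⊢ <;> grind)).symm
  have := (rep_congr (ht' := fun _ => y + h) H1 (fun _ _ => rfl) (fun c hc => by
      simp only [rz, mem_sdiff, mem_Ico]; grind) fun _ _ _ => rfl).pair H2
    (disjoint_left.2 fun t h1 h2 => by
      simp only [mem_union, below, above, mem_filter, mem_product, mem_Ico, mem_rect] at h1 h2; omega)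
    (by
      ext ⟨⟨a, t⟩, b⟩
      have := c1 a t
      have := c1 a (t - 1)
      have := c4 a
      cases b <;> simp only [mem_inter, mem_sd, mem_union, below, above, mem_filter, mem_product,
        mem_sdiff, mem_Ico, mem_col, mem_legs, mem_rect, lo] <;> grind) fun _ => false
  rw [Zcut_eq (by have := c1 (lo z).1 (lo z).2; have := c4 (lo z).1; grind) z2 z3
    fun ⟨⟨a, t⟩, b⟩ he => by
      have := c1 a (t - 1)
      have := c4 a
      simp only [mem_lev, lo] at he ⊢; grind]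
  rw [← ops_three (fun t a b => by
      rw [rop, gch_const fun k _ => (pl _ (.inl (by simp only []; omega))).symm,
        ht.1 t a (by omega), if_pos (by omega), r1 t a (by omega)]; rfl) (fun t a b => by
      rw [rop, gch_const fun k _ => (pl _ (.inl (by simp only []; omega))).symm,
        ht.1 t (by omega) (by omega), if_neg (by omega), r1 t (by omega) (by omega)]; rfl), ← hh,
    ← this]
  congr 1
  ext ⟨a, t⟩
  have := c1 a t
  have := c4 a
  simp only [mem_union, below, above, mem_filter, mem_product, mem_sdiff, mem_Ico, mem_col, mem_rect]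
  grind

end DefA

open DefA in
theorem s_Def : S_Def := fun ε K ε0 => by
  obtain ⟨C₁, hA⟩ := partA ε ε0
  obtain ⟨C₂, c2, hO⟩ := oth
  refine ⟨C₁ * C₂ ^ K, fun D γ γ₀ γ₁ α x y t N M k hc ht h0 h1 e1 e2 e3 e4 => ?_⟩
  have kN : k + 2 ≤ N := by
    have : (0 : ℝ) ≤ ε * N := by positivity
    exact_mod_cast (by linarith : (k + 2 : ℝ) ≤ N)
  obtain ⟨c1, ⟨c3, c4, c5⟩, c6, c7, c8⟩ := id hc
  obtain ⟨l₁, p1, p2⟩ := exists_con (X := col D y) x k fun a b c => mem_col.2 (c5 a b (by omega))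
  obtain ⟨l₂, p3, p4⟩ := exists_con (X := col D y) (x + k + 1 + 1) (N - k - 2)
    fun a b c => mem_col.2 (c5 a (by omega) (by omega))
  let j : col D y := ⟨x + k, mem_col.2 (c5 _ (by omega) (by omega))⟩
  let j' : col D y := ⟨x + k + 1, mem_col.2 (c5 _ (by omega) (by omega))⟩
  have l1 : Con x (l₁ ++ j :: j' :: l₂) := con_append.2 ⟨p1, p2 ▸ ⟨rfl, rfl, p3⟩⟩
  have l2 : (l₁ ++ j :: j' :: l₂).length = N := by simp [p2, p4]; omega
  have el : l₁ ++ [j] ++ j' :: l₂ = l₁ ++ j :: j' :: l₂ := by simp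
  have l3 : (l₁ ++ [j]).length = k + 1 := by simp [p2]
  obtain ⟨ψ, H, hψ⟩ := hO (col D y) γ y (4 * M + 4) K (col D y \ Ico x (x + N)) (below D y)
    (fun _ => y) _ ((card_le_card fun a => by simp +contextual [mem_col]).trans c7)
    (fun c hc => by
      have := c1 c (y - 1)
      have := c6 c
      simp only [mem_sdiff, mem_col, mem_Ico, below, mem_filter] at hc ⊢; grind)
    (fun c t a b d => by simp only [below, mem_filter] at d; omega)
    (fun a t b c d => c8 a t (by simp only [mem_sdiff, mem_col, mem_Ico] at b; grind) c d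
      (by simp only [mem_sdiff, mem_col, mem_Ico, mem_bd, lo] at b ⊢; grind)) (rep_vec _ _ _ _)
  have m1 : ∀ a s, x ≤ a → a < x + N → y ≤ s → s ≤ t → (a, s) ∈ D := fun a s b c d e =>
    (c1 a s (by omega) (by omega)).2 (c5 a b c)
  have t1 : y + (2 + 2 * M : ℕ) = t := by omega
  have t2 : y + (1 + 2 * M : ℕ) = t - 1 := by omega
  have T1' := term (i := 2 + 2 * M) (i' := 2 * M + 1) (m := k + 1) (z := ((x + (k + 1 : ℕ), t), false))
    hc (t1 ▸ h1) (by omega) l1 l2 (by omega) (by simp only [lo]; grind)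
    (m1 _ _ (by omega) (by omega) (by omega) le_rfl) (by simp [mem_lev]) H
  have T2 : ∀ (m : ℕ) (z : E), m ≤ N → (lo z).2 = t - 1 ∧ x ≤ (lo z).1 ∧ (lo z).1 < x + N →
      z.1 ∈ D → z ∉ lev x t m → _ := fun m z a b c d =>
    term (i := 1 + 2 * M) (i' := 2 * M + 2) (m := m) (z := z) hc (by rwa [t2, sub_add_cancel])
      (by omega) l1 l2 a (t2 ▸ b) c (by rwa [t2, sub_add_cancel]) H
  have S1 := rop_Sh (γ := γ₁) (y := t) (el ▸ l1)
  have S2 := rop_Sh (γ := γ₀) (y := t - 1) (el ▸ l1)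
  have S3 := rop_Sv (γ := γ₀) (y := t - 1) (el ▸ l1)
  have S4 := rop_Sv (γ := γ₀) (y := t - 1) l1
  rw [l3, el, l2, h1.1 _ (by omega) (by omega), if_pos (by omega),
    wall hc h1 (by omega) _ (by omega) (by omega)] at S1
  rw [l3, el] at S2 S3
  rw [p2] at S4
  rw [l2, sub_add_cancel, h0.1 _ (by omega) (by omega), if_pos (by omega),
    wall hc h0 (by omega) _ (by omega) (by omega)] at S2 S3 S4
  rw [t1, S1] at T1'
  simp only [t2, sub_add_cancel] at T2
  rw [T1', T2 _ _ (by omega) (by simp only [lo]; grind)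
    (m1 _ _ (by grind) (by grind) (by grind) (by grind)) (by simp [mem_lev]),
    T2 _ _ (by omega) (by simp only [lo]; grind)
      (m1 _ _ (by grind) (by grind) (by grind) le_rfl) (by simp [mem_lev]),
    T2 _ _ (by omega) (by simp only [lo]; grind)
      (m1 _ _ (by grind) (by grind) (by grind) le_rfl) (by simp [mem_lev]), S2, S3, S4]
  clear hO T2 S1 S2 S3 S4 T1' H
  have key := hA _ α (γ ((x + N, y), false)) l₁ j j' l₂ N M l1.nodup l2.symm (p2 ▸ e1)
    (by rw [p4, Nat.sub_sub, Nat.cast_sub kN]; push_cast; linarith) e3 e4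
  clear hA
  have hcol : col D (y + (4 * M + 4 : ℕ)) = col D y := by
    ext a; rw [mem_col, mem_col, c1 a _ (by omega) le_rfl]
  rw [nup, hcol]
  generalize vecX (above D (y + (4 * M + 4 : ℕ))) γ (col D y) (y + (4 * M + 4 : ℕ)) = φ
  have n0 : ∀ f : (col D y → Bool) → ℂ, 0 ≤ nrmX f := fun f => Real.sqrt_nonneg _
  have k2 := (norm_dot φ _).trans (mul_le_mul_of_nonneg_left ((nrmX_mulVec _ ψ).trans
    (mul_le_mul key hψ (n0 _) ((norm_nonneg _).trans key))) (n0 φ))
  refine le_trans (le_of_eq ?_) (k2.trans (le_of_eq (by rw [nlo]; ring)))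
  congr 1
  simp only [CR, Sv, pow_add, pow_one, mul_add, add_mul, mul_sub, sub_mul, smul_mul_assoc,
    mul_smul_comm, mul_assoc, smul_add, add_mulVec, sub_mulVec, smul_mulVec, dotProduct_add,
    dotProduct_sub, dotProduct_smul, smul_eq_mul, pow_two]

end Pool.Agent.P.MP_6c8efb_pr.Cardy
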