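import Pool.Agent.P.MP_6c8efb_pr.Cardy.RMod
import Pool.Agent.P.MP_6c8efb_pr.Cardy.TInn

/-! The normal component of the observable near a flat piece of the boundary. -/

open Complex MeasureTheory
open scoped Real

namespace Pool.Agent.P.MP_6c8efb_pr.Cardy

open Arm (TC Pt TConn)

namespace RM

variable {P : Dom} {τ τ' : TC} {D : Finset V} {k₁ k₂ i j : ℕ} {a v w y : V} {e : E} {d : Fin 4}
  {r R : ℤ}

/-- translation of a side -/
def sh (a : V) (e : E) : E := (e.1 + a, e.2)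

theorem sh_zero (e : E) : sh 0 e = e := by simp [sh]

theorem sh_neg (a : V) (e : E) : sh a (sh (-a) e) = e := by simp [sh]

theorem lo_sh (a : V) (e : E) : lo (sh a e) = lo e + a := by
  unfold lo sh
  split_ifs <;> simp [Prod.ext_iff] <;> ring

theorem sh_edge (a y : V) (d : Fin 4) : sh a (edge y d) = edge (y + a) d := by
  rcases cases4 d with rfl | rfl | rfl | rfl <;> simp [sh, Prod.ext_iff] <;> ring

theorem sd1_sh {t : V} : sh a e ∈ sd1 (t + a) ↔ e ∈ sd1 t := by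
  rw [mem_sd1, mem_sd1, lo_sh]
  simp [sh]

theorem prt_sh (b : Bool) {t : V} (h : e ∈ sd1 t) : prt b (t + a) (sh a e) = sh a (prt b t e) := by
  have h1 : sh a (bot t) = bot (t + a) := rfl
  have h2 : sh a (lft t) = lft (t + a) := rfl
  have h3 : sh a (top t) = top (t + a) := by simp [sh, top, Prod.ext_iff]; ring
  have h4 : sh a (rgt t) = rgt (t + a) := by simp [sh, rgt, Prod.ext_iff]; ring
  rcases mem_sd1_iff.1 h with rfl | rfl | rfl | rfl <;> cases b <;> simp [h1, h2, h3, h4]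

theorem same_sh (h : ∀ x, Same τ D e x → ∀ t, x ∈ sd1 t → (t ∈ D ↔ t + a ∈ D) ∧ τ' (t + a) = τ t)
    (x : E) : Same τ' D (sh a e) (sh a x) ↔ Same τ D e x := by
  constructor
  · have k : ∀ z, Same τ' D (sh a e) z → Same τ D e (sh (-a) z) := fun z hz => by
      induction hz with
      | refl => simpa [sh] using Same.rfl'
      | @tail b c _ h2 ih =>
        obtain ⟨t, ht, h3, rfl⟩ := h2
        obtain ⟨t, rfl⟩ : ∃ s, t = s + a := ⟨t - a, by simp⟩
        rw [← sh_neg a b] at h3 ⊢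
        have h4 := sd1_sh.1 h3
        rw [(h _ ih t h4).2, prt_sh _ h4]
        simpa [sh] using ih.trans' (same_prt ((h _ ih t h4).1.2 ht) h4)
    exact fun hx => by simpa [sh] using k _ hx
  · intro hx
    induction hx with
    | refl => exact Same.rfl'
    | tail h1 h2 ih =>
      obtain ⟨t, ht, h3, rfl⟩ := h2
      rw [← prt_sh _ h3, ← (h _ h1 t h3).2]
      exact ih.trans' (same_prt ((h _ h1 t h3).1.1 ht) (sd1_sh.2 h3))

/-- the side lies on a strand -/
def OnS (τ : TC) (D : Finset V) (e : E) : Prop := ∃ x ∈ bd D, Same τ D e x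

theorem ons_sh (h : ∀ x, Same τ D e x → ∀ t, x ∈ sd1 t → (t ∈ D ↔ t + a ∈ D) ∧ τ' (t + a) = τ t) :
    OnS τ' D (sh a e) ↔ OnS τ D e := by
  have k : ∀ x, Same τ D e x → (sh a x ∈ bd D ↔ x ∈ bd D) := fun x hx => by
    rw [mem_bd, mem_bd, lo_sh, (h x hx _ (mem_sd1.2 (Or.inl rfl))).1,
      (h x hx _ (mem_sd1.2 (Or.inr rfl))).1]
    rfl
  constructor
  · rintro ⟨x, h1, h2⟩
    rw [← sh_neg a x] at h1 h2
    exact ⟨_, (k _ ((same_sh h _).1 h2)).1 h1, (same_sh h _).1 h2⟩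
  · rintro ⟨x, h1, h2⟩
    exact ⟨_, (k _ h2).2 h1, (same_sh h _).2 h2⟩

open Classical in
/-- the parity of the number of strands which cut off a vertex -/
noncomputable def sgn (P : Dom) (τ : TC) (y : V) : ℝ :=
  ∏ p ∈ P.strs τ, if P.Inn τ p.1 y then -1 else 1

open Classical in
theorem sgn_edge (he : edge y d ∈ sd P.D) :
    sgn P τ (y + u d) = (if OnS τ P.D (edge y d) then -1 else 1) * sgn P τ y := by
  unfold sgn
  split_ifs with h
  · obtain ⟨x, h1, h2⟩ := h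
    obtain ⟨k, hk, rfl⟩ := P.mem_bd_iff.1 h1
    obtain ⟨p, ⟨p1, p2⟩, p3⟩ := P.exists_strs τ hk
    rw [← Finset.mul_prod_erase _ _ p1, ← Finset.mul_prod_erase _ _ p1, ← mul_assoc]
    congr 1
    · have := mt (inn_edge s_top1 (mem_strs.1 p1) he).1 (not_not.2 (p2.trans' h2.symm'))
      split_ifs <;> simp_all
    · refine Finset.prod_congr rfl fun q hq => ?_
      obtain ⟨q1, q2⟩ := Finset.mem_erase.1 hq
      rw [(inn_edge s_top1 (mem_strs.1 q2) he).2 fun c => q1 (p3 q ⟨q2, c.trans' h2⟩)]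
  · rw [one_mul]
    refine Finset.prod_congr rfl fun q hq => ?_
    rw [(inn_edge s_top1 (mem_strs.1 hq) he).2 fun c => h ⟨_, P.b_mem_bd _, c.symm'⟩]

theorem sgn_c (P : Dom) (τ : TC) (k : ℕ) : sgn P τ (P.c k) = (-1) ^ k := by
  induction k with
  | zero =>
    refine Finset.prod_eq_one fun p hp => if_neg fun c => ?_
    have := (inn_c s_top1 (mem_strs.1 hp) (Nat.zero_le _)).1 c
    omega
  | succ k ih =>
    rw [P.step, sgn_edge (P.b_mem_sd k), if_pos ⟨_, P.b_mem_bd k, Same.rfl'⟩, ih, pow_succ']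

theorem ζ_re : ζ.re = 1 / 2 := by
  rw [ζ, show (π / 3 * I : ℂ) = (π / 3 : ℝ) * I by push_cast; ring, exp_ofReal_mul_I_re,
    Real.cos_pi_div_three]

theorem ζ_inv_re : ζ⁻¹.re = 1 / 2 := by
  rw [inv_re, normSq_eq_norm_sq, ← pow_one ζ, norm_ζ, pow_one, ζ_re]; norm_num

theorem ζ_five : ζ ^ 5 = ζ⁻¹ := by
  refine eq_inv_of_mul_eq_one_left ?_
  rw [← pow_succ, ζ, ← exp_nat_mul, ← exp_two_pi_mul_I]
  congr 1; push_cast; ring

/-- the normal component of the observable -/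
noncomputable def nv (P : Dom) (k₁ k₂ m : ℕ) (τ : TC) (y : V) : ℝ :=
  (P.val k₁ k₂ τ y / ζ ^ (2 * m)).re - 1 / 2

/-- the strands which leave the arc of `i` see `y` as they see `c i` -/
def FarI (P : Dom) (k₁ k₂ i : ℕ) (τ : TC) (y : V) : Prop := ∀ a b, P.Str τ a b →
  ¬(arc k₁ k₂ a = arc k₁ k₂ i ∧ arc k₁ k₂ b = arc k₁ k₂ i) → (P.Inn τ a y ↔ a < i ∧ i ≤ b)

open Classical in
theorem nv_eq (h : FarI P k₁ k₂ i τ y) : nv P k₁ k₂ (arc k₁ k₂ i) τ y =
    if P.Sec k₁ k₂ τ 0 y ∨ P.Sec k₁ k₂ τ 1 y ∨ P.Sec k₁ k₂ τ 2 y then 0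
    else -1 / 2 * (-1) ^ (P.pock k₁ k₂ τ (arc k₁ k₂ i) y).card := by
  have z0 : ζ ≠ 0 := pow_one ζ ▸ ζ_ne 1
  have m3 : arc k₁ k₂ i = 0 ∨ arc k₁ k₂ i = 1 ∨ arc k₁ k₂ i = 2 := by
    unfold arc; split_ifs <;> simp
  have mo := @arc_mono k₁ k₂
  unfold nv Dom.val
  by_cases h0 : P.Sec k₁ k₂ τ 0 y
  · rw [if_pos h0, if_pos (Or.inl h0), sub_eq_zero]
    obtain ⟨a, b, s, t⟩ := h0
    rw [if_pos rfl, h a b s (by omega)] at t
    have := @mo i a
    have := @mo b i
    rcases m3 with e | e | e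
    · rw [e, ζ_five]; simpa using ζ_inv_re
    · omega
    · rw [e, ← ζ_re]; congr 1; field_simp
  rw [if_neg h0]
  by_cases h1 : P.Sec k₁ k₂ τ 1 y
  · rw [if_pos h1, if_pos (Or.inr (Or.inl h1)), sub_eq_zero]
    obtain ⟨a, b, s, t⟩ := h1
    rw [if_neg one_ne_zero, h a b s (by omega)] at t
    have := @mo i b
    rcases m3 with e | e | e
    · rw [e]; simpa using ζ_re
    · rw [e, ← ζ_inv_re]; congr 1; field_simp
    · omega
  rw [if_neg h1]
  by_cases h2 : P.Sec k₁ k₂ τ 2 y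
  · rw [if_pos h2, if_pos (Or.inr (Or.inr h2)), sub_eq_zero]
    obtain ⟨a, b, s, t⟩ := h2
    rw [if_neg two_ne_zero, h a b s (by omega)] at t
    have := @mo a i
    rcases m3 with e | e | e
    · omega
    · rw [e, ← ζ_re]; congr 1; field_simp
    · rw [e, ← ζ_inv_re]; congr 1; field_simp
  rw [if_neg h2, if_neg (by tauto), Finset.sum_eq_single (arc k₁ k₂ i)]
  · split_ifs with c
    · rw [div_self (ζ_ne _), c.neg_one_pow]; norm_num
    · rw [(Nat.not_odd_iff_even.1 c).neg_one_pow]; norm_num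
  · intro m _ hm
    have : P.pock k₁ k₂ τ m y = ∅ := Finset.filter_eq_empty_iff.2 fun p hp c => by
      have := (h _ _ (mem_strs.1 hp) (by omega)).1 c.2.2
      have := @mo p.1 i
      have := @mo i p.2
      omega
    simp [this]
  · intro c
    exact (c (Finset.mem_range.2 (by omega))).elim

open Classical in
theorem sgn_eq (h : FarI P k₁ k₂ i τ y) : sgn P τ y =
    (-1) ^ (P.pock k₁ k₂ τ (arc k₁ k₂ i) y).card * ∏ p ∈ P.strs τ with
      ¬(arc k₁ k₂ p.1 = arc k₁ k₂ i ∧ arc k₁ k₂ p.2 = arc k₁ k₂ i),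
        if p.1 < i ∧ i ≤ p.2 then -1 else 1 := by
  rw [sgn, ← Finset.prod_filter_mul_prod_filter_not _ fun p : ℕ × ℕ =>
    arc k₁ k₂ p.1 = arc k₁ k₂ i ∧ arc k₁ k₂ p.2 = arc k₁ k₂ i]
  congr 1
  · rw [Finset.prod_ite, Finset.prod_const, Finset.prod_const_one, mul_one, Finset.filter_filter]
    simp only [Dom.pock, and_assoc]
  · refine Finset.prod_congr rfl fun p hp => ?_
    obtain ⟨h1, h2⟩ := Finset.mem_filter.1 hp
    simp only [h _ _ (mem_strs.1 h1) h2]

theorem nv_flip {y' : V} (h : FarI P k₁ k₂ i τ y) (h' : FarI P k₁ k₂ i τ' y')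
    (hs : ∀ a b, ¬(arc k₁ k₂ a = arc k₁ k₂ i ∧ arc k₁ k₂ b = arc k₁ k₂ i) →
      (P.Str τ' a b ↔ P.Str τ a b)) (hg : sgn P τ' y' = -sgn P τ y) :
    nv P k₁ k₂ (arc k₁ k₂ i) τ' y' = -nv P k₁ k₂ (arc k₁ k₂ i) τ y := by
  classical
  have k : ∀ m, P.Sec k₁ k₂ τ' m y' ↔ P.Sec k₁ k₂ τ m y := fun m => by
    refine exists_congr fun a => exists_congr fun b => ?_
    by_cases c : arc k₁ k₂ a = arc k₁ k₂ i ∧ arc k₁ k₂ b = arc k₁ k₂ i
    · split_ifs <;> simp [c.1, c.2] <;> omega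
    · rw [hs a b c]
      refine and_congr_right fun s => ?_
      rw [h a b s c, h' a b ((hs a b c).2 s) c]
  rw [nv_eq h, nv_eq h', k, k, k]
  split_ifs
  · simp
  rw [sgn_eq h, sgn_eq h', ← neg_mul, show (P.strs τ').filter _ = (P.strs τ).filter _ from
    Finset.ext fun p => by
      simp only [Finset.mem_filter, mem_strs]
      exact and_congr_left (hs _ _)] at hg
  rw [mul_right_cancel₀ (Finset.prod_ne_zero_iff.2 fun p _ => by split_ifs <;> norm_num) hg]
  ring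

/-- height of a tile above the line through `w` in the direction `d` -/
def hgt (w : V) (d : Fin 4) (t : V) : ℤ := ![t.2 - w.2, w.1 - 1 - t.1, w.2 - 1 - t.2, t.1 - w.1] d

/-- coordinates adapted to the direction `d` -/
def pt (w : V) (d : Fin 4) (s j : ℤ) : V := w + s • u d + j • u (d + 1)

/-- near `w` the domain is a half plane -/
def Flat (D : Finset V) (w : V) (d : Fin 4) (R : ℤ) : Prop :=
  ∀ t, dd w t < R → (t ∈ D ↔ 0 ≤ hgt w d t)

theorem flat_of (h : ∀ a b : ℤ, |a| ≤ R → |b| ≤ R → (fc (pt w d a b) (d + 1) ∈ D ↔ 0 ≤ b)) :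
    Flat D w d R := fun t ht => by
  have e : fc (pt w d (hgt w (d - 1) t) (hgt w d t)) (d + 1) = t := by
    rcases cases4 d with rfl | rfl | rfl | rfl <;> simp [pt, hgt, Prod.ext_iff] <;> omega
  rw [← h (hgt w (d - 1) t) (hgt w d t), e] <;> rcases cases4 d with rfl | rfl | rfl | rfl <;>
    simp [dd, hgt, abs_le, abs_lt] at ht ⊢ <;> omega

theorem dd_pt (w : V) (d : Fin 4) (s j : ℤ) : dd w (pt w d s j) = max |s| |j| := by
  rcases cases4 d with rfl | rfl | rfl | rfl <;> simp [pt, dd, max_comm]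

theorem pt_up (w : V) (d : Fin 4) (s j : ℤ) : pt w d s (j + 1) = pt w d s j + u (d + 1) := by
  simp only [pt, add_smul, one_smul, add_assoc]

theorem pt_fw (w : V) (d : Fin 4) (s j : ℤ) : pt w d (s + 1) j = pt w d s j + u d := by
  simp only [pt, add_smul, one_smul]; abel

theorem pt_zero (w : V) (d : Fin 4) : pt w d 0 0 = w := by simp [pt]

theorem Flat.pt (h : Flat D w d R) {s j : ℤ} (hs : |s| + 1 < R) (hj : |j| + 1 < R) :
    (fc (pt w d s j) (d + 1) ∈ D ↔ 0 ≤ j) ∧ (fc (pt w d s j) d ∈ D ↔ 0 < j) := by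
  rw [h, h] <;> rcases cases4 d with rfl | rfl | rfl | rfl <;>
    simp [RM.pt, dd, hgt, abs_eq_max_neg] at hs hj ⊢ <;> omega

theorem Flat.sh (h : Flat D w d R) {t : V} (ht : dd w t + 1 < R) : t ∈ D ↔ t + u d ∈ D := by
  have := abs_le.1 (dd_step w t d)
  rw [h, h] <;> try omega
  rcases cases4 d with rfl | rfl | rfl | rfl <;> simp [hgt]

theorem Flat.line (h : Flat D w d R) {d' : Fin 4} (hy : dd w y + 1 < R) (h1 : fc y (d' + 1) ∈ D)
    (h2 : fc y d' ∉ D) : ∃ s, y = RM.pt w d s 0 := by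
  have k : ∀ d', dd w (fc y d') < R := fun d' => by
    rcases cases4 d' with rfl | rfl | rfl | rfl <;> simp [dd, abs_eq_max_neg] at hy ⊢ <;>
      omega
  rw [h _ (k _)] at h1 h2
  refine ⟨![y.1 - w.1, y.2 - w.2, w.1 - y.1, w.2 - y.2] d, ?_⟩
  rcases cases4 d with rfl | rfl | rfl | rfl <;> rcases cases4 d' with rfl | rfl | rfl | rfl <;>
    simp [RM.pt, hgt, Prod.ext_iff] at h1 h2 ⊢ <;> omega

theorem Flat.run (h : Flat P.D w d R) {s : ℤ} (hj : P.c j = RM.pt w d s 0) (hs : |s| + 1 < R)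
    (k : ℕ) (hk : s + k < R) : P.c (j + k) = RM.pt w d (s + k) 0 := by
  induction k with
  | zero => simpa using hj
  | succ k ih =>
    push_cast at hk ⊢
    have e := ih (by omega)
    have h1 := h.pt (s := s + k) (j := 0) (by simp only [abs_eq_max_neg] at *; omega)
      (by have := abs_nonneg s; simp; omega)
    obtain ⟨l, e1, e2⟩ := (P.bdry _ _).1 ⟨h1.1.2 le_rfl, fun c => (h1.2.1 c).false⟩
    rw [← add_assoc, ← add_assoc, P.step, pt_fw, e, P.dir_eq (e.trans e1.symm), e2]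

theorem Flat.arc {R : ℕ} (h : Flat P.D (P.c i) d R) (h1 : R ≤ i) (h2 : i + R < P.n)
    (h3 : arc k₁ k₂ (i - R) = arc k₁ k₂ (i + R)) (hj : j < P.n) (hd : dd (P.c i) (P.c j) + 1 < R) :
    arc k₁ k₂ j = arc k₁ k₂ i := by
  obtain ⟨s, e⟩ := h.line hd (P.fc_in j) (P.fc_out j)
  rw [e, dd_pt] at hd
  have hs : |s| + 1 < R := by omega
  have k : i - R ≤ j ∧ j ≤ i + R := by
    obtain ⟨k, rfl | rfl⟩ := s.eq_nat_or_neg
    · have := h.run (pt_zero ..).symm (by simp at hs ⊢; omega) k (by simp at hs ⊢; omega)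
      rw [zero_add, ← e] at this
      have := P.inj _ (by simp at hs; omega) _ hj this
      simp at hs; omega
    · have := h.run e hs k (by have := abs_nonneg (-k : ℤ); omega)
      rw [neg_add_cancel, pt_zero, show i = i - k + k by simp at hs; omega, P.c_eq_iff] at this
      have := Nat.ModEq.add_right_cancel' k this
      rw [Nat.ModEq, Nat.mod_eq_of_lt hj, Nat.mod_eq_of_lt (by omega)] at this
      simp at hs; omega
  have := arc_mono k₁ k₂ k.1
  have := arc_mono k₁ k₂ k.2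
  have := arc_mono k₁ k₂ (show i - R ≤ i by omega)
  have := arc_mono k₁ k₂ (show i ≤ i + R by omega)
  omega

theorem Flat.far (h : Flat P.D w d R) {k : ℤ} (hk : 2 * k + 1 < R) (j : ℕ) :
    k ≤ dd (RM.pt w d 0 k) (P.c j) := by
  by_cases c : dd w (P.c j) + 1 < R
  · obtain ⟨s, e⟩ := h.line c (P.fc_in j) (P.fc_out j)
    rw [e]
    rcases cases4 d with rfl | rfl | rfl | rfl <;> simp [RM.pt, dd, abs_eq_max_neg]
  · rcases cases4 d with rfl | rfl | rfl | rfl <;> simp [RM.pt, dd, abs_eq_max_neg] at c ⊢ <;> omega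

/-- cyclic rotation of the rows of a box -/
def cyc (w : V) (d : Fin 4) (r : ℤ) (t : V) : V :=
  if dd w t ≤ r then (if dd w (t - u d) ≤ r then t - u d else t + (2 * r) • u d) else t

theorem cyc_inj (w : V) (d : Fin 4) (r : ℤ) : Function.Injective (cyc w d r) := by
  intro s t h
  simp only [cyc, dd, max_le_iff, abs_le] at h
  rcases cases4 d with rfl | rfl | rfl | rfl <;> split_ifs at h <;>
    simp only [u0, u1, u2, u3, Prod.ext_iff, Prod.fst_sub, Prod.snd_sub, Prod.fst_add, Prod.snd_add,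
      Prod.smul_fst, Prod.smul_snd, smul_eq_mul] at * <;> omega

theorem cyc_in {t : V} (h : dd w t < r) : cyc w d r (t + u d) = t := by
  have := abs_le.1 (dd_step w t d)
  rw [cyc, if_pos (by omega), add_sub_cancel_right, if_pos h.le]

theorem cyc_out {t : V} (h : r < dd w t) : cyc w d r t = t := if_neg h.not_ge

theorem dd_sd1 (w : V) {t : V} (h : e ∈ sd1 t) : |dd w t - dd w e.1| ≤ 1 := by
  rcases mem_sd1.1 h with rfl | rfl
  · simp
  · unfold lo
    split_ifs <;> simp only [dd, abs_eq_max_neg] <;> omega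

theorem Flat.nr (h : Flat D w d R) {s : ℤ} (hs : s = 0 ∨ s = 1) (k : ℕ) (hk : k < r)
    (hr : r + 1 < R) : Nr D w r w (RM.pt w d s k) := by
  induction k with
  | zero =>
    rcases hs with rfl | rfl
    · rw [Nat.cast_zero, pt_zero]; exact .refl
    · have e := pt_fw w d 0 0
      have h1 := (h.pt (s := 0) (j := 0) (by simp; omega) (by simp; omega)).1.2 le_rfl
      rw [pt_zero] at h1
      refine .single ⟨⟨d, by simpa [pt_zero] using e, edge_mem_sd.2 (Or.inl h1)⟩, ?_, ?_⟩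
      · simp [dd]; omega
      · rw [dd_pt]; simp; omega
  | succ k ih =>
    push_cast at hk ⊢
    have hs' : |s| ≤ 1 := by rcases hs with rfl | rfl <;> simp
    refine (ih (by omega)).tail ⟨⟨d + 1, pt_up .., edge_mem_sd.2 (Or.inr
      ((h.pt (by omega) (by simp; omega)).1.2 (by omega)))⟩, ?_, ?_⟩ <;> rw [dd_pt] <;>
      simp only [abs_eq_max_neg] at * <;> omega

theorem farI_of (hp : Nr P.D (P.c i) r (P.c i) y) (hi : i ≤ P.n)
    (h : ∀ j < P.n, arc k₁ k₂ j ≠ arc k₁ k₂ i → ∀ x, Same τ P.D (P.b j) x → r < dd (P.c i) x.1) :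
    FarI P k₁ k₂ i τ y := fun a b s c => by
  rw [← inn_c s_top1 s hi]
  refine (nr_inn s_top1 s hp fun z d h1 h2 h3 => ?_).symm
  have : r < dd (P.c i) (edge z d).1 := by
    by_cases e : arc k₁ k₂ a = arc k₁ k₂ i
    · exact h b s.2.1 (fun e' => c ⟨e, e'⟩) _ (s.2.2.symm'.trans' h3)
    · exact h a (s.1.trans s.2.1) e _ h3
  rcases dd_edge (P.c i) z d with e | e <;> omega

theorem nv_good {R k : ℕ} (h : Flat P.D (P.c i) (P.dir i) R) (h1 : R ≤ i) (h2 : i + R < P.n)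
    (h3 : arc k₁ k₂ (i - R) = arc k₁ k₂ (i + R)) (hk : k + 5 < r) (hr : r + 5 < R)
    (g1 : τ ∉ ArmS P.D (P.c i) (k + 5) (r - 5)) (g2 : τ ∉ ArmS P.D (P.c i) (r + 5) (R - 5)) :
    nv P k₁ k₂ (arc k₁ k₂ i) (fun t => τ (cyc (P.c i) (P.dir i) r t)) (pt (P.c i) (P.dir i) 1 k) =
      -nv P k₁ k₂ (arc k₁ k₂ i) τ (pt (P.c i) (P.dir i) 0 k) := by
  set τ' : TC := fun t => τ (cyc (P.c i) (P.dir i) r t) with hτ
  have f1 : ∀ j < P.n, arc k₁ k₂ j ≠ arc k₁ k₂ i → ∀ x, Same τ P.D (P.b j) x →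
      r + 5 < dd (P.c i) x.1 := fun j hj c x hx => by
    by_contra c'
    have := mt (h.arc h1 h2 h3 hj) c
    have := abs_le.1 (dd_b' P (P.c i) j)
    exact g2 ⟨_, _, hx.symm', by omega, by omega⟩
  have f2 : ∀ j < P.n, arc k₁ k₂ j ≠ arc k₁ k₂ i → ∀ x,
      Same τ' P.D (P.b j) x ↔ Same τ P.D (P.b j) x := fun j hj c x => by
    have := same_sh (τ' := τ') (a := 0) (fun z hz t ht => by
      have := f1 j hj c z hz
      have := abs_le.1 (dd_sd1 (P.c i) ht)
      simp only [add_zero, true_and, hτ, cyc_out (show r < dd (P.c i) t by omega)]) x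
    rwa [sh_zero, sh_zero] at this
  refine nv_flip (farI_of (h.nr (r := k + 1) (Or.inl rfl) k (by omega) (by omega)) (by omega)
    fun j hj c x hx => by have := f1 j hj c x hx; omega)
    (farI_of (h.nr (r := k + 1) (Or.inr rfl) k (by omega) (by omega)) (by omega)
      fun j hj c x hx => by have := f1 j hj c x ((f2 j hj c x).1 hx); omega) (fun a b c => ?_) ?_
  · refine and_congr_right fun s => and_congr_right fun s' => ?_
    by_cases e : arc k₁ k₂ a = arc k₁ k₂ i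
    · rw [same_comm, f2 b s' fun e' => c ⟨e, e'⟩, same_comm]
    · exact f2 a (s.trans s') e _
  have f3 : ∀ l : ℕ, l ≤ k → sgn P τ' (pt (P.c i) (P.dir i) 1 l) =
      -sgn P τ (pt (P.c i) (P.dir i) 0 l) := fun l hl => by
    induction l with
    | zero =>
      have e := pt_fw (P.c i) (P.dir i) 0 0
      rw [zero_add, pt_zero, ← P.step] at e
      rw [Nat.cast_zero, e, pt_zero, sgn_c, sgn_c, pow_succ]; ring
    | succ l ih =>
      have e : edge (pt (P.c i) (P.dir i) 1 l) (P.dir i + 1) =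
          sh (u (P.dir i)) (edge (pt (P.c i) (P.dir i) 0 l) (P.dir i + 1)) := by
        rw [sh_edge, ← pt_fw, zero_add]
      have m : ∀ s : ℤ, |s| ≤ 1 → edge (pt (P.c i) (P.dir i) s l) (P.dir i + 1) ∈ sd P.D :=
        fun s hs => edge_mem_sd.2 (Or.inr ((h.pt (by omega) (by simp; omega)).1.2 (by omega)))
      push_cast
      rw [pt_up, pt_up, sgn_edge (m 1 (by simp)), sgn_edge (m 0 (by simp)), ih (by omega), e,
        ons_sh (τ := τ), mul_neg]
      intro x hx t ht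
      have : dd (P.c i) x.1 < r - 5 := by
        by_contra c
        refine g1 ⟨_, _, hx, ?_, by omega⟩
        rcases dd_edge (P.c i) (pt (P.c i) (P.dir i) 0 l) (P.dir i + 1) with e | e <;> rw [e]
        · rw [dd_pt]; simp; omega
        · rw [← pt_up, dd_pt]; simp [abs_eq_max_neg]; omega
      have := abs_le.1 (dd_sd1 (P.c i) ht)
      exact ⟨h.sh (by omega), by simp only [hτ, cyc_in (show dd (P.c i) t < r by omega)]⟩
  exact f3 k le_rfl

theorem locF_comp {f : TC → ℝ} (h : LocF f) (φ : V → V) : LocF fun τ : TC => f fun t => τ (φ t) :=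
  let ⟨_, hS, h⟩ := h
  ⟨_, hS.image φ, fun _ _ hτ => h fun t ht => hτ _ ⟨t, ht, rfl⟩⟩

theorem nv_le (hV : S_Val) (hk : Mk P k₁ k₂) (m : ℕ) (τ : TC) (y : V) :
    |nv P k₁ k₂ m τ y| ≤ 3 / 2 := by
  have : _ ≤ (1 : ℝ) := (abs_re_le_norm (P.val k₁ k₂ τ y / ζ ^ (2 * m))).trans (by
    rw [norm_div, norm_ζ, div_one]
    exact ((hV P k₁ k₂ hk).2 τ).1 y)
  rw [nv, abs_le] at *
  constructor <;> linarith [this.1, this.2]

theorem nv_loc (hV : S_Val) (hk : Mk P k₁ k₂) (m : ℕ) (y : V) : LocF fun τ => nv P k₁ k₂ m τ y :=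
  ((hV P k₁ k₂ hk).1 y).comp fun z => (z / ζ ^ (2 * m)).re - 1 / 2

theorem nv_int (hV : S_Val) (hk : Mk P k₁ k₂) (m : ℕ) (y : V) :
    (P.F k₁ k₂ y / ζ ^ (2 * m)).re - 1 / 2 = ∫ τ, nv P k₁ k₂ m τ y ∂PM fun _ => hf := by
  have h1 := (hV P k₁ k₂ hk).1 y
  rw [Dom.F, ← integral_div, ← RCLike.re_to_complex, ← integral_re
    ((integrable h1 fun τ => ((hV P k₁ k₂ hk).2 τ).1 y).div_const _)]
  simp only [nv]
  rw [integral_sub ((h1.comp fun z => (z / ζ ^ (2 * m)).re).integrable _) (integrable_const _)]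
  simp

theorem scales {c : ℝ} (hc : 0 < c) {k R : ℕ} (h1 : 1 ≤ k) (h2 : k ≤ R) : ∃ r : ℕ, 1 ≤ r ∧
    ((1 : ℝ) / k) ^ c ≤ (k : ℝ) ^ (-(c / 2)) ∧
    ((k : ℝ) / r) ^ c ≤ 2 ^ c * ((k : ℝ) / R) ^ (c / 2) ∧
    ((r : ℝ) / R) ^ c ≤ ((k : ℝ) / R) ^ (c / 2) := by
  have r1 : 1 ≤ (k * R).sqrt := Nat.le_sqrt.2 (by nlinarith)
  have r2 := Nat.sqrt_le (k * R)
  have r3 := Nat.lt_succ_sqrt (k * R)
  generalize (k * R).sqrt = r at r1 r2 r3
  have k0 : (1 : ℝ) ≤ k := by exact_mod_cast h1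
  have R0 : (0 : ℝ) < R := by exact_mod_cast (by omega : 0 < R)
  have r0 : (0 : ℝ) < r := by exact_mod_cast (by omega : 0 < r)
  have q : ∀ x y : ℝ, 0 ≤ x → x ^ 2 ≤ y → x ^ c ≤ y ^ (c / 2) := fun x y hx h => by
    rw [show c = 2 * (c / 2) by ring, Real.rpow_mul hx, Real.rpow_two,
      show 2 * (c / 2) / 2 = c / 2 by ring]
    exact Real.rpow_le_rpow (by positivity) h (by positivity)
  refine ⟨r, r1, ?_, ?_, q _ _ (by positivity) ?_⟩
  · rw [one_div, Real.inv_rpow (by linarith), ← Real.rpow_neg (by linarith)]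
    exact Real.rpow_le_rpow_of_exponent_le k0 (by linarith)
  · rw [← div_le_iff₀' (by positivity), ← Real.div_rpow (by positivity) (by norm_num)]
    refine q _ _ (by positivity) ?_
    have : ((k * R : ℕ) : ℝ) ≤ (4 * (r * r) : ℕ) := by
      exact_mod_cast (by simp only [Nat.succ_eq_add_one] at r3; nlinarith)
    push_cast at this
    rw [div_pow, div_pow, div_div, div_le_div_iff₀ (by positivity) R0]
    nlinarith
  · have : ((r * r : ℕ) : ℝ) ≤ (k * R : ℕ) := by exact_mod_cast r2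
    push_cast at this
    rw [div_pow, div_le_div_iff₀ (by positivity) R0]
    nlinarith

end RM

open RM

theorem s_Nor (hV : S_Val) : S_Nor := by
  obtain ⟨c, C, c0, C0, ht, h⟩ := arm_room
  have t1 : (1 : ℝ) ≤ 2 ^ c := Real.one_le_rpow (by norm_num) c0.le
  refine ⟨3 * C * 2 ^ c, c / 2, by positivity, fun P k₁ k₂ i k R hk h1 h2 h3 h4 h5 h6 => ?_⟩
  obtain ⟨r, r1, s1, s2, s3⟩ := scales c0 h1 h2
  have hF : Flat P.D (P.c i) (P.dir i) R := flat_of h6
  have e : P.c i + (k : ℤ) • u (P.dir i + 1) = pt (P.c i) (P.dir i) 0 k := by simp [pt]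
  rw [e, nv_int hV hk]
  set q : ℝ := ((k : ℝ) / R) ^ (c / 2)
  set q' : ℝ := (k : ℝ) ^ (-(c / 2))
  have q0 : 0 ≤ q := by positivity
  have q1 : 0 ≤ q' := by positivity
  have b1 : C * ((1 : ℝ) / k) ^ c ≤ C * 2 ^ c * q' := by
    rw [mul_assoc]; exact mul_le_mul_of_nonneg_left (by nlinarith) C0.le
  have b2 : C * ((k : ℝ) / r) ^ c ≤ C * 2 ^ c * q := by
    rw [mul_assoc]; exact mul_le_mul_of_nonneg_left s2 C0.le
  have b3 : C * ((r : ℝ) / R) ^ c ≤ C * 2 ^ c * q := by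
    rw [mul_assoc]; exact mul_le_mul_of_nonneg_left (by nlinarith) C0.le
  have p1 : 0 ≤ C * 2 ^ c * q := by positivity
  have p2 : 0 ≤ C * 2 ^ c * q' := by positivity
  have hL := nv_loc hV hk (arc k₁ k₂ i)
  have hb := nv_le hV hk (arc k₁ k₂ i)
  have triv : |∫ τ, nv P k₁ k₂ (arc k₁ k₂ i) τ (pt (P.c i) (P.dir i) 0 k) ∂PM fun _ => hf| ≤
      3 / 2 := (abs_int_le (A := Set.univ) (hL _) (hb · _) (by simp)).trans (by
        linarith [Arm.Pt_le_one Set.univ])
  by_cases c1 : (r : ℤ) ≤ 20 * k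
  · have := ht k r (by omega) (by omega) c1
    push_cast at this
    linarith
  by_cases c2 : (R : ℤ) ≤ 20 * r
  · have := ht r R (by omega) (by omega) c2
    push_cast at this
    linarith
  have a1 := h P.D (pt (P.c i) (P.dir i) 0 k) 1 k le_rfl (by omega)
  have a2 := h P.D (P.c i) k r (by omega) (by omega)
  have a3 := h P.D (P.c i) r R (by omega) (by omega)
  have hL' := locF_comp (hL (pt (P.c i) (P.dir i) 1 k)) (cyc (P.c i) (P.dir i) r)
  have d1 := abs_int_le (K := 3) ((hL (pt (P.c i) (P.dir i) 0 k)).comp₂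
    (hL (pt (P.c i) (P.dir i) 1 k)) (· - ·))
    (A := ArmS P.D (pt (P.c i) (P.dir i) 0 k) (1 + 5) (k - 5))
    (fun τ => (abs_sub _ _).trans ((add_le_add (hb ..) (hb ..)).trans_eq (by norm_num)))
    fun τ hτ => by
      have e := pt_fw (P.c i) (P.dir i) 0 k
      rw [zero_add] at e
      rw [sub_eq_zero, nv, nv, e, val_congr fun a b s => (inn_edge s_top1 s (edge_mem_sd.2 (Or.inl
        ((hF.pt (by simp; omega) (by simp; omega)).1.2 (by omega))))).2 fun c => hτ ?_]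
      have := hF.far (k := k) (by omega) a
      have := abs_le.1 (dd_b' P (pt (P.c i) (P.dir i) 0 k) a)
      have := abs_le.1 (dd_step (pt (P.c i) (P.dir i) 0 k) (pt (P.c i) (P.dir i) 0 k) (P.dir i))
      have : dd (pt (P.c i) (P.dir i) 0 k) (pt (P.c i) (P.dir i) 0 k) = 0 := by simp [dd]
      refine ⟨_, _, c.symm', ?_, by omega⟩
      rcases dd_edge (pt (P.c i) (P.dir i) 0 k) (pt (P.c i) (P.dir i) 0 k) (P.dir i) with e | e <;>
        omega
  have d2 := abs_int_le (K := 3) ((hL (pt (P.c i) (P.dir i) 0 k)).comp₂ hL' (· + ·))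
    (A := ArmS P.D (P.c i) (k + 5) (r - 5) ∪ ArmS P.D (P.c i) (r + 5) (R - 5))
    (fun τ => (abs_add_le _ _).trans ((add_le_add (hb ..) (hb ..)).trans_eq (by norm_num)))
    fun τ hτ => by
      rw [nv_good hF h3 h4 h5 (by omega) (by omega) (fun c => hτ (Or.inl c)) fun c => hτ (Or.inr c),
        add_neg_cancel]
  rw [integral_sub ((hL _).integrable _) ((hL _).integrable _)] at d1
  rw [integral_add ((hL _).integrable _) (hL'.integrable _),
    integral_comp_inj _ (cyc_inj _ _ _) (hL _)] at d2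
  have a4 : Pt _ ≤ Pt _ + Pt _ := Pr_union_le _ (ArmS P.D (P.c i) (k + 5) (r - 5))
    (ArmS P.D (P.c i) (r + 5) (R - 5))
  push_cast at a1 a2 a3 d1
  rw [abs_le] at *
  constructor <;> linarith [d1.1, d1.2, d2.1, d2.2]

end Pool.Agent.P.MP_6c8efb_pr.Cardy
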