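import Pool.Agent.P.MP_6c8efb_pr.Cardy.BIface

/-! Statements on turning numbers. -/

namespace Pool.Agent.P.MP_6c8efb_pr.Cardy

open Arm (TC)

/-- the direction of the natural arrow through a side -/
def nd (e : E) : ℤ := if e.2 then (if nat e then 1 else 3) else if nat e then 0 else 2

/-- loops of any finite set of tiles make one full turn -/
def S_Loop : Prop := ∀ (τ : TC) (D : Finset V), ∀ e ∈ sd D, Disjoint (cls τ D e) (bd D) →
  trK τ D (cls τ D e) = 4 ∨ trK τ D (cls τ D e) = -4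

/-- the turning of a strand from its entrance to the end of a chord -/
def S_Half : Prop := ∀ (P : Dom) (τ : TC) (s : ℕ) (x t : ℤ) (k : ℕ) (z : E) (p : ℕ),
  0 < s → s < P.n → P.c s = (x, t) → P.dir (s - 1) = 3 → P.dir s = 3 →
  (∀ j ≤ k, (x + j, t) ∈ P.D ∧ (x + j, t - 1) ∈ P.D) →
  (z = ((x + k, t), true) ∨ (0 < k ∧ z = ((x + k, t - 1), false))) →
  p < P.n → tin (P.b p) ∈ P.D → Same τ P.D (P.b p) z →
  trK τ P.D (bef τ P.D z) = P.ψ s - P.ψ p - (if p < s then 4 else 0) + nd z -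
    4 * ∑ e ∈ bef τ P.D z with e ∈ lev x t k, if nat e then 1 else -1

end Pool.Agent.P.MP_6c8efb_pr.Cardy
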