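import Pool.Agent.P.MP_6c8efb_pr.Cardy.Val
import Pool.Agent.P.MP_6c8efb_pr.Cardy.TIface

/-! The increment of the observable is the amplitude of the configuration cut at a side. -/

open Complex
open scoped Real ComplexConjugate

namespace Pool.Agent.P.MP_6c8efb_pr.Cardy

open Arm (TC Pt TConn)

namespace Ct

variable {P : Dom} {τ : TC} {D : Finset V} {k₁ k₂ s i j k : ℕ} {x t : ℤ} {z e : E}

theorem ang_b (g : ℕ → ℝ) (hi : i < P.n) : P.ang g (P.b i) = g i := by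
  have : (Finset.range P.n).filter (fun m => P.b m = P.b i) = {i} := by
    ext m
    rw [Finset.mem_filter, Finset.mem_range, Finset.mem_singleton]
    exact ⟨fun h => P.b_inj h.1 hi h.2, by rintro rfl; exact ⟨hi, rfl⟩⟩
  rw [Dom.ang, this, Finset.sum_singleton]

/-- the flux of a set of sides through `S` -/
def flx (S K : Finset E) : ℤ := ∑ e ∈ K with e ∈ S, if nat e then 1 else -1

theorem sum_θ (γ : E → ℝ) (S K : Finset E) : ∑ e ∈ K, θs τ D γ S e = π / 12 * trK τ D K +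
    ∑ e ∈ K with tin e ∉ D, γ e - ∑ e ∈ K with tout e ∉ D, γ e + β * flx S K := by
  simp only [trK, flx, Finset.sum_filter, Int.cast_sum, Finset.mul_sum, ← Finset.sum_add_distrib,
    ← Finset.sum_sub_distrib]
  refine Finset.sum_congr rfl fun e _ => ?_
  unfold θs
  split_ifs <;> push_cast <;> ring

open Classical in
theorem flux {J : V → ℤ} (hJ : ∀ y ∈ sd D, J (lv y) - J (rv y) = if Same τ D e y then 1 else 0)
    (hk : ∀ j ≤ k, (x + j, t) ∈ D ∧ (x + j, t - 1) ∈ D) :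
    flx (lev x t k) (cls τ D e) = J (x, t) - J (x + k, t) := by
  have h := Finset.sum_range_sub' (fun j : ℕ => J (x + j, t)) k
  simp only [Nat.cast_zero, add_zero] at h
  rw [← h, flx, Finset.filter_mem_eq_inter, Finset.inter_comm, ← Finset.filter_mem_eq_inter,
    Finset.sum_filter, lev, Finset.sum_image fun a _ b _ h => by simpa using h]
  refine Finset.sum_congr rfl fun j hj => ?_
  have h1 : ((x + j, t), true) ∈ sd D := mem_sd.2 (Or.inl (hk j (Finset.mem_range.1 hj).le).1)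
  have h2 := hJ _ h1
  simp only [mem_cls, h1, true_and, nat, lv, rv, hd_true, Nat.cast_succ, ← add_assoc] at h2 ⊢
  by_cases a : Even (x + j + t) <;> by_cases b : Same τ D e ((x + j, t), true) <;>
    simp [a, b] at h2 ⊢ <;> omega

theorem loop_w (h2 : S_Top2) (γ : E → ℝ) (hs : P.c s = (x, t))
    (hk : ∀ j ≤ k, (x + j, t) ∈ P.D ∧ (x + j, t - 1) ∈ P.D) (hz : Same τ P.D (P.b i) z)
    (hv : z.1 = (x + k, t) ∨ hd z = (x + k, t)) (he : e ∈ sd P.D)
    (hl : Disjoint (cls τ P.D e) (bd P.D)) : cw τ P.D γ (lev x t k) (cls τ P.D e) = 1 := by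
  obtain ⟨h3, J, h4, h5⟩ := (h2 P τ).2.2 e he hl
  have h6 : ∀ y, Same τ P.D (P.b i) y → J (lv y) = J (rv y) := fun y hy => by
    have := h4 y (hy.mem (P.b_mem_sd i))
    rw [if_neg fun a => Finset.disjoint_left.1 hl ((mem_cls' he).2 (a.trans' hy.symm'))
      (P.b_mem_bd i)] at this
    omega
  have h7 : J (lv z) = 0 := hz.ind (p := fun y => J (lv y) = 0)
    (by rcases P.b_lr i with ⟨a, -⟩ | ⟨a, -⟩ <;> rw [a, h5]) fun y hy hy' => by
      rcases lv_nx τ y with ⟨a, -⟩ | ⟨a, -⟩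
      · rw [a]
      · rw [h6 _ hy, h6 _ (hy.trans' (same_nx hy')), a]
  have h8 : J (x + k, t) = 0 := by
    have := h6 z hz
    rcases lv_rv z with ⟨a, b⟩ | ⟨a, b⟩ <;> rcases hv with c | c <;> rw [← c] <;>
      rw [a] at h7 this <;> rw [b] at this <;> omega
  have h9 : ∀ y ∈ cls τ P.D e, tin y ∈ P.D ∧ tout y ∈ P.D := fun y hy => by
    have a := mem_sd'.1 (mem_cls.1 hy).1
    have b := Finset.disjoint_left.1 hl hy
    rw [mem_bd'] at b
    tauto
  rw [cw, sum_θ, flux h4 hk, h8, ← hs, h5, Finset.disjoint_iff_inter_eq_empty.1 hl,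
    Finset.filter_false_of_mem fun y hy => not_not.2 (h9 y hy).1,
    Finset.filter_false_of_mem fun y hy => not_not.2 (h9 y hy).2]
  have e1 : π / 12 * 4 = π / 3 := by ring
  rcases h3 with a | a <;> rw [a] <;> simp [e1]

/-- the two ends of a strand -/
theorem ends_str {e₀ e₁ : E} (h : Same τ D e₀ e₁) (a0 : tin e₀ ∈ D) (b0 : tout e₀ ∉ D)
    (a1 : tin e₁ ∉ D) : (cls τ D e₀).filter (fun y => tin y ∉ D) = {e₁} ∧
      (cls τ D e₀).filter (fun y => tout y ∉ D) = {e₀} ∧ (cls τ D e₀ ∩ bd D).card = 2 := by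
  have m : ∀ y, y ∈ cls τ D e₀ ↔ Same τ D e₀ y := fun y => mem_cls' (mem_sd'.2 (Or.inl a0))
  have b1 := (mem_sd'.1 (h.mem (mem_sd'.2 (Or.inl a0)))).resolve_left a1
  refine ⟨?_, ?_, Finset.card_eq_two.2 ⟨e₀, e₁, by rintro rfl; exact a1 a0, ?_⟩⟩ <;> ext y
  · rw [Finset.mem_filter, m, Finset.mem_singleton]
    exact ⟨fun a => exit_unique (a.1.symm'.trans' h) a.2 a1, by rintro rfl; exact ⟨h, a1⟩⟩
  · rw [Finset.mem_filter, m, Finset.mem_singleton]
    exact ⟨fun a => entry_unique a.1.symm' a.2 b0, by rintro rfl; exact ⟨Same.rfl', b0⟩⟩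
  · rw [Finset.mem_inter, m, mem_bd', Finset.mem_insert, Finset.mem_singleton]
    constructor
    · rintro ⟨a, b⟩
      by_cases c : tin y ∈ D
      · exact Or.inl (entry_unique a.symm' (by tauto) b0)
      · exact Or.inr (exit_unique (a.symm'.trans' h) c a1)
    · rintro (rfl | rfl)
      exacts [⟨Same.rfl', by tauto⟩, ⟨h, by tauto⟩]

open Classical in
/-- the phase collected along a strand, in units of `π / 6` -/
theorem str_sum (h2 : S_Top2) (hn : s < P.n) (hs : P.c s = (x, t))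
    (hk : ∀ j ≤ k, (x + j, t) ∈ P.D ∧ (x + j, t - 1) ∈ P.D) (h : P.Str τ i j) :
    ∑ e ∈ cls τ P.D (P.b i), θs τ P.D (P.ang (P.gam k₁ k₂ s)) (lev x t k) e =
      π / 6 * (((if tin (P.b i) ∈ P.D then 1 else -1) * (2 * (arc k₁ k₂ j - arc k₁ k₂ i) - 1 -
        if P.Inn τ i (x + k, t) then 4 else 0) : ℤ) : ℝ) ∧
      (cls τ P.D (P.b i) ∩ bd P.D).card = 2 := by
  have h1 := h.1
  have h3 := h.2.1
  have f := flux (τ := τ) (e := P.b i) (J := fun v => (if tin (P.b i) ∈ P.D then -1 else 1) *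
      if P.Inn τ i v then 1 else 0) (fun y hy => by
    by_cases a : Same τ P.D (P.b i) y
    · obtain ⟨b, c⟩ := h.inn_lr a
      by_cases d : tin (P.b i) ∈ P.D <;> simp [a, b, c, d]
    · have := Dom.inn_side hy a
      rcases lv_rv y with ⟨b, c⟩ | ⟨b, c⟩ <;> simp [a, b, c, this]) hk
  rw [← hs] at f
  simp only [h.inn_c hn.le] at f
  rw [sum_θ, f, (h2 P τ).2.1 i j h]
  have bi := mem_bd'.1 (P.b_mem_bd i)
  have bj := mem_bd'.1 (P.b_mem_bd j)
  have tj := h.tin_iff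
  by_cases d : tin (P.b i) ∈ P.D
  · obtain ⟨a, b, c⟩ := ends_str h.2.2 d (by tauto) (by tauto)
    refine ⟨?_, c⟩
    rw [a, b, Finset.sum_singleton, Finset.sum_singleton, ang_b _ h3, ang_b _ (h1.trans h3)]
    simp only [Dom.gam, β, d, if_true]
    split_ifs <;> first | omega | (push_cast; ring)
  · obtain ⟨a, b, c⟩ := ends_str h.2.2.symm' (by tauto) (by tauto) d
    rw [← h.2.2.cls_eq] at a b c
    refine ⟨?_, c⟩
    rw [a, b, Finset.sum_singleton, Finset.sum_singleton, ang_b _ h3, ang_b _ (h1.trans h3)]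
    simp only [Dom.gam, β, d, if_false]
    split_ifs <;> first | omega | (push_cast; ring)

theorem cos6 (n : ℤ) : Real.cos (π / 6 * (-1 * n : ℤ)) = Real.cos (π / 6 * (1 * n : ℤ)) := by
  rw [← Real.cos_neg]; congr 1; push_cast; ring

theorem str_w (h2 : S_Top2) (hn : s < P.n) (hs : P.c s = (x, t))
    (hk : ∀ j ≤ k, (x + j, t) ∈ P.D ∧ (x + j, t - 1) ∈ P.D) {q : ℕ × ℕ} (h : P.Str τ q.1 q.2) :
    (cw τ P.D (P.ang (P.gam k₁ k₂ s)) (lev x t k) (cls τ P.D (P.b q.1)) : ℂ) =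
      P.sw k₁ k₂ τ (x + k, t) q := by
  obtain ⟨a, b⟩ := str_sum (k₁ := k₁) (k₂ := k₂) h2 hn hs hk h
  have r : (3 : ℝ) ^ (-((2 : ℕ) : ℝ) / 4) = (Real.sqrt 3)⁻¹ := by
    rw [Real.sqrt_eq_rpow, ← Real.rpow_neg (by norm_num)]; norm_num
  have r0 : Real.sqrt 3 ≠ 0 := by positivity
  have c1 : Real.cos (π / 6 * (1 : ℤ)) = Real.sqrt 3 / 2 := by simp
  have c3 : Real.cos (π / 6 * (3 : ℤ)) = 0 := by
    rw [← Real.cos_pi_div_two]; congr 1; push_cast; ring
  have c5 : Real.cos (π / 6 * (5 : ℤ)) = -(Real.sqrt 3 / 2) := by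
    rw [← Real.cos_pi_div_six, ← Real.cos_pi_sub]; congr 1; push_cast; ring
  have key : ∀ n : ℤ, (Real.sqrt 3)⁻¹ * (2 * Real.cos (π / 6 * (1 * n : ℤ))) =
      if n = 1 ∨ n = -1 then 1 else if n = 3 ∨ n = -3 then 0 else if n = -5 then -1 else
        (Real.sqrt 3)⁻¹ * (2 * Real.cos (π / 6 * (1 * n : ℤ))) := fun n => by
    split_ifs with p q u
    · rcases p with rfl | rfl
      · rw [one_mul, c1]; field_simp
      · rw [← cos6, show (-1 * -1 : ℤ) = 1 from rfl, c1]; field_simp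
    · rcases q with rfl | rfl
      · rw [one_mul, c3]; simp
      · rw [← cos6, show (-1 * -3 : ℤ) = 3 from rfl, c3]; simp
    · rw [u, ← cos6, show (-1 * -5 : ℤ) = 5 from rfl, c5]; field_simp
    · rfl
  have m := Vl.arc_mon k₁ k₂ h.1.le
  have l := Vl.arc_le k₁ k₂ q.2
  rw [cw, a, b, r, Vl.sw_eq h]
  by_cases d : tin (P.b q.1) ∈ P.D <;> simp only [d, if_true, if_false, cos6] <;> rw [key] <;>
    split_ifs <;> first | omega | simp

theorem prod_w (h2 : S_Top2) (hn : s < P.n) (hs : P.c s = (x, t))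
    (hk : ∀ j ≤ k, (x + j, t) ∈ P.D ∧ (x + j, t - 1) ∈ P.D) (h : P.Str τ i j)
    (hz : Same τ P.D (P.b i) z) (hv : z.1 = (x + k, t) ∨ hd z = (x + k, t)) :
    ∏ q ∈ (P.strs τ).erase (i, j), P.sw k₁ k₂ τ z.1 q =
      ∏ K ∈ ((sd P.D).image (cls τ P.D)).erase (cls τ P.D z),
        (cw τ P.D (P.ang (P.gam k₁ k₂ s)) (lev x t k) K : ℂ) := by
  have sm : ∀ {a b : E}, b ∈ sd P.D → cls τ P.D a = cls τ P.D b → Same τ P.D a b := fun hb e =>
    (mem_cls.1 (e ▸ (mem_cls' hb).2 Same.rfl')).2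
  have zs := hz.mem (P.b_mem_sd i)
  have ns : ∀ q ∈ (P.strs τ).erase (i, j), P.Str τ q.1 q.2 ∧ ¬Same τ P.D (P.b q.1) z := fun q hq => by
    obtain ⟨a, b⟩ := Finset.mem_erase.1 hq
    rw [Dom.mem_strs] at b
    refine ⟨b, fun c => a ?_⟩
    obtain ⟨u, w⟩ := b.eq_of_same h (c.trans' hz.symm')
    exact Prod.ext u w
  refine Finset.prod_of_injOn (fun q => cls τ P.D (P.b q.1)) (fun q hq q' hq' e => ?_)
    (fun q hq => ?_) (fun K hK hK' => ?_) fun q hq => ?_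
  · obtain ⟨u, w⟩ := (ns q hq).1.eq_of_same (ns q' hq').1 (sm (P.b_mem_sd _) e)
    exact Prod.ext u w
  · exact Finset.mem_erase.2 ⟨fun e => (ns q hq).2 (sm zs e),
      Finset.mem_image_of_mem _ (P.b_mem_sd _)⟩
  · obtain ⟨a, b⟩ := Finset.mem_erase.1 hK
    obtain ⟨e, he, rfl⟩ := Finset.mem_image.1 b
    rcases Dom.str_or_loop τ he with ⟨i', j', c, d⟩ | c
    · refine absurd ⟨(i', j'), Finset.mem_erase.2 ⟨fun u => a ?_, Dom.mem_strs.2 c⟩, d.cls_eq⟩ hK'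
      obtain rfl : i' = i := congrArg Prod.fst u
      exact (d.symm'.trans' hz).cls_eq
    · rw [loop_w h2 _ hs hk hz hv he c, ofReal_one]
  · obtain ⟨a, b⟩ := ns q hq
    rw [str_w h2 hn hs hk a]
    rcases hv with c | c
    · rw [c]
    · unfold Dom.sw
      rw [← c, Dom.inn_side zs b]

theorem mem_bef : e ∈ bef τ D z ↔ e ∈ sd D ∧ e ≠ z ∧
    Relation.ReflTransGen (fun x y => tin x ∈ D ∧ y = nx τ x) e z := by
  classical
  simp [bef]

theorem bef_same (h : e ∈ bef τ D z) : tin e ∈ D ∧ Same τ D e z := by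
  obtain ⟨-, a, b⟩ := mem_bef.1 h
  refine ⟨?_, Relation.ReflTransGen.mono (fun x y c => adj_iff.2 (Or.inl c)) _ _ b⟩
  rcases b.cases_head with c | ⟨y, c, -⟩
  exacts [absurd c a, c.1]

theorem entry_bef (h : Same τ D e z) (a : tin e ∈ D) (b : tout e ∉ D) (c : tout z ∈ D) :
    e ∈ bef τ D z := by
  refine mem_bef.2 ⟨mem_sd'.2 (Or.inl a), by rintro rfl; exact b c, ?_⟩
  obtain ⟨m, h1, rfl⟩ := (same_entry b).1 h
  clear h c
  induction m with
  | zero => exact .refl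
  | succ m ih =>
    exact (ih (h1.mono m.le_succ)).tail ⟨h1 m m.lt_succ_self, Function.iterate_succ_apply' _ _ _⟩

/-- the phase collected before the cut, in units of `π / 12` -/
theorem bef_sum (h3 : S_Half) (h0 : 0 < s) (hn : s < P.n) (hs : P.c s = (x, t))
    (d1 : P.dir (s - 1) = 3) (d2 : P.dir s = 3)
    (hk : ∀ j ≤ k, (x + j, t) ∈ P.D ∧ (x + j, t - 1) ∈ P.D)
    (hz : z = ((x + k, t), true) ∨ (0 < k ∧ z = ((x + k, t - 1), false))) (hi : i < P.n)
    (a : tin (P.b i) ∈ P.D) (h : Same τ P.D (P.b i) z) : ∃ m : ℤ,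
    ∑ e ∈ bef τ P.D z, θs τ P.D (P.ang (P.gam k₁ k₂ s)) (lev x t k) e =
      π / 12 * ((P.ψ s + nd z - 4 - 4 * arc k₁ k₂ i + 12 * m : ℤ) : ℝ) := by
  have b : tout (P.b i) ∉ P.D := by have := mem_bd'.1 (P.b_mem_bd i); tauto
  have c : tout z ∈ P.D := by
    have : z.1 ∈ P.D ∧ lo z ∈ P.D := by
      rcases hz with rfl | ⟨hk0, rfl⟩
      · exact hk k le_rfl
      · refine ⟨(hk k le_rfl).2, ?_⟩
        have := (hk (k - 1) (by omega)).2
        rwa [Nat.cast_sub hk0, Nat.cast_one, ← add_sub_assoc] at this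
    rcases tin_tout z with ⟨-, e⟩ | ⟨-, e⟩ <;> rw [e]
    exacts [this.2, this.1]
  have e1 : (bef τ P.D z).filter (fun y => tout y ∉ P.D) = {P.b i} := by
    ext y
    rw [Finset.mem_filter, Finset.mem_singleton]
    exact ⟨fun u => entry_unique ((bef_same u.1).2.trans' h.symm') u.2 b,
      by rintro rfl; exact ⟨entry_bef h a b c, b⟩⟩
  refine ⟨(if s ≤ i then 1 else 0) - flx (lev x t k) (bef τ P.D z), ?_⟩
  rw [sum_θ, h3 P τ s x t k z i h0 hn hs d1 d2 hk hz hi a h, e1, Finset.sum_singleton, ang_b _ hi,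
    Finset.filter_false_of_mem fun y hy => not_not.2 (bef_same hy).1, ← flx]
  simp only [Dom.gam, β]
  split_ifs <;> first | omega | (push_cast; simp only [Finset.sum_empty]; ring)

/-- the twelfth roots of unity -/
noncomputable def w (n : ℤ) : ℂ := exp (((π / 6 * n : ℝ) : ℂ) * I)

theorem w_add (a b : ℤ) : w (a + b) = w a * w b := by
  rw [w, w, w, ← exp_add]; congr 1; push_cast; ring

theorem w_per (a m : ℤ) : w (a + 12 * m) = w a := by
  rw [w_add, w.eq_1 (12 * m), show ((π / 6 * (12 * m : ℤ) : ℝ) : ℂ) * I = m * (2 * π * I) by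
    push_cast; ring, exp_int_mul_two_pi_mul_I, mul_one]

theorem w_eq {a b : ℤ} (h : (a - b) % 12 = 0) : w a = w b := by
  rw [show a = b + 12 * ((a - b) / 12) by omega, w_per]

theorem w0 : w 0 = 1 := by simp [w]
theorem w6 : w 6 = -1 := by rw [w, ← exp_pi_mul_I]; congr 1; push_cast; ring
theorem w9 : w (-3) = -I := by
  rw [w, ← exp_neg_pi_div_two_mul_I]; congr 1; push_cast; ring

theorem conj_ζ (a : ℕ) : conj (ζ ^ a) = w (-2 * a) := by
  rw [ζ, ← Complex.exp_nat_mul, ← exp_conj, w]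
  congr 1
  simp only [map_mul, map_div₀, conj_ofReal, conj_I, map_natCast, map_ofNat]
  push_cast; ring

theorem κ_eq (P : Dom) (s : ℕ) : κ P s = Real.sqrt 3 * w (-3 - P.ψ s) := by
  rw [sub_eq_add_neg, w_add, w9, w, κ]
  push_cast
  ring_nf

theorem conj_sw (v : V) (q : ℕ × ℕ) : conj (P.sw k₁ k₂ τ v q) = P.sw k₁ k₂ τ v q := by
  unfold Dom.sw
  generalize Fin.ofNat 3 _ = a
  split_ifs <;> fin_cases a <;> simp

open Classical in
theorem cut (h2 : S_Top2) (h3 : S_Half) (h0 : 0 < s) (hn : s < P.n) (hs : P.c s = (x, t))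
    (d1 : P.dir (s - 1) = 3) (d2 : P.dir s = 3)
    (hk : ∀ j ≤ k, (x + j, t) ∈ P.D ∧ (x + j, t - 1) ∈ P.D)
    (hz : z = ((x + k, t), true) ∨ (0 < k ∧ z = ((x + k, t - 1), false))) :
    conj (P.jmp k₁ k₂ τ z) = κ P s * w (if z.2 then 5 else 0) *
      ampc τ P.D (P.ang (P.gam k₁ k₂ s)) z (lev x t k) := by
  have zs : z ∈ sd P.D := by
    rcases hz with rfl | ⟨-, rfl⟩
    exacts [mem_sd.2 (Or.inl (hk k le_rfl).1), mem_sd.2 (Or.inl (hk k le_rfl).2)]
  have hv : z.1 = (x + k, t) ∨ hd z = (x + k, t) := by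
    rcases hz with rfl | ⟨-, rfl⟩ <;> simp
  unfold Dom.jmp ampc
  rcases Dom.str_or_loop τ zs with ⟨i, j, h, hi⟩ | hl
  swap
  · rw [if_pos hl, mul_zero, Finset.sum_eq_zero fun p hp => ?_, map_zero]
    exact absurd (P.b_mem_bd p.1) (Finset.disjoint_left.1 hl
      ((mem_cls' zs).2 (Finset.mem_filter.1 hp).2.symm'))
  have hf : (P.strs τ).filter (fun p => Same τ P.D (P.b p.1) z) = {(i, j)} := by
    ext p
    rw [Finset.mem_filter, Finset.mem_singleton, Dom.mem_strs]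
    refine ⟨fun ⟨a, b⟩ => ?_, by rintro rfl; exact ⟨h, hi⟩⟩
    obtain ⟨c, d⟩ := a.eq_of_same h (b.trans' hi.symm')
    exact Prod.ext c d
  have hb : bef τ P.D z ⊆ cls τ P.D z := fun y hy => (mem_cls' zs).2 (bef_same hy).2.symm'
  have r0 : (Real.sqrt 3 : ℂ) ≠ 0 := ofReal_ne_zero.2 (by positivity)
  rw [if_neg fun a => Finset.disjoint_left.1 a ((mem_cls' zs).2 hi.symm') (P.b_mem_bd i), hf,
    Finset.sum_singleton, ← prod_w h2 hn hs hk h hi hv, Finset.sum_sdiff_eq_sub hb, ← hi.cls_eq,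
    (str_sum h2 hn hs hk h).1, map_mul, map_mul, map_prod, conj_ζ, κ_eq, ← mul_assoc]
  simp only [conj_sw]
  congr 1
  obtain ⟨m, hm⟩ : ∃ m : ℤ, ∑ e ∈ bef τ P.D z, θs τ P.D (P.ang (P.gam k₁ k₂ s)) (lev x t k) e =
      π / 12 * ((P.ψ s + nd z - 4 - 4 * arc k₁ k₂ (if tin (P.b i) ∈ P.D then i else j) +
        12 * m : ℤ) : ℝ) := by
    split_ifs with d
    · exact bef_sum h3 h0 hn hs d1 d2 hk hz (h.1.trans h.2.1) d hi
    · exact bef_sum h3 h0 hn hs d1 d2 hk hz h.2.1 (h.tin_iff.2 d) (h.2.2.symm'.trans' hi)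
  have e : ∀ A B : ℤ, (π / 12 * A - (π / 6 * B - π / 12 * A) : ℝ) = π / 6 * (A - B : ℤ) :=
    fun A B => by push_cast; ring
  have e' : ∀ a b c : ℂ, (Real.sqrt 3 : ℂ) * a * b * ((((Real.sqrt 3)⁻¹ : ℝ) : ℂ) * c) = a * b * c :=
    fun a b c => by push_cast; field_simp
  have e2 : conj (if P.Inn τ i (hd z) then (1 : ℂ) else -1) = w (if P.Inn τ i (hd z) then 0 else 6) := by
    split_ifs <;> simp [w0, w6]
  rw [hm, e, ← w, e', e2, ← w_add, ← w_add, ← w_add]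
  refine w_eq ?_
  obtain ⟨a, b⟩ := h.inn_lr hi
  rcases hz with rfl | ⟨-, rfl⟩ <;> simp only [lv, rv, nd, nat, hd_true, hd_false, sub_add_cancel] at a b ⊢ <;>
    split_ifs at a b with c <;> by_cases d : tin (P.b i) ∈ P.D <;> simp only [a, b, c, d] <;>
    simp <;> omega

end Ct

theorem s_cut (h2 : S_Top2) (h3 : S_Half) : S_Cut := by
  intro P k₁ k₂ s x t k τ _ h0 hn _ _ hs d1 d2 hk
  refine ⟨?_, fun hk0 => ?_⟩
  · rw [Ct.cut h2 h3 h0 hn hs d1 d2 hk (Or.inl rfl), if_pos rfl,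
      show (5 : ℤ) = 6 + -1 from rfl, Ct.w_add, Ct.w6, Ct.w]
    push_cast
    ring_nf
  · rw [Ct.cut h2 h3 h0 hn hs d1 d2 hk (Or.inr ⟨hk0, rfl⟩), if_neg (by simp), Ct.w0, mul_one]

end Pool.Agent.P.MP_6c8efb_pr.Cardy
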