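import Pool.Agent.P.MP_6c8efb_pr.Cardy.TTurn

/-! The turning of a strand from its entrance to the end of a chord. -/

namespace Pool.Agent.P.MP_6c8efb_pr.Cardy

open Arm (TC)
open K

variable {τ : TC} {D : Finset V} {e : E}

/-- vertices and middles of sides of `D` in doubled coordinates -/
def InQ (D : Finset V) (z : V) : Prop := (∃ v ∈ vx D, z = v + v) ∨ ∃ e ∈ sd D, z = mid e

/-- the centre of a tile -/
def ctr (t : V) : V := (2 * t.1 + 1, 2 * t.2 + 1)

/-- the flux through the ray starting at `z` -/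
def idx (l : List KS) (z : V) : ℤ := kfl z.2 (2 * z.1) l

theorem not_ctr (t : V) : ¬InQ D (ctr t) := by
  rintro (⟨v, -, h⟩ | ⟨e, -, h⟩)
  · simp only [ctr, Prod.ext_iff, Prod.fst_add] at h; omega
  · have := mid_odd e
    rw [← h] at this
    simp only [ctr] at this; omega

theorem not_mid (h : e ∉ sd D) : ¬InQ D (mid e) := by
  rintro (⟨v, -, h⟩ | ⟨e, he, a⟩)
  · have := mid_odd e
    rw [h] at this
    simp only [Prod.fst_add, Prod.snd_add] at this; omega
  · exact h (mid_inj a ▸ he)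

section SC

variable {p : V} {l : List KS} (h : KW p l p) (hQ : ∀ z ∈ p :: l.map Prod.fst, InQ D z)
include h hQ

theorem idx_move {z : V} {d : Fin 4} (h1 : ¬InQ D z) (h2 : ¬InQ D (z + u d)) :
    idx l (z + u d) = idx l z := by
  have a := Dom.kh_dir z d (α := 2 * ((d : ℕ) : ℤ)) (by have := d.2; omega)
  have := h.move a.1 (fun b => h1 (hQ _ b)) fun b => h2 (a.2.1 ▸ hQ _ b)
  rw [a.2.1] at this
  simpa [idx] using this

theorem idx_side {v : V} {d : Fin 4} (h1 : fc v (d + 1) ∉ D) (h2 : fc v d ∉ D) :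
    idx l (ctr (fc v d)) = idx l (mid (edge v d)) ∧
      idx l (ctr (fc v (d + 1))) = idx l (mid (edge v d)) := by
  have a : ¬InQ D (mid (edge v d)) := not_mid fun b => (edge_mem_sd.1 b).elim h1 h2
  have e1 : ctr (fc v d) = mid (edge v d) + u (d - 1) := by
    rcases cases4 d with rfl | rfl | rfl | rfl <;> simp [ctr, mid, Prod.ext_iff] <;> omega
  have e2 : ctr (fc v (d + 1)) = mid (edge v d) + u (d + 1) := by
    rcases cases4 d with rfl | rfl | rfl | rfl <;> simp [ctr, mid, Prod.ext_iff] <;> omega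
  exact ⟨e1 ▸ idx_move h hQ a (e1 ▸ not_ctr _), e2 ▸ idx_move h hQ a (e2 ▸ not_ctr _)⟩

end SC

/-- a closed walk in a disc does not wind around the tiles next to the boundary -/
theorem Dom.idx_out (P : Dom) {p : V} {l : List KS} (h : KW p l p)
    (hQ : ∀ z ∈ p :: l.map Prod.fst, InQ P.D z) (i : ℕ) :
    idx l (ctr (fc (P.c i) (P.dir i))) = 0 := by
  have k1 : ∀ j d, fc (P.c j) d ∉ P.D → d ≠ P.dir j → fc (P.c j) (d + 1) ∉ P.D ∧
      idx l (ctr (fc (P.c j) d)) = idx l (ctr (fc (P.c j) (d + 1))) := fun j d a b => by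
    have c : fc (P.c j) (d + 1) ∉ P.D := fun c => by
      obtain ⟨m, h1, h2⟩ := (P.bdry _ _).1 ⟨c, a⟩
      exact b (h2 ▸ P.dir_eq h1)
    have := idx_side h hQ c a
    exact ⟨c, this.1.trans this.2.symm⟩
  have f4 : ∀ a b : Fin 4, b = a ∨ b = a + 1 ∨ (b ≠ a ∧ a = b + 1) ∨
      (b ≠ a ∧ b + 1 ≠ a ∧ a = b + 1 + 1) := by decide
  have k2 : ∀ j, idx l (ctr (fc (P.c (j + 1)) (P.dir (j + 1)))) =
      idx l (ctr (fc (P.c j) (P.dir j))) := fun j => by
    have a := P.fc_out j
    rw [← fc_step (P.c j), ← P.step] at a ⊢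
    rcases f4 (P.dir (j + 1)) (P.dir j - 1) with b | b | ⟨b, c⟩ | ⟨b, c, d⟩
    · rw [b]
    · exact absurd (b ▸ P.fc_in _) a
    · rw [(k1 _ _ a b).2, ← c]
    · rw [(k1 _ _ a b).2, (k1 _ _ (k1 _ _ a b).1 c).2, ← d]
  have k3 : ∀ j, idx l (ctr (fc (P.c j) (P.dir j))) = idx l (ctr (fc (P.c 0) (P.dir 0))) :=
    fun j => by
      induction j with
      | zero => rfl
      | succ j ih => rw [k2, ih]
  obtain ⟨j, h1, h2⟩ := P.exists_top
  have k4 : ∀ z ∈ p :: l.map Prod.fst, z.2 ≤ 2 * (P.c j).2 := fun z hz => by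
    rcases hQ z hz with ⟨v, hv, rfl⟩ | ⟨e, he, rfl⟩
    · have := h2 v hv
      simp only [Prod.snd_add]; omega
    · have := h2 _ (fst_mem_vx he)
      have := h2 _ (hd_mem_vx he)
      simp only [mid, Prod.snd_add]; omega
  rw [k3, ← k3 j, h1]
  refine List.sum_eq_zero (List.forall_mem_map.2 fun r hr => ?_)
  have a := k4 _ (h.kh_mem r hr)
  have b := k4 _ (List.mem_cons_of_mem _ (List.mem_map_of_mem hr))
  simp only [kcl_eq, ctr, fc2]
  split_ifs <;> omega

theorem mem_lev {x t : ℤ} {k : ℕ} :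
    e ∈ lev x t k ↔ e.2 = true ∧ e.1.2 = t ∧ x ≤ e.1.1 ∧ e.1.1 < x + k := by
  obtain ⟨⟨a, b⟩, c⟩ := e
  simp only [lev, Finset.mem_image, Finset.mem_range, Prod.mk.injEq]
  exact ⟨fun ⟨j, h1, h2, h3⟩ => ⟨h3.symm, by omega⟩,
    fun ⟨h1, h2⟩ => ⟨(a - x).toNat, by omega, by omega, h1.symm⟩⟩

/-- the flux of an arc through the chord -/
theorem arc_flux {x t X : ℤ} {k : ℕ} (h : X % 8 = 2 * nd e) (ho : tin e ≠ (x - 1, t)) :
    kcl (2 * t) (4 * (x + k)) (mid e, X + trn τ (tin e)) -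
      kcl (2 * t) (4 * x - 2) (mid e, X + trn τ (tin e)) =
      (if e ∈ lev x t k then (if nat e then 1 else -1) else 0) +
        (if e ∈ lev x t k ∧ nat e = false then 1 else 0) -
        if nx τ e ∈ lev x t k ∧ nat (nx τ e) = false then 1 else 0 := by
  simp only [kcl_eq, (arc_step τ e h).1, mem_lev]
  obtain ⟨⟨a, b⟩, c⟩ := e
  have h1 : Even (a + 1 + b) ↔ ¬Even (a + b) := by simp only [Int.even_iff]; omega
  have h2 : Even (a + (b + 1)) ↔ ¬Even (a + b) := by simp only [Int.even_iff]; omega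
  have h3 : Even (a - 1 + b) ↔ ¬Even (a + b) := by simp only [Int.even_iff]; omega
  have h4 : Even (a + (b - 1)) ↔ ¬Even (a + b) := by simp only [Int.even_iff]; omega
  have h5 : a ≠ a - 1 := by omega
  obtain ⟨w, hw⟩ : ∃ w, τ (tin ((a, b), c)) = w := ⟨_, rfl⟩
  simp only [nx, hw]
  clear hw
  by_cases hp : Even (a + b) <;> cases c <;> cases w <;>
    simp [nat, tin, lo, prt, mid, bot, lft, top, rgt, hp, h1, h2, h3, h4, h5] at ho ⊢ <;>
    split_ifs <;> omega

theorem mem_bef {k : ℕ} (h0 : tout e ∉ D) (h : Fw τ D e k) {x : E} :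
    x ∈ bef τ D ((nx τ)^[k] e) ↔ ∃ m < k, (nx τ)^[m] e = x := by
  classical
  simp only [bef, Finset.mem_filter]
  constructor
  · rintro ⟨-, h1, h2⟩
    have : ∃ m ≤ k, (nx τ)^[m] e = x := by
      clear h1
      induction h2 using Relation.ReflTransGen.head_induction_on with
      | refl => exact ⟨k, le_rfl, rfl⟩
      | head a _ ih =>
        obtain ⟨m, hm, b⟩ := ih
        rw [a.2] at b
        cases m with
        | zero => exact absurd (by rw [show e = nx τ _ from b, tout_nx]; exact a.1) h0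
        | succ m =>
          rw [Function.iterate_succ_apply'] at b
          exact ⟨m, by omega, nx_inj τ b⟩
    obtain ⟨m, hm, rfl⟩ := this
    exact ⟨m, hm.lt_of_ne fun a => h1 (by rw [a]), rfl⟩
  · rintro ⟨m, hm, rfl⟩
    refine ⟨mem_sd'.2 (Or.inl (h m hm)), fun a => hm.ne (orbit_inj h0 h hm.le le_rfl a), ?_⟩
    have : ∀ r, m + r ≤ k → Relation.ReflTransGen (fun x y => tin x ∈ D ∧ y = nx τ x)
        ((nx τ)^[m] e) ((nx τ)^[m + r] e) := fun r hr => by
      induction r with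
      | zero => exact .refl
      | succ r ih => exact (ih (by omega)).tail ⟨h _ (by omega), Function.iterate_succ_apply' ..⟩
    simpa [Nat.add_sub_cancel' hm.le] using this (k - m) (by omega)

theorem kfl_map (Y X : ℤ) (f : ℕ → KS) (n : ℕ) :
    kfl Y X ((List.range n).map f) = ∑ m ∈ Finset.range n, kcl Y X (f m) := by
  induction n with
  | zero => rfl
  | succ n ih => simp [List.range_succ, Finset.sum_range_succ, ih]

namespace Dom

variable (P : Dom)

theorem inQ_pt (m : ℕ) : InQ P.D (P.pt m) := by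
  obtain ⟨i, rfl | rfl⟩ := m.even_or_odd'
  · exact Or.inl ⟨_, P.c_mem_vx i, P.pt_even i⟩
  · exact Or.inr ⟨_, P.b_mem_sd i, P.pt_odd i⟩

variable {P} {s k : ℕ} {x t : ℤ} (hc : P.c s = (x, t))
  (hD : ∀ j ≤ k, (x + j, t) ∈ P.D ∧ (x + j, t - 1) ∈ P.D)
include hD

theorem inQ_chord {a : ℤ} (h1 : 2 * x ≤ a) (h2 : a ≤ 2 * (x + k)) : InQ P.D (a, 2 * t) := by
  obtain ⟨j, hj, rfl | rfl⟩ : ∃ j ≤ k, a = 2 * (x + j) ∨ a = 2 * (x + j) + 1 :=
    ⟨(a / 2 - x).toNat, by omega, by omega⟩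
  · exact Or.inl ⟨(x + j, t), mem_vx.2 ⟨1, (hD j hj).1⟩, by simp [two_mul]⟩
  · exact Or.inr ⟨((x + j, t), true), mem_sd.2 (Or.inl (hD j hj).1), by simp [mid]; omega⟩

include hc in
theorem chord_free {m : ℕ} (hm : 2 * s < m) (hm' : m < 2 * s + 2 * P.n) {a : ℤ} (h1 : 2 * x ≤ a)
    (h2 : a ≤ 2 * (x + k)) : P.pt m ≠ (a, 2 * t) := fun h => by
  obtain ⟨j, hj, rfl | rfl⟩ : ∃ j ≤ k, a = 2 * (x + j) ∨ a = 2 * (x + j) + 1 :=
    ⟨(a / 2 - x).toNat, by omega, by omega⟩
  · cases j with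
    | zero =>
      have := P.pt_inj (m := m) (m' := 2 * s) (by rw [h, pt_even, hc]; simp [two_mul])
        (by omega) (by omega)
      omega
    | succ j =>
      obtain ⟨i, rfl | rfl⟩ := m.even_or_odd'
      · have a : P.c i = (x + (j + 1 : ℕ), t) := by
          rw [pt_even] at h
          simp only [Prod.ext_iff, Prod.fst_add, Prod.snd_add] at h ⊢
          omega
        have b := P.fc_out i
        have c := hD j (by omega)
        have d := hD _ hj
        rw [a] at b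
        generalize P.dir i = w at b
        have e : x + (j + 1 : ℕ) - 1 = x + j := by omega
        rcases cases4 w with rfl | rfl | rfl | rfl <;> simp only [fc0, fc1, fc2, fc3, e] at b <;> tauto
      · have := mid_odd (P.b i)
        rw [← pt_odd, h] at this
        simp only at this
        omega
  · exact P.pt_ne (e := ((x + j, t), true)) (fun a => mem_bd.1 a (iff_of_true (hD j hj).1 (hD j hj).2))
      m (by rw [h]; simp [mid]; omega)

end Dom

theorem s_half : S_Half := by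
  intro P τ s x t k z p hs hs' hc hd hd' hD hz hp hin hsame
  have hout := P.tout_b hin
  obtain ⟨K, hK, rfl⟩ := (same_entry hout).1 hsame
  have hzi : (nx τ)^[K] (P.b p) ∉ bd P.D := fun a => by
    rcases hz with b | ⟨hk, b⟩ <;> rw [b, mem_bd] at a
    · exact a (iff_of_true (hD k le_rfl).1 (hD k le_rfl).2)
    · refine a (iff_of_true (hD k le_rfl).2 ?_)
      have := (hD (k - 1) (by omega)).2
      rwa [show x + (k - 1 : ℕ) = x + k - 1 by omega] at this
  obtain ⟨K, rfl⟩ : ∃ K', K = K' + 1 := by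
    cases K with
    | zero => exact absurd (P.b_mem_bd p) hzi
    | succ K => exact ⟨K, rfl⟩
  have hi : ∀ a ≤ K + 1, ∀ b ≤ K + 1, (nx τ)^[a] (P.b p) = (nx τ)^[b] (P.b p) → a = b :=
    fun a ha b hb => orbit_inj hout hK ha hb
  have hbef : bef τ P.D ((nx τ)^[K + 1] (P.b p)) =
      (Finset.range (K + 1)).image fun m => (nx τ)^[m] (P.b p) := by
    ext y; simp only [mem_bef hout hK, Finset.mem_image, Finset.mem_range]
  rw [trK_range (fun a ha b hb => hi a ha.le b hb.le) fun y => by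
    rw [mem_bef hout hK]
    exact ⟨fun a => a.1, fun ⟨m, a, b⟩ => ⟨⟨m, a, b⟩, b ▸ hK m a⟩⟩, Finset.sum_filter, hbef,
    Finset.sum_image fun a ha b hb => hi a (Finset.mem_range.1 ha).le b (Finset.mem_range.1 hb).le]
  obtain ⟨q, hq, hq', hb, hψ⟩ : ∃ q, s ≤ q ∧ q < s + P.n ∧ P.b q = P.b p ∧
      P.ψ q = P.ψ p + if p < s then 4 else 0 := by
    by_cases a : p < s
    · exact ⟨p + P.n, by omega, by omega, P.b_per p, by rw [if_pos a, P.ψ_per, P.ψ_n]⟩
    · exact ⟨p, by omega, by omega, rfl, by simp [a]⟩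
  rw [← hb] at hin hout hK hz hzi hi ⊢
  clear hbef hsame hb
  -- the tiles behind the wall
  have o1 : (x - 1, t - 1) ∉ P.D := by simpa [hc, hd'] using P.fc_out s
  have o2 : (x - 1, t) ∉ P.D := by
    have a := P.fc_out (s - 1)
    rw [← fc_step, ← P.step, show s - 1 + 1 = s by omega, hc, hd] at a
    exact a
  -- the pieces of the walk
  have a0 := P.an_mod s
  have a1 := P.nd_in hin
  have a2 := tsum_nd (τ := τ) a1 (K + 1)
  have c := trn_cases τ (tin ((nx τ)^[K] (P.b q)))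
  rw [hd', show (((3 : Fin 4) : ℕ) : ℤ) = 3 from rfl] at a0
  have e1 : P.pt (2 * s + 1) = (2 * x, 2 * t - 1) := by
    rw [P.pt_odd, Dom.b, hc, hd']; simp [mid]; omega
  obtain ⟨b₁, w1, hb₁⟩ : ∃ b, KP (P.pt (2 * s + 1)) (P.an s + 1) (P.fwd (2 * s + 1) (2 * (q - s)) 0)
      (P.pt (2 * q + 1)) b ∧ P.an q ≤ b ∧ b ≤ P.an q + 1 := by
    rcases hq.eq_or_lt with rfl | a
    · exact ⟨P.an s + 1, by simp [Dom.fwd], by omega⟩
    · obtain ⟨r, hr⟩ : ∃ r, 2 * (q - s) = r + 1 := ⟨2 * (q - s) - 1, by omega⟩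
      have := P.kp_fwd (2 * s + 1) r (o := 0) (a := P.an s + 1) rfl
        (by rw [show (2 * s + 1) / 2 = s by omega]; simp)
      rw [show 2 * s + 1 + (r + 1) = 2 * q + 1 by omega, show (2 * s + 1 + r) / 2 = q by omega,
        ← hr] at this
      exact ⟨_, this, by omega⟩
  obtain ⟨b₂, w2, hb₂⟩ := kp_str (τ := τ) a1 K (a := b₁) (by rw [abs_le]; omega)
  generalize hS : tsum τ (P.b q) (K + 1) = S at a2 hb₂ ⊢
  obtain ⟨ε, hε, e2, e3, e4⟩ : ∃ ε : ℤ, (ε = 2 ∨ ε = -2) ∧
      kh (mid ((nx τ)^[K + 1] (P.b q)), P.an q + 2 + 2 * S + ε) = (2 * (x + k), 2 * t) ∧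
      8 * ((P.an q + 2 + 2 * S + ε + 2) / 8) =
        P.an q + 2 + 2 * S - 2 * nd ((nx τ)^[K + 1] (P.b q)) ∧
      (mid ((nx τ)^[K + 1] (P.b q))).2 ≤ 2 * t ∧ 2 * (x + k) ≤ (mid ((nx τ)^[K + 1] (P.b q))).1 ∧
      (nx τ)^[K + 1] (P.b q) ∉ lev x t k := by
    generalize (nx τ)^[K + 1] (P.b q) = z at hz a2
    have k1 := k8 (P.an q + 2 + 2 * S + 2)
    have k2 := k8 (P.an q + 2 + 2 * S + -2)
    cases hn : nat z
    · refine ⟨-2, Or.inr rfl, ?_⟩
      rcases hz with rfl | ⟨-, rfl⟩ <;> simp [nd, hn, kh, mid, mem_lev] at a2 ⊢ <;> omega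
    · refine ⟨2, Or.inl rfl, ?_⟩
      rcases hz with rfl | ⟨-, rfl⟩ <;> simp [nd, hn, kh, mid, mem_lev] at a2 ⊢ <;> omega
  rw [← P.pt_odd] at w2
  set A := P.fwd (2 * s + 1) (2 * (q - s)) 0 with hA
  set B := strW τ (P.b q) (P.an q + 2) (K + 1) with hB
  set f : KS := (mid ((nx τ)^[K + 1] (P.b q)), P.an q + 2 + 2 * S + ε) with hf
  have w3 : KP (P.pt (2 * s + 1)) (P.an s + 1) (A ++ B ++ [f]) (2 * (x + k), 2 * t) f.2 :=
    kp_snoc.2 ⟨_, w1.append w2, fun _ => mid_odd _, by rw [abs_le]; simp only [hf]; omega, e2, rfl⟩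
  have k0 := k8 (P.an s + 1)
  have w4 : KP (2 * x - 1, 2 * t) (P.an s + 1) (((2 * x - 1, 2 * t), P.an s + 1) :: (A ++ B ++ [f]))
      (2 * (x + k), 2 * t) f.2 := ⟨rfl, fun _ => by simp only; omega, by simp, by
    convert w3 using 1
    rw [e1]
    simp only [kh, Prod.mk.injEq]
    omega⟩
  have mA : ∀ y ∈ A.map Prod.fst, ∃ m, 2 * s < m ∧ m < 2 * q + 1 ∧ y = P.pt m := by
    rw [hA, Dom.fwd, List.map_map]
    exact List.forall_mem_map.2 fun r hr => ⟨_, by omega, by rw [List.mem_range] at hr; omega, rfl⟩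
  have mB : (B ++ [f]).map Prod.fst =
      (List.range (K + 2)).map fun m => mid ((nx τ)^[m] (P.b q)) := by
    rw [List.map_append, hB, strW_fst, List.range_succ (n := K + 1), List.map_append]; rfl
  have hQ : ∀ y ∈ (A ++ B ++ [f]).map Prod.fst, InQ P.D y := by
    rw [List.append_assoc, List.map_append, mB]
    refine List.forall_mem_append.2 ⟨fun y hy => ?_, List.forall_mem_map.2 fun m hm => ?_⟩
    · obtain ⟨m, -, -, rfl⟩ := mA y hy
      exact P.inQ_pt m
    · exact Or.inr ⟨_, (hK.mono (by rw [List.mem_range] at hm; omega)).same.mem (P.b_mem_sd q), rfl⟩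
  have e5 : mid (edge (P.c s) 2) = (2 * x - 1, 2 * t) := by rw [hc]; simp [mid]; omega
  have o3 : ¬InQ P.D (2 * x - 1, 2 * t) := e5 ▸ not_mid fun a => by
    rw [edge_mem_sd, hc] at a
    exact a.elim o1 o2
  have hn : ((2 * (x + k), 2 * t) :: (((2 * x - 1, 2 * t), P.an s + 1) :: (A ++ B ++ [f])).map
      Prod.fst).Nodup := by
    rw [List.map_cons, List.nodup_cons, List.nodup_cons, List.mem_cons]
    refine ⟨?_, fun a => o3 (hQ _ a), ?_⟩ <;> rw [List.append_assoc, List.map_append, mB]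
    · rw [List.mem_append]
      rintro (a | a | a)
      · simp only [Prod.mk.injEq] at a; omega
      · obtain ⟨m, h1, h2, h3⟩ := mA _ a
        exact Dom.chord_free hc hD h1 (by omega) (by omega) le_rfl h3.symm
      · obtain ⟨m, -, h1⟩ := List.mem_map.1 a
        have := mid_odd ((nx τ)^[m] (P.b q))
        rw [h1] at this
        simp only at this; omega
    · refine List.nodup_append.2 ⟨?_, List.nodup_range.map_on fun a ha b hb e => ?_,
        fun y hy => List.forall_mem_map.2 fun m hm => ?_⟩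
      · rw [hA, Dom.fwd, List.map_map]
        refine List.nodup_range.map_on fun a ha b hb e => ?_
        rw [List.mem_range] at ha hb
        have := P.pt_inj e (by omega) (by omega)
        omega
      · rw [List.mem_range] at ha hb
        exact hi a (by omega) b (by omega) (mid_inj e)
      · obtain ⟨r, h1, h2, rfl⟩ := mA y hy
        rw [List.mem_range] at hm
        cases m with
        | zero =>
          intro e
          have := P.pt_inj (e.trans (P.pt_odd q).symm) (by omega) (by omega)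
          omega
        | succ m =>
          rcases (by omega : m = K ∨ m + 1 < K + 1) with rfl | a
          · exact P.pt_ne hzi _
          · exact P.pt_ne (fun c => mem_bd'.1 c (iff_of_true (hK _ a) (hK.mono a.le).tout)) _
  have H := hopf' w4 hn
  have T := w4.kw.total (2 * t - 1) (2 * (2 * x - 1))
  -- closing the walk along the chord
  have w5 := kw_range (fun r => ((2 * (x + k) - r, 2 * t), 4)) (2 * k) fun r _ =>
    ⟨by simp [Kok], by simp [kh, kx, ky]; ring⟩
  have w6 : KW (P.pt (2 * s + 1)) (A ++ B ++ [f] ++ ((List.range (2 * k)).map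
      (fun r : ℕ => (((2 * (x + k) - r, 2 * t), 4) : KS)) ++ [((2 * x, 2 * t), 6)]))
      (P.pt (2 * s + 1)) := kw_append.2 ⟨_, w3.kw, kw_snoc.2 ⟨by
    convert w5 using 1 <;> simp [mul_add], by simp [Kok], by rw [e1]; simp [kh, kx, ky]; ring⟩⟩
  have hQ' : ∀ y ∈ P.pt (2 * s + 1) :: (A ++ B ++ [f] ++ ((List.range (2 * k)).map
      (fun r : ℕ => (((2 * (x + k) - r, 2 * t), 4) : KS)) ++ [((2 * x, 2 * t), 6)])).map Prod.fst,
      InQ P.D y := by
    rw [List.map_append, List.map_append (l₂ := [((2 * x, 2 * t), 6)]), List.map_map]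
    refine List.forall_mem_cons.2 ⟨P.inQ_pt _, List.forall_mem_append.2 ⟨hQ,
      List.forall_mem_append.2 ⟨List.forall_mem_map.2 fun r hr => ?_, ?_⟩⟩⟩
    · rw [List.mem_range] at hr
      exact Dom.inQ_chord hD (by omega) (by omega)
    · exact List.forall_mem_singleton.2 (Dom.inQ_chord hD le_rfl (by omega))
  have s1 := P.idx_out w6 hQ' s
  have s2 := (idx_side w6 hQ' (v := P.c s) (d := 2) (by rwa [hc]) (by rwa [hc])).2
  rw [hd'] at s1
  rw [a21, s1, e5] at s2
  have z0 : ∀ Y, kfl Y (4 * x - 2) ((List.range (2 * k)).map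
      (fun r : ℕ => (((2 * (x + k) - r, 2 * t), 4) : KS)) ++ [((2 * x, 2 * t), 6)]) = 0 := fun Y => by
    rw [kfl_append, kfl_map, Finset.sum_eq_zero fun r _ => by simp [kcl, up, ky]]
    simp [kcl, kx]
    omega
  simp only [idx, hc, ctr, fc3] at s1 s2
  rw [show 2 * (2 * (x - 1) + 1) = 4 * x - 2 by ring, show 2 * (t - 1) + 1 = 2 * t - 1 by ring,
    kfl_append, z0] at s1
  rw [show 2 * (2 * x - 1) = 4 * x - 2 by ring] at s2 T H
  rw [kfl_append, z0] at s2
  -- the flux through the chord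
  have fA : kfl (2 * t) (4 * (x + k)) A = kfl (2 * t) (4 * x - 2) A := by
    rw [hA, Dom.fwd, kfl_map, kfl_map]
    refine Finset.sum_congr rfl fun r hr => ?_
    rw [Finset.mem_range] at hr
    have b1 := fun a => Dom.chord_free hc hD (m := 2 * s + 1 + r) (by omega) (by omega) (a := a)
    have b2 := fun a => Dom.chord_free hc hD (m := 2 * s + 1 + r + 1) (by omega) (by omega) (a := a)
    have b3 := (Dom.kh_dir (P.pt (2 * s + 1 + r)) _ (α := P.an ((2 * s + 1 + r) / 2) + 0)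
      (by rw [add_zero]; exact P.an_mod _)).2.1
    rw [P.pt_succ] at b2
    simp only [kcl_eq, b3]
    generalize P.pt (2 * s + 1 + r) = y at b1 b2
    generalize P.dir ((2 * s + 1 + r) / 2) = d at b2
    have b1 := b1 y.1
    have b2 := b2 y.1
    rcases cases4 d with rfl | rfl | rfl | rfl <;> simp [Prod.ext_iff] at b1 b2 ⊢ <;>
      split_ifs <;> omega
  have fB : kfl (2 * t) (4 * (x + k)) B - kfl (2 * t) (4 * x - 2) B =
      ∑ m ∈ Finset.range (K + 1), if (nx τ)^[m] (P.b q) ∈ lev x t k then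
        (if nat ((nx τ)^[m] (P.b q)) then 1 else -1) else 0 := by
    rw [hB, strW, kfl_map, kfl_map, ← Finset.sum_sub_distrib, Finset.sum_congr rfl fun m hm =>
      arc_flux (tsum_nd a1 m) fun a => o2 (a ▸ hK m (Finset.mem_range.1 hm))]
    simp only [add_sub_assoc, Finset.sum_add_distrib, ← Function.iterate_succ_apply' (nx τ)]
    rw [Finset.sum_range_sub' fun m => if (nx τ)^[m] (P.b q) ∈ lev x t k ∧
      nat ((nx τ)^[m] (P.b q)) = false then (1 : ℤ) else 0, if_neg, if_neg fun a => e4.2.2 a.1]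
    · simp
    · rintro ⟨a, -⟩
      obtain ⟨j, hj, a⟩ := Finset.mem_image.1 a
      have := hD j (Finset.mem_range.1 hj).le
      exact mem_bd.1 ((show _ = P.b q from a) ▸ P.b_mem_bd q) (iff_of_true this.1 this.2)
  have ff : ∀ X, kcl (2 * t) X f = 0 := fun X => by
    have := e4.1
    simp only [kcl_eq, e2]
    simp only [hf]
    split_ifs <;> omega
  have fa : ∀ X, kcl (2 * t) X ((2 * x - 1, 2 * t), P.an s + 1) = 0 := fun X => by
    simp only [kcl, up]
    split_ifs <;> omega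
  have fa' : kcl (2 * t - 1) (4 * x - 2) ((2 * x - 1, 2 * t), P.an s + 1) = 0 := by
    simp only [kcl, up]
    split_ifs <;> omega
  rw [show 2 * (2 * (x + k)) = 4 * (x + k) by ring] at H
  rw [add_zero] at s1
  simp only [kfl_cons, fa, fa', s1] at H T
  generalize kfr (2 * t - 1) (4 * x - 2) _ = R at H T
  simp only [kfl_append, kfl_cons, kfl_nil, ff] at H s2
  have g1 : P.an q - P.an s = 2 * (P.ψ q - P.ψ s) := by rw [Dom.an, Dom.an]; ring
  have g2 : f.2 = P.an q + 2 + 2 * S + ε := rfl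
  split_ifs at T <;> omega

end Pool.Agent.P.MP_6c8efb_pr.Cardy
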