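import Pool.Agent.P.MP_6c8efb_pr.Cardy.NAll
import Pool.Agent.P.MP_6c8efb_pr.Cardy.LDef
import Pool.Agent.P.MP_6c8efb_pr.Cardy.LCR
import Pool.Agent.P.MP_6c8efb_pr.Cardy.THalf
import Pool.Agent.P.MP_6c8efb_pr.Cardy.TCut
import Pool.Agent.P.MP_6c8efb_pr.Cardy.RNor
import Pool.Agent.P.MP_6c8efb_pr.Cardy.Crs
import Pool.Agent.P.MP_6c8efb_pr.Cardy.CCardy

/-! The crossing formula for polyominoes. -/

namespace Pool.Agent.P.MP_6c8efb_pr.Cardy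

theorem all_CR : S_CR := s_CR (s_cut s_top2 s_half) s_Val s_Exp s_Def s_NormX

theorem all_Lim : S_Lim :=
  s_Lim all_CR s_Val (s_Mod s_top1 s_Val) (s_Nor s_Val) (s_Cor s_top1 s_Val s_Arm)

theorem all_CARDY : SLE.S_CARDY :=
  s_CARDY all_CR s_Val (s_Mod s_top1 s_Val) (s_Nor s_Val) (s_Cor s_top1 s_Val s_Arm)
    (s_Crs s_top1 s_Val)

end Pool.Agent.P.MP_6c8efb_pr.Cardy
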