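import Pool.Agent.P.MP_6c8efb_pr.Cardy.AIface
import Pool.Agent.P.MP_6c8efb_pr.Arm.PBasic
import Pool.Agent.P.MP_6c8efb_pr.Lat

/-! Domains made of tiles, strands, the observable and six-vertex partition functions.
The tile `t` is the unit square with lower left corner `t`; its sides are elements of `E`. -/

open Complex MeasureTheory
open scoped Real ComplexConjugate

namespace Pool.Agent.P.MP_6c8efb_pr.Cardy

open Arm (TC Pt TConn)

/-! ### Sides and strands -/

def bot (t : V) : E := (t, true)
def lft (t : V) : E := (t, false)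
def top (t : V) : E := ((t.1, t.2 + 1), true)
def rgt (t : V) : E := ((t.1 + 1, t.2), false)

/-- the tile below or to the left of a side; the other tile is `e.1` -/
def lo (e : E) : V := if e.2 then (e.1.1, e.1.2 - 1) else (e.1.1 - 1, e.1.2)

/-- the natural arrow through a side keeps the even vertex on its left; `true` is up or right -/
def nat (e : E) : Bool := e.2 == decide (Even (e.1.1 + e.1.2))

/-- the tile entered and the tile left by the natural arrow -/
def tin (e : E) : V := if nat e then e.1 else lo e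
def tout (e : E) : V := if nat e then lo e else e.1

/-- the vertices on the left (even) and on the right (odd) of the natural arrow -/
def lv (e : E) : V := if Even (e.1.1 + e.1.2) then e.1 else hd e
def rv (e : E) : V := if Even (e.1.1 + e.1.2) then hd e else e.1

/-- the side joined to `e` inside the tile `t` in the state `b` -/
def prt (b : Bool) (t : V) (e : E) : E :=
  if e = lft t then (if b then top t else bot t) else if e = top t then (if b then lft t else rgt t)
  else if e = bot t then (if b then rgt t else lft t) else if b then bot t else top t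

/-- the next side along the natural arrow -/
def nx (τ : TC) (e : E) : E := prt (τ (tin e)) (tin e) e

/-- the quarter turn made by both natural arcs of a tile -/
def trn (τ : TC) (t : V) : ℤ := if τ t = decide (Even (t.1 + t.2)) then -1 else 1

def sd1 (t : V) : Finset E := {bot t, lft t, top t, rgt t}
def sd (D : Finset V) : Finset E := D.biUnion sd1
def vx (D : Finset V) : Finset V :=
  D.biUnion fun t => {t, (t.1 + 1, t.2), (t.1, t.2 + 1), (t.1 + 1, t.2 + 1)}

/-- boundary sides -/
def bd (D : Finset V) : Finset E := (sd D).filter fun e => ¬(lo e ∈ D ∧ e.1 ∈ D)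

def Adj (τ : TC) (D : Finset V) (e e' : E) : Prop := ∃ t ∈ D, e ∈ sd1 t ∧ e' = prt (τ t) t e

/-- the two sides lie on the same strand or loop of the domain `D` -/
def Same (τ : TC) (D : Finset V) : E → E → Prop := Relation.ReflTransGen (Adj τ D)

open Classical in
noncomputable def cls (τ : TC) (D : Finset V) (e : E) : Finset E := (sd D).filter (Same τ D e)

/-- total number of quarter turns of a set of sides -/
def trK (τ : TC) (D : Finset V) (K : Finset E) : ℤ := ∑ e ∈ K with tin e ∈ D, trn τ (tin e)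

/-- sup distance -/
def dd (x y : V) : ℤ := max |y.1 - x.1| |y.2 - x.2|

/-- a strand or loop of `D` joins the ball of radius `r` around `x` to distance `R` -/
def ArmS (D : Finset V) (x : V) (r R : ℤ) : Set TC :=
  {τ | ∃ e e', Same τ D e e' ∧ dd x e.1 ≤ r ∧ R ≤ dd x e'.1}

/-- a cluster of `D` joins the ball of radius `r` around `x` to distance `R` -/
def ArmC (D : Finset V) (x : V) (r R : ℤ) : Set TC :=
  {τ | ∃ a b, TConn τ D a b ∧ dd x a ≤ r ∧ R ≤ dd x b}

/-- neighbours along a side of `D` -/
def Nb (D : Finset V) (x y : V) : Prop := ∃ d, y = x + u d ∧ edge x d ∈ sd D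

/-- joined by sides of `D` inside the ball of radius `r` around `x` -/
def Nr (D : Finset V) (x : V) (r : ℤ) : V → V → Prop :=
  Relation.ReflTransGen fun a b => Nb D a b ∧ dd x a ≤ r ∧ dd x b ≤ r

/-- a vertex as a complex number -/
def toC (v : V) : ℂ := ⟨v.1, v.2⟩

/-- the vertex of the `M`-fold blow-up next to a point -/
noncomputable def fl (M : ℕ) (z : ℂ) : V := (⌊M * z.re⌋, ⌊M * z.im⌋)

/-! ### Discs -/

/-- a finite set of tiles whose boundary is a simple closed counterclockwise walk -/
structure Dom where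
  D : Finset V
  n : ℕ
  c : ℕ → V
  dir : ℕ → Fin 4
  pos : 0 < n
  step : ∀ i, c (i + 1) = c i + u (dir i)
  per : ∀ i, dir (i + n) = dir i
  close : c n = c 0
  inj : ∀ i < n, ∀ j < n, c i = c j → i = j
  bdry : ∀ v d, (fc v (d + 1) ∈ D ∧ fc v d ∉ D) ↔ ∃ i, c i = v ∧ dir i = d

/-- the quarter turn from a direction to the next one -/
def tn (d d' : Fin 4) : ℤ := if d' = d + 1 then 1 else if d' = d then 0 else -1

namespace Dom

variable (P : Dom)

/-- the boundary side from `c i` to `c (i + 1)` -/
def b (i : ℕ) : E := edge (P.c i) (P.dir i)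

/-- the turning of the boundary from the side `0` to the side `i` -/
def ψ (i : ℕ) : ℤ := ∑ j ∈ Finset.range i, tn (P.dir j) (P.dir (j + 1))

/-- the vertex `c i` is a convex corner -/
def Cvx (i : ℕ) : Prop := P.dir (i + P.n) = P.dir (i + P.n - 1) + 1

/-- the boundary sides `i < j` are joined by a strand -/
def Str (τ : TC) (i j : ℕ) : Prop := i < j ∧ j < P.n ∧ Same τ P.D (P.b i) (P.b j)

/-- `v` lies on the same side of the strand through `b i` as `c (i + 1)` -/
def Inn (τ : TC) (i : ℕ) (v : V) : Prop :=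
  Relation.ReflTransGen (fun x y => Arm.link τ P.D x y ∨ ∃ d, y = x + u d ∧ edge x d ∈ sd P.D ∧
    ¬Same τ P.D (P.b i) (edge x d)) (P.c (i + 1)) v

open Classical in
/-- the set of strands -/
noncomputable def strs (τ : TC) : Finset (ℕ × ℕ) :=
  (Finset.range P.n ×ˢ Finset.range P.n).filter fun p => P.Str τ p.1 p.2

/-- a function on the indices of the boundary sides as a function on sides -/
noncomputable def ang (g : ℕ → ℝ) (e : E) : ℝ := ∑ i ∈ Finset.range P.n with P.b i = e, g i

/-- the tiles of the `M`-fold blow-up -/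
noncomputable def blowD (M : ℕ) : Finset V := P.D.biUnion fun q =>
  Finset.Ico (M * q.1) (M * q.1 + M) ×ˢ Finset.Ico (M * q.2) (M * q.2 + M)

/-- `P'` is the `M`-fold blow-up of `P` -/
structure Blow (M : ℕ) (P' : Dom) : Prop where
  D : P'.D = P.blowD M
  n : P'.n = M * P.n
  c : ∀ i, P'.c (M * i) = M • P.c i
  dir : ∀ i, P'.dir i = P.dir (i / M)

/-- the closed polygon -/
def cl : Set ℂ := ⋃ q ∈ P.D, Set.Icc (q.1 : ℝ) (q.1 + 1) ×ℂ Set.Icc (q.2 : ℝ) (q.2 + 1)

end Dom

/-! ### The observable; the marked vertices are `c 0`, `c k₁`, `c k₂` -/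

noncomputable def ζ : ℂ := exp (π / 3 * I)

/-- the arc containing the side `i` -/
def arc (k₁ k₂ i : ℕ) : ℕ := if i < k₁ then 0 else if i < k₂ then 1 else 2

namespace Dom

variable (P : Dom) (k₁ k₂ : ℕ)

/-- `v` is cut off by a strand around the marked vertex number `m` -/
def Sec (τ : TC) (m : ℕ) (v : V) : Prop := ∃ i j, P.Str τ i j ∧
  if m = 0 then arc k₁ k₂ i = 0 ∧ arc k₁ k₂ j = 2 ∧ ¬P.Inn τ i v
  else arc k₁ k₂ i + 1 = m ∧ arc k₁ k₂ j = m ∧ P.Inn τ i v

open Classical in
/-- the strands with both ends on the arc `m` which cut off `v` -/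
noncomputable def pock (τ : TC) (m : ℕ) (v : V) : Finset (ℕ × ℕ) :=
  (P.strs τ).filter fun p => arc k₁ k₂ p.1 = m ∧ arc k₁ k₂ p.2 = m ∧ P.Inn τ p.1 v

open Classical in
/-- the value of the observable in a configuration -/
noncomputable def val (τ : TC) (v : V) : ℂ :=
  if P.Sec k₁ k₂ τ 0 v then ζ ^ 5 else if P.Sec k₁ k₂ τ 1 v then ζ
  else if P.Sec k₁ k₂ τ 2 v then ζ ^ 3
  else ∑ m ∈ Finset.range 3, if Odd (P.pock k₁ k₂ τ m v).card then ζ ^ (2 * m) else 0

/-- the observable -/
noncomputable def F (v : V) : ℂ := ∫ τ, P.val k₁ k₂ τ v ∂PM fun _ => hf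

open Classical in
/-- the weight of the strand `p` seen from `v` -/
noncomputable def sw (τ : TC) (v : V) (p : ℕ × ℕ) : ℂ :=
  if P.Inn τ p.1 v then ![-1, 0, 1] (Fin.ofNat 3 (arc k₁ k₂ p.2 - arc k₁ k₂ p.1))
  else ![1, 1, 0] (Fin.ofNat 3 (arc k₁ k₂ p.2 - arc k₁ k₂ p.1))

open Classical in
/-- the increment of `val` along the side `z`, from `z.1` to `hd z` -/
noncomputable def jmp (τ : TC) (z : E) : ℂ :=
  ∑ p ∈ P.strs τ with Same τ P.D (P.b p.1) z, (if P.Inn τ p.1 (hd z) then 1 else -1) *
    ζ ^ (arc k₁ k₂ p.1 + arc k₁ k₂ p.2) * ∏ q ∈ (P.strs τ).erase p, P.sw k₁ k₂ τ z.1 q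

/-- an open path of the colour `κ` (`0` primal, `1` dual) joins the boundary vertices with indices
in `[a, a']` to those with indices in `[b, b']` -/
def Crs (κ : ℤ) (a a' b b' : ℕ) : Set TC := {τ | ∃ i j, a ≤ i ∧ i ≤ a' ∧ b ≤ j ∧ j ≤ b' ∧
  ((P.c i).1 + (P.c i).2) % 2 = κ ∧ TConn τ P.D (P.c i) (P.c j)}

/-- the boundary angles, with the twist ending at the vertex `c s` -/
noncomputable def gam (s i : ℕ) : ℝ :=
  π / 3 * (-(P.ψ i : ℝ) / 4 + arc k₁ k₂ i - if s ≤ i then 2 else 0)

end Dom

/-! ### Six-vertex partition functions; arrows are `true` when pointing up or right -/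

/-- the weight of a tile -/
noncomputable def wtl (a : E → Bool) (t : V) : ℂ :=
  Lg (π / 2) (a (lft t)) (a (rgt t)) (a (top t)) (a (bot t))

/-- the weight of a boundary side of `R`: phase `γ` for outgoing and `-γ` for incoming arrows -/
noncomputable def bw (R : Finset V) (γ : E → ℝ) (a : E → Bool) (e : E) : ℂ :=
  ((3 : ℝ) ^ (-1 / 4 : ℝ) : ℝ) * ph (if e.1 ∈ R then γ e else -γ e) (a e)

/-- sum over the arrows on the sides in `S`, the other arrows being given by `a` -/
noncomputable def sumOn (S : Finset E) (f : (E → Bool) → ℂ) (a : E → Bool) : ℂ :=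
  ∑ η : S → Bool, f (Function.updateFinset a S η)

/-- partition function of `R` with prescribed arrows on the sides in `Γ` -/
noncomputable def Zv (R : Finset V) (Γ : Finset E) (γ : E → ℝ) (a : E → Bool) : ℂ :=
  sumOn (sd R \ Γ) (fun a => (∏ t ∈ R, wtl a t) * ∏ e ∈ bd R \ Γ, bw R γ a e) a

/-- partition function with a sink at the inner side `z` and a twist along the sides in `S` -/
noncomputable def Zcut (D : Finset V) (γ : E → ℝ) (z : E) (S : Finset E) : ℂ :=
  sumOn ((sd D).erase z) (fun a => (∏ t ∈ D, wtl (Function.update a z (decide (t = lo z))) t) *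
    (∏ e ∈ bd D, bw D γ a e) * ∏ e ∈ S, ph (-β) (a e)) fun _ => false

/-- the phase collected at a side along the natural arrow: turn, boundary angles and twist -/
noncomputable def θs (τ : TC) (D : Finset V) (γ : E → ℝ) (S : Finset E) (e : E) : ℝ :=
  (if tin e ∈ D then π / 12 * trn τ (tin e) else γ e) + (if tout e ∈ D then 0 else -γ e) +
    if e ∈ S then (if nat e then β else -β) else 0

/-- the weight of a strand or loop -/
noncomputable def cw (τ : TC) (D : Finset V) (γ : E → ℝ) (S K : Finset E) : ℝ :=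
  (3 : ℝ) ^ (-((K ∩ bd D).card : ℝ) / 4) * (2 * Real.cos (∑ e ∈ K, θs τ D γ S e))

open Classical in
/-- the sides met before `z` -/
noncomputable def bef (τ : TC) (D : Finset V) (z : E) : Finset E := (sd D).filter fun e =>
  e ≠ z ∧ Relation.ReflTransGen (fun x y => tin x ∈ D ∧ y = nx τ x) e z

/-- the amplitude of a configuration with a sink at `z` -/
noncomputable def ampc (τ : TC) (D : Finset V) (γ : E → ℝ) (z : E) (S : Finset E) : ℂ :=
  if Disjoint (cls τ D z) (bd D) then 0 else ((Real.sqrt 3)⁻¹ : ℝ) *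
    exp ((∑ e ∈ bef τ D z, θs τ D γ S e - ∑ e ∈ cls τ D z \ bef τ D z, θs τ D γ S e : ℝ) * I) *
    ∏ K ∈ ((sd D).image (cls τ D)).erase (cls τ D z), (cw τ D γ S K : ℂ)

/-- the horizontal sides at height `y` above the columns `x, ..., x + N - 1` -/
def lev (x y : ℤ) (N : ℕ) : Finset E := (Finset.range N).image fun j : ℕ => ((x + j, y), true)

/-- arrows read off from a spin configuration -/
def sp (x : ℤ) {N : ℕ} (s : Fin N → Bool) (e : E) : Bool :=
  if h : (e.1.1 - x).toNat < N then s ⟨_, h⟩ else false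

/-- the state seen on a horizontal chord from the part `R` of the domain -/
noncomputable def vec (R : Finset V) (γ : E → ℝ) (x y : ℤ) (N : ℕ) (s : Fin N → Bool) : ℂ :=
  Zv R (lev x y N) γ (sp x s)

/-- the Euclidean norm of a state -/
noncomputable def nrm {N : ℕ} (φ : (Fin N → Bool) → ℂ) : ℝ := Real.sqrt (∑ s, ‖φ s‖ ^ 2)

/-- the rectangle of tiles `[x, x + N) × [y, y + h)` -/
noncomputable def rect (x y : ℤ) (N h : ℕ) : Finset V := Finset.Ico x (x + N) ×ˢ Finset.Ico y (y + h)

/-- a window `rect x y N h` between two vertical walls cuts the domain into a part `R` attached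
below and a part `R'` attached above; the walls go on for `g` more rows in both directions;
`c l` is the upper left and `c r` the lower right corner of the window -/
structure Win (P : Dom) (x y : ℤ) (N h g l r : ℕ) (R R' : Finset V) : Prop where
  pos : 0 < N ∧ 0 < g
  cover : P.D = R ∪ rect x y N h ∪ R'
  dis : Disjoint R (rect x y N h) ∧ Disjoint R' (rect x y N h) ∧ Disjoint R R'
  sep : Disjoint (sd R) (sd R') ∨ h = 0
  low : rect x (y - g) N g ⊆ R
  up : rect x (y + h) N g ⊆ R'
  bdl : bd R ⊆ bd P.D ∪ lev x y N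
  bdu : bd R' ⊆ bd P.D ∪ lev x (y + h) N
  left : g ≤ l ∧ l + h + g ≤ P.n ∧ P.c l = (x, y + h) ∧ ∀ i, l - g ≤ i → i < l + h + g → P.dir i = 3
  right : g ≤ r ∧ r + h + g ≤ P.n ∧ P.c r = (x + N, y) ∧ ∀ i, r - g ≤ i → i < r + h + g → P.dir i = 1
  idx : ∀ i < P.n, P.b i ∈ sd R ↔ if l < r then l + h ≤ i ∧ i < r else l + h ≤ i ∨ i < r

end Pool.Agent.P.MP_6c8efb_pr.Cardy
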