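import Pool.Agent.P.MP_6c8efb_pr.Cardy.BDefs
import Pool.Agent.P.MP_6c8efb_pr.Walk

/-! Statements of the blocks between the operator estimate and the scaling limit. -/

open Complex MeasureTheory Filter Topology
open scoped Real ComplexConjugate Matrix

namespace Pool.Agent.P.MP_6c8efb_pr.Cardy

open Arm (TC Pt TConn)

/-- admissible marks -/
def Mk (P : Dom) (k₁ k₂ : ℕ) : Prop := 0 < k₁ ∧ k₁ < k₂ ∧ k₂ < P.n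

/-- marks at convex corners -/
def MkC (P : Dom) (k₁ k₂ : ℕ) : Prop := Mk P k₁ k₂ ∧ P.Cvx 0 ∧ P.Cvx k₁ ∧ P.Cvx k₂

/-! ### Topology -/

/-- strands and loops as orbits of `nx` -/
def S_Orb : Prop := ∀ (τ : TC) (D : Finset V),
  (∀ e, tin e ∈ D → tout e ∉ D → ∃ l e', Wk (nx τ) e l e' ∧ (∀ x ∈ l, tin x ∈ D) ∧ tin e' ∉ D ∧
    (l ++ [e']).Nodup ∧ ∀ x, Same τ D e x ↔ x ∈ l ++ [e']) ∧
  ∀ e ∈ sd D, (∃ e₀, tin e₀ ∈ D ∧ tout e₀ ∉ D ∧ Same τ D e₀ e) ∨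
    ∃ l, Lp (nx τ) e l ∧ (∀ x ∈ l, tin x ∈ D ∧ tout x ∈ D) ∧ ∀ x, Same τ D e x ↔ x ∈ l

def S_Top1 : Prop := ∀ (P : Dom) (τ : TC),
  bd P.D = (Finset.range P.n).image P.b ∧ (∀ i < P.n, ∀ j < P.n, P.b i = P.b j → i = j) ∧
  (∀ i < P.n, ∃! j, j < P.n ∧ j ≠ i ∧ Same τ P.D (P.b i) (P.b j)) ∧
  ∀ i j, P.Str τ i j →
    (∀ e ∈ sd P.D, (P.Inn τ i e.1 ↔ P.Inn τ i (hd e)) ↔ ¬Same τ P.D (P.b i) e) ∧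
    ∀ m ≤ P.n, P.Inn τ i (P.c m) ↔ i < m ∧ m ≤ j

open Classical in
def S_Top2 : Prop := ∀ (P : Dom) (τ : TC), P.ψ P.n = 4 ∧
  (∀ i j, P.Str τ i j → trK τ P.D (cls τ P.D (P.b i)) =
    (if tin (P.b i) ∈ P.D then 1 else -1) * (P.ψ j - P.ψ i - 2)) ∧
  ∀ e ∈ sd P.D, Disjoint (cls τ P.D e) (bd P.D) →
    (trK τ P.D (cls τ P.D e) = 4 ∨ trK τ P.D (cls τ P.D e) = -4) ∧
    ∃ J : V → ℤ, (∀ x ∈ sd P.D, J (lv x) - J (rv x) = if Same τ P.D e x then 1 else 0) ∧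
      ∀ m, J (P.c m) = 0

/-- the normalising constant of the current in a window -/
noncomputable def κ (P : Dom) (s : ℕ) : ℂ := -I * Real.sqrt 3 * exp (-(π / 6 * P.ψ s) * I)

def S_Cut : Prop := ∀ (P : Dom) (k₁ k₂ s : ℕ) (x t : ℤ) (k : ℕ) (τ : TC), Mk P k₁ k₂ →
  0 < s → s < P.n → s ≠ k₁ → s ≠ k₂ → P.c s = (x, t) → P.dir (s - 1) = 3 → P.dir s = 3 →
  (∀ j ≤ k, (x + j, t) ∈ P.D ∧ (x + j, t - 1) ∈ P.D) →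
  conj (P.jmp k₁ k₂ τ ((x + k, t), true)) = -(κ P s * exp (-I * π / 6)) *
    ampc τ P.D (P.ang (P.gam k₁ k₂ s)) ((x + k, t), true) (lev x t k) ∧
  (0 < k → conj (P.jmp k₁ k₂ τ ((x + k, t - 1), false)) = κ P s *
    ampc τ P.D (P.ang (P.gam k₁ k₂ s)) ((x + k, t - 1), false) (lev x t k))

def S_Win : Prop := ∀ (P : Dom) (x y : ℤ) (N h g : ℕ), P.Cvx 0 → 0 < N → 0 < g →
  rect x (y - g) N (h + 2 * g) ⊆ P.D →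
  (∀ j, y - g ≤ j → j < y + h + g → (x - 1, j) ∉ P.D ∧ (x + N, j) ∉ P.D) →
  ∃ l r R R', Win P x y N h g l r R R'

def S_Blow : Prop := ∀ (P : Dom) (M : ℕ), 0 < M → ∃ P', P.Blow M P'

/-! ### Loop expansion and transfer operators -/

open Classical in
def S_Cls : Prop := ∀ (X : Type) [Fintype X] (r : X → X → Prop) (θ : X → ℝ),
  ∑ ε : X → Bool, (if ∀ x y, r x y → ε x = ε y then ∏ x, ph (-θ x) (ε x) else 0) =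
    ∏ K : Quotient (Relation.EqvGen.setoid r),
      ((2 * Real.cos (∑ x with Quotient.mk (Relation.EqvGen.setoid r) x = K, θ x) : ℝ) : ℂ)

def S_Exp : Prop := ∀ (D : Finset V) (γ : E → ℝ),
  (∀ a, Zv D ∅ γ a = ∫ τ, ∏ K ∈ (sd D).image (cls τ D), (cw τ D γ ∅ K : ℂ) ∂PM fun _ => hf) ∧
  ∀ z S, lo z ∈ D → z.1 ∈ D → z ∉ S → S ⊆ sd D →
    Zcut D γ z S = ∫ τ, ampc τ D γ z S ∂PM fun _ => hf

def S_Tr : Prop := ∀ (P : Dom) (x y : ℤ) (N a a' g l r : ℕ) (R R' : Finset V) (γ : E → ℝ)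
  (α γr : ℝ), Win P x y N (a + a') g l r R R' →
  (∀ j, y ≤ j → j < y + a + a' →
    γ ((x, j), false) = (if j < y + a then α else α - β) ∧ γ ((x + N, j), false) = γr) →
  ∀ k : Fin N, exp (-I * π / 6) * Zcut P.D γ ((x + k, y + a), true) (lev x (y + a) k) =
    vec R' γ x (y + a + a') N ⬝ᵥ (T1 (α - β) γr (List.finRange N) ^ a' *
      Sv ((List.finRange N).take k) k * T1 α γr (List.finRange N) ^ a) *ᵥ vec R γ x y N ∧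
  (0 < a → 0 < k.1 → Zcut P.D γ ((x + k, y + a - 1), false) (lev x (y + a) k) =
    vec R' γ x (y + a + a') N ⬝ᵥ (T1 (α - β) γr (List.finRange N) ^ a' *
      Sh α γr ((List.finRange N).take k) ((List.finRange N).drop k) *
        T1 α γr (List.finRange N) ^ (a - 1)) *ᵥ vec R γ x y N)

/-! ### The norm bound -/

def S_Norm : Prop := ∀ (P : Dom) (k₁ k₂ : ℕ) (ε η : ℝ), MkC P k₁ k₂ → 0 < ε → 0 < η →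
  ∃ C : ℝ, ∀ (M : ℕ) (P' : Dom) (x y : ℤ) (N h g l r s : ℕ) (R R' : Finset V), 0 < M →
    P.Blow M P' → Win P' x y N h g l r R R' → ε * M ≤ g → l ≤ s → s ≤ l + h →
    nrm (vec R (P'.ang (P'.gam (M * k₁) (M * k₂) s)) x y N) *
      nrm (vec R' (P'.ang (P'.gam (M * k₁) (M * k₂) s)) x (y + h) N) ≤ C * (M : ℝ) ^ η

/-! ### The observable -/

def S_Val : Prop := ∀ (P : Dom) (k₁ k₂ : ℕ), Mk P k₁ k₂ →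
  (∀ v, LocF fun τ => P.val k₁ k₂ τ v) ∧ ∀ τ : TC, (∀ v, ‖P.val k₁ k₂ τ v‖ ≤ 1) ∧
    (∀ z ∈ sd P.D, P.val k₁ k₂ τ (hd z) - P.val k₁ k₂ τ z.1 = P.jmp k₁ k₂ τ z) ∧
    ∀ m < 3, ∀ v ∈ vx P.D, P.Sec k₁ k₂ τ m v → P.val k₁ k₂ τ v = ζ ^ (2 * m + 5)

def S_Crs : Prop := ∀ (P : Dom) (k₁ k₂ s : ℕ), Mk P k₁ k₂ → s ≤ k₁ →
  2 / Real.sqrt 3 * (P.F k₁ k₂ (P.c s)).im ≤ Pt (P.Crs 0 0 s k₁ k₂) + Pt (P.Crs 1 0 s k₁ k₂) - 1 ∧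
  -(2 / Real.sqrt 3 * (P.F k₁ k₂ (P.c s)).im) ≤
    Pt (P.Crs 0 s k₁ k₂ P.n) + Pt (P.Crs 1 s k₁ k₂ P.n) - 1

/-! ### Estimates from RSW -/

def S_Arm : Prop := ∃ C c : ℝ, 0 < c ∧ ∀ (D : Finset V) (x : V) (r R : ℤ), 1 ≤ r → r ≤ R →
  Pt (ArmS D x r R) ≤ C * ((r : ℝ) / R) ^ c ∧ Pt (ArmC D x r R) ≤ C * ((r : ℝ) / R) ^ c

def S_Mod : Prop := ∃ C c : ℝ, 0 < c ∧ ∀ (P : Dom) (k₁ k₂ : ℕ) (x v w : V) (r R : ℤ),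
  Mk P k₁ k₂ → 1 ≤ r → r ≤ R → Nr P.D x r v w →
  ((∀ i < P.n, R ≤ dd x (P.c i)) → ‖P.F k₁ k₂ v - P.F k₁ k₂ w‖ ≤ C * ((r : ℝ) / R) ^ c) ∧
  ∀ m : ℕ, (∀ i < P.n, dd x (P.c i) < R → arc k₁ k₂ i = m) →
    |((P.F k₁ k₂ v - P.F k₁ k₂ w) / ζ ^ (2 * m)).im| ≤ C * ((r : ℝ) / R) ^ c

def S_Nor : Prop := ∃ C c : ℝ, 0 < c ∧ ∀ (P : Dom) (k₁ k₂ i d R : ℕ), Mk P k₁ k₂ →
  1 ≤ d → d ≤ R → R ≤ i → i + R < P.n → arc k₁ k₂ (i - R) = arc k₁ k₂ (i + R) →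
  (∀ a b : ℤ, |a| ≤ R → |b| ≤ R →
    (fc (P.c i + a • u (P.dir i) + b • u (P.dir i + 1)) (P.dir i + 1) ∈ P.D ↔ 0 ≤ b)) →
  |(P.F k₁ k₂ (P.c i + (d : ℤ) • u (P.dir i + 1)) / ζ ^ (2 * arc k₁ k₂ i)).re - 1 / 2| ≤
    C * (((d : ℝ) / R) ^ c + (d : ℝ) ^ (-c))

def S_Cor : Prop := ∃ C c : ℝ, 0 < c ∧ ∀ (P : Dom) (k₁ k₂ : ℕ) (m : Fin 3) (v : V) (r R : ℤ),
  Mk P k₁ k₂ → 1 ≤ r → r ≤ R → Nr P.D (P.c (![0, k₁, k₂] m)) r (P.c (![0, k₁, k₂] m)) v →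
  (∀ i < P.n, arc k₁ k₂ i = (m + 1 : Fin 3) → R ≤ dd (P.c (![0, k₁, k₂] m)) (P.c i) ∧
    R ≤ dd (P.c (![0, k₁, k₂] m)) (P.c (i + 1))) →
  ‖P.F k₁ k₂ v - ζ ^ (2 * m.1 + 5)‖ ≤ C * ((r : ℝ) / R) ^ c

/-! ### The limit -/

/-- the discrete Cauchy-Riemann equation inside the cells -/
def S_CR : Prop := ∀ (P : Dom) (k₁ k₂ : ℕ) (ε : ℝ), MkC P k₁ k₂ → 0 < ε → ∃ C : ℝ,
  ∀ (M : ℕ) (P' : Dom), 0 < M → P.Blow M P' → ∀ q ∈ P.D, ∀ x t : ℤ,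
    (q.1 + ε) * M ≤ x → (x : ℝ) ≤ (q.1 + 1 - ε) * M → (q.2 + ε) * M ≤ t →
    (t : ℝ) ≤ (q.2 + 1 - ε) * M →
    ‖P'.F (M * k₁) (M * k₂) (x, t + 1) - P'.F (M * k₁) (M * k₂) (x, t - 1) -
      I * (P'.F (M * k₁) (M * k₂) (x + 1, t) - P'.F (M * k₁) (M * k₂) (x - 1, t))‖ ≤
        C * (M : ℝ) ^ (-21 / 20 : ℝ)

/-- the scaling limit of the observable in a polyomino -/
def S_Lim : Prop := ∀ (P : Dom) (k₁ k₂ : ℕ), MkC P k₁ k₂ → ∀ (P' : ℕ → Dom),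
  (∀ M, 0 < M → P.Blow M (P' M)) → ∀ 𝒰 : Ultrafilter ℕ, (𝒰 : Filter ℕ) ≤ atTop →
  ∃ f : ℂ → ℂ, ContinuousOn f P.cl ∧ DifferentiableOn ℂ f (interior P.cl) ∧
    (∀ z ∈ P.cl, ‖f z‖ ≤ 1) ∧
    (∀ i < P.n, ∀ θ ∈ Set.Icc (0 : ℝ) 1,
      (f (toC (P.c i) + θ * toC (u (P.dir i))) / ζ ^ (2 * arc k₁ k₂ i)).re = 1 / 2) ∧
    f (toC (P.c 0)) = ζ ^ 5 ∧ f (toC (P.c k₁)) = ζ ∧ f (toC (P.c k₂)) = ζ ^ 3 ∧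
    (∀ z ∈ interior P.cl,
      Tendsto (fun M => (P' M).F (M * k₁) (M * k₂) (fl M z)) 𝒰 (𝓝 (f z))) ∧
    ∀ s ≤ k₁, Tendsto (fun M => ((P' M).F (M * k₁) (M * k₂) ((P' M).c (M * s))).im) 𝒰
      (𝓝 (f (toC (P.c s))).im)

end Pool.Agent.P.MP_6c8efb_pr.Cardy
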