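import Mathlib

/-! Analytic lemmas for the scaling limit: removable lines, removable boundary points, and
holomorphy of limits of lattice functions with a small discrete Cauchy-Riemann defect. -/

open Complex Set Filter Topology Metric intervalIntegral
open scoped Interval

namespace Pool.Agent.P.MP_6c8efb_pr.Cardy.Lim

/-- the integral around a rectangle -/
noncomputable def rint (f : ℂ → ℂ) (a b c d : ℝ) : ℂ :=
  (∫ x : ℝ in a..b, f (x + c * I)) - (∫ x : ℝ in a..b, f (x + d * I)) +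
    I • (∫ y : ℝ in c..d, f (b + y * I)) - I • ∫ y : ℝ in c..d, f (a + y * I)

/-- Morera's theorem -/
theorem morera {U : Set ℂ} {f : ℂ → ℂ} (hU : IsOpen U) (hf : ContinuousOn f U)
    (h : ∀ a b c d : ℝ, a ≤ b → c ≤ d → Icc a b ×ℂ Icc c d ⊆ U → rint f a b c d = 0) :
    DifferentiableOn ℂ f U := by
  refine (isConservativeOn_and_continuousOn_iff_isDifferentiableOn hU).1 ⟨fun z w hzw => ?_, hf⟩
  rw [← add_eq_zero_iff_eq_neg, wedgeIntegral_add_wedgeIntegral_eq]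
  change rint f z.re w.re z.im w.im = 0
  have e1 : ∀ a b c d, rint f a b c d = -rint f b a c d := fun a b c d => by
    simp only [rint, integral_symm a b]; ring
  have e2 : ∀ a b c d, rint f a b c d = -rint f a b d c := fun a b c d => by
    simp only [rint, integral_symm c d, smul_eq_mul]; ring
  unfold Rectangle at hzw
  rcases le_total z.re w.re with h1 | h1 <;> rcases le_total z.im w.im with h2 | h2 <;>
    simp only [uIcc_of_le, uIcc_of_ge, h1, h2] at hzw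
  · exact h _ _ _ _ h1 h2 hzw
  · rw [e2, h _ _ _ _ h1 h2 hzw, neg_zero]
  · rw [e1, h _ _ _ _ h1 h2 hzw, neg_zero]
  · rw [e1, e2, h _ _ _ _ h1 h2 hzw, neg_zero, neg_zero]

theorem rint_zero {f : ℂ → ℂ} {a b c d : ℝ} (h1 : a ≤ b) (h2 : c ≤ d)
    (hc : ContinuousOn f (Icc a b ×ℂ Icc c d)) (hd : DifferentiableOn ℂ f (Ioo a b ×ℂ Ioo c d)) :
    rint f a b c d = 0 := by
  have := integral_boundary_rect_eq_zero_of_continuousOn_of_differentiableOn f ⟨a, c⟩ ⟨b, d⟩
    (by simpa [uIcc_of_le, h1, h2] using hc) (by simpa [h1, h2] using hd)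
  exact this

/-- a horizontal line is removable -/
theorem diff_off_line {U : Set ℂ} {f : ℂ → ℂ} {t : ℝ} (hU : IsOpen U) (hf : ContinuousOn f U)
    (h : ∀ z ∈ U, z.im ≠ t → DifferentiableAt ℂ f z) : DifferentiableOn ℂ f U := by
  refine morera hU hf fun a b c d h1 h2 hs => ?_
  have key : ∀ c' d', c ≤ c' → c' ≤ d' → d' ≤ d → t ∉ Ioo c' d' → rint f a b c' d' = 0 :=
    fun c' d' h3 h4 h5 h6 => by
      have hs' : Icc a b ×ℂ Icc c' d' ⊆ U := fun z hz => hs ⟨hz.1, Icc_subset_Icc h3 h5 hz.2⟩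
      exact rint_zero h1 h4 (hf.mono hs') fun z hz =>
        (h z (hs' ⟨Ioo_subset_Icc_self hz.1, Ioo_subset_Icc_self hz.2⟩)
          fun e => h6 (e ▸ hz.2)).differentiableWithinAt
  by_cases ht : t ∈ Ioo c d
  · have hi : ∀ x ∈ Icc a b, ∀ c' ∈ Icc c d, ∀ d' ∈ Icc c d,
        IntervalIntegrable (fun y : ℝ => f (x + y * I)) MeasureTheory.volume c' d' :=
      fun x hx c' hc' d' hd' => (hf.comp (by fun_prop) fun y hy => hs ⟨by simpa using hx,
        by simpa using uIcc_subset_Icc hc' hd' hy⟩).intervalIntegrable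
    have ht' := Ioo_subset_Icc_self ht
    have k1 := key c t le_rfl ht.1.le ht.2.le (by simp)
    have k2 := key t d ht.1.le ht.2.le le_rfl (by simp)
    simp only [rint, smul_eq_mul] at k1 k2 ⊢
    rw [← integral_add_adjacent_intervals (hi a ⟨le_rfl, h1⟩ c ⟨le_rfl, h2⟩ t ht')
      (hi a ⟨le_rfl, h1⟩ t ht' d ⟨h2, le_rfl⟩), ← integral_add_adjacent_intervals
      (hi b ⟨h1, le_rfl⟩ c ⟨le_rfl, h2⟩ t ht') (hi b ⟨h1, le_rfl⟩ t ht' d ⟨h2, le_rfl⟩)]
    linear_combination k1 + k2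
  · exact key c d le_rfl h2 le_rfl ht

/-- the horizontal lines of integer height are removable -/
theorem diff_off_lines {U : Set ℂ} {f : ℂ → ℂ} (hU : IsOpen U) (hf : ContinuousOn f U)
    (h : ∀ z ∈ U, (∀ n : ℤ, z.im ≠ n) → DifferentiableAt ℂ f z) : DifferentiableOn ℂ f U := by
  intro z hz
  have ho : IsOpen (U ∩ im ⁻¹' Ioo ((⌊z.im⌋ : ℝ) - 1) (⌊z.im⌋ + 1)) :=
    hU.inter (isOpen_Ioo.preimage continuous_im)
  refine ((diff_off_line (t := ⌊z.im⌋) ho (hf.mono inter_subset_left)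
    fun w hw hw' => h w hw.1 fun n hn => hw' ?_).differentiableAt (ho.mem_nhds ⟨hz, ?_, ?_⟩)
      ).differentiableWithinAt
  · have h1 := hw.2.1
    have h2 := hw.2.2
    rw [hn] at h1 h2 ⊢
    norm_cast at h1 h2 ⊢
    omega
  · linarith [Int.floor_le z.im]
  · exact Int.lt_floor_add_one _

/-- the lines of the integer grid are removable -/
theorem diff_off_grid {U : Set ℂ} {f : ℂ → ℂ} (hU : IsOpen U) (hf : ContinuousOn f U)
    (h : ∀ z ∈ U, (∀ n : ℤ, z.re ≠ n) → (∀ n : ℤ, z.im ≠ n) → DifferentiableAt ℂ f z) :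
    DifferentiableOn ℂ f U := by
  refine diff_off_lines hU hf fun z hz hn => ?_
  have hc : IsClosed (range ((↑) : ℤ → ℝ)) := Int.isClosedEmbedding_coe_real.isClosed_range
  have ho : IsOpen ((fun w => -I * w) ⁻¹' (U ∩ im ⁻¹' (range ((↑) : ℤ → ℝ))ᶜ)) :=
    (hU.inter (hc.isOpen_compl.preimage continuous_im)).preimage (by fun_prop)
  have h1 := diff_off_lines (f := fun w => f (-I * w)) ho
    (hf.comp (by fun_prop) fun w hw => hw.1) fun w hw hw' =>
      (h _ hw.1 (by simpa using hw') fun n e => hw.2 ⟨n, e.symm⟩).comp w (by fun_prop)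
  have e : ∀ w : ℂ, -I * (I * w) = w := fun w => by linear_combination (-w) * I_mul_I
  have h2 := (h1.differentiableAt (x := I * z) (ho.mem_nhds (by
    rw [mem_preimage, e]; exact ⟨hz, fun ⟨n, hn'⟩ => hn n hn'.symm⟩))).comp z
      (f := fun w => I * w) (by fun_prop)
  simpa only [Function.comp_def, e] using h2

/-- maximum principle with boundary values taken as upper limits -/
theorem maxp {W : Set ℂ} {E : ℂ → ℂ} {C : ℝ} (hW : IsOpen W) (hb : Bornology.IsBounded W)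
    (hE : DifferentiableOn ℂ E W) (h : ∀ z ∈ frontier W, ∀ᶠ w in 𝓝[W] z, ‖E w‖ ≤ C) {z : ℂ}
    (hz : z ∈ W) : ‖E z‖ ≤ C := by
  set U := W ∩ (fun z => ‖E z‖) ⁻¹' Ioi C
  have ho : IsOpen U := hE.continuousOn.norm.isOpen_inter_preimage hW isOpen_Ioi
  have hc : closure U ⊆ W := fun w hw => by
    by_contra h4
    have h5 := h w (by rw [hW.frontier_eq]; exact ⟨closure_mono inter_subset_left hw, h4⟩)
    rw [eventually_nhdsWithin_iff] at h5
    obtain ⟨v, h6, h7⟩ := ((mem_closure_iff_frequently.1 hw).and_eventually h5).exists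
    exact absurd (h7 h6.1) (not_le.2 h6.2)
  by_contra h
  refine h (norm_le_of_forall_mem_frontier_norm_le (U := U) (hb.subset inter_subset_left)
    (hE.mono hc).diffContOnCl (fun w hw => ?_) (subset_closure ⟨hz, not_le.1 h⟩))
  rw [ho.frontier_eq] at hw
  exact not_lt.1 fun h => hw.2 ⟨hc hw.1, h⟩

theorem corner_le {U : Set ℂ} {g : ℂ → ℂ} {M : ℝ} {c a : ℂ} (hU : IsOpen U)
    (hg : DifferentiableOn ℂ g U) (hM : ∀ w ∈ U, ‖g w‖ ≤ M) (ha : a ≠ 0)
    (hs : ∀ w ∈ U, ‖w - c‖ < ‖a‖ → (w - c) / a ∈ slitPlane)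
    (h : ∀ z ∈ frontier U, z ≠ c → ‖z - c‖ < ‖a‖ → Tendsto (fun w => (g w).re) (𝓝[U] z) (𝓝 0))
    {w : ℂ} (hw : w ∈ U) (hw' : ‖w - c‖ < ‖a‖ / 2) :
    (g w).re ≤ 40 * |M| * ‖(log ((w - c) / a))⁻¹‖ := by
  have h0 : 0 < ‖a‖ := norm_pos_iff.2 ha
  set W := U ∩ ball c (‖a‖ / 2)
  set b : ℂ → ℂ := fun w => (-log ((w - c) / a))⁻¹ with hb
  have hl2 : 1 / 2 < Real.log 2 := by linarith [Real.log_two_gt_d9]
  have hW : ∀ w ∈ W, (w - c) / a ∈ slitPlane ∧ 1 / 2 < (-log ((w - c) / a)).re := fun w hw => by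
    have h1 : ‖w - c‖ < ‖a‖ / 2 := mem_ball_iff_norm.1 hw.2
    have h2 := hs w hw.1 (by linarith)
    refine ⟨h2, ?_⟩
    rw [neg_re, log_re, ← Real.log_inv]
    refine hl2.trans_le (Real.log_le_log two_pos ?_)
    rw [le_inv_comm₀ two_pos (norm_pos_iff.2 (slitPlane_ne_zero h2)), norm_div, div_le_iff₀ h0]
    linarith
  have hpos : ∀ w ∈ W, 0 ≤ (b w).re := fun w hw => by
    rw [hb, inv_re]
    exact div_nonneg (by linarith [(hW w hw).2]) (normSq_nonneg _)
  have hbig : ∀ w ∈ W, ‖a‖ / 4 < ‖w - c‖ → 1 / 40 ≤ (b w).re := fun w hw h1 => by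
    obtain ⟨h2, h3⟩ := hW w hw
    have h4 : (-log ((w - c) / a)).re ≤ 3 := by
      rw [neg_re, log_re, ← Real.log_inv]
      refine (Real.log_le_sub_one_of_pos (inv_pos.2 (norm_pos_iff.2 (slitPlane_ne_zero h2)))).trans ?_
      rw [norm_div, inv_div, sub_le_iff_le_add, div_le_iff₀ (by linarith)]
      linarith
    have h5 : |(-log ((w - c) / a)).im| ≤ 3.15 := by
      rw [neg_im, log_im, abs_neg]
      exact (abs_arg_le_pi _).trans Real.pi_lt_d2.le
    rw [hb, inv_re, le_div_iff₀ (normSq_pos.2 fun e => by rw [e] at h3; norm_num at h3),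
      normSq_apply]
    rw [abs_le] at h5
    nlinarith
  have hd : DifferentiableOn ℂ b W := fun w hw => by
    refine (DifferentiableAt.inv (DifferentiableAt.neg (DifferentiableAt.clog
      (f := fun w => (w - c) / a) (by fun_prop) (hW w hw).1)) fun e => ?_).differentiableWithinAt
    have := (hW w hw).2
    rw [show -log ((w - c) / a) = 0 from e] at this
    norm_num at this
  set A : ℝ := 40 * |M| with hA
  have hA0 : 0 ≤ A := by positivity
  have hn : ∀ (n : ℕ) (w : ℂ), ‖exp (n * (g w - A * b w)) * (w - c)‖ =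
      Real.exp (n * ((g w).re - A * (b w).re)) * ‖w - c‖ := fun n w => by simp [norm_exp]
  have hww : w ∈ W := ⟨hw, mem_ball_iff_norm.2 hw'⟩
  have key : ∀ n : ℕ, Real.exp (n * ((g w).re - A * (b w).re)) * ‖w - c‖ ≤ ‖a‖ := fun n => by
    rw [← hn]
    refine maxp (E := fun w => exp (n * (g w - A * b w)) * (w - c)) (hU.inter isOpen_ball)
      (isBounded_ball.subset inter_subset_right) (((((hg.mono inter_subset_left).sub
        (hd.const_mul _)).const_mul _).cexp).mul (by fun_prop)) (fun z hz => ?_) hww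
    simp only [hn]
    have hle : ∀ (w : ℂ) (t : ℝ), w ∈ W → (g w).re - A * (b w).re ≤ t →
        Real.exp (n * ((g w).re - A * (b w).re)) ≤ Real.exp (n * t) := fun w t _ h1 => by gcongr
    have hle' : ∀ w ∈ W, (g w).re - A * (b w).re ≤ (g w).re := fun w hw =>
      sub_le_self _ (mul_nonneg hA0 (hpos w hw))
    by_cases h1 : ‖a‖ / 4 < ‖z - c‖
    · filter_upwards [self_mem_nhdsWithin, nhdsWithin_le_nhds
        ((continuous_id.sub continuous_const).norm.continuousAt.eventually (lt_mem_nhds h1))]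
        with w hw h2
      have h3 := hle w 0 hw (by
        nlinarith [hbig w hw h2, (re_le_norm _).trans (hM w hw.1), le_abs_self M, abs_nonneg M])
      rw [mul_zero, Real.exp_zero] at h3
      nlinarith [mem_ball_iff_norm.1 hw.2, norm_nonneg (w - c)]
    by_cases h2 : z = c
    · subst h2
      have h3 : ContinuousAt (fun w => Real.exp (n * M) * ‖w - z‖) z := by fun_prop
      filter_upwards [self_mem_nhdsWithin, nhdsWithin_le_nhds
        (h3.eventually (gt_mem_nhds (a := ‖a‖) (by simpa using ha)))] with w hw h4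
      refine le_trans ?_ h4.le
      gcongr
      exact (hle' w hw).trans ((re_le_norm _).trans (hM w hw.1))
    · have h3 : z ∈ frontier U := by
        rcases frontier_inter_subset _ _ hz with h4 | h4
        · exact h4.1
        · have := mem_sphere_iff_norm.1 (frontier_ball_subset_sphere h4.2)
          linarith
      have h4 := ((h z h3 h2 (by linarith)).const_mul (n : ℝ)).rexp.mono_left
        (nhdsWithin_mono z (inter_subset_left : W ⊆ U))
      filter_upwards [self_mem_nhdsWithin, h4.eventually (gt_mem_nhds (a := 2) (by simp))]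
        with w hw h5
      nlinarith [mem_ball_iff_norm.1 hw.2, norm_nonneg (w - c), hle w _ hw (hle' w hw),
        Real.exp_pos (n * ((g w).re - A * (b w).re))]
  have h6 : (g w).re - A * (b w).re ≤ 0 := by
    by_contra h7
    have h8 : 0 < ‖w - c‖ := norm_pos_iff.2 fun e => by
      simpa [e] using (hW w hww).1
    obtain ⟨n, hn⟩ := exists_nat_gt (‖a‖ / ‖w - c‖ / ((g w).re - A * (b w).re))
    rw [div_lt_iff₀ (not_le.1 h7), div_lt_iff₀ h8] at hn
    nlinarith [key n, Real.add_one_le_exp (n * ((g w).re - A * (b w).re))]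
  have h7 : (b w).re ≤ ‖(log ((w - c) / a))⁻¹‖ := (re_le_norm _).trans (by simp [hb])
  nlinarith

/-- a boundary point from which a segment of the complement starts is removable for the boundary
values of the real part of a bounded holomorphic function -/
theorem corner {U : Set ℂ} {g : ℂ → ℂ} {M : ℝ} {c a : ℂ} (hU : IsOpen U)
    (hg : DifferentiableOn ℂ g U) (hM : ∀ w ∈ U, ‖g w‖ ≤ M) (ha : a ≠ 0)
    (hs : ∀ w ∈ U, ‖w - c‖ < ‖a‖ → (w - c) / a ∈ slitPlane)
    (h : ∀ z ∈ frontier U, z ≠ c → ‖z - c‖ < ‖a‖ → Tendsto (fun w => (g w).re) (𝓝[U] z) (𝓝 0)) :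
    Tendsto (fun w => (g w).re) (𝓝[U] c) (𝓝 0) := by
  have h0 : 0 < ‖a‖ := norm_pos_iff.2 ha
  have h1 : ∀ᶠ w in 𝓝[U] c, w ∈ U ∧ ‖w - c‖ < ‖a‖ / 2 := by
    filter_upwards [self_mem_nhdsWithin, nhdsWithin_le_nhds (ball_mem_nhds c (half_pos h0))]
      with w h1 h2 using ⟨h1, mem_ball_iff_norm.1 h2⟩
  have h2 : Tendsto (fun w => ‖(w - c) / a‖) (𝓝[U] c) (𝓝[>] 0) := by
    refine tendsto_nhdsWithin_iff.2 ⟨?_, h1.mono fun w hw =>
      norm_pos_iff.2 (slitPlane_ne_zero (hs w hw.1 (by linarith)))⟩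
    have : Continuous fun w => ‖(w - c) / a‖ := by fun_prop
    simpa using (this.tendsto c).mono_left nhdsWithin_le_nhds
  have h3 : Tendsto (fun w => ‖log ((w - c) / a)‖) (𝓝[U] c) atTop :=
    tendsto_atTop_mono (fun w => by simpa [log_re] using abs_re_le_norm (log ((w - c) / a)))
      (tendsto_abs_atBot_atTop.comp (Real.tendsto_log_nhdsGT_zero.comp h2))
  have h4 := h3.inv_tendsto_atTop.const_mul (40 * |M|)
  rw [mul_zero] at h4
  refine squeeze_zero_norm' (h1.mono fun w hw => abs_le.2 ⟨?_, ?_⟩) h4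
  · have := corner_le (g := fun w => -g w) hU hg.neg (by simpa using hM) ha hs
      (fun z h1 h2 h3 => by simpa using (h z h1 h2 h3).neg) hw.1 hw.2
    simp only [neg_re, norm_inv, Pi.inv_apply] at this ⊢
    linarith
  · simpa using corner_le hU hg hM ha hs h hw.1 hw.2

/-! ### Limits of lattice functions -/

/-- the point of the plane named by a lattice point, the mesh being `1 / m` -/
noncomputable def pt (m : ℝ) (v : ℤ × ℤ) : ℂ := ⟨v.1 / m, v.2 / m⟩

/-- a lattice point close to `z` -/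
noncomputable def flr (m : ℝ) (z : ℂ) : ℤ × ℤ := (⌊m * z.re⌋, ⌊m * z.im⌋)

/-- the discrete Cauchy-Riemann defect -/
def dCR (F : ℤ × ℤ → ℂ) (v : ℤ × ℤ) : ℂ :=
  F (v.1, v.2 + 1) - F (v.1, v.2 - 1) - I * (F (v.1 + 1, v.2) - F (v.1 - 1, v.2))

theorem abs_flr {m : ℝ} (hm : 0 < m) (x : ℝ) : |(⌊m * x⌋ : ℝ) / m - x| ≤ 1 / m := by
  rw [show (⌊m * x⌋ : ℝ) / m - x = (⌊m * x⌋ - m * x) / m by field_simp, abs_div, abs_of_pos hm]
  gcongr
  rw [abs_le]
  constructor <;> linarith [Int.floor_le (m * x), Int.lt_floor_add_one (m * x)]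

theorem dist_flr {m : ℝ} (hm : 0 < m) (z : ℂ) : dist (pt m (flr m z)) z ≤ 2 / m := by
  rw [dist_eq_norm]
  refine (norm_le_abs_re_add_abs_im _).trans ?_
  simp only [pt, flr, sub_re, sub_im]
  linarith [abs_flr hm z.re, abs_flr hm z.im, show 2 / m = 1 / m + 1 / m by ring]

variable {ι : Type} {l : Filter ι} {m : ι → ℝ}

theorem ev_small (hm : Tendsto m l atTop) {δ : ℝ} (hδ : 0 < δ) (k : ℝ) :
    ∀ᶠ i in l, 0 < m i ∧ k / m i < δ :=
  (hm.eventually_gt_atTop 0).and ((hm.const_div_atTop k).eventually (gt_mem_nhds hδ))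

theorem tendsto_flr (hm : Tendsto m l atTop) (z : ℂ) :
    Tendsto (fun i => pt (m i) (flr (m i) z)) l (𝓝 z) :=
  Metric.tendsto_nhds.2 fun _ hε => (ev_small hm hε 2).mono fun _ h => (dist_flr h.1 z).trans_lt h.2

/-- the lattice functions `F i` are close to `a` at the lattice points close to `z` -/
def LimAt (l : Filter ι) (m : ι → ℝ) (F : ι → ℤ × ℤ → ℂ) (z a : ℂ) : Prop :=
  ∀ ε > 0, ∃ δ > 0, ∀ᶠ i in l, ∀ v, dist (pt (m i) v) z < δ → ‖F i v - a‖ ≤ ε

variable {F : ι → ℤ × ℤ → ℂ}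

theorem LimAt.tendsto {z a : ℂ} (h : LimAt l m F z a) {v : ι → ℤ × ℤ}
    (hv : Tendsto (fun i => pt (m i) (v i)) l (𝓝 z)) : Tendsto (fun i => F i (v i)) l (𝓝 a) := by
  refine Metric.tendsto_nhds.2 fun ε hε => ?_
  obtain ⟨δ, h1, h2⟩ := h (ε / 2) (half_pos hε)
  filter_upwards [h2, Metric.tendsto_nhds.1 hv δ h1] with i h3 h4
  exact (dist_eq_norm _ _).trans_lt ((h3 _ h4).trans_lt (half_lt_self hε))

/-- the same for a function `T` of the values and the lattice points in `S` -/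
def BL {X : Type} [PseudoMetricSpace X] (l : Filter ι) (m : ι → ℝ) (F : ι → ℤ × ℤ → ℂ) (S : Set ℂ)
    (T : ℂ → X) (z : ℂ) (a : X) : Prop :=
  ∀ ε > 0, ∃ δ > 0, ∀ᶠ i in l, ∀ v, pt (m i) v ∈ S → dist (pt (m i) v) z < δ →
    dist (T (F i v)) a ≤ ε

variable {X : Type} [PseudoMetricSpace X] {S : Set ℂ} {T : ℂ → X}

theorem BL.tendsto {z : ℂ} {a : X} (h : BL l m F S T z a) {v : ι → ℤ × ℤ}
    (hv : Tendsto (fun i => pt (m i) (v i)) l (𝓝 z)) (hS : ∀ᶠ i in l, pt (m i) (v i) ∈ S) :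
    Tendsto (fun i => T (F i (v i))) l (𝓝 a) := by
  refine Metric.tendsto_nhds.2 fun ε hε => ?_
  obtain ⟨δ, h1, h2⟩ := h (ε / 2) (half_pos hε)
  filter_upwards [h2, Metric.tendsto_nhds.1 hv δ h1, hS] with i h3 h4 h5
  exact (h3 _ h5 h4).trans_lt (half_lt_self hε)

theorem BL.limAt {z a : ℂ} (h : BL l m F S id z a) (hS : S ∈ 𝓝 z) : LimAt l m F z a := fun ε hε => by
  obtain ⟨δ, h1, h2⟩ := h ε hε
  obtain ⟨δ', h3, h4⟩ := Metric.mem_nhds_iff.1 hS
  exact ⟨min δ δ', lt_min h1 h3, h2.mono fun i h5 v hv => (dist_eq_norm _ _).symm.trans_le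
    (h5 v (h4 (hv.trans_le (min_le_right _ _))) (hv.trans_le (min_le_left _ _)))⟩

theorem BL.comp {Y : Type} [PseudoMetricSpace Y] {z : ℂ} {a : X} (h : BL l m F S T z a) {g : X → Y}
    (hg : ∀ x y, dist (g x) (g y) ≤ dist x y) : BL l m F S (fun w => g (T w)) z (g a) :=
  fun ε hε => let ⟨δ, h1, h2⟩ := h ε hε
    ⟨δ, h1, h2.mono fun _ h3 v h4 h5 => (hg _ _).trans (h3 v h4 h5)⟩

/-- existence of the limit along an ultrafilter -/
theorem exists_BL (l : Ultrafilter ι) {M : ℝ} (hM : ∀ᶠ i in l, ∀ v, ‖F i v‖ ≤ M) (hT : Continuous T)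
    {z : ℂ} (x : ι → ℤ × ℤ) (h : ∀ ε > 0, ∃ δ > 0, ∀ᶠ i in l, ∀ v, pt (m i) v ∈ S →
      dist (pt (m i) v) z < δ → dist (T (F i v)) (T (F i (x i))) ≤ ε) : ∃ a, BL l m F S T z a := by
  obtain ⟨a, -, ha⟩ := (isCompact_closedBall (0 : ℂ) M).ultrafilter_le_nhds
    (l.map fun i => F i (x i)) (le_principal_iff.2 (mem_map.2 (hM.mono fun i hi =>
      mem_closedBall_zero_iff.2 (hi _))))
  refine ⟨T a, fun ε hε => ?_⟩
  obtain ⟨δ, h1, h2⟩ := h (ε / 2) (half_pos hε)
  refine ⟨δ, h1, ?_⟩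
  filter_upwards [h2, Metric.tendsto_nhds.1 ((hT.tendsto a).comp (show Tendsto _ _ _ from ha)) _
    (half_pos hε)] with i h3 h4 v h5 h6
  exact (dist_triangle _ (T (F i (x i))) _).trans
    ((add_le_add (h3 v h5 h6) h4.le).trans_eq (add_halves ε))

variable [l.NeBot] {U : Set ℂ} {f : ℂ → ℂ}

theorem LimAt.near (hm : Tendsto m l atTop) {z w a b : ℂ} {ε δ : ℝ} (hw : LimAt l m F w b)
    (h : ∀ᶠ i in l, ∀ v, dist (pt (m i) v) z < δ → ‖F i v - a‖ ≤ ε) (hd : dist w z < δ) :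
    ‖b - a‖ ≤ ε :=
  le_of_tendsto ((hw.tendsto (tendsto_flr hm w)).sub_const a).norm (by
    filter_upwards [h, ((tendsto_flr hm w).dist tendsto_const_nhds).eventually (gt_mem_nhds hd)]
      with i h1 h2 using h1 _ h2)

/-- boundary values of the limit -/
theorem BL.bdry (hm : Tendsto m l atTop) (hU : IsOpen U) (hS : U ⊆ S) (hT : Continuous T)
    (hf : ∀ z ∈ U, LimAt l m F z (f z)) {z : ℂ} {a : X} (h : BL l m F S T z a) :
    Tendsto (fun w => T (f w)) (𝓝[U] z) (𝓝 a) := by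
  refine Metric.tendsto_nhds.2 fun ε hε => ?_
  obtain ⟨δ, h1, h2⟩ := h (ε / 2) (half_pos hε)
  filter_upwards [self_mem_nhdsWithin, nhdsWithin_le_nhds (ball_mem_nhds z h1)] with w h3 h4
  refine lt_of_le_of_lt (le_of_tendsto (((hT.tendsto _).comp ((hf w h3).tendsto
    (tendsto_flr hm w))).dist tendsto_const_nhds) ?_) (half_lt_self hε)
  filter_upwards [h2, (tendsto_flr hm w).eventually (hU.mem_nhds h3),
    (tendsto_flr hm w).eventually (isOpen_ball.mem_nhds h4)] with i h5 h6 h7 using h5 _ (hS h6) h7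

theorem limAt_cont (hm : Tendsto m l atTop) (h : ∀ z ∈ U, LimAt l m F z (f z)) :
    ContinuousOn f U := fun z hz => by
  refine Metric.tendsto_nhds.2 fun ε hε => ?_
  obtain ⟨δ, h1, h2⟩ := h z hz (ε / 2) (half_pos hε)
  filter_upwards [self_mem_nhdsWithin, nhdsWithin_le_nhds (ball_mem_nhds z h1)] with w h3 h4
  exact (dist_eq_norm _ _).trans_lt (((h w h3).near hm h2 h4).trans_lt (half_lt_self hε))

/-- uniform convergence on compact sets -/
theorem limAt_unif (hm : Tendsto m l atTop) (h : ∀ z ∈ U, LimAt l m F z (f z)) {K : Set ℂ}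
    (hK : IsCompact K) (hs : K ⊆ U) {ε : ℝ} (hε : 0 < ε) :
    ∀ᶠ i in l, ∀ w ∈ K, ∀ v, dist (pt (m i) v) w ≤ 3 / m i → ‖F i v - f w‖ ≤ ε := by
  refine hK.induction_on (p := fun K => ∀ᶠ i in l, ∀ w ∈ K, ∀ v,
    dist (pt (m i) v) w ≤ 3 / m i → ‖F i v - f w‖ ≤ ε) (by simp)
    (fun s t hst ht => ht.mono fun i h1 w hw => h1 w (hst hw)) (fun s t h1 h2 => ?_) fun z hz => ?_
  · filter_upwards [h1, h2] with i h4 h5 w hw using hw.elim (h4 w) (h5 w)
  · obtain ⟨δ, h1, h2⟩ := h z (hs hz) (ε / 2) (half_pos hε)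
    refine ⟨K ∩ ball z (δ / 2), inter_mem_nhdsWithin _ (ball_mem_nhds _ (half_pos h1)), ?_⟩
    filter_upwards [h2, ev_small hm (half_pos h1) 3] with i h3 h4 w hw v hv
    have h5 : dist w z < δ / 2 := hw.2
    linarith [norm_sub_le_norm_sub_add_norm_sub (F i v) (f z) (f w), norm_sub_rev (f z) (f w),
      h3 v (by linarith [dist_triangle (pt (m i) v) w z, h4.2]),
      (h w (hs hw.1)).near hm h2 (by linarith)]

omit [l.NeBot] in
/-- Riemann sums -/
theorem riemann (hm : Tendsto m l atTop) {g : ℝ → ℂ} {s : ι → ℤ → ℂ} {a b δ : ℝ} (hab : a ≤ b)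
    (hδ : 0 < δ) (hg : ContinuousOn g (Icc (a - δ) b))
    (h : ∀ ε > 0, ∀ᶠ i in l, ∀ x ∈ Icc (a - δ) b, ‖s i ⌊m i * x⌋ - g x‖ ≤ ε) :
    Tendsto (fun i => (∑ x ∈ Finset.Ico ⌊m i * a⌋ ⌊m i * b⌋, s i x) / m i) l
      (𝓝 (∫ x in a..b, g x)) := by
  have hi : ∀ x ∈ Icc (a - δ) b, ∀ y ∈ Icc (a - δ) b,
      IntervalIntegrable g MeasureTheory.volume x y := fun x hx y hy =>
    (hg.mono (uIcc_subset_Icc hx hy)).intervalIntegrable
  have ha : a ∈ Icc (a - δ) b := ⟨by linarith, hab⟩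
  have hb : b ∈ Icc (a - δ) b := ⟨by linarith, le_rfl⟩
  have hf : ∀ x ∈ Icc a b, ∀ᶠ i in l, (⌊m i * x⌋ : ℝ) / m i ∈ Icc (a - δ) b := fun x hx =>
    (ev_small hm hδ 1).mono fun i hi => ⟨by linarith [(abs_le.1 (abs_flr hi.1 x)).1, hx.1, hi.2],
      le_trans ((div_le_iff₀' hi.1).2 (Int.floor_le _)) hx.2⟩
  have ht : ∀ x ∈ Icc a b, Tendsto (fun i => ∫ y in a..(⌊m i * x⌋ : ℝ) / m i, g y) l
      (𝓝 (∫ y in a..x, g y)) := fun x hx => by
    have h1 := continuousOn_primitive_interval' (hi _ ⟨le_rfl, by linarith⟩ b hb) (a := a)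
      (by rwa [uIcc_of_le (by linarith)])
    rw [uIcc_of_le (by linarith)] at h1
    refine (h1 x ⟨by linarith [hx.1], hx.2⟩).tendsto.comp (tendsto_nhdsWithin_iff.2 ⟨?_, hf x hx⟩)
    exact Metric.tendsto_nhds.2 fun _ hε => (ev_small hm hε 1).mono fun _ h =>
      (abs_flr h.1 x).trans_lt h.2
  have h1 := (ht b ⟨hab, le_rfl⟩).sub (ht a ⟨le_rfl, hab⟩)
  rw [integral_same, sub_zero] at h1
  refine h1.congr_dist (Metric.tendsto_nhds.2 fun ε hε => ?_)
  have hp : 0 < b - a + δ := by linarith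
  filter_upwards [h (ε / 2 / (b - a + δ)) (by positivity), hf a ⟨le_rfl, hab⟩, hf b ⟨hab, le_rfl⟩,
    hm.eventually_gt_atTop 0] with i h2 h3 h4 h0
  rw [integral_interval_sub_left (hi a ha _ h4) (hi a ha _ h3), Real.dist_eq, sub_zero, abs_dist,
    dist_eq_norm]
  have key : ∀ n : ℤ, ⌊m i * a⌋ ≤ n → (n : ℝ) / m i ≤ b →
      ‖(∫ y in (⌊m i * a⌋ : ℝ) / m i..(n : ℝ) / m i, g y) -
        (∑ x ∈ Finset.Ico ⌊m i * a⌋ n, s i x) / m i‖ ≤
          ε / 2 / (b - a + δ) * ((n : ℝ) / m i - (⌊m i * a⌋ : ℝ) / m i) := fun n hn => by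
    induction n, hn using Int.leInduction with
    | base => simp
    | succ n hn ih =>
      intro h5
      have e : ((n + 1 : ℤ) : ℝ) / m i = n / m i + 1 / m i := by push_cast; ring
      have h1 : 0 < 1 / m i := by positivity
      have h6 : (⌊m i * a⌋ : ℝ) / m i ≤ n / m i := by gcongr
      have h7 : (n : ℝ) / m i ∈ Icc (a - δ) b := ⟨h3.1.trans h6, by linarith⟩
      have h8 : ((n + 1 : ℤ) : ℝ) / m i ∈ Icc (a - δ) b := ⟨by linarith [h7.1], h5⟩
      have h9 := norm_integral_le_of_norm_le_const_ae (a := n / m i) (b := ((n + 1 : ℤ) : ℝ) / m i)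
        (C := ε / 2 / (b - a + δ)) (f := fun y => g y - s i n) (by
          filter_upwards [MeasureTheory.volume.ae_ne (((n + 1 : ℤ) : ℝ) / m i)] with y hn hy
          rw [uIoc_of_le (by linarith)] at hy
          have := h2 y ⟨h7.1.trans hy.1.le, hy.2.trans h5⟩
          rwa [norm_sub_rev, (Int.floor_eq_iff (z := n)).2 ⟨(div_le_iff₀' h0).1 hy.1.le, by
            exact_mod_cast (lt_div_iff₀' h0).1 (hy.2.lt_of_ne hn)⟩] at this)
      rw [integral_sub (hi _ h7 _ h8) intervalIntegrable_const, integral_const, e, add_sub_cancel_left,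
        abs_of_pos h1] at h9
      rw [← integral_add_adjacent_intervals (hi _ h3 _ h7) (hi _ h7 _ h8),
        ← Finset.insert_Ico_right_eq_Ico_add_one hn, Finset.sum_insert (by simp), e]
      refine le_trans (le_of_eq ?_) ((norm_add_le _ _).trans ((add_le_add (ih h7.2) h9).trans
        (le_of_eq (by ring))))
      congr 1
      simp only [real_smul, ofReal_div, ofReal_one]
      ring
  refine (key _ (Int.floor_mono (by gcongr)) h4.2).trans_lt ?_
  calc _ ≤ ε / 2 / (b - a + δ) * (b - a + δ) := by gcongr; linarith [h3.1, h4.2]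
    _ < ε := by rw [div_mul_cancel₀ _ hp.ne']; linarith

theorem tele (φ : ℤ → ℂ) {a b : ℤ} (h : a ≤ b) : ∑ t ∈ Finset.Ico a b, (φ (t + 1) - φ (t - 1)) =
    φ b + φ (b - 1) - (φ a + φ (a - 1)) := by
  induction b, h using Int.leInduction with
  | base => simp
  | succ n hn ih =>
    rw [← Finset.insert_Ico_right_eq_Ico_add_one hn, Finset.sum_insert (by simp), ih,
      add_sub_cancel_right]
    ring

/-- discrete Green formula -/
theorem green (G : ℤ × ℤ → ℂ) {a b c d : ℤ} (h1 : a ≤ b) (h2 : c ≤ d) :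
    ∑ x ∈ Finset.Ico a b, ∑ t ∈ Finset.Ico c d, dCR G (x, t) =
      ∑ x ∈ Finset.Ico a b, (G (x, d) + G (x, d - 1)) -
      ∑ x ∈ Finset.Ico a b, (G (x, c) + G (x, c - 1)) -
      I * (∑ t ∈ Finset.Ico c d, (G (b, t) + G (b - 1, t)) -
        ∑ t ∈ Finset.Ico c d, (G (a, t) + G (a - 1, t))) := by
  simp only [← Finset.sum_sub_distrib, fun x => (tele (fun t => G (x, t)) h2).symm,
    fun t => (tele (fun x => G (x, t)) h1).symm]
  rw [Finset.sum_comm (s := Finset.Ico c d), Finset.mul_sum, ← Finset.sum_sub_distrib]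
  refine Finset.sum_congr rfl fun x _ => ?_
  rw [Finset.mul_sum, ← Finset.sum_sub_distrib]
  rfl

/-- limits of lattice functions with a small defect are holomorphic -/
theorem limAt_holo (hm : Tendsto m l atTop) (hU : IsOpen U) (h : ∀ z ∈ U, LimAt l m F z (f z))
    (hd : ∀ K ⊆ U, IsCompact K → ∀ ε > 0, ∀ᶠ i in l, ∀ v, pt (m i) v ∈ K →
      ‖dCR (F i) v‖ ≤ ε / m i) : DifferentiableOn ℂ f U := by
  have hc := limAt_cont hm h
  refine morera hU hc fun a b c d h1 h2 hs => ?_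
  obtain ⟨δ, h0, hK⟩ : ∃ δ > 0, Icc (a - δ) b ×ℂ Icc (c - δ) d ⊆ U := by
    obtain ⟨δ, h0, h3⟩ := (isCompact_Icc.reProdIm isCompact_Icc).exists_cthickening_subset_open hU hs
    refine ⟨δ / 2, half_pos h0, fun z hz => h3 (mem_cthickening_of_dist_le z
      ⟨max a z.re, max c z.im⟩ δ _ ⟨⟨le_max_left _ _, max_le h1 hz.1.2⟩,
        le_max_left _ _, max_le h2 hz.2.2⟩ ?_)⟩
    rw [dist_eq_norm]
    refine (norm_le_abs_re_add_abs_im _).trans ?_
    have k : ∀ x y : ℝ, y - δ / 2 ≤ x → |x - max y x| ≤ δ / 2 := fun x y h => by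
      rw [abs_le]; constructor <;> cases max_cases y x <;> linarith
    simp only [sub_re, sub_im]
    linarith [k _ _ hz.1.1, k _ _ hz.2.1]
  have hcp : IsCompact (Icc (a - δ) b ×ℂ Icc (c - δ) d) := isCompact_Icc.reProdIm isCompact_Icc
  have hn : ∀ i, 0 < m i → ∀ (w : ℂ) (v : ℤ × ℤ), (v = flr (m i) w ∨ v = flr (m i) w - (1, 0) ∨
      v = flr (m i) w - (0, 1)) → dist (pt (m i) v) w ≤ 3 / m i := fun i hi w v hv => by
    have k1 := dist_flr hi w
    have k2 : dist (pt (m i) v) (pt (m i) (flr (m i) w)) ≤ 1 / m i := by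
      rw [dist_eq_norm]
      refine (norm_le_abs_re_add_abs_im _).trans ?_
      rcases hv with rfl | rfl | rfl <;> simp [pt, sub_div, abs_of_pos, hi, hi.le]
    linarith [dist_triangle (pt (m i) v) (pt (m i) (flr (m i) w)) w,
      show 3 / m i = 1 / m i + 2 / m i by ring]
  have two : ∀ {p q r : ℂ} {ε : ℝ}, ‖p - r‖ ≤ ε / 2 → ‖q - r‖ ≤ ε / 2 → ‖p + q - 2 * r‖ ≤ ε :=
    fun {p q r ε} k1 k2 => by
      rw [show p + q - 2 * r = p - r + (q - r) by ring]; linarith [norm_add_le (p - r) (q - r)]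
  have hx : ∀ y ∈ Icc c d, Tendsto (fun i => (∑ x ∈ Finset.Ico ⌊m i * a⌋ ⌊m i * b⌋,
      (F i (x, ⌊m i * y⌋) + F i (x, ⌊m i * y⌋ - 1))) / m i) l (𝓝 (∫ x in a..b, 2 * f (x + y * I))) :=
    fun y hy => by
      have k : ∀ x ∈ Icc (a - δ) b, (x + y * I : ℂ) ∈ Icc (a - δ) b ×ℂ Icc (c - δ) d := fun x hx =>
        ⟨by simpa using hx, by simpa using ⟨by linarith [hy.1], hy.2⟩⟩
      refine riemann hm h1 h0 (continuousOn_const.mul (hc.comp (by fun_prop) fun x hx => hK (k x hx)))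
        fun ε hε => ?_
      filter_upwards [limAt_unif hm h hcp hK (half_pos hε), hm.eventually_gt_atTop 0]
        with i h3 h4 x hx
      exact two (h3 _ (k x hx) _ (hn i h4 _ _ (by simp [flr]))) (h3 _ (k x hx) _ (hn i h4 _ _
        (by simp [flr])))
  have hy : ∀ x ∈ Icc a b, Tendsto (fun i => (∑ t ∈ Finset.Ico ⌊m i * c⌋ ⌊m i * d⌋,
      (F i (⌊m i * x⌋, t) + F i (⌊m i * x⌋ - 1, t))) / m i) l (𝓝 (∫ y in c..d, 2 * f (x + y * I))) :=
    fun x hx => by
      have k : ∀ y ∈ Icc (c - δ) d, (x + y * I : ℂ) ∈ Icc (a - δ) b ×ℂ Icc (c - δ) d := fun y hy =>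
        ⟨by simpa using ⟨by linarith [hx.1], hx.2⟩, by simpa using hy⟩
      refine riemann hm h2 h0 (continuousOn_const.mul (hc.comp (by fun_prop) fun x hx => hK (k x hx)))
        fun ε hε => ?_
      filter_upwards [limAt_unif hm h hcp hK (half_pos hε), hm.eventually_gt_atTop 0]
        with i h3 h4 y hy
      exact two (h3 _ (k y hy) _ (hn i h4 _ _ (by simp [flr]))) (h3 _ (k y hy) _ (hn i h4 _ _
        (by simp [flr])))
  have t1 := ((hx d ⟨h2, le_rfl⟩).sub (hx c ⟨le_rfl, h2⟩)).sub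
    (((hy b ⟨h1, le_rfl⟩).sub (hy a ⟨le_rfl, h1⟩)).const_mul I)
  have t2 : Tendsto (fun i => (∑ x ∈ Finset.Ico ⌊m i * a⌋ ⌊m i * b⌋,
      ∑ t ∈ Finset.Ico ⌊m i * c⌋ ⌊m i * d⌋, dCR (F i) (x, t)) / m i) l (𝓝 0) := by
    refine Metric.tendsto_nhds.2 fun ε hε => ?_
    have p1 : 0 < b - a + δ := by linarith
    have p2 : 0 < d - c + δ := by linarith
    filter_upwards [hd _ hK hcp (ε / 2 / ((b - a + δ) * (d - c + δ))) (by positivity),
      ev_small hm h0 1] with i h3 h4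
    have h5 := h4.1
    have k : ∀ x y : ℝ, x ≤ y → ((Finset.Ico ⌊m i * x⌋ ⌊m i * y⌋).card : ℝ) ≤ m i * (y - x + δ) ∧
        ∀ n ∈ Finset.Ico ⌊m i * x⌋ ⌊m i * y⌋, (n : ℝ) / m i ∈ Icc (x - δ) y := fun x y hxy => by
      have k1 := (div_lt_iff₀ h5).1 h4.2
      have k2 := Int.lt_floor_add_one (m i * x)
      have k3 := Int.floor_le (m i * y)
      refine ⟨?_, fun n hn => ?_⟩
      · have : (((Finset.Ico ⌊m i * x⌋ ⌊m i * y⌋).card : ℤ) : ℝ) = (⌊m i * y⌋ - ⌊m i * x⌋ : ℤ) := by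
          rw [Int.card_Ico_of_le _ _ (Int.floor_mono (by gcongr))]
        push_cast at this
        nlinarith
      · obtain ⟨k4, k5⟩ := Finset.mem_Ico.1 hn
        have k6 : (⌊m i * x⌋ : ℝ) ≤ n := by exact_mod_cast k4
        have k7 : (n : ℝ) < ⌊m i * y⌋ := by exact_mod_cast k5
        exact ⟨(le_div_iff₀ h5).2 (by nlinarith), (div_le_iff₀ h5).2 (by nlinarith)⟩
    rw [dist_zero_right, norm_div, norm_real, Real.norm_of_nonneg h5.le, div_lt_iff₀ h5]
    calc _ ≤ ∑ x ∈ Finset.Ico ⌊m i * a⌋ ⌊m i * b⌋, ∑ t ∈ Finset.Ico ⌊m i * c⌋ ⌊m i * d⌋,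
          ε / 2 / ((b - a + δ) * (d - c + δ)) / m i :=
          norm_sum_le_of_le _ fun x hx => norm_sum_le_of_le _ fun t ht =>
            h3 (x, t) ⟨(k a b h1).2 x hx, (k c d h2).2 t ht⟩
      _ ≤ m i * (b - a + δ) * (m i * (d - c + δ) * (ε / 2 / ((b - a + δ) * (d - c + δ)) / m i)) := by
          simp only [Finset.sum_const, nsmul_eq_mul]
          gcongr
          exacts [(k a b h1).1, (k c d h2).1]
      _ = ε / 2 * m i := by field_simp
      _ < _ := by gcongr; linarith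
  have := tendsto_nhds_unique t1 (t2.congr' (by
    filter_upwards [hm.eventually_gt_atTop 0] with i hi
    rw [green _ (Int.floor_mono (by gcongr)) (Int.floor_mono (by gcongr))]
    ring))
  simp only [integral_const_mul, rint, smul_eq_mul] at this ⊢
  linear_combination (-1 / 2) * this

end Pool.Agent.P.MP_6c8efb_pr.Cardy.Lim
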