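import Pool.Agent.P.MP_6c8efb_pr.Cardy.BDefs
import Pool.Agent.P.MP_6c8efb_pr.Chain

/-! Sides of tiles, natural arrows, strands and loops of a finite set of tiles. -/

namespace Pool.Agent.P.MP_6c8efb_pr.Cardy

open Arm (TC Pt TConn)

/-! ### Sides and tiles -/

theorem mem_sd1_iff {t : V} {e : E} :
    e ∈ sd1 t ↔ e = bot t ∨ e = lft t ∨ e = top t ∨ e = rgt t := by simp [sd1]

theorem mem_sd1 {t : V} {e : E} : e ∈ sd1 t ↔ t = e.1 ∨ t = lo e := by
  obtain ⟨⟨x, y⟩, b⟩ := e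
  obtain ⟨p, q⟩ := t
  cases b <;> simp [sd1, bot, lft, top, rgt, lo] <;> omega

theorem lo_ne (e : E) : lo e ≠ e.1 := by
  obtain ⟨⟨x, y⟩, b⟩ := e
  cases b <;> simp [lo]

theorem tin_tout (e : E) : (tin e = e.1 ∧ tout e = lo e) ∨ (tin e = lo e ∧ tout e = e.1) := by
  unfold tin tout; cases nat e <;> simp

theorem tin_ne_tout (e : E) : tin e ≠ tout e := by
  rcases tin_tout e with ⟨h, h'⟩ | ⟨h, h'⟩ <;> rw [h, h']
  exacts [(lo_ne e).symm, lo_ne e]

theorem mem_sd1' {t : V} {e : E} : e ∈ sd1 t ↔ t = tin e ∨ t = tout e := by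
  rw [mem_sd1]
  rcases tin_tout e with ⟨h, h'⟩ | ⟨h, h'⟩ <;> rw [h, h']
  exact or_comm

theorem mem_sd {D : Finset V} {e : E} : e ∈ sd D ↔ e.1 ∈ D ∨ lo e ∈ D := by
  simp only [sd, Finset.mem_biUnion, mem_sd1]
  constructor
  · rintro ⟨t, ht, rfl | rfl⟩
    exacts [Or.inl ht, Or.inr ht]
  · rintro (h | h)
    exacts [⟨_, h, Or.inl rfl⟩, ⟨_, h, Or.inr rfl⟩]

theorem mem_sd' {D : Finset V} {e : E} : e ∈ sd D ↔ tin e ∈ D ∨ tout e ∈ D := by
  rw [mem_sd]
  rcases tin_tout e with ⟨h, h'⟩ | ⟨h, h'⟩ <;> rw [h, h']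
  exact or_comm

theorem mem_sd_of {D : Finset V} {t : V} {e : E} (ht : t ∈ D) (he : e ∈ sd1 t) : e ∈ sd D :=
  Finset.mem_biUnion.2 ⟨t, ht, he⟩

theorem mem_bd {D : Finset V} {e : E} : e ∈ bd D ↔ ¬(e.1 ∈ D ↔ lo e ∈ D) := by
  simp only [bd, Finset.mem_filter, mem_sd]; tauto

theorem mem_bd' {D : Finset V} {e : E} : e ∈ bd D ↔ ¬(tin e ∈ D ↔ tout e ∈ D) := by
  rw [mem_bd]
  rcases tin_tout e with ⟨h, h'⟩ | ⟨h, h'⟩ <;> rw [h, h']
  exact not_congr iff_comm

theorem bd_sub (D : Finset V) : bd D ⊆ sd D := Finset.filter_subset _ _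

theorem mem_vx {D : Finset V} {v : V} : v ∈ vx D ↔ ∃ d, fc v d ∈ D := by
  obtain ⟨x, y⟩ := v
  simp only [vx, Finset.mem_biUnion, Finset.mem_insert, Finset.mem_singleton]
  constructor
  · rintro ⟨⟨p, q⟩, ht, h | h | h | h⟩ <;> simp only [Prod.mk.injEq] at h <;> obtain ⟨rfl, rfl⟩ := h
    · exact ⟨1, ht⟩
    · exact ⟨2, by simpa using ht⟩
    · exact ⟨0, by simpa using ht⟩
    · exact ⟨3, by simpa using ht⟩
  · rintro ⟨d, h⟩
    refine ⟨_, h, ?_⟩
    rcases cases4 d with rfl | rfl | rfl | rfl <;> simp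

/-- the two tiles along a dart -/
theorem edge_tiles (v : V) (d : Fin 4) :
    ((edge v d).1 = fc v (d + 1) ∧ lo (edge v d) = fc v d) ∨
      ((edge v d).1 = fc v d ∧ lo (edge v d) = fc v (d + 1)) := by
  rcases cases4 d with rfl | rfl | rfl | rfl <;> simp [lo]

/-- the two ends of a dart -/
theorem edge_ends (v : V) (d : Fin 4) :
    ((edge v d).1 = v ∧ hd (edge v d) = v + u d) ∨ ((edge v d).1 = v + u d ∧ hd (edge v d) = v) := by
  rcases cases4 d with rfl | rfl | rfl | rfl <;> simp [Prod.ext_iff, sub_eq_add_neg]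

theorem edge_mem_sd {D : Finset V} {v : V} {d : Fin 4} :
    edge v d ∈ sd D ↔ fc v (d + 1) ∈ D ∨ fc v d ∈ D := by
  rw [mem_sd]
  rcases edge_tiles v d with ⟨h, h'⟩ | ⟨h, h'⟩ <;> rw [h, h']
  exact or_comm

theorem edge_mem_bd {D : Finset V} {v : V} {d : Fin 4} :
    edge v d ∈ bd D ↔ ¬(fc v (d + 1) ∈ D ↔ fc v d ∈ D) := by
  rw [mem_bd]
  rcases edge_tiles v d with ⟨h, h'⟩ | ⟨h, h'⟩ <;> rw [h, h']
  exact not_congr iff_comm

theorem exists_dart (e : E) : ∃ d, (d = 0 ∨ d = 1) ∧ edge e.1 d = e ∧ e.1 + u d = hd e := by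
  obtain ⟨⟨x, y⟩, b⟩ := e
  cases b
  · exact ⟨1, by simp⟩
  · exact ⟨0, by simp⟩

theorem edge_eq {v v' : V} {d d' : Fin 4} (h : edge v' d' = edge v d) :
    (v' = v ∧ d' = d) ∨ (v' = v + u d ∧ d' = d + 2) := by
  obtain ⟨x, y⟩ := v
  obtain ⟨x', y'⟩ := v'
  rcases cases4 d with rfl | rfl | rfl | rfl <;> rcases cases4 d' with rfl | rfl | rfl | rfl <;>
    simp at h ⊢ <;> omega

theorem fst_mem_vx {D : Finset V} {e : E} (h : e ∈ sd D) : e.1 ∈ vx D := by
  obtain ⟨d, -, h1, -⟩ := exists_dart e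
  rw [← h1, edge_mem_sd] at h
  exact mem_vx.2 (h.elim (fun h => ⟨_, h⟩) fun h => ⟨_, h⟩)

theorem hd_mem_vx {D : Finset V} {e : E} (h : e ∈ sd D) : hd e ∈ vx D := by
  obtain ⟨d, -, h1, h2⟩ := exists_dart e
  rw [← h1, ← edge_back, h2, edge_mem_sd] at h
  exact mem_vx.2 (h.elim (fun h => ⟨_, h⟩) fun h => ⟨_, h⟩)

theorem lv_rv (e : E) : (lv e = e.1 ∧ rv e = hd e) ∨ (lv e = hd e ∧ rv e = e.1) := by
  unfold lv rv; split_ifs <;> simp

theorem lv_even (e : E) : Even ((lv e).1 + (lv e).2) := by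
  obtain ⟨⟨x, y⟩, b⟩ := e
  unfold lv
  split_ifs with h
  · exact h
  · cases b <;> simp only [hd_true, hd_false, Int.even_iff] at h ⊢ <;> omega

theorem rv_odd (e : E) : ¬Even ((rv e).1 + (rv e).2) := by
  obtain ⟨⟨x, y⟩, b⟩ := e
  unfold rv
  split_ifs with h
  · cases b <;> simp only [hd_true, hd_false, Int.even_iff] at h ⊢ <;> omega
  · exact h

/-- the natural arrow through a dart which starts at an even vertex points to its left -/
theorem dart_even {v : V} (d : Fin 4) (h : Even (v.1 + v.2)) : tin (edge v d) = fc v (d + 1) ∧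
    tout (edge v d) = fc v d ∧ lv (edge v d) = v ∧ rv (edge v d) = v + u d := by
  obtain ⟨x, y⟩ := v
  have h1 : ¬Even (x + -1 + y) := by simp only [Int.even_iff] at h ⊢; omega
  have h2 : ¬Even (x + (y + -1)) := by simp only [Int.even_iff] at h ⊢; omega
  simp only at h
  rcases cases4 d with rfl | rfl | rfl | rfl <;>
    simp [tin, tout, lv, rv, nat, lo, h, h1, h2, sub_eq_add_neg]

theorem dart_odd {v : V} (d : Fin 4) (h : ¬Even (v.1 + v.2)) : tin (edge v d) = fc v d ∧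
    tout (edge v d) = fc v (d + 1) ∧ lv (edge v d) = v + u d ∧ rv (edge v d) = v := by
  obtain ⟨x, y⟩ := v
  have h1 : Even (x + -1 + y) := by simp only [Int.even_iff] at h ⊢; omega
  have h2 : Even (x + (y + -1)) := by simp only [Int.even_iff] at h ⊢; omega
  simp only at h
  rcases cases4 d with rfl | rfl | rfl | rfl <;>
    simp [tin, tout, lv, rv, nat, lo, h, h1, h2, sub_eq_add_neg]

/-! ### The arcs in a tile -/

@[simp] theorem prt_lft (b : Bool) (t : V) : prt b t (lft t) = if b then top t else bot t := by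
  simp [prt]
@[simp] theorem prt_top (b : Bool) (t : V) : prt b t (top t) = if b then lft t else rgt t := by
  simp [prt, top, lft]
@[simp] theorem prt_bot (b : Bool) (t : V) : prt b t (bot t) = if b then rgt t else lft t := by
  simp [prt, bot, lft, top, Prod.ext_iff]
@[simp] theorem prt_rgt (b : Bool) (t : V) : prt b t (rgt t) = if b then bot t else top t := by
  simp [prt, rgt, top, bot, lft, Prod.ext_iff]

theorem prt_mem (b : Bool) (t : V) (e : E) : prt b t e ∈ sd1 t := by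
  unfold prt; split_ifs <;> simp [sd1]

theorem prt_prt (b : Bool) {t : V} {e : E} (h : e ∈ sd1 t) : prt b t (prt b t e) = e := by
  rcases mem_sd1_iff.1 h with rfl | rfl | rfl | rfl <;> cases b <;> simp

theorem prt_ne (b : Bool) {t : V} {e : E} (h : e ∈ sd1 t) : prt b t e ≠ e := by
  rcases mem_sd1_iff.1 h with rfl | rfl | rfl | rfl <;> cases b <;>
    simp only [prt_lft, prt_top, prt_bot, prt_rgt] <;> simp [bot, lft, top, rgt]

theorem tile_even {t : V} (h : Even (t.1 + t.2)) :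
    tin (bot t) = t ∧ tin (top t) = t ∧ tout (lft t) = t ∧ tout (rgt t) = t := by
  obtain ⟨x, y⟩ := t
  have h1 : ¬Even (x + 1 + y) := by simp only [Int.even_iff] at h ⊢; omega
  have h2 : ¬Even (x + (y + 1)) := by simp only [Int.even_iff] at h ⊢; omega
  simp only at h
  simp [tin, tout, nat, lo, bot, top, lft, rgt, h, h1, h2]

theorem tile_odd {t : V} (h : ¬Even (t.1 + t.2)) :
    tout (bot t) = t ∧ tout (top t) = t ∧ tin (lft t) = t ∧ tin (rgt t) = t := by
  obtain ⟨x, y⟩ := t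
  have h1 : Even (x + 1 + y) := by simp only [Int.even_iff] at h ⊢; omega
  have h2 : Even (x + (y + 1)) := by simp only [Int.even_iff] at h ⊢; omega
  simp only at h
  simp [tin, tout, nat, lo, bot, top, lft, rgt, h, h1, h2]

theorem tout_prt (b : Bool) {t : V} {e : E} (h : tin e = t) : tout (prt b t e) = t := by
  have h0 := tin_ne_tout e
  have hm : e ∈ sd1 t := mem_sd1'.2 (Or.inl h.symm)
  by_cases hp : Even (t.1 + t.2)
  · obtain ⟨a1, a2, a3, a4⟩ := tile_even hp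
    rcases mem_sd1_iff.1 hm with rfl | rfl | rfl | rfl <;> cases b <;> simp_all
  · obtain ⟨a1, a2, a3, a4⟩ := tile_odd hp
    rcases mem_sd1_iff.1 hm with rfl | rfl | rfl | rfl <;> cases b <;> simp_all

theorem tin_prt (b : Bool) {t : V} {e : E} (h : tout e = t) : tin (prt b t e) = t := by
  have h0 := tin_ne_tout e
  have hm : e ∈ sd1 t := mem_sd1'.2 (Or.inr h.symm)
  by_cases hp : Even (t.1 + t.2)
  · obtain ⟨a1, a2, a3, a4⟩ := tile_even hp
    rcases mem_sd1_iff.1 hm with rfl | rfl | rfl | rfl <;> cases b <;> simp_all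
  · obtain ⟨a1, a2, a3, a4⟩ := tile_odd hp
    rcases mem_sd1_iff.1 hm with rfl | rfl | rfl | rfl <;> cases b <;> simp_all

/-- the previous side along the natural arrow -/
def pv (τ : TC) (e : E) : E := prt (τ (tout e)) (tout e) e

variable {τ τ' : TC} {D D' : Finset V} {e e' e'' : E}

theorem tout_nx (τ : TC) (e : E) : tout (nx τ e) = tin e := tout_prt _ rfl
theorem tin_pv (τ : TC) (e : E) : tin (pv τ e) = tout e := tin_prt _ rfl

theorem pv_nx (τ : TC) (e : E) : pv τ (nx τ e) = e := by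
  rw [pv, tout_nx]; exact prt_prt _ (mem_sd1'.2 (Or.inl rfl))

theorem nx_pv (τ : TC) (e : E) : nx τ (pv τ e) = e := by
  rw [nx, tin_pv]; exact prt_prt _ (mem_sd1'.2 (Or.inr rfl))

theorem nx_inj (τ : TC) : Function.Injective (nx τ) := Function.LeftInverse.injective (pv_nx τ)

theorem nx_ne (τ : TC) (e : E) : nx τ e ≠ e := prt_ne _ (mem_sd1'.2 (Or.inl rfl))

theorem adj_iff : Adj τ D e e' ↔ (tin e ∈ D ∧ e' = nx τ e) ∨ (tin e' ∈ D ∧ e = nx τ e') := by
  constructor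
  · rintro ⟨t, ht, h, rfl⟩
    rcases mem_sd1'.1 h with rfl | rfl
    · exact Or.inl ⟨ht, rfl⟩
    · exact Or.inr ⟨(tin_pv τ e).symm ▸ ht, (nx_pv τ e).symm⟩
  · rintro (⟨h, rfl⟩ | ⟨h, rfl⟩)
    · exact ⟨_, h, mem_sd1'.2 (Or.inl rfl), rfl⟩
    · exact ⟨_, h, prt_mem _ _ _, (prt_prt _ (mem_sd1'.2 (Or.inl rfl))).symm⟩

theorem Adj.symm (h : Adj τ D e e') : Adj τ D e' e := adj_iff.2 (adj_iff.1 h).symm

theorem Adj.mem (h : Adj τ D e e') : e' ∈ sd D := by
  obtain ⟨t, ht, -, rfl⟩ := h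
  exact mem_sd_of ht (prt_mem _ _ _)

theorem Same.rfl' : Same τ D e e := Relation.ReflTransGen.refl

theorem Same.trans' (h : Same τ D e e') (h' : Same τ D e' e'') : Same τ D e e'' :=
  Relation.ReflTransGen.trans h h'

theorem Adj.same (h : Adj τ D e e') : Same τ D e e' := Relation.ReflTransGen.single h

theorem Same.symm' (h : Same τ D e e') : Same τ D e' e := by
  induction h with
  | refl => exact Same.rfl'
  | tail _ h2 ih => exact h2.symm.same.trans' ih

theorem same_comm : Same τ D e e' ↔ Same τ D e' e := ⟨Same.symm', Same.symm'⟩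

theorem same_nx (h : tin e ∈ D) : Same τ D e (nx τ e) := (adj_iff.2 (Or.inl ⟨h, rfl⟩)).same

theorem same_pv (h : tout e ∈ D) : Same τ D e (pv τ e) :=
  (adj_iff.2 (Or.inr ⟨(tin_pv τ e).symm ▸ h, (nx_pv τ e).symm⟩)).same

theorem same_prt {t : V} (ht : t ∈ D) (he : e ∈ sd1 t) : Same τ D e (prt (τ t) t e) :=
  Adj.same ⟨t, ht, he, rfl⟩

theorem Same.congr (h : Same τ D e' e'') : Same τ D e e' ↔ Same τ D e e'' :=
  ⟨fun a => a.trans' h, fun a => a.trans' h.symm'⟩

/-- induction along a strand -/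
theorem Same.ind {p : E → Prop} (h : Same τ D e e') (h0 : p e)
    (hs : ∀ x, Same τ D e x → tin x ∈ D → (p x ↔ p (nx τ x))) : p e' := by
  induction h with
  | refl => exact h0
  | tail h1 h2 ih =>
    rcases adj_iff.1 h2 with ⟨h3, rfl⟩ | ⟨h3, rfl⟩
    · exact (hs _ h1 h3).1 ih
    · exact (hs _ (Same.trans' h1 h2.same) h3).2 ih

theorem Same.mem (h : Same τ D e e') (he : e ∈ sd D) : e' ∈ sd D := by
  cases h with
  | refl => exact he
  | tail _ h2 => exact h2.mem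

theorem Same.mono (h : Same τ D e e') (hD : D ⊆ D') (hτ : ∀ t ∈ D, τ t = τ' t) :
    Same τ' D' e e' := by
  induction h with
  | refl => exact Same.rfl'
  | tail _ h2 ih =>
    obtain ⟨t, ht, h3, rfl⟩ := h2
    exact ih.trans' (Adj.same ⟨t, hD ht, h3, by rw [hτ t ht]⟩)

theorem mem_cls : e' ∈ cls τ D e ↔ e' ∈ sd D ∧ Same τ D e e' := by
  classical
  simp [cls]

theorem mem_cls' (he : e ∈ sd D) : e' ∈ cls τ D e ↔ Same τ D e e' :=
  mem_cls.trans ⟨fun h => h.2, fun h => ⟨h.mem he, h⟩⟩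

theorem Same.cls_eq (h : Same τ D e e') : cls τ D e = cls τ D e' := by
  ext x
  rw [mem_cls, mem_cls, same_comm, h.congr, same_comm]

/-! ### The vertices on both sides of a strand -/

theorem lv_nx (τ : TC) (e : E) :
    (lv (nx τ e) = lv e ∧ Arm.link τ {tin e} (rv e) (rv (nx τ e)) ∧ trn τ (tin e) = 1) ∨
    (rv (nx τ e) = rv e ∧ Arm.link τ {tin e} (lv e) (lv (nx τ e)) ∧ trn τ (tin e) = -1) := by
  have h0 := tin_ne_tout e
  rw [nx]
  generalize ht : tin e = t at h0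
  have hm : e ∈ sd1 t := mem_sd1'.2 (Or.inl ht.symm)
  obtain ⟨x, y⟩ := t
  have h1 : Even (x + 1 + y) ↔ ¬Even (x + y) := by simp only [Int.even_iff]; omega
  have h2 : Even (x + (y + 1)) ↔ ¬Even (x + y) := by simp only [Int.even_iff]; omega
  by_cases hp : Even (x + y)
  · obtain ⟨a1, a2, a3, a4⟩ := tile_even (t := (x, y)) hp
    rcases mem_sd1_iff.1 hm with rfl | rfl | rfl | rfl <;> try exact absurd (by assumption) h0.symm
    all_goals cases hb : τ (x, y) <;> simp only [prt_bot, prt_top] <;>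
      simp [lv, rv, trn, Arm.link, Arm.ends, bot, top, lft, rgt, hb, hp, h1, h2]
  · obtain ⟨a1, a2, a3, a4⟩ := tile_odd (t := (x, y)) hp
    rcases mem_sd1_iff.1 hm with rfl | rfl | rfl | rfl <;> try exact absurd (by assumption) h0.symm
    all_goals cases hb : τ (x, y) <;> simp only [prt_lft, prt_rgt] <;>
      simp [lv, rv, trn, Arm.link, Arm.ends, bot, top, lft, rgt, hb, hp, h1, h2]

theorem tconn_nx (h : tin e ∈ D) :
    TConn τ D (lv e) (lv (nx τ e)) ∧ TConn τ D (rv e) (rv (nx τ e)) := by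
  have hs : ({tin e} : Set V) ⊆ D := Set.singleton_subset_iff.2 h
  rcases lv_nx τ e with ⟨h1, h2, -⟩ | ⟨h1, h2, -⟩ <;> rw [h1]
  · exact ⟨.refl', (h2.mono hs fun _ _ => rfl).conn⟩
  · exact ⟨(h2.mono hs fun _ _ => rfl).conn, .refl'⟩

/-- the left vertices of a strand lie in one cluster, and so do the right vertices -/
theorem Same.tconn (h : Same τ D e e') : TConn τ D (lv e) (lv e') ∧ TConn τ D (rv e) (rv e') :=
  h.ind (p := fun x => TConn τ D (lv e) (lv x) ∧ TConn τ D (rv e) (rv x)) ⟨.refl', .refl'⟩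
    fun _ _ hx => by
      obtain ⟨a, b⟩ := tconn_nx (τ := τ) hx
      exact ⟨fun ⟨p, q⟩ => ⟨p.trans' a, q.trans' b⟩, fun ⟨p, q⟩ => ⟨p.trans' a.symm', q.trans' b.symm'⟩⟩

/-! ### Orbits -/

/-- the first `k` steps from `e` stay in `D` -/
def Fw (τ : TC) (D : Finset V) (e : E) (k : ℕ) : Prop := ∀ m < k, tin ((nx τ)^[m] e) ∈ D

theorem Fw.mono {k k' : ℕ} (h : Fw τ D e k) (hk : k' ≤ k) : Fw τ D e k' :=
  fun m hm => h m (hm.trans_le hk)

theorem Fw.same {k : ℕ} (h : Fw τ D e k) : Same τ D e ((nx τ)^[k] e) := by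
  induction k with
  | zero => exact Same.rfl'
  | succ k ih =>
    rw [Function.iterate_succ_apply']
    exact (ih (h.mono k.le_succ)).trans' (same_nx (h k k.lt_succ_self))

theorem Fw.snoc {k : ℕ} (h : Fw τ D e k) (h' : tin ((nx τ)^[k] e) ∈ D) : Fw τ D e (k + 1) :=
  fun m hm => (Nat.lt_succ_iff_lt_or_eq.1 hm).elim (h m) fun a => a ▸ h'

theorem Fw.cons {k : ℕ} (h : Fw τ D (nx τ e) k) (h' : tin e ∈ D) : Fw τ D e (k + 1) := by
  intro m hm
  cases m with
  | zero => exact h'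
  | succ m => exact h m (by omega)

theorem Fw.tail {k : ℕ} (h : Fw τ D e (k + 1)) : Fw τ D (nx τ e) k :=
  fun m hm => h (m + 1) (by omega)

theorem same_iff : Same τ D e e' ↔
    ∃ k, (Fw τ D e k ∧ (nx τ)^[k] e = e') ∨ (Fw τ D e' k ∧ (nx τ)^[k] e' = e) := by
  constructor
  · intro h
    refine h.ind (p := fun x => ∃ k, (Fw τ D e k ∧ (nx τ)^[k] e = x) ∨
      (Fw τ D x k ∧ (nx τ)^[k] x = e)) ⟨0, Or.inl ⟨fun _ h => absurd h (by omega), rfl⟩⟩
      fun x _ hx => ⟨?_, ?_⟩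
    · rintro ⟨k, ⟨h1, rfl⟩ | ⟨h1, h2⟩⟩
      · exact ⟨k + 1, Or.inl ⟨h1.snoc hx, Function.iterate_succ_apply' _ _ _⟩⟩
      · cases k with
        | zero =>
          obtain rfl : x = e := h2
          exact ⟨1, Or.inl ⟨fun m hm => by obtain rfl : m = 0 := by omega
                                           exact hx, rfl⟩⟩
        | succ k => exact ⟨k, Or.inr ⟨h1.tail, h2⟩⟩
    · rintro ⟨k, ⟨h1, h2⟩ | ⟨h1, h2⟩⟩
      · cases k with
        | zero =>
          obtain rfl : e = nx τ x := h2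
          exact ⟨1, Or.inr ⟨fun m hm => by obtain rfl : m = 0 := by omega
                                           exact hx, rfl⟩⟩
        | succ k =>
          rw [Function.iterate_succ_apply'] at h2
          exact ⟨k, Or.inl ⟨h1.mono k.le_succ, nx_inj τ h2⟩⟩
      · exact ⟨k + 1, Or.inr ⟨h1.cons hx, h2⟩⟩
  · rintro ⟨k, ⟨h1, rfl⟩ | ⟨h1, rfl⟩⟩
    exacts [h1.same, h1.same.symm']

theorem Fw.tout {k : ℕ} (h : Fw τ D e (k + 1)) : tout ((nx τ)^[k + 1] e) ∈ D := by
  rw [Function.iterate_succ_apply', tout_nx]; exact h k k.lt_succ_self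

/-- from an entrance side the class is explored forwards -/
theorem same_entry (h : tout e ∉ D) : Same τ D e e' ↔ ∃ k, Fw τ D e k ∧ (nx τ)^[k] e = e' := by
  refine ⟨fun h1 => ?_, fun ⟨k, h1, h2⟩ => h2 ▸ h1.same⟩
  obtain ⟨k, h2 | ⟨h2, h3⟩⟩ := same_iff.1 h1
  · exact ⟨k, h2⟩
  · cases k with
    | zero => exact ⟨0, fun _ h => absurd h (by omega), h3.symm⟩
    | succ k => exact absurd (h3 ▸ h2.tout) h

theorem entry_unique (h : Same τ D e e') (h1 : tout e ∉ D) (h2 : tout e' ∉ D) : e = e' := by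
  obtain ⟨k, h3, rfl⟩ := (same_entry h1).1 h
  cases k with
  | zero => rfl
  | succ k => exact absurd h3.tout h2

theorem exit_unique (h : Same τ D e e') (h1 : tin e ∉ D) (h2 : tin e' ∉ D) : e = e' := by
  obtain ⟨k, ⟨h3, h4⟩ | ⟨h3, h4⟩⟩ := same_iff.1 h <;> cases k with
  | zero => first | exact h4 | exact h4.symm
  | succ k => first | exact absurd (h3 0 k.succ_pos) h1 | exact absurd (h3 0 k.succ_pos) h2

/-- an orbit which stays in `D` for ever is periodic -/
theorem periodic_of (h : ∀ m, tin ((nx τ)^[m] e) ∈ D) : ∃ k, 0 < k ∧ (nx τ)^[k] e = e := by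
  obtain ⟨a, b, hab, h1⟩ := Set.Finite.exists_lt_map_eq_of_forall_mem (t := (sd D : Set E))
    (f := fun m : ℕ => (nx τ)^[m] e) (fun m => mem_sd'.2 (Or.inl (h m))) (sd D).finite_toSet
  refine ⟨b - a, by omega, ((nx_inj τ).iterate a) ?_⟩
  rw [← Function.iterate_add_apply, Nat.add_sub_cancel' hab.le]
  exact h1.symm

/-- either the orbit leaves `D` or it is a loop -/
theorem exit_or_loop (τ : TC) (D : Finset V) (e : E) :
    (∃ k, Fw τ D e k ∧ tin ((nx τ)^[k] e) ∉ D) ∨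
      ((∀ m, tin ((nx τ)^[m] e) ∈ D) ∧ ∃ k, 0 < k ∧ (nx τ)^[k] e = e) := by
  classical
  by_cases h : ∃ m, tin ((nx τ)^[m] e) ∉ D
  · exact Or.inl ⟨Nat.find h, fun m hm => not_not.1 (Nat.find_min h hm), Nat.find_spec h⟩
  · push Not at h
    exact Or.inr ⟨h, periodic_of h⟩

/-- the class of a periodic orbit -/
theorem same_loop (h : ∀ m, tin ((nx τ)^[m] e) ∈ D) :
    Same τ D e e' ↔ ∃ m, (nx τ)^[m] e = e' := by
  refine ⟨fun h1 => ?_, fun ⟨m, h1⟩ => h1 ▸ Fw.same fun j _ => h j⟩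
  obtain ⟨k, hk, h2⟩ := periodic_of h
  refine h1.ind (p := fun x => ∃ m, (nx τ)^[m] e = x) ⟨0, rfl⟩ fun x _ _ => ⟨?_, ?_⟩
  · rintro ⟨m, rfl⟩
    exact ⟨m + 1, Function.iterate_succ_apply' _ _ _⟩
  · rintro ⟨m, h3⟩
    refine ⟨m + k - 1, nx_inj τ ?_⟩
    rw [← Function.iterate_succ_apply' (nx τ), show (m + k - 1).succ = m + k by omega,
      Function.iterate_add_apply, h2, h3]

theorem loop_inner (h : ∀ m, tin ((nx τ)^[m] e) ∈ D) (h' : Same τ D e e') :
    tin e' ∈ D ∧ tout e' ∈ D := by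
  obtain ⟨k, hk, h2⟩ := periodic_of h
  obtain ⟨m, rfl⟩ := (same_loop h).1 h'
  refine ⟨h m, ?_⟩
  have : (nx τ)^[m] e = (nx τ)^[m + k - 1 + 1] e := by
    rw [show m + k - 1 + 1 = m + k by omega, Function.iterate_add_apply, h2]
  rw [this]
  exact Fw.tout fun j _ => h j

theorem exists_exit (h : tout e ∉ D) : ∃ k, Fw τ D e k ∧ tin ((nx τ)^[k] e) ∉ D :=
  (exit_or_loop τ D e).resolve_right fun h1 => h (loop_inner h1.1 Same.rfl').2

/-- a class with an exit has an entrance -/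
theorem exists_entry (h : tin e ∉ D) : ∃ e', Same τ D e e' ∧ tout e' ∉ D := by
  classical
  by_contra hn
  push Not at hn
  have h1 : ∀ m, Same τ D e ((pv τ)^[m] e) := fun m => by
    induction m with
    | zero => exact Same.rfl'
    | succ m ih => rw [Function.iterate_succ_apply']; exact ih.trans' (same_pv (hn _ ih))
  obtain ⟨a, b, hab, h2⟩ := Set.Finite.exists_lt_map_eq_of_forall_mem (t := (sd D : Set E))
    (f := fun m : ℕ => (pv τ)^[m] e) (fun m => mem_sd'.2 (Or.inr (hn _ (h1 m)))) (sd D).finite_toSet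
  have h3 : (pv τ)^[b - a - 1 + 1] e = e :=
    ((Function.LeftInverse.injective (nx_pv τ)).iterate a) (by
      rw [← Function.iterate_add_apply, show a + (b - a - 1 + 1) = b by omega]
      exact h2.symm)
  rw [Function.iterate_succ_apply'] at h3
  exact h (by rw [← h3, tin_pv]; exact hn _ (h1 _))

/-- the sides of a strand are met once -/
theorem orbit_inj (h : tout e ∉ D) {k a b : ℕ} (hk : Fw τ D e k) (ha : a ≤ k) (hb : b ≤ k)
    (hab : (nx τ)^[a] e = (nx τ)^[b] e) : a = b := by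
  wlog hl : a ≤ b generalizing a b
  · exact (this hb ha hab.symm (by omega)).symm
  by_contra hne
  have h3 : (nx τ)^[b - a - 1 + 1] e = e := ((nx_inj τ).iterate a) (by
    rw [← Function.iterate_add_apply, show a + (b - a - 1 + 1) = b by omega]
    exact hab.symm)
  exact h (h3 ▸ Fw.tout (hk.mono (by omega)))

theorem cls_strand (he : e ∈ sd D) (h : tout e ∉ D) {k : ℕ} (hk : Fw τ D e k)
    (hx : tin ((nx τ)^[k] e) ∉ D) :
    cls τ D e = (Finset.range (k + 1)).image fun m => (nx τ)^[m] e := by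
  ext x
  rw [mem_cls' he, same_entry h, Finset.mem_image]
  constructor
  · rintro ⟨m, h1, h2⟩
    exact ⟨m, Finset.mem_range.2 (by by_contra h3; exact hx (h1 k (by omega))), h2⟩
  · rintro ⟨m, h1, h2⟩
    exact ⟨m, hk.mono (Nat.lt_succ_iff.1 (Finset.mem_range.1 h1)), h2⟩

/-- every class is a strand, with an entrance and an exit, or a loop -/
theorem strand_or_loop (τ : TC) (D : Finset V) (e : E) :
    (∃ e₀ k, Same τ D e e₀ ∧ tout e₀ ∉ D ∧ Fw τ D e₀ k ∧ tin ((nx τ)^[k] e₀) ∉ D) ∨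
      ((∀ m, tin ((nx τ)^[m] e) ∈ D) ∧ ∃ k, 0 < k ∧ (nx τ)^[k] e = e) := by
  refine (exit_or_loop τ D e).imp_left fun ⟨k, h1, h2⟩ => ?_
  obtain ⟨e₀, h3, h4⟩ := exists_entry (τ := τ) h2
  obtain ⟨k', h5⟩ := exists_exit (τ := τ) h4
  exact ⟨e₀, k', h1.same.trans' h3, h4, h5⟩

/-- every boundary side is joined to exactly one other boundary side -/
theorem exists_partner (τ : TC) (he : e ∈ bd D) :
    ∃ e' ∈ bd D, Same τ D e e' ∧ (tin e' ∈ D ↔ tin e ∉ D) := by
  have h0 := mem_bd'.1 he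
  by_cases h : tin e ∈ D
  · obtain ⟨k, h1, h2⟩ := exists_exit (τ := τ) (e := e) (D := D) (by tauto)
    have h3 := mem_sd'.1 (h1.same.mem (bd_sub D he))
    exact ⟨_, mem_bd'.2 (by tauto), h1.same, by tauto⟩
  · obtain ⟨e', h1, h2⟩ := exists_entry (τ := τ) h
    have h3 := mem_sd'.1 (h1.mem (bd_sub D he))
    exact ⟨_, mem_bd'.2 (by tauto), h1, by tauto⟩

theorem bd_same (he : e ∈ bd D) (he' : e' ∈ bd D) (h : Same τ D e e') :
    e = e' ∨ (tin e' ∈ D ↔ tin e ∉ D) := by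
  have h0 := mem_bd'.1 he
  have h1 := mem_bd'.1 he'
  by_cases a : tin e ∈ D <;> by_cases b : tin e' ∈ D
  · exact Or.inl (entry_unique h (by tauto) (by tauto))
  · tauto
  · tauto
  · exact Or.inl (exit_unique h a b)

theorem partner_unique (he : e ∈ bd D) (he' : e' ∈ bd D) (he'' : e'' ∈ bd D) (h : Same τ D e e')
    (h' : Same τ D e e'') (hne : e ≠ e') : e'' = e ∨ e'' = e' := by
  have a := bd_same he he' h
  have b := bd_same he he'' h'
  have c := bd_same he'' he' (h'.symm'.trans' h)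
  by_cases p : e = e''
  · exact Or.inl p.symm
  · tauto

/-! ### Primitives -/

theorem prim_int {A : Type*} [AddCommGroup A] (g : ℤ → A) :
    ∃ G : ℤ → A, G 0 = 0 ∧ ∀ k, G (k + 1) - G k = g k := by
  refine ⟨fun k => ∑ m ∈ Finset.range k.toNat, g m - ∑ m ∈ Finset.range (-k).toNat, g (-m - 1),
    by simp, fun k => ?_⟩
  rcases le_or_gt 0 k with h | h
  · obtain ⟨k, rfl⟩ := Int.eq_ofNat_of_zero_le h
    have h1 : ((k : ℤ) + 1).toNat = k + 1 := by omega
    have h2 : (-((k : ℤ) + 1)).toNat = 0 := by omega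
    have h3 : (-(k : ℤ)).toNat = 0 := by omega
    simp only [h1, h2, h3, Finset.sum_range_succ, Int.toNat_natCast]
    abel
  · obtain ⟨m, rfl⟩ : ∃ m : ℕ, k = -(m : ℤ) - 1 := ⟨(-k - 1).toNat, by omega⟩
    have h1 : (-(m : ℤ) - 1 + 1).toNat = 0 := by omega
    have h2 : (-(-(m : ℤ) - 1 + 1)).toNat = m := by omega
    have h3 : (-(-(m : ℤ) - 1)).toNat = m + 1 := by omega
    have h4 : (-(m : ℤ) - 1).toNat = 0 := by omega
    simp only [h1, h2, h3, h4, Finset.sum_range_succ]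
    abel

/-- a closed form on the plane is exact -/
theorem pot_plane {A : Type*} [AddCommGroup A] (χ : E → A)
    (h : ∀ t, χ (bot t) + χ (rgt t) = χ (lft t) + χ (top t)) :
    ∃ φ : V → A, ∀ e, φ (hd e) - φ e.1 = χ e := by
  obtain ⟨G, -, hG⟩ := prim_int fun k => χ ((k, 0), true)
  choose H h0 hH using fun x : ℤ => prim_int fun k => χ ((x, k), false)
  refine ⟨fun v => G v.1 + H v.1 v.2, ?_⟩
  rintro ⟨⟨x, y⟩, b⟩
  cases b
  · simp only [hd_false]
    rw [← hH x y]; abel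
  · simp only [hd_true]
    have key : ∀ y, χ ((x, y + 1), true) - χ ((x, y), true) =
        (H (x + 1) (y + 1) - H (x + 1) y) - (H x (y + 1) - H x y) := fun y => by
      have := h (x, y)
      simp only [bot, rgt, lft, top] at this
      rw [hH, hH, sub_eq_sub_iff_add_eq_add, add_comm, ← this, add_comm]
    induction y using Int.induction_on with
    | zero => rw [h0, h0, ← hG]; abel
    | succ k ih => rw [← sub_add_cancel (χ ((x, (k : ℤ) + 1), true)) (χ ((x, k), true)), key, ← ih]; abel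
    | pred k ih =>
      have := key (-(k : ℤ) - 1)
      rw [sub_add_cancel, ← ih] at this
      rw [← sub_sub_cancel (G (x + 1) + H (x + 1) (-k) - (G x + H x (-k)))
        (χ ((x, -(k : ℤ) - 1), true)), this]
      abel

end Pool.Agent.P.MP_6c8efb_pr.Cardy
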