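import Pool.Agent.P.MP_6c8efb_pr.Cardy.BIface
import Pool.Agent.P.MP_6c8efb_pr.Cardy.TBasic
import Pool.Agent.P.MP_6c8efb_pr.Cardy.CHol

/-! Geometry of polyominoes and of their blow-ups. -/

open Complex Set Filter Topology Metric

namespace Pool.Agent.P.MP_6c8efb_pr.Cardy.Lim

/-- the closed cell -/
def cell (q : V) : Set ℂ := Icc (q.1 : ℝ) (q.1 + 1) ×ℂ Icc (q.2 : ℝ) (q.2 + 1)

/-- the open cell -/
def ocell (q : V) : Set ℂ := Ioo (q.1 : ℝ) (q.1 + 1) ×ℂ Ioo (q.2 : ℝ) (q.2 + 1)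

/-- a point of a boundary side -/
noncomputable def sg (P : Dom) (j : ℕ) (θ : ℝ) : ℂ := toC (P.c j) + θ * toC (u (P.dir j))

theorem mem_cell {q : V} {z : ℂ} :
    z ∈ cell q ↔ (q.1 ≤ z.re ∧ z.re ≤ q.1 + 1) ∧ q.2 ≤ z.im ∧ z.im ≤ q.2 + 1 := Iff.rfl

theorem mem_ocell {q : V} {z : ℂ} :
    z ∈ ocell q ↔ (q.1 < z.re ∧ z.re < q.1 + 1) ∧ q.2 < z.im ∧ z.im < q.2 + 1 := Iff.rfl

theorem isOpen_ocell (q : V) : IsOpen (ocell q) := isOpen_Ioo.reProdIm isOpen_Ioo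

theorem closure_ocell (q : V) : closure (ocell q) = cell q := by
  rw [ocell, closure_reProdIm, closure_Ioo (by linarith), closure_Ioo (by linarith), cell]

theorem cell_uniq {q q' : V} {z : ℂ} (h : z ∈ ocell q) (h' : z ∈ cell q') : q' = q := by
  obtain ⟨⟨h1, h2⟩, h3, h4⟩ := mem_ocell.1 h
  obtain ⟨⟨k1, k2⟩, k3, k4⟩ := mem_cell.1 h'
  have a1 : q'.1 < q.1 + 1 := by exact_mod_cast k1.trans_lt h2
  have a2 : q.1 < q'.1 + 1 := by exact_mod_cast h1.trans_le k2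
  have a3 : q'.2 < q.2 + 1 := by exact_mod_cast k3.trans_lt h4
  have a4 : q.2 < q'.2 + 1 := by exact_mod_cast h3.trans_le k4
  exact Prod.ext (by omega) (by omega)

theorem near_cells (z : ℂ) : ∀ᶠ w in 𝓝 z, ∀ q, w ∈ cell q → z ∈ cell q := by
  have key : ∀ x : ℝ, ∀ᶠ y : ℝ in 𝓝 x, ∀ n : ℤ, n ≤ y ∧ y ≤ n + 1 → n ≤ x ∧ x ≤ n + 1 := fun x => by
    filter_upwards [gt_mem_nhds (Int.lt_floor_add_one x),
      lt_mem_nhds (show (⌈x⌉ : ℝ) - 1 < x by linarith [Int.ceil_lt_add_one x])] with y h1 h2 n hn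
    have h3 : n < ⌊x⌋ + 1 := by exact_mod_cast hn.1.trans_lt h1
    have h4 : ⌈x⌉ - 1 < n + 1 := by exact_mod_cast h2.trans_le hn.2
    exact ⟨Int.le_floor.1 (by omega), by exact_mod_cast (Int.ceil_le (z := n + 1)).1 (by omega)⟩
  filter_upwards [continuous_re.continuousAt.eventually (key z.re),
    continuous_im.continuousAt.eventually (key z.im)] with w h1 h2 q hq
  exact ⟨h1 _ hq.1, h2 _ hq.2⟩

theorem floor_cell (z : ℂ) : z ∈ cell (⌊z.re⌋, ⌊z.im⌋) :=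
  ⟨⟨Int.floor_le _, (Int.lt_floor_add_one _).le⟩, Int.floor_le _, (Int.lt_floor_add_one _).le⟩

theorem side_cell (v : V) (d : Fin 4) {θ : ℝ} (h : θ ∈ Icc (0 : ℝ) 1) :
    toC v + θ * toC (u d) ∈ cell (fc v d) ∧ toC v + θ * toC (u d) ∈ cell (fc v (d + 1)) := by
  obtain ⟨h1, h2⟩ := h
  rcases cases4 d with rfl | rfl | rfl | rfl <;> simp [mem_cell, toC] <;>
    constructor <;> linarith

theorem cell_side {v : V} {d : Fin 4} {z : ℂ} (h : z ∈ cell (fc v d)) (h' : z ∈ cell (fc v (d + 1))) :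
    ∃ θ ∈ Icc (0 : ℝ) 1, z = toC v + θ * toC (u d) := by
  rw [mem_cell] at h h'
  rcases cases4 d with rfl | rfl | rfl | rfl <;> simp [toC, Complex.ext_iff] at h h' ⊢
  · exact ⟨z.re - v.1, ⟨by linarith, by linarith⟩, by linarith, by linarith⟩
  · exact ⟨z.im - v.2, ⟨by linarith, by linarith⟩, by linarith, by linarith⟩
  · exact ⟨v.1 - z.re, ⟨by linarith, by linarith⟩, by linarith, by linarith⟩
  · exact ⟨v.2 - z.im, ⟨by linarith, by linarith⟩, by linarith, by linarith⟩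

variable (P : Dom)

theorem mem_cl {z : ℂ} : z ∈ P.cl ↔ ∃ q ∈ P.D, z ∈ cell q := by simp [Dom.cl, cell]

theorem isClosed_cl : IsClosed P.cl :=
  isClosed_biUnion_finset fun _ _ => isClosed_Icc.reProdIm isClosed_Icc

theorem ocell_sub {q : V} (h : q ∈ P.D) : ocell q ⊆ interior P.cl :=
  interior_maximal (fun _ hz => (mem_cl P).2 ⟨q, h, closure_ocell q ▸ subset_closure hz⟩)
    (isOpen_ocell q)

theorem cl_sub : P.cl ⊆ closure (interior P.cl) := fun z hz => by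
  obtain ⟨q, h1, h2⟩ := (mem_cl P).1 hz
  exact closure_mono (ocell_sub P h1) (closure_ocell q ▸ h2)

theorem not_int {q : V} (h : q ∉ P.D) {z : ℂ} (hz : z ∈ cell q) : z ∉ interior P.cl := fun hi => by
  obtain ⟨w, h1, h2⟩ := mem_closure_iff.1 (closure_ocell q ▸ hz) _ isOpen_interior hi
  obtain ⟨q', h3, h4⟩ := (mem_cl P).1 (interior_subset h1)
  exact h (cell_uniq h2 h4 ▸ h3)

theorem c_per (i : ℕ) : P.c (i + P.n) = P.c i := by
  induction i with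
  | zero => simpa using P.close
  | succ i ih => rw [Nat.add_right_comm, P.step, P.step, ih, P.per]

theorem bdry' {v : V} {d : Fin 4} (h1 : fc v (d + 1) ∈ P.D) (h2 : fc v d ∉ P.D) :
    ∃ i < P.n, P.c i = v ∧ P.dir i = d := by
  obtain ⟨i, h3, h4⟩ := (P.bdry v d).1 ⟨h1, h2⟩
  exact ⟨i % P.n, Nat.mod_lt _ P.pos, (Function.Periodic.map_mod_nat (c_per P) i).trans h3,
    (Function.Periodic.map_mod_nat P.per i).trans h4⟩

theorem fc_in (j : ℕ) : fc (P.c j) (P.dir j + 1) ∈ P.D ∧ fc (P.c j) (P.dir j) ∉ P.D :=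
  (P.bdry _ _).2 ⟨j, rfl, rfl⟩

theorem sg_mem (j : ℕ) {θ : ℝ} (h : θ ∈ Icc (0 : ℝ) 1) :
    sg P j θ ∈ P.cl ∧ sg P j θ ∉ interior P.cl :=
  ⟨(mem_cl P).2 ⟨_, (fc_in P j).1, (side_cell _ _ h).2⟩, not_int P (fc_in P j).2 (side_cell _ _ h).1⟩

theorem sg_zero (j : ℕ) : sg P j 0 = toC (P.c j) := by simp [sg]

theorem sg_one (j : ℕ) : sg P j 1 = toC (P.c (j + 1)) := by
  simp [sg, P.step, toC, Complex.ext_iff]

/-- the boundary consists of the boundary sides -/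
theorem bd_char {z : ℂ} (hz : z ∈ P.cl) (hi : z ∉ interior P.cl) :
    ∃ j < P.n, ∃ θ ∈ Icc (0 : ℝ) 1, z = sg P j θ := by
  by_contra hn
  have adj : ∀ v d, z ∈ cell (fc v d) → z ∈ cell (fc v (d + 1)) → fc v (d + 1) ∈ P.D →
      fc v d ∈ P.D := fun v d h1 h2 h3 => by
    by_contra h4
    obtain ⟨i, h5, rfl, rfl⟩ := bdry' P h3 h4
    exact hn ⟨i, h5, cell_side h1 h2⟩
  have tri : ∀ (a b : ℤ) (x : ℝ), a ≤ x ∧ x ≤ a + 1 → b ≤ x ∧ x ≤ b + 1 →
      b = a ∨ b = a + 1 ∨ b = a - 1 := fun a b x h1 h2 => by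
    have k1 : a ≤ b + 1 := by exact_mod_cast h1.1.trans h2.2
    have k2 : b ≤ a + 1 := by exact_mod_cast h2.1.trans h1.2
    omega
  obtain ⟨⟨a, b⟩, h1, h2⟩ := (mem_cl P).1 hz
  refine hi (mem_interior_iff_mem_nhds.2 ((near_cells z).mono fun w hw => ?_))
  refine (mem_cl P).2 ⟨_, ?_, floor_cell w⟩
  have h3 := hw _ (floor_cell w)
  generalize ⌊w.re⌋ = a' at h3 ⊢
  generalize ⌊w.im⌋ = b' at h3 ⊢
  have h4 : z ∈ cell (a', b) := ⟨h3.1, h2.2⟩
  have h5 : (a', b) ∈ P.D := by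
    rcases tri a a' _ h2.1 h3.1 with rfl | rfl | rfl
    · exact h1
    · simpa using adj (a + 1, b) 1 (by simpa) (by simpa) (by simpa)
    · simpa using adj (a, b + 1) 3 (by simpa) (by simpa) (by simpa)
  rcases tri b b' _ h2.2 h3.2 with rfl | rfl | rfl
  · exact h5
  · simpa using adj (a' + 1, b + 1) 2 (by simpa) (by simpa) (by simpa)
  · simpa using adj (a', b) 0 (by simpa) (by simpa) (by simpa)

theorem toC_inj : Function.Injective toC := fun v w h => by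
  simp only [toC, Complex.ext_iff, Int.cast_inj] at h
  exact Prod.ext h.1 h.2

theorem side_lat {v w : V} {d : Fin 4} {θ : ℝ} (h : θ ∈ Icc (0 : ℝ) 1)
    (e : toC v + θ * toC (u d) = toC w) : θ = 0 ∨ θ = 1 := by
  have key : ∀ n : ℤ, θ = n → θ = 0 ∨ θ = 1 := fun n hn => by
    obtain ⟨h1, h2⟩ := h
    rw [hn] at h1 h2 ⊢
    norm_cast at h1 h2 ⊢
    omega
  rcases cases4 d with rfl | rfl | rfl | rfl <;> simp [toC, Complex.ext_iff] at e
  · exact key (w.1 - v.1) (by push_cast; linarith)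
  · exact key (w.2 - v.2) (by push_cast; linarith)
  · exact key (v.1 - w.1) (by push_cast; linarith)
  · exact key (v.2 - w.2) (by push_cast; linarith)

/-- the sides through a vertex of the boundary -/
theorem sg_vert {i k : ℕ} (hi : i < P.n) (hk : k < P.n) {θ : ℝ} (h : θ ∈ Icc (0 : ℝ) 1)
    (e : sg P i θ = toC (P.c k)) : i = k ∨ i + 1 = k ∨ (i + 1 = P.n ∧ k = 0) := by
  rcases side_lat h e with rfl | rfl
  · exact Or.inl (P.inj i hi k hk (toC_inj ((sg_zero P i).symm.trans e)))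
  · have h1 := toC_inj ((sg_one P i).symm.trans e)
    rcases (Nat.succ_le_of_lt hi).lt_or_eq with h2 | h2
    · exact Or.inr (Or.inl (P.inj _ h2 k hk h1))
    · rw [show i + 1 = P.n from h2, P.close] at h1
      exact Or.inr (Or.inr ⟨h2, (P.inj 0 P.pos k hk h1).symm⟩)

/-- coordinates near an open side -/
theorem ocell_side (v : V) (d : Fin 4) {θ s : ℝ} (h : θ ∈ Ioo (0 : ℝ) 1) (hs : s ∈ Ioo (0 : ℝ) 1) :
    toC v + θ * toC (u d) + s * toC (u (d + 1)) ∈ ocell (fc v (d + 1)) ∧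
      toC v + θ * toC (u d) - s * toC (u (d + 1)) ∈ ocell (fc v d) := by
  obtain ⟨h1, h2⟩ := h
  obtain ⟨h3, h4⟩ := hs
  rcases cases4 d with rfl | rfl | rfl | rfl <;> simp [mem_ocell, toC] <;>
    refine ⟨⟨⟨?_, ?_⟩, ?_, ?_⟩, ⟨?_, ?_⟩, ?_, ?_⟩ <;> linarith

/-- an open side meets no other side -/
theorem sg_open {i j : ℕ} (hi : i < P.n) (hj : j < P.n) {θ θ' : ℝ} (h : θ ∈ Ioo (0 : ℝ) 1)
    (h' : θ' ∈ Icc (0 : ℝ) 1) (e : sg P i θ' = sg P j θ) : i = j := by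
  have key : ∀ q, sg P j θ ∈ cell q → q = fc (P.c j) (P.dir j) ∨ q = fc (P.c j) (P.dir j + 1) :=
    fun q hq => by
      obtain ⟨h1, h2⟩ := h
      rw [mem_cell, sg] at hq
      generalize P.dir j = d at hq ⊢
      generalize P.c j = v at hq ⊢
      have k1 : ∀ a b : ℤ, (a : ℝ) ≤ b + θ → (b : ℝ) + θ ≤ a + 1 → a = b := fun a b k k' => by
        have k1 : a < b + 1 := by exact_mod_cast (by linarith : (a : ℝ) < b + 1)
        have k2 : b < a + 1 := by exact_mod_cast (by linarith : (b : ℝ) < a + 1)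
        omega
      have k2 : ∀ a b : ℤ, (a : ℝ) + θ ≤ b → (b : ℝ) ≤ a + 1 + θ → a = b - 1 := fun a b k k' => by
        have k1 : a < b := by exact_mod_cast (by linarith : (a : ℝ) < b)
        have k2 : b < a + 2 := by exact_mod_cast (by linarith : (b : ℝ) < a + 2)
        omega
      rcases cases4 d with rfl | rfl | rfl | rfl <;> simp [toC, Prod.ext_iff] at hq ⊢ <;>
        obtain ⟨⟨a1, a2⟩, a3, a4⟩ := hq
      · have := k1 _ _ a1 a2; norm_cast at a3 a4; omega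
      · have := k1 _ _ a3 a4; norm_cast at a1 a2; omega
      · have := k2 _ _ a1 a2; norm_cast at a3 a4; omega
      · have := k2 _ _ a3 a4; norm_cast at a1 a2; omega
  have h1 := side_cell (P.c i) (P.dir i) h'
  rw [← sg, e] at h1
  have h2 := (key _ h1.1).resolve_right fun e => (fc_in P i).2 (e ▸ (fc_in P j).1)
  have h3 := (key _ h1.2).resolve_left fun e => (fc_in P j).2 (e ▸ (fc_in P i).1)
  refine P.inj i hi j hj ?_
  generalize P.dir i = d, P.dir j = d', P.c i = v, P.c j = v' at h2 h3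
  rcases cases4 d with rfl | rfl | rfl | rfl <;> rcases cases4 d' with rfl | rfl | rfl | rfl <;>
    simp [Prod.ext_iff] at h2 h3 ⊢ <;> omega

/-- the sides close to a point pass through it -/
theorem near_sides (z : ℂ) : ∃ ρ > 0, ∀ i < P.n, ∀ θ ∈ Icc (0 : ℝ) 1, dist (sg P i θ) z < ρ →
    ∃ θ' ∈ Icc (0 : ℝ) 1, sg P i θ' = z := by
  have : ∀ᶠ w in 𝓝 z, ∀ i ∈ Finset.range P.n, w ∈ sg P i '' Icc 0 1 → z ∈ sg P i '' Icc 0 1 := by
    refine (eventually_all_finset _).2 fun i _ => ?_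
    by_cases h : z ∈ sg P i '' Icc 0 1
    · exact Eventually.of_forall fun _ _ => h
    · have hc : IsClosed (sg P i '' Icc 0 1) :=
        (isCompact_Icc.image (by unfold sg; fun_prop)).isClosed
      filter_upwards [hc.isOpen_compl.mem_nhds h] with w h1 h2 using (h1 h2).elim
  obtain ⟨ρ, h1, h2⟩ := Metric.eventually_nhds_iff.1 this
  exact ⟨ρ, h1, fun i hi θ hθ h => h2 h i (Finset.mem_range.2 hi) ⟨θ, hθ, rfl⟩⟩

/-! ### Blow-ups -/

variable {P} {P' : Dom} {M : ℕ}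

theorem mem_blow {q t : V} (h1 : M * q.1 ≤ t.1) (h2 : t.1 < M * q.1 + M) (h3 : M * q.2 ≤ t.2)
    (h4 : t.2 < M * q.2 + M) : t ∈ P.blowD M ↔ q ∈ P.D := by
  simp only [Dom.blowD, Finset.mem_biUnion, Finset.mem_product, Finset.mem_Ico]
  refine ⟨fun ⟨q', h, ⟨k1, k2⟩, k3, k4⟩ => ?_, fun h => ⟨q, h, ⟨h1, h2⟩, h3, h4⟩⟩
  have key : ∀ a b x : ℤ, M * a ≤ x → x < M * b + M → a ≤ b := fun a b x l1 l2 => by
    by_contra l3
    nlinarith [Int.natCast_nonneg M, mul_le_mul_of_nonneg_left (show b + 1 ≤ a by omega)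
      (Int.natCast_nonneg M)]
  rwa [show q = q' from Prod.ext ((key _ _ _ h1 k2).antisymm (key _ _ _ k1 h2))
    ((key _ _ _ h3 k4).antisymm (key _ _ _ k3 h4))]

theorem blow_c (B : P.Blow M P') (j : ℕ) {a : ℕ} (ha : a ≤ M) :
    P'.c (M * j + a) = M • P.c j + a • u (P.dir j) := by
  induction a with
  | zero => simpa using B.c j
  | succ a ih =>
    rw [← add_assoc, P'.step, ih (by omega), B.dir, Nat.mul_add_div (by omega),
      Nat.div_eq_of_lt ha, succ_nsmul, add_assoc, add_zero]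

theorem pt_blow (B : P.Blow M P') (hM : 0 < M) (j : ℕ) {a : ℕ} (ha : a ≤ M) :
    pt M (P'.c (M * j + a)) = sg P j (a / M) ∧ (a / M : ℝ) ∈ Icc (0 : ℝ) 1 := by
  have h0 : (0 : ℝ) < M := by exact_mod_cast hM
  refine ⟨?_, by positivity, (div_le_one h0).2 (by exact_mod_cast ha)⟩
  rw [blow_c B j ha]
  simp only [pt, sg, toC, Complex.ext_iff, add_re, add_im, re_ofReal_mul, im_ofReal_mul]
  simp
  constructor <;> field_simp

theorem arc_blow (hM : 0 < M) (k₁ k₂ i : ℕ) : arc (M * k₁) (M * k₂) i = arc k₁ k₂ (i / M) := by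
  simp only [arc, Nat.div_lt_iff_lt_mul hM, mul_comm M]

theorem mk_blow (B : P.Blow M P') (hM : 0 < M) {k₁ k₂ : ℕ} (h : Mk P k₁ k₂) :
    Mk P' (M * k₁) (M * k₂) :=
  ⟨Nat.mul_pos hM h.1, Nat.mul_lt_mul_of_pos_left h.2.1 hM,
    B.n ▸ Nat.mul_lt_mul_of_pos_left h.2.2 hM⟩

/-- the boundary vertices of the blow-up lie on the sides -/
theorem pt_bd (B : P.Blow M P') (hM : 0 < M) {i : ℕ} (hi : i < P'.n) : i / M < P.n ∧
    (∃ θ ∈ Icc (0 : ℝ) 1, pt M (P'.c i) = sg P (i / M) θ) ∧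
      ∃ θ ∈ Icc (0 : ℝ) 1, pt M (P'.c (i + 1)) = sg P (i / M) θ := by
  have h1 := Nat.mod_lt i hM
  have h2 := pt_blow B hM (i / M) h1.le
  have h3 := pt_blow B hM (i / M) (a := i % M + 1) h1
  rw [Nat.div_add_mod] at h2
  rw [← add_assoc, Nat.div_add_mod] at h3
  exact ⟨Nat.div_lt_of_lt_mul (B.n ▸ hi), ⟨_, h2.2, h2.1⟩, _, h3.2, h3.1⟩

/-- two vertices of a rectangle of tiles are joined inside every box containing them -/
theorem nr_rect {D : Finset V} {a b a' b' : ℤ} (ha : a < a') (hb : b < b')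
    (hD : ∀ t : V, a ≤ t.1 → t.1 < a' → b ≤ t.2 → t.2 < b' → t ∈ D) {y x v : V} {r : ℤ}
    (hx : (a ≤ x.1 ∧ x.1 ≤ a') ∧ b ≤ x.2 ∧ x.2 ≤ b') (hv : (a ≤ v.1 ∧ v.1 ≤ a') ∧ b ≤ v.2 ∧ v.2 ≤ b')
    (h1 : dd y x ≤ r) (h2 : dd y v ≤ r) : Nr D y r x v := by
  induction hn : (|v.1 - x.1| + |v.2 - x.2|).toNat generalizing x with
  | zero =>
    simp only [abs_eq_max_neg] at hn
    rw [show x = v from Prod.ext (by omega) (by omega)]
    exact Relation.ReflTransGen.refl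
  | succ n ih =>
    obtain ⟨d, k1, k2, k3⟩ : ∃ d, (((a ≤ (x + u d).1 ∧ (x + u d).1 ≤ a') ∧ b ≤ (x + u d).2 ∧
        (x + u d).2 ≤ b') ∧ dd y (x + u d) ≤ r) ∧
        (|v.1 - (x + u d).1| + |v.2 - (x + u d).2|).toNat = n ∧ edge x d ∈ sd D := by
      simp only [dd, edge_mem_sd, abs_eq_max_neg] at h1 h2 hn ⊢
      have key : ∀ s t : V, (a ≤ s.1 ∧ s.1 < a' ∧ b ≤ s.2 ∧ s.2 < b') ∨
          (a ≤ t.1 ∧ t.1 < a' ∧ b ≤ t.2 ∧ t.2 < b') → s ∈ D ∨ t ∈ D := fun s t h =>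
        h.imp (fun h => hD s h.1 h.2.1 h.2.2.1 h.2.2.2) fun h => hD t h.1 h.2.1 h.2.2.1 h.2.2.2
      rcases lt_trichotomy x.1 v.1 with h | h | h
      · exact ⟨0, by simp; omega, by simp; omega, key _ _ (by simp; omega)⟩
      · rcases lt_trichotomy x.2 v.2 with h' | h' | h'
        · exact ⟨1, by simp; omega, by simp; omega, key _ _ (by simp; omega)⟩
        · omega
        · exact ⟨3, by simp; omega, by simp; omega, key _ _ (by simp; omega)⟩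
      · exact ⟨2, by simp; omega, by simp; omega, key _ _ (by simp; omega)⟩
    exact Relation.ReflTransGen.head ⟨⟨d, rfl, k3⟩, h1, k1.2⟩ (ih k1.1 k1.2 k2)

theorem fl_eq (M : ℕ) (z : ℂ) : fl M z = flr M z := rfl

theorem fl_toC (M : ℕ) (v : V) : fl M (toC v) = M • v := by
  simp only [fl, toC, Prod.ext_iff, nsmul_eq_mul]
  constructor <;> exact_mod_cast Int.floor_intCast _

theorem dd_le (hM : 0 < M) (z : ℂ) (v : V) : (dd (fl M z) v : ℝ) ≤ M * dist (pt M v) z + 1 := by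
  have h0 : (0 : ℝ) < M := by exact_mod_cast hM
  have key : ∀ (n : ℤ) (x : ℝ), |(n : ℝ) - ⌊M * x⌋| ≤ M * |n / M - x| + 1 := fun n x => by
    rw [← abs_of_pos h0, ← abs_mul, abs_of_pos h0, mul_sub, mul_div_cancel₀ _ h0.ne']
    have h1 : |M * x - ⌊M * x⌋| ≤ 1 := abs_le.2
      ⟨by linarith [Int.floor_le (M * x)], by linarith [Int.lt_floor_add_one (M * x)]⟩
    linarith [abs_sub_le (n : ℝ) (M * x) ⌊M * x⌋]
  simp only [dd, fl, dist_eq_norm]
  push_cast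
  refine max_le ((key _ _).trans ?_) ((key _ _).trans ?_) <;> gcongr
  exacts [abs_re_le_norm (pt M v - z), abs_im_le_norm (pt M v - z)]

theorem le_dd (hM : 0 < M) (z : ℂ) (v : V) : M * dist (pt M v) z ≤ 2 * (dd (fl M z) v + 1) := by
  have h0 : (0 : ℝ) < M := by exact_mod_cast hM
  have key : ∀ (n : ℤ) (x : ℝ), M * |n / M - x| ≤ |(n : ℝ) - ⌊M * x⌋| + 1 := fun n x => by
    rw [← abs_of_pos h0, ← abs_mul, abs_of_pos h0, mul_sub, mul_div_cancel₀ _ h0.ne']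
    have h1 : |⌊M * x⌋ - M * x| ≤ 1 := abs_le.2
      ⟨by linarith [Int.lt_floor_add_one (M * x)], by linarith [Int.floor_le (M * x)]⟩
    linarith [abs_sub_le (n : ℝ) ⌊M * x⌋ (M * x)]
  simp only [dd, fl, dist_eq_norm]
  push_cast
  have h1 := mul_le_mul_of_nonneg_left (norm_le_abs_re_add_abs_im (pt M v - z)) h0.le
  simp only [sub_re, sub_im, pt] at h1 ⊢
  linarith [key v.1 z.re, key v.2 z.im, le_max_left |(v.1 : ℝ) - ⌊M * z.re⌋| |(v.2 : ℝ) - ⌊M * z.im⌋|,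
    le_max_right |(v.1 : ℝ) - ⌊M * z.re⌋| |(v.2 : ℝ) - ⌊M * z.im⌋|]

/-- local connectedness -/
theorem nr_near (P : Dom) (z : ℂ) : ∃ δ > 0, ∀ M : ℕ, 0 < M → ∀ (v : V) (r : ℤ), pt M v ∈ P.cl →
    dist (pt M v) z < δ → dd (fl M z) v ≤ r → Nr (P.blowD M) (fl M z) r (fl M z) v := by
  obtain ⟨δ, h0, h1⟩ := Metric.eventually_nhds_iff.1 (near_cells z)
  refine ⟨δ, h0, fun M hM v r h2 h3 h4 => ?_⟩
  have h5 : (0 : ℝ) < M := by exact_mod_cast hM
  obtain ⟨q, h6, h7⟩ := (mem_cl P).1 h2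
  have h8 := h1 h3 q h7
  have k1 : ∀ (a : ℤ) (x : ℝ), a ≤ x ∧ x ≤ a + 1 → M * a ≤ ⌊M * x⌋ ∧ ⌊M * x⌋ ≤ M * a + M :=
    fun a x h => ⟨Int.le_floor.2 (by push_cast; gcongr; exact h.1), by
      exact_mod_cast (Int.floor_le _).trans (by nlinarith [h.2] : M * x ≤ M * a + M)⟩
  have k2 : ∀ a n : ℤ, a ≤ (n : ℝ) / M ∧ (n : ℝ) / M ≤ a + 1 → M * a ≤ n ∧ n ≤ M * a + M :=
    fun a n h => by simpa [mul_div_cancel₀ _ h5.ne'] using k1 a _ h
  exact nr_rect (a := M * q.1) (a' := M * q.1 + M) (b := M * q.2) (b' := M * q.2 + M) (by omega)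
    (by omega) (fun t a1 a2 a3 a4 => (mem_blow a1 a2 a3 a4).2 h6) ⟨k1 _ _ h8.1, k1 _ _ h8.2⟩
    ⟨k2 _ _ h7.1, k2 _ _ h7.2⟩ (le_trans (by simp [dd]) h4) h4

/-- choice of the scales -/
theorem rate (C : ℝ) {c ρ ε : ℝ} (hc : 0 < c) (hρ : 0 < ρ) (hε : 0 < ε) : ∃ δ > (0 : ℝ),
    ∀ᶠ M : ℕ in atTop, 0 < M ∧ ∃ r R : ℤ, 1 ≤ r ∧ r ≤ R ∧ M * δ + 1 ≤ r ∧ 2 * (R + 1 : ℝ) ≤ M * ρ ∧
      C * ((r : ℝ) / R) ^ c ≤ ε := by
  have h1 : ContinuousAt (fun δ : ℝ => C * δ ^ c) 0 :=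
    continuousAt_const.mul (Real.continuousAt_rpow_const _ _ (Or.inr hc.le))
  obtain ⟨η, h2, h3⟩ := Metric.eventually_nhds_iff.1 (h1.eventually (gt_mem_nhds (a := ε)
    (by simpa [Real.zero_rpow hc.ne'] using hε)))
  have h4 : 0 < min η 1 := lt_min h2 one_pos
  refine ⟨min η 1 * ρ / 16, by positivity, ?_⟩
  filter_upwards [eventually_gt_atTop 0, tendsto_natCast_atTop_atTop.eventually_ge_atTop
    (32 / (min η 1 * ρ)), tendsto_natCast_atTop_atTop.eventually_ge_atTop (8 / ρ)] with M h5 h6 h7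
  rw [div_le_iff₀ (by positivity)] at h6 h7
  have k1 := Int.le_ceil (M * (min η 1 * ρ / 16) + 1)
  have k2 := Int.ceil_lt_add_one (M * (min η 1 * ρ / 16) + 1)
  have k3 := Int.floor_le (M * ρ / 2 - 1)
  have k4 := Int.lt_floor_add_one (M * ρ / 2 - 1)
  set r := ⌈M * (min η 1 * ρ / 16) + 1⌉
  set R := ⌊M * ρ / 2 - 1⌋
  have k5 : (r : ℝ) < min η 1 * R := by nlinarith
  have k6 : (1 : ℝ) ≤ r := by nlinarith
  have k7 : (0 : ℝ) < R := by linarith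
  refine ⟨h5, r, R, by exact_mod_cast k6, ?_, k1, by linarith, (h3 ?_).le⟩
  · exact_mod_cast (by nlinarith [min_le_right η 1] : (r : ℝ) ≤ R)
  · rw [dist_zero_right, Real.norm_of_nonneg (by positivity), div_lt_iff₀ k7]
    nlinarith [min_le_left η 1]

end Pool.Agent.P.MP_6c8efb_pr.Cardy.Lim
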