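import Pool.Agent.P.MP_6c8efb_pr.Cardy.CGeo

/-! The scaling limit of the observable in a polyomino. -/

open Complex Set Filter Topology Metric
open scoped Real

namespace Pool.Agent.P.MP_6c8efb_pr.Cardy.Lim

theorem zeta_eq : ζ = ⟨1 / 2, √3 / 2⟩ := by
  rw [ζ, show (π / 3 * I : ℂ) = (π / 3 : ℝ) * I by push_cast; rfl]
  exact Complex.ext (by rw [exp_ofReal_mul_I_re, Real.cos_pi_div_three])
    (by rw [exp_ofReal_mul_I_im, Real.sin_pi_div_three])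

theorem norm_zeta : ‖ζ‖ = 1 := by
  rw [ζ, show (π / 3 * I : ℂ) = (π / 3 : ℝ) * I by push_cast; rfl, norm_exp_ofReal_mul_I]

theorem zeta_ne : ζ ≠ 0 := exp_ne_zero _

theorem zeta_sq : ζ ^ 2 = ζ - 1 := by
  have := Real.mul_self_sqrt (show (0 : ℝ) ≤ 3 by norm_num)
  rw [zeta_eq, pow_two]
  refine Complex.ext ?_ ?_ <;> simp <;> linarith

theorem zeta_six : ζ ^ 6 = 1 := by linear_combination (ζ ^ 4 + ζ ^ 3 - ζ - 1) * zeta_sq

theorem zeta_five : ζ ^ 5 = 1 - ζ := by linear_combination (ζ ^ 3 + ζ ^ 2 - 1) * zeta_sq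

theorem scale (P : Dom) (z : ℂ) (C : ℝ) {c ρ ε : ℝ} (hc : 0 < c) (hρ : 0 < ρ) (hε : 0 < ε) :
    ∃ δ > (0 : ℝ), ∀ᶠ M : ℕ in atTop, 0 < M ∧ ∃ r R : ℤ, 1 ≤ r ∧ r ≤ R ∧ C * ((r : ℝ) / R) ^ c ≤ ε ∧
      (∀ v, pt M v ∈ P.cl → dist (pt M v) z < δ → Nr (P.blowD M) (fl M z) r (fl M z) v) ∧
      ∀ y, dd (fl M z) y < R → dist (pt M y) z < ρ := by
  obtain ⟨δ, h0, h1⟩ := rate C hc hρ hε
  obtain ⟨δ', h2, h3⟩ := nr_near P z
  refine ⟨min δ δ', lt_min h0 h2, h1.mono fun M ⟨hM, r, R, k1, k2, k3, k4, k5⟩ =>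
    ⟨hM, r, R, k1, k2, k5, fun v h4 h5 => h3 M hM v r h4 (h5.trans_le (min_le_right _ _)) ?_,
      fun y hy => ?_⟩⟩
  · have h6 := mul_le_mul_of_nonneg_left (h5.le.trans (min_le_left _ _)) M.cast_nonneg
    exact_mod_cast (by linarith [dd_le hM z v] : (dd (fl M z) v : ℝ) ≤ r)
  · have h6 : (dd (fl M z) y : ℝ) < R := by exact_mod_cast hy
    exact lt_of_mul_lt_mul_left (by linarith [le_dd hM z y]) M.cast_nonneg

/-- the arcs through a point -/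
theorem arc_eq (P : Dom) {k₁ k₂ i j : ℕ} (hi : i < P.n) (hj : j < P.n) {θ θ' : ℝ}
    (hθ : θ ∈ Icc (0 : ℝ) 1) (hθ' : θ' ∈ Icc (0 : ℝ) 1) (e : sg P i θ' = sg P j θ)
    (hm : ∀ m : Fin 3, sg P j θ ≠ toC (P.c (![0, k₁, k₂] m))) : arc k₁ k₂ i = arc k₁ k₂ j := by
  have key : ∀ k < P.n, sg P j θ = toC (P.c k) → arc k₁ k₂ i = arc k₁ k₂ j := fun k hk h => by
    have h0 : k ≠ 0 := fun e => hm 0 (e ▸ h)
    have h1 : k ≠ k₁ := fun e => hm 1 (e ▸ h)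
    have h2 : k ≠ k₂ := fun e => hm 2 (e ▸ h)
    have h3 := sg_vert P hi hk hθ' (e.trans h)
    have h4 := sg_vert P hj hk hθ h
    unfold arc
    split_ifs <;> omega
  rcases hθ.1.eq_or_lt with rfl | h0
  · exact key j hj (sg_zero P j)
  rcases hθ.2.eq_or_lt with rfl | h1
  · exact key _ (Nat.mod_lt _ P.pos) ((sg_one P j).trans
      (congrArg toC (Function.Periodic.map_mod_nat (c_per P) _).symm))
  · rw [sg_open P hi hj ⟨h0, h1⟩ hθ' e]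

theorem arc_mark (P : Dom) {k₁ k₂ i : ℕ} (hk : Mk P k₁ k₂) (hi : i < P.n) {θ : ℝ}
    (hθ : θ ∈ Icc (0 : ℝ) 1) (m : Fin 3) (e : sg P i θ = toC (P.c (![0, k₁, k₂] m))) :
    arc k₁ k₂ i = m ∨ arc k₁ k₂ i = (m + 2 : Fin 3) := by
  obtain ⟨h1, h2, h3⟩ := hk
  have h4 := sg_vert P hi (k := ![0, k₁, k₂] m) (by fin_cases m <;> simp <;> omega) hθ e
  unfold arc
  fin_cases m <;> simp at h4 ⊢ <;> split_ifs <;> omega

theorem toC_u (d : Fin 4) : toC (u (d + 1)) = I * toC (u d) ∧ ‖toC (u d)‖ = 1 := by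
  rcases cases4 d with rfl | rfl | rfl | rfl <;>
    simp [toC, Complex.ext_iff, Complex.norm_eq_sqrt_sq_add_sq]

variable {P : Dom} {k₁ k₂ : ℕ} {P' : ℕ → Dom} {𝒰 : Ultrafilter ℕ}

/-- the observable of the blow-ups -/
noncomputable abbrev FF (P' : ℕ → Dom) (k₁ k₂ M : ℕ) : V → ℂ := (P' M).F (M * k₁) (M * k₂)

theorem F_bound (hV : S_Val) (hk : Mk P k₁ k₂) (v : V) : ‖P.F k₁ k₂ v‖ ≤ 1 := by
  simpa [Dom.F] using MeasureTheory.norm_integral_le_of_norm_le_const (μ := PM fun _ => hf)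
    (Eventually.of_forall fun τ => ((hV P k₁ k₂ hk).2 τ).1 v)

variable (hB : ∀ M, 0 < M → P.Blow M (P' M)) (h𝒰 : (𝒰 : Filter ℕ) ≤ atTop) (hk : Mk P k₁ k₂)
include hB h𝒰 hk

theorem FF_bound (hV : S_Val) : ∀ᶠ M in 𝒰, ∀ v, ‖FF P' k₁ k₂ M v‖ ≤ 1 :=
  h𝒰 ((eventually_gt_atTop 0).mono fun M hM => F_bound hV (mk_blow (hB M hM) hM hk))

theorem lim_int (hV : S_Val) (hMod : S_Mod) {z : ℂ} (hz : z ∈ interior P.cl) :
    ∃ a, LimAt 𝒰 (↑) (FF P' k₁ k₂) z a := by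
  obtain ⟨C, c, hc, H⟩ := hMod
  obtain ⟨ρ, h0, h1⟩ := near_sides P z
  refine (exists_BL (S := P.cl) 𝒰 (FF_bound hB h𝒰 hk hV) continuous_id (fun M => fl M z)
    fun ε hε => ?_).imp fun a ha => ha.limAt (mem_interior_iff_mem_nhds.1 hz)
  obtain ⟨δ, h2, h3⟩ := scale P z C hc h0 hε
  refine ⟨δ, h2, h𝒰 (h3.mono fun M ⟨hM, r, R, a1, a2, a3, a4, a5⟩ v h4 h5 => ?_)⟩
  rw [dist_comm, dist_eq_norm]
  refine ((H _ _ _ _ _ _ r R (mk_blow (hB M hM) hM hk) a1 a2 ((hB M hM).D ▸ a4 v h4 h5)).1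
    fun i hi => not_lt.1 fun h6 => ?_).trans a3
  obtain ⟨h7, ⟨θ, h8, h9⟩, -⟩ := pt_bd (hB M hM) hM hi
  obtain ⟨θ', h10, rfl⟩ := h1 _ h7 θ h8 (h9 ▸ a5 _ h6)
  exact (sg_mem P _ h10).2 hz

theorem lim_tan (hV : S_Val) (hMod : S_Mod) {z : ℂ} {m : ℕ}
    (hz : ∀ i < P.n, ∀ θ ∈ Icc (0 : ℝ) 1, sg P i θ = z → arc k₁ k₂ i = m) :
    ∃ t, BL 𝒰 (↑) (FF P' k₁ k₂) P.cl (fun a => (a / ζ ^ (2 * m)).im) z t := by
  obtain ⟨C, c, hc, H⟩ := hMod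
  obtain ⟨ρ, h0, h1⟩ := near_sides P z
  refine exists_BL 𝒰 (FF_bound hB h𝒰 hk hV) (by fun_prop) (fun M => fl M z) fun ε hε => ?_
  obtain ⟨δ, h2, h3⟩ := scale P z C hc h0 hε
  refine ⟨δ, h2, h𝒰 (h3.mono fun M ⟨hM, r, R, a1, a2, a3, a4, a5⟩ v h4 h5 => ?_)⟩
  rw [dist_comm, Real.dist_eq, ← sub_im, ← sub_div]
  refine ((H _ _ _ _ _ _ r R (mk_blow (hB M hM) hM hk) a1 a2 ((hB M hM).D ▸ a4 v h4 h5)).2 m
    fun i hi h6 => ?_).trans a3
  obtain ⟨h7, ⟨θ, h8, h9⟩, -⟩ := pt_bd (hB M hM) hM hi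
  obtain ⟨θ', h10, h11⟩ := h1 _ h7 θ h8 (h9 ▸ a5 _ h6)
  rw [arc_blow hM, hz _ h7 θ' h10 h11]

theorem lim_mark (hCor : S_Cor) (m : Fin 3) :
    BL 𝒰 (↑) (FF P' k₁ k₂) P.cl id (toC (P.c (![0, k₁, k₂] m))) (ζ ^ (2 * m.1 + 5)) := by
  obtain ⟨C, c, hc, H⟩ := hCor
  obtain ⟨ρ, h0, h1⟩ := near_sides P (toC (P.c (![0, k₁, k₂] m)))
  intro ε hε
  obtain ⟨δ, h2, h3⟩ := scale P (toC (P.c (![0, k₁, k₂] m))) C hc h0 hε
  refine ⟨δ, h2, h𝒰 (h3.mono fun M ⟨hM, r, R, a1, a2, a3, a4, a5⟩ v h4 h5 => ?_)⟩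
  have e : fl M (toC (P.c (![0, k₁, k₂] m))) = (P' M).c (![0, M * k₁, M * k₂] m) := by
    rw [fl_toC, ← (hB M hM).c]
    fin_cases m <;> simp
  rw [e] at a4 a5
  rw [dist_eq_norm]
  refine (H _ _ _ m v r R (mk_blow (hB M hM) hM hk) a1 a2 ((hB M hM).D ▸ a4 v h4 h5)
    fun i hi h6 => ?_).trans a3
  obtain ⟨h7, ⟨θ, h8, h9⟩, θ', h8', h9'⟩ := pt_bd (hB M hM) hM hi
  have key : ∀ θ ∈ Icc (0 : ℝ) 1, ¬dist (sg P (i / M) θ) (toC (P.c (![0, k₁, k₂] m))) < ρ :=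
    fun θ hθ h => by
      obtain ⟨θ', h10, h11⟩ := h1 _ h7 θ hθ h
      have := arc_mark P hk h7 h10 m h11
      rw [← arc_blow hM, h6] at this
      revert this
      fin_cases m <;> simp
  exact ⟨not_lt.1 fun h => key θ h8 (h9 ▸ a5 _ h), not_lt.1 fun h => key θ' h8' (h9' ▸ a5 _ h)⟩

omit hk in
theorem lim_holo (hCR : S_CR) (hk : MkC P k₁ k₂) {f : ℂ → ℂ}
    (hf : ∀ z ∈ interior P.cl, LimAt 𝒰 (↑) (FF P' k₁ k₂) z (f z)) :
    DifferentiableOn ℂ f (interior P.cl) := by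
  have hm : Tendsto (fun M : ℕ => (M : ℝ)) 𝒰 atTop := tendsto_natCast_atTop_atTop.mono_left h𝒰
  refine diff_off_grid isOpen_interior (limAt_cont hm hf) fun z hz h1 h2 => ?_
  obtain ⟨q, h3, h4⟩ := (mem_cl P).1 (interior_subset hz)
  have h5 : z ∈ ocell q := ⟨⟨h4.1.1.lt_of_ne (h1 _).symm, h4.1.2.lt_of_ne
    (by exact_mod_cast h1 (q.1 + 1))⟩, h4.2.1.lt_of_ne (h2 _).symm, h4.2.2.lt_of_ne
      (by exact_mod_cast h2 (q.2 + 1))⟩
  obtain ⟨⟨b1, b2⟩, b3, b4⟩ := mem_ocell.1 h5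
  obtain ⟨η, h6, b5, b6, b7, b8⟩ : ∃ η > 0, q.1 + η < z.re ∧ z.re < q.1 + 1 - η ∧
      q.2 + η < z.im ∧ z.im < q.2 + 1 - η := by
    refine ((eventually_mem_nhdsWithin (a := (0 : ℝ)) (s := Ioi 0)).and (nhdsWithin_le_nhds
      (Eventually.and ?_ (Eventually.and ?_ (Eventually.and ?_ ?_))))).exists <;>
    exact ContinuousAt.eventually_lt (by fun_prop) (by fun_prop) (by simpa)
  obtain ⟨C, H⟩ := hCR P k₁ k₂ η hk h6
  have ho : IsOpen (Ioo (q.1 + η) (q.1 + 1 - η) ×ℂ Ioo (q.2 + η) (q.2 + 1 - η)) :=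
    isOpen_Ioo.reProdIm isOpen_Ioo
  refine (limAt_holo hm ho (fun w hw => hf w (ocell_sub P h3 ⟨Ioo_subset_Ioo (by linarith)
    (by linarith) hw.1, Ioo_subset_Ioo (by linarith) (by linarith) hw.2⟩)) fun K hK _ ε hε =>
      h𝒰 ?_).differentiableAt (ho.mem_nhds ⟨⟨b5, b6⟩, b7, b8⟩)
  have h7 := ((tendsto_rpow_neg_atTop (show (0 : ℝ) < 1 / 20 by norm_num)).comp
    tendsto_natCast_atTop_atTop).const_mul C
  filter_upwards [eventually_gt_atTop 0, h7.eventually (gt_mem_nhds (a := ε) (by simpa))]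
    with M hM h8 v hv
  have h0 : (0 : ℝ) < M := by exact_mod_cast hM
  obtain ⟨⟨c1, c2⟩, c3, c4⟩ := hK hv
  refine (H M _ hM (hB M hM) q h3 v.1 v.2 ((lt_div_iff₀ h0).1 c1).le ((div_lt_iff₀ h0).1 c2).le
    ((lt_div_iff₀ h0).1 c3).le ((div_lt_iff₀ h0).1 c4).le).trans ?_
  rw [show (-21 / 20 : ℝ) = -(1 / 20) - 1 by norm_num, Real.rpow_sub_one h0.ne', ← mul_div_assoc]
  exact div_le_div_of_nonneg_right h8.le h0.le

omit h𝒰 in
theorem nor_est {C c : ℝ} (H : ∀ (P : Dom) (k₁ k₂ i d R : ℕ), Mk P k₁ k₂ →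
    1 ≤ d → d ≤ R → R ≤ i → i + R < P.n → arc k₁ k₂ (i - R) = arc k₁ k₂ (i + R) →
    (∀ a b : ℤ, |a| ≤ R → |b| ≤ R →
      (fc (P.c i + a • u (P.dir i) + b • u (P.dir i + 1)) (P.dir i + 1) ∈ P.D ↔ 0 ≤ b)) →
    |(P.F k₁ k₂ (P.c i + (d : ℤ) • u (P.dir i + 1)) / ζ ^ (2 * arc k₁ k₂ i)).re - 1 / 2| ≤
      C * (((d : ℝ) / R) ^ c + (d : ℝ) ^ (-c))) {j M a d R : ℕ} (hj : j < P.n) (h1 : 1 ≤ d)
    (h2 : d ≤ R) (h3 : R ≤ a) (h4 : a + R < M) :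
    |(FF P' k₁ k₂ M ((P' M).c (M * j + a) + (d : ℤ) • u (P.dir j + 1)) /
      ζ ^ (2 * arc k₁ k₂ j)).re - 1 / 2| ≤ C * (((d : ℝ) / R) ^ c + (d : ℝ) ^ (-c)) := by
  have hM : 0 < M := by omega
  have B := hB M hM
  have dv : ∀ b < M, (M * j + b) / M = j := fun b hb => by
    rw [Nat.mul_add_div hM, Nat.div_eq_of_lt hb, add_zero]
  have := H _ _ _ (M * j + a) d R (mk_blow B hM hk) h1 h2 (by omega)
    (by rw [B.n]; nlinarith) (by
      rw [arc_blow hM, arc_blow hM, Nat.add_sub_assoc h3, add_assoc, dv _ h4, dv _ (by omega)])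
  rw [B.dir, arc_blow hM, dv a (by omega)] at this
  refine this fun x y hx hy => ?_
  rw [B.D, blow_c B j (by omega)]
  have h5 := fc_in P j
  rw [abs_le] at hx hy
  generalize P.dir j = e, P.c j = v at h5 ⊢
  rcases le_or_gt 0 y with h6 | h6
  · refine iff_of_true ((mem_blow ?_ ?_ ?_ ?_).2 h5.1) h6 <;>
      rcases cases4 e with rfl | rfl | rfl | rfl <;> simp [mul_sub] <;> omega
  · refine iff_of_false (fun h => h5.2 ((mem_blow ?_ ?_ ?_ ?_).1 h)) (by omega) <;>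
      rcases cases4 e with rfl | rfl | rfl | rfl <;> simp [mul_sub] <;> omega

theorem lim_nor (hNor : S_Nor) {f : ℂ → ℂ}
    (hf : ∀ z ∈ interior P.cl, LimAt 𝒰 (↑) (FF P' k₁ k₂) z (f z)) {j : ℕ} (hj : j < P.n) {θ : ℝ}
    (hθ : θ ∈ Ioo (0 : ℝ) 1) : Tendsto (fun w => (f w / ζ ^ (2 * arc k₁ k₂ j) - 1 / 2).re)
      (𝓝[interior P.cl] (sg P j θ)) (𝓝 0) := by
  obtain ⟨C, c, hc, H⟩ := hNor
  have hm : Tendsto (fun M : ℕ => (M : ℝ)) 𝒰 atTop := tendsto_natCast_atTop_atTop.mono_left h𝒰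
  obtain ⟨ρ, h0, h1, h2⟩ : ∃ ρ > 0, ρ < θ ∧ θ < 1 - ρ := ⟨min θ (1 - θ) / 2, by
    rcases min_cases θ (1 - θ) with h | h <;> refine ⟨?_, ?_, ?_⟩ <;> linarith [hθ.1, hθ.2]⟩
  have key : ∀ a ∈ Ioo ρ (1 - ρ), ∀ s ∈ Ioo 0 ρ, |(f (sg P j a + s * toC (u (P.dir j + 1))) /
      ζ ^ (2 * arc k₁ k₂ j)).re - 1 / 2| ≤ C * (s / ρ) ^ c := fun a ha s hs => by
    have fl : ∀ x : ℝ, 0 ≤ x → Tendsto (fun M : ℕ => (⌊x * M⌋₊ : ℝ) / M) 𝒰 (𝓝 x) := fun x hx =>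
      (tendsto_nat_floor_mul_div_atTop hx).comp hm
    have a0 : 0 < a := h0.trans ha.1
    have hd : Tendsto (fun M : ℕ => ⌊s * M⌋₊) 𝒰 atTop :=
      tendsto_nat_floor_atTop.comp (hm.const_mul_atTop hs.1)
    have ev : ∀ᶠ M : ℕ in 𝒰, 0 < M ∧ 1 ≤ ⌊s * M⌋₊ ∧ ⌊a * M⌋₊ + ⌊ρ * M⌋₊ < M := by
      filter_upwards [hm.eventually_gt_atTop 0, hd.eventually_ge_atTop 1] with M k1 k2
      refine ⟨by exact_mod_cast k1, k2, ?_⟩
      have k3 := Nat.floor_le (show 0 ≤ a * M by positivity)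
      have k4 := Nat.floor_le (show 0 ≤ ρ * M by positivity)
      exact_mod_cast (by nlinarith [ha.2] : (⌊a * M⌋₊ : ℝ) + ⌊ρ * M⌋₊ < M)
    have t1 : Tendsto (fun M : ℕ => pt M ((P' M).c (M * j + ⌊a * M⌋₊) +
        (⌊s * M⌋₊ : ℤ) • u (P.dir j + 1))) 𝒰 (𝓝 (sg P j a + s * toC (u (P.dir j + 1)))) := by
      refine ((((show Continuous (sg P j) by unfold sg; fun_prop).tendsto a).comp
        (fl a a0.le)).add ((fl s hs.1.le).ofReal.mul_const _)).congr' (ev.mono fun M hM => ?_)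
      simp only [Function.comp, ← (pt_blow (hB M hM.1) hM.1 j (by omega : ⌊a * M⌋₊ ≤ M)).1]
      simp only [pt, toC, Complex.ext_iff, add_re, add_im, re_ofReal_mul, im_ofReal_mul]
      simp
      constructor <;> ring
    have t2 := (hf _ (ocell_sub P (fc_in P j).1 (ocell_side _ _ ⟨a0, by linarith [ha.2]⟩
      ⟨hs.1, by linarith [hs.2]⟩).1)).tendsto t1
    have t3 := ((((fl s hs.1.le).div (fl ρ h0.le) h0.ne').rpow_const (Or.inr hc.le)).add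
      ((tendsto_rpow_neg_atTop hc).comp (tendsto_natCast_atTop_atTop.comp hd))).const_mul C
    rw [add_zero] at t3
    refine le_of_tendsto_of_tendsto (((continuous_re.tendsto _).comp (t2.div_const _)).sub_const
      _).abs t3 (ev.mono fun M hM => ?_)
    have k0 : (0 : ℝ) < M := by exact_mod_cast hM.1
    simp only [Function.comp, Pi.div_apply, div_div_div_cancel_right₀ k0.ne']
    exact nor_est hB hk H hj hM.2.1 (Nat.floor_mono (by gcongr; exact hs.2.le))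
      (Nat.floor_mono (by gcongr; exact ha.1.le)) hM.2.2
  obtain ⟨hI, hn⟩ := toC_u (P.dir j)
  have he : toC (u (P.dir j)) ≠ 0 := norm_pos_iff.1 (by rw [hn]; exact one_pos)
  set κ : ℂ → ℂ := fun w => (w - toC (P.c j)) / toC (u (P.dir j)) with hκ
  have co : ∀ w, sg P j (κ w).re + (κ w).im * toC (u (P.dir j + 1)) = w := fun w => by
    rw [hI, sg, add_assoc, ← mul_assoc, ← add_mul, re_add_im, hκ, div_mul_cancel₀ _ he,
      add_sub_cancel]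
  have hκ0 : Tendsto κ (𝓝[interior P.cl] (sg P j θ)) (𝓝 θ) := by
    have : Continuous κ := by fun_prop
    simpa [hκ, sg, he] using (this.tendsto (sg P j θ)).mono_left nhdsWithin_le_nhds
  have t1 := (continuous_re.tendsto _).comp hκ0
  have t2 := (continuous_im.tendsto _).comp hκ0
  rw [ofReal_re] at t1
  rw [ofReal_im] at t2
  have t3 := ((t2.div_const ρ).rpow_const (Or.inr hc.le)).const_mul C
  rw [zero_div, Real.zero_rpow hc.ne', mul_zero] at t3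
  refine squeeze_zero_norm' ?_ t3
  filter_upwards [self_mem_nhdsWithin, t1.eventually (Ioo_mem_nhds h1 h2),
    t2.eventually (Ioo_mem_nhds (neg_lt_zero.2 h0) h0)] with w k1 k2 k3
  have k4 : (κ w).re ∈ Ioo (0 : ℝ) 1 := ⟨h0.trans k2.1, k2.2.trans (by linarith)⟩
  have k5 : 0 < (κ w).im := by
    rcases lt_trichotomy 0 (κ w).im with h | h | h
    · exact h
    · rw [← co w, ← h, ofReal_zero, zero_mul, add_zero] at k1
      exact ((sg_mem P j (Ioo_subset_Icc_self k4)).2 k1).elim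
    · have := (ocell_side (P.c j) (P.dir j) k4 (s := -(κ w).im)
        ⟨by linarith, by linarith [show -ρ < (κ w).im from k3.1]⟩).2
      rw [ofReal_neg, neg_mul, sub_neg_eq_add, ← sg, co] at this
      exact (not_int P (fc_in P j).2 (closure_ocell _ ▸ subset_closure this) k1).elim
  have := key (κ w).re k2 _ ⟨k5, k3.2⟩
  rw [co] at this
  simpa using this

theorem lim_bdry (hV : S_Val) (hMod : S_Mod) (hNor : S_Nor) (hCor : S_Cor) {f : ℂ → ℂ}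
    (hf : ∀ z ∈ interior P.cl, LimAt 𝒰 (↑) (FF P' k₁ k₂) z (f z))
    (hd : DifferentiableOn ℂ f (interior P.cl)) (hb : ∀ z ∈ interior P.cl, ‖f z‖ ≤ 1)
    {j : ℕ} (hj : j < P.n) {θ : ℝ} (hθ : θ ∈ Icc (0 : ℝ) 1) :
    ∃ y, Tendsto f (𝓝[interior P.cl] (sg P j θ)) (𝓝 y) ∧ (y / ζ ^ (2 * arc k₁ k₂ j)).re = 1 / 2 ∧
      BL 𝒰 (↑) (FF P' k₁ k₂) P.cl (fun a => (a / ζ ^ (2 * arc k₁ k₂ j)).im) (sg P j θ)
        (y / ζ ^ (2 * arc k₁ k₂ j)).im := by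
  have hm : Tendsto (fun M : ℕ => (M : ℝ)) 𝒰 atTop := tendsto_natCast_atTop_atTop.mono_left h𝒰
  by_cases h : ∃ m : Fin 3, sg P j θ = toC (P.c (![0, k₁, k₂] m))
  · obtain ⟨m, h⟩ := h
    have h1 := lim_mark hB h𝒰 hk hCor m
    rw [← h] at h1
    refine ⟨_, h1.bdry hm isOpen_interior interior_subset continuous_id hf, ?_,
      h1.comp (g := fun a => (a / ζ ^ (2 * arc k₁ k₂ j)).im) fun x y => ?_⟩
    · have h2 : (ζ ^ 5).re = 1 / 2 := by rw [zeta_five, zeta_eq]; norm_num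
      have h3 : ζ.re = 1 / 2 := by rw [zeta_eq]
      have h4 : ζ ^ 7 = ζ := by linear_combination ζ * zeta_six
      have h5 := zeta_ne
      rcases arc_mark P hk hj hθ m h with e | e <;> rw [e]
      · rw [pow_add, mul_div_cancel_left₀ _ (pow_ne_zero _ h5), h2]
      · fin_cases m
        · rw [← h3]; congr 1; simp; field_simp
        · simp [h4, h3]
        · rw [← (congrArg re h4).trans h3]; congr 1; simp; field_simp
    · rw [Real.dist_eq, ← sub_im, ← sub_div, dist_eq_norm]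
      exact (abs_im_le_norm _).trans_eq (by simp [norm_zeta])
  have h' := not_exists.1 h
  obtain ⟨t, ht⟩ := lim_tan hB h𝒰 hk hV hMod (z := sg P j θ) (m := arc k₁ k₂ j)
    fun i hi θ' hθ' e => arc_eq P hi hj hθ hθ' e h'
  have t1 := ht.bdry hm isOpen_interior interior_subset (by fun_prop) hf
  have t2 : Tendsto (fun w => (f w / ζ ^ (2 * arc k₁ k₂ j) - 1 / 2).re)
      (𝓝[interior P.cl] (sg P j θ)) (𝓝 0) := by
    by_cases h1 : θ ∈ Ioo (0 : ℝ) 1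
    · exact lim_nor hB h𝒰 hk hNor hf hj h1
    obtain ⟨k, e⟩ : ∃ k, sg P j θ = toC (P.c k) := by
      rcases hθ.1.eq_or_lt with rfl | h0
      · exact ⟨_, sg_zero P j⟩
      · exact ⟨_, (hθ.2.eq_or_lt.resolve_right fun h2 => h1 ⟨h0, h2⟩) ▸ sg_one P j⟩
    obtain ⟨ρ, h2, h3⟩ := near_sides P (sg P j θ)
    obtain ⟨-, hn⟩ := toC_u (P.dir k)
    have h4 : 0 < min ρ 1 := lt_min h2 one_pos
    have h5 : ‖-(min ρ 1 : ℝ) * toC (u (P.dir k))‖ = min ρ 1 := by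
      rw [norm_mul, hn, norm_neg, norm_real, Real.norm_of_nonneg h4.le, mul_one]
    have h6 : -(min ρ 1 : ℝ) * toC (u (P.dir k)) ≠ 0 := norm_pos_iff.1 (h5.symm ▸ h4)
    refine corner (M := 2) isOpen_interior ((hd.div_const _).sub_const _) (fun w hw => ?_) h6
      (fun w hw h7 => ?_) fun z hz h7 h8 => ?_
    · refine (norm_sub_le _ _).trans ?_
      simp only [norm_div, norm_pow, norm_zeta, one_pow, div_one, norm_one, Complex.norm_ofNat]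
      linarith [hb w hw]
    · by_contra h8
      simp only [mem_slitPlane_iff, not_or, not_lt, ne_eq, not_not] at h8
      set s := (w - sg P j θ) / (-(min ρ 1 : ℝ) * toC (u (P.dir k))) with hs
      have h9 : ‖s‖ < 1 := by rw [hs, norm_div]; exact (div_lt_one (norm_pos_iff.2 h6)).2 h7
      have h10 : w = sg P k (-s.re * min ρ 1) := by
        have : (s.re : ℂ) = s := Complex.ext rfl h8.2.symm
        rw [sg, ← e, ofReal_mul, ofReal_neg, this]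
        linear_combination -div_mul_cancel₀ (w - sg P j θ) h6
      refine (sg_mem P k ⟨by nlinarith [h8.1], ?_⟩).2 (h10 ▸ hw)
      nlinarith [(abs_le.1 ((abs_re_le_norm s).trans h9.le)).1, min_le_right ρ 1, h8.1]
    · rw [isOpen_interior.frontier_eq] at hz
      obtain ⟨i, hi, θ', hθ', rfl⟩ := bd_char P
        (closure_minimal interior_subset (isClosed_cl P) hz.1) hz.2
      rw [h5, lt_min_iff] at h8
      obtain ⟨θ'', h9, h10⟩ := h3 i hi θ' hθ' ((dist_eq_norm _ _).trans_lt h8.1)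
      rw [← arc_eq P hi hj hθ h9 h10 h']
      have key : ∀ k', sg P i θ' ≠ toC (P.c k') := fun k' e' => by
        rw [e, e'] at h7 h8
        have a1 := (abs_re_le_norm _).trans_lt h8.2
        have a2 := (abs_im_le_norm _).trans_lt h8.2
        simp only [toC, sub_re, sub_im] at a1 a2
        norm_cast at a1 a2
        rw [Int.abs_lt_one_iff, sub_eq_zero] at a1 a2
        exact h7 (congrArg toC (Prod.ext a1 a2))
      exact lim_nor hB h𝒰 hk hNor hf hi ⟨hθ'.1.lt_of_ne fun e => key i (e ▸ sg_zero P i),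
        hθ'.2.lt_of_ne fun e => key (i + 1) (e ▸ sg_one P i)⟩
  have hz := pow_ne_zero (2 * arc k₁ k₂ j) zeta_ne
  refine ⟨(1 / 2 + t * I) * ζ ^ (2 * arc k₁ k₂ j), ?_, by simp [hz], by simpa [hz] using ht⟩
  have t3 := ((t2.ofReal.const_add (1 / 2)).add (t1.ofReal.mul_const I)).mul_const
    (ζ ^ (2 * arc k₁ k₂ j))
  rw [ofReal_zero, add_zero] at t3
  refine t3.congr fun w => ?_
  rw [← eq_div_iff hz]
  refine Complex.ext ?_ ?_ <;> simp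

omit hk in
theorem lim_main (hCR : S_CR) (hV : S_Val) (hMod : S_Mod) (hNor : S_Nor) (hCor : S_Cor)
    (hk : MkC P k₁ k₂) : ∃ f : ℂ → ℂ, ContinuousOn f P.cl ∧ DifferentiableOn ℂ f (interior P.cl) ∧
    (∀ z ∈ P.cl, ‖f z‖ ≤ 1) ∧ (∀ z ∈ interior P.cl, LimAt 𝒰 (↑) (FF P' k₁ k₂) z (f z)) ∧
    (∀ m : Fin 3, f (toC (P.c (![0, k₁, k₂] m))) = ζ ^ (2 * m.1 + 5)) ∧
    ∀ j < P.n, ∀ θ ∈ Icc (0 : ℝ) 1, (f (sg P j θ) / ζ ^ (2 * arc k₁ k₂ j)).re = 1 / 2 ∧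
      BL 𝒰 (↑) (FF P' k₁ k₂) P.cl (fun a => (a / ζ ^ (2 * arc k₁ k₂ j)).im) (sg P j θ)
        (f (sg P j θ) / ζ ^ (2 * arc k₁ k₂ j)).im := by
  have hm : Tendsto (fun M : ℕ => (M : ℝ)) 𝒰 atTop := tendsto_natCast_atTop_atTop.mono_left h𝒰
  choose! f hf using fun z => lim_int hB h𝒰 hk.1 hV hMod (z := z)
  have hd := lim_holo hB h𝒰 hCR hk hf
  have hb : ∀ z ∈ interior P.cl, ‖f z‖ ≤ 1 := fun z hz => le_of_tendsto ((hf z hz).tendsto
    (tendsto_flr hm z)).norm ((FF_bound hB h𝒰 hk.1 hV).mono fun _ h => h _)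
  have h1 := fun j hj θ hθ => lim_bdry hB h𝒰 hk.1 hV hMod hNor hCor hf hd hb (j := j) hj (θ := θ) hθ
  have h2 : ∀ z ∈ P.cl, ∃ y, Tendsto f (𝓝[interior P.cl] z) (𝓝 y) := fun z hz => by
    by_cases h : z ∈ interior P.cl
    · exact ⟨_, hd.continuousOn z h⟩
    · obtain ⟨j, hj, θ, hθ, rfl⟩ := bd_char P hz h
      exact (h1 j hj θ hθ).imp fun _ h => h.1
  have h3 := extendFrom_extends hd.continuousOn
  refine ⟨extendFrom (interior P.cl) f, continuousOn_extendFrom (cl_sub P) h2, hd.congr h3,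
    fun z hz => ?_, fun z hz => (h3 z hz).symm ▸ hf z hz, fun m => extendFrom_eq
      (cl_sub P (sg_zero P _ ▸ (sg_mem P _ ⟨le_rfl, zero_le_one⟩).1)) ((lim_mark hB h𝒰 hk.1 hCor
        m).bdry hm isOpen_interior interior_subset continuous_id hf), fun j hj θ hθ => ?_⟩
  · have := mem_closure_iff_nhdsWithin_neBot.1 (cl_sub P hz)
    exact le_of_tendsto (tendsto_extendFrom (h2 z hz)).norm (eventually_mem_nhdsWithin.mono hb)
  · obtain ⟨y, h4, h5⟩ := h1 j hj θ hθ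
    rwa [extendFrom_eq (cl_sub P (sg_mem P j hθ).1) h4]

omit hk in
theorem im_tendsto {j : ℕ} (hj : j < k₁) {θ t : ℝ} (hθ : θ ∈ Icc (0 : ℝ) 1)
    (h : BL 𝒰 (↑) (FF P' k₁ k₂) P.cl (fun a => (a / ζ ^ (2 * arc k₁ k₂ j)).im) (sg P j θ) t) :
    Tendsto (fun M => (FF P' k₁ k₂ M ((P' M).c (M * j + ⌊θ * M⌋₊))).im) 𝒰 (𝓝 t) := by
  have ev : ∀ᶠ M : ℕ in 𝒰, pt M ((P' M).c (M * j + ⌊θ * M⌋₊)) = sg P j (⌊θ * M⌋₊ / M) ∧
      (⌊θ * M⌋₊ / M : ℝ) ∈ Icc (0 : ℝ) 1 := h𝒰 ((eventually_gt_atTop 0).mono fun M hM =>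
    pt_blow (hB M hM) hM j (Nat.floor_le_of_le (mul_le_of_le_one_left M.cast_nonneg hθ.2)))
  simpa [arc, hj] using h.tendsto ((((show Continuous (sg P j) by unfold sg; fun_prop).tendsto
    θ).comp ((tendsto_nat_floor_mul_div_atTop hθ.1).comp (tendsto_natCast_atTop_atTop.mono_left
      h𝒰))).congr' (ev.mono fun M h => h.1.symm)) (ev.mono fun M h => h.1 ▸ (sg_mem P j h.2).1)

end Pool.Agent.P.MP_6c8efb_pr.Cardy.Lim

namespace Pool.Agent.P.MP_6c8efb_pr.Cardy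

open Lim

theorem s_Lim (hCR : S_CR) (hV : S_Val) (hMod : S_Mod) (hNor : S_Nor) (hCor : S_Cor) : S_Lim := by
  intro P k₁ k₂ hk P' hB 𝒰 h𝒰
  obtain ⟨f, h1, h2, h3, h4, h5, h6⟩ := lim_main hB h𝒰 hCR hV hMod hNor hCor hk
  refine ⟨f, h1, h2, h3, fun i hi θ hθ => (h6 i hi θ hθ).1, h5 0, (h5 1).trans ?_, (h5 2).trans ?_,
    fun z hz => (h4 z hz).tendsto (tendsto_flr (tendsto_natCast_atTop_atTop.mono_left h𝒰) z),
    fun s hs => ?_⟩
  · exact (by linear_combination ζ * zeta_six : ζ ^ 7 = ζ)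
  · exact (by linear_combination ζ ^ 3 * zeta_six : ζ ^ 9 = ζ ^ 3)
  obtain ⟨⟨k0, k1, k2⟩, -⟩ := hk
  rcases s with _ | s
  · simpa [arc, k0, sg_zero] using im_tendsto hB h𝒰 k0 ⟨le_rfl, zero_le_one⟩
      (h6 0 P.pos 0 ⟨le_rfl, zero_le_one⟩).2
  · simpa [arc, show s < k₁ from hs, sg_one, mul_add] using im_tendsto hB h𝒰 hs ⟨zero_le_one, le_rfl⟩
      (h6 s (by omega) 1 ⟨zero_le_one, le_rfl⟩).2

end Pool.Agent.P.MP_6c8efb_pr.Cardy
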