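import Mathlib

/-! Uniform limits of almost discrete holomorphic functions are holomorphic; lines are removable
for continuous functions. -/

open Complex Set Metric Filter Topology

namespace Pool.Agent.P.MP_6c8efb_pr.Cardy

/-- the integral over the boundary of a rectangle -/
noncomputable def bi (f : ℂ → ℂ) (a b c d : ℝ) : ℂ :=
  (∫ x : ℝ in a..b, f (x + c * I)) - (∫ x : ℝ in a..b, f (x + d * I)) +
    I * (∫ y : ℝ in c..d, f (b + y * I)) - I * ∫ y : ℝ in c..d, f (a + y * I)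

theorem bi_cont {f : ℂ → ℂ} (hf : Continuous f) :
    Continuous fun p : (ℝ × ℝ) × ℝ × ℝ => bi f p.1.1 p.1.2 p.2.1 p.2.2 := by
  have key : ∀ g : ℝ → ℝ → ℂ, Continuous g.uncurry →
      Continuous fun p : ℝ × ℝ × ℝ => ∫ t in p.2.1..p.2.2, g p.1 t := fun g hg => by
    have h := intervalIntegral.continuous_parametric_primitive_of_continuous
      (μ := MeasureTheory.volume) (a₀ := 0) hg
    have h1 : ∀ s, Continuous (g s) := fun s => hg.comp (Continuous.prodMk_right s)
    refine ((h.comp (f := fun p : ℝ × ℝ × ℝ => (p.1, p.2.2)) (by fun_prop)).sub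
      (h.comp (f := fun p : ℝ × ℝ × ℝ => (p.1, p.2.1)) (by fun_prop))).congr fun p => ?_
    exact intervalIntegral.integral_interval_sub_left ((h1 _).intervalIntegrable ..)
      ((h1 _).intervalIntegrable ..)
  have h1 := key (fun c x => f (x + c * I)) (by unfold Function.uncurry; fun_prop)
  have h2 := key (fun b y => f (b + y * I)) (by unfold Function.uncurry; fun_prop)
  exact (((h1.comp (f := fun p : (ℝ × ℝ) × ℝ × ℝ => (p.2.1, p.1)) (by fun_prop)).sub
    (h1.comp (f := fun p : (ℝ × ℝ) × ℝ × ℝ => (p.2.2, p.1)) (by fun_prop))).add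
    (continuous_const.mul (h2.comp (f := fun p : (ℝ × ℝ) × ℝ × ℝ => (p.1.2, p.2)) (by fun_prop)))).sub
    (continuous_const.mul (h2.comp (f := fun p : (ℝ × ℝ) × ℝ × ℝ => (p.1.1, p.2)) (by fun_prop)))

/-- Morera's theorem, localised -/
theorem morera_loc {f : ℂ → ℂ} {U : Set ℂ} (hU : IsOpen U) (hf : ContinuousOn f U)
    (H : ∀ z ∈ U, ∃ r > 0, ∀ a b c d : ℝ, a ≤ b → c ≤ d → Icc a b ×ℂ Icc c d ⊆ ball z r ∩ U →
      bi f a b c d = 0) : DifferentiableOn ℂ f U := fun z hz => by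
  obtain ⟨r, hr, h⟩ := H z hz
  have ho := isOpen_ball.inter hU (s := ball z r)
  refine (((isConservativeOn_and_continuousOn_iff_isDifferentiableOn ho).1
    ⟨fun p q hpq => ?_, hf.mono inter_subset_right⟩).differentiableAt
    (ho.mem_nhds ⟨mem_ball_self hr, hz⟩)).differentiableWithinAt
  rw [← add_eq_zero_iff_eq_neg, wedgeIntegral_add_wedgeIntegral_eq]
  have h1 := h _ _ _ _ min_le_max min_le_max hpq
  rcases le_total p.re q.re with h2 | h2 <;> rcases le_total p.im q.im with h3 | h3 <;>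
    simp only [h2, h3, bi, min_eq_left, min_eq_right, max_eq_left, max_eq_right, smul_eq_mul] at h1 ⊢
  · exact h1
  · rw [intervalIntegral.integral_symm q.im p.im, intervalIntegral.integral_symm q.im p.im]
    linear_combination -h1
  · rw [intervalIntegral.integral_symm q.re p.re, intervalIntegral.integral_symm q.re p.re]
    linear_combination -h1
  · rw [intervalIntegral.integral_symm q.im p.im, intervalIntegral.integral_symm q.im p.im,
      intervalIntegral.integral_symm q.re p.re, intervalIntegral.integral_symm q.re p.re]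
    linear_combination h1

theorem diff_rows {f : ℂ → ℂ} {U : Set ℂ} (hU : IsOpen U) (hf : ContinuousOn f U)
    (hd : ∀ z ∈ U, (∀ n : ℤ, z.im ≠ n) → DifferentiableAt ℂ f z) : DifferentiableOn ℂ f U := by
  refine morera_loc hU hf fun z hz => ?_
  obtain ⟨r, hr, h⟩ : ∃ r > 0, ∀ y : ℝ, |y - z.im| < r → y ≠ z.im → ∀ n : ℤ, y ≠ n := by
    obtain ⟨r, hr, h⟩ := Metric.isOpen_iff.1 (isOpen_Ioo (a := (⌈z.im⌉ - 1 : ℝ)) (b := ⌊z.im⌋ + 1))
      z.im ⟨by linarith [Int.ceil_lt_add_one z.im], Int.lt_floor_add_one _⟩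
    refine ⟨r, hr, fun y hy h1 n e => h1 ?_⟩
    obtain ⟨h2, h3⟩ := h (show y ∈ ball z.im r from hy)
    have h4 : ⌈z.im⌉ - 1 < n := by exact_mod_cast e ▸ h2
    have h5 : n < ⌊z.im⌋ + 1 := by exact_mod_cast e ▸ h3
    linarith [Int.ceil_le.1 (show ⌈z.im⌉ ≤ n by omega), Int.le_floor.1 (show n ≤ ⌊z.im⌋ by omega)]
  have key : ∀ a b c d : ℝ, a ≤ b → c ≤ d → Icc a b ×ℂ Icc c d ⊆ ball z r ∩ U →
      z.im ≤ c ∨ d ≤ z.im → bi f a b c d = 0 := fun a b c d hab hcd hs h1 => by
    refine integral_boundary_rect_eq_zero_of_continuousOn_of_differentiableOn f ⟨a, c⟩ ⟨b, d⟩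
      (hf.mono ?_) fun w hw => ?_
    · simp only [uIcc_of_le hab, uIcc_of_le hcd]
      exact hs.trans inter_subset_right
    · simp only [min_eq_left hab, min_eq_left hcd, max_eq_right hab, max_eq_right hcd] at hw
      have h2 := hs (show w ∈ _ from ⟨Ioo_subset_Icc_self hw.1, Ioo_subset_Icc_self hw.2⟩)
      refine (hd w h2.2 (h _ ((abs_im_le_norm (w - z)).trans_lt (mem_ball_iff_norm.1 h2.1))
        fun e => ?_)).differentiableWithinAt
      rcases h1 with h1 | h1 <;> linarith [hw.2.1, hw.2.2]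
  refine ⟨r, hr, fun a b c d hab hcd hs => ?_⟩
  rcases le_total z.im c with h1 | h1
  · exact key a b c d hab hcd hs (Or.inl h1)
  rcases le_total d z.im with h2 | h2
  · exact key a b c d hab hcd hs (Or.inr h2)
  have h3 := key a b c z.im hab h1 (fun w hw => hs ⟨hw.1, hw.2.1, hw.2.2.trans h2⟩) (Or.inr le_rfl)
  have h4 := key a b z.im d hab h2 (fun w hw => hs ⟨hw.1, h1.trans hw.2.1, hw.2.2⟩) (Or.inl le_rfl)
  have hi : ∀ x ∈ Icc a b, ∀ s ∈ Icc c d, ∀ t ∈ Icc c d,
      IntervalIntegrable (fun y : ℝ => f (x + y * I)) MeasureTheory.volume s t := fun x hx s h5 t h6 =>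
    (hf.comp (f := fun y : ℝ => (x + y * I : ℂ)) (by fun_prop) fun y hy => (hs (mem_reProdIm.2
      ⟨by simpa using hx, by simpa using uIcc_subset_Icc h5 h6 hy⟩)).2).intervalIntegrable
  have h5 : ∀ x ∈ Icc a b, _ := fun x hx => intervalIntegral.integral_add_adjacent_intervals
    (hi x hx c ⟨le_rfl, hcd⟩ z.im ⟨h1, h2⟩) (hi x hx z.im ⟨h1, h2⟩ d ⟨hcd, le_rfl⟩)
  simp only [bi, ← h5 a ⟨le_rfl, hab⟩, ← h5 b ⟨hab, le_rfl⟩] at h3 h4 ⊢
  linear_combination h3 + h4

/-- the lines of the unit grid are removable -/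
theorem diff_grid {f : ℂ → ℂ} {U : Set ℂ} (hU : IsOpen U) (hf : ContinuousOn f U)
    (hd : ∀ z ∈ U, (∀ n : ℤ, z.re ≠ n) → (∀ n : ℤ, z.im ≠ n) → DifferentiableAt ℂ f z) :
    DifferentiableOn ℂ f U := by
  have ho : IsOpen (U ∩ {z : ℂ | ∀ n : ℤ, z.re ≠ n}) := hU.inter (by
    have := Int.isClosedEmbedding_coe_real.isClosed_range.isOpen_compl.preimage continuous_re
    convert this using 1
    ext z
    simp [eq_comm])
  have h1 := diff_rows ho (hf.mono inter_subset_left) fun z hz => hd z hz.1 hz.2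
  have h2 := diff_rows (f := fun z => f (-I * z)) (hU.preimage (f := fun z => -I * z) (by fun_prop))
    (hf.comp (by fun_prop) fun z hz => hz) fun z hz hn =>
      (h1.differentiableAt (ho.mem_nhds ⟨hz, by simpa using hn⟩)).comp z (by fun_prop)
  have e : ∀ z, -I * (I * z) = z := fun z => by linear_combination -z * I_mul_I
  simpa only [Function.comp_def, e] using h2.comp (f := fun z => I * z) (s := U) (by fun_prop)
    fun z hz => by simpa only [mem_preimage, e] using hz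

theorem riem {g : ℝ → ℂ} (hg : Continuous g) {s : ℕ → ℂ} {h ε a : ℝ} (hh : 0 ≤ h) (J : ℕ)
    (H : ∀ j < J, ∀ x ∈ Icc (a + j * h) (a + (j + 1) * h), ‖g x - s j‖ ≤ ε) :
    ‖(∫ x in a..a + J * h, g x) - h * ∑ j ∈ Finset.range J, s j‖ ≤ J * h * ε := by
  induction J with
  | zero => simp
  | succ J ih =>
    have h1 := intervalIntegral.norm_integral_le_of_norm_le_const (a := a + J * h)
      (b := a + (J + 1) * h) (f := fun x => g x - s J) (C := ε) fun x hx => H J J.lt_succ_self x (by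
        rw [uIoc_of_le (by linarith)] at hx
        exact Ioc_subset_Icc_self hx)
    rw [intervalIntegral.integral_sub (hg.intervalIntegrable ..) intervalIntegrable_const,
      intervalIntegral.integral_const, show a + (J + 1) * h - (a + J * h) = h by ring,
      abs_of_nonneg hh, real_smul] at h1
    push_cast
    rw [Finset.sum_range_succ, ← intervalIntegral.integral_add_adjacent_intervals (b := a + J * h)
      (hg.intervalIntegrable ..) (hg.intervalIntegrable ..), mul_add, add_sub_add_comm]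
    linarith [norm_add_le_of_le (ih fun j hj => H j (by omega)) h1]

/-- the discrete Cauchy-Riemann defect -/
def dcr (F : ℤ × ℤ → ℂ) (x : ℤ × ℤ) : ℂ :=
  F (x.1, x.2 + 1) - F (x.1, x.2 - 1) - I * (F (x.1 + 1, x.2) - F (x.1 - 1, x.2))

theorem bi_lat {f : ℂ → ℂ} (hf : Continuous f) {F : ℤ × ℤ → ℂ} {h η : ℝ} (hh : 0 < h) (p q : ℤ)
    (J L : ℕ) (hA : ∀ (x : ℤ × ℤ) (z : ℂ), z ∈ Icc (p * h) (p * h + J * h) ×ℂ Icc (q * h) (q * h + L * h) →
      |z.re - x.1 * h| ≤ h → |z.im - x.2 * h| ≤ h → ‖f z - F x‖ ≤ η)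
    (hB : ∀ j < J, ∀ l < L, ‖dcr F (p + j, q + l)‖ ≤ η * h) :
    ‖bi f (p * h) (p * h + J * h) (q * h) (q * h + L * h)‖ ≤
      (2 * (J * h) + 2 * (L * h) + J * h * (L * h)) * η := by
  have tel : ∀ (G : ℤ → ℂ) (q : ℤ) (L : ℕ), ∑ l ∈ Finset.range L, (G (q + l + 1) - G (q + l - 1)) =
      G (q + L) + G (q + L - 1) - (G q + G (q - 1)) := fun G q L => by
    induction L with
    | zero => simp
    | succ L ih =>
      rw [Finset.sum_range_succ, ih]
      push_cast
      rw [← add_assoc, add_sub_cancel_right]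
      ring
  have av : ∀ a b c : ℂ, ‖a - b‖ ≤ η → ‖a - c‖ ≤ η → ‖a - (b + c) / 2‖ ≤ η := fun a b c h1 h2 => by
    rw [show a - (b + c) / 2 = (a - b + (a - c)) / 2 by ring, norm_div, norm_ofNat]
    linarith [norm_add_le (a - b) (a - c)]
  have hJ : 0 ≤ J * h := by positivity
  have hL : 0 ≤ L * h := by positivity
  have sub : ∀ (p : ℤ) (J : ℕ), ∀ j < J, ∀ x ∈ Icc (p * h + j * h) (p * h + (j + 1) * h),
      x ∈ Icc (p * h) (p * h + J * h) ∧ |x - (p + j : ℤ) * h| ≤ h := fun p J j hj x hx => by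
    have h1 : (j : ℝ) + 1 ≤ J := by exact_mod_cast hj
    have h2 : 0 ≤ j * h := by positivity
    push_cast
    exact ⟨⟨by linarith [hx.1], by nlinarith [hx.2]⟩, abs_le.2 ⟨by linarith [hx.1], by linarith [hx.2]⟩⟩
  have two : ∀ k : ℤ, |k * h - k * h| ≤ h ∧ |k * h - (k - 1 : ℤ) * h| ≤ h := fun k => by
    push_cast
    constructor <;> rw [abs_le] <;> constructor <;> linarith
  have hor : ∀ k : ℤ, (k * h : ℝ) ∈ Icc (q * h) (q * h + L * h) →
      ‖(∫ x : ℝ in p * h..p * h + J * h, f (x + (k * h : ℝ) * I)) -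
        h * ∑ j ∈ Finset.range J, (F (p + j, k) + F (p + j, k - 1)) / 2‖ ≤ J * h * η := fun k hk =>
    riem (by fun_prop) hh.le J fun j hj x hx => by
      obtain ⟨h1, h2⟩ := sub p J j hj x hx
      refine av _ _ _ (hA _ _ (mem_reProdIm.2 ⟨?_, ?_⟩) ?_ ?_)
        (hA _ _ (mem_reProdIm.2 ⟨?_, ?_⟩) ?_ ?_) <;>
        simp only [add_re, add_im, ofReal_re, ofReal_im, re_ofReal_mul, im_ofReal_mul, I_re, I_im,
          mul_zero, mul_one, add_zero, zero_add, h1, h2, hk, two k]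
  have ver : ∀ k : ℤ, (k * h : ℝ) ∈ Icc (p * h) (p * h + J * h) →
      ‖I * ((∫ y : ℝ in q * h..q * h + L * h, f ((k * h : ℝ) + y * I)) -
        h * ∑ l ∈ Finset.range L, (F (k, q + l) + F (k - 1, q + l)) / 2)‖ ≤ L * h * η := fun k hk => by
    rw [norm_mul, norm_I, one_mul]
    refine riem (by fun_prop) hh.le L fun j hj x hx => ?_
    obtain ⟨h1, h2⟩ := sub q L j hj x hx
    refine av _ _ _ (hA _ _ (mem_reProdIm.2 ⟨?_, ?_⟩) ?_ ?_)
      (hA _ _ (mem_reProdIm.2 ⟨?_, ?_⟩) ?_ ?_) <;>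
      simp only [add_re, add_im, ofReal_re, ofReal_im, re_ofReal_mul, im_ofReal_mul, I_re, I_im,
        mul_zero, mul_one, add_zero, zero_add, h1, h2, hk, two k]
  have e1 : ((q + L : ℤ) * h : ℝ) = q * h + L * h := by push_cast; ring
  have e2 : ((p + J : ℤ) * h : ℝ) = p * h + J * h := by push_cast; ring
  have h1 := hor q ⟨le_rfl, by linarith⟩
  have h2 := hor (q + L) ⟨by linarith, e1.le⟩
  have h3 := ver (p + J) ⟨by linarith, e2.le⟩
  have h4 := ver p ⟨le_rfl, by linarith⟩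
  rw [e1] at h2
  rw [e2] at h3
  have h5 : ‖(h / 2 : ℝ) * ∑ j ∈ Finset.range J, ∑ l ∈ Finset.range L, dcr F (p + j, q + l)‖ ≤
      J * h * (L * h) * η / 2 := by
    have := norm_sum_le_of_le (Finset.range J) fun j hj => norm_sum_le_of_le (Finset.range L)
      fun l hl => hB j (Finset.mem_range.1 hj) l (Finset.mem_range.1 hl)
    simp only [Finset.sum_const, Finset.card_range, nsmul_eq_mul] at this
    rw [norm_mul, norm_real, Real.norm_of_nonneg (by positivity)]
    nlinarith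
  have h6 : ∑ j ∈ Finset.range J, ∑ l ∈ Finset.range L, dcr F (p + j, q + l) =
      ∑ j ∈ Finset.range J, (F (p + j, q + L) + F (p + j, q + L - 1) - (F (p + j, q) + F (p + j, q - 1)))
      - I * ∑ l ∈ Finset.range L,
        (F (p + J, q + l) + F (p + J - 1, q + l) - (F (p, q + l) + F (p - 1, q + l))) := by
    simp only [dcr]
    rw [Finset.sum_congr rfl fun j _ => Finset.sum_sub_distrib .., Finset.sum_sub_distrib,
      Finset.sum_congr rfl fun (j : ℕ) _ => tel (fun k => F (p + j, k)) q L, Finset.sum_comm,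
      Finset.mul_sum]
    congr 1
    exact Finset.sum_congr rfl fun l _ => by
      rw [← Finset.mul_sum, tel (fun k => F (k, q + l)) p J]
  have h7 : 0 ≤ η := (norm_nonneg _).trans (hA (p, q) ⟨p * h, q * h⟩
    ⟨⟨le_rfl, by simpa⟩, le_rfl, by simpa⟩ (two p).1 (two q).1)
  refine le_trans (le_of_eq ?_) ((norm_sub_le_of_le (norm_sub_le_of_le (norm_add_le_of_le
    (norm_sub_le_of_le h1 h2) h3) h4) h5).trans (by nlinarith [mul_nonneg (mul_nonneg hJ hL) h7]))
  congr 1
  simp only [h6, bi, Finset.sum_sub_distrib, ← Finset.sum_div]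
  push_cast
  ring

/-- a continuous function that is approximated by lattice functions whose Cauchy-Riemann defect is
small with respect to the mesh is holomorphic -/
theorem morera_disc {f : ℂ → ℂ} {U : Set ℂ} (hU : IsOpen U) (hf : ContinuousOn f U)
    (H : ∀ z ∈ U, ∃ r > 0, ∀ ε > 0, ∃ (h : ℝ) (F : ℤ × ℤ → ℂ), 0 < h ∧ h ≤ ε ∧
      ∀ x : ℤ × ℤ, (⟨x.1 * h, x.2 * h⟩ : ℂ) ∈ ball z r →
        ‖f ⟨x.1 * h, x.2 * h⟩ - F x‖ ≤ ε ∧ ‖dcr F x‖ ≤ ε * h) : DifferentiableOn ℂ f U := by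
  refine morera_loc hU hf fun z hz => ?_
  obtain ⟨r1, hr1, H⟩ := H z hz
  obtain ⟨r2, hr2, hb⟩ := nhds_basis_closedBall.mem_iff.1 (hU.mem_nhds hz)
  obtain ⟨g, hg⟩ := ContinuousMap.exists_restrict_eq (isClosed_closedBall (x := z) (ε := r2))
    ⟨_, (hf.mono hb).domRestrict⟩
  have hgf : ∀ w ∈ closedBall z r2, g w = f w := fun w hw => DFunLike.congr_fun hg ⟨w, hw⟩
  set r := min r1 r2
  have hr : 0 < r := lt_min hr1 hr2
  refine ⟨r / 2, half_pos hr, fun a b c d hab hcd hs => ?_⟩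
  have hs' : ∀ w ∈ Icc a b ×ℂ Icc c d, ‖w - z‖ < r / 2 := fun w hw => mem_ball_iff_norm.1 (hs hw).1
  have e : ∀ x ∈ Icc a b, ∀ y ∈ Icc c d, f (x + y * I) = g (x + y * I) := fun x hx y hy =>
    (hgf _ (mem_closedBall_iff_norm.2 (by
      linarith [hs' (x + y * I) ⟨by simpa using hx, by simpa using hy⟩, min_le_right r1 r2]))).symm
  have e1 : ∀ y ∈ Icc c d, ∫ x : ℝ in a..b, f (x + y * I) = ∫ x : ℝ in a..b, g (x + y * I) :=
    fun y hy => intervalIntegral.integral_congr fun x hx => e x (uIcc_of_le hab ▸ hx) y hy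
  have e2 : ∀ x ∈ Icc a b, ∫ y : ℝ in c..d, f (x + y * I) = ∫ y : ℝ in c..d, g (x + y * I) :=
    fun x hx => intervalIntegral.integral_congr fun y hy => e x hx y (uIcc_of_le hcd ▸ hy)
  rw [bi, e1 c ⟨le_rfl, hcd⟩, e1 d ⟨hcd, le_rfl⟩, e2 a ⟨le_rfl, hab⟩, e2 b ⟨hab, le_rfl⟩, ← bi,
    ← norm_le_zero_iff]
  set C := 2 * (b - a + 1) + 2 * (d - c + 1) + (b - a + 1) * (d - c + 1)
  have hC : 0 < C := by
    have h1 := sub_nonneg.2 hab
    have h2 := sub_nonneg.2 hcd
    positivity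
  refine le_of_forall_pos_le_add fun ε hε => ?_
  obtain ⟨δ1, hδ1, h1⟩ := Metric.continuous_iff.1 (bi_cont g.continuous) ((a, b), c, d) _ (half_pos hε)
  obtain ⟨δ2, hδ2, h2⟩ := Metric.uniformContinuousOn_iff_le.1
    ((isCompact_closedBall z r).uniformContinuousOn_of_continuous g.continuous.continuousOn)
    (ε / 4 / C) (by positivity)
  obtain ⟨h, F, h0, h3, h4⟩ := H (min (min (δ1 / 2) (δ2 / 2)) (min (min (r / 9) 1) (ε / 4 / C)))
    (by positivity)
  simp only [le_min_iff] at h3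
  obtain ⟨⟨h5, h6⟩, ⟨h7, h8⟩, -⟩ := h3
  have fl : ∀ t : ℝ, t - h < ⌊t / h⌋ * h ∧ ⌊t / h⌋ * h ≤ t := fun t =>
    ⟨by have := (div_lt_iff₀ h0).1 (Int.lt_floor_add_one (t / h)); linarith,
      (le_div_iff₀ h0).1 (Int.floor_le _)⟩
  obtain ⟨J, hJ⟩ := Int.le.dest (Int.floor_le_floor (div_le_div_of_nonneg_right hab h0.le))
  obtain ⟨L, hL⟩ := Int.le.dest (Int.floor_le_floor (div_le_div_of_nonneg_right hcd h0.le))
  have hJ' : (⌊b / h⌋ * h : ℝ) = ⌊a / h⌋ * h + J * h := by rw [← hJ]; push_cast; ring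
  have hL' : (⌊d / h⌋ * h : ℝ) = ⌊c / h⌋ * h + L * h := by rw [← hL]; push_cast; ring
  obtain ⟨a1, a2⟩ := fl a
  obtain ⟨b1, b2⟩ := fl b
  obtain ⟨c1, c2⟩ := fl c
  obtain ⟨d1, d2⟩ := fl d
  rw [hJ'] at b1 b2
  rw [hL'] at d1 d2
  have near : ∀ w : ℂ, a - 2 * h ≤ w.re → w.re ≤ b + 2 * h → c - 2 * h ≤ w.im → w.im ≤ d + 2 * h →
      ‖w - z‖ < r := fun w k1 k2 k3 k4 => by
    have k5 := hs' ⟨max a (min w.re b), max c (min w.im d)⟩
      ⟨⟨le_max_left .., max_le hab (min_le_right ..)⟩, le_max_left .., max_le hcd (min_le_right ..)⟩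
    have k6 := norm_sub_le_norm_sub_add_norm_sub w ⟨max a (min w.re b), max c (min w.im d)⟩ z
    have k7 := norm_le_abs_re_add_abs_im (w - ⟨max a (min w.re b), max c (min w.im d)⟩)
    have k8 : ∀ a b t : ℝ, a ≤ b → a - 2 * h ≤ t → t ≤ b + 2 * h → |t - max a (min t b)| ≤ 2 * h :=
      fun a b t _ _ _ => by
        rcases le_total t b with k | k <;> rcases le_total a t with k' | k' <;>
          simp only [min_eq_left, min_eq_right, max_eq_left, max_eq_right, *] <;> rw [abs_le] <;>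
          constructor <;> linarith
    simp only [sub_re, sub_im] at k7
    linarith [k8 a b w.re hab k1 k2, k8 c d w.im hcd k3 k4]
  have h9 := bi_lat g.continuous (F := F) (η := ε / 2 / C) h0 ⌊a / h⌋ ⌊c / h⌋ J L
    (fun x w hw k1 k2 => by
      obtain ⟨k3, k4⟩ := abs_le.1 k1
      obtain ⟨k5, k6⟩ := abs_le.1 k2
      have k7 := near ⟨x.1 * h, x.2 * h⟩ (by linarith [hw.1.1]) (by linarith [hw.1.2])
        (by linarith [hw.2.1]) (by linarith [hw.2.2])
      have k8 := (h4 x (mem_ball_iff_norm.2 (k7.trans_le (min_le_left ..)))).1.trans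
        ((min_le_right ..).trans (min_le_right ..))
      rw [← hgf _ (mem_closedBall_iff_norm.2 (k7.le.trans (min_le_right ..)))] at k8
      have k9 := h2 w (mem_closedBall_iff_norm.2 (near w (by linarith [hw.1.1])
        (by linarith [hw.1.2]) (by linarith [hw.2.1]) (by linarith [hw.2.2])).le) _
        (mem_closedBall_iff_norm.2 k7.le) (by
          rw [dist_eq_norm]
          exact (norm_le_abs_re_add_abs_im _).trans (by simp only [sub_re, sub_im]; linarith))
      rw [dist_eq_norm] at k9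
      refine (norm_sub_le_norm_sub_add_norm_sub _ _ _).trans ((add_le_add k9 k8).trans_eq ?_)
      ring)
    fun j hj l hl => by
      have k1 : (j : ℝ) ≤ J := by exact_mod_cast hj.le
      have k2 : (l : ℝ) ≤ L := by exact_mod_cast hl.le
      have k3 : 0 ≤ j * h := by positivity
      have k4 : 0 ≤ l * h := by positivity
      refine (h4 _ (mem_ball_iff_norm.2 ((near _ ?_ ?_ ?_ ?_).trans_le (min_le_left ..)))).2.trans ?_
      · push_cast; linarith
      · push_cast; nlinarith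
      · push_cast; linarith
      · push_cast; nlinarith
      · gcongr
        exact (min_le_right ..).trans ((min_le_right ..).trans (by gcongr; norm_num))
  have h10 := h1 ((⌊a / h⌋ * h, ⌊a / h⌋ * h + J * h), ⌊c / h⌋ * h, ⌊c / h⌋ * h + L * h) (by
    simp only [Prod.dist_eq, Real.dist_eq, max_lt_iff, abs_lt]
    refine ⟨⟨⟨?_, ?_⟩, ?_, ?_⟩, ⟨?_, ?_⟩, ?_, ?_⟩ <;> linarith)
  rw [dist_comm, dist_eq_norm] at h10
  have h11 : 2 * (J * h) + 2 * (L * h) + J * h * (L * h) ≤ C := by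
    have k1 : J * h ≤ b - a + 1 := by linarith
    have k2 : L * h ≤ d - c + 1 := by linarith
    have k3 := mul_le_mul k1 k2 (by positivity) (by linarith)
    simp only [C]
    linarith
  have h12 := h9.trans (mul_le_mul_of_nonneg_right h11 (by positivity))
  rw [mul_div_cancel₀ _ hC.ne'] at h12
  linarith [norm_le_norm_add_norm_sub' (bi g a b c d) (bi g (⌊a / h⌋ * h) (⌊a / h⌋ * h + J * h)
    (⌊c / h⌋ * h) (⌊c / h⌋ * h + L * h))]

end Pool.Agent.P.MP_6c8efb_pr.Cardy
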