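import Pool.Agent.P.MP_6c8efb_pr.Cardy.Hopf

/-! Simple closed paths of king moves make one full turn. -/

namespace Pool.Agent.P.MP_6c8efb_pr.Cardy.K

/-- `l` is a walk from `p` to `q` whose angles vary slowly from `a` to `b` -/
def KP : V → ℤ → List KS → V → ℤ → Prop
  | p, a, [], q, b => p = q ∧ a = b
  | p, a, s :: l, q, b => s.1 = p ∧ Kok s ∧ |s.2 - a| ≤ 3 ∧ KP (kh s) s.2 l q b

variable {p q r : V} {a b c T : ℤ} {l l' : List KS} {s : KS}

@[simp] theorem kp_nil : KP p a [] q b ↔ p = q ∧ a = b := Iff.rfl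
@[simp] theorem kp_cons : KP p a (s :: l) q b ↔
    s.1 = p ∧ Kok s ∧ |s.2 - a| ≤ 3 ∧ KP (kh s) s.2 l q b := Iff.rfl

theorem kp_append : KP p a (l ++ l') r c ↔ ∃ q b, KP p a l q b ∧ KP q b l' r c := by
  induction l generalizing p a with
  | nil => simp [and_assoc]
  | cons x l ih => simp [ih, and_assoc]

theorem KP.append (h : KP p a l q b) (h' : KP q b l' r c) : KP p a (l ++ l') r c :=
  kp_append.2 ⟨_, _, h, h'⟩

theorem kp_snoc : KP p a (l ++ [s]) r c ↔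
    ∃ b, KP p a l s.1 b ∧ Kok s ∧ |s.2 - b| ≤ 3 ∧ kh s = r ∧ s.2 = c := by
  rw [kp_append]
  exact ⟨fun ⟨_, b, h1, h2, h3⟩ => ⟨b, h2 ▸ h1, h3⟩, fun ⟨b, h1, h2⟩ => ⟨_, b, h1, rfl, h2⟩⟩

theorem KP.kw (h : KP p a l q b) : KW p l q := by
  induction l generalizing p a with
  | nil => exact h.1
  | cons x l ih => exact ⟨h.1, h.2.1, ih h.2.2.2⟩

theorem KP.sm (h : KP p a (s :: l) q b) : Sm (s :: l) := by
  induction l generalizing p a s with
  | nil => exact List.isChain_singleton _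
  | cons x l ih => exact List.isChain_cons_cons.2 ⟨h.2.2.2.2.2.1, ih h.2.2.2⟩

theorem hopf' (h : KP p a (s :: l) q b) (hn : (q :: (s :: l).map Prod.fst).Nodup) :
    (b + 2) / 8 - (s.2 + 1) / 8 =
      kfr (p.2 - 1) (2 * p.1) (s :: l) - kfl q.2 (2 * q.1) (s :: l) := by
  obtain ⟨m, c, hm⟩ := (List.eq_nil_or_concat' (s :: l)).resolve_left (by simp)
  have := hopf s l c ⟨m, hm⟩ h.kw hn h.sm
  rw [hm] at h
  obtain ⟨_, -, -, -, -, rfl⟩ := kp_snoc.1 h
  exact this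

theorem kh_shift (hT : T % 8 = 0) (s : KS) : kh (s.1, s.2 + T) = kh s := by
  have h1 := k8 s.2
  have h2 := k8 (s.2 + T)
  simp only [kh, Prod.mk.injEq]
  omega

theorem KP.shift (hT : T % 8 = 0) (h : KP p a l q b) :
    KP p (a + T) (l.map fun s => (s.1, s.2 + T)) q (b + T) := by
  induction l generalizing p a with
  | nil => exact ⟨h.1, by rw [h.2]⟩
  | cons x l ih =>
    refine ⟨h.1, fun e => h.2.1 (by simp only at e; omega), by simpa using h.2.2.1, ?_⟩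
    rw [kh_shift hT]
    exact ih h.2.2.2

/-- the walk given by a sequence of points and angles -/
theorem kp_range (x : ℕ → V) (α : ℕ → ℤ) (n : ℕ) (h0 : |α 0 - a| ≤ 3)
    (h : ∀ k ≤ n, Kok (x k, α k) ∧ kh (x k, α k) = x (k + 1))
    (h' : ∀ k < n, |α (k + 1) - α k| ≤ 3) :
    KP (x 0) a ((List.range (n + 1)).map fun k => (x k, α k)) (x (n + 1)) (α n) := by
  induction n with
  | zero => exact ⟨rfl, (h 0 le_rfl).1, h0, (h 0 le_rfl).2, rfl⟩
  | succ n ih =>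
    rw [List.range_succ, List.map_append, List.map_singleton, kp_snoc]
    exact ⟨_, ih (fun k hk => h k (by omega)) fun k hk => h' k (by omega), (h _ le_rfl).1,
      h' n (by omega), (h _ le_rfl).2, rfl⟩

/-- `z` comes before `p` in the lexicographic order -/
def Ext (p z : V) : Prop := z.2 < p.2 ∨ (z.2 = p.2 ∧ z.1 ≤ p.1)

theorem ext_zero {m : KS} (h1 : Ext p m.1) (h2 : Ext p (kh m)) (h3 : m.1 ≠ p) (h4 : kh m ≠ p)
    (h5 : Kok m) (h6 : Kok s) (h7 : kh s = p) (h8 : Ext p s.1) :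
    kcr (p.2 - 1) (2 * p.1) m = 0 ∧ kcr s.1.2 (2 * s.1.1) m = 0 := by
  obtain ⟨⟨x, y⟩, w⟩ := m
  obtain ⟨⟨x', y'⟩, t⟩ := s
  obtain ⟨i, j⟩ := p
  have k1 := k3 t
  have k2 := k3 w
  simp only [Ext, Kok, kh, ne_eq, Prod.mk.injEq, kcr, up] at h1 h2 h3 h4 h5 h6 h7 h8 ⊢
  constructor <;> split_ifs <;> omega

theorem cyc_ext (h : KP p a (s :: l) p (a + T)) (hn : ((s :: l).map Prod.fst).Nodup)
    (hT : T % 8 = 0) (he : ∀ z ∈ (s :: l).map Prod.fst, Ext p z) :
    (T = 8 ∨ T = -8) ∧ (s.2 % 8 = 4 → T = 8) := by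
  have hp : Ext p p := Or.inr ⟨rfl, le_rfl⟩
  have he' : ∀ m ∈ s :: l, Ext p (kh m) := fun m hm =>
    (List.mem_cons.1 (h.kw.kh_mem m hm)).elim (fun e => e ▸ hp) (he _)
  rcases List.eq_nil_or_concat' l with rfl | ⟨l, m, rfl⟩
  · obtain ⟨rfl, -, -, h1, -⟩ := h
    have := k8 s.2
    simp only [kh, Prod.ext_iff] at h1
    omega
  rw [← List.cons_append] at h hn he he'
  obtain ⟨b, h1, h2, h3, h4, h5⟩ := kp_snoc.1 h
  have n1 : (m.1 :: (s :: l).map Prod.fst).Nodup := by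
    rw [List.map_append] at hn
    exact (List.perm_append_comm.nodup_iff).1 hn
  have i := hopf' h1 n1
  have t := h1.kw.total m.1.2 (2 * m.1.1)
  have em : Ext p m.1 := he _ (by simp)
  have es := he' s (by simp)
  have z : ∀ r ∈ l, kcr (p.2 - 1) (2 * p.1) r = 0 ∧ kcr m.1.2 (2 * m.1.1) r = 0 := fun r hr => by
    have a1 : p ∉ m.1 :: l.map Prod.fst := by
      have := (List.perm_middle (l₁ := [m.1])).nodup_iff.1 n1
      exact h1.1 ▸ (List.nodup_cons.1 this).1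
    exact ext_zero (he _ (by simp; exact Or.inr (Or.inl ⟨r.2, hr⟩))) (he' _ (by simp [hr]))
      (fun e => a1 (e ▸ List.mem_cons_of_mem _ (List.mem_map_of_mem hr)))
      (fun e => a1 (e ▸ h1.2.2.2.kw.kh_mem r hr)) (h1.kw.ok r (by simp [hr])) h2 h4 em
  have z1 : kfr (p.2 - 1) (2 * p.1) l = 0 :=
    List.sum_eq_zero (List.forall_mem_map.2 fun r hr => (z r hr).1)
  have z2 : kfr m.1.2 (2 * m.1.1) l = 0 :=
    List.sum_eq_zero (List.forall_mem_map.2 fun r hr => (z r hr).2)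
  obtain ⟨m', c, hc⟩ := (List.eq_nil_or_concat' (s :: l)).resolve_left (by simp)
  have ec : Ext p c.1 := he _ (by rw [hc]; simp)
  have a2 := h1.2.1
  have a3 := h1.2.2.1
  obtain rfl := h1.1
  rw [hc] at h1
  obtain ⟨_, -, -, -, h6, rfl⟩ := kp_snoc.1 h1
  rw [kfr_cons, z1] at i
  rw [kfr_cons, z2] at t
  generalize kfl m.1.2 (2 * m.1.1) (s :: l) = F at i t
  have k1 := k8 s.2
  have k2 := k8 m.2
  have k3 := k8 c.2
  rw [abs_le] at h3 a3
  simp only [Ext, Kok, kh, Prod.ext_iff, kcr, up] at i t em es ec h2 h4 h6 a2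
  clear z z1 z2 hc h1 n1 h hn he he' hp
  rcases k2 with k | k | k | k | k | k | k | k <;> rcases k1 with j | j | j | j | j | j | j | j <;>
    omega

/-- a simple closed walk makes one full turn -/
theorem cyc (h : KP p a l p (a + T)) (hl : l ≠ []) (hn : (l.map Prod.fst).Nodup)
    (hT : T % 8 = 0) : T = 8 ∨ T = -8 := by
  obtain ⟨s, hs, hm⟩ := l.toFinset.exists_max_image (fun s => toLex (s.1.2, s.1.1))
    (by simpa using hl)
  obtain ⟨l₁, l₂, rfl⟩ := List.append_of_mem (List.mem_toFinset.1 hs)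
  obtain ⟨q, b, h1, h2⟩ := kp_append.1 h
  have e : ((s :: l₂ ++ l₁.map fun s => (s.1, s.2 + T)).map Prod.fst).Perm
      ((l₁ ++ s :: l₂).map Prod.fst) := by
    rw [List.map_append, List.map_map, List.map_append]
    exact List.perm_append_comm
  refine (cyc_ext (h2.append (h1.shift hT)) (e.nodup_iff.2 hn) hT fun z hz => ?_).1
  obtain ⟨r, hr, rfl⟩ := List.mem_map.1 (e.subset hz)
  have := hm r (List.mem_toFinset.2 hr)
  rw [Prod.Lex.toLex_le_toLex] at this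
  exact h2.1 ▸ this

/-- the crossing in terms of the end points -/
theorem kcl_eq (Y X : ℤ) (s : KS) : kcl Y X s = if s.1.1 + (kh s).1 ≤ X then
    (if s.1.2 = Y ∧ (kh s).2 = Y + 1 then 1 else if s.1.2 = Y + 1 ∧ (kh s).2 = Y then -1 else 0)
    else 0 := by
  simp only [kcl, up, kh]
  split_ifs <;> omega

end Pool.Agent.P.MP_6c8efb_pr.Cardy.K
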