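import Pool.Agent.P.MP_6c8efb_pr.Defs

/-! Simple paths of king moves: the total turning is read off from the flux through two rays. -/

namespace Pool.Agent.P.MP_6c8efb_pr.Cardy.K

/-- first coordinate of the king move of angle `t` (unit: one eighth of a full turn) -/
def kx (t : ℤ) : ℤ :=
  if t % 8 = 0 ∨ t % 8 = 1 ∨ t % 8 = 7 then 1 else if t % 8 = 2 ∨ t % 8 = 6 then 0 else -1

/-- second coordinate of the king move of angle `t` -/
def ky (t : ℤ) : ℤ :=
  if t % 8 = 1 ∨ t % 8 = 2 ∨ t % 8 = 3 then 1 else if t % 8 = 0 ∨ t % 8 = 4 then 0 else -1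

theorem k8 (t : ℤ) : (t % 8 = 0 ∧ kx t = 1 ∧ ky t = 0) ∨ (t % 8 = 1 ∧ kx t = 1 ∧ ky t = 1) ∨
    (t % 8 = 2 ∧ kx t = 0 ∧ ky t = 1) ∨ (t % 8 = 3 ∧ kx t = -1 ∧ ky t = 1) ∨
    (t % 8 = 4 ∧ kx t = -1 ∧ ky t = 0) ∨ (t % 8 = 5 ∧ kx t = -1 ∧ ky t = -1) ∨
    (t % 8 = 6 ∧ kx t = 0 ∧ ky t = -1) ∨ (t % 8 = 7 ∧ kx t = 1 ∧ ky t = -1) := by
  unfold kx ky
  split_ifs <;> omega

theorem k3 (t : ℤ) : (-1 ≤ kx t ∧ kx t ≤ 1 ∧ (kx t = 0 ∨ ky t = 0 ∨ t % 2 = 1)) ∧
    (ky t = 1 ∨ ky t = 0 ∨ ky t = -1) := by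
  have := k8 t
  omega

/-- a step: its starting point and its angle -/
abbrev KS := V × ℤ

/-- the end point of a step -/
def kh (s : KS) : V := (s.1.1 + kx s.2, s.1.2 + ky s.2)

/-- diagonal steps start at odd points, so that they never cross each other -/
def Kok (s : KS) : Prop := s.2 % 2 = 1 → (s.1.1 + s.1.2) % 2 = 1

/-- `l` is a walk from `p` to `q` -/
def KW : V → List KS → V → Prop
  | p, [], q => p = q
  | p, s :: l, q => s.1 = p ∧ Kok s ∧ KW (kh s) l q

variable {p q r : V} {l l' : List KS} {s : KS}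

@[simp] theorem kw_nil : KW p [] q ↔ p = q := Iff.rfl
@[simp] theorem kw_cons : KW p (s :: l) q ↔ s.1 = p ∧ Kok s ∧ KW (kh s) l q := Iff.rfl

theorem kw_append : KW p (l ++ l') r ↔ ∃ q, KW p l q ∧ KW q l' r := by
  induction l generalizing p with
  | nil => simp
  | cons x l ih => simp [ih, and_assoc]

theorem kw_snoc : KW p (l ++ [s]) r ↔ KW p l s.1 ∧ Kok s ∧ kh s = r := by
  rw [kw_append]
  exact ⟨fun ⟨_, h1, h2, h3⟩ => ⟨h2 ▸ h1, h3⟩, fun ⟨h1, h2⟩ => ⟨_, h1, rfl, h2⟩⟩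

theorem KW.ok (h : KW p l q) : ∀ s ∈ l, Kok s := by
  induction l generalizing p with
  | nil => simp
  | cons x l ih => exact List.forall_mem_cons.2 ⟨h.2.1, ih h.2.2⟩

theorem KW.head_mem (h : KW p l q) : p ∈ q :: l.map Prod.fst := by
  cases l with
  | nil => simp [kw_nil.1 h]
  | cons x l => simp [← h.1]

theorem KW.kh_mem (h : KW p l q) : ∀ s ∈ l, kh s ∈ q :: l.map Prod.fst := by
  induction l generalizing p with
  | nil => simp
  | cons x l ih =>
    intro s hs
    have : kh s ∈ q :: l.map Prod.fst := (List.mem_cons.1 hs).elim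
      (fun e => e ▸ h.2.2.head_mem) (ih h.2.2 s)
    simp only [List.mem_cons, List.map_cons] at this ⊢
    tauto

theorem KW.tele (h : KW p l q) (g : V → ℤ) : (l.map fun s => g (kh s) - g s.1).sum = g q - g p := by
  induction l generalizing p with
  | nil => simp [kw_nil.1 h]
  | cons x l ih => rw [List.map_cons, List.sum_cons, ih h.2.2, h.1]; ring

/-- the walk given by a sequence of steps -/
theorem kw_range (f : ℕ → KS) (n : ℕ) (h : ∀ k < n, Kok (f k) ∧ kh (f k) = (f (k + 1)).1) :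
    KW (f 0).1 ((List.range n).map f) (f n).1 := by
  induction n with
  | zero => simp
  | succ n ih =>
    rw [List.range_succ, List.map_append, List.map_singleton, kw_snoc]
    exact ⟨ih fun k hk => h k (by omega), h n (by omega)⟩

/-- upward crossing of the line of height `Y + 1 / 2` -/
def up (Y : ℤ) (s : KS) : ℤ :=
  if s.1.2 = Y ∧ ky s.2 = 1 then 1 else if s.1.2 = Y + 1 ∧ ky s.2 = -1 then -1 else 0

/-- crossing at an abscissa at most `X / 2` -/
def kcl (Y X : ℤ) (s : KS) : ℤ := if 2 * s.1.1 + kx s.2 ≤ X then up Y s else 0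

/-- crossing at an abscissa larger than `X / 2` -/
def kcr (Y X : ℤ) (s : KS) : ℤ := if 2 * s.1.1 + kx s.2 ≤ X then 0 else up Y s

/-- upward flux through the ray to the left -/
def kfl (Y X : ℤ) (l : List KS) : ℤ := (l.map (kcl Y X)).sum

/-- upward flux through the ray to the right -/
def kfr (Y X : ℤ) (l : List KS) : ℤ := (l.map (kcr Y X)).sum

@[simp] theorem kfl_nil (Y X : ℤ) : kfl Y X [] = 0 := rfl
@[simp] theorem kfr_nil (Y X : ℤ) : kfr Y X [] = 0 := rfl
@[simp] theorem kfl_cons (Y X : ℤ) : kfl Y X (s :: l) = kcl Y X s + kfl Y X l := by simp [kfl]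
@[simp] theorem kfr_cons (Y X : ℤ) : kfr Y X (s :: l) = kcr Y X s + kfr Y X l := by simp [kfr]
@[simp] theorem kfl_append (Y X : ℤ) : kfl Y X (l ++ l') = kfl Y X l + kfl Y X l' := by simp [kfl]
@[simp] theorem kfr_append (Y X : ℤ) : kfr Y X (l ++ l') = kfr Y X l + kfr Y X l' := by simp [kfr]

theorem KW.total (h : KW p l q) (Y X : ℤ) :
    kfl Y X l + kfr Y X l = (if Y < q.2 then 1 else 0) - if Y < p.2 then 1 else 0 := by
  rw [← h.tele fun z => if Y < z.2 then 1 else 0, kfl, kfr, ← List.sum_map_add]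
  congr 1
  refine List.map_congr_left fun s _ => ?_
  have := k8 s.2
  simp only [kcl, kcr, up, kh]
  split_ifs <;> omega

/-- the region swept by the ray to the left when its base point makes the step `m` -/
def ksw (m : KS) (z : V) : ℤ :=
  if ky m.2 = 1 ∧ z.2 = m.1.2 + 1 ∧ z.1 < m.1.1 + kx m.2 then 1
  else if ky m.2 = -1 ∧ z.2 = m.1.2 ∧ z.1 < m.1.1 then -1 else 0

theorem kcl_move {m s : KS} (hm : Kok m) (hs : Kok s) (h1 : s.1 ≠ m.1) (h2 : s.1 ≠ kh m)
    (h3 : kh s ≠ m.1) (h4 : kh s ≠ kh m) :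
    kcl (kh m).2 (2 * (kh m).1) s - kcl m.1.2 (2 * m.1.1) s = -(ksw m (kh s) - ksw m s.1) := by
  obtain ⟨⟨a, b⟩, t⟩ := m
  obtain ⟨⟨x, y⟩, w⟩ := s
  have k1 := k3 t
  have k2 := k3 w
  simp only [Kok, kh, ne_eq, Prod.mk.injEq, kcl, up, ksw] at hm hs h1 h2 h3 h4 ⊢
  obtain ⟨k1, k | k | k⟩ := k1 <;> obtain ⟨k2, j | j | j⟩ := k2 <;>
    simp only [k, j, Int.reduceNeg, Int.reduceEq, and_true, and_false, true_and, false_and, if_false,
      ite_self] <;> (try split_ifs) <;> omega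

/-- moving the base point of the ray along a step that avoids the walk -/
theorem KW.move (h : KW p l q) {m : KS} (hm : Kok m) (h1 : m.1 ∉ q :: l.map Prod.fst)
    (h2 : kh m ∉ q :: l.map Prod.fst) :
    kfl (kh m).2 (2 * (kh m).1) l = kfl m.1.2 (2 * m.1.1) l + ksw m p - ksw m q := by
  have := h.tele (ksw m)
  have e : (l.map (kcl (kh m).2 (2 * (kh m).1))).sum + (l.map fun s => ksw m (kh s) - ksw m s.1).sum =
      (l.map (kcl m.1.2 (2 * m.1.1))).sum := by
    rw [← List.sum_map_add]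
    congr 1
    refine List.map_congr_left fun s hs => ?_
    have a1 : s.1 ∈ q :: l.map Prod.fst := List.mem_cons_of_mem _ (List.mem_map_of_mem hs)
    have a2 := h.kh_mem s hs
    have := kcl_move hm (h.ok s hs) (fun b => h1 (b ▸ a1)) (fun b => h2 (b ▸ a1))
      (fun b => h1 (b ▸ a2)) fun b => h2 (b ▸ a2)
    omega
  simp only [kfl]
  omega

theorem kcr_ksw {m : KS} (h1 : p ≠ m.1) (h2 : p ≠ kh m) : kcr (p.2 - 1) (2 * p.1) m = ksw m p := by
  obtain ⟨⟨a, b⟩, t⟩ := m
  obtain ⟨x, y⟩ := p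
  have k1 := k8 t
  simp only [kh, ne_eq, Prod.mk.injEq, kcr, up, ksw] at *
  split_ifs <;> omega

theorem kcl_turn {m s : KS} (h : kh s = m.1) (ht : |m.2 - s.2| ≤ 3) :
    (m.2 + 2) / 8 - (s.2 + 2) / 8 = kcl m.1.2 (2 * m.1.1) s + ksw m s.1 -
      kcl (kh m).2 (2 * (kh m).1) s - kcl (kh m).2 (2 * (kh m).1) m := by
  obtain ⟨⟨a, b⟩, t⟩ := m
  obtain ⟨⟨x, y⟩, w⟩ := s
  have k1 := k8 t
  have k2 := k8 w
  rw [abs_le] at ht
  simp only [kh, Prod.mk.injEq, kcl, up, ksw] at h ⊢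
  rcases k1 with k | k | k | k | k | k | k | k <;> obtain ⟨k, k', k''⟩ := k <;>
    rcases k2 with j | j | j | j | j | j | j | j <;> obtain ⟨j, j', j''⟩ := j <;>
    simp only [k', k'', j', j'', Int.reduceNeg, Int.reduceEq, and_true, and_false, true_and, false_and, if_false,
      ite_self] <;> (try split_ifs) <;> omega

/-- consecutive angles differ by less than a half turn -/
def Sm (l : List KS) : Prop := l.IsChain fun a b => |b.2 - a.2| ≤ 3

/-- the turning of a simple walk -/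
theorem hopf (a : KS) (l : List KS) (b : KS) (hl : ∃ m, a :: l = m ++ [b]) (hw : KW p (a :: l) q)
    (hn : (q :: (a :: l).map Prod.fst).Nodup) (hc : Sm (a :: l)) :
    (b.2 + 2) / 8 - (a.2 + 1) / 8 =
      kfr (p.2 - 1) (2 * p.1) (a :: l) - kfl q.2 (2 * q.1) (a :: l) := by
  induction l using List.reverseRecOn generalizing b q with
  | nil =>
    obtain ⟨m, hm⟩ := hl
    obtain rfl : a = b := by simpa using congrArg List.getLast? hm
    obtain ⟨rfl, -, rfl⟩ := hw
    have := k8 a.2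
    simp only [kfr_cons, kfl_cons, kfr_nil, kfl_nil, kcr, kcl, up, kh]
    split_ifs <;> omega
  | append_singleton l s ih =>
    obtain ⟨m, hm⟩ := hl
    rw [← List.cons_append] at hm hw hn hc ⊢
    obtain rfl : s = b := by simpa using (List.append_inj' hm rfl).2
    obtain ⟨m, c, hm⟩ := (List.eq_nil_or_concat' (a :: l)).resolve_left (by simp)
    obtain ⟨w1, w2, rfl⟩ := kw_snoc.1 hw
    have n1 : (s.1 :: (a :: l).map Prod.fst).Nodup := by
      have := (List.nodup_cons.1 hn).2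
      rw [List.map_append] at this
      exact (List.perm_append_comm.nodup_iff).1 this
    have i := ih c ⟨m, hm⟩ w1 n1 (List.isChain_append.1 hc).1
    have hp : p ∈ (a :: l).map Prod.fst := by simp [w1.1]
    have n2 : kh s ∉ (a :: l).map Prod.fst := fun b =>
      (List.nodup_cons.1 hn).1 (by rw [List.map_append]; exact List.mem_append_left _ b)
    have n3 := (List.nodup_cons.1 n1).1
    have e1 := kcr_ksw (p := p) (m := s) (fun b => n3 (b ▸ hp)) fun b => n2 (b ▸ hp)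
    rw [hm] at w1 n2 n3 hc i ⊢
    obtain ⟨w3, -, w4⟩ := kw_snoc.1 w1
    have e2 := w3.move w2 (fun b => n3 (by simpa [or_comm] using b))
      fun b => n2 (by simpa [or_comm] using b)
    have e3 := kcl_turn w4 ((List.isChain_append.1 hc).2.2 c (by simp) s (by simp))
    simp only [kfr_append, kfl_append, kfr_cons, kfl_cons, kfr_nil, kfl_nil] at i ⊢
    omega

end Pool.Agent.P.MP_6c8efb_pr.Cardy.K
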