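import Pool.Agent.P.MP_6c8efb_pr.Cardy.BIface

/-! Cutting a domain along full horizontal lines: definitions and statements. -/

open Complex MeasureTheory
open scoped Real ComplexConjugate Matrix

namespace Pool.Agent.P.MP_6c8efb_pr.Cardy

/-- the horizontal sides at height `y` in the columns of `X` -/
def levX (X : Finset ℤ) (y : ℤ) : Finset E := X.image fun x => ((x, y), true)

/-- arrows read off from a spin configuration -/
def spX {X : Finset ℤ} (s : X → Bool) (e : E) : Bool := if h : e.1.1 ∈ X then s ⟨_, h⟩ else false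

/-- the state seen on the horizontal line at height `y` from the tiles of `R` -/
noncomputable def vecX (R : Finset V) (γ : E → ℝ) (X : Finset ℤ) (y : ℤ) (s : X → Bool) : ℂ :=
  Zv R (levX X y) γ (spX s)

noncomputable def nrmX {X : Finset ℤ} (φ : (X → Bool) → ℂ) : ℝ := Real.sqrt (∑ s, ‖φ s‖ ^ 2)

/-- the columns of the tiles of `D` in the row `y` -/
def col (D : Finset V) (y : ℤ) : Finset ℤ := (D.filter fun t => t.2 = y).image Prod.fst

def below (D : Finset V) (y : ℤ) : Finset V := D.filter fun t => t.2 < y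
def above (D : Finset V) (y : ℤ) : Finset V := D.filter fun t => y ≤ t.2

/-- the norms of the states of the parts below and above the line at height `y` -/
noncomputable def nlo (D : Finset V) (γ : E → ℝ) (y : ℤ) : ℝ := nrmX (vecX (below D y) γ (col D y) y)
noncomputable def nup (D : Finset V) (γ : E → ℝ) (y : ℤ) : ℝ := nrmX (vecX (above D y) γ (col D y) y)

/-- the reflection in the line at height `y`, on tiles and on sides -/
def rfT (y : ℤ) (t : V) : V := (t.1, 2 * y - 1 - t.2)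
def rfE (y : ℤ) (e : E) : E := ((e.1.1, if e.2 then 2 * y - e.1.2 else 2 * y - 1 - e.1.2), e.2)

/-- a set of tiles together with its mirror image -/
def dbl (R : Finset V) (y : ℤ) : Finset V := R ∪ R.image (rfT y)

/-- the squared norms are partition functions of the doubled (planar) domains -/
def S_Dbl : Prop := ∀ (D : Finset V) (γ : E → ℝ) (y : ℤ) (a : E → Bool),
  (∀ x, (x, y - 1) ∈ D ↔ (x, y) ∈ D) →
  ((nlo D γ y ^ 2 : ℝ) : ℂ) =
    Zv (dbl (below D y) y) ∅ (fun e => if e.1.2 < y then γ e else γ (rfE y e)) a ∧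
  ((nup D γ y ^ 2 : ℝ) : ℂ) =
    Zv (dbl (above D y) y) ∅ (fun e => if e.1.2 < y then γ (rfE y e) else γ e) a

/-- between the heights `y` and `y + h` the domain is a union of at most `K` vertical strips of
width at least `h`, one of them being `[x, x + N)`; the angles `γ` are constant along the walls -/
structure Cut (D : Finset V) (γ : E → ℝ) (x y : ℤ) (N h K : ℕ) : Prop where
  cols : ∀ a t, y - 1 ≤ t → t ≤ y + h → ((a, t) ∈ D ↔ (a, y) ∈ D)
  main : (x - 1, y) ∉ D ∧ (x + N, y) ∉ D ∧ ∀ a, x ≤ a → a < x + N → (a, y) ∈ D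
  wide : ∀ a, (a, y) ∈ D → (a - 1, y) ∉ D → ∀ b, a ≤ b → b < a + h → (b, y) ∈ D
  few : ((col D y).filter fun a => (a - 1, y) ∉ D).card ≤ K
  const : ∀ a t, a ≠ x → y ≤ t → t < y + h → ((a, y), false) ∈ bd D →
    γ ((a, t), false) = γ ((a, y), false)

/-- the angles `γ'` belong to a twist which ends on the left wall at height `j` -/
def Twi (D : Finset V) (γ γ' : E → ℝ) (α : ℝ) (x y j : ℤ) (h : ℕ) : Prop :=
  (∀ t, y ≤ t → t < y + h → γ' ((x, t), false) = if t < j then α else α - β) ∧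
  ∀ e ∈ bd D, ¬(e.1.1 = x ∧ e.2 = false ∧ y ≤ e.1.2 ∧ e.1.2 < y + h) → γ' e = γ e

/-- the Cauchy-Riemann defect of the cut partition functions at the vertex `(x + k + 1, t)` -/
def S_Def : Prop := ∀ (ε : ℝ) (K : ℕ), 0 < ε → ∃ C : ℝ, ∀ (D : Finset V) (γ γ₀ γ₁ : E → ℝ) (α : ℝ)
  (x y t : ℤ) (N M k : ℕ), Cut D γ x y N (4 * M + 4) K → t = y + 2 * M + 2 →
  Twi D γ γ₀ α x y t (4 * M + 4) → Twi D γ γ₁ α x y (t + 1) (4 * M + 4) →
  ε * N ≤ k → k + 2 + ε * N ≤ N → ε * N ≤ M → M ≤ N →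
  ‖Zcut D γ₁ ((x + (k + 1 : ℕ), t), false) (lev x (t + 1) (k + 1)) +
    Zcut D γ₀ ((x + (k + 1 : ℕ), t - 1), false) (lev x t (k + 1)) -
    I * (exp (-I * π / 6) * Zcut D γ₀ ((x + (k + 1 : ℕ), t), true) (lev x t (k + 1)) +
      exp (-I * π / 6) * Zcut D γ₀ ((x + k, t), true) (lev x t k))‖ ≤
    C * (N : ℝ) ^ (-16 / 15 : ℝ) * (nlo D γ y * nup D γ (y + (4 * M + 4 : ℕ)))

/-- the norm bound; the twist ends at the vertex `c s` of a vertical wall between the two lines -/
def S_NormX : Prop := ∀ (P : Dom) (k₁ k₂ : ℕ) (ε η : ℝ), MkC P k₁ k₂ → 0 < ε → 0 < η →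
  ∃ C : ℝ, ∀ (M : ℕ) (P' : Dom) (q y y' : ℤ) (s : ℕ), 0 < M → P.Blow M P' →
    (q + ε) * M ≤ y → y ≤ (P'.c s).2 → (P'.c s).2 ≤ y' → (y' : ℝ) ≤ (q + 1 - ε) * M →
    s < P'.n → P'.dir s = 3 →
    nlo P'.D (P'.ang (P'.gam (M * k₁) (M * k₂) s)) y *
      nup P'.D (P'.ang (P'.gam (M * k₁) (M * k₂) s)) y' ≤ C * (M : ℝ) ^ η

end Pool.Agent.P.MP_6c8efb_pr.Cardy
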