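import Pool.Agent.P.MP_6c8efb_pr.Cardy.LExp
import Pool.Agent.P.MP_6c8efb_pr.Cardy.LIface

/-! Reversal of arrows and doubling of a domain along a horizontal line. -/

open Complex Function Finset
open scoped Real ComplexConjugate

namespace Pool.Agent.P.MP_6c8efb_pr.Cardy

theorem sumOn_map {φ : E → E} (hφ : Involutive φ) (ν : E → Bool) (S : Finset E)
    (f : (E → Bool) → ℂ) (a : E → Bool) :
    sumOn (S.image φ) (fun a => f fun e => xor (a (φ e)) (ν e)) a =
      sumOn S f fun e => xor (a (φ e)) (ν e) := by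
  induction S using Finset.induction_on generalizing a with
  | empty => simp
  | insert e S h ih =>
    rw [image_insert, sumOn_insert (by simpa [hφ.injective.eq_iff] using h), sumOn_insert h]
    have : ∀ b, (fun x => xor (update a (φ e) b (φ x)) (ν x)) =
        update (fun x => xor (a (φ x)) (ν x)) e (xor b (ν e)) := fun b => funext fun x => by
      by_cases c : x = e <;> simp [c, hφ.injective.eq_iff]
    simp only [ih, this]
    cases ν e <;> simp [add_comm]

/-- reversal of all arrows -/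
theorem Zv_neg (D : Finset V) (γ : E → ℝ) (a : E → Bool) : Zv D ∅ (-γ) a = Zv D ∅ γ a := by
  have := sumOn_map (φ := id) (fun _ => rfl) (fun _ => true) (sd D \ ∅)
    (Zw (fun _ => Lg (π / 2)) D ∅ γ) a
  rw [image_id] at this
  rw [Zv_eq, Zv_eq, Zg_dep (γ := γ) (a' := fun e => xor (a e) true) (by simp)]
  refine Eq.trans (sumOn_congr fun a _ => ?_) this
  unfold Zw
  congr 1 <;> refine prod_congr rfl fun t _ => ?_
  · simp only [wg, ExpA.Lg_half, id]
    cases a (lft t) <;> cases a (rgt t) <;> cases a (top t) <;> cases a (bot t) <;> simp [Lw]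
  · simp only [bw, id, Bool.xor_true, ph_not, Pi.neg_apply]
    split_ifs <;> rfl

/-- the horizontal sides at height `ht x` in the columns `x` of `X` -/
def legs (X : Finset ℤ) (ht : ℤ → ℤ) : Finset E := X.image fun x => ((x, ht x), true)

/-- the spins read on these sides -/
def rd (X : Finset ℤ) (ht : ℤ → ℤ) (a : E → Bool) (k : X) : Bool := a ((k, ht k), true)

theorem mem_legs {X : Finset ℤ} {ht : ℤ → ℤ} {e : E} :
    e ∈ legs X ht ↔ e.1.1 ∈ X ∧ e.1.2 = ht e.1.1 ∧ e.2 = true := by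
  obtain ⟨⟨x, y⟩, b⟩ := e
  simp only [legs, mem_image, Prod.mk.injEq]
  exact ⟨by rintro ⟨_, h, ⟨rfl, rfl⟩, rfl⟩; simp [h], fun h => ⟨x, h.1, ⟨rfl, h.2.1.symm⟩, h.2.2.symm⟩⟩

theorem mem_levX {X : Finset ℤ} {y : ℤ} {e : E} :
    e ∈ levX X y ↔ e.1.1 ∈ X ∧ e.1.2 = y ∧ e.2 = true := mem_legs (ht := fun _ => y)

theorem sum_legs (X : Finset ℤ) (ht : ℤ → ℤ) (F : (X → Bool) → ℂ) (a : E → Bool) :
    sumOn (legs X ht) (fun a => F (rd X ht a)) a = ∑ s, F s := by
  let p : X → legs X ht := fun k => ⟨((k, ht k), true), mem_image_of_mem _ k.2⟩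
  have hp : Bijective p := ⟨fun k k' h => Subtype.ext (congrArg (·.1.1.1) h), fun e => by
    obtain ⟨k, h, h'⟩ := mem_image.1 e.2
    exact ⟨⟨k, h⟩, Subtype.ext h'⟩⟩
  refine Fintype.sum_equiv ((Equiv.ofBijective p hp).symm.arrowCongr (Equiv.refl _)) _ _
    fun η => congrArg F (funext fun k => ?_)
  simp [rd, updateFinset, (p k).2, p]

theorem vecX_rd (R : Finset V) (γ : E → ℝ) (X : Finset ℤ) (y : ℤ) (a : E → Bool) :
    Zv R (levX X y) γ a = vecX R γ X y (rd X (fun _ => y) a) :=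
  Zg_dep fun ⟨⟨x, t⟩, b⟩ _ h => by
    obtain ⟨h1, rfl, rfl⟩ := mem_levX.1 h
    simp [spX, rd, show x ∈ X from h1]

theorem mem_col {D : Finset V} {x y : ℤ} : x ∈ col D y ↔ (x, y) ∈ D := by
  simp only [col, mem_image, mem_filter]
  exact ⟨by rintro ⟨t, ⟨h, rfl⟩, rfl⟩; exact h, fun h => ⟨_, ⟨h, rfl⟩, rfl⟩⟩

namespace DblA

variable {y : ℤ} {R : Finset V}

theorem rfT_inv (y : ℤ) : Involutive (rfT y) := fun t => by simp [rfT]

theorem rfE_inv (y : ℤ) : Involutive (rfE y) := fun ⟨t, b⟩ => by cases b <;> simp [rfE]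

theorem mem_im {α : Type} [DecidableEq α] {φ : α → α} (h : Involutive φ) {S : Finset α} {x : α} :
    x ∈ S.image φ ↔ φ x ∈ S :=
  mem_image.trans ⟨by rintro ⟨_, c, rfl⟩; rwa [h], fun c => ⟨_, c, h x⟩⟩

theorem tiles_rf (e : E) : rfT y e.1 = (if e.2 then lo (rfE y e) else (rfE y e).1) ∧
    rfT y (lo e) = if e.2 then (rfE y e).1 else lo (rfE y e) := by
  obtain ⟨t, b⟩ := e
  cases b <;> simp [rfE, rfT, lo]
  omega

theorem sd_rf : sd (R.image (rfT y)) = (sd R).image (rfE y) := by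
  ext e
  rw [mem_im (rfE_inv y), mem_sd, mem_sd, mem_im (rfT_inv y), mem_im (rfT_inv y), (tiles_rf e).1,
    (tiles_rf e).2]
  cases e.2 <;> simp [or_comm]

theorem bd_rf : bd (R.image (rfT y)) = (bd R).image (rfE y) := by
  ext e
  rw [mem_im (rfE_inv y), mem_bd, mem_bd, mem_im (rfT_inv y), mem_im (rfT_inv y), (tiles_rf e).1,
    (tiles_rf e).2]
  cases e.2 <;> simp [iff_comm]

theorem Zv_rf {Γ : Finset E} {γ γ' : E → ℝ} (h : ∀ e ∈ bd R, e ∉ Γ → γ' (rfE y e) = γ e)
    (a : E → Bool) : Zv (R.image (rfT y)) (Γ.image (rfE y)) γ' a =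
      conj (Zv R Γ γ fun e => xor (a (rfE y e)) (!e.2)) := by
  rw [Zv_eq, Zv_eq, Zg, Zg, ← sumOn_map (rfE_inv y), sd_rf, ← image_sdiff _ _ (rfE_inv y).injective,
    sumOn, sumOn, map_sum]
  refine sum_congr rfl fun η _ => ?_
  generalize updateFinset a _ η = a
  rw [Zw, Zw, bd_rf, ← image_sdiff _ _ (rfE_inv y).injective,
    prod_image (rfT_inv y).injective.injOn, prod_image (rfE_inv y).injective.injOn, map_mul,
    map_prod, map_prod]
  congr 1 <;> refine prod_congr rfl fun t ht => ?_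
  · have e1 : lft (rfT y t) = rfE y (lft t) := rfl
    have e2 : rgt (rfT y t) = rfE y (rgt t) := rfl
    have e3 : top (rfT y t) = rfE y (bot t) := by simp [top, bot, rfT, rfE]; omega
    have e4 : bot (rfT y t) = rfE y (top t) := by simp [top, bot, rfT, rfE]; omega
    simp only [wg, ExpA.Lg_half, e1, e2, e3, e4]
    cases a (rfE y (lft t)) <;> cases a (rfE y (rgt t)) <;> cases a (rfE y (top t)) <;>
      cases a (rfE y (bot t)) <;> simp [Lw, lft, rgt, top, bot, map_ofNat]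
  · rw [mem_sdiff, mem_bd] at ht
    have := (tiles_rf (y := y) (rfE y t)).1
    rw [rfE_inv, show (rfE y t).2 = t.2 from rfl] at this
    simp only [bw, h t (mem_bd.2 ht.1) ht.2, mem_im (rfT_inv y), this, map_mul, conj_ofReal]
    rw [show conj (ph _ _) = _ from star_ph _ _]
    by_cases c : t.2 = true <;> by_cases c' : t.1 ∈ R <;> simp [c, c', ph_not] at ht ⊢ <;>
      simp [ht.1]

theorem dbl_eq {X : Finset ℤ} {γ γ' : E → ℝ} (h1 : Disjoint R (R.image (rfT y)))
    (h2 : ∀ e, e ∈ sd R ∧ rfE y e ∈ sd R ↔ e ∈ levX X y)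
    (h3 : ∀ e ∈ bd R, e ∉ levX X y → γ' e = γ e ∧ γ' (rfE y e) = γ e) (a : E → Bool) :
    ((nrmX (vecX R γ X y) ^ 2 : ℝ) : ℂ) = Zv (dbl R y) ∅ γ' a := by
  have e1 : sd R ∩ sd (R.image (rfT y)) = levX X y := by
    ext e; rw [mem_inter, sd_rf, mem_im (rfE_inv y), h2]
  have e2 : ∀ e ∈ levX X y, rfE y e = e := fun ⟨⟨x, t⟩, b⟩ h => by
    obtain ⟨-, rfl, rfl⟩ := mem_levX.1 h
    simp [rfE]; omega
  rw [nrmX, Real.sq_sqrt (by positivity), Zv_eq, dbl, Zg_union h1 (by simp), e1]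
  push_cast
  refine (sum_legs X (fun _ => y) (fun s => (‖vecX R γ X y s‖ : ℂ) ^ 2) a).symm.trans
    (sumOn_congr fun a _ => ?_)
  rw [← mul_conj', Zg_congr (Γ' := levX X y) (γ' := γ) (fun _ _ => rfl)
    (fun e he => by simp [← e1, he]) fun e he c => (h3 e he fun c' =>
      c (mem_union_right _ (mem_inter.1 (e1 ▸ c')).2)).1, ← Zv_eq, vecX_rd,
    Zg_congr (Γ' := (levX X y).image (rfE y)) (fun _ _ => rfl) (fun e he => by
      rw [image_congr (g := id) fun e h => e2 e h]; simp [← e1, he]) fun _ _ _ => rfl, ← Zv_eq,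
    Zv_rf fun e he c => (h3 e he c).2, vecX_rd]
  congr 3
  funext k
  simp [rd, e2 ((k, y), true) (mem_levX.2 ⟨k.2, rfl, rfl⟩)]

end DblA

open DblA in
theorem s_Dbl : S_Dbl := fun D γ y a h => by
  refine ⟨dbl_eq ?_ ?_ ?_ a, dbl_eq ?_ ?_ ?_ a⟩
  all_goals first
    | refine disjoint_left.2 fun t h1 h2 => ?_
      simp only [mem_im (rfT_inv y), below, above, mem_filter, rfT] at h1 h2
      omega
    | rintro ⟨⟨x, t⟩, b⟩
      have := h x
      cases b <;> simp only [mem_sd, mem_bd, below, above, mem_filter, mem_levX, mem_col, rfE, lo] <;>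
        by_cases c : t = y <;> by_cases c' : t < y <;> simp [*, two_mul] <;> try omega

end Pool.Agent.P.MP_6c8efb_pr.Cardy
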