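import Pool.Agent.P.MP_6c8efb_pr.Cardy.LSum
import Pool.Agent.P.MP_6c8efb_pr.Cardy.BIface

/-! The loop expansion of six-vertex partition functions. -/

open Complex Function Finset MeasureTheory ProbabilityTheory
open scoped Real

namespace Pool.Agent.P.MP_6c8efb_pr.Cardy

open Arm (TC)

theorem LocF.intC {ι : Type*} {f : (ι → Bool) → ℂ} (h : LocF f) (p : ι → unitInterval) :
    Integrable f (PM p) := by
  obtain ⟨C, hC⟩ := (h.finite_range.image fun x => ‖x‖).bddAbove
  exact Integrable.of_bound h.measurable.aestronglyMeasurable C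
    (Filter.Eventually.of_forall fun ω => hC ⟨_, ⟨ω, rfl⟩, rfl⟩)

namespace ExpA

theorem int_sum {f : TC → ℂ} {S : Finset V} (h : DependsOn f S) :
    ∫ ω, f ω ∂PM (fun _ => hf) = ∑ η : S → Bool, (∏ _i : S, (1 / 2 : ℂ)) * f (ext S η) := by
  have e : ∫ ω, f ω ∂PM (fun _ => hf) = ∫ ω, (fun η => f (ext S η)) (S.restrict ω) ∂PM fun _ => hf :=
    integral_congr_ae (Filter.Eventually.of_forall fun ω => eq_ext_restrict h ω)
  rw [e, PM, integral_restrict_infinitePi (fun _ => bernoulliMeasure true false hf)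
    (f := fun η => f (ext S η)) (measurable_of_finite _).aestronglyMeasurable,
    integral_fintype Integrable.of_finite]
  refine sum_congr rfl fun η _ => ?_
  rw [real_smul, measureReal_def, Measure.pi_singleton, ENNReal.toReal_prod, ofReal_prod]
  congr 1
  exact prod_congr rfl fun i _ => by
    rw [← measureReal_def, bern_singleton, Arm.wt_hf]; norm_num

/-- the arrow is reversed with respect to the natural one -/
def ep (a : E → Bool) (e : E) : Bool := xor (a e) (nat e)

theorem Lg_half : Lg (π / 2) = Lw (1 / 2) (1 / 2) (Real.sqrt 3 / 2) := by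
  have h1 : sn (π / 2) = 1 := by rw [sn, ← sin_pi_div_two]; congr 1; ring
  have h0 : sin (π / 6) = 1 / 2 := by
    have := congrArg ofReal Real.sin_pi_div_six
    push_cast at this; exact this
  have h2 : sa (π / 2) = 1 / 2 := by rw [sa, ← h0]; congr 1; ring
  have h3 : sb (π / 2) = 1 / 2 := by rw [sb, ← h0]; congr 1; ring
  have h4 : sc = Real.sqrt 3 / 2 := by
    have := congrArg ofReal Real.sin_pi_div_three
    push_cast at this; exact this
  rw [Lg, h1, h2, h3, h4]; simp

theorem ph_cos (θ : ℝ) : ∑ b, ph θ b = (2 * Real.cos θ : ℝ) := by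
  simp [ph, two_cos, add_comm]

/-- the weight of the arc entered through `e`, for the arrows `a` -/
noncomputable def arcw (τ : TC) (a : E → Bool) (e : E) : ℂ :=
  if ep a (nx τ e) = ep a e then ph (π / 12 * trn τ (tin e)) (ep a e) else 0

theorem wtl_eq (a : E → Bool) (t : V) :
    wtl a t = ∑ b, 1 / 2 * ∏ e ∈ sd1 t with tin e = t, arcw (fun _ => b) a e := by
  have h1 : ∀ c, ph (π / 12) c * ph (π / 12) c + ph (-(π / 12)) c * ph (-(π / 12)) c =
      Real.sqrt 3 := fun c => by
    have := ph_cos (π / 6)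
    rw [Real.cos_pi_div_six, Fintype.sum_bool] at this
    rw [← ph_add, ← ph_add, show π / 12 + π / 12 = π / 6 by ring,
      show -(π / 12) + -(π / 12) = -(π / 6) by ring, ← ph_not]
    cases c <;> simp only [Bool.not_true, Bool.not_false] <;> push_cast at this <;>
      linear_combination this
  have h2 : ∀ θ, ph θ true * ph θ false = 1 := fun θ => by
    rw [← ph_mul_neg θ true, ← ph_not]; rfl
  have h3 : ∀ θ, ph θ false * ph θ true = 1 := fun θ => by rw [mul_comm, h2]
  have ne : bot t ≠ top t ∧ lft t ≠ rgt t := by simp [bot, top, lft, rgt, Prod.ext_iff]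
  rw [wtl, Lg_half]
  by_cases h : Even (t.1 + t.2)
  · obtain ⟨e1, e2, e3, e4⟩ := tile_even h
    have n : nat (bot t) = true ∧ nat (top t) = false ∧ nat (lft t) = false ∧ nat (rgt t) = true := by
      simp [nat, bot, top, lft, rgt, ← add_assoc, add_right_comm _ (1 : ℤ), h]
    have : (sd1 t).filter (fun e => tin e = t) = {bot t, top t} := by
      ext e
      simp only [mem_filter, mem_sd1_iff, mem_insert, mem_singleton]
      constructor
      · rintro ⟨rfl | rfl | rfl | rfl, h⟩
        exacts [.inl rfl, (tin_ne_tout _ (h.trans e3.symm)).elim, .inr rfl,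
          (tin_ne_tout _ (h.trans e4.symm)).elim]
      · rintro (rfl | rfl) <;> simp [e1, e2]
    simp only [this, prod_pair ne.1, arcw, nx, trn, ep, e1, e2, prt_bot, prt_top, Fintype.sum_bool,
      h, n, if_true, Bool.false_eq_true, if_false, decide_true]
    cases a (bot t) <;> cases a (top t) <;> cases a (lft t) <;> cases a (rgt t) <;>
      simp [Lw, h2, h3] <;> linear_combination (-1 / 2 : ℂ) * h1 _
  · obtain ⟨e1, e2, e3, e4⟩ := tile_odd h
    have n : nat (bot t) = false ∧ nat (top t) = true ∧ nat (lft t) = true ∧ nat (rgt t) = false := by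
      simp [nat, bot, top, lft, rgt, ← add_assoc, add_right_comm _ (1 : ℤ), h,
        Int.not_even_iff_odd.1 h]
    have : (sd1 t).filter (fun e => tin e = t) = {lft t, rgt t} := by
      ext e
      simp only [mem_filter, mem_sd1_iff, mem_insert, mem_singleton]
      constructor
      · rintro ⟨rfl | rfl | rfl | rfl, h⟩
        exacts [(tin_ne_tout _ (h.trans e1.symm)).elim, .inl rfl,
          (tin_ne_tout _ (h.trans e2.symm)).elim, .inr rfl]
      · rintro (rfl | rfl) <;> simp [e3, e4]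
    simp only [this, prod_pair ne.2, arcw, nx, trn, ep, e3, e4, prt_lft, prt_rgt, Fintype.sum_bool,
      h, n, if_true, Bool.false_eq_true, if_false, decide_false, Bool.true_eq_false]
    cases a (bot t) <;> cases a (top t) <;> cases a (lft t) <;> cases a (rgt t) <;>
      simp [Lw, h2, h3] <;> linear_combination (-1 / 2 : ℂ) * h1 _

theorem arcw_congr {τ τ' : TC} {a : E → Bool} {e : E} (h : τ (tin e) = τ' (tin e)) :
    arcw τ a e = arcw τ' a e := by rw [arcw, arcw, nx, nx, trn, trn, h]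

/-- the weight of all arcs, the tile `t` seeing the arrows `b t` -/
noncomputable def Wt (D : Finset V) (b : V → E → Bool) (τ : TC) : ℂ :=
  ∏ e ∈ sd D with tin e ∈ D, arcw τ (b (tin e)) e

theorem Wt_dep (D : Finset V) (b : V → E → Bool) : DependsOn (Wt D b) D := fun _ _ h =>
  prod_congr rfl fun _ he => arcw_congr (h _ (mem_filter.1 he).2)

theorem tiles (D : Finset V) (b : V → E → Bool) :
    ∏ t ∈ D, wtl (b t) t = ∫ τ, Wt D b τ ∂PM fun _ => hf := by
  rw [int_sum (Wt_dep D b), ← prod_coe_sort]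
  simp only [wtl_eq]
  rw [Fintype.prod_sum]
  refine sum_congr rfl fun η _ => ?_
  rw [prod_mul_distrib, Wt, ← prod_fiberwise_of_maps_to (t := D) (g := tin)
    fun e he => (mem_filter.1 he).2, ← prod_coe_sort D]
  congr 1
  refine prod_congr rfl fun t _ => prod_congr ?_ fun e he => ?_
  · ext e
    simp only [mem_filter, mem_sd1', mem_sd']
    exact ⟨fun h => ⟨⟨.inl (h.2 ▸ t.2), h.2 ▸ t.2⟩, h.2⟩, fun h => ⟨.inl h.2.symm, h.2⟩⟩
  · have := (mem_filter.1 he).2
    rw [this]
    exact arcw_congr (by rw [this, ext_apply])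

theorem expand (D : Finset V) (S : Finset E) (b : (E → Bool) → V → E → Bool) (g : (E → Bool) → ℂ)
    (a : E → Bool) : sumOn S (fun a => (∏ t ∈ D, wtl (b a t) t) * g a) a =
      ∫ τ, sumOn S (fun a => Wt D (b a) τ * g a) a ∂PM fun _ => hf := by
  simp only [sumOn, tiles]
  rw [integral_finsetSum _ fun η _ =>
    (LocF.intC ⟨D, D.finite_toSet, Wt_dep D _⟩ _).mul_const _]
  simp only [integral_mul_const]

theorem sum_prod (T : Finset E) (f : E → Bool → ℂ) (a : E → Bool) :
    sumOn T (fun a => ∏ e ∈ T, f e (a e)) a = ∏ e ∈ T, ∑ b, f e b := by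
  rw [← prod_coe_sort T, Fintype.prod_sum, sumOn]
  refine sum_congr rfl fun η _ => ?_
  rw [← prod_coe_sort T]
  exact prod_congr rfl fun e _ => by simp [updateFinset]

open Classical in
theorem sum_cls {B : Type} [DecidableEq B] (T : Finset E) (lab : E → B) (G : E → Bool → ℂ) (a : E → Bool) :
    sumOn T (fun a => if ∀ e ∈ T, ∀ e' ∈ T, lab e = lab e' → ep a e = ep a e' then
      ∏ e ∈ T, G e (ep a e) else 0) a =
      ∏ K ∈ T.image lab, ∑ b, ∏ e ∈ T with lab e = K, G e b := by
  let p : T → T.image lab := fun e => ⟨lab e, mem_image_of_mem _ e.2⟩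
  have hp : Surjective p := fun K => by
    obtain ⟨e, he, h⟩ := mem_image.1 K.2
    exact ⟨⟨e, he⟩, Subtype.ext h⟩
  have up : ∀ (η : T → Bool) (e : T), ep (updateFinset a T η) e = xor (η e) (nat e) :=
    fun η e => by simp [ep, updateFinset]
  rw [← prod_coe_sort (T.image lab), Fintype.prod_sum, sumOn, ← sum_filter]
  symm
  refine sum_bij (fun ε _ e => xor (ε (p e)) (nat e)) (fun ε _ => ?_) (fun ε _ ε' _ h => ?_)
    (fun η hη => ?_) fun ε _ => ?_
  · refine mem_filter.2 ⟨mem_univ _, fun e he e' he' h => ?_⟩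
    rw [up _ ⟨e, he⟩, up _ ⟨e', he'⟩, show p ⟨e, he⟩ = p ⟨e', he'⟩ from Subtype.ext h]
    simp
  · funext K
    obtain ⟨e, rfl⟩ := hp K
    simpa using congrFun h e
  · refine ⟨fun K => xor (η (surjInv hp K)) (nat (surjInv hp K).1), mem_univ _, funext fun e => ?_⟩
    have := (mem_filter.1 hη).2 _ (surjInv hp (p e)).2 _ e.2
      (congrArg Subtype.val (surjInv_eq hp (p e)))
    rw [up, up] at this
    simp [this]
  · rw [← prod_coe_sort T, ← Fintype.prod_fiberwise p]
    refine prod_congr rfl fun K _ => ?_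
    rw [← prod_coe_sort]
    refine Fintype.prod_equiv ⟨fun e => ⟨⟨e, (mem_filter.1 e.2).1⟩, Subtype.ext (mem_filter.1 e.2).2⟩,
      fun e => ⟨e.1, mem_filter.2 ⟨e.1.2, congrArg Subtype.val e.2⟩⟩, fun _ => rfl, fun _ => rfl⟩
      _ _ fun e => ?_
    rw [up]
    have : p ⟨e, (mem_filter.1 e.2).1⟩ = K := Subtype.ext (mem_filter.1 e.2).2
    simp [this]

variable {τ : TC} {D : Finset V} {γ : E → ℝ} {S T : Finset E} {z : E}

/-- the weight of a side -/
noncomputable def Gw (τ : TC) (D : Finset V) (γ : E → ℝ) (S : Finset E) (e : E) (b : Bool) : ℂ :=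
  (if e ∈ bd D then (((3 : ℝ) ^ (-1 / 4 : ℝ) : ℝ) : ℂ) else 1) * ph (θs τ D γ S e) b

theorem Gw_eq (a : E → Bool) {e : E} (he : e ∈ sd D) : Gw τ D γ S e (ep a e) =
    (if tin e ∈ D then ph (π / 12 * trn τ (tin e)) (ep a e) else 1) *
      ((if e ∈ bd D then bw D γ a e else 1) * if e ∈ S then ph (-β) (a e) else 1) := by
  have h1 : ph (if e ∈ S then (if nat e then β else -β) else 0) (ep a e) =
      if e ∈ S then ph (-β) (a e) else 1 := by
    unfold ep; split_ifs with h h' <;> simp [ph_zero, ph_not, *]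
  rw [Gw, θs, ph_add, ph_add, h1]
  have h2 := mem_sd'.1 he
  simp only [mem_bd', bw, ep, tin, tout] at h2 ⊢
  by_cases h5 : nat e = true <;> by_cases h3 : e.1 ∈ D <;> by_cases h4 : lo e ∈ D <;>
    simp [h3, h4, h5, ph_zero, ph_not] at h2 ⊢ <;> ring_nf

theorem prod_Gw (hS : S ⊆ sd D) (a : E → Bool) : ∏ e ∈ sd D, Gw τ D γ S e (ep a e) =
    (∏ e ∈ sd D with tin e ∈ D, ph (π / 12 * trn τ (tin e)) (ep a e)) *
      ((∏ e ∈ bd D, bw D γ a e) * ∏ e ∈ S, ph (-β) (a e)) := by
  rw [prod_congr rfl fun e he => Gw_eq a he, prod_mul_distrib, prod_mul_distrib, prod_filter,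
    prod_ite_mem, prod_ite_mem, inter_eq_right.2 (bd_sub D), inter_eq_right.2 hS]

theorem prod_ph (K : Finset E) (θ : E → ℝ) (b : Bool) : ∏ e ∈ K, ph (θ e) b = ph (∑ e ∈ K, θ e) b := by
  induction K using Finset.induction_on with
  | empty => simp [ph_zero]
  | insert e K h ih => rw [prod_insert h, sum_insert h, ph_add, ih]

theorem sum_Gw (K : Finset E) : ∑ b, ∏ e ∈ K, Gw τ D γ S e b = cw τ D γ S K := by
  simp only [Gw, prod_mul_distrib, prod_ph, prod_ite_mem, prod_const]
  rw [← mul_sum, ph_cos, cw, ← ofReal_pow, ← Real.rpow_natCast, ← Real.rpow_mul (by norm_num),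
    ← ofReal_mul]
  congr 3; ring

theorem con_iff (h1 : T ⊆ sd D) (h2 : ∀ e ∈ T, ∀ e', Same τ D e e' → e' ∈ T) (ε : E → Bool) :
    (∀ e ∈ T, tin e ∈ D → ε (nx τ e) = ε e) ↔
      ∀ e ∈ T, ∀ e' ∈ T, cls τ D e = cls τ D e' → ε e = ε e' := by
  refine ⟨fun h e he e' he' c => ?_, fun h e he c =>
    (h e he _ (h2 e he _ (same_nx c)) (same_nx c).cls_eq).symm⟩
  have : Same τ D e e' := (mem_cls' (h1 he)).1 (c ▸ (mem_cls' (h1 he')).2 Same.rfl')
  exact this.ind (p := fun x => ε e = ε x) rfl fun x hx c => by rw [h x (h2 e he x hx) c]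

open Classical in
theorem sum_closed (h1 : T ⊆ sd D) (h2 : ∀ e ∈ T, ∀ e', Same τ D e e' → e' ∈ T) (a : E → Bool) :
    sumOn T (fun a => if ∀ e ∈ T, tin e ∈ D → ep a (nx τ e) = ep a e then
      ∏ e ∈ T, Gw τ D γ S e (ep a e) else 0) a = ∏ K ∈ T.image (cls τ D), (cw τ D γ S K : ℂ) := by
  simp only [con_iff h1 h2]
  refine Eq.trans (by congr!) ((sum_cls T (cls τ D) (Gw τ D γ S) a).trans ?_)
  refine prod_congr (by congr!) fun K hK => ?_
  obtain ⟨e, he, rfl⟩ := mem_image.1 hK
  rw [← sum_Gw]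
  suffices h : T.filter (fun x => cls τ D x = cls τ D e) = cls τ D e by rw [h]
  ext x
  rw [mem_filter, mem_cls' (h1 he)]
  exact ⟨fun h => ((mem_cls' (h1 h.1)).1 (h.2 ▸ (mem_cls' (h1 he)).2 Same.rfl')).symm',
    fun h => ⟨h2 e he x h, h.cls_eq.symm⟩⟩

theorem mem_bef {e : E} : e ∈ bef τ D z ↔ e ∈ sd D ∧ e ≠ z ∧
    Relation.ReflTransGen (fun x y => tin x ∈ D ∧ y = nx τ x) e z := by
  classical
  simp [bef]

theorem rtg_iff {e : E} : Relation.ReflTransGen (fun x y => tin x ∈ D ∧ y = nx τ x) e z ↔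
    ∃ k, Fw τ D e k ∧ (nx τ)^[k] e = z := by
  constructor
  · intro h
    induction h with
    | refl => exact ⟨0, fun _ h => by omega, rfl⟩
    | tail _ h ih =>
      obtain ⟨k, h1, rfl⟩ := ih
      exact ⟨k + 1, h1.snoc h.1, by rw [iterate_succ_apply', h.2]⟩
  · rintro ⟨k, h, rfl⟩
    induction k with
    | zero => exact .refl
    | succ k ih => exact (ih (h.mono k.le_succ)).tail ⟨h k k.lt_succ_self, iterate_succ_apply' _ _ _⟩

theorem bef_sub : bef τ D z ⊆ cls τ D z := fun e he => by
  obtain ⟨h1, -, h2⟩ := mem_bef.1 he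
  obtain ⟨k, h, rfl⟩ := rtg_iff.1 h2
  exact mem_cls.2 ⟨h1, h.same.symm'⟩

/-- the arrows on the strand through a sink are determined -/
theorem cut_iff (hz : tin z ∈ D) (ε : E → Bool) (h0 : ε z = true) :
    (∀ e ∈ cls τ D z, tin e ∈ D → (if nx τ e = z then false else ε (nx τ e)) = ε e) ↔
      ¬Disjoint (cls τ D z) (bd D) ∧ ∀ e ∈ cls τ D z, ε e = decide (e ∉ bef τ D z) := by
  have zs : z ∈ sd D := mem_sd'.2 (.inl hz)
  constructor
  · intro h
    have fw : ∀ k, Fw τ D z k → ε ((nx τ)^[k] z) = true := fun k hk => by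
      induction k with
      | zero => exact h0
      | succ k ih =>
        have := h _ ((mem_cls' zs).2 (hk.mono k.le_succ).same) (hk k k.lt_succ_self)
        rw [ih (hk.mono k.le_succ)] at this
        rw [iterate_succ_apply']
        split_ifs at this
        exact this
    refine ⟨fun hd => ?_, fun e he => ?_⟩
    · rcases strand_or_loop τ D z with ⟨e, k, h1, h2, -⟩ | ⟨h1, k, hk, h2⟩
      · exact disjoint_left.1 hd ((mem_cls' zs).2 h1)
          (mem_bd'.2 fun c => h2 (c.1 ((mem_sd'.1 (h1.mem zs)).resolve_right h2)))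
      · obtain ⟨k, rfl⟩ : ∃ j, k = j + 1 := ⟨k - 1, by omega⟩
        have hk : Fw τ D z k := fun m _ => h1 m
        have := h _ ((mem_cls' zs).2 hk.same) (h1 k)
        rw [iterate_succ_apply'] at h2
        rw [if_pos h2, fw k hk] at this
        exact Bool.false_ne_true this
    · by_cases hb : e ∈ bef τ D z
      · simp only [hb, not_true, decide_false]
        obtain ⟨-, h1, h2⟩ := mem_bef.1 hb
        clear hb
        induction h2 using Relation.ReflTransGen.head_induction_on with
        | refl => exact (h1 rfl).elim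
        | head c _ ih =>
          obtain ⟨c, rfl⟩ := c
          have := h _ he c
          split_ifs at this with c'
          · exact this.symm
          · rw [← this]
            exact ih ((mem_cls' zs).2 (((mem_cls' zs).1 he).trans' (same_nx c))) c'
      · simp only [hb, not_false_eq_true, decide_true]
        obtain ⟨k, ⟨h1, rfl⟩ | h1⟩ := same_iff.1 ((mem_cls' zs).1 he)
        · exact fw k h1
        · by_contra c
          exact hb (mem_bef.2 ⟨(mem_cls.1 he).1, fun c' => c (c' ▸ h0), rtg_iff.2 ⟨k, h1⟩⟩)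
  · rintro ⟨hd, h⟩ e he c
    have he' := (mem_cls' zs).2 (((mem_cls' zs).1 he).trans' (same_nx c))
    rw [h e he]
    split_ifs with c'
    · exact (decide_eq_false fun b => b (mem_bef.2 ⟨(mem_cls.1 he).1,
        fun x => nx_ne τ e (c'.trans x.symm), .single ⟨c, c'.symm⟩⟩)).symm
    · rw [h _ he', decide_eq_decide, not_iff_not, mem_bef, mem_bef]
      refine ⟨fun b => ⟨(mem_cls.1 he).1, ?_, b.2.2.head ⟨c, rfl⟩⟩,
        fun b => ⟨(mem_cls.1 he').1, c', ?_⟩⟩
      · rintro rfl
        obtain ⟨k, h1, h2⟩ := rtg_iff.1 b.2.2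
        have p : IsPeriodicPt (nx τ) (k + 1) e := h2
        refine hd (disjoint_left.2 fun x hx hb => mem_bd'.1 hb ?_)
        have := loop_inner (fun m => p.iterate_mod_apply m ▸
          h1.cons c _ (Nat.mod_lt _ k.succ_pos)) ((mem_cls' zs).1 hx)
        tauto
      · obtain b' | ⟨y, ⟨-, rfl⟩, b'⟩ := b.2.2.cases_head
        exacts [(b.2.1 b').elim, b']

theorem card_two (zs : z ∈ sd D) (h : ¬Disjoint (cls τ D z) (bd D)) :
    (cls τ D z ∩ bd D).card = 2 := by
  obtain ⟨e, h1, h2⟩ := not_disjoint_iff.1 h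
  obtain ⟨e', h3, h4, h5⟩ := exists_partner τ h2
  have ne : e ≠ e' := by rintro rfl; tauto
  rw [mem_cls' zs] at h1
  refine card_eq_two.2 ⟨e, e', ne, ?_⟩
  ext x
  rw [mem_inter, mem_cls' zs, mem_insert, mem_singleton]
  refine ⟨fun hx => partner_unique h2 h3 hx.2 h4 (h1.symm'.trans' hx.1) ne, ?_⟩
  rintro (rfl | rfl)
  exacts [⟨h1, h2⟩, ⟨h1.trans' h4, h3⟩]

theorem cut_val (zs : z ∈ sd D) (h : ¬Disjoint (cls τ D z) (bd D)) :
    ∏ e ∈ cls τ D z, Gw τ D γ S e (decide (e ∉ bef τ D z)) = ((Real.sqrt 3)⁻¹ : ℝ) *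
      exp ((∑ e ∈ bef τ D z, θs τ D γ S e - ∑ e ∈ cls τ D z \ bef τ D z, θs τ D γ S e : ℝ) * I) := by
  simp only [Gw, prod_mul_distrib, prod_ite_mem, prod_const, card_two zs h]
  congr 1
  · rw [← ofReal_pow, ← Real.rpow_natCast, ← Real.rpow_mul (by norm_num), Real.sqrt_eq_rpow,
      ← Real.rpow_neg (by norm_num)]
    norm_num
  · rw [← prod_sdiff bef_sub, prod_congr rfl (g := fun e => ph (θs τ D γ S e) true) fun e he => by
      simp [(mem_sdiff.1 he).2], prod_congr (s₁ := bef τ D z) rfl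
      (g := fun e => ph (θs τ D γ S e) false) fun e he => by simp [he], prod_ph, prod_ph, ph, ph,
      ← exp_add]
    congr 1; push_cast; simp; ring

theorem amp_eq (h1 : lo z ∈ D) (h2 : z.1 ∈ D) (h3 : z ∉ S) (h4 : S ⊆ sd D) (a : E → Bool) :
    sumOn ((sd D).erase z) (fun a => Wt D (fun t => update a z (decide (t = lo z))) τ *
      ((∏ e ∈ bd D, bw D γ a e) * ∏ e ∈ S, ph (-β) (a e))) a = ampc τ D γ z S := by
  classical
  have hz : tin z ∈ D := by rcases tin_tout z with h | h <;> rwa [h.1]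
  have zs : z ∈ sd D := mem_sd'.2 (.inl hz)
  have zb : z ∉ bd D := by simp [mem_bd, h1, h2]
  set K := cls τ D z with hK
  have zK : z ∈ K := (mem_cls' zs).2 Same.rfl'
  have Ks : K ⊆ sd D := fun e he => (mem_cls.1 he).1
  have cl : ∀ e ∈ sd D \ K, ∀ e', Same τ D e e' → e' ∈ sd D \ K := fun e he e' c => by
    rw [mem_sdiff] at he ⊢
    exact ⟨c.mem he.1, fun c' => he.2 ((mem_cls' zs).2 (((mem_cls' zs).1 c').trans' c.symm'))⟩
  let ε : (E → Bool) → E → Bool := fun a => ep (update a z !nat z)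
  have ε1 : ∀ a, ε a z = true := fun a => by simp [ε, ep]
  have ε2 : ∀ a e, e ≠ z → ε a e = ep a e := fun a e h => by simp [ε, ep, h]
  let f : (E → Bool) → ℂ := fun a => if ¬Disjoint K (bd D) then Gw τ D γ S z true *
    ∏ e ∈ K.erase z, if a e = xor (decide (e ∉ bef τ D z)) (nat e) then
      Gw τ D γ S e (decide (e ∉ bef τ D z)) else 0 else 0
  let g : (E → Bool) → ℂ := fun a => if ∀ e ∈ sd D \ K, tin e ∈ D → ep a (nx τ e) = ep a e then
      ∏ e ∈ sd D \ K, Gw τ D γ S e (ep a e) else 0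
  have key : ∀ a, Wt D (fun t => update a z (decide (t = lo z))) τ *
      ((∏ e ∈ bd D, bw D γ a e) * ∏ e ∈ S, ph (-β) (a e)) = g a * f a := fun a => by
    have e1 : ∀ e, arcw τ (update a z (decide (tin e = lo z))) e =
        if (if nx τ e = z then false else ε a (nx τ e)) = ε a e then
          ph (π / 12 * trn τ (tin e)) (ε a e) else 0 := fun e => by
      have a1 : ep (update a z (decide (tin e = lo z))) e = ε a e := by
        by_cases c : e = z
        · subst c
          have := lo_ne e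
          rw [ε1]; simp only [ep, update_self, tin]; by_cases h5 : nat e = true <;> simp [this.symm, h5]
        · simp [ε, ep, c]
      have a2 : ep (update a z (decide (tin e = lo z))) (nx τ e) =
          if nx τ e = z then false else ε a (nx τ e) := by
        split_ifs with c
        · have := lo_ne z
          rw [← tout_nx τ e, c]; simp only [ep, update_self, tout]
          by_cases h5 : nat z = true <;> simp [this.symm, h5]
        · simp [ε, ep, c]
      rw [arcw, a1, a2]
    have e2 : (∏ e ∈ bd D, bw D γ a e) * ∏ e ∈ S, ph (-β) (a e) =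
        (∏ e ∈ bd D, bw D γ (update a z !nat z) e) * ∏ e ∈ S, ph (-β) (update a z (!nat z) e) := by
      congr 1 <;> refine prod_congr rfl fun e he => ?_
      · rw [bw, bw, update_of_ne (ne_of_mem_of_not_mem he zb)]
      · rw [update_of_ne (ne_of_mem_of_not_mem he h3)]
    have e3 : (∀ e ∈ (sd D).filter fun e => tin e ∈ D,
        (if nx τ e = z then false else ε a (nx τ e)) = ε a e) ↔
        (∀ e ∈ sd D \ K, tin e ∈ D → ep a (nx τ e) = ep a e) ∧ ¬Disjoint K (bd D) ∧
          ∀ e ∈ K.erase z, a e = xor (decide (e ∉ bef τ D z)) (nat e) := by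
      have b1 : (∀ e ∈ K.erase z, a e = xor (decide (e ∉ bef τ D z)) (nat e)) ↔
          ∀ e ∈ K, ε a e = decide (e ∉ bef τ D z) := by
        refine ⟨fun h e he => ?_, fun h e he => ?_⟩
        · by_cases c : e = z
          · simp [c, ε1, mem_bef]
          · rw [ε2 a e c, ep, h e (mem_erase.2 ⟨c, he⟩)]; simp
        · rw [← h e (mem_erase.1 he).2, ε2 a e (mem_erase.1 he).1, ep]; simp
      have b2 : ∀ e ∈ sd D \ K, tin e ∈ D → ((if nx τ e = z then false else ε a (nx τ e)) = ε a e ↔
          ep a (nx τ e) = ep a e) := fun e he c => by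
        have n1 := ne_of_mem_of_not_mem zK (mem_sdiff.1 he).2
        have n2 := ne_of_mem_of_not_mem zK (mem_sdiff.1 (cl e he _ (same_nx c))).2
        rw [if_neg n2.symm, ε2 a _ n1.symm, ε2 a _ n2.symm]
      rw [b1, ← cut_iff hz (ε a) (ε1 a)]
      refine ⟨fun h => ⟨fun e he c => (b2 e he c).1 (h e (mem_filter.2 ⟨(mem_sdiff.1 he).1, c⟩)),
        fun e he c => h e (mem_filter.2 ⟨Ks he, c⟩)⟩, fun h e he => ?_⟩
      rw [mem_filter] at he
      by_cases c : e ∈ K
      · exact h.2 e c he.2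
      · exact (b2 e (mem_sdiff.2 ⟨he.1, c⟩) he.2).2 (h.1 e (mem_sdiff.2 ⟨he.1, c⟩) he.2)
    simp only [Wt, e1, prod_ite_zero, e3, f, g]
    rw [e2, ite_mul, ← prod_Gw h4, zero_mul]
    split_ifs with c1 c2 c3 c4 <;> try tauto
    · rw [← prod_sdiff Ks, ← mul_prod_erase K _ zK]
      congr 1
      · exact prod_congr rfl fun e he => congrArg _
          (ε2 a e (ne_of_mem_of_not_mem zK (mem_sdiff.1 he).2).symm)
      · rw [show ep _ z = true from ε1 a]
        congr 1
        refine prod_congr rfl fun e he => congrArg _ ((ε2 a e (mem_erase.1 he).1).trans ?_)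
        rw [ep, c1.2.2 e he]; simp
    all_goals simp
  have e4 : (sd D).erase z = K.erase z ∪ sd D \ K := by
    ext e
    have := @Ks e
    simp only [mem_erase, mem_union, mem_sdiff]
    by_cases c : e = z <;> simp [c, zK]; tauto
  simp only [key]
  rw [e4, sumOn_union (by simp +contextual [disjoint_left]),
    sumOn_congr (g := fun a => (∏ K ∈ (sd D \ K).image (cls τ D), (cw τ D γ S K : ℂ)) * f a)
      fun a _ => by
        rw [sumOn_mul fun a' h => ?_, sum_closed sdiff_subset cl]
        simp only [f]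
        rw [prod_congr rfl fun e he => by rw [h e (by simp [(mem_erase.1 he).2])]],
    sumOn_const_mul, ampc, ← hK]
  by_cases hd : Disjoint K (bd D)
  · simp [f, hd, sumOn]
  · simp only [f, hd, not_false_eq_true, if_true, if_false]
    rw [sumOn_const_mul, sum_prod (f := fun e b => if b = xor (decide (e ∉ bef τ D z)) (nat e) then
      Gw τ D γ S e (decide (e ∉ bef τ D z)) else 0), ← cut_val zs hd, ← mul_prod_erase K _ zK,
      mul_comm]
    congr 2
    · simp [mem_bef]
    · exact prod_congr rfl fun e _ => by rw [sum_ite_eq', if_pos (mem_univ _)]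
    · ext K'
      simp only [mem_image, mem_erase, mem_sdiff]
      constructor
      · rintro ⟨e, ⟨b1, b2⟩, rfl⟩
        exact ⟨fun c => b2 (c ▸ (mem_cls' b1).2 Same.rfl'), e, b1, rfl⟩
      · rintro ⟨b1, e, b2, rfl⟩
        exact ⟨e, ⟨b2, fun c => b1 ((mem_cls' zs).1 c).cls_eq.symm⟩, rfl⟩

end ExpA

open ExpA in
theorem s_Exp : S_Exp := fun D γ => by
  classical
  refine ⟨fun a => ?_, fun z S h1 h2 h3 h4 => ?_⟩
  · rw [Zv, expand D _ (fun a _ => a), sdiff_empty, sdiff_empty]
    refine integral_congr_ae (Filter.Eventually.of_forall fun τ => ?_)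
    simp only []
    rw [← sum_closed (S := ∅) subset_rfl (fun e he e' h => h.mem he) a]
    refine sumOn_congr fun a _ => ?_
    rw [prod_Gw (empty_subset _)]
    simp [Wt, arcw, prod_ite_zero]
  · simp only [Zcut, mul_assoc]
    rw [expand D _ fun a t => update a z (decide (t = lo z))]
    simp only [amp_eq h1 h2 h3 h4]

end Pool.Agent.P.MP_6c8efb_pr.Cardy
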