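import Pool.Agent.P.MP_6c8efb_pr.Cardy.LDbl

/-! Adding rows of tiles acts on states by transfer operators. -/

open Complex Function Finset Matrix
open scoped Real

namespace Pool.Agent.P.MP_6c8efb_pr.Cardy

section
variable {ι : Type} [Fintype ι] [DecidableEq ι]

/-- a chain with a gate for every site -/
def gch (G : ι → Gate Bool) (l : List ι) : Matrix Bool Bool (Op ι) :=
  (l.map fun k => (G k).map (emb k)).prod

theorem gch_cons (G : ι → Gate Bool) (k : ι) (l : List ι) :
    gch G (k :: l) = (G k).map (emb k) * gch G l := by simp [gch]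

theorem gch_append (G : ι → Gate Bool) (l l' : List ι) : gch G (l ++ l') = gch G l * gch G l' := by
  simp [gch]

theorem gch_const {G : ι → Gate Bool} {L : Gate Bool} {l : List ι} (h : ∀ k ∈ l, G k = L) :
    gch G l = chain L l := congrArg List.prod (List.map_congr_left fun k hk => by rw [h k hk])

theorem gch_mul (m : ι → M2) (G : ι → Gate Bool) {l : List ι} (h : l.Nodup) (a b : Bool) :
    gch (fun k => (G k).map (m k * ·)) l a b = (l.map fun k => emb k (m k)).prod * gch G l a b := by
  induction l generalizing a with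
  | nil => simp [gch]
  | cons k l ih =>
    rw [List.nodup_cons] at h
    simp only [gch_cons, Matrix.mul_apply, map_apply, ih h.2, List.map_cons, List.prod_cons, map_mul,
      mul_sum, mul_assoc]
    refine sum_congr rfl fun c _ => congrArg _ ?_
    rw [← mul_assoc, ← mul_assoc, (Commute.list_prod_right _ _ fun y hy => ?_).eq]
    obtain ⟨j, hj, rfl⟩ := List.mem_map.1 hy
    exact emb_comm (by rintro rfl; exact h.1 hj) _ _

theorem emb_mulVec (k : ι) (m : M2) (ψ : (ι → Bool) → ℂ) (s : ι → Bool) :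
    (emb k m *ᵥ ψ) s = ∑ t, m (s k) t * ψ (update s k t) := by
  simp only [mulVec, dotProduct, emb_apply, ite_mul, zero_mul]
  rw [← sum_filter]
  refine (sum_bij (fun t _ => update s k t) (fun t _ => by simp +contextual)
    (fun t _ t' _ h => by simpa using congrFun h k) (fun s' h => ⟨s' k, mem_univ _, ?_⟩)
    fun t _ => by simp).symm
  funext j
  by_cases c : j = k
  · simp [c]
  · rw [update_of_ne c, (mem_filter.1 h).2 j c]

/-- the product of the operators `f y, ..., f (y + h - 1)`, the first one acting first -/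
def ops (f : ℤ → Op ι) (y : ℤ) : ℕ → Op ι
  | 0 => 1
  | h + 1 => f (y + h) * ops f y h

theorem ops_const {f : ℤ → Op ι} {y : ℤ} {h : ℕ} {T : Op ι} (H : ∀ t, y ≤ t → t < y + h → f t = T) :
    ops f y h = T ^ h := by
  induction h with
  | zero => rfl
  | succ h ih => rw [ops, ih fun t a b => H t a (by omega), H _ (by omega) (by omega), pow_succ']

theorem ops_add (f : ℤ → Op ι) (y : ℤ) (h h' : ℕ) :
    ops f y (h + h') = ops f (y + h) h' * ops f y h := by
  induction h' with
  | zero => simp [ops]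
  | succ h' ih => rw [← add_assoc, ops, ops, ih, mul_assoc, Nat.cast_add, add_assoc]

theorem ops_three {f : ℤ → Op ι} {y : ℤ} {h h' : ℕ} {T T' : Op ι}
    (H : ∀ t, y ≤ t → t < y + h → f t = T)
    (H' : ∀ t, y + h < t → t ≤ y + h + h' → f t = T') :
    ops f y (h + 1 + h') = T' ^ h' * f (y + h) * T ^ h := by
  rw [ops_add, ops, ops_const H, ops_const fun t a b => H' t (by omega) (by omega), mul_assoc]

end

variable {X : Finset ℤ}

/-- a list of consecutive columns starting at `x` -/
def Con : ℤ → List X → Prop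
  | _, [] => True
  | x, k :: l => k.1 = x ∧ Con (x + 1) l

theorem Con.mem {x : ℤ} {l : List X} (h : Con x l) {k : X} :
    k ∈ l ↔ x ≤ k.1 ∧ k.1 < x + l.length := by
  induction l generalizing x with
  | nil => simp
  | cons j l ih =>
    rw [List.mem_cons, ih h.2, Subtype.ext_iff, h.1, List.length_cons]; omega

theorem Con.nodup {x : ℤ} {l : List X} (h : Con x l) : l.Nodup := by
  induction l generalizing x with
  | nil => simp
  | cons j l ih => exact List.nodup_cons.2 ⟨by rw [h.2.mem, h.1]; omega, ih h.2⟩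

theorem con_append {x : ℤ} {l l' : List X} :
    Con x (l ++ l') ↔ Con x l ∧ Con (x + l.length) l' := by
  induction l generalizing x with
  | nil => simp [Con]
  | cons j l ih => simp [Con, ih, and_assoc, add_assoc, add_comm (1 : ℤ)]

theorem exists_con (x : ℤ) (N : ℕ) (h : ∀ a, x ≤ a → a < x + N → a ∈ X) :
    ∃ l : List X, Con x l ∧ l.length = N := by
  induction N generalizing x with
  | zero => exact ⟨[], trivial, rfl⟩
  | succ N ih =>
    obtain ⟨l, h1, h2⟩ := ih (x + 1) fun a b c => h a (by omega) (by omega)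
    exact ⟨⟨x, h x le_rfl (by omega)⟩ :: l, ⟨rfl, h1⟩, by simp [h2]⟩

/-- new heights on the columns `x, ..., x + n - 1` -/
def rz (x : ℤ) (n : ℕ) (y : ℤ) (ht : ℤ → ℤ) (c : ℤ) : ℤ := if x ≤ c ∧ c < x + n then y else ht c

theorem mem_rect {x y : ℤ} {N h : ℕ} {t : V} :
    t ∈ rect x y N h ↔ (x ≤ t.1 ∧ t.1 < x + N) ∧ y ≤ t.2 ∧ t.2 < y + h := by simp [rect]

/-- the lower and right sides of a row -/
def Sr (y : ℤ) : ℤ → ℕ → Finset E
  | _, 0 => ∅
  | x, n + 1 => insert (bot (x, y)) (insert (rgt (x, y)) (Sr y (x + 1) n))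

theorem mem_Sr {x y : ℤ} {n : ℕ} {e : E} : e ∈ Sr y x n ↔ e.1.2 = y ∧
    if e.2 then x ≤ e.1.1 ∧ e.1.1 < x + n else x < e.1.1 ∧ e.1.1 ≤ x + n := by
  obtain ⟨⟨a, t⟩, b⟩ := e
  induction n generalizing x with
  | zero => cases b <;> simp [Sr]
  | succ n ih => cases b <;> simp [Sr, ih, bot, rgt] <;> omega

theorem row0 (L : V → Gate Bool) (y : ℤ) (φ : (X → Bool) → ℂ) (g : Bool → ℂ) (ht : ℤ → ℤ)
    {l : List X} {x : ℤ} (h : Con x l) (h' : ∀ k ∈ l, ht k = y) (a : E → Bool) :
    sumOn (Sr y x l.length) (fun a => φ (rd X ht a) * g (a ((x + l.length, y), false)) *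
      ∏ t ∈ rect x y l.length 1, wg L a t) a =
      ∑ b, g b * (gch (fun k : X => L (k, y)) l (a ((x, y), false)) b *ᵥ φ)
        (rd X (rz x l.length (y + 1) ht) a) := by
  induction l generalizing x a with
  | nil =>
    have : rz x 0 (y + 1) ht = ht := funext fun c => if_neg (by omega)
    simp only [List.length_nil, this, Sr, sumOn_empty, rect, gch, List.map_nil, List.prod_nil]
    cases h : a ((x, y), false) <;> simp [h, mul_comm]
  | cons k l ih =>
    obtain ⟨rfl, h⟩ := h
    have e1 : rect k y (l.length + 1) 1 = insert (k.1, y) (rect (k + 1) y l.length 1) := by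
      ext t; simp only [mem_rect, mem_insert, Prod.ext_iff]; omega
    have e2 : ∀ t c, rd X (rz (k + 1) l.length (y + 1) ht)
        (update (update a (bot (k, y)) t) (rgt (k, y)) c) =
        update (rd X (rz k (l.length + 1) (y + 1) ht) a) k t := fun t c => funext fun j => by
      by_cases e : j = k
      · simp [e, rd, rz, h' k (by simp), bot, rgt]
      · have : j.1 ≠ k.1 := fun c => e (Subtype.ext c)
        simp only [rd, bot, rgt, ne_eq, Prod.mk.injEq, e, this, false_and, not_false_eq_true,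
          update_of_ne, Bool.true_eq_false, and_false]
        congr 3
        exact if_congr (by omega) rfl rfl
    simp only [List.length_cons, Sr, e1]
    rw [sumOn_insert (by simp [mem_Sr, bot, rgt])]
    simp only [sumOn_insert (show rgt (k, y) ∉ Sr y (k + 1) l.length by simp [mem_Sr, rgt]),
      prod_insert (show (k.1, y) ∉ rect (k + 1) y l.length 1 by simp [mem_rect]),
      show k.1 + (l.length + 1 : ℕ) = k.1 + 1 + l.length by omega, mul_comm (wg L _ (k.1, y)),
      ← mul_assoc]
    rw [sum_congr rfl fun t _ => sum_congr rfl fun c _ => by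
      rw [sumOn_mul fun a' ha => wg_dep fun e he => ha e (by
        rcases mem_sd1_iff.1 he with rfl | rfl | rfl | rfl <;> simp [mem_Sr, bot, lft, top, rgt]),
        ih h (fun j hj => h' j (by simp [hj])), e2]]
    simp only [gch_cons, Matrix.mul_apply, map_apply, sum_mulVec, ← mulVec_mulVec, Finset.sum_apply,
      emb_mulVec, mul_sum, sum_mul]
    rw [sum_comm]
    conv_rhs => rw [sum_comm]
    refine sum_congr rfl fun c _ => ?_
    rw [sum_comm]
    refine sum_congr rfl fun b _ => sum_congr rfl fun t _ => ?_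
    simp [wg, rd, rz, bot, lft, top, rgt]
    ring

/-- `φ` is the state of `R` at the heights `ht` -/
def Rep (L : V → Gate Bool) (γ : E → ℝ) (R : Finset V) (ht : ℤ → ℤ) (φ : (X → Bool) → ℂ) : Prop :=
  ∀ a, Zg L R (legs X ht) γ a = φ (rd X ht a)

/-- the operator of the row `y` -/
noncomputable def rop (L : V → Gate Bool) (γ : E → ℝ) (x : ℤ) (l : List X) (y : ℤ) : Op X :=
  cl1 (γ ((x, y), false)) (γ ((x + l.length, y), false)) (gch (fun k => L (k, y)) l)

variable {L : V → Gate Bool} {γ : E → ℝ} {R : Finset V} {ht : ℤ → ℤ} {φ : (X → Bool) → ℂ}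
  {l : List X} {x y : ℤ}

theorem c3_sq : (((3 : ℝ) ^ (-1 / 4 : ℝ) : ℝ) : ℂ) * ((3 : ℝ) ^ (-1 / 4 : ℝ) : ℝ) =
    ((Real.sqrt 3)⁻¹ : ℝ) := by
  rw [← ofReal_mul, ← Real.rpow_add (by norm_num), Real.sqrt_eq_rpow, ← Real.rpow_neg (by norm_num)]
  norm_num

theorem Rep.row (H : Rep L γ R ht φ) (h : Con x l) (h0 : 0 < l.length)
    (hX : ∀ c, x ≤ c → c < x + l.length → c ∈ X ∧ ht c = y ∧ (c, y - 1) ∈ R ∧ (c, y + 1) ∉ R)
    (hR : ∀ c, x - 1 ≤ c → c ≤ x + l.length → (c, y) ∉ R) :
    Rep L γ (R ∪ rect x y l.length 1) (rz x l.length (y + 1) ht) (rop L γ x l y *ᵥ φ) := fun a => by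
  set n := l.length with hn
  have hd : Disjoint R (rect x y n 1) := disjoint_right.2 fun t h1 h2 => by
    rw [mem_rect] at h1
    exact hR t.1 (by omega) (by omega) (by rwa [← show t.2 = y by omega])
  have k1 : ∀ e ∈ sd R, e ∈ sd (rect x y n 1) ↔
      e.2 = true ∧ e.1.2 = y ∧ x ≤ e.1.1 ∧ e.1.1 < x + n := fun ⟨⟨c, t⟩, b⟩ he => by
    have h1 := hX c
    have h2 := hR c
    have h3 := hR (c - 1)
    cases b <;> simp only [mem_sd, mem_rect, lo] at he ⊢ <;> by_cases e1 : t = y <;>
      by_cases e2 : t = y + 1 <;> simp_all <;> grind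
  have k2 : ∀ e : E, e.2 = true ∧ e.1.2 = y ∧ x ≤ e.1.1 ∧ e.1.1 < x + n → e ∈ sd R :=
    fun ⟨⟨c, t⟩, b⟩ ⟨e1, e2, e3, e4⟩ => by
      subst e1 e2; exact mem_sd.2 (.inr (hX c e3 e4).2.2.1)
  rw [Zg_union hd fun e h1 h2 => by
    have := (k1 e h1).1 h2
    simp only [mem_legs, rz]; grind]
  have e1 : Zg L R (legs X (rz x n (y + 1) ht) ∪ sd (rect x y n 1)) γ = Zg L R (legs X ht) γ :=
    Zg_congr (fun _ _ => rfl) (fun ⟨⟨c, t⟩, b⟩ he => by
      have := hX c
      have := hR c
      rw [mem_union, k1 _ he]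
      cases b <;> simp only [mem_legs, rz, mem_sd, lo] at he ⊢ <;> grind) fun _ _ _ => rfl
  let W : Finset E := (Sr y x n).filter fun e => e.2 = false
  have e2 : sd (rect x y n 1) \ (legs X (rz x n (y + 1) ht) ∪ sd R) = insert ((x, y), false) W := by
    ext ⟨⟨c, t⟩, b⟩
    have := hX c
    have j1 := k1 ((c, t), b)
    have j2 := k2 ((c, t), b)
    cases b <;> simp only [W, mem_sdiff, mem_union, mem_insert, mem_filter, mem_Sr, mem_legs, rz,
      mem_sd (D := rect x y n 1), mem_rect, lo, Prod.mk.injEq] at j1 j2 ⊢ <;> grind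
  have e3 : bd (rect x y n 1) \ (legs X (rz x n (y + 1) ht) ∪ sd R) =
      {((x, y), false), ((x + n, y), false)} := by
    ext ⟨⟨c, t⟩, b⟩
    have := hX c
    have j1 := k1 ((c, t), b)
    have j2 := k2 ((c, t), b)
    cases b <;> simp only [mem_sdiff, mem_union, mem_insert, mem_singleton, mem_legs, rz, mem_bd,
      mem_sd (D := rect x y n 1), mem_rect, lo, Prod.mk.injEq] at j1 j2 ⊢ <;> grind
  have e4 : sd R ∩ sd (rect x y n 1) ∪ insert ((x, y), false) W = insert ((x, y), false) (Sr y x n) := by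
    ext ⟨⟨c, t⟩, b⟩
    have := k1 ((c, t), b)
    have := k2 ((c, t), b)
    cases b <;> simp only [W, mem_inter, mem_union, mem_insert, mem_filter, mem_Sr,
      Prod.mk.injEq] at this ⊢ <;> grind
  simp only [e1, H _]
  rw [sumOn_congr (g := sumOn (insert ((x, y), false) W) fun a => φ (rd X ht a) *
      Zw L (rect x y n 1) (legs X (rz x n (y + 1) ht) ∪ sd R) γ a) fun a _ => by
    rw [Zg, e2, ← sumOn_const_mul]
    refine sumOn_congr fun a' ha => ?_
    congr 2
    funext k
    exact (ha _ (by simp [W])).symm, ← sumOn_union (disjoint_left.2 fun e h1 h2 => by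
      have := ((k1 e (mem_inter.1 h1).1).1 (mem_inter.1 h1).2).1
      simp only [W, mem_insert, mem_filter] at h2; grind), e4, sumOn_insert (by simp [mem_Sr])]
  simp only [Zw, e3, rop, cl1, sum_mulVec, smul_mulVec, Finset.sum_apply, Pi.smul_apply, smul_eq_mul]
  refine sum_congr rfl fun c _ => ?_
  have := row0 L y φ (fun b => ((Real.sqrt 3)⁻¹ : ℝ) * ph (γ ((x, y), false)) c *
    ph (-γ ((x + n, y), false)) b) ht h (fun k hk => (hX k (h.mem.1 hk).1 (h.mem.1 hk).2).2.1)
    (update a ((x, y), false) c)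
  rw [update_self, show rd X _ (update a ((x, y), false) c) = rd X (rz x n (y + 1) ht) a from
    funext fun k => by simp [rd, n]] at this
  refine Eq.trans (sumOn_congr fun a' ha => ?_) this
  rw [prod_pair (by simp; omega), bw, bw, if_pos (by simp [mem_rect]; omega),
    if_neg (by simp [mem_rect]), ha ((x, y), false) (by simp [mem_Sr]), update_self, ← c3_sq]
  ring

theorem Rep.strip (H : Rep L γ R ht φ) (h : Con x l) (h0 : 0 < l.length) (n : ℕ)
    (hX : ∀ c, x ≤ c → c < x + l.length → c ∈ X ∧ ht c = y ∧ (c, y - 1) ∈ R)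
    (hR : ∀ c t, x - 1 ≤ c → c ≤ x + l.length → y ≤ t → t ≤ y + n → (c, t) ∉ R) :
    Rep L γ (R ∪ rect x y l.length n) (rz x l.length (y + n) ht) (ops (rop L γ x l) y n *ᵥ φ) := by
  induction n with
  | zero =>
    have : rz x l.length y ht = ht := funext fun c => by
      have := hX c
      unfold rz; grind
    simpa [this, ops, rect] using H
  | succ n ih =>
    have := (ih fun c t a b d e => hR c t a b d (by omega)).row (y := y + n) h h0
      (fun c a b => by
        have := hX c a b
        have := hR c (y + n + 1)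
        simp only [rz, mem_union, mem_rect]
        by_cases e : n = 0 <;> grind)
      fun c a b => by
        have := hR c (y + n)
        simp only [mem_union, mem_rect]; grind
    rw [mulVec_mulVec] at this
    convert this using 1
    · ext t; simp only [mem_union, mem_rect]; grind
    · funext c; simp only [rz]; grind
    · rfl

theorem Rep.pair {R' : Finset V} {φ' : (X → Bool) → ℂ} (H : Rep L γ R ht φ) (H' : Rep L γ R' ht φ')
    (h : Disjoint R R') (h' : sd R ∩ sd R' = legs X ht) (a : E → Bool) :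
    Zg L (R ∪ R') ∅ γ a = φ' ⬝ᵥ φ := by
  rw [Zg_union h (by simp), h', Zg_congr (Γ' := legs X ht) (fun _ _ => rfl)
    (fun e he => by simp [← h', he]) fun _ _ _ => rfl, Zg_congr (R := R') (Γ' := legs X ht)
    (fun _ _ => rfl) (fun e he => by simp [← h', he]) fun _ _ _ => rfl]
  simp only [H _, H' _]
  rw [sum_legs X ht fun s => φ s * φ' s, dotProduct_comm]; rfl

end Pool.Agent.P.MP_6c8efb_pr.Cardy
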