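import Pool.Agent.P.MP_6c8efb_pr.Cardy.TBasic

/-! Sums over arrows and gluing of six-vertex partition functions. -/

open Complex Function Finset

namespace Pool.Agent.P.MP_6c8efb_pr.Cardy

variable {S T : Finset E} {f g : (E → Bool) → ℂ} {a : E → Bool}

@[simp] theorem sumOn_empty (f : (E → Bool) → ℂ) (a : E → Bool) : sumOn ∅ f a = f a := by
  simp [sumOn]

theorem sumOn_union (h : Disjoint S T) (f : (E → Bool) → ℂ) (a : E → Bool) :
    sumOn (S ∪ T) f a = sumOn S (sumOn T f) a := by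
  simp only [sumOn, updateFinset_updateFinset h]
  rw [← Fintype.sum_prod_type']
  exact ((Equiv.piFinsetUnion (fun _ => Bool) h).sum_comp fun η => f (updateFinset a _ η)).symm

theorem sumOn_single (e : E) (f : (E → Bool) → ℂ) (a : E → Bool) :
    sumOn {e} f a = ∑ b, f (update a e b) := by
  simp only [sumOn, updateFinset_singleton]
  exact (Equiv.funUnique ({e} : Finset E) Bool).sum_comp fun b => f (update a e b)

theorem sumOn_insert {e : E} (h : e ∉ S) (f : (E → Bool) → ℂ) (a : E → Bool) :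
    sumOn (insert e S) f a = ∑ b, sumOn S f (update a e b) := by
  rw [insert_eq, sumOn_union (disjoint_singleton_left.2 h), sumOn_single]

theorem sumOn_congr (h : ∀ a', (∀ e, e ∉ S → a' e = a e) → f a' = g a') :
    sumOn S f a = sumOn S g a :=
  sum_congr rfl fun _ _ => h _ fun e he => by simp [updateFinset, he]

theorem sumOn_mul (h : ∀ a', (∀ e, e ∉ S → a' e = a e) → g a' = g a) :
    sumOn S (fun a => f a * g a) a = sumOn S f a * g a := by
  rw [sumOn_congr (g := fun a' => f a' * g a) fun a' h' => by rw [h a' h']]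
  simp only [sumOn, sum_mul]

theorem sumOn_const_mul (c : ℂ) : sumOn S (fun a => c * f a) a = c * sumOn S f a := by
  simp only [sumOn, mul_sum]

theorem sumOn_dep {a' : E → Bool} (hf : DependsOn f T) (h : ∀ e ∈ T, e ∉ S → a e = a' e) :
    sumOn S f a = sumOn S f a' :=
  sum_congr rfl fun _ _ => hf fun e he => by
    by_cases hs : e ∈ S <;> simp [updateFinset, hs, h e he]

theorem sd1_sub {D : Finset V} {t : V} (h : t ∈ D) : sd1 t ⊆ sd D := subset_biUnion_of_mem sd1 h

/-! ### partition functions with a gate for every tile -/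

def wg (L : V → Gate Bool) (a : E → Bool) (t : V) : ℂ :=
  L t (a (lft t)) (a (rgt t)) (a (top t)) (a (bot t))

noncomputable def Zw (L : V → Gate Bool) (R : Finset V) (Γ : Finset E) (γ : E → ℝ) (a : E → Bool) :
    ℂ := (∏ t ∈ R, wg L a t) * ∏ e ∈ bd R \ Γ, bw R γ a e

noncomputable def Zg (L : V → Gate Bool) (R : Finset V) (Γ : Finset E) (γ : E → ℝ) :
    (E → Bool) → ℂ := sumOn (sd R \ Γ) (Zw L R Γ γ)

theorem Zv_eq (R : Finset V) (Γ : Finset E) (γ : E → ℝ) :
    Zv R Γ γ = Zg (fun _ => Lg (Real.pi / 2)) R Γ γ := rfl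

variable {L L' : V → Gate Bool} {R R' : Finset V} {Γ Γ' : Finset E} {γ γ' : E → ℝ}

theorem wg_dep {t : V} {a' : E → Bool} (h : ∀ e ∈ sd1 t, a e = a' e) : wg L a t = wg L a' t := by
  simp only [wg]
  rw [h (lft t), h (rgt t), h (top t), h (bot t)] <;> simp [sd1]

theorem Zw_dep : DependsOn (Zw L R Γ γ) (sd R) := fun a a' h => by
  unfold Zw
  congr 1
  · exact prod_congr rfl fun t ht => wg_dep fun e he => h e (sd1_sub ht he)
  · exact prod_congr rfl fun e he => by rw [bw, bw, h e (bd_sub _ (mem_sdiff.1 he).1)]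

theorem Zg_dep {a' : E → Bool} (h : ∀ e ∈ sd R, e ∈ Γ → a e = a' e) :
    Zg L R Γ γ a = Zg L R Γ γ a' :=
  sumOn_dep Zw_dep fun e he h' => h e he (by by_contra h''; exact h' (mem_sdiff.2 ⟨he, h''⟩))

theorem Zg_congr (h1 : ∀ t ∈ R, L t = L' t) (h2 : ∀ e ∈ sd R, e ∈ Γ ↔ e ∈ Γ')
    (h3 : ∀ e ∈ bd R, e ∉ Γ → γ e = γ' e) : Zg L R Γ γ = Zg L' R Γ' γ' := by
  have e1 : sd R \ Γ = sd R \ Γ' := by ext e; simp only [mem_sdiff]; exact and_congr_right fun h => (h2 e h).not
  have e2 : bd R \ Γ = bd R \ Γ' := by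
    ext e; simp only [mem_sdiff]; exact and_congr_right fun h => (h2 e (bd_sub _ h)).not
  rw [Zg, Zg, ← e1]
  congr 1
  funext a
  rw [Zw, Zw, ← e2]
  congr 1
  · exact prod_congr rfl fun t ht => by rw [wg, wg, h1 t ht]
  · exact prod_congr rfl fun e he => by rw [bw, bw, h3 e (mem_sdiff.1 he).1 (mem_sdiff.1 he).2]

/-- gluing two disjoint sets of tiles -/
theorem Zg_union (h : Disjoint R R') (hΓ : ∀ e ∈ sd R, e ∈ sd R' → e ∉ Γ) (a : E → Bool) :
    Zg L (R ∪ R') Γ γ a = sumOn (sd R ∩ sd R')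
      (fun a => Zg L R (Γ ∪ sd R') γ a * Zg L R' (Γ ∪ sd R) γ a) a := by
  have hd : ∀ t, t ∈ R → t ∉ R' := fun t ht => disjoint_left.1 h ht
  have e1 : sd (R ∪ R') \ Γ = sd R ∩ sd R' ∪ (sd R' \ (Γ ∪ sd R) ∪ sd R \ (Γ ∪ sd R')) := by
    ext e
    have := hΓ e
    simp only [mem_sdiff, mem_union, mem_inter, sd, union_biUnion] at this ⊢
    tauto
  have e2 : bd (R ∪ R') \ Γ = bd R \ (Γ ∪ sd R') ∪ bd R' \ (Γ ∪ sd R) := by
    ext e
    have h1 := hd (lo e)
    have h2 := hd e.1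
    have := hΓ e
    simp only [mem_sdiff, mem_union, mem_bd, mem_sd] at this ⊢
    tauto
  have e3 : Zw L (R ∪ R') Γ γ = fun a => Zw L R (Γ ∪ sd R') γ a * Zw L R' (Γ ∪ sd R) γ a := by
    funext a
    rw [Zw, Zw, Zw, prod_union h, e2, prod_union (disjoint_left.2 fun e h1 h2 =>
      (mem_sdiff.1 h2).2 (mem_union_right _ (bd_sub _ (mem_sdiff.1 h1).1))), mul_mul_mul_comm]
    congr 2 <;> refine prod_congr rfl fun e he => ?_ <;>
      simp only [mem_sdiff, mem_union, mem_sd, not_or] at he <;> simp [bw, he]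
  rw [Zg, e1, sumOn_union (by simp +contextual [disjoint_left]), e3]
  refine sumOn_congr fun a _ => ?_
  rw [sumOn_union (by simp +contextual [disjoint_left])]
  rw [sumOn_congr (g := fun a => Zw L R' (Γ ∪ sd R) γ a * Zg L R (Γ ∪ sd R') γ a) fun a _ => by
    rw [sumOn_mul fun a' h' => Zw_dep fun e he => h' e (by simp [mem_coe.1 he]), mul_comm]; rfl]
  rw [sumOn_mul fun a' h' => Zg_dep fun e he _ => h' e (by simp [he]), mul_comm]; rfl

end Pool.Agent.P.MP_6c8efb_pr.Cardy
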