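import Pool.Agent.P.MP_6c8efb_pr.Cardy.AIface

/-! The defect of a current between low lying states. -/

open Matrix Complex
open scoped Matrix.Norms.L2Operator ComplexConjugate Real

namespace Pool.Agent.P.MP_6c8efb_pr.Cardy

namespace LowA

theorem tan_le (y : ℝ) : ‖tan (y * I / 2)‖ ≤ 1 - Real.exp (-|y|) := by
  have e : (y : ℂ) * I / 2 = ((y / 2 : ℝ) : ℂ) * I := by push_cast; ring
  rw [e, Complex.tan_mul_I, norm_mul, norm_I, mul_one, ← ofReal_tanh, norm_real, Real.norm_eq_abs,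
    Real.tanh_eq_sinh_div_cosh, abs_div, Real.abs_sinh, abs_of_pos (Real.cosh_pos _),
    ← Real.cosh_abs, div_le_iff₀ (Real.cosh_pos _), abs_div, abs_two, Real.sinh_eq, Real.cosh_eq]
  have h1 : Real.exp (-|y|) ≤ 1 := Real.exp_le_one_iff.2 (by simp)
  have h2 : Real.exp (-|y|) * Real.exp (|y| / 2) = Real.exp (-(|y| / 2)) := by
    rw [← Real.exp_add]; congr 1; ring
  have h3 : 0 ≤ (1 - Real.exp (-|y|)) * Real.exp (-(|y| / 2)) :=
    mul_nonneg (by linarith) (Real.exp_pos _).le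
  nlinarith

theorem num {ε : ℝ} (hε : 0 < ε) : ∃ c : ℝ, 0 ≤ c ∧ ∀ (L : ℝ) (d : ℕ) (y : ℝ), 0 ≤ L →
    ε * Real.exp L ≤ d → |y| ≤ 4 / 5 * L →
    Real.exp (y / 3) * ‖tan (y * I / 2)‖ ^ d ≤ c * Real.exp (L * (-16 / 15)) * |y| := by
  refine ⟨Real.exp 1 * Nat.factorial 10 / ε ^ 10, by positivity, fun L d y hL hd hy => ?_⟩
  obtain ⟨d, rfl⟩ : ∃ d', d = d' + 1 := by
    refine ⟨d - 1, (Nat.sub_add_cancel (Nat.pos_of_ne_zero fun h => ?_)).symm⟩
    rw [h, Nat.cast_zero] at hd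
    exact absurd hd (not_le.2 (by positivity))
  push_cast at hd
  have h0 := tan_le y
  have h1 : ‖tan (y * I / 2)‖ ≤ |y| := by
    have := Real.add_one_le_exp (-|y|); linarith
  have h2 : ‖tan (y * I / 2)‖ ≤ Real.exp (-Real.exp (-(4 / 5 * L))) := by
    have a1 := Real.add_one_le_exp (-Real.exp (-(4 / 5 * L)))
    have a2 : Real.exp (-(4 / 5 * L)) ≤ Real.exp (-|y|) := Real.exp_le_exp.2 (by linarith)
    linarith
  have h3 : ε * Real.exp (L / 5) - 1 ≤ d * Real.exp (-(4 / 5 * L)) := by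
    have a1 : Real.exp (L / 5) = Real.exp L * Real.exp (-(4 / 5 * L)) := by
      rw [← Real.exp_add]; congr 1; ring
    have a2 : Real.exp (-(4 / 5 * L)) ≤ 1 := Real.exp_le_one_iff.2 (by linarith)
    have a3 := mul_le_mul_of_nonneg_right hd (Real.exp_pos (-(4 / 5 * L))).le
    rw [a1]; linarith
  have h4 : ‖tan (y * I / 2)‖ ^ d ≤ Real.exp 1 * Real.exp (-(ε * Real.exp (L / 5))) := by
    refine (pow_le_pow_left₀ (norm_nonneg _) h2 d).trans ?_
    rw [← Real.exp_nat_mul, ← Real.exp_add, Real.exp_le_exp]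
    linarith
  have h5 : Real.exp (-(ε * Real.exp (L / 5))) ≤ Nat.factorial 10 / ε ^ 10 * Real.exp (-(2 * L)) := by
    have a1 := Real.pow_div_factorial_le_exp (ε * Real.exp (L / 5)) (by positivity) 10
    have a2 : Real.exp (L / 5) ^ 10 = Real.exp (2 * L) := by
      rw [← Real.exp_nat_mul]; congr 1; push_cast; ring
    rw [mul_pow, a2] at a1
    rw [Real.exp_neg, Real.exp_neg]
    refine (inv_anti₀ (by positivity) a1).trans_eq ?_
    field_simp
  have h6 : Real.exp (y / 3) * Real.exp (-(2 * L)) ≤ Real.exp (L * (-16 / 15)) := by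
    rw [← Real.exp_add, Real.exp_le_exp]
    have := le_abs_self y
    linarith
  calc Real.exp (y / 3) * ‖tan (y * I / 2)‖ ^ (d + 1)
      = Real.exp (y / 3) * ‖tan (y * I / 2)‖ ^ d * ‖tan (y * I / 2)‖ := by ring
    _ ≤ Real.exp (y / 3) * (Real.exp 1 * (Nat.factorial 10 / ε ^ 10 * Real.exp (-(2 * L)))) *
        |y| := by
        gcongr
        exact h4.trans (by gcongr)
    _ = Real.exp 1 * Nat.factorial 10 / ε ^ 10 * (Real.exp (y / 3) * Real.exp (-(2 * L))) *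
        |y| := by ring
    _ ≤ _ := by gcongr

variable {n : Type} [Fintype n] [DecidableEq n]

/-- the projection -/
noncomputable def pr (P : Finset n) : Matrix n n ℂ := diagonal fun k => if k ∈ P then (1 : ℂ) else 0
/-- the inverse on the range of the projection -/
noncomputable def ai (P : Finset n) (Λ : n → ℂ → ℂ) (u : ℂ) : Matrix n n ℂ :=
  diagonal fun k => if k ∈ P then (Λ k u)⁻¹ else 0
/-- the diagonal family -/
def dg (Λ : n → ℂ → ℂ) (u : ℂ) : Matrix n n ℂ := diagonal fun k => Λ k u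

theorem norm_diag {f : n → ℂ} {c : ℝ} (hc : 0 ≤ c) (h : ∀ k, ‖f k‖ ≤ c) : ‖diagonal f‖ ≤ c := by
  rw [Matrix.l2_opNorm_diagonal]; exact (pi_norm_le_iff_of_nonneg hc).2 h

theorem norm_pr (P : Finset n) : ‖pr P‖ ≤ 1 :=
  norm_diag zero_le_one fun k => by split_ifs <;> simp

theorem pr_dg (P : Finset n) (Λ : n → ℂ → ℂ) (u : ℂ) : pr P * dg Λ u = dg Λ u * pr P := by
  simp only [pr, dg, diagonal_mul_diagonal, mul_comm]

theorem big_open : IsOpen Big :=
  (isOpen_lt continuous_const continuous_re).inter (isOpen_lt continuous_re continuous_const)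

theorem big_nhds {u : ℂ} (hu : u ∈ Phys) : Big ∈ nhds u :=
  big_open.mem_nhds ⟨by linarith [hu.1, Real.pi_pos], by linarith [hu.2, Real.pi_pos]⟩

section
variable {P : Finset n} {Λ : n → ℂ → ℂ} {u : ℂ}

theorem ne (h : ∀ k ∈ P, 1 / 2 ≤ ‖Λ k u‖) {k : n} (hk : k ∈ P) : Λ k u ≠ 0 :=
  norm_pos_iff.1 (lt_of_lt_of_le (by norm_num) (h k hk))

theorem norm_ai (h : ∀ k ∈ P, 1 / 2 ≤ ‖Λ k u‖) : ‖ai P Λ u‖ ≤ 2 :=
  norm_diag zero_le_two fun k => by
    split_ifs with hk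
    · rw [norm_inv]
      exact (inv_anti₀ (by norm_num) (h k hk)).trans_eq (by norm_num)
    · simp

theorem ai_dg (h : ∀ k ∈ P, 1 / 2 ≤ ‖Λ k u‖) : ai P Λ u * dg Λ u = pr P := by
  simp only [ai, pr, dg, diagonal_mul_diagonal]
  congr 1
  funext k
  split_ifs with hk
  · exact inv_mul_cancel₀ (ne h hk)
  · simp

theorem dg_ai (h : ∀ k ∈ P, 1 / 2 ≤ ‖Λ k u‖) : dg Λ u * ai P Λ u = pr P := by
  rw [← ai_dg h]
  simp only [ai, dg, diagonal_mul_diagonal, mul_comm]

theorem ai_one (h : ∀ k, Λ k u = 1) : ai P Λ u = pr P := by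
  simp only [ai, pr, h, inv_one]

theorem an_ai (hd : ∀ k, DifferentiableOn ℂ (Λ k) Big) (hu : u ∈ Phys)
    (h : ∀ k ∈ P, 1 / 2 ≤ ‖Λ k u‖) : AnalyticAt ℂ (ai P Λ) u := by
  have e : ai P Λ = fun u => ∑ k ∈ P, (Λ k u)⁻¹ • (single k k 1 : Matrix n n ℂ) := by
    funext u
    ext i j
    simp only [ai, Matrix.sum_apply, Matrix.smul_apply, diagonal_apply, single_apply, smul_eq_mul]
    by_cases hij : i = j
    · subst hij; simp
    · rw [if_neg hij]
      refine (Finset.sum_eq_zero fun k _ => ?_).symm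
      rw [if_neg fun h => hij (h.1.symm.trans h.2), mul_zero]
  rw [e]
  exact Finset.analyticAt_fun_sum _ fun k hk =>
    (((hd k).analyticAt (big_nhds hu)).inv (ne h hk)).smul analyticAt_const

end

theorem norm3 {A B C : Matrix n n ℂ} {a b c : ℝ} (hA : ‖A‖ ≤ a) (hB : ‖B‖ ≤ b) (hC : ‖C‖ ≤ c) :
    ‖A * B * C‖ ≤ a * b * c := by
  have h1 := (norm_nonneg _).trans hA
  have h2 := (norm_nonneg _).trans hB
  refine (norm_mul_le _ _).trans ?_
  gcongr
  exact (norm_mul_le _ _).trans (by gcongr)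

theorem jump {P P' : Finset n} {Λ Λ' : n → ℂ → ℂ} {u v : ℂ} (A B : Matrix n n ℂ) {b : ℝ}
    (h : ∀ k ∈ P, 1 / 2 ≤ ‖Λ k v‖) (h' : ∀ k ∈ P', 1 / 2 ≤ ‖Λ' k u‖)
    (hb : ‖A * dg Λ v + dg Λ' u * B‖ ≤ b) :
    ‖ai P' Λ' u * A * pr P - -(pr P' * B * ai P Λ v)‖ ≤ 4 * b := by
  have e : ai P' Λ' u * A * pr P - -(pr P' * B * ai P Λ v) =
      ai P' Λ' u * (A * dg Λ v + dg Λ' u * B) * ai P Λ v := by
    rw [← dg_ai h, ← ai_dg h']; noncomm_ring
  rw [e]
  exact (norm3 (norm_ai h') hb (norm_ai h)).trans_eq (by ring)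

end LowA

open LowA in
theorem s_Low (h : S_Cau) : S_Low := by
  obtain ⟨C₀, h⟩ := h
  intro C ε hε
  obtain ⟨c, hc, hnum⟩ := num hε
  refine ⟨C * (|C₀| * (2 * C + 4 * C * c)) * C, ⌈Real.exp (5 / 4)⌉₊, ?_⟩
  intro n _ _ N d Λ Λ' Y Y' P P' hN hd hΛ hΛ' hcur hP hP'
  have hN1 : Real.exp (5 / 4) ≤ N := (Nat.le_ceil _).trans (by exact_mod_cast hN)
  have hN0 : (0 : ℝ) < N := (Real.exp_pos _).trans_le hN1
  have hL : 5 / 4 ≤ Real.log N := (Real.le_log_iff_exp_le hN0).2 hN1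
  rw [Real.rpow_def_of_pos hN0]
  rw [← Real.exp_log hN0] at hd
  generalize Real.log N = L at hL hd hP hP'
  have hpi := Real.pi_pos
  have m0 : (0 : ℂ) ∈ Phys := ⟨by simp, by simpa using hpi.le⟩
  have m1 : (π / 2 : ℂ) ∈ Phys := ⟨by simp; positivity, by simp; linarith⟩
  have i1 : |(π / 2 : ℂ).im| ≤ 4 / 5 * L := by simp; linarith
  have hC : 0 ≤ C := by simpa using (norm_nonneg _).trans (hcur.bd 0 m0)
  have key := h (Matrix n n ℂ) (fun u => ai P' Λ' u * Y u * pr P)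
    (fun u => -(pr P' * Y' u * ai P Λ u)) (4 / 5 * L) (2 * C)
    (4 * C * c * Real.exp (L * (-16 / 15))) (by linarith) (fun u hu hi => by
      have a1 := fun k hk => hP k hk u hu hi
      have a2 := fun k hk => hP' k hk u hu hi
      refine ⟨((an_ai (fun k => (hΛ' k).diff) hu a2).mul
        (hcur.diff.analyticAt (big_nhds hu))).mul analyticAt_const,
        ((analyticAt_const.mul (hcur.diff'.analyticAt (big_nhds hu))).mul
          (an_ai (fun k => (hΛ k).diff) hu a1)).neg,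
        (norm3 (norm_ai a2) (hcur.bd u hu) (norm_pr P)).trans_eq (by ring), ?_⟩
      rw [norm_neg]
      exact (norm3 (norm_pr P') (hcur.bd' u hu) (norm_ai a1)).trans_eq (by ring))
    (fun y hy => by
      have a0 := mul_le_mul_of_nonneg_left (hnum L d y (by linarith) hd hy) hC
      have a1 := hcur.rel0 (y * I) (by simp)
      have a2 := hcur.rel1 (y * I) (by simp)
      have a3 : ((y : ℂ) * I).im = y := by simp
      rw [a3, mul_assoc] at a1 a2
      constructor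
      · refine (jump (Y _) (Y' _)
          (fun k hk => hP k hk _ ⟨by simp, by simpa using hpi.le⟩ (by simpa using hy))
          (fun k hk => hP' k hk _ ⟨by simp, by simpa using hpi.le⟩ (by simpa using hy))
          (a1.trans a0)).trans_eq (by ring)
      · refine (jump (Y _) (Y' _)
          (fun k hk => hP k hk _ ⟨by simpa using hpi.le, by simp⟩ (by simpa using hy))
          (fun k hk => hP' k hk _ ⟨by simpa using hpi.le, by simp⟩ (by simpa using hy))
          (a2.trans a0)).trans_eq (by ring))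
  have e0 : ai P' Λ' 0 = pr P' := ai_one fun k => (hΛ' k).zero
  have e1 : ai P' Λ' π = pr P' := ai_one fun k => by
    have := (hΛ' k).cross 0 (mem_of_mem_nhds (big_nhds m0))
    rwa [sub_zero, (hΛ' k).zero] at this
  have e2 := dg_ai fun k hk => hP' k hk _ m1 i1
  have e3 := ai_dg fun k hk => hP k hk _ m1 i1
  have e4 := pr_dg P Λ (π / 2)
  have e5 := pr_dg P' Λ' (π / 2)
  have e : pr P' * dfc (dg Λ) (dg Λ') Y Y' * pr P = dg Λ' (π / 2) *
      (ai P' Λ' (π / 2) * Y (π / 2) * pr P - -(pr P' * Y' (π / 2) * ai P Λ (π / 2)) +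
        I • (ai P' Λ' 0 * Y 0 * pr P - ai P' Λ' π * Y π * pr P)) * dg Λ (π / 2) := by
    have a1 : pr P' * dfc (dg Λ) (dg Λ') Y Y' * pr P =
        pr P' * Y (π / 2) * (dg Λ (π / 2) * pr P) + (pr P' * dg Λ' (π / 2)) * Y' (π / 2) * pr P +
          I • ((pr P' * dg Λ' (π / 2)) * (Y 0 - Y π) * (dg Λ (π / 2) * pr P)) := by
      simp only [dfc, mul_add, add_mul, mul_smul_comm, smul_mul_assoc, mul_assoc]
    have a2 : ∀ A B : Matrix n n ℂ, dg Λ' (π / 2) * (A * Y (π / 2) * pr P -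
        -(pr P' * Y' (π / 2) * B) + I • (pr P' * Y 0 * pr P - pr P' * Y π * pr P)) * dg Λ (π / 2) =
        (dg Λ' (π / 2) * A) * Y (π / 2) * (pr P * dg Λ (π / 2)) +
          (dg Λ' (π / 2) * pr P') * Y' (π / 2) * (B * dg Λ (π / 2)) +
          I • ((dg Λ' (π / 2) * pr P') * (Y 0 - Y π) * (pr P * dg Λ (π / 2))) := by
      intro A B
      simp only [sub_neg_eq_add, mul_add, add_mul, mul_smul_comm, smul_mul_assoc, mul_assoc,
        mul_sub, sub_mul]
    rw [a1, e0, e1, a2, e2, e3, e4, e5]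
  have e6 : -4 * (4 / 5 * L) / 3 = L * (-16 / 15) := by ring
  rw [e6] at key
  have b1 : ‖dg Λ (π / 2)‖ ≤ C := norm_diag hC fun k => (hΛ k).bd _ m1
  have b2 : ‖dg Λ' (π / 2)‖ ≤ C := norm_diag hC fun k => (hΛ' k).bd _ m1
  have b3 := key.trans (mul_le_mul_of_nonneg_right (le_abs_self C₀) (by positivity))
  refine (le_of_eq (congrArg norm e)).trans ((norm3 b2 b3 b1).trans_eq (by ring))

end Pool.Agent.P.MP_6c8efb_pr.Cardy
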