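import Pool.Agent.P.MP_6c8efb_pr.Prob
import Pool.Agent.P.MP_3aa27f_pr.BK

/-! The number of disjoint occurrences of an increasing local event and its moments. -/

open MeasureTheory unitInterval Finset

namespace Pool.Agent.P.MP_6c8efb_pr.Cardy

open Pool.Agent.P.MP_3aa27f_pr (DO)

variable {ι : Type*} {A B : Set (ι → Bool)} {S : Set ι} {ω : ι → Bool} {n : ℕ}

/-- at least `n` disjoint occurrences -/
def DN (A : Set (ι → Bool)) (n : ℕ) : Set (ι → Bool) :=
  {ω | ∃ η : ℕ → ι → Bool, (∀ k < n, η k ≤ ω ∧ η k ∈ A) ∧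
    ∀ k < n, ∀ l < n, k ≠ l → ∀ i, η k i = true → η l i = true → False}

theorem mem_DN {κ : Type*} (s : Finset κ) (η : κ → ι → Bool) (h1 : ∀ k ∈ s, η k ≤ ω ∧ η k ∈ A)
    (h2 : ∀ k ∈ s, ∀ l ∈ s, k ≠ l → ∀ i, η k i = true → η l i = true → False)
    (hn : n ≤ s.card) : ω ∈ DN A n := by
  let e := s.equivFin.symm
  refine ⟨fun k => if h : k < s.card then η (e ⟨k, h⟩) else ω, fun k hk => ?_,
    fun k hk l hl hkl => ?_⟩
  · simp only [dif_pos (hk.trans_le hn)]
    exact h1 _ (e _).2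
  · simp only [dif_pos (hk.trans_le hn), dif_pos (hl.trans_le hn)]
    refine h2 _ (e _).2 _ (e _).2 fun h => hkl ?_
    simpa using e.injective (Subtype.ext h)

theorem DN_zero (A : Set (ι → Bool)) : DN A 0 = Set.univ :=
  Set.eq_univ_of_forall fun ω => ⟨fun _ => ω, by simp, by simp⟩

theorem DN_mono (h : A ⊆ B) (n : ℕ) : DN A n ⊆ DN B n :=
  fun _ ⟨η, h1, h2⟩ => ⟨η, fun k hk => ⟨(h1 k hk).1, h (h1 k hk).2⟩, h2⟩

theorem DN_anti {m : ℕ} (h : m ≤ n) : DN A n ⊆ DN A m :=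
  fun _ ⟨η, h1, h2⟩ => ⟨η, fun k hk => h1 k (hk.trans_le h),
    fun k hk l hl => h2 k (hk.trans_le h) l (hl.trans_le h)⟩

theorem up_DN (A : Set (ι → Bool)) (n : ℕ) : IsUpperSet (DN A n) :=
  fun _ _ h ⟨η, h1, h2⟩ => ⟨η, fun k hk => ⟨(h1 k hk).1.trans h, (h1 k hk).2⟩, h2⟩

theorem dep_DN (h : Dep A S) (n : ℕ) : Dep (DN A n) S := by
  classical
  rintro ω ω' hω ⟨η, h1, h2⟩
  refine ⟨fun k i => if i ∈ S then η k i else false, fun k hk => ⟨fun i => ?_,
    h (fun i hi => by simp [hi]) (h1 k hk).2⟩, fun k hk l hl hkl i a b => ?_⟩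
  · by_cases hi : i ∈ S
    · simp only [hi, if_true, ← hω i hi]; exact (h1 k hk).1 i
    · simp [hi]
  · by_cases hi : i ∈ S
    · simp only [hi, if_true] at a b; exact h2 k hk l hl hkl i a b
    · simp [hi] at a

theorem loc_DN (h : Loc A) (n : ℕ) : Loc (DN A n) :=
  let ⟨S, hS, h⟩ := h; ⟨S, hS, dep_DN h n⟩

/-- splitting a family of disjoint occurrences in two -/
theorem DO_of {κ : Type*} (s t : Finset κ) (hd : Disjoint s t) (η : κ → ι → Bool)
    (h1 : ∀ k ∈ s, η k ≤ ω ∧ η k ∈ A) (h1' : ∀ k ∈ t, η k ≤ ω ∧ η k ∈ B)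
    (h2 : ∀ k, k ∈ s ∨ k ∈ t → ∀ l, l ∈ s ∨ l ∈ t → k ≠ l → ∀ i, η k i = true → η l i = true →
      False) : ω ∈ DO (DN A s.card) (DN B t.card) := by
  classical
  have key : ∀ (r : Finset κ) (C : Set (ι → Bool)), (∀ k ∈ r, η k ≤ ω ∧ η k ∈ C) →
      (∀ k ∈ r, k ∈ s ∨ k ∈ t) → (fun i => decide (∃ k ∈ r, η k i = true)) ≤ ω ∧
        (fun i => decide (∃ k ∈ r, η k i = true)) ∈ DN C r.card := fun r C a b => by
    refine ⟨fun i => ?_, mem_DN r η (fun k hk => ⟨fun i => ?_, (a k hk).2⟩)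
      (fun k hk l hl => h2 k (b k hk) l (b l hl)) le_rfl⟩
    · by_cases h : ∃ k ∈ r, η k i = true
      · obtain ⟨k, hk, e⟩ := h
        have := (a k hk).1 i
        rw [e] at this
        exact le_top.trans this
      · simp only [h, decide_false]; exact bot_le
    · cases e : η k i
      · exact bot_le
      · simp only [show ∃ k ∈ r, η k i = true from ⟨k, hk, e⟩, decide_true]; exact le_rfl
  refine ⟨_, _, (key s A h1 fun _ => Or.inl).1, (key t B h1' fun _ => Or.inr).1, fun i a b => ?_,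
    (key s A h1 fun _ => Or.inl).2, (key t B h1' fun _ => Or.inr).2⟩
  simp only [decide_eq_true_eq] at a b
  obtain ⟨k, hk, a⟩ := a
  obtain ⟨l, hl, b⟩ := b
  exact h2 k (Or.inl hk) l (Or.inr hl) (fun e => disjoint_left.1 hd hk (e ▸ hl)) i a b

theorem DN_one (hA : IsUpperSet A) : DN A 1 ⊆ A :=
  fun _ ⟨_, h1, _⟩ => hA (h1 0 one_pos).1 (h1 0 one_pos).2

theorem BK' (π : ι → I) (hA : Loc A) (hB : Loc B) (uA : IsUpperSet A) (uB : IsUpperSet B) :
    Pr π (DO A B) ≤ Pr π A * Pr π B := Pool.Agent.P.MP_3aa27f_pr.BK π hA hB uA uB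

theorem Pr_DN (π : ι → I) (hA : Loc A) (uA : IsUpperSet A) (n : ℕ) :
    Pr π (DN A n) ≤ Pr π A ^ n := by
  induction n with
  | zero => simp [DN_zero]
  | succ n ih =>
    have h1 : DN A (n + 1) ⊆ DO (DN A n) (DN A 1) := by
      rintro ω ⟨η, h1, h2⟩
      have := DO_of (A := A) (B := A) (range n) {n} (by simp) η
        (fun k hk => h1 k (by simp at hk; omega)) (fun k hk => h1 k (by simp at hk; omega))
        fun k hk l hl => h2 k (by simp at hk; omega) l (by simp at hl; omega)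
      simpa using this
    refine (Pr_mono h1).trans ((BK' π (loc_DN hA _) (loc_DN hA _) (up_DN _ _) (up_DN _ _)).trans ?_)
    rw [pow_succ]
    exact mul_le_mul ih (Pr_mono (DN_one uA)) (Pr_nonneg _ _) (pow_nonneg (Pr_nonneg _ _) _)

theorem Pr_DN_union (π : ι → I) (hA : Loc A) (hB : Loc B) (n : ℕ) :
    Pr π (DN (A ∪ B) n) ≤ ∑ p ∈ antidiagonal n, Pr π (DN A p.1) * Pr π (DN B p.2) := by
  classical
  have h1 : DN (A ∪ B) n ⊆ ⋃ p ∈ antidiagonal n, DO (DN A p.1) (DN B p.2) := by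
    rintro ω ⟨η, h1, h2⟩
    have := DO_of (A := A) (B := B) ((range n).filter fun k => η k ∈ A)
      ((range n).filter fun k => ¬ η k ∈ A) (disjoint_filter_filter_not _ _ _) η
      (fun k hk => by
        simp only [mem_filter, mem_range] at hk
        exact ⟨(h1 k hk.1).1, hk.2⟩)
      (fun k hk => by
        simp only [mem_filter, mem_range] at hk
        exact ⟨(h1 k hk.1).1, (h1 k hk.1).2.resolve_left hk.2⟩)
      fun k hk l hl => h2 k (by simp only [mem_filter, mem_range] at hk; tauto) l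
        (by simp only [mem_filter, mem_range] at hl; tauto)
    refine Set.mem_biUnion (x := (((range n).filter fun k => η k ∈ A).card,
      ((range n).filter fun k => ¬ η k ∈ A).card)) ?_ this
    rw [mem_coe, HasAntidiagonal.mem_antidiagonal, card_filter_add_card_filter_not, card_range]
  refine (Pr_mono h1).trans ((Pr_biUnion_le π _ _).trans (sum_le_sum fun p _ => ?_))
  exact BK' π (loc_DN hA _) (loc_DN hB _) (up_DN _ _) (up_DN _ _)

/-- a bound for the generating function of the tails -/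
def GB (π : ι → I) (z : ℝ) (A : Set (ι → Bool)) (C : ℝ) : Prop :=
  ∀ N, ∑ n ∈ range N, z ^ n * Pr π (DN A n) ≤ C

variable {π : ι → I} {z C C' : ℝ}

theorem GB.mono (h : GB π z B C) (hz : 0 ≤ z) (hA : A ⊆ B) (hC : C ≤ C') : GB π z A C' :=
  fun N => (sum_le_sum fun n _ => mul_le_mul_of_nonneg_left (Pr_mono (DN_mono hA n))
    (pow_nonneg hz n)).trans ((h N).trans hC)

theorem GB.one_le (h : GB π z A C) : 1 ≤ C := by simpa [DN_zero] using h 1

theorem GB.tail (h : GB π z A C) (hz : 0 ≤ z) (n : ℕ) : z ^ n * Pr π (DN A n) ≤ C :=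
  le_trans (single_le_sum (f := fun n => z ^ n * Pr π (DN A n))
    (fun k _ => mul_nonneg (pow_nonneg hz k) (Pr_nonneg _ _)) (self_mem_range_succ n)) (h (n + 1))

theorem GB.of_tail (h : ∀ n, (2 * z) ^ n * Pr π (DN A n) ≤ C) : GB π z A (2 * C) := by
  intro N
  have h0 : 0 ≤ C := le_trans (by simp [DN_zero]) (h 0)
  have h1 : ∀ n ∈ range N, z ^ n * Pr π (DN A n) ≤ C * (1 / 2) ^ n := fun n _ => by
    have := mul_le_mul_of_nonneg_right (h n) (show (0 : ℝ) ≤ (1 / 2) ^ n by positivity)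
    rwa [mul_right_comm, ← mul_pow, show 2 * z * (1 / 2) = z by ring] at this
  refine (sum_le_sum h1).trans ?_
  rw [← mul_sum, mul_comm 2]
  exact mul_le_mul_of_nonneg_left (sum_geometric_two_le N) h0

theorem GB.base (hA : Loc A) (uA : IsUpperSet A) (hz : 0 ≤ z) {q : ℝ} (hq : Pr π A ≤ q)
    (h : z * q < 1) : GB π z A (1 - z * q)⁻¹ := by
  intro N
  have q0 : 0 ≤ q := (Pr_nonneg _ _).trans hq
  have h1 : ∀ n ∈ range N, z ^ n * Pr π (DN A n) ≤ (z * q) ^ n := fun n _ => by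
    rw [mul_pow]
    exact mul_le_mul_of_nonneg_left ((Pr_DN π hA uA n).trans
      (pow_le_pow_left₀ (Pr_nonneg _ _) hq n)) (pow_nonneg hz n)
  refine (sum_le_sum h1).trans ?_
  rw [← tsum_geometric_of_lt_one (mul_nonneg hz q0) h]
  exact (summable_geometric_of_lt_one (mul_nonneg hz q0) h).sum_le_tsum _
    fun k _ => pow_nonneg (mul_nonneg hz q0) k

theorem GB.union (hz : 0 ≤ z) (hA : Loc A) (hB : Loc B) (h : GB π z A C) (h' : GB π z B C') :
    GB π z (A ∪ B) (C * C') := by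
  classical
  intro N
  let f : ℕ × ℕ → ℝ := fun p => z ^ p.1 * Pr π (DN A p.1) * (z ^ p.2 * Pr π (DN B p.2))
  have f0 : ∀ p, 0 ≤ f p := fun p => mul_nonneg (mul_nonneg (pow_nonneg hz _) (Pr_nonneg _ _))
    (mul_nonneg (pow_nonneg hz _) (Pr_nonneg _ _))
  have h1 : ∀ n ∈ range N, z ^ n * Pr π (DN (A ∪ B) n) ≤ ∑ p ∈ antidiagonal n, f p := fun n _ => by
    refine (mul_le_mul_of_nonneg_left (Pr_DN_union π hA hB n) (pow_nonneg hz n)).trans_eq ?_
    rw [mul_sum]
    refine sum_congr rfl fun p hp => ?_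
    rw [← mem_antidiagonal.1 hp, pow_add]
    simp only [f]; ring
  refine (sum_le_sum h1).trans ?_
  rw [← sum_biUnion (fun a _ b _ hab => disjoint_left.2 fun p h1 h2 =>
    hab ((mem_antidiagonal.1 h1).symm.trans (mem_antidiagonal.1 h2)))]
  refine (sum_le_sum_of_subset_of_nonneg (t := range N ×ˢ range N) (fun p hp => ?_)
    fun p _ _ => f0 p).trans ?_
  · simp only [mem_biUnion, mem_range, HasAntidiagonal.mem_antidiagonal, mem_product] at hp ⊢
    obtain ⟨a, h1, h2⟩ := hp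
    omega
  · rw [sum_product]
    simp only [f]
    rw [← sum_mul_sum]
    exact mul_le_mul (h N) (h' N) (sum_nonneg fun k _ => mul_nonneg (pow_nonneg hz _)
      (Pr_nonneg _ _)) (zero_le_one.trans h.one_le)

theorem GB.empty (π : ι → I) (z : ℝ) : GB π z (∅ : Set (ι → Bool)) 1 := by
  intro N
  rcases N with _ | N
  · simp
  · rw [sum_range_succ', sum_eq_zero fun n _ => ?_]
    · simp [DN_zero]
    · rw [show DN (∅ : Set (ι → Bool)) (n + 1) = ∅ from Set.eq_empty_of_forall_notMem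
        fun _ ⟨_, h, _⟩ => (h 0 (by omega)).2]
      simp

theorem GB.biUnion {κ : Type*} (hz : 0 ≤ z) (s : Finset κ) {A : κ → Set (ι → Bool)}
    (hA : ∀ k ∈ s, Loc (A k)) (h : ∀ k ∈ s, GB π z (A k) C) :
    GB π z (⋃ k ∈ s, A k) (C ^ s.card) := by
  classical
  induction s using Finset.induction_on with
  | empty => simpa using GB.empty π z
  | insert a s ha ih =>
    rw [set_biUnion_insert, card_insert_of_notMem ha, pow_succ']
    exact GB.union hz (hA a (by simp)) (Loc.biUnion s fun k hk => hA k (by simp [hk]))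
      (h a (by simp)) (ih (fun k hk => hA k (by simp [hk])) fun k hk => h k (by simp [hk]))

/-- independent copies multiply the exponential rate -/
theorem GB.indep (hz : 0 ≤ z) (L : ℕ) {B : ℕ → Set (ι → Bool)} {S : ℕ → Set ι}
    (hB : ∀ l < L, Loc (B l)) (hS : ∀ l < L, Dep (B l) (S l))
    (hd : ∀ l < L, ∀ l' < L, l ≠ l' → Disjoint (S l) (S l')) (hA : ∀ l < L, A ⊆ B l)
    (h : ∀ l < L, GB π z (B l) C) (n : ℕ) : (z ^ L) ^ n * Pr π (DN A n) ≤ C ^ L := by
  have h1 := Pr_forall_indep π (range L) (A := fun l => DN (B l) n) (S := S)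
    (fun l hl => loc_DN (hB l (mem_range.1 hl)) n) (fun l hl => dep_DN (hS l (mem_range.1 hl)) n)
    fun l hl l' hl' e => hd l (mem_range.1 hl) l' (mem_range.1 hl') e
  have h2 : Pr π (DN A n) ≤ Pr π {ω | ∀ l ∈ range L, ω ∈ DN (B l) n} :=
    Pr_mono fun ω hω l hl => DN_mono (hA l (mem_range.1 hl)) n hω
  refine (mul_le_mul_of_nonneg_left h2 (by positivity)).trans ?_
  rw [h1, ← pow_mul, mul_comm L, pow_mul, ← card_range L, ← prod_const, ← prod_const, card_range,
    ← prod_mul_distrib]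
  exact prod_le_prod (fun l _ => mul_nonneg (pow_nonneg hz _) (Pr_nonneg _ _))
    fun l hl => (h l (mem_range.1 hl)).tail hz n

/-- the number of disjoint occurrences -/
noncomputable def cnt (A : Set (ι → Bool)) (ω : ι → Bool) : ℕ := sSup {n | ω ∈ DN A n}

theorem dep_cnt (h : Dep A S) : DependsOn (cnt A) S := fun ω ω' hω => by
  unfold cnt
  congr 1
  ext n
  exact (dep_DN h n).iff hω

theorem locF_cnt (h : Loc A) : LocF (cnt A) := let ⟨S, hS, h⟩ := h; ⟨S, hS, dep_cnt h⟩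

theorem mem_DN_cnt (A : Set (ι → Bool)) (ω : ι → Bool) : ω ∈ DN A (cnt A ω) := by
  by_cases h : BddAbove {n | ω ∈ DN A n}
  · exact Nat.sSup_mem (s := {n | ω ∈ DN A n}) ⟨0, by simp [DN_zero]⟩ h
  · rw [cnt, Nat.sSup_of_not_bddAbove h, DN_zero]; trivial

theorem DN_le_card {S : Finset ι} (hA : Dep A S) (h0 : (fun _ => false) ∉ A) (h : ω ∈ DN A n) :
    n ≤ S.card := by
  obtain ⟨η, h1, h2⟩ := h
  have : ∀ k, k < n → ∃ i ∈ S, η k i = true := fun k hk => by
    by_contra c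
    push Not at c
    exact h0 (hA (fun i hi => by simpa using c i hi) (h1 k hk).2)
  choose f f1 f2 using this
  rw [← Fintype.card_fin n, ← card_univ]
  refine card_le_card_of_injOn (fun k : Fin n => f k k.2) (fun k _ => by simpa using f1 k k.2)
    fun k _ l _ e => ?_
  by_contra c
  have e' : f k k.2 = f l l.2 := e
  exact h2 k k.2 l l.2 (fun b => c (Fin.ext b)) _ (f2 k k.2) (e' ▸ f2 l l.2)

theorem le_cnt (hA : Loc A) (h0 : (fun _ => false) ∉ A) (h : ω ∈ DN A n) : n ≤ cnt A ω := by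
  refine le_csSup ?_ h
  obtain ⟨S, hS, hA⟩ := hA
  lift S to Finset ι using hS
  exact ⟨S.card, fun n hn => DN_le_card hA h0 hn⟩

theorem GB.small {S : Finset ι} (hA : Dep A S) (h0 : (fun _ => false) ∉ A) (hz : 0 ≤ z) {M : ℕ}
    (hM : S.card ≤ M) : GB π z A (2 * (2 * z + 1) ^ M) := by
  refine GB.of_tail fun n => ?_
  rcases le_or_gt n M with h | h
  · refine (mul_le_of_le_one_right (by positivity) (Pr_le_one _ _)).trans ?_
    exact (pow_le_pow_left₀ (by positivity) (by linarith) n).trans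
      (pow_le_pow_right₀ (by linarith) h)
  · rw [show DN A n = ∅ from Set.eq_empty_of_forall_notMem fun ω hω => by
      have := DN_le_card hA h0 hω
      omega]
    simp only [Pr_empty, mul_zero]
    positivity

/-- exponential moments of a count -/
theorem GB.integral (h : GB π z A C) (hz : 0 ≤ z) (hA : Loc A) {f : (ι → Bool) → ℕ} (hf : LocF f)
    (hD : ∀ ω, ω ∈ DN A (f ω)) : ∫ ω, z ^ f ω ∂PM π ≤ C := by
  obtain ⟨M, hM⟩ := hf.finite_range.bddAbove
  refine le_trans ?_ (h (M + 1))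
  rw [sum_congr rfl fun n _ => (integral_indicator_const' π (loc_DN hA n) (z ^ n)).symm,
    ← integral_finsetSum _ fun n _ => ((loc_DN hA n).locF_indicator _).integrable π]
  refine integral_mono ((hf.comp fun n => z ^ n).integrable π)
    ((LocF.sum _ fun n _ => (loc_DN hA n).locF_indicator _).integrable π) fun ω => ?_
  refine le_trans ?_ (single_le_sum (f := fun n => (DN A n).indicator (fun _ => z ^ n) ω)
    (fun n _ => Set.indicator_nonneg (fun _ _ => pow_nonneg hz n) _)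
    (mem_range.2 (Nat.lt_succ_of_le (hM ⟨ω, rfl⟩))))
  rw [Set.indicator_of_mem (hD ω)]

end Pool.Agent.P.MP_6c8efb_pr.Cardy
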