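import Pool.Agent.P.MP_6c8efb_pr.Glue
import Pool.Agent.P.MP_6c8efb_pr.Cardy.NCnt

/-! The number of disjoint long open paths in a box has all exponential moments. -/

open MeasureTheory Finset

namespace Pool.Agent.P.MP_6c8efb_pr.Cardy

/-- there is an open path of diameter at least `ρ` inside `W` -/
def LP (W : Set V) (ρ : ℤ) : Set Cfg := {ω | ∃ a b, ρ ≤ nm a b ∧ Conn ω W a b}

theorem dep_LP (W : Set V) (ρ : ℤ) : Dep (LP W ρ) (In W) := dep_conn W _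
theorem loc_LP {W : Set V} (h : W.Finite) (ρ : ℤ) : Loc (LP W ρ) := loc_conn h _

theorem bot_LP (W : Set V) {ρ : ℤ} (h : 0 < ρ) : (fun _ => false) ∉ LP W ρ := by
  rintro ⟨a, b, h1, h2⟩
  have := h2.ind (p := fun y => y = a) rfl fun _ _ _ _ _ ho _ => by simp at ho
  simp [this, nm] at h1
  omega

theorem LP_mono {W W' : Set V} {ρ ρ' : ℤ} (h : W ⊆ W') (h' : ρ' ≤ ρ) : LP W ρ ⊆ LP W' ρ' :=
  fun _ ⟨a, b, h1, h2⟩ => ⟨a, b, h'.trans h1, h2.mono_set h⟩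

theorem hc_short : ∃ q : ℝ, 0 < q ∧ q < 1 ∧ ∀ h : ℤ, 3 ≤ h → hc h (3 * h) ≤ q := by
  obtain ⟨c, hc0, h1⟩ := rsw 11
  refine ⟨1 - min c (1 / 2), by have := min_le_right c (1 / 2); linarith,
    by have := lt_min hc0 one_half_pos; linarith, fun h hh => ?_⟩
  have h2 : Q (VC 0 (3 * h) 0 h) ≤ Q {ω | du ω ∈ HC (-1) (3 * h) 0 (h - 1)}ᶜ :=
    Pr_mono fun ω b => excl (by omega) b
  rw [Q, Q, Pr_compl _ (loc_du (loc_HC ..)), ← Q, ← Q, Q_du (loc_HC ..), Q_HC, Q_VC] at h2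
  have h3 := h1 ((h - 1) / 2) (by omega)
  have h4 := hc_mono (w := ((11 : ℕ) + 2) * ((h - 1) / 2)) (w' := 3 * h - -1) (h := 2 * ((h - 1) / 2))
    (h' := h - 1 - 0) (by omega) (by push_cast; omega) (by omega)
  simp only [sub_zero] at h2 h4
  linarith [min_le_left c (1 / 2)]

/-- the local crossings -/
def LE (x : V) (h : ℤ) (p : ℤ × ℤ) : Set Cfg :=
  HC (x.1 + p.1 * h) (x.1 + p.1 * h + h) (x.2 + p.2 * h) (x.2 + p.2 * h + 3 * h) ∪
    VC (x.1 + p.2 * h) (x.1 + p.2 * h + 3 * h) (x.2 + p.1 * h) (x.2 + p.1 * h + h)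

theorem cover {x : V} {h : ℤ} (hh : 0 < h) {m : ℕ} {W : Set V}
    (hW : W ⊆ Rc x.1 (x.1 + m * h) x.2 (x.2 + m * h)) :
    LP W (2 * h) ⊆ ⋃ p ∈ Icc (-1 : ℤ) (m + 1) ×ˢ Icc (-1 : ℤ) (m + 1), LE x h p := by
  rintro ω ⟨a, b, h1, h2⟩
  have ha : a ∈ W := by
    by_contra c
    have := h2.ind (p := fun y => y = a) rfl fun _ _ _ e _ _ ih => absurd (ih ▸ e) c
    simp [this, nm] at h1
    omega
  have k : ∀ t : ℤ, 0 ≤ t → t ≤ m * h → ∃ i : ℤ, 0 ≤ i ∧ i ≤ m ∧ i * h ≤ t ∧ t < i * h + h :=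
    fun t t0 t1 => ⟨t / h, Int.ediv_nonneg t0 hh.le, Int.ediv_le_of_le_mul hh t1,
      Int.ediv_mul_le t hh.ne', by
        have := Int.lt_ediv_add_one_mul_self t hh
        linarith⟩
  have m0 := hW ha
  rw [mem_Rc] at m0
  obtain ⟨i, i0, i1, i2, i3⟩ := k (a.1 - x.1) (by omega) (by omega)
  obtain ⟨j, j0, j1, j2, j3⟩ := k (a.2 - x.2) (by omega) (by omega)
  have ei : (i - 1) * h = i * h - h := by ring
  have ei' : (i + 1) * h = i * h + h := by ring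
  have ej : (j - 1) * h = j * h - h := by ring
  have ej' : (j + 1) * h = j * h + h := by ring
  generalize hI : i * h = I at *
  generalize hJ : j * h = J at *
  obtain ⟨c, d, c1, -, c3, -, c5, c6⟩ := h2.exit (A := {z | x.1 + I - h < z.1 ∧ z.1 < x.1 + I + 2 * h ∧
    x.2 + J - h < z.2 ∧ z.2 < x.2 + J + 2 * h}) (by simp only [Set.mem_ofPred_eq]; omega)
    (by simp only [Set.mem_ofPred_eq, nm, abs_eq_max_neg] at h1 ⊢; omega)
  have l1 := abs_le.1 (lip_fst c d)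
  have l2 := abs_le.1 (lip_snd c d)
  simp only [Set.mem_ofPred_eq] at c3 c5
  set R := Rc (x.1 + I - h) (x.1 + I + 2 * h) (x.2 + J - h) (x.2 + J + 2 * h) with hR
  have c7 : Conn ω R a (c + u d) := (c1.mono_set fun z hz => by
    have := hz.2
    simp only [Set.mem_ofPred_eq, hR, mem_Rc] at this ⊢
    omega).snoc (by simp only [hR, mem_Rc]; omega) (by simp only [hR, mem_Rc]; omega) c6
  have aR : a ∈ R := by simp only [hR, mem_Rc]; omega
  have yR := c7.mem aR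
  generalize c + u d = y at *
  simp only [Set.mem_iUnion, mem_product, mem_Icc, exists_prop]
  by_cases b1 : x.1 + I + 2 * h ≤ y.1
  · obtain ⟨p, q, e1, e2, e3, e4⟩ := c7.strip lip_fst (a := x.1 + I + h) (b := x.1 + I + 2 * h)
      (by omega) (by omega) b1
    have := e3.mem aR
    refine ⟨(i + 1, j - 1), by omega, Or.inl ⟨p, q, ?_, e4.mono_set fun z hz => ?_⟩⟩ <;>
      simp only [hR, mem_Rc, ei', ej, Set.mem_inter_iff, Set.mem_ofPred_eq] at * <;> omega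
  by_cases b2 : y.1 ≤ x.1 + I - h
  · obtain ⟨p, q, e1, e2, e3, e4⟩ := c7.symm'.strip lip_fst (a := x.1 + I - h) (b := x.1 + I)
      (by omega) b2 (by omega)
    have := e3.mem yR
    refine ⟨(i - 1, j - 1), by omega, Or.inl ⟨p, q, ?_, e4.mono_set fun z hz => ?_⟩⟩ <;>
      simp only [hR, mem_Rc, ei, ej, Set.mem_inter_iff, Set.mem_ofPred_eq] at * <;> omega
  by_cases b3 : x.2 + J + 2 * h ≤ y.2
  · obtain ⟨p, q, e1, e2, e3, e4⟩ := c7.strip lip_snd (a := x.2 + J + h) (b := x.2 + J + 2 * h)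
      (by omega) (by omega) b3
    have := e3.mem aR
    refine ⟨(j + 1, i - 1), by omega, Or.inr ⟨p, q, ?_, e4.mono_set fun z hz => ?_⟩⟩ <;>
      simp only [hR, mem_Rc, ei, ej', Set.mem_inter_iff, Set.mem_ofPred_eq] at * <;> omega
  · obtain ⟨p, q, e1, e2, e3, e4⟩ := c7.symm'.strip lip_snd (a := x.2 + J - h) (b := x.2 + J)
      (by omega) (by omega) (by omega)
    have := e3.mem yR
    refine ⟨(j - 1, i - 1), by omega, Or.inr ⟨p, q, ?_, e4.mono_set fun z hz => ?_⟩⟩ <;>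
      simp only [hR, mem_Rc, ei, ej, Set.mem_inter_iff, Set.mem_ofPred_eq] at * <;> omega

/-- a fixed exponential rate for boxes of any size -/
theorem rate : ∃ z₀ : ℝ, 1 < z₀ ∧ ∀ m : ℕ, ∃ C : ℝ, ∀ (x : V) (h : ℤ) (W : Set V), 3 ≤ h →
    W ⊆ Rc x.1 (x.1 + m * h) x.2 (x.2 + m * h) → GB (fun _ => hf) z₀ (LP W (2 * h)) C := by
  obtain ⟨q, q0, q1, hq⟩ := hc_short
  have z1 : 1 < 2 / (1 + q) := by rw [lt_div_iff₀ (by linarith)]; linarith
  have z2 : 2 / (1 + q) * q < 1 := by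
    rw [div_mul_eq_mul_div, div_lt_one (by linarith)]; linarith
  refine ⟨2 / (1 + q), z1, fun m => ⟨((1 - 2 / (1 + q) * q)⁻¹ * (1 - 2 / (1 + q) * q)⁻¹) ^
    (Icc (-1 : ℤ) (m + 1) ×ˢ Icc (-1 : ℤ) (m + 1)).card, fun x h W hh hW => ?_⟩⟩
  refine (GB.biUnion (by linarith) _ (fun p _ => (loc_HC ..).union (loc_VC ..)) fun p _ => ?_).mono
    (by linarith) (cover (by omega) hW) le_rfl
  refine GB.union (by linarith) (loc_HC ..) (loc_VC ..)
    (GB.base (loc_HC ..) (up_HC ..) (by linarith) ?_ z2)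
    (GB.base (loc_VC ..) (up_VC ..) (by linarith) ?_ z2)
  · rw [← Q, Q_HC]; simpa using hq h hh
  · rw [← Q, Q_VC]; simpa using hq h hh

/-- all exponential rates -/
theorem superexp (z : ℝ) (hz : 0 ≤ z) (K : ℕ) : ∃ C : ℝ, ∀ (x : V) (ρ : ℤ) (W : Set V), 1 ≤ ρ →
    W ⊆ Rc x.1 (x.1 + K * ρ) x.2 (x.2 + K * ρ) → GB (fun _ => hf) z (LP W ρ) C := by
  obtain ⟨z₀, z1, h0⟩ := rate
  obtain ⟨L, hL⟩ := pow_unbounded_of_one_lt (2 * z) z1
  obtain ⟨C, hC⟩ := h0 (K * (12 * L + 12))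
  let M : ℕ := (K * (18 * L + 18) + 1) ^ 2 * 2
  let C1 := 2 * max C 1 ^ L
  refine ⟨max (2 * (2 * z + 1) ^ M) ((C1 * C1) ^ (K * (12 * L + 12) + 1)),
    fun x ρ W h1 hW => ?_⟩
  have fW : W.Finite := (Rc_finite ..).subset hW
  rcases lt_or_ge ρ (18 * L + 18) with c | c
  · refine (GB.small (S := (Icc x.1 (x.1 + K * ρ) ×ˢ Icc x.2 (x.2 + K * ρ)) ×ˢ univ)
      ((dep_LP W ρ).mono fun e he => ?_) (bot_LP W (by omega)) hz (M := M) ?_).mono hz subset_rfl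
      (le_max_left _ _)
    · have := hW he.1
      simp only [mem_Rc, coe_product, Set.mem_prod, coe_Icc, Set.mem_Icc, coe_univ,
        Set.mem_univ] at this ⊢
      tauto
    · simp only [card_product, Int.card_Icc, card_univ, Fintype.card_bool, M]
      have : (K * ρ + 1).toNat ≤ K * (18 * L + 18) + 1 := by
        have := mul_le_mul_of_nonneg_left c.le (Int.natCast_nonneg K)
        rw [Int.toNat_le]
        push_cast
        omega
      rw [show x.1 + K * ρ + 1 - x.1 = K * ρ + 1 by ring, show x.2 + K * ρ + 1 - x.2 = K * ρ + 1 by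
        ring, sq]
      exact Nat.mul_le_mul_right _ (Nat.mul_le_mul this this)
  obtain ⟨h, h3, h4, h5⟩ : ∃ h : ℤ, 3 ≤ h ∧ h * (6 * L + 6) ≤ ρ ∧ ρ ≤ (12 * L + 12) * h := by
    have p : (0 : ℤ) < 6 * L + 6 := by omega
    have a1 := Int.ediv_mul_le ρ p.ne'
    have a2 := Int.lt_ediv_add_one_mul_self ρ p
    have a3 : 3 ≤ ρ / (6 * L + 6) := Int.le_ediv_of_mul_le p (by omega)
    exact ⟨_, a3, a1, by nlinarith⟩
  have hW' : W ⊆ Rc x.1 (x.1 + (K * (12 * L + 12) : ℕ) * h) x.2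
      (x.2 + (K * (12 * L + 12) : ℕ) * h) := fun w hw => by
    have a1 := hW hw
    have a2 := mul_le_mul_of_nonneg_left h5 (Int.natCast_nonneg K)
    simp only [mem_Rc] at a1 ⊢
    push_cast
    rw [mul_assoc]
    omega
  -- crossing of a strip
  let SC : (V → ℤ) → ℤ → Set Cfg := fun f y =>
    {ω | ∃ a b, (f a ≤ y ∧ y + 3 * h * L ≤ f b) ∧ Conn ω W a b}
  have k1 : ∀ f : V → ℤ, (∀ a d, |f (a + u d) - f a| ≤ 1) → (∀ a b, f b - f a ≤ nm a b) →
      ∀ y, GB (fun _ => hf) z (SC f y) C1 := fun f f1 f2 y => by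
    refine GB.of_tail fun n => le_trans (mul_le_mul_of_nonneg_right
      (pow_le_pow_left₀ (by positivity) hL.le n) (Pr_nonneg _ _)) ?_
    refine GB.indep (by linarith) L
      (B := fun l => LP (W ∩ {w | y + 3 * h * l ≤ f w ∧ f w ≤ y + 3 * h * l + 2 * h}) (2 * h))
      (S := fun l => In (W ∩ {w | y + 3 * h * l ≤ f w ∧ f w ≤ y + 3 * h * l + 2 * h}))
      (fun l _ => loc_LP (fW.inter_of_left _) _) (fun l _ => dep_LP _ _)
      (fun l _ l' _ e => In_disjoint (Set.disjoint_left.2 ?_)) ?_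
      (fun l _ => (hC x h _ h3 (Set.inter_subset_left.trans hW')).mono (by linarith) subset_rfl
        (le_max_left _ _)) n
    · rintro w ⟨-, a1, a2⟩ ⟨-, a3, a4⟩
      rcases lt_or_gt_of_ne e with e | e
      · have : (l : ℤ) + 1 ≤ l' := by exact_mod_cast e
        nlinarith
      · have : (l' : ℤ) + 1 ≤ l := by exact_mod_cast e
        nlinarith
    · rintro l hl ω ⟨a, b, ⟨a1, a2⟩, a3⟩
      have : (l : ℤ) + 1 ≤ L := by exact_mod_cast hl
      obtain ⟨p, q, e1, e2, -, e4⟩ := a3.strip f1 (a := y + 3 * h * l) (b := y + 3 * h * l + 2 * h)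
        (by omega) (by have := Int.natCast_nonneg l; nlinarith) (by nlinarith)
      exact ⟨p, q, by have := f2 p q; omega, e4⟩
  have lS : ∀ f y, Loc (SC f y) := fun f y => loc_conn fW _
  have := GB.biUnion (π := fun _ => hf) hz (range (K * (12 * L + 12) + 1))
    (A := fun j => SC Prod.fst (x.1 + j * h) ∪ SC Prod.snd (x.2 + j * h))
    (fun j _ => (lS _ _).union (lS _ _)) fun j _ => GB.union hz (lS _ _) (lS _ _)
      (k1 _ lip_fst (fun a b => (le_abs_self _).trans (le_max_left _ _)) _)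
      (k1 _ lip_snd (fun a b => (le_abs_self _).trans (le_max_right _ _)) _)
  rw [card_range] at this
  refine this.mono hz ?_ (le_max_right _ _)
  have k2 : ∀ (f : V → ℤ) (t : ℤ) (ω : Cfg) (a b : V), Conn ω W a b → ρ ≤ f b - f a → t ≤ f a →
      f b ≤ t + (K * (12 * L + 12) : ℕ) * h →
      ∃ j ∈ range (K * (12 * L + 12) + 1), ω ∈ SC f (t + j * h) := fun f t ω a b c1 c2 c3 c4 => by
    have p : (0 : ℤ) < h := by omega
    have a1 := Int.ediv_mul_le (f a - t) p.ne'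
    have a2 := Int.lt_ediv_add_one_mul_self (f a - t) p
    have a3 : 0 ≤ (f a - t) / h := Int.ediv_nonneg (by omega) p.le
    obtain ⟨j, hj⟩ := Int.eq_ofNat_of_zero_le a3
    rw [hj] at a1 a2
    have a4 := Int.natCast_nonneg L
    refine ⟨j + 1, mem_range.2 ?_, a, b, ⟨by push_cast; omega, by push_cast; nlinarith⟩, c1⟩
    have : ((j : ℤ) + 1) * h ≤ (K * (12 * L + 12) : ℕ) * h := by nlinarith
    have := le_of_mul_le_mul_right this p
    omega
  rintro ω ⟨a, b, c1, c2⟩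
  have ha : a ∈ W := by
    by_contra c
    have := c2.ind (p := fun y => y = a) rfl fun _ _ _ e _ _ ih => absurd (ih ▸ e) c
    simp [this, nm] at c1
    omega
  have m1 := hW' ha
  have m2 := hW' (c2.mem ha)
  simp only [mem_Rc] at m1 m2
  simp only [nm, abs_eq_max_neg] at c1
  simp only [Set.mem_iUnion, exists_prop]
  by_cases b1 : ρ ≤ b.1 - a.1
  · obtain ⟨j, j1, j2⟩ := k2 Prod.fst x.1 ω a b c2 b1 m1.1 m2.2.1
    exact ⟨j, j1, Or.inl j2⟩
  by_cases b2 : ρ ≤ a.1 - b.1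
  · obtain ⟨j, j1, j2⟩ := k2 Prod.fst x.1 ω b a c2.symm' b2 m2.1 m1.2.1
    exact ⟨j, j1, Or.inl j2⟩
  by_cases b3 : ρ ≤ b.2 - a.2
  · obtain ⟨j, j1, j2⟩ := k2 Prod.snd x.2 ω a b c2 b3 m1.2.2.1 m2.2.2.2
    exact ⟨j, j1, Or.inr j2⟩
  · obtain ⟨j, j1, j2⟩ := k2 Prod.snd x.2 ω b a c2.symm' (by omega) m2.2.2.1 m1.2.2.2
    exact ⟨j, j1, Or.inr j2⟩

/-- exponential moments of the number of disjoint long paths -/
theorem exp_cnt (z : ℝ) (hz : 0 ≤ z) (K : ℕ) : ∃ C : ℝ, 1 ≤ C ∧ ∀ (x : V) (ρ : ℤ) (W : Set V),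
    1 ≤ ρ → W ⊆ Rc x.1 (x.1 + K * ρ) x.2 (x.2 + K * ρ) →
      ∫ ω, z ^ cnt (LP W ρ) ω ∂PM (fun _ => hf) ≤ C := by
  obtain ⟨C, h⟩ := superexp z hz K
  refine ⟨C, (h 0 1 ∅ le_rfl (Set.empty_subset _)).one_le, fun x ρ W h1 hW => ?_⟩
  have l := loc_LP ((Rc_finite ..).subset hW) ρ
  exact (h x ρ W h1 hW).integral hz l (locF_cnt l) (mem_DN_cnt _)

end Pool.Agent.P.MP_6c8efb_pr.Cardy
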