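import Pool.Agent.P.MP_6c8efb_pr.Loop
import Pool.Agent.P.MP_6c8efb_pr.Cardy.NTail

/-! Disjoint long pieces of interfaces give disjoint long open paths. -/

open Function Finset

namespace Pool.Agent.P.MP_6c8efb_pr.Cardy

theorem subwalk (f : ℕ → ℤ) (hf : ∀ j, |f (j + 1) - f j| ≤ 1) {k : ℕ} {a b : ℤ} (h0 : f 0 ≤ a)
    (hk : b ≤ f k) (hab : a < b) : ∃ i j, i < j ∧ j ≤ k ∧ f i = a ∧ f j = b ∧
      ∀ l, i < l → l < j → a < f l ∧ f l < b := by
  classical
  have e : ∃ j, b ≤ f j := ⟨k, hk⟩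
  have j1 := Nat.find_spec e
  have j2 : ∀ l < Nat.find e, f l < b := fun l hl => not_le.1 (Nat.find_min e hl)
  have j3 : Nat.find e ≤ k := Nat.find_min' e hk
  generalize Nat.find e = j at *
  have i1 : f (Nat.findGreatest (fun l => f l ≤ a) j) ≤ a :=
    Nat.findGreatest_spec (P := fun l => f l ≤ a) (Nat.zero_le j) h0
  have i2 : ∀ l, Nat.findGreatest (fun l => f l ≤ a) j < l → l ≤ j → a < f l :=
    fun l h1 h2 => not_le.1 (Nat.findGreatest_is_greatest h1 h2)
  have i3 := Nat.findGreatest_le (P := fun l => f l ≤ a) j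
  generalize Nat.findGreatest (fun l => f l ≤ a) j = i at *
  have i4 : i < j := lt_of_le_of_ne i3 (by rintro rfl; omega)
  refine ⟨i, j, i4, j3, ?_, ?_, fun l h1 h2 => ⟨i2 l h1 h2.le, j2 l h2⟩⟩
  · have := i2 (i + 1) (by omega) i4
    have := abs_le.1 (hf i)
    omega
  · obtain ⟨j, rfl⟩ : ∃ l, j = l + 1 := ⟨j - 1, by omega⟩
    have := j2 j (by omega)
    have := abs_le.1 (hf j)
    omega

/-- the coordinate in the direction `d` -/
def lvl (d : Fin 4) (z : V) : ℤ := ![z.1, z.2, -z.1, -z.2] d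

/-- a piece of interface crossing a strip in the direction `d` -/
structure Pc (ω : Cfg) (d : Fin 4) (a b M : ℤ) (c : D) (k : ℕ) : Prop where
  pos : 0 < k
  fst : lvl d c.1 = a
  lst : lvl d ((step ω)^[k] c).1 = b
  mid : ∀ l, 0 < l → l < k → a < lvl d ((step ω)^[l] c).1 ∧ lvl d ((step ω)^[l] c).1 < b
  bdd : ∀ l ≤ k, nm 0 ((step ω)^[l] c).1 < M

def Sep (d : Fin 4) : Prop := ∀ (ω : Cfg) (a b M : ℤ) (c c' : D) (k k' : ℕ), a + 1 < b →
  Pc ω d a b M c k → Pc ω d a b M c' k' → c ≠ c' →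
    ¬ Conn ω {z | nm 0 z < M ∧ a < lvl d z ∧ lvl d z < b} (step ω c).1 (step ω c').1

theorem step_right {ω : Cfg} {c : D} (h : c.1.1 < (step ω c).1.1) :
    c.2 = 0 ∧ ω (c.1, true) = true ∧ (step ω c).1 = (c.1.1 + 1, c.1.2) := by
  obtain ⟨x, d⟩ := c
  by_cases b : ω (ed (x, d)) = true
  · rw [step_open b] at h ⊢
    rcases cases4 d with rfl | rfl | rfl | rfl <;> simp [rot, opp, ed, Prod.ext_iff] at h b ⊢
    exact b
  · rw [step_closed b] at h
    simp [rot] at h

theorem Pc.one {ω : Cfg} {d : Fin 4} {a b M : ℤ} {c : D} {k : ℕ} (h : Pc ω d a b M c k)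
    (hab : a < b) : a < lvl d (step ω c).1 := by
  rcases Nat.lt_or_ge 1 k with h1 | h1
  · exact (h.mid 1 one_pos h1).1
  · obtain rfl : k = 1 := by have := h.pos; omega
    have := h.lst
    simp only [iterate_one] at this
    omega

theorem sep0 : Sep 0 := by
  have key : ∀ (ω : Cfg) (a b M : ℤ) (c c' : D) (k k' : ℕ), a + 1 < b →
      Pc ω 0 a b M c k → Pc ω 0 a b M c' k' → c'.1.2 < c.1.2 →
      ¬ Conn ω {z | nm 0 z < M ∧ a < lvl 0 z ∧ lvl 0 z < b} (step ω c').1 (step ω c).1 := by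
    intro ω a b M c c' k k' hab h h' hy hc
    have f1 : c.1.1 = a := h.fst
    have f2 : c'.1.1 = a := h'.fst
    obtain ⟨a1, a2, a3⟩ := step_right (ω := ω) (c := c) (f1 ▸ h.one (by omega))
    obtain ⟨b1, b2, b3⟩ := step_right (ω := ω) (c := c') (f2 ▸ h'.one (by omega))
    have m1 := h.bdd 0 (Nat.zero_le _)
    have m2 := h'.bdd 0 (Nat.zero_le _)
    simp only [nm, iterate_zero, id, Prod.fst_zero, Prod.snd_zero, sub_zero, abs_eq_max_neg]
      at m1 m2
    let ω' : Cfg := fun e => if e.1.1 = a ∧ e.2 = false then decide (e.1.2 < c'.1.2 ∨ c.1.2 ≤ e.1.2)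
      else ω e
    have l1 := line (ω := ω') (S := Rc a (b - 1) (-M) M) (a, -M) 1 (c'.1.2 + M).toNat
      (fun l hl => by simp [mem_Rc]; omega) fun l hl => by simp [ω']; omega
    have l2 := line (ω := ω') (S := Rc a (b - 1) (-M) M) c.1 1 (M - c.1.2).toNat
      (fun l hl => by simp [mem_Rc]; omega) fun l hl => by simp [ω', f1]
    have l3 : Conn ω' (Rc a (b - 1) (-M) M) c.1 (c.1 + u 0) :=
      Conn.one (by simp [mem_Rc]; omega) (by simp [mem_Rc]; omega) (by simpa [ω'] using a2)
    have l4 : Conn ω' (Rc a (b - 1) (-M) M) c'.1 (c'.1 + u 0) :=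
      Conn.one (by simp [mem_Rc]; omega) (by simp [mem_Rc]; omega) (by simpa [ω'] using b2)
    have l5 : Conn ω' (Rc a (b - 1) (-M) M) (step ω c').1 (step ω c).1 :=
      hc.mono (fun z hz => by
        simp only [nm, lvl, Set.mem_ofPred_eq, Prod.fst_zero, Prod.snd_zero, sub_zero,
          abs_eq_max_neg, Matrix.cons_val_zero, mem_Rc] at hz ⊢
        omega) fun e he ho => by
        have : a < e.1.1 := he.1.2.1
        simp only [ω']
        rw [if_neg (by omega), ho]
    rw [a3, b3] at l5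
    have e1 : ((a, -M) : V) + (c'.1.2 + M).toNat • u 1 = c'.1 := by ext <;> simp <;> omega
    have e2 : c.1 + u 0 = (c.1.1 + 1, c.1.2) := by ext <;> simp
    have e3 : c'.1 + u 0 = (c'.1.1 + 1, c'.1.2) := by ext <;> simp
    rw [e1] at l1
    rw [e2] at l3
    rw [e3] at l4
    obtain ⟨J, j1, j2, j3⟩ := J_path (y0 := -M) (y1 := M) (by omega) subset_rfl
      ((((l1.trans' l4).trans' l5).trans' l3.symm').trans' l2) (by simp [mem_Rc]; omega) rfl
      (by simp; omega)
    have inv : ∀ l, l < k → J (fd ((step ω)^[l] c)) = 0 := fun l => by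
      induction l with
      | zero =>
        intro _
        have := j3 c.1 3 (by simp [St]; omega) (by simp [St]; omega) (by simp [ω', f1]; omega)
        simp only [iterate_zero, id, fd, a1]
        rw [← j1 (fc c.1 3) (by simp; omega), ← this]
        rfl
      | succ l ih =>
        intro hl
        have i1 := ih (by omega)
        have i2 := h.bdd l (by omega)
        have i3 : l ≠ 0 → a < ((step ω)^[l] c).1.1 := fun b => (h.mid l (by omega) (by omega)).1
        have i4 : l = 0 → ω (ed ((step ω)^[l] c)) = true := by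
          rintro rfl
          simpa [ed, a1] using a2
        rw [iterate_succ_apply']
        generalize (step ω)^[l] c = x at *
        by_cases b : ω (ed x) = true
        · rw [step_open b, fd_ro, i1]
        · rw [step_closed b, ← i1]
          have i5 := i3 fun e => b (i4 e)
          simp only [nm, Prod.fst_zero, Prod.snd_zero, sub_zero, abs_eq_max_neg] at i2
          refine j3 x.1 x.2 ?_ ?_ fun e => b ?_
          · rcases cases4 x.2 with e | e | e | e <;> simp [e, St] <;> omega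
          · rcases cases4 x.2 with e | e | e | e <;> simp [e, St] <;> omega
          · have := e.1
            simp only [ω'] at this
            rwa [if_neg] at this
            rcases cases4 x.2 with e | e | e | e <;> simp [e] <;> omega
    obtain ⟨k, rfl⟩ : ∃ l, k = l + 1 := ⟨k - 1, by have := h.pos; omega⟩
    have g1 := inv k (by omega)
    have g2 := h.lst
    have g3 := h.bdd k (by omega)
    have g4 : ((step ω)^[k] c).1.1 < b := by
      rcases Nat.eq_zero_or_pos k with rfl | p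
      · simp only [iterate_zero, id]; omega
      · exact (h.mid k p (by omega)).2
    rw [iterate_succ_apply'] at g2
    generalize (step ω)^[k] c = x at *
    have g5 : (step ω x).1.1 = b := g2
    obtain ⟨d1, -, d3⟩ := step_right (ω := ω) (c := x) (by omega)
    simp only [nm, Prod.fst_zero, Prod.snd_zero, sub_zero, abs_eq_max_neg] at g3
    rw [d3] at g5
    have := j2 (fd x) (by simp [fd, d1] at g5 ⊢; omega) (by simp [fd, d1, St]; omega)
    omega
  intro ω a b M c c' k k' hab h h' hne hc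
  have f1 : c.1.1 = a := h.fst
  have f2 : c'.1.1 = a := h'.fst
  have a1 := (step_right (ω := ω) (c := c) (f1 ▸ h.one (by omega))).1
  have b1 := (step_right (ω := ω) (c := c') (f2 ▸ h'.one (by omega))).1
  rcases lt_trichotomy c.1.2 c'.1.2 with g | g | g
  · exact key ω a b M c' c k' k hab h' h g hc
  · exact hne (Prod.ext (Prod.ext (f1.trans f2.symm) g) (a1.trans b1.symm))
  · exact key ω a b M c c' k k' hab h h' g hc.symm'

/-- the clockwise quarter turn -/
def syR : Sy where
  v x := (x.2, -x.1)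
  e e := if e.2 then ((e.1.2, -e.1.1 - 1), false) else ((e.1.2, -e.1.1), true)
  inj := by
    rintro ⟨⟨a, b⟩, c⟩ ⟨⟨a', b'⟩, c'⟩ h
    cases c <;> cases c' <;> simp at h ⊢ <;> omega
  ok x d := ⟨d + 3, by
    rcases cases4 d with rfl | rfl | rfl | rfl <;> simp [Prod.ext_iff, u, edge] <;> omega⟩

/-- its inverse -/
def syL : Sy where
  v x := (-x.2, x.1)
  e e := if e.2 then ((-e.1.2, e.1.1), false) else ((-e.1.2 - 1, e.1.1), true)
  inj := by
    rintro ⟨⟨a, b⟩, c⟩ ⟨⟨a', b'⟩, c'⟩ h
    cases c <;> cases c' <;> simp at h ⊢ <;> omega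
  ok x d := ⟨d + 1, by
    rcases cases4 d with rfl | rfl | rfl | rfl <;> simp [Prod.ext_iff] <;> omega⟩

theorem step_rot (ω : Cfg) (c : D) : step (fun e => ω (syL.e e)) (syR.v c.1, c.2 + 3) =
    (syR.v (step ω c).1, (step ω c).2 + 3) := by
  obtain ⟨⟨x, y⟩, d⟩ := c
  have : syL.e (edge (syR.v (x, y)) (d + 3)) = edge (x, y) d := by
    rcases cases4 d with rfl | rfl | rfl | rfl <;> simp [syL, syR, edge]
  simp only [step, this]
  split_ifs <;> rcases cases4 d with rfl | rfl | rfl | rfl <;> simp [syR, u] <;> first | rfl | omega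

theorem sep_succ {d : Fin 4} (h : Sep d) : Sep (d + 1) := by
  intro ω a b M c c' k k' hab p p' hne hc
  have it : ∀ (c : D) (l : ℕ), (step fun e => ω (syL.e e))^[l] (syR.v c.1, c.2 + 3) =
      (syR.v ((step ω)^[l] c).1, ((step ω)^[l] c).2 + 3) := fun c l => by
    induction l with
    | zero => rfl
    | succ l ih => rw [iterate_succ_apply', iterate_succ_apply', ih, step_rot]
  have lv : ∀ z, lvl d (syR.v z) = lvl (d + 1) z := fun z => by
    rcases cases4 d with rfl | rfl | rfl | rfl <;> simp [lvl, syR]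
  have nr : ∀ z, nm 0 (syR.v z) = nm 0 z := fun z => by simp [nm, syR, max_comm]
  have pc : ∀ c k, Pc ω (d + 1) a b M c k →
      Pc (fun e => ω (syL.e e)) d a b M (syR.v c.1, c.2 + 3) k := fun c k p =>
    ⟨p.pos, by simpa only [lv] using p.fst, by simpa only [it, lv] using p.lst,
      by simpa only [it, lv] using p.mid, by simpa only [it, nr] using p.bdd⟩
  refine h _ a b M _ _ k k' hab (pc c k p) (pc c' k' p') (fun e => hne ?_) ?_
  · simp only [syR, Prod.mk.injEq, neg_inj, add_left_inj] at e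
    exact Prod.ext (Prod.ext e.1.2 e.1.1) e.2
  · rw [step_rot, step_rot]
    refine Conn.map syR (by
      have : (fun e => ω (syL.e (syR.e e))) = ω := funext fun e => by
        obtain ⟨⟨x, y⟩, b⟩ := e
        cases b <;> simp [syL, syR]
      rw [this]; exact hc) fun z hz => by simpa only [Set.mem_ofPred_eq, lv, nr] using hz

theorem sep (d : Fin 4) : Sep d := by
  rcases cases4 d with rfl | rfl | rfl | rfl
  exacts [sep0, sep_succ sep0, sep_succ (sep_succ sep0), sep_succ (sep_succ (sep_succ sep0))]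

theorem step_vertex (ω : Cfg) (c : D) :
    (ω (ed c) = true ∧ (step ω c).1 = c.1 + u c.2) ∨ (step ω c).1 = c.1 := by
  by_cases b : ω (ed c) = true
  · exact Or.inl ⟨b, by rw [step_open b]; rfl⟩
  · exact Or.inr (by rw [step_closed b]; rfl)

/-- a family of disjoint long pieces of interfaces -/
theorem card_le_cnt {κ : Type*} (s : Finset κ) (ω ω₁ : Cfg) (c : κ → D) (k : κ → ℕ) {W : Set V}
    {x : V} {K : ℕ} {ρ : ℤ} (hρ : 1 ≤ ρ) (hW : W ⊆ Rc x.1 (x.1 + K * ρ) x.2 (x.2 + K * ρ))
    (h1 : ∀ i ∈ s, ∀ l ≤ k i, ((step ω)^[l] (c i)).1 ∈ W)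
    (h2 : ∀ i ∈ s, 2 * ρ + 2 ≤ nm (c i).1 ((step ω)^[k i] (c i)).1)
    (h3 : ∀ i ∈ s, ∀ j ∈ s, i ≠ j → ∀ l ≤ k i, ∀ l' ≤ k j,
      (step ω)^[l] (c i) ≠ (step ω)^[l'] (c j))
    (h4 : ∀ i ∈ s, ∀ l < k i, ω (ed ((step ω)^[l] (c i))) = true →
      ω₁ (ed ((step ω)^[l] (c i))) = true) :
    s.card ≤ 4 * (K + 1) * cnt (LP W ρ) ω₁ := by
  classical
  let L : Fin 4 → ℤ := ![x.1, x.2, -(x.1 + K * ρ), -(x.2 + K * ρ)]
  let M : ℤ := |x.1| + |x.2| + K * ρ + 1
  have hK : 0 ≤ K * ρ := by positivity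
  have hM : ∀ z ∈ W, nm 0 z < M := fun z hz => by
    have := hW hz
    simp only [mem_Rc, nm, M, Prod.fst_zero, Prod.snd_zero, sub_zero, abs_eq_max_neg] at this ⊢
    omega
  have lip : ∀ d z d', |lvl d (z + u d') - lvl d z| ≤ 1 := fun d z d' => by
    have l1 := abs_le.1 (lip_fst z d')
    have l2 := abs_le.1 (lip_snd z d')
    rcases cases4 d with rfl | rfl | rfl | rfl <;> simp only [lvl, abs_le] <;> simp at l1 l2 ⊢ <;>
      omega
  have ex : ∀ i ∈ s, ∃ p : Fin 4 × Fin (K + 1), ∃ q : ℕ × ℕ, q.1 + q.2 ≤ k i ∧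
      Pc ω p.1 (L p.1 + p.2 * ρ) (L p.1 + p.2 * ρ + ρ + 2) M ((step ω)^[q.1] (c i)) q.2 := by
    intro i hi
    have a1 := hW (h1 i hi 0 (Nat.zero_le _))
    have a2 := hW (h1 i hi _ le_rfl)
    have a3 := h2 i hi
    obtain ⟨d, d1, d2, d3⟩ : ∃ d, L d ≤ lvl d (c i).1 ∧
        lvl d (c i).1 + 2 * ρ + 2 ≤ lvl d ((step ω)^[k i] (c i)).1 ∧
        lvl d ((step ω)^[k i] (c i)).1 ≤ L d + K * ρ := by
      simp only [mem_Rc, nm, abs_eq_max_neg, iterate_zero, id] at a1 a2 a3
      by_contra b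
      push Not at b
      have b0 := b 0
      have b1 := b 1
      have b2 := b 2
      have b3 := b 3
      simp [L, lvl] at b0 b1 b2 b3
      omega
    have p : 0 < ρ := by omega
    have e1 := Int.ediv_mul_le (lvl d (c i).1 - L d) p.ne'
    have e2 := Int.lt_ediv_add_one_mul_self (lvl d (c i).1 - L d) p
    obtain ⟨n, hn⟩ := Int.eq_ofNat_of_zero_le (Int.ediv_nonneg (sub_nonneg.2 d1) p.le)
    rw [hn] at e1 e2
    have e3 : n + 1 < K + 1 := by
      have : ((n : ℤ) + 1) * ρ ≤ K * ρ := by nlinarith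
      have := le_of_mul_le_mul_right this p
      omega
    obtain ⟨j, j', b1, b2, b3, b4, b5⟩ := subwalk (fun l => lvl d ((step ω)^[l] (c i)).1)
      (fun l => by
        simp only [iterate_succ_apply']
        rcases step_vertex ω ((step ω)^[l] (c i)) with e | e
        · rw [e.2]; exact lip ..
        · rw [e]; simp) (k := k i) (a := L d + (n + 1) * ρ) (b := L d + (n + 1) * ρ + ρ + 2)
      (by simp only [iterate_zero, id]; omega) (by nlinarith) (by omega)
    refine ⟨(d, ⟨n + 1, e3⟩), (j, j' - j), by simp only; omega, by simp only; omega,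
      by simpa using b3, ?_, fun l l1 l2 => ?_, fun l l1 => ?_⟩ <;>
      simp only [← iterate_add_apply] at *
    · rw [Nat.sub_add_cancel b1.le]; simpa using b4
    · simpa using b5 (l + j) (by omega) (by omega)
    · exact hM _ (h1 i hi _ (by omega))
  choose! p q q1 q2 using ex
  have := card_le_mul_card_image_of_maps_to (s := s) (t := univ) (f := p) (fun _ _ => mem_univ _)
    (cnt (LP W ρ) ω₁) fun r _ => ?_
  · rw [card_univ, Fintype.card_prod, Fintype.card_fin, Fintype.card_fin] at this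
    rwa [mul_comm]
  refine le_cnt (loc_LP ((Rc_finite ..).subset hW) ρ) (bot_LP W (by omega)) (mem_DN _
    (fun i e => decide (ω e = true ∧ ∃ l, 0 < l ∧ l + 1 < (q i).2 ∧
      e = ed ((step ω)^[l + (q i).1] (c i)))) (fun i hi => ?_) (fun i hi j hj hij e a b => ?_)
    le_rfl)
  · obtain ⟨hi, -⟩ := mem_filter.1 hi
    have a1 := q1 i hi
    have a2 := q2 i hi
    refine ⟨fun e => ?_, ?_⟩
    · by_cases b : ω e = true ∧ ∃ l, 0 < l ∧ l + 1 < (q i).2 ∧ e = ed ((step ω)^[l + (q i).1] (c i))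
      · obtain ⟨b, l, -, l2, rfl⟩ := b
        rw [h4 i hi _ (by omega) b]
        exact le_top
      · simp only [b, decide_false]; exact bot_le
    obtain ⟨m, hm⟩ : ∃ m, (q i).2 = m + 2 := by
      refine ⟨(q i).2 - 2, ?_⟩
      have b1 := a2.pos
      by_contra b
      have b2 := a2.lst
      have b3 := a2.fst
      rw [show (q i).2 = 1 by omega, iterate_one] at b2
      rcases step_vertex ω ((step ω)^[(q i).1] (c i)) with e | e
      · rw [e.2] at b2
        have := abs_le.1 (lip (p i).1 ((step ω)^[(q i).1] (c i)).1 ((step ω)^[(q i).1] (c i)).2)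
        omega
      · rw [e] at b2; omega
    have st : ∀ l, |lvl (p i).1 ((step ω)^[l + 1 + (q i).1] (c i)).1 -
        lvl (p i).1 ((step ω)^[l + (q i).1] (c i)).1| ≤ 1 := fun l => by
      rw [Nat.add_right_comm, iterate_succ_apply']
      rcases step_vertex ω ((step ω)^[l + (q i).1] (c i)) with e | e
      · rw [e.2]; exact lip ..
      · rw [e]; simp
    refine ⟨((step ω)^[1 + (q i).1] (c i)).1, ((step ω)^[m + 1 + (q i).1] (c i)).1, ?_, ?_⟩
    · have b1 := abs_le.1 (st 0)
      have b2 := abs_le.1 (st (m + 1))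
      have b3 := a2.fst
      have b4 := a2.lst
      rw [hm, ← iterate_add_apply] at b4
      rw [Nat.zero_add, Nat.zero_add] at b1
      have b5 : ∀ (d : Fin 4) (y z : V), lvl d z - lvl d y ≤ nm y z := fun d y z => by
        rcases cases4 d with rfl | rfl | rfl | rfl <;> simp only [lvl, nm, abs_eq_max_neg] <;>
          simp
      have := b5 (p i).1 ((step ω)^[1 + (q i).1] (c i)).1 ((step ω)^[m + 1 + (q i).1] (c i)).1
      rw [show m + 1 + 1 = m + 2 from rfl] at b2
      omega
    · have : ∀ l, l ≤ m → Conn (fun e => decide (ω e = true ∧ ∃ l, 0 < l ∧ l + 1 < (q i).2 ∧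
          e = ed ((step ω)^[l + (q i).1] (c i)))) W ((step ω)^[1 + (q i).1] (c i)).1
          ((step ω)^[l + 1 + (q i).1] (c i)).1 := fun l => by
        induction l with
        | zero => exact fun _ => Conn.rfl'
        | succ l ih =>
          intro hl
          have b1 := h1 i hi (l + 1 + 1 + (q i).1) (by omega)
          rw [Nat.add_right_comm (l + 1), iterate_succ_apply'] at b1 ⊢
          rcases step_vertex ω ((step ω)^[l + 1 + (q i).1] (c i)) with e | e
          · rw [e.2] at b1 ⊢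
            exact (ih (by omega)).snoc (h1 i hi _ (by omega)) b1
              (decide_eq_true ⟨e.1, l + 1, by omega, by omega, rfl⟩)
          · rw [e]; exact ih (by omega)
      exact this m le_rfl
  · obtain ⟨hi, ri⟩ := mem_filter.1 hi
    obtain ⟨hj, rj⟩ := mem_filter.1 hj
    have a1 := q2 i hi
    have a2 := q2 j hj
    rw [ri] at a1
    rw [rj] at a2
    refine sep r.1 ω _ _ M _ _ _ _ (by omega) a1 a2
      (h3 i hi j hj hij _ (by have := q1 i hi; omega) _ (by have := q1 j hj; omega)) ?_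
    have cn : ∀ {y : D} {n : ℕ}, Pc ω r.1 (L r.1 + r.2 * ρ) (L r.1 + r.2 * ρ + ρ + 2) M y n →
        ∀ l, l + 1 < n → Conn ω {z | nm 0 z < M ∧ L r.1 + r.2 * ρ < lvl r.1 z ∧
          lvl r.1 z < L r.1 + r.2 * ρ + ρ + 2} (step ω y).1 ((step ω)^[l + 1] y).1 := by
      intro y n h l
      induction l with
      | zero => exact fun _ => Conn.rfl'
      | succ l ih =>
        intro hl
        have b1 := And.intro (h.bdd (l + 1 + 1) (by omega)) (h.mid (l + 1 + 1) (by omega) hl)
        have b2 := And.intro (h.bdd (l + 1) (by omega)) (h.mid (l + 1) (by omega) (by omega))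
        rw [iterate_succ_apply' _ (l + 1)] at b1 ⊢
        rcases step_vertex ω ((step ω)^[l + 1] y) with e | e
        · rw [e.2] at b1 ⊢
          exact (ih (by omega)).snoc b2 b1 e.1
        · rw [e]; exact ih (by omega)
    simp only [decide_eq_true_eq] at a b
    obtain ⟨o, l, l1, l2, rfl⟩ := a
    obtain ⟨-, l', l3, l4, e⟩ := b
    obtain ⟨l, rfl⟩ : ∃ m, l = m + 1 := ⟨l - 1, by omega⟩
    obtain ⟨l', rfl⟩ : ∃ m, l' = m + 1 := ⟨l' - 1, by omega⟩
    have b1 := cn a1 l (by omega)
    have b2 := cn a2 l' (by omega)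
    have b3 := cn a2 (l' + 1) l4
    rw [iterate_succ_apply' _ (l' + 1)] at b3
    rw [← iterate_add_apply] at b1 b2 b3
    rcases ed_eq e with e' | e'
    · rw [e'] at b1; exact b1.trans' b2.symm'
    · have o' : (step ω ((step ω)^[l' + 1 + (q j).1] (c j))).1 =
          (opp ((step ω)^[l' + 1 + (q j).1] (c j))).1 := by
        rw [step_open (e ▸ o)]; rfl
      rw [o'] at b3
      rw [e'] at b1
      exact b1.trans' b3.symm'

end Pool.Agent.P.MP_6c8efb_pr.Cardy
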