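import Pool.Agent.P.MP_6c8efb_pr.Cardy.NIface
import Pool.Agent.P.MP_6c8efb_pr.Cardy.NSep
import Pool.Agent.P.MP_6c8efb_pr.Arm.Cmp

/-! Exponential moments of the number of big strands and loops. -/

open MeasureTheory Finset Function

namespace Pool.Agent.P.MP_6c8efb_pr.Cardy

open Arm (TC tm)
open Arm.CmpA (co tm_even tm_odd)

namespace NBig

/-- the side of a tile which corresponds to a dart -/
def sig (c : D) : E := edge (co 0 c.1) (c.2 + 3)

theorem co_even (z : V) : Even ((co 0 z).1 + (co 0 z).2) := by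
  simp only [co, Int.even_iff]; omega

theorem tin_sig (c : D) : tin (sig c) = fc (co 0 c.1) c.2 := by
  rw [sig, (dart_even _ (co_even c.1)).1, add_assoc]
  exact congrArg _ (add_zero _)

theorem tout_sig (c : D) : tout (sig c) = fc (co 0 c.1) (c.2 + 3) :=
  (dart_even _ (co_even c.1)).2.1

theorem nx_sig (ω : Cfg) (c : D) : nx (tm ω) (sig c) = sig (step ω c) := by
  rw [nx, tin_sig]
  obtain ⟨⟨p, q⟩, d⟩ := c
  rcases cases4 d with rfl | rfl | rfl | rfl
  · have e : sig ((p, q), 0) = lft (fc (co 0 (p, q)) 0) := by simp [sig, lft, edge, Prod.ext_iff]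
    have t : tm ω (fc (co 0 (p, q)) 0) = !ω ((p, q), true) :=
      tm_odd ω p q (by simp [co]) (by simp [co])
    rw [e, t, prt_lft]
    cases h : ω ((p, q), true) <;> simp [step, h, sig, co, top, bot, edge, u] <;> omega
  · have e : sig ((p, q), 1) = bot (fc (co 0 (p, q)) 1) := rfl
    have t : tm ω (fc (co 0 (p, q)) 1) = ω ((p, q), false) :=
      tm_even ω p q (by simp) (by simp)
    rw [e, t, prt_bot]
    cases h : ω ((p, q), false) <;> simp [step, h, sig, co, lft, rgt, edge, u] <;> omega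
  · have e : sig ((p, q), 2) = rgt (fc (co 0 (p, q)) 2) := by simp [sig, rgt, edge]
    have t : tm ω (fc (co 0 (p, q)) 2) = !ω ((p - 1, q), true) :=
      tm_odd ω (p - 1) q (by simp [co]; omega) (by simp [co]; omega)
    rw [e, t, prt_rgt]
    cases h : ω ((p - 1, q), true) <;> simp [step, h, sig, co, top, bot, edge, u] <;> omega
  · have e : sig ((p, q), 3) = top (fc (co 0 (p, q)) 3) := by simp [sig, top, edge, Prod.ext_iff]
    have t : tm ω (fc (co 0 (p, q)) 3) = ω ((p, q - 1), false) :=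
      tm_even ω p (q - 1) (by simp [co]; omega) (by simp [co]; omega)
    rw [e, t, prt_top]
    cases h : ω ((p, q - 1), false) <;> simp [step, h, sig, co, lft, rgt, edge, u] <;> omega

theorem iter_sig (ω : Cfg) (c : D) (k : ℕ) : (nx (tm ω))^[k] (sig c) = sig ((step ω)^[k] c) := by
  induction k with
  | zero => rfl
  | succ k ih => rw [iterate_succ_apply', iterate_succ_apply', ih, nx_sig]

theorem sig_surj (e : E) : ∃ c, sig c = e := by
  obtain ⟨⟨x, y⟩, b⟩ := e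
  rcases Int.emod_two_eq_zero_or_one (x + y) with h | h <;> cases b
  · exact ⟨(((x - y) / 2, (x + y) / 2), 2), by simp [sig, co, edge]; omega⟩
  · exact ⟨(((x - y) / 2, (x + y) / 2), 1), by simp [sig, co, edge]; omega⟩
  · exact ⟨(((x - y - 1) / 2, (x + y + 1) / 2), 0), by simp [sig, co, edge]; omega⟩
  · exact ⟨(((x + 1 - y) / 2, (x + 1 + y) / 2), 3), by simp [sig, co, edge]; omega⟩

theorem sig_fst (c : D) : c.1.1 + c.1.2 - 1 ≤ (sig c).1.1 ∧ (sig c).1.1 ≤ c.1.1 + c.1.2 ∧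
    c.1.2 - c.1.1 - 1 ≤ (sig c).1.2 ∧ (sig c).1.2 ≤ c.1.2 - c.1.1 := by
  obtain ⟨⟨p, q⟩, d⟩ := c
  rcases cases4 d with rfl | rfl | rfl | rfl <;> simp [sig, co, edge]

theorem dd_sig (c c' : D) : dd (sig c).1 (sig c').1 ≤ 2 * nm c.1 c'.1 + 1 := by
  have h := sig_fst c
  have h' := sig_fst c'
  simp only [dd, nm, abs_eq_max_neg]
  omega

theorem fc_near (v : V) (d : Fin 4) : v.1 - 1 ≤ (fc v d).1 ∧ (fc v d).1 ≤ v.1 ∧
    v.2 - 1 ≤ (fc v d).2 ∧ (fc v d).2 ≤ v.2 := by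
  rcases cases4 d with rfl | rfl | rfl | rfl <;> simp

theorem sig_box {U : Finset V} {x : V} {R : ℕ} (hU : U ⊆ Bx x R) {c : D} (h : sig c ∈ sd U) :
    c.1 ∈ Rc ((x.1 - x.2) / 2 - R) ((x.1 - x.2) / 2 - R + (2 * R + 1))
      ((x.1 + x.2) / 2 - R) ((x.1 + x.2) / 2 - R + (2 * R + 1)) := by
  obtain ⟨d, hd⟩ : ∃ d, fc (co 0 c.1) d ∈ U := by
    rcases mem_sd'.1 h with h | h
    · exact ⟨_, tin_sig c ▸ h⟩
    · exact ⟨_, tout_sig c ▸ h⟩
  have h1 := mem_Bx.1 (hU hd)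
  have h2 := fc_near (co 0 c.1) d
  generalize fc (co 0 c.1) d = t at h1 h2
  simp only [co] at h2
  rw [mem_Rc]
  omega

/-- big classes give disjoint long open paths -/
theorem nb_le {U : Finset V} {ρ K : ℕ} {r : ℤ} {W : Set V} {x : V} (hr : 1 ≤ r)
    (hρ : 4 * r + 5 ≤ ρ) (hW : W ⊆ Rc x.1 (x.1 + K * r) x.2 (x.2 + K * r))
    (hU : ∀ c, sig c ∈ sd U → c.1 ∈ W) (ω : Cfg) :
    nb U ρ (tm ω) ≤ 4 * (K + 1) * cnt (LP W r) ω := by
  classical
  have ex : ∀ L ∈ (clss (tm ω) U).filter (Lrg ρ), ∃ p : D × ℕ, sig p.1 ∈ sd U ∧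
      cls (tm ω) U (sig p.1) = L ∧ Fw (tm ω) U (sig p.1) p.2 ∧
        (ρ : ℤ) ≤ dd (sig p.1).1 (sig ((step ω)^[p.2] p.1)).1 := by
    intro L hL
    obtain ⟨h1, e, he, e', he', h2⟩ := mem_filter.1 hL
    obtain ⟨f, -, rfl⟩ := mem_clss.1 h1
    obtain ⟨a1, a2⟩ := mem_cls.1 he
    obtain ⟨b1, b2⟩ := mem_cls.1 he'
    obtain ⟨k, ⟨h3, h4⟩ | ⟨h3, h4⟩⟩ := same_iff.1 (a2.symm'.trans' b2)
    · obtain ⟨c, rfl⟩ := sig_surj e
      exact ⟨(c, k), a1, a2.cls_eq.symm, h3, by rwa [← iter_sig, h4]⟩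
    · obtain ⟨c, rfl⟩ := sig_surj e'
      refine ⟨(c, k), b1, b2.cls_eq.symm, h3, ?_⟩
      rw [← iter_sig, h4]
      simp only [dd, abs_eq_max_neg] at h2 ⊢
      omega
  choose! p p1 p2 p3 p4 using ex
  have same : ∀ L ∈ (clss (tm ω) U).filter (Lrg ρ), ∀ l ≤ (p L).2,
      Same (tm ω) U (sig (p L).1) (sig ((step ω)^[l] (p L).1)) := fun L hL l hl => by
    rw [← iter_sig]
    exact ((p3 L hL).mono hl).same
  refine card_le_cnt _ ω ω (fun L => (p L).1) (fun L => (p L).2) hr hW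
    (fun L hL l hl => hU _ ((same L hL l hl).mem (p1 L hL))) (fun L hL => ?_)
    (fun L hL L' hL' hne l hl l' hl' h => hne ?_) fun _ _ _ _ h => h
  · have := (p4 L hL).trans (dd_sig _ _)
    omega
  · rw [← p2 L hL, ← p2 L' hL', (same L hL l hl).cls_eq, (same L' hL' l' hl').cls_eq, h]

theorem integral_tm {f : TC → ℝ} (h : LocF f) :
    LocF (fun ω => f (tm ω)) ∧ ∫ ω, f (tm ω) ∂PM (fun _ => hf) = ∫ τ, f τ ∂PM fun _ => hf := by
  let φ : ℤ × ℤ → E := fun c => if Even (c.1 + c.2) then (((c.1 - c.2) / 2, (c.1 + c.2) / 2), false)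
    else (((c.1 - c.2 - 1) / 2, (c.1 + c.2 + 1) / 2), true)
  let g : ℤ × ℤ → Bool ≃ Bool := fun c => if Even (c.1 + c.2) then Equiv.refl _ else Arm.notE
  have hφ : Function.Injective φ := by
    rintro ⟨a, b⟩ ⟨c, d⟩ h
    simp only [φ, Int.even_iff] at h
    split_ifs at h <;> simp only [Prod.mk.injEq] at h ⊢ <;> first | omega | simp at h
  have e : ∀ ω : Cfg, tm ω = fun c => g c (ω (φ c)) := fun ω => funext fun c => by
    simp only [tm, φ, g]
    split_ifs <;> rfl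
  simp only [e]
  have hL : LocF fun τ : TC => f fun c => g c (τ c) := by
    obtain ⟨S, hS, h⟩ := h
    exact ⟨S, hS, fun _ _ hω => h fun c hc => by rw [hω c hc]⟩
  refine ⟨?_, (integral_comp_inj (fun _ => hf) hφ hL).trans (integral_equiv g h)⟩
  obtain ⟨S, hS, h⟩ := h
  exact ⟨φ '' S, hS.image φ, fun _ _ hω => h fun c hc => by rw [hω _ ⟨c, hc, rfl⟩]⟩

theorem nb_le_card (U : Finset V) (ρ : ℕ) (τ : TC) : nb U ρ τ ≤ 4 * U.card := by
  classical
  refine ((card_filter_le _ _).trans card_image_le).trans (card_biUnion_le.trans ?_)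
  rw [mul_comm, ← smul_eq_mul]
  exact sum_le_card_nsmul _ _ _ fun t _ => card_le_four

theorem card_Bx (x : V) (R : ℕ) : (Bx x R).card = 2 * R * (2 * R) := by
  rw [Bx, card_product, Int.card_Ico, Int.card_Ico]
  congr 1 <;> omega

end NBig

open NBig in
theorem s_NBig : S_NBig := by
  intro z K hz
  obtain ⟨C, -, hC⟩ := exp_cnt (z ^ (4 * (26 * K + 1 + 1))) (by positivity) (26 * K + 1)
  refine ⟨max C (z ^ (4 * (2 * (K * 9) * (2 * (K * 9))))), fun U x ρ hU => ?_⟩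
  have loc : LocF fun τ => z ^ nb U ρ τ := (locF_nb U ρ).comp (z ^ ·)
  rcases Nat.lt_or_ge ρ 9 with h | h
  · refine le_max_of_le_right ((integral_mono (loc.integrable _)
      (integrable_const (z ^ (4 * (2 * (K * 9) * (2 * (K * 9)))))) fun τ => ?_).trans (by simp))
    refine pow_le_pow_right₀ hz ((nb_le_card U ρ τ).trans (Nat.mul_le_mul_left _
      ((card_le_card hU).trans ?_)))
    rw [card_Bx]
    have : K * (ρ + 1) ≤ K * 9 := Nat.mul_le_mul_left _ h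
    exact Nat.mul_le_mul (by omega) (by omega)
  · obtain ⟨r, r1, r2, r3⟩ : ∃ r : ℤ, 1 ≤ r ∧ 4 * r + 5 ≤ ρ ∧ (ρ : ℤ) + 1 ≤ 13 * r :=
      ⟨((ρ : ℤ) - 5) / 4, by omega, by omega, by omega⟩
    let y : V := ((x.1 - x.2) / 2 - (K * (ρ + 1) : ℕ), (x.1 + x.2) / 2 - (K * (ρ + 1) : ℕ))
    have hR : 2 * ((K * (ρ + 1) : ℕ) : ℤ) + 1 ≤ ((26 * K + 1 : ℕ) : ℤ) * r := by
      push_cast
      nlinarith [mul_le_mul_of_nonneg_left r3 (Int.natCast_nonneg K)]
    obtain ⟨l1, l2⟩ := integral_tm loc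
    refine le_max_of_le_left (l2 ▸ (integral_mono (l1.integrable _)
      (((locF_cnt (loc_LP (Rc_finite ..) r)).comp (_ ^ ·)).integrable _) fun ω => ?_).trans
        (hC y r _ r1 subset_rfl))
    simp only [← pow_mul]
    refine pow_le_pow_right₀ hz (nb_le r1 r2 subset_rfl (fun c hc => ?_) ω)
    have := sig_box hU hc
    simp only [mem_Rc, y] at this ⊢
    omega

end Pool.Agent.P.MP_6c8efb_pr.Cardy
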