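import Pool.Agent.P.MP_6c8efb_pr.Cardy.NIface

/-! Weights of loops and strands, and the deterministic factorisation of the weight. -/

open Finset
open scoped Real

namespace Pool.Agent.P.MP_6c8efb_pr.Cardy

open Arm (TC)

namespace NDet

variable {τ : TC} {U Q B : Finset V} {x y : V} {ρ : ℕ} {e h v : E} {K : Finset E} {γ : E → ℝ}

theorem sum_th (hK : K ⊆ sd Q) : ∑ e ∈ K, θs τ Q γ ∅ e = π / 12 * trK τ Q K +
    ∑ e ∈ K ∩ bd Q, ((if tin e ∈ Q then 0 else γ e) + if tout e ∈ Q then 0 else -γ e) := by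
  rw [sum_subset inter_subset_left fun e he h => ?_, trK, sum_filter, Int.cast_sum, mul_sum,
    ← sum_add_distrib]
  · refine sum_congr rfl fun e _ => ?_
    unfold θs
    split_ifs <;> simp_all
  · have h1 := mem_sd'.1 (hK he)
    rw [mem_inter, mem_bd'] at h
    rw [if_pos (by tauto), if_pos (by tauto), add_zero]

theorem cls_sub : cls τ Q e ⊆ sd Q := fun _ h => (mem_cls.1 h).1

theorem bd_iff (h1 : e.1 ∈ B) (h2 : lo e ∈ B) : e ∈ bd (Q ∩ B) ↔ e ∈ bd Q := by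
  simp only [mem_bd, mem_inter, h1, h2, and_true]

theorem same_sub (hU : U ⊆ Q) (h1 : h ∈ bd U) (h2 : h ∈ bd Q) (h3 : v ∈ bd U) (h4 : v ∈ bd Q)
    (ne : h ≠ v) (hs : Same τ U h v) (H : Same τ Q h e) : Same τ U h e := by
  induction H with
  | refl => exact Same.rfl'
  | @tail f _ _ a ih =>
    obtain ⟨t, ht, b, rfl⟩ := a
    by_cases c : t ∈ U
    · exact ih.trans' (same_prt c b)
    have a1 := mem_sd.1 (ih.mem (bd_sub _ h1))
    have a2 := @hU f.1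
    have a3 := @hU (lo f)
    have a4 : f ∈ bd U := by rcases mem_sd1.1 b with rfl | rfl <;> rw [mem_bd] <;> tauto
    have a5 : f ∈ bd Q := by rcases partner_unique h1 h3 a4 hs ih ne with rfl | rfl <;> assumption
    rw [mem_bd] at a5
    rcases mem_sd1.1 b with rfl | rfl <;> tauto

/-- `K` is a strand from a horizontal boundary side to a vertical one whose lines meet at `y` -/
def Cor (τ : TC) (Q : Finset V) (y : V) (K : Finset E) : Prop := ∃ h ∈ bd Q, ∃ v ∈ bd Q,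
  h.2 = true ∧ v.2 = false ∧ Same τ Q h v ∧ K = cls τ Q h ∧ y = (v.1.1, h.1.2)

theorem Cor.unique (H : Cor τ Q x K) (H' : Cor τ Q y K) : x = y := by
  obtain ⟨h, a1, v, a2, a3, a4, a5, rfl, rfl⟩ := H
  obtain ⟨h', b1, v', b2, b3, b4, b5, b6, rfl⟩ := H'
  have ne : h ≠ v := by rintro rfl; simp [a3] at a4
  have c : Same τ Q h h' := (mem_cls.1 (b6 ▸ (mem_cls' (bd_sub _ b1)).2 Same.rfl')).2
  rcases partner_unique a1 a2 b1 a5 c ne with rfl | rfl
  · rcases partner_unique a1 a2 b2 a5 b5 ne with rfl | rfl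
    · simp [a3] at b4
    · rfl
  · simp [a4] at b3

theorem near (he : e ∈ sd (Q ∩ Bx x ρ)) : x.1 - ρ ≤ e.1.1 ∧ e.1.1 ≤ x.1 + ρ ∧ x.2 - ρ ≤ e.1.2 ∧
    e.1.2 ≤ x.2 + ρ ∧ ((e.2 = true ∧ e.1.2 = x.2) ∨ (e.2 = false ∧ e.1.1 = x.1) →
      e.1 ∈ Bx x ρ ∧ lo e ∈ Bx x ρ) := by
  obtain ⟨⟨a, b⟩, c⟩ := e
  rcases mem_sd.1 he with h | h <;> have := mem_Bx.1 (mem_inter.1 h).2 <;> cases c <;>
    simp [lo, mem_Bx] at this ⊢ <;> omega

theorem cor_of (hK : K ∈ clss τ (Q ∩ Bx x ρ)) (H : Crn (Q ∩ Bx x ρ) x K) :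
    Cor τ Q x K ∧ K ⊆ sd (Q ∩ Bx x ρ) := by
  obtain ⟨e, he, rfl⟩ := mem_clss.1 hK
  obtain ⟨⟨h, a1, a2, a3, a4⟩, v, b1, b2, b3, b4⟩ := H
  have c1 := (near (bd_sub _ a2)).2.2.2.2 (.inl ⟨a3, a4⟩)
  have c2 := (near (bd_sub _ b2)).2.2.2.2 (.inr ⟨b3, b4⟩)
  have a5 := (bd_iff c1.1 c1.2).1 a2
  have b5 := (bd_iff c2.1 c2.2).1 b2
  have s := (mem_cls.1 a1).2.symm'.trans' (mem_cls.1 b1).2
  refine ⟨⟨h, a5, v, b5, a3, b3, s.mono inter_subset_left fun _ _ => rfl, ?_, by rw [a4, b4]⟩,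
    cls_sub⟩
  rw [(mem_cls.1 a1).2.cls_eq]
  ext f
  rw [mem_cls' (bd_sub _ a2), mem_cls' (bd_sub _ a5)]
  exact ⟨fun a => a.mono inter_subset_left fun _ _ => rfl,
    same_sub inter_subset_left a2 a5 b2 b5 (by rintro rfl; simp [a3] at b3) s⟩

theorem of_cor (H : Cor τ Q x K) (hL : ¬Lrg ρ K) :
    K ∈ clss τ (Q ∩ Bx x ρ) ∧ Crn (Q ∩ Bx x ρ) x K := by
  obtain ⟨h, a1, v, a2, a3, a4, a5, rfl, rfl⟩ := H
  have m := fun f => @mem_cls' τ Q h f (bd_sub _ a1)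
  have box : ∀ f, Same τ Q h f → f.1 ∈ Bx (v.1.1, h.1.2) ρ ∧ lo f ∈ Bx (v.1.1, h.1.2) ρ := by
    intro f hf
    have c1 := not_le.1 fun c => hL ⟨h, (m _).2 Same.rfl', f, (m _).2 hf, c⟩
    have c2 := not_le.1 fun c => hL ⟨v, (m _).2 a5, f, (m _).2 hf, c⟩
    obtain ⟨⟨a, b⟩, c⟩ := f
    simp only [dd, abs_eq_max_neg] at c1 c2
    cases c <;> simp [lo, mem_Bx] <;> omega
  have b1 := (bd_iff (box h Same.rfl').1 (box h Same.rfl').2).2 a1
  have b2 := (bd_iff (box v a5).1 (box v a5).2).2 a2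
  refine ⟨mem_clss.2 ⟨h, bd_sub _ b1, ?_⟩, ⟨h, (m _).2 Same.rfl', b1, a3, rfl⟩,
    v, (m _).2 a5, b2, a4, rfl⟩
  ext f
  rw [mem_cls' (bd_sub _ b1), m]
  refine ⟨fun a => a.mono inter_subset_left fun _ _ => rfl, fun a => ?_⟩
  induction a with
  | refl => exact Same.rfl'
  | tail c a ih =>
    obtain ⟨t, ht, b, rfl⟩ := a
    refine ih.trans' (same_prt (mem_inter.2 ⟨ht, ?_⟩) b)
    rcases mem_sd1.1 b with rfl | rfl
    exacts [(box _ c).1, (box _ c).2]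

end NDet

open NDet

theorem s_NStr (hL : S_Loop) (hT : S_Top2) : S_NStr := by
  refine ⟨fun τ D γ e he h => ?_, fun P τ γ i j h => ?_⟩
  · rw [cw, sum_th cls_sub, disjoint_iff_inter_eq_empty.1 h]
    have c : Real.cos (π / 12 * 4) = 1 / 2 := by
      rw [← Real.cos_pi_div_three]; congr 1; ring
    rcases hL τ D e he h with a | a <;> simp [a, c]
  · have ne : P.b i ≠ P.b j := fun a => h.1.ne (P.b_inj (h.1.trans h.2.1) h.2.1 a)
    have e : cls τ P.D (P.b i) ∩ bd P.D = {P.b i, P.b j} := by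
      ext x
      rw [mem_inter, mem_cls' (P.b_mem_sd i), mem_insert, mem_singleton]
      refine ⟨fun hx => partner_unique (P.b_mem_bd i) (P.b_mem_bd j) hx.2 h.2.2 hx.1 ne, ?_⟩
      rintro (rfl | rfl)
      exacts [⟨Same.rfl', P.b_mem_bd i⟩, ⟨h.2.2, P.b_mem_bd j⟩]
    have c : (3 : ℝ) ^ (-((2 : ℕ) : ℝ) / 4) = (√3)⁻¹ := by
      rw [Real.sqrt_eq_rpow, ← Real.rpow_neg (by norm_num)]; norm_num
    have a1 := mem_bd'.1 (P.b_mem_bd i)
    have a2 := mem_bd'.1 (P.b_mem_bd j)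
    have a3 := h.tin_iff
    rw [cw, sum_th cls_sub, e, card_pair ne, c, sum_pair ne, (hT P τ).2.1 i j h, ← mul_assoc,
      mul_comm _ 2, ← div_eq_mul_inv]
    congr 1
    by_cases b : tin (P.b i) ∈ P.D
    · rw [if_pos b, if_pos b, if_neg (by tauto), if_neg (by tauto), if_pos (by tauto)]
      congr 1; push_cast; ring
    · rw [if_neg b, if_neg b, if_pos (by tauto), if_pos (by tauto), if_neg (by tauto),
        ← Real.cos_neg]
      congr 1; push_cast; ring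

theorem s_NDet (H : S_NStr) : S_NDet := by
  classical
  intro Q γ J x w ρ τ hW hx
  let C := fun k => (clss τ (Q ∩ Bx (x k) ρ)).filter (Crn (Q ∩ Bx (x k) ρ) (x k))
  have c0 : ∀ k, ∀ K ∈ C k, Cor τ Q (x k) K ∧ K ⊆ sd (Q ∩ Bx (x k) ρ) := fun k K h =>
    cor_of (mem_filter.1 h).1 (mem_filter.1 h).2
  have c1 : J.biUnion C ⊆ clss τ Q := fun K hK => by
    obtain ⟨k, -, hK'⟩ := mem_biUnion.1 hK
    obtain ⟨h, a, -, -, -, -, -, rfl, -⟩ := (c0 k K hK').1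
    exact mem_clss.2 ⟨h, bd_sub _ a, rfl⟩
  have c2 : ∀ k ∈ J, ∀ K ∈ C k, cw τ Q γ ∅ K = w k := fun k hk K hK => by
    obtain ⟨⟨h, a1, v, a2, a3, a4, a5, rfl, a6⟩, b⟩ := c0 k K hK
    have m := fun f a => near (b ((@mem_cls' τ Q h f (bd_sub _ a1)).2 a))
    rcases (hW τ h v a1 a2 (by rintro rfl; simp [a3] at a4) a5 fun f hf => by
      have := m f hf
      have := m h Same.rfl'
      simp only [dd, abs_eq_max_neg]
      omega).2 a3 a4 with ⟨l, hl, b1, b2⟩ | ⟨b1, -⟩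
    · rw [b2, hx k hk l hl (a6.trans b1.symm)]
    · exact absurd a6 (b1 k hk)
  have c3 : ∀ K ∈ clss τ Q \ J.biUnion C, ¬Lrg ρ K → cw τ Q γ ∅ K = 1 := fun K hK hL => by
    obtain ⟨a, b⟩ := mem_sdiff.1 hK
    have key : ∀ e ∈ bd Q, ∀ e' ∈ bd Q, e ≠ e' → Same τ Q e e' → K = cls τ Q e →
        e.2 = e'.2 ∨ e.2 = true ∧ e'.2 = false → cw τ Q γ ∅ K = 1 := by
      rintro e h1 e' h2 ne s rfl o
      have m := fun f => @mem_cls' τ Q e f (bd_sub _ h1)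
      have := hW τ e e' h1 h2 ne s fun f hf => by
        have := not_le.1 fun c => hL ⟨e, (m _).2 Same.rfl', f, (m _).2 hf, c⟩
        omega
      rcases o with o | ⟨o, o'⟩
      · exact this.1 o
      rcases this.2 o o' with ⟨k, hk, b1, -⟩ | ⟨-, b1⟩
      · exact absurd (mem_biUnion.2 ⟨k, hk, mem_filter.2
          (of_cor ⟨e, h1, e', h2, o, o', s, rfl, b1⟩ hL)⟩) b
      · exact b1
    obtain ⟨z, hz, rfl⟩ := mem_clss.1 a
    by_cases d : Disjoint (cls τ Q z) (bd Q)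
    · exact H.1 τ Q γ z hz d
    obtain ⟨e, h1, h2⟩ := not_disjoint_iff.1 d
    obtain ⟨e', h3, h4, h5⟩ := exists_partner τ h2
    have ne : e ≠ e' := by rintro rfl; tauto
    have s := (mem_cls.1 h1).2
    by_cases o : e.2 = e'.2 ∨ e.2 = true ∧ e'.2 = false
    · exact key e h2 e' h3 ne h4 s.cls_eq o
    · refine key e' h3 e h2 ne.symm h4.symm' (s.trans' h4).cls_eq (.inr ?_)
      revert o
      cases e.2 <;> cases e'.2 <;> simp
  refine ⟨(clss τ Q \ J.biUnion C).filter (Lrg ρ), (filter_subset _ _).trans sdiff_subset,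
    card_le_card (filter_subset_filter _ sdiff_subset), ?_⟩
  rw [← prod_sdiff c1, mul_comm, prod_biUnion fun k hk l hl ne => disjoint_left.2 fun K a b =>
    ne (hx k hk l hl ((c0 k K a).1.unique (c0 l K b).1)),
    prod_filter_of_ne fun K hK a => by_contra fun b => a (c3 K hK b)]
  congr 1
  exact prod_congr rfl fun k hk => by rw [prod_congr rfl (c2 k hk), prod_const]; rfl

end Pool.Agent.P.MP_6c8efb_pr.Cardy
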