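import Pool.Agent.P.MP_6c8efb_pr.Cardy.NIface

/-! Geometry of blow-ups and weights of their small strands. -/

open scoped Real

namespace Pool.Agent.P.MP_6c8efb_pr.Cardy

open Arm (TC)

namespace Ng

variable {P P' : Dom} {M : ℕ}

theorem mul_cases {M : ℤ} (hM : 0 < M) (p q : ℤ) :
    (q ≤ p - 2 ∧ M * q ≤ M * p - 2 * M) ∨ (q = p - 1 ∧ M * q = M * p - M) ∨
      (q = p ∧ M * q = M * p) ∨ (q = p + 1 ∧ M * q = M * p + M) ∨
        (p + 2 ≤ q ∧ M * p + 2 * M ≤ M * q) := by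
  rcases (by omega : q ≤ p - 2 ∨ q = p - 1 ∨ q = p ∨ q = p + 1 ∨ p + 2 ≤ q) with h | h | h | h | h
  · exact Or.inl ⟨h, by nlinarith⟩
  · exact Or.inr (Or.inl ⟨h, by rw [h]; ring⟩)
  · exact Or.inr (Or.inr (Or.inl ⟨h, by rw [h]⟩))
  · exact Or.inr (Or.inr (Or.inr (Or.inl ⟨h, by rw [h]; ring⟩)))
  · exact Or.inr (Or.inr (Or.inr (Or.inr ⟨h, by nlinarith⟩)))

/-- `e'` is a piece of the blow-up of the side `e` -/
def Pc (M : ℕ) (e e' : E) : Prop := e'.2 = e.2 ∧ ∃ a : ℤ, 0 ≤ a ∧ a < M ∧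
  e'.1.1 = M * e.1.1 + (if e.2 then a else 0) ∧ e'.1.2 = M * e.1.2 + if e.2 then 0 else a

/-- `v` is an end of `e` -/
def En (e : E) (v : V) : Prop := v = e.1 ∨ v = hd e

theorem pc_b (h : P.Blow M P') (hM : 0 < M) (i : ℕ) : Pc M (P.b (i / M)) (P'.b i) := by
  have h1 := Nat.mod_lt i hM
  have h2 := h.c' (i / M) h1.le
  rw [Nat.div_add_mod] at h2
  rw [Dom.b, Dom.b, h2, h.dir]
  generalize P.c (i / M) = v
  generalize i % M = r at h1
  rcases cases4 (P.dir (i / M)) with e | e | e | e <;> rw [e]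
  · exact ⟨rfl, r, by omega, by omega, by simp⟩
  · exact ⟨rfl, r, by omega, by omega, by simp⟩
  · exact ⟨rfl, M - 1 - r, by omega, by omega, by simp; ring⟩
  · exact ⟨rfl, M - 1 - r, by omega, by omega, by simp; ring⟩

theorem share {e f e' f' : E} (h : Pc M e e') (h' : Pc M f f') (hd' : dd e'.1 f'.1 < M) :
    ∃ v, En e v ∧ En f v := by
  obtain ⟨-, a, a1, a2, a3, a4⟩ := h
  obtain ⟨-, b, b1, b2, b3, b4⟩ := h'
  obtain ⟨⟨x, y⟩, c⟩ := e
  obtain ⟨⟨x', y'⟩, c'⟩ := f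
  rw [dd, max_lt_iff, abs_lt, abs_lt, a3, a4, b3, b4] at hd'
  have k1 := mul_cases (M := M) (by omega) x x'
  have k2 := mul_cases (M := M) (by omega) y y'
  cases c <;> cases c' <;> simp only [Bool.false_eq_true, if_true, if_false] at hd'
  · exact ⟨(x, max y y'), by simp [En]; omega, by simp [En]; omega⟩
  · exact ⟨(x, y'), by simp [En]; omega, by simp [En]; omega⟩
  · exact ⟨(x', y), by simp [En]; omega, by simp [En]; omega⟩
  · exact ⟨(max x x', y), by simp [En]; omega, by simp [En]; omega⟩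

theorem en_b {i : ℕ} {v : V} : En (P.b i) v ↔ v = P.c i ∨ v = P.c (i + 1) := by
  rcases P.b_ends i with ⟨a, b⟩ | ⟨a, b⟩ <;> rw [En, a, b]
  exact or_comm

theorem succ_mod {n l : ℕ} (h : l < n) : ((l + 1) % n = l + 1 ∧ l + 1 < n) ∨
    ((l + 1) % n = 0 ∧ l + 1 = n) := by
  rcases (Nat.succ_le_of_lt h).eq_or_lt with a | a
  · exact Or.inr ⟨by rw [show l + 1 = n from a, Nat.mod_self], a⟩
  · exact Or.inl ⟨Nat.mod_eq_of_lt a, a⟩

theorem near (h : P.Blow M P') (hM : 0 < M) {i j : ℕ} (hij : i < j) (hj : j < P'.n)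
    (hd' : dd (P'.b i).1 (P'.b j).1 < M) :
    j / M = i / M ∨ j / M = i / M + 1 ∨ (i / M = 0 ∧ j / M + 1 = P.n) := by
  obtain ⟨v, a, b⟩ := share (pc_b h hM i) (pc_b h hM j) hd'
  have h1 : i / M ≤ j / M := Nat.div_le_div_right hij.le
  have h2 : j / M < P.n := Nat.div_lt_of_lt_mul (h.n ▸ hj)
  generalize i / M = k at *
  generalize j / M = l at *
  have c1 := succ_mod h2
  have c2 := succ_mod (h1.trans_lt h2)
  have c3 := Nat.mod_eq_of_lt h2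
  have c4 := Nat.mod_eq_of_lt (h1.trans_lt h2)
  rw [en_b] at a b
  rcases a with rfl | rfl <;> rcases b with b | b <;> rw [P.c_eq_iff] at b <;> omega

theorem prev (P : Dom) (k : ℕ) : P.c (k + P.n - 1) + u (P.dir (k + P.n - 1)) = P.c k ∧
    P.dir k ≠ P.dir (k + P.n - 1) + 2 := by
  have e : k + P.n - 1 + 1 = k + P.n := by have := P.pos; omega
  have a := P.step (k + P.n - 1)
  have b := P.dir_ne_back (k + P.n - 1)
  rw [e] at a b
  exact ⟨by rw [← a, P.c_per], by rwa [P.per] at b⟩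

/-- one tile at a corner differs from the three others -/
theorem faces (P : Dom) (k : ℕ) (hk : P.tk k ≠ 0) :
    ∃ f, ∀ d, (fc (P.c k) d ∈ P.D ↔ P.tk k = 1) ↔ d = f := by
  obtain ⟨a, b⟩ := prev P k
  have h1 := P.fc_in k
  have h2 := P.fc_out k
  have h3 := P.fc_in (k + P.n - 1)
  have h4 := P.fc_out (k + P.n - 1)
  rw [← fc_step', a] at h3
  rw [← fc_step, a] at h4
  have h5 : ∀ d, fc (P.c k) (d + 1) ∈ P.D → fc (P.c k) d ∉ P.D → P.dir k = d := fun d p q => by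
    obtain ⟨i, c, e⟩ := (P.bdry _ d).1 ⟨p, q⟩
    rw [← e, P.dir_eq c]
  have h6 := h5 (P.dir k + 2)
  unfold Dom.tk at hk ⊢
  generalize P.dir (k + P.n - 1) = d' at *
  generalize P.dir k = d at *
  refine ⟨if d = d' + 1 then d + 1 else d, fun j => ?_⟩
  rcases cases4 d with rfl | rfl | rfl | rfl <;> rcases cases4 d' with rfl | rfl | rfl | rfl <;>
    rcases cases4 j with rfl | rfl | rfl | rfl <;>
    simp only [a01, a11, a21, a31, a02, a12, a22, a32, s01, s11, s21, s31, tn] at * <;>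
    simp_all

theorem shp (h : P.Blow M P') (hM : 0 < M) (k : ℕ) {ρ : ℕ} (hρ : ρ ≤ M) (hk : P.tk k ≠ 0) :
    Shp P'.D (M • P.c k) ρ (P.tk k = 1) := by
  obtain ⟨f, hf⟩ := faces P k hk
  have hM' : (0 : ℤ) < M := by exact_mod_cast hM
  refine ⟨f = 0 ∨ f = 1, f = 1 ∨ f = 2, fun t ht => ?_⟩
  rw [mem_Bx] at ht
  rw [Prod.smul_fst, Prod.smul_snd, nsmul_eq_mul, nsmul_eq_mul] at ht ⊢
  have e : ∀ a b : ℤ, M * b - ρ ≤ a → a < M * b + ρ → a / M = if M * b ≤ a then b else b - 1 :=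
    fun a b p q => by split_ifs <;> rw [div_iff hM'] <;> try rw [mul_sub]
                      all_goals omega
  rw [h.mem hM, e _ _ ht.1 ht.2.1, e _ _ ht.2.2.1 ht.2.2.2]
  have f0 := hf 0
  have f1 := hf 1
  have f2 := hf 2
  have f3 := hf 3
  simp only [fc0, fc1, fc2, fc3] at f0 f1 f2 f3
  split_ifs with p q q <;> simp only [p, q, Prod.mk.eta, f0, f1, f2, f3] <;>
    rcases cases4 f with rfl | rfl | rfl | rfl <;> simp

theorem ori (P : Dom) (k : ℕ) : (P.b (k + P.n - 1)).2 = (P.b k).2 ↔ P.tk k = 0 := by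
  have b := (prev P k).2
  unfold Dom.tk Dom.b
  generalize P.dir (k + P.n - 1) = d' at *
  generalize P.dir k = d at *
  rcases cases4 d with rfl | rfl | rfl | rfl <;> rcases cases4 d' with rfl | rfl | rfl | rfl <;>
    simp [tn] at b ⊢

theorem corner {e f e' f' : E} {v : V} (h : Pc M e e') (h' : Pc M f f') (hne : e ≠ f) (a : En e v)
    (b : En f v) : (e'.2 = true → f'.2 = false → M • v = (f'.1.1, e'.1.2)) ∧
      min e'.1.2 f'.1.2 ≤ M * v.2 ∧ M * v.2 ≤ max e'.1.2 f'.1.2 := by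
  obtain ⟨a0, p, a1, a2, a3, a4⟩ := h
  obtain ⟨b0, q, b1, b2, b3, b4⟩ := h'
  obtain ⟨⟨x, y⟩, c⟩ := e
  obtain ⟨⟨x', y'⟩, c'⟩ := f
  obtain ⟨v1, v2⟩ := v
  rw [a0, b0, b3, a4, b4]
  have k1 := mul_cases (M := M) (by omega) y v2
  have k2 := mul_cases (M := M) (by omega) y' v2
  have k3 := mul_cases (M := M) (by omega) x' v1
  cases c <;> cases c' <;> simp [En] at a b hne ⊢ <;> omega

theorem core (hT : S_Top2) (hS : S_NStr) (h : P.Blow M P') (hM : 0 < M) {g : ℕ → ℝ} {γ : E → ℝ}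
    {τ : TC} {i j : ℕ} (s : P'.Str τ i j) (hd' : dd (P'.b i).1 (P'.b j).1 < M)
    (gi : γ (P'.b i) = g (i / M)) (gj : γ (P'.b j) = g (j / M)) :
    (i / M = j / M ∧ cw τ P'.D γ ∅ (cls τ P'.D (P'.b i)) = 1) ∨
    ∃ k < P.n, cw τ P'.D γ ∅ (cls τ P'.D (P'.b i)) = P.wv g k ∧ i / M ≠ j / M ∧
      ((P.b (i / M)).2 = (P.b (j / M)).2 ↔ P.tk k = 0) ∧
      En (P.b (i / M)) (P.c k) ∧ En (P.b (j / M)) (P.c k) := by
  have h1 := near h hM s.1 s.2.1 hd'
  have h2 : j / M < P.n := Nat.div_lt_of_lt_mul (h.n ▸ s.2.1)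
  rw [hS.2 P' τ γ i j s, gi, gj, h.ψ, h.ψ]
  generalize i / M = k at *
  generalize j / M = l at *
  by_cases e : k = l
  · refine Or.inl ⟨e, ?_⟩
    rw [e, show π / 12 * ((P.ψ l : ℝ) - P.ψ l - 2) + (g l - g l) = -(π / 6) by ring, Real.cos_neg,
      Real.cos_pi_div_six]
    field_simp
  rcases h1 with rfl | rfl | ⟨rfl, h1⟩
  · exact absurd rfl e
  · have e1 : k + 1 + P.n - 1 = k + P.n := by omega
    have o := ori P (k + 1)
    rw [e1, P.b_per] at o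
    refine Or.inr ⟨k + 1, h2, ?_, e, o, en_b.2 (Or.inr rfl), en_b.2 (Or.inl rfl)⟩
    rw [Dom.wv, Dom.tk, e1, P.per, Nat.add_mod_right, Nat.mod_eq_of_lt (by omega),
      Dom.ψ.eq_1 P (k + 1), Finset.sum_range_succ, ← Dom.ψ]
    push_cast
    ring_nf
  · have e1 : 0 + P.n - 1 = l := by omega
    have o := ori P 0
    have t := (hT P τ).1
    rw [e1] at o
    rw [← h1, Dom.ψ, Finset.sum_range_succ, ← Dom.ψ, h1, ← zero_add P.n, P.per] at t
    refine Or.inr ⟨0, P.pos, ?_, e, eq_comm.trans o, en_b.2 (Or.inl rfl),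
      en_b.2 (Or.inr (by rw [h1, P.close]))⟩
    rw [Dom.wv, Dom.tk, e1, Nat.mod_eq_of_lt h2, ← Real.cos_neg, eq_sub_of_add_eq t]
    simp only [Dom.ψ, Finset.range_zero, Finset.sum_empty]
    push_cast
    ring_nf

end Ng

theorem s_NGeo : S_NGeo := fun _ _ _ hM h =>
  ⟨fun _ _ hij hj hd' => Ng.near h hM hij hj hd', fun k _ _ hρ hk => Ng.shp h hM k hρ hk⟩

theorem s_NGen (hT : S_Top2) (hS : S_NStr) : S_NGen := by
  intro P P' M g γ τ i j hM h hi hj hne hs hd' gi gj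
  have pi := Ng.pc_b h hM i
  have pj := Ng.pc_b h hM j
  have key : (i / M = j / M ∧ cw τ P'.D γ ∅ (cls τ P'.D (P'.b i)) = 1) ∨
      ∃ k < P.n, cw τ P'.D γ ∅ (cls τ P'.D (P'.b i)) = P.wv g k ∧ i / M ≠ j / M ∧
        ((P.b (i / M)).2 = (P.b (j / M)).2 ↔ P.tk k = 0) ∧
        Ng.En (P.b (i / M)) (P.c k) ∧ Ng.En (P.b (j / M)) (P.c k) := by
    rcases lt_or_gt_of_ne hne with l | l
    · exact Ng.core hT hS h hM ⟨l, hj, hs⟩ hd' gi gj
    · rw [hs.cls_eq]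
      refine (Ng.core hT hS h hM ⟨l, hi, hs.symm'⟩ ?_ gj gi).imp (fun a => ⟨a.1.symm, a.2⟩)
        fun ⟨k, a, b, c, d, e, f⟩ => ⟨k, a, b, c.symm, eq_comm.trans d, f, e⟩
      rwa [dd, abs_sub_comm, abs_sub_comm (P'.b i).1.2]
  refine key.imp (fun a => ⟨by rw [pi.1, pj.1, a.1], a.2⟩) fun ⟨k, a, b, c, d, e, f⟩ =>
    ⟨k, a, b, by rwa [pi.1, pj.1], Ng.corner pi pj (fun x => c (P.b_inj ?_ ?_ x)) e f⟩
  exacts [Nat.div_lt_of_lt_mul (h.n ▸ hi), Nat.div_lt_of_lt_mul (h.n ▸ hj)]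

end Pool.Agent.P.MP_6c8efb_pr.Cardy
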