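import Pool.Agent.P.MP_6c8efb_pr.Cardy.NIface

/-! The norm bound: relations between the factors of the corners, from two model domains. -/

open MeasureTheory Finset
open scoped Real

namespace Pool.Agent.P.MP_6c8efb_pr.Cardy

open Arm (TC)

namespace ModA

theorem tk_cases (P : Dom) (k : ℕ) : P.tk k = 1 ∨ P.tk k = 0 ∨ P.tk k = -1 := by
  unfold Dom.tk tn; split_ifs <;> simp

theorem ψ_succ (P : Dom) (k : ℕ) : P.ψ (k + 1) = P.ψ k + P.tk (k + 1) := by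
  rw [Dom.ψ, sum_range_succ, ← Dom.ψ, Dom.tk, show k + 1 + P.n - 1 = k + P.n by omega, P.per]

theorem tk_n (P : Dom) : P.tk P.n = P.tk 0 := by
  have := P.pos
  rw [Dom.tk, Dom.tk, show P.n + P.n - 1 = 0 + P.n - 1 + P.n by omega, P.per, ← P.per 0, zero_add]

theorem tk_cvx {P : Dom} {k : ℕ} (h : P.Cvx k) : P.tk k = 1 := by
  rw [Dom.tk, tn, if_pos]; rw [← P.per k]; exact h

theorem sum_tk (P : Dom) : ∑ k ∈ range P.n, P.tk k = P.ψ P.n := by
  have h : ∀ m, ∑ k ∈ range m, P.tk (k + 1) = P.ψ m := fun m => by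
    induction m with
    | zero => simp [Dom.ψ]
    | succ m ih => rw [sum_range_succ, ih, ψ_succ]
  have h1 := sum_range_succ P.tk P.n
  rw [sum_range_succ', h, tk_n] at h1
  linarith

theorem s3 : (1 : ℝ) ≤ √3 ∧ √3 ≤ (2 : ℝ) :=
  ⟨Real.one_le_sqrt.2 (by norm_num), Real.sqrt_le_iff.2 ⟨by norm_num, by norm_num⟩⟩

theorem wA : (1 : ℝ) ≤ 2 / √3 ∧ (2 : ℝ) / √3 ≤ 2 :=
  ⟨(one_le_div (by positivity)).2 s3.2, div_le_self (by norm_num) s3.1⟩

theorem wB : (1 : ℝ) / 2 ≤ 1 / √3 ∧ (1 : ℝ) / √3 ≤ 1 :=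
  ⟨one_div_le_one_div_of_le (by positivity) s3.2, div_le_self (by norm_num) s3.1⟩

theorem c6 : 2 / √3 * Real.cos (π / 6) = 1 := by
  rw [Real.cos_pi_div_six]; field_simp

theorem c3 : 2 / √3 * Real.cos (π / 3) = 1 / √3 := by
  rw [Real.cos_pi_div_three]; field_simp

theorem wv_eq {P : Dom} (h0 : P.Cvx 0) (h4 : P.ψ P.n = 4) {k : ℕ} (hk : k < P.n) :
    P.wv (fun i => π / 12 * P.ψ i) k = if P.tk k = 0 then 1 else P.wm {0} k := by
  rcases k with _ | k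
  · obtain ⟨m, hm⟩ : ∃ m, P.n = m + 1 := ⟨P.n - 1, by omega⟩
    have h1 := ψ_succ P m
    rw [← hm, tk_n, h4, tk_cvx h0] at h1
    have h2 : P.ψ m = 3 := by omega
    rw [Dom.wv, Dom.wm, tk_cvx h0, hm, show (0 + (m + 1) - 1) % (m + 1) = m by
      simp, h2, if_neg one_ne_zero, if_neg (by simp), ← c3, ← Real.cos_neg]
    congr 2
    simp [Dom.ψ]; ring
  · rw [Dom.wv, Dom.wm, show (k + 1 + P.n - 1) % P.n = k by
      rw [show k + 1 + P.n - 1 = k + P.n by omega, Nat.add_mod_right, Nat.mod_eq_of_lt (by omega)],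
      ψ_succ]
    rcases tk_cases P (k + 1) with h | h | h <;> rw [h]
    · rw [if_neg one_ne_zero, if_pos (by simp), show π / 12 * (((1 : ℤ) : ℝ) - 2) +
        (π / 12 * ((P.ψ k + 1 : ℤ) : ℝ) - π / 12 * P.ψ k) = 0 by push_cast; ring, Real.cos_zero, mul_one]
    · rw [if_pos rfl, ← c6, ← Real.cos_neg]
      congr 2
      push_cast; ring
    · rw [if_neg (by norm_num), if_neg (by simp), ← c3, ← Real.cos_neg]
      congr 2
      push_cast; ring

theorem ang_b (P : Dom) (g : ℕ → ℝ) {i : ℕ} (hi : i < P.n) : P.ang g (P.b i) = g i := by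
  rw [Dom.ang, sum_eq_single i]
  · intro j hj hji
    obtain ⟨h1, h2⟩ := mem_filter.1 hj
    exact absurd (P.b_inj (mem_range.1 h1) hi h2) hji
  · exact fun h => (h (mem_filter.2 ⟨mem_range.2 hi, rfl⟩)).elim

theorem one (hStr : S_NStr) (hGeo : S_NGeo) (hGen : S_NGen) (hSym : S_NSym) (hSand : S_NSand)
    (P : Dom) (h0 : P.Cvx 0) (h4 : P.ψ P.n = 4)
    (hψ : ∀ j < P.n, ∀ i ≤ j, -1 ≤ P.ψ j - P.ψ i ∧ P.ψ j - P.ψ i ≤ 3) {η : ℝ} (hη : 0 < η) :
    ∃ C : ℝ, 0 < C ∧ ∀ ρ : ℕ, 1 ≤ C * ((ρ : ℝ) + 1) ^ η * ∏ k ∈ range P.n, P.vf {0} ρ k ∧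
      ∏ k ∈ range P.n, P.vf {0} ρ k ≤ C * ((ρ : ℝ) + 1) ^ η := by
  obtain ⟨B, hB⟩ := (P.D.finite_toSet.image fun t => max t.1.natAbs t.2.natAbs).bddAbove
  obtain ⟨C, hC, H⟩ := hSand η (2 * (B + 1) + P.n) hη
  refine ⟨C, hC, fun ρ => ?_⟩
  have hM : 0 < 2 * ρ + 1 := by omega
  obtain ⟨P', h⟩ := s_blow P _ hM
  generalize hMρ : 2 * ρ + 1 = M at hM h
  have hM' : (0 : ℤ) < M := by exact_mod_cast hM
  set γ := P'.ang fun i => π / 12 * P.ψ (i / M) with hγ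
  have hb : ∀ i < P'.n, γ (P'.b i) = π / 12 * P.ψ (i / M) := fun i hi => ang_b P' _ hi
  have cl : ∀ (γ : E → ℝ) (p : ℝ → Prop) (τ : TC), p 1 → (∀ i j, P'.Str τ i j →
      p (2 / √3 * Real.cos (π / 12 * (P.ψ (j / M) - P.ψ (i / M) - 2) +
        (γ (P'.b j) - γ (P'.b i))))) → ∀ K ∈ clss τ P'.D, p (cw τ P'.D γ ∅ K) := by
    intro γ p τ p1 p2 K hK
    obtain ⟨e, he, rfl⟩ := mem_clss.1 hK
    rcases P'.str_or_loop τ he with ⟨i, j, a, b⟩ | a
    · rw [← b.cls_eq, hStr.2 P' τ γ i j a, h.ψ, h.ψ]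
      exact p2 i j a
    · rwa [hStr.1 τ _ γ e he a]
  have z1 : Zc P'.D γ = 1 := by
    rw [← Zc_neg, Zc, integral_congr_ae (g := fun _ => 1) (.of_forall fun τ =>
      prod_eq_one (cl (-γ) (· = 1) τ rfl fun i j a => ?_))]
    · simp
    · rw [Pi.neg_apply, Pi.neg_apply, hb j a.2.1, hb i (a.1.trans a.2.1), ← c6, ← Real.cos_neg]
      congr 2
      ring
  have key := H P'.D γ ((range P.n).filter fun k => P.tk k ≠ 0) (fun k => M • P.c k) (P.wm {0}) ρ 0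
    (fun t ht => by
      have a := hB ⟨_, (h.mem hM).1 ht, rfl⟩
      have a1 := (div_iff hM').1 (rfl : t.1 / M = t.1 / M)
      have a2 := (div_iff hM').1 (rfl : t.2 / M = t.2 / M)
      simp only [max_le_iff] at a
      have a3 : -(B : ℤ) ≤ t.1 / M ∧ t.1 / M ≤ B := by omega
      have a4 : -(B : ℤ) ≤ t.2 / M ∧ t.2 / M ≤ B := by omega
      have a5 : (M : ℤ) = 2 * ρ + 1 := by omega
      rw [mem_Bx]
      push_cast
      simp only [Prod.fst_zero, Prod.snd_zero]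
      have a6 : (0 : ℤ) ≤ P.n * (ρ + 1) := by positivity
      have a7 : (0 : ℤ) ≤ B := by positivity
      refine ⟨?_, ?_, ?_, ?_⟩ <;> nlinarith [a1.1, a1.2, a2.1, a2.2, a3.1, a3.2, a4.1, a4.2])
    ((card_filter_le _ _).trans (by simp))
    (fun k hk l hl hkl => by
      have a : P.c k ≠ P.c l := fun e =>
        hkl (P.inj k (mem_range.1 (mem_filter.1 hk).1) l (mem_range.1 (mem_filter.1 hl).1) e)
      have a1 : 1 ≤ max |(P.c l).1 - (P.c k).1| |(P.c l).2 - (P.c k).2| := by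
        by_contra c
        rw [not_le, max_lt_iff, abs_lt, abs_lt] at c
        exact a (Prod.ext (by omega) (by omega))
      have a5 : (M : ℤ) = 2 * ρ + 1 := by omega
      rw [dd, Prod.smul_fst, Prod.smul_snd, Prod.smul_fst, Prod.smul_snd]
      simp only [nsmul_eq_mul, ← mul_sub, abs_mul, abs_of_pos hM', ← mul_max_of_nonneg _ _ hM'.le]
      nlinarith)
    (fun k _ => by
      unfold Dom.wm; split_ifs
      exacts [⟨by linarith [wA.1], wA.2⟩, ⟨wB.1, by linarith [wB.2]⟩])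
    (fun τ e e' he he' hne hs hsm => by
      obtain ⟨i, hi, rfl⟩ := P'.mem_bd_iff.1 he
      obtain ⟨j, hj, rfl⟩ := P'.mem_bd_iff.1 he'
      rcases hGen P P' M (fun i => π / 12 * P.ψ i) γ τ i j hM h hi hj (fun e => hne (e ▸ rfl)) hs
        ((hsm _ hs).trans_lt (by omega)) (hb i hi) (hb j hj) with ⟨a, b⟩ | ⟨k, hk, a, b, c, -⟩
      · exact ⟨fun _ => b, fun c d => by simp [c, d] at a⟩
      · rw [wv_eq h0 h4 hk] at a
        refine ⟨fun d => by rw [a, if_pos (b.1 d)], fun d d' => Or.inl ?_⟩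
        have e : P.tk k ≠ 0 := fun e => by simpa [d, d'] using b.2 e
        exact ⟨k, mem_filter.2 ⟨mem_range.2 hk, e⟩, c d d', by rw [a, if_neg e]⟩)
  have pe : ∏ k ∈ (range P.n).filter fun k => P.tk k ≠ 0,
      fac (P'.D ∩ Bx (M • P.c k) ρ) (M • P.c k) (P.wm {0} k) = ∏ k ∈ range P.n, P.vf {0} ρ k := by
    rw [prod_filter]
    refine prod_congr rfl fun k hk => ?_
    rw [Dom.vf]
    by_cases e : P.tk k = 0
    · simp [e]
    · have s := (hGeo P P' M hM h).2 k (mem_range.1 hk) ρ (by omega) e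
      rw [if_pos e, if_neg e]
      split_ifs with e1
      · exact (hSym _ _ _ _).1 (by rwa [eq_true e1] at s)
      · exact (hSym _ _ _ _).2 (by rwa [eq_false e1] at s)
  rw [pe, z1, abs_one, mul_one] at key
  refine ⟨key.1, key.2 fun τ => cl γ (1 / 2 ≤ ·) τ (by norm_num) fun i j a => wB.1.trans ?_⟩
  have b := hψ (j / M) (Nat.div_lt_of_lt_mul (h.n ▸ a.2.1)) (i / M) (Nat.div_le_div_right a.1.le)
  have b1 : (-1 : ℝ) ≤ P.ψ (j / M) - P.ψ (i / M) := by exact_mod_cast b.1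
  have b2 : (P.ψ (j / M) : ℝ) - P.ψ (i / M) ≤ 3 := by exact_mod_cast b.2
  rw [hb j a.2.1, hb i (a.1.trans a.2.1), ← c3, ← Real.cos_abs (_ + _)]
  refine mul_le_mul_of_nonneg_left (Real.cos_le_cos_of_nonneg_of_le_pi (abs_nonneg _)
    (by linarith [Real.pi_pos]) (abs_le.2 ⟨?_, ?_⟩)) (by positivity) <;> nlinarith [Real.pi_pos]

theorem fc_eq (v : V) (d : Fin 4) : fc v d - fc 0 d = v := by
  rcases cases4 d with rfl | rfl | rfl | rfl <;> simp

/-- a disc given by tables -/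
def mkDom (D : Finset V) (n : ℕ) (c : List V) (d : List (Fin 4)) (h0 : 0 < n)
    (h1 : ∀ i < n, c.getD ((i + 1) % n) 0 = c.getD i 0 + u (d.getD i 0))
    (h2 : ∀ i < n, ∀ j < n, c.getD i 0 = c.getD j 0 → i = j)
    (h3 : ∀ i < n, fc (c.getD i 0) (d.getD i 0 + 1) ∈ D ∧ fc (c.getD i 0) (d.getD i 0) ∉ D)
    (h4 : ∀ t ∈ D, ∀ e : Fin 4, fc (t - fc 0 (e + 1)) e ∉ D →
      ∃ i < n, c.getD i 0 = t - fc 0 (e + 1) ∧ d.getD i 0 = e) : Dom where
  D := D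
  n := n
  c i := c.getD (i % n) 0
  dir i := d.getD (i % n) 0
  pos := h0
  step i := by rw [← h1 _ (Nat.mod_lt i h0), Nat.mod_add_mod]
  per i := by rw [Nat.add_mod_right]
  close := by simp
  inj i hi j hj := by rw [Nat.mod_eq_of_lt hi, Nat.mod_eq_of_lt hj]; exact h2 i hi j hj
  bdry v e := ⟨fun ⟨a, b⟩ => by
    obtain ⟨i, hi, h⟩ := h4 _ a e (by rwa [fc_eq])
    exact ⟨i, by rwa [Nat.mod_eq_of_lt hi, ← fc_eq v (e + 1)]⟩,
    fun ⟨i, a, b⟩ => a ▸ b ▸ h3 _ (Nat.mod_lt i h0)⟩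

/-- the square -/
def sqD : Dom := mkDom {(0, 0)} 4 [(0, 0), (1, 0), (1, 1), (0, 1)] [0, 1, 2, 3]
  (by decide) (by decide) (by decide) (by decide) (by decide)

/-- the shape with one reflex corner -/
def elD : Dom := mkDom {(0, 0), (1, 0), (0, 1)} 8
  [(0, 0), (1, 0), (2, 0), (2, 1), (1, 1), (1, 2), (0, 2), (0, 1)] [0, 0, 1, 2, 1, 2, 3, 3]
  (by decide) (by decide) (by decide) (by decide) (by decide)

theorem sq_prod (ρ : ℕ) :
    ∏ k ∈ range sqD.n, sqD.vf {0} ρ k = fA ρ (2 / √3) ^ 3 * fA ρ (1 / √3) := by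
  have h : sqD.tk 0 = 1 ∧ sqD.tk 1 = 1 ∧ sqD.tk 2 = 1 ∧ sqD.tk 3 = 1 := by decide
  rw [show sqD.n = 4 from rfl]
  simp [prod_range_succ, Dom.vf, Dom.wm, h]
  ring

theorem el_prod (ρ : ℕ) : ∏ k ∈ range elD.n, elD.vf {0} ρ k =
    fA ρ (2 / √3) ^ 3 * fA ρ (1 / √3) * (fA ρ (2 / √3) * fR ρ (1 / √3)) := by
  have h : elD.tk 0 = 1 ∧ elD.tk 1 = 0 ∧ elD.tk 2 = 1 ∧ elD.tk 3 = 1 ∧ elD.tk 4 = -1 ∧
    elD.tk 5 = 1 ∧ elD.tk 6 = 1 ∧ elD.tk 7 = 0 := by decide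
  rw [show elD.n = 8 from rfl]
  simp [prod_range_succ, Dom.vf, Dom.wm, h]
  ring

end ModA

open ModA

theorem s_NMod (hStr : S_NStr) (hGeo : S_NGeo) (hGen : S_NGen) (hSym : S_NSym) (hSand : S_NSand) :
    S_NMod := by
  intro η hη
  obtain ⟨C, hC, H⟩ := one hStr hGeo hGen hSym hSand sqD (by unfold Dom.Cvx; decide) (by decide)
    (by decide) (half_pos hη)
  obtain ⟨C', hC', H'⟩ := one hStr hGeo hGen hSym hSand elD (by unfold Dom.Cvx; decide) (by decide)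
    (by decide) (half_pos hη)
  refine ⟨C + C * C', by positivity, fun ρ => ?_⟩
  obtain ⟨h1, h2⟩ := H ρ
  have h3 := (H' ρ).2
  rw [sq_prod] at h1 h2
  rw [el_prod] at h3
  have r1 : (1 : ℝ) ≤ (ρ : ℝ) + 1 := by simp
  have e : ((ρ : ℝ) + 1) ^ η = ((ρ : ℝ) + 1) ^ (η / 2) * ((ρ : ℝ) + 1) ^ (η / 2) := by
    rw [← Real.rpow_add (by positivity), add_halves]
  have r2 : 1 ≤ ((ρ : ℝ) + 1) ^ (η / 2) := Real.one_le_rpow r1 (half_pos hη).le
  have p : 0 < fA ρ (2 / √3) * fR ρ (1 / √3) :=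
    mul_pos (fac_pos (by positivity) _ _) (fac_pos (by positivity) _ _)
  rw [e]
  generalize ((ρ : ℝ) + 1) ^ (η / 2) = y at *
  generalize fA ρ (2 / √3) * fR ρ (1 / √3) = z at *
  generalize fA ρ (2 / √3) ^ 3 * fA ρ (1 / √3) = x at *
  have h5 : C * y ≤ C * (y * y) := by gcongr; nlinarith
  have h6 : 0 ≤ C * C' * (y * y) := by positivity
  have h7 : 0 ≤ C * (y * y) := by positivity
  have h8 : z ≤ C * y * x * z := by nlinarith
  have h9 : C * y * (x * z) ≤ C * y * (C' * y) := by gcongr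
  constructor <;> nlinarith

theorem s_NAlg (hT : S_Top2) (h : S_NMod) : S_NAlg := by
  intro P k₁ k₂ η hk hη
  obtain ⟨C, hC, H⟩ := h (η / (P.n + 1)) (by positivity)
  refine ⟨(C + 1) ^ (P.n + 1), fun ρ => ?_⟩
  obtain ⟨h1, h2⟩ := H ρ
  have r2 : 1 ≤ ((ρ : ℝ) + 1) ^ (η / (P.n + 1)) := Real.one_le_rpow (by simp) (by positivity)
  have e : ((ρ : ℝ) + 1) ^ η = (((ρ : ℝ) + 1) ^ (η / (P.n + 1))) ^ (P.n + 1) := by
    rw [← Real.rpow_natCast, ← Real.rpow_mul (by positivity)]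
    congr 1
    push_cast; field_simp
  rw [e, ← mul_pow]
  have a1 : 1 ≤ fA ρ (2 / √3) := one_le_fac wA.1 _ _
  have b0 : 0 < fA ρ (1 / √3) := fac_pos (by positivity) _ _
  have b1 : fA ρ (1 / √3) ≤ 1 := fac_le_one (by positivity) wB.2 _ _
  have r0 : 0 < fR ρ (1 / √3) := fac_pos (by positivity) _ _
  obtain ⟨B, hB, B1, B2⟩ : ∃ B, (C + 1) * ((ρ : ℝ) + 1) ^ (η / (P.n + 1)) = B ∧ 1 ≤ B ∧
      C * ((ρ : ℝ) + 1) ^ (η / (P.n + 1)) ≤ B := ⟨_, rfl, by nlinarith, by nlinarith⟩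
  rw [hB]
  have key : ∀ k ∈ range P.n, 0 ≤ P.vf {0, k₁, k₂} ρ k ∧ P.vf {0, k₁, k₂} ρ k ≤
      B * fA ρ (2 / √3) ^ P.tk k *
        if k ∈ ({0, k₁, k₂} : Finset ℕ) then fA ρ (1 / √3) / fA ρ (2 / √3) else 1 := by
    intro k _
    by_cases m : k ∈ ({0, k₁, k₂} : Finset ℕ)
    · have t : P.tk k = 1 := by
        simp only [mem_insert, mem_singleton] at m
        rcases m with rfl | rfl | rfl
        exacts [tk_cvx hk.2.1, tk_cvx hk.2.2.1, tk_cvx hk.2.2.2]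
      rw [Dom.vf, Dom.wm, if_pos t, if_neg (by simp [m]), if_pos m, t, zpow_one, mul_assoc,
        mul_div_cancel₀ _ (by positivity)]
      exact ⟨b0.le, by nlinarith⟩
    · rw [Dom.vf, Dom.wm, if_neg m, mul_one]
      rcases tk_cases P k with t | t | t <;> rw [t]
      · rw [if_pos rfl, if_pos ⟨rfl, m⟩, zpow_one]
        exact ⟨by positivity, by nlinarith⟩
      · simpa using B1
      · rw [if_neg (by norm_num), if_neg (by norm_num), if_neg (by simp), zpow_neg_one,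
          ← div_eq_mul_inv, le_div_iff₀ (by positivity)]
        exact ⟨r0.le, by linarith⟩
  refine (prod_le_prod (fun k hk => (key k hk).1) fun k hk => (key k hk).2).trans ?_
  obtain ⟨⟨k0, k1, k2⟩, -⟩ := hk
  have hs : range P.n ∩ {0, k₁, k₂} = {0, k₁, k₂} := inter_eq_right.2 fun k m => by
    simp only [mem_insert, mem_singleton] at m
    rw [mem_range]; omega
  have z : ∀ s : Finset ℕ, ∏ k ∈ s, fA ρ (2 / √3) ^ P.tk k = fA ρ (2 / √3) ^ ∑ k ∈ s, P.tk k :=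
    fun s => by
    induction s using Finset.induction_on with
    | empty => simp
    | insert a s ha ih => rw [prod_insert ha, sum_insert ha, ih, zpow_add₀ (by positivity)]
  rw [prod_mul_distrib, prod_mul_distrib, prod_ite_mem, hs, prod_const, prod_const, card_range, z,
    sum_tk, (hT P fun _ => true).1, card_eq_three.2 ⟨0, k₁, k₂, by omega, by omega, by omega, rfl⟩,
    pow_succ B, mul_assoc]
  refine mul_le_mul_of_nonneg_left (le_trans ?_ (h1.trans B2)) (by positivity)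
  generalize fA ρ (2 / √3) = a at *
  generalize fA ρ (1 / √3) = b at *
  rw [show a ^ (4 : ℤ) * (b / a) ^ 3 = a * b * b ^ 2 by rw [zpow_ofNat]; field_simp,
    show a ^ 3 * b = a * b * a ^ 2 by ring]
  gcongr
  linarith

end Pool.Agent.P.MP_6c8efb_pr.Cardy
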