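import Pool.Agent.P.MP_6c8efb_pr.Cardy.NIface

/-! The factor of a corner is at most polynomial in the radius. -/

open MeasureTheory Finset

namespace Pool.Agent.P.MP_6c8efb_pr.Cardy

open Arm (TC)

/-- the annuli -/
noncomputable def npA (U : Finset V) (x : V) (j : ℕ) : Finset V :=
  U.filter fun t => ((4 ^ j / 2 : ℕ) : ℤ) - 1 ≤ dd x t ∧ dd x t ≤ (4 ^ (j + 1) : ℕ)

theorem np_sd1 (w : V) {t : V} {e : E} (h : e ∈ sd1 t) :
    dd w t ≤ dd w e.1 + 1 ∧ dd w e.1 ≤ dd w t + 1 := by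
  obtain ⟨⟨a, b⟩, c⟩ := e
  rcases mem_sd1.1 h with rfl | rfl
  · simp
  · cases c <;> simp only [lo, dd, abs_eq_max_neg, if_true, Bool.false_eq_true, if_false] <;> omega

theorem np_walk {τ : TC} {U : Finset V} {x : V} {j : ℕ} {f y : E}
    (hm : ∀ y, Same τ U f y → dd x y.1 ≤ dd x f.1) (h1 : 2 * ((4 ^ j / 2 : ℕ) : ℤ) ≤ dd x f.1)
    (h2 : dd x f.1 < (4 ^ (j + 1) : ℕ)) (h : Same τ U f y) :
    Same τ (npA U x j) f y ∨ ∃ y₀, Same τ (npA U x j) f y₀ ∧ ((4 ^ j / 2 : ℕ) : ℤ) ≤ dd f.1 y₀.1 := by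
  induction h with
  | refl => exact Or.inl Same.rfl'
  | @tail y _ a1 a2 ih =>
    obtain ⟨t, ht, a3, rfl⟩ := a2
    rcases ih with ih | ih
    · have a4 := hm y a1
      have a5 := np_sd1 x a3
      by_cases c : ((4 ^ j / 2 : ℕ) : ℤ) ≤ dd x y.1
      · exact Or.inl (ih.trans' (same_prt (mem_filter.2 ⟨ht, by omega, by omega⟩) a3))
      · refine Or.inr ⟨y, ih, ?_⟩
        generalize ((4 ^ j / 2 : ℕ) : ℤ) = r at *
        simp only [dd, abs_eq_max_neg] at c h1 ⊢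
        omega
    · exact Or.inr ih

theorem np_cls {τ : TC} {U : Finset V} {x : V} {ρ : ℕ} (hU : U ⊆ Bx x ρ) {K : Finset E}
    (hK : K ∈ clss τ U) (hc : Crn U x K) : ∃ j ≤ Nat.log 4 ρ, ∃ f ∈ sd (npA U x j),
      cls τ U f = K ∧ Lrg (4 ^ j / 2) (cls τ (npA U x j) f) := by
  obtain ⟨e₀, h0, rfl⟩ := mem_clss.1 hK
  obtain ⟨⟨e, he, -, -, e1⟩, e', he', -, -, e2⟩ := hc
  obtain ⟨f, hf, hm⟩ := exists_max_image (cls τ U e₀) (fun f => dd x f.1) ⟨e, he⟩
  rw [mem_cls' h0] at he he' hf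
  obtain ⟨t, ht, hft⟩ := mem_biUnion.1 (hf.mem h0)
  obtain ⟨m, hm0⟩ : ∃ m : ℕ, dd x f.1 = m :=
    Int.eq_ofNat_of_zero_le (le_max_of_le_left (abs_nonneg _))
  have b1 : m ≤ ρ := by
    have := mem_Bx.1 (hU ht)
    obtain ⟨⟨a, b⟩, c⟩ := f
    rcases mem_sd1.1 hft with rfl | rfl <;> cases c <;>
      simp only [lo, dd, abs_eq_max_neg, if_true, Bool.false_eq_true, if_false] at this hm0 <;> omega
  have b2 : m < 4 ^ (Nat.log 4 m + 1) := Nat.lt_pow_succ_log_self (by norm_num) m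
  have b3 : 2 * (4 ^ Nat.log 4 m / 2) ≤ m := by
    rcases Nat.eq_zero_or_pos m with rfl | h
    · simp
    · have := Nat.pow_log_le_self 4 h.ne'
      omega
  have b4 := np_sd1 x hft
  have b5 : f ∈ sd (npA U x (Nat.log 4 m)) :=
    mem_sd_of (mem_filter.2 ⟨ht, by omega, by omega⟩) hft
  refine ⟨_, Nat.log_mono_right b1, f, b5, hf.cls_eq.symm, f, (mem_cls' b5).2 Same.rfl', ?_⟩
  obtain ⟨g, g1, g2⟩ : ∃ g, Same τ U f g ∧ (m : ℤ) ≤ dd f.1 g.1 := by
    by_cases c : (m : ℤ) ≤ dd f.1 e.1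
    · exact ⟨e, hf.symm'.trans' he, c⟩
    · refine ⟨e', hf.symm'.trans' he', ?_⟩
      simp only [dd, abs_eq_max_neg] at c hm0 ⊢
      omega
  rcases np_walk (j := Nat.log 4 m) (fun y hy => hm y ((mem_cls' h0).2 (hf.trans' hy)))
    (by omega) (by omega) g1 with h | ⟨y, h, h'⟩
  · exact ⟨g, (mem_cls' b5).2 h, by omega⟩
  · exact ⟨y, (mem_cls' b5).2 h, h'⟩

theorem np_det (τ : TC) {U : Finset V} {x : V} {ρ : ℕ} (hU : U ⊆ Bx x ρ) :
    nc U x τ ≤ ∑ j ∈ range (Nat.log 4 ρ + 1), nb (npA U x j) (4 ^ j / 2) τ := by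
  classical
  have h : (clss τ U).filter (Crn U x) ⊆ (range (Nat.log 4 ρ + 1)).biUnion fun j =>
      ((clss τ (npA U x j)).filter (Lrg (4 ^ j / 2))).image
        fun L => (sd U).filter fun e => ∃ f ∈ L, Same τ U f e := fun K hK => by
    obtain ⟨j, hj, f, h1, rfl, h2⟩ := np_cls hU (mem_filter.1 hK).1 (mem_filter.1 hK).2
    refine mem_biUnion.2 ⟨j, mem_range.2 (by omega), mem_image.2
      ⟨_, mem_filter.2 ⟨mem_clss.2 ⟨f, h1, rfl⟩, h2⟩, ?_⟩⟩
    ext e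
    rw [mem_filter, mem_cls]
    refine and_congr_right fun _ => ⟨fun ⟨g, a, b⟩ => ?_, fun a => ⟨f, (mem_cls' h1).2 Same.rfl', a⟩⟩
    exact (((mem_cls' h1).1 a).mono (filter_subset _ _) fun _ _ => rfl).trans' b
  unfold nc nb
  convert (card_le_card h).trans (card_biUnion_le.trans (sum_le_sum fun j _ => card_image_le))

theorem np_sub (U : Finset V) (x : V) (j : ℕ) : npA U x j ⊆ Bx x (8 * (4 ^ j / 2 + 1)) := by
  intro t ht
  have h := (mem_filter.1 ht).2.2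
  rw [mem_Bx]
  rw [pow_succ] at h
  simp only [dd, abs_eq_max_neg] at h
  omega

theorem np_dis (U : Finset V) (x : V) {k l : ℕ} (h : k + 2 ≤ l) :
    Disjoint (npA U x k : Set V) (npA U x l) := by
  refine Set.disjoint_left.2 fun t h1 h2 => ?_
  have a1 := (mem_filter.1 h1).2.2
  have a2 := (mem_filter.1 h2).2.1
  have a3 : 4 ^ (k + 2) ≤ 4 ^ l := Nat.pow_le_pow_right (by norm_num) h
  have a4 : 0 < 4 ^ k := by positivity
  rw [pow_succ] at a1
  rw [pow_succ, pow_succ] at a3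
  omega

theorem s_NPoly (h : S_NBig) : S_NPoly := by
  intro z hz
  obtain ⟨C, hC⟩ := h (z ^ 2) 8 (one_le_pow₀ hz)
  obtain ⟨c, hc⟩ := pow_unbounded_of_one_lt C (one_lt_two (α := ℝ))
  refine ⟨c, fun U x ρ hU => ?_⟩
  set J := Nat.log 4 ρ + 1 with hJ
  let F : ℕ → TC → ℝ := fun j τ => z ^ nb (npA U x j) (4 ^ j / 2) τ
  have l1 : ∀ s : Finset ℕ, LocF fun τ => ∏ j ∈ s, F j τ ^ 2 := fun s =>
    LocF.prod' s fun j _ => (locF_nb _ _).comp fun n => (z ^ n) ^ 2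
  have k1 : ∀ s ⊆ range J, (∀ k ∈ s, ∀ l ∈ s, k % 2 = l % 2) →
      ∫ τ, ∏ j ∈ s, F j τ ^ 2 ∂PM (fun _ => hf) ≤ ((2 : ℝ) ^ c) ^ J := fun s hs hp => by
    rw [integral_prod_indep _ s (S := fun j => (npA U x j : Set V))
      (fun j _ => (locF_nb _ _).comp fun n => (z ^ n) ^ 2)
      (fun j _ τ τ' a => by simp only [show nb _ _ τ = nb _ _ τ' from dep_nb _ _ a])
      fun k hk l hl hne => by
        have := hp k hk l hl
        rcases lt_or_gt_of_ne hne with a | a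
        · exact np_dis U x (by omega)
        · exact (np_dis U x (by omega)).symm]
    calc _ ≤ ∏ _j ∈ s, (2 : ℝ) ^ c := prod_le_prod
          (fun j _ => integral_nonneg fun τ => sq_nonneg _) fun j _ => by
            refine le_trans (le_of_eq ?_) ((hC _ x _ (np_sub U x j)).trans hc.le)
            simp only [← pow_mul, mul_comm]
      _ ≤ _ := by
        rw [prod_const]
        exact pow_le_pow_right₀ (one_le_pow₀ one_le_two) ((card_le_card hs).trans (card_range J).le)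
  have k2 : ((2 : ℝ) ^ c) ^ J ≤ ((ρ : ℝ) + 2) ^ c := by
    rw [← pow_mul, mul_comm, pow_mul]
    refine pow_le_pow_left₀ (by positivity) ?_ c
    have a1 : 4 ^ Nat.log 4 ρ ≤ ρ + 1 := by
      rcases Nat.eq_zero_or_pos ρ with rfl | h
      · simp
      · exact (Nat.pow_log_le_self 4 h.ne').trans ρ.le_succ
    have a2 : ((2 : ℝ) ^ Nat.log 4 ρ) ^ 2 ≤ ρ + 1 := by
      rw [← pow_mul, mul_comm, pow_mul]
      norm_num
      exact_mod_cast a1
    rw [hJ, pow_succ]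
    nlinarith [sq_nonneg ((2 : ℝ) ^ Nat.log 4 ρ - 1)]
  have i1 := (l1 ((range J).filter fun j => j % 2 = 0)).integrable fun _ => hf
  have i2 := (l1 ((range J).filter fun j => ¬j % 2 = 0)).integrable fun _ => hf
  have k3 : fac U x z ≤ ∫ τ, (∏ j ∈ (range J).filter fun j => j % 2 = 0, F j τ ^ 2 +
      ∏ j ∈ (range J).filter fun j => ¬j % 2 = 0, F j τ ^ 2) / 2 ∂PM fun _ => hf := by
    refine integral_mono (((locF_nc U x).comp (z ^ ·)).integrable _) ((i1.add i2).div_const 2)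
      fun τ => (pow_le_pow_right₀ hz (np_det τ hU)).trans ?_
    rw [← prod_pow_eq_pow_sum, ← prod_filter_mul_prod_filter_not _ fun j => j % 2 = 0]
    simp only [prod_pow]
    nlinarith [sq_nonneg (∏ j ∈ (range J).filter fun j => j % 2 = 0, F j τ -
      ∏ j ∈ (range J).filter fun j => ¬j % 2 = 0, F j τ)]
  rw [integral_div, integral_add i1 i2] at k3
  have k4 := k1 _ (filter_subset (fun j => j % 2 = 0) _) fun k hk l hl => by
    have := (mem_filter.1 hk).2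
    have := (mem_filter.1 hl).2
    omega
  have k5 := k1 _ (filter_subset (fun j => ¬j % 2 = 0) _) fun k hk l hl => by
    have := (mem_filter.1 hk).2
    have := (mem_filter.1 hl).2
    omega
  linarith

end Pool.Agent.P.MP_6c8efb_pr.Cardy
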