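import Pool.Agent.P.MP_6c8efb_pr.Cardy.NIface

/-! The partition function is comparable with the product of the factors of the corners. -/

open MeasureTheory Finset

namespace Pool.Agent.P.MP_6c8efb_pr.Cardy

open Arm (TC)

namespace SandA

theorem trunc {X' X Y L d : ℝ} (p : ℕ) (h0 : 0 ≤ X') (h1 : X' ≤ X) (hL : 0 < L) (hd : 0 < d) :
    X' * Y ≤ L * X' + (d * X ^ 2 + Y ^ (2 * p + 2) / (d * L ^ (2 * p))) / 2 := by
  have e : Y ^ (2 * p + 2) / (d * L ^ (2 * p)) = (Y * (Y / L) ^ p) ^ 2 / d := by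
    rw [div_pow]; field_simp; ring
  rw [e]
  rcases le_total Y L with h | h
  · exact le_add_of_le_of_nonneg (by nlinarith) (by positivity)
  · refine le_add_of_nonneg_of_le (by positivity) ?_
    have h2 : Y ≤ Y * (Y / L) ^ p :=
      le_mul_of_one_le_right (by linarith) (one_le_pow₀ ((one_le_div hL).2 h))
    have h3 : X' * Y ≤ X * (Y * (Y / L) ^ p) := mul_le_mul h1 h2 (by linarith) (by linarith)
    refine h3.trans ?_
    generalize Y * (Y / L) ^ p = Z
    rw [le_div_iff₀ two_pos, ← sub_le_iff_le_add', le_div_iff₀ hd]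
    nlinarith [sq_nonneg (d * X - Z)]

theorem key {X' X Y : TC → ℝ} (l1 : LocF X') (l2 : LocF X) (l3 : LocF Y) {b C L : ℝ} {p : ℕ}
    (h0 : ∀ τ, 0 ≤ X' τ) (h1 : ∀ τ, X' τ ≤ X τ) (hL : 0 < L) (hb : 0 < b)
    (h2 : ∫ τ, X τ ^ 2 ∂PM (fun _ => hf) ≤ b) (h3 : b⁻¹ ≤ ∫ τ, X τ ∂PM fun _ => hf)
    (h4 : ∫ τ, Y τ ^ (2 * p + 2) ∂PM (fun _ => hf) ≤ C) (h5 : 4 * C * b ^ 3 ≤ L ^ (2 * p)) :
    ∫ τ, X' τ * Y τ ∂PM (fun _ => hf) ≤
      L * ∫ τ, X' τ ∂PM (fun _ => hf) + (∫ τ, X τ ∂PM fun _ => hf) / 2 := by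
  have i1 := (l1.integrable fun _ => hf).const_mul L
  have i2 := ((l2.comp (· ^ 2)).integrable fun _ => hf).const_mul (2 * b ^ 2)⁻¹
  have i3 := ((l3.comp (· ^ (2 * p + 2))).integrable fun _ => hf).div_const
    ((2 * b ^ 2)⁻¹ * L ^ (2 * p))
  refine (integral_mono ((l1.comp₂ l3 (· * ·)).integrable _) (i1.add ((i2.add i3).div_const 2))
    fun τ => trunc p (h0 τ) (h1 τ) hL (by positivity)).trans ?_
  simp only [Pi.add_apply]
  rw [integral_add i1 ((i2.fun_add i3).div_const 2), integral_const_mul, integral_div,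
    integral_add i2 i3, integral_const_mul, integral_div]
  have h6 : (2 * b ^ 2)⁻¹ * ∫ τ, X τ ^ 2 ∂PM (fun _ => hf) ≤ b⁻¹ / 2 :=
    (mul_le_mul_of_nonneg_left h2 (by positivity)).trans_eq (by field_simp)
  have h7 : (∫ τ, Y τ ^ (2 * p + 2) ∂PM fun _ => hf) / ((2 * b ^ 2)⁻¹ * L ^ (2 * p)) ≤ b⁻¹ / 2 := by
    rw [div_le_iff₀ (by positivity)]
    calc _ ≤ C := h4
      _ = b⁻¹ / 2 * ((2 * b ^ 2)⁻¹ * (4 * C * b ^ 3)) := by field_simp; ring
      _ ≤ _ := by gcongr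
  linarith

theorem fac_mono {v w : ℝ} (h0 : 0 ≤ v) (h : v ≤ w) (U : Finset V) (x : V) :
    fac U x v ≤ fac U x w :=
  integral_mono (((locF_nc U x).comp (v ^ ·)).integrable _)
    (((locF_nc U x).comp (w ^ ·)).integrable _) fun _ => pow_le_pow_left₀ h0 h _

theorem fac_low {w B : ℝ} (hw : 1 / 2 ≤ w) (hB : 0 < B) {U : Finset V} {x : V}
    (h : fac U x 4 ≤ B) : B⁻¹ ≤ fac U x w := by
  have i1 := (((locF_nc U x).comp (w ^ ·)).integrable fun _ => hf).const_mul B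
  have i2 := (((locF_nc U x).comp ((4 : ℝ) ^ ·)).integrable fun _ => hf).div_const B
  have h1 := integral_mono (integrable_const (2 : ℝ)) (i1.add i2) fun τ => by
    have h2 : 1 ≤ B * w ^ nc U x τ * (4 ^ nc U x τ / B) := by
      rw [mul_comm B, mul_assoc, mul_div_cancel₀ _ hB.ne', ← mul_pow]
      exact one_le_pow₀ (by linarith)
    have h3 : 0 ≤ B * w ^ nc U x τ + 4 ^ nc U x τ / B := by
      have : 0 ≤ w := by linarith
      positivity
    refine le_of_not_gt fun h4 => ?_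
    simp only [Pi.add_apply] at h4
    nlinarith [sq_nonneg (B * w ^ nc U x τ - 4 ^ nc U x τ / B)]
  simp only [Pi.add_apply] at h1
  rw [integral_add i1 i2, integral_const_mul, integral_div, integral_const, probReal_univ,
    one_smul] at h1
  rw [inv_le_iff_one_le_mul₀' hB]
  have := (div_le_one hB).2 h
  unfold fac at *
  linarith

end SandA

open SandA in
theorem s_NSand (hB : S_NBig) (hP : S_NPoly) (hD : S_NDet) : S_NSand := by
  intro η K hη
  obtain ⟨c, hc⟩ := hP 4 (by norm_num)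
  obtain ⟨p, hp⟩ := exists_nat_gt (3 * c * K / η)
  obtain ⟨C, hC⟩ := hB (2 ^ (2 * (p + 1) + 2)) K (one_le_pow₀ one_le_two)
  set A := max 1 (4 * C) with hA
  have hA1 : 1 ≤ A := le_max_left _ _
  refine ⟨2 * A * 2 ^ η, by positivity, fun Q γ J x w ρ x₀ hQ hJ hs hw hL => ?_⟩
  set N : ℝ := ρ + 2 with hN
  have hN1 : 1 ≤ N := by rw [hN]; linarith [ρ.cast_nonneg (α := ℝ)]
  have hNη : 1 ≤ N ^ η := Real.one_le_rpow hN1 hη.le
  have hL1 : 1 ≤ A * N ^ η := one_le_mul_of_one_le_of_one_le hA1 hNη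
  have hLC : 2 * (A * N ^ η) ≤ 2 * A * 2 ^ η * ((ρ : ℝ) + 1) ^ η := by
    rw [mul_assoc (2 * A), ← Real.mul_rpow two_pos.le (by positivity), ← mul_assoc]
    gcongr
    linarith [ρ.cast_nonneg (α := ℝ)]
  have hI : ∀ v : ℕ → ℝ, ∫ τ, ∏ k ∈ J, v k ^ nc (Q ∩ Bx (x k) ρ) (x k) τ ∂PM (fun _ => hf) =
      ∏ k ∈ J, fac (Q ∩ Bx (x k) ρ) (x k) (v k) := fun v =>
    integral_prod_indep _ J (S := fun k => (Q ∩ Bx (x k) ρ : Finset V))
      (fun k _ => (locF_nc _ _).comp (v k ^ ·))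
      (fun k _ τ τ' h => congrArg (v k ^ ·) (dep_nc _ _ h)) fun k hk l hl hkl => by
        refine Set.disjoint_left.2 fun t h1 h2 => ?_
        have h3 := mem_Bx.1 (mem_inter.1 (mem_coe.1 h1)).2
        have h4 := mem_Bx.1 (mem_inter.1 (mem_coe.1 h2)).2
        refine (hs k hk l hl hkl).not_ge (max_le (abs_le.2 ?_) (abs_le.2 ?_)) <;> omega
  have hw0 : ∀ k ∈ J, 0 < w k := fun k hk => by linarith [(hw k hk).1]
  have h4 : ∀ k, fac (Q ∩ Bx (x k) ρ) (x k) 4 ≤ N ^ c := fun k => hc _ _ _ inter_subset_right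
  have hb : (N ^ c) ^ J.card ≤ (N ^ c) ^ K := pow_le_pow_right₀ (one_le_pow₀ hN1) hJ
  set X : TC → ℝ := fun τ => ∏ k ∈ J, w k ^ nc (Q ∩ Bx (x k) ρ) (x k) τ with hX
  set Y : TC → ℝ := fun τ => 2 ^ nb Q ρ τ with hY
  have lX : LocF X := LocF.prod' J fun k _ => (locF_nc _ _).comp (w k ^ ·)
  have lY : LocF Y := (locF_nb Q ρ).comp ((2 : ℝ) ^ ·)
  have X0 : ∀ τ, 0 ≤ X τ := fun τ => prod_nonneg fun k hk => (pow_pos (hw0 k hk) _).le
  have Y1 : ∀ τ, 1 ≤ Y τ := fun τ => one_le_pow₀ one_le_two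
  have hK := fun X' l1 h0 h1 => key (X' := X') (X := X) (Y := Y) (b := (N ^ c) ^ K) (C := C)
    (L := A * N ^ η) (p := p + 1) l1 lX lY h0 h1 (by linarith) (by positivity)
    (by
      simp only [hX, ← prod_pow, pow_right_comm _ _ 2]
      rw [hI]
      refine le_trans ((prod_le_prod (fun k hk => (fac_pos (pow_pos (hw0 k hk) 2) _ _).le)
        fun k hk => (fac_mono (sq_nonneg _) ?_ _ _).trans (h4 k)).trans_eq (prod_const _)) hb
      nlinarith [hw k hk])
    (by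
      rw [hI]
      refine le_trans (inv_anti₀ (by positivity) hb) ?_
      rw [← inv_pow, ← prod_const]
      exact prod_le_prod (fun _ _ => by positivity) fun k hk =>
        fac_low (hw k hk).1 (by positivity) (h4 k))
    (by simpa only [hY, pow_right_comm _ _ (2 * (p + 1) + 2)] using hC Q x₀ ρ hQ)
    (by
      rw [mul_pow]
      refine mul_le_mul ((le_max_right _ _).trans (le_self_pow₀ hA1 (by omega))) ?_
        (by positivity) (by positivity)
      rw [← pow_mul, ← pow_mul, ← Real.rpow_natCast, ← Real.rpow_natCast, ← Real.rpow_mul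
        (by positivity)]
      refine Real.rpow_le_rpow_of_exponent_le hN1 ?_
      rw [div_lt_iff₀ hη] at hp
      push_cast
      nlinarith [mul_nonneg p.cast_nonneg hη.le])
  have hD' := fun τ => hD Q γ J x w ρ τ hL fun k hk l hl h => by
    by_contra hkl
    have := hs k hk l hl hkl
    simp only [h, dd, sub_self, abs_zero, max_self] at this
    omega
  have hX0 : 0 ≤ ∫ τ, X τ ∂PM fun _ => hf := integral_nonneg X0
  rw [← hI w]
  refine ⟨?_, fun hcw => ?_⟩
  · have h1 : |Zc Q γ| ≤ ∫ τ, X τ * Y τ ∂PM fun _ => hf :=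
      norm_integral_le_of_norm_le (f := fun τ => ∏ K ∈ clss τ Q, cw τ Q γ ∅ K)
        ((lX.comp₂ lY (· * ·)).integrable _) (.of_forall fun τ => by
        obtain ⟨S, -, h2, h3⟩ := hD' τ
        rw [h3, norm_mul, Real.norm_of_nonneg (X0 τ), norm_prod]
        exact mul_le_mul_of_nonneg_left (((prod_le_prod (fun _ _ => norm_nonneg _) fun K _ =>
          abs_cw_le τ Q γ K).trans_eq (prod_const _)).trans (pow_le_pow_right₀ one_le_two h2)) (X0 τ))
    have h2 := hK X lX X0 fun _ => le_rfl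
    nlinarith [mul_le_mul_of_nonneg_right hLC hX0, mul_le_mul_of_nonneg_right hL1 hX0]
  · have h2 := hK (fun τ => X τ / Y τ) (lX.comp₂ lY (· / ·))
      (fun τ => div_nonneg (X0 τ) (by linarith [Y1 τ])) fun τ => div_le_self (X0 τ) (Y1 τ)
    have h3 : ∫ τ, X τ / Y τ ∂PM (fun _ => hf) ≤ Zc Q γ :=
      integral_mono ((lX.comp₂ lY (· / ·)).integrable _) ((locF_cw Q γ).integrable _) fun τ => by
        obtain ⟨S, h1, h2, h3⟩ := hD' τ
        simp only [h3]
        rw [div_eq_mul_inv, hY, ← inv_pow]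
        refine mul_le_mul_of_nonneg_left ((pow_le_pow_of_le_one (by norm_num) (by norm_num) h2).trans
          ?_) (X0 τ)
        rw [← prod_const]
        exact prod_le_prod (fun _ _ => by norm_num) fun K hK => by simpa using hcw τ K (h1 hK)
    have h5 : 0 ≤ Zc Q γ := le_trans (integral_nonneg fun τ =>
      div_nonneg (X0 τ) (by linarith [Y1 τ])) h3
    simp only [fun τ => div_mul_cancel₀ (X τ) (zero_lt_one.trans_le (Y1 τ)).ne'] at h2
    nlinarith [mul_le_mul_of_nonneg_right hLC h5, mul_le_mul_of_nonneg_left h3 (zero_le_one.trans hL1)]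

end Pool.Agent.P.MP_6c8efb_pr.Cardy
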