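import Pool.Agent.P.MP_6c8efb_pr.Cardy.NIface

/-! Symmetries of the corner factors and of the weights. -/

open MeasureTheory Finset Function
open scoped Real

namespace Pool.Agent.P.MP_6c8efb_pr.Cardy

open Arm (TC)

namespace SymA

/-- a symmetry of the tiling -/
structure Tr (T : V → V) (S : E → E) (fl : Bool) : Prop where
  bT : Bijective T
  bS : Bijective S
  sd1 : ∀ t e, S e ∈ sd1 (T t) ↔ e ∈ sd1 t
  prt : ∀ b t e, e ∈ Cardy.sd1 t → prt (xor b fl) (T t) (S e) = S (prt b t e)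

variable {T : V → V} {S : E → E} {fl : Bool} {τ τ' : TC} {U : Finset V} {e f : E}

theorem Tr.adj (h : Tr T S fl) (hτ : ∀ t, τ' (T t) = xor (τ t) fl) :
    Adj τ' (U.image T) (S e) (S f) ↔ Adj τ U e f := by
  simp only [Adj, mem_image, exists_exists_and_eq_and, h.sd1, hτ]
  exact exists_congr fun t => and_congr_right fun _ => and_congr_right fun c => by
    rw [h.prt _ _ _ c, h.bS.1.eq_iff]

theorem Tr.same (h : Tr T S fl) (hτ : ∀ t, τ' (T t) = xor (τ t) fl) :
    Same τ' (U.image T) (S e) (S f) ↔ Same τ U e f := by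
  refine ⟨fun c => ?_, fun c => Relation.ReflTransGen.lift S (fun _ _ a => (h.adj hτ).2 a) _ _ c⟩
  obtain ⟨g, g1, g2⟩ := bijective_iff_has_inverse.1 h.bS
  have := Relation.ReflTransGen.lift (p := Adj τ U) g
    (fun a b c => (h.adj hτ).1 (by rwa [g2, g2])) _ _ c
  rwa [onFun, g1, g1] at this

theorem Tr.mem_sd (h : Tr T S fl) : S e ∈ sd (U.image T) ↔ e ∈ sd U := by
  simp only [sd, mem_biUnion, mem_image, exists_exists_and_eq_and, h.sd1]

theorem mem_bd_iff : e ∈ bd U ↔ e ∈ sd U ∧ ∃ t, t ∉ U ∧ e ∈ sd1 t := by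
  simp only [mem_bd, mem_sd, mem_sd1, and_or_left, exists_or, exists_eq_right]
  tauto

theorem Tr.mem_bd (h : Tr T S fl) : S e ∈ bd (U.image T) ↔ e ∈ bd U := by
  simp only [mem_bd_iff, h.mem_sd, h.bT.2.exists (p := fun t => t ∉ U.image T ∧ S e ∈ Cardy.sd1 t),
    h.bT.1.mem_finset_image, h.sd1]

theorem Tr.im (h : Tr T S fl) {A B : Finset E} (c : ∀ e, S e ∈ A ↔ e ∈ B) : A = B.image S := by
  ext e
  obtain ⟨e, rfl⟩ := h.bS.2 e
  rw [c, h.bS.1.mem_finset_image]

theorem Tr.cls (h : Tr T S fl) (hτ : ∀ t, τ' (T t) = xor (τ t) fl) (e : E) :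
    cls τ' (U.image T) (S e) = (cls τ U e).image S :=
  h.im fun _ => by rw [mem_cls, mem_cls, h.mem_sd, h.same hτ]

theorem Tr.nc (h : Tr T S fl) (hτ : ∀ t, τ' (T t) = xor (τ t) fl) {x x' : V}
    (h1 : ∀ e, (S e).2 = e.2) (h2 : ∀ e, e.2 = true → ((S e).1.2 = x'.2 ↔ e.1.2 = x.2))
    (h3 : ∀ e, e.2 = false → ((S e).1.1 = x'.1 ↔ e.1.1 = x.1)) :
    nc (U.image T) x' τ' = nc U x τ := by
  classical
  have e1 : clss τ' (U.image T) = (clss τ U).image (image S) := by
    rw [clss, clss, h.im fun _ => h.mem_sd, image_image, image_image]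
    exact image_congr fun e _ => h.cls hτ e
  rw [Cardy.nc, Cardy.nc, e1, filter_image, card_image_of_injective _ (image_injective h.bS.1)]
  congr 1
  refine filter_congr fun K _ => ?_
  simp only [Crn, mem_image, exists_exists_and_eq_and, h.mem_bd, h1]
  exact and_congr (exists_congr fun e => by have := h2 e; tauto)
    (exists_congr fun e => by have := h3 e; tauto)

theorem Tr.fac (h : Tr T S fl) {x x' : V}
    (h1 : ∀ e, (S e).2 = e.2) (h2 : ∀ e, e.2 = true → ((S e).1.2 = x'.2 ↔ e.1.2 = x.2))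
    (h3 : ∀ e, e.2 = false → ((S e).1.1 = x'.1 ↔ e.1.1 = x.1)) (w : ℝ) :
    fac (U.image T) x' w = fac U x w := by
  let g : Bool ≃ Bool := ⟨(xor · fl), (xor · fl), by simp [LeftInverse], by simp [LeftInverse,
    Function.RightInverse]⟩
  have l : LocF fun τ : TC => w ^ Cardy.nc U x fun t => g (τ t) :=
    ⟨U, U.finite_toSet, fun _ _ c => congrArg (w ^ ·) (dep_nc U x fun t ht => congrArg g (c t ht))⟩
  refine Eq.trans ?_ ((integral_comp_inj (fun _ => hf) h.bT.1 l).trans
    (integral_equiv (fun _ => g) ((locF_nc U x).comp (w ^ ·))))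
  refine congrArg _ (funext fun τ' => congrArg (w ^ ·) (h.nc (fun t => ?_) h1 h2 h3))
  simp [g]

/-- a translation or a reflection of the line -/
def mv (p : Bool) (a c t : ℤ) : ℤ := if p then a + t else a - c - t

def fT (p q : Bool) (x t : V) : V := (mv p x.1 1 t.1, mv q x.2 1 t.2)

def fS (p q : Bool) (x : V) (e : E) : E :=
  ((mv p x.1 (if e.2 then 1 else 0) e.1.1, mv q x.2 (if e.2 then 0 else 1) e.1.2), e.2)

theorem mv_bij (p : Bool) (a c : ℤ) : Bijective (mv p a c) := by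
  cases p
  · exact ⟨fun s t h => by simpa [mv] using h, fun t => ⟨a - c - t, by simp [mv]⟩⟩
  · exact ⟨fun s t h => by simpa [mv] using h, fun t => ⟨t - a, by simp [mv]⟩⟩

theorem tr (p q : Bool) (x : V) : Tr (fT p q x) (fS p q x) (xor p q) where
  bT := (mv_bij p x.1 1).prodMap (mv_bij q x.2 1)
  bS := by
    refine ⟨?_, fun ⟨⟨a, b⟩, c⟩ => ?_⟩
    · rintro ⟨⟨a, b⟩, c⟩ ⟨⟨a', b'⟩, c'⟩ h
      obtain rfl : c = c' := congrArg Prod.snd h
      simpa [fS, (mv_bij _ _ _).1.eq_iff] using h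
    · obtain ⟨a, rfl⟩ := (mv_bij p x.1 (if c then 1 else 0)).2 a
      obtain ⟨b, rfl⟩ := (mv_bij q x.2 (if c then 0 else 1)).2 b
      exact ⟨((a, b), c), rfl⟩
  sd1 := fun ⟨s, t⟩ ⟨⟨a, b⟩, c⟩ => by
    cases p <;> cases q <;> cases c <;> simp [mem_sd1, fT, fS, mv, lo] <;> omega
  prt := fun b ⟨s, t⟩ e h => by
    have h1 : fS p q x (lft (s, t)) = if p then lft (fT p q x (s, t)) else rgt (fT p q x (s, t)) := by
      cases p <;> simp [fS, fT, mv, lft, rgt]; omega
    have h2 : fS p q x (rgt (s, t)) = if p then rgt (fT p q x (s, t)) else lft (fT p q x (s, t)) := by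
      cases p <;> simp [fS, fT, mv, lft, rgt] <;> omega
    have h3 : fS p q x (bot (s, t)) = if q then bot (fT p q x (s, t)) else top (fT p q x (s, t)) := by
      cases q <;> simp [fS, fT, mv, bot, top]; omega
    have h4 : fS p q x (top (s, t)) = if q then top (fT p q x (s, t)) else bot (fT p q x (s, t)) := by
      cases q <;> simp [fS, fT, mv, bot, top] <;> omega
    rcases mem_sd1_iff.1 h with rfl | rfl | rfl | rfl <;> cases b <;> cases p <;> cases q <;>
      simp [h1, h2, h3, h4]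

theorem fac_fT (p q : Bool) (x : V) (U : Finset V) (w : ℝ) :
    fac (U.image (fT p q x)) x w = fac U 0 w :=
  (tr p q x).fac (fun _ => rfl) (fun e h => by cases q <;> simp [fS, mv, h])
    (fun e h => by cases p <;> simp [fS, mv, h]) w

theorem tr_rf (y : ℤ) : Tr (rfT y) (rfE y) true := by
  have h1 : rfT y = fT true false (0, 2 * y) := funext fun t => by simp [rfT, fT, mv]
  have h2 : rfE y = fS true false (0, 2 * y) := funext fun ⟨t, b⟩ => by
    cases b <;> simp [rfE, fS, mv]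
  rw [h1, h2]
  exact tr true false _

theorem tin_rf (y : ℤ) (f : E) : tin (rfE y f) = rfT y (tout f) ∧ tout (rfE y f) = rfT y (tin f) := by
  obtain ⟨⟨a, b⟩, c⟩ := f
  have h1 : Even (a + (2 * y - b)) ↔ Even (a + b) := by simp only [Int.even_iff]; omega
  have h2 : Even (a + (2 * y - 1 - b)) ↔ ¬Even (a + b) := by simp only [Int.even_iff]; omega
  by_cases h : Even (a + b) <;> cases c <;> simp [tin, tout, nat, rfE, rfT, lo, h, h1, h2] <;> omega

theorem trn_rf (y : ℤ) (τ : TC) (t : V) : trn (fun t => !τ (rfT y t)) (rfT y t) = trn τ t := by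
  have h2 : Even (t.1 + (2 * y - 1 - t.2)) ↔ ¬Even (t.1 + t.2) := by
    simp only [Int.even_iff]; omega
  simp only [trn, DblA.rfT_inv y t]
  simp only [rfT, h2]
  by_cases h : Even (t.1 + t.2) <;> cases τ t <;> simp [h]

theorem sum_nx (τ : TC) (U : Finset V) (e : E) (F : V → ℝ) :
    ∑ f ∈ cls τ U e, (if tout f ∈ U then F (tout f) else 0) =
      ∑ f ∈ cls τ U e, if tin f ∈ U then F (tin f) else 0 := by
  rw [← sum_filter, ← sum_filter]
  refine sum_nbij' (pv τ) (nx τ) (fun f hf => ?_) (fun f hf => ?_) (fun f _ => nx_pv τ f)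
    (fun f _ => pv_nx τ f) fun f _ => by rw [tin_pv]
  · simp only [mem_filter, mem_cls, tin_pv] at hf ⊢
    exact ⟨⟨(same_pv hf.2).mem hf.1.1, hf.1.2.trans' (same_pv hf.2)⟩, hf.2⟩
  · simp only [mem_filter, mem_cls, tout_nx] at hf ⊢
    exact ⟨⟨(same_nx hf.2).mem hf.1.1, hf.1.2.trans' (same_nx hf.2)⟩, hf.2⟩

end SymA

open SymA

theorem s_NMir : S_NMir := fun τ Q γ y e => by
  have h := tr_rf y
  have hτ : ∀ t, (fun t => !τ (rfT y t)) (rfT y t) = xor (τ t) true := fun t => by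
    simp [DblA.rfT_inv y t]
  refine ⟨fun f => h.same hτ, ?_⟩
  rw [h.cls hτ, cw, cw, h.im fun _ => h.mem_bd, ← image_inter _ _ h.bS.1,
    card_image_of_injective _ h.bS.1, sum_image h.bS.1.injOn]
  congr 3
  rw [← sub_eq_zero, ← sum_sub_distrib,
    ← sub_eq_zero.2 (sum_nx τ Q e fun t => π / 12 * trn τ t), ← sum_sub_distrib]
  refine sum_congr rfl fun f _ => ?_
  simp only [θs, tin_rf, trn_rf, h.bT.1.mem_finset_image, DblA.rfE_inv y f, notMem_empty,
    if_false]
  split_ifs <;> ring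

theorem s_NSym : S_NSym := fun Q x ρ w => by
  classical
  constructor <;> rintro ⟨p, q, h⟩
  all_goals
    refine Eq.trans (congrArg (fac · x w) ?_) (fac_fT (decide p) (decide q) x _ w)
    ext t
    obtain ⟨t, rfl⟩ := (tr (decide p) (decide q) x).bT.2 t
    have h1 : fT (decide p) (decide q) x t ∈ Bx x ρ ↔ t ∈ Bx 0 ρ := by
      by_cases a : p <;> by_cases b : q <;> simp [mem_Bx, fT, mv, a, b] <;> omega
    have h3 : ∀ (p : Prop) [Decidable p] (a t : ℤ), (a ≤ mv (decide p) a 1 t ↔ p) ↔ 0 ≤ t :=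
      fun p _ a t => by by_cases c : p <;> simp [mv, c]; omega
    have h2 := h (fT (decide p) (decide q) x t)
    rw [(tr _ _ x).bT.1.mem_finset_image, mem_inter, mem_filter, and_comm, ← h1]
    refine and_congr_right fun c => ?_
    have h4 := (h2 c).trans (and_congr (h3 p x.1 t.1) (h3 q x.2 t.2))
    tauto

end Pool.Agent.P.MP_6c8efb_pr.Cardy
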