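import Pool.Agent.P.MP_6c8efb_pr.Cardy.TBasic
import Pool.Agent.P.MP_6c8efb_pr.Cardy.BIface

/-! The boundary walk of a disc, potentials, orbits as lists. -/

namespace Pool.Agent.P.MP_6c8efb_pr.Cardy

open Arm (TC Pt TConn)

/-! ### Orbits as lists -/

theorem wk_range {α : Type*} (σ : α → α) (p : α) (k : ℕ) :
    Wk σ p ((List.range k).map fun m => σ^[m] p) (σ^[k] p) := by
  induction k with
  | zero => rfl
  | succ k ih =>
    rw [List.range_succ, List.map_append, List.map_singleton, wk_mid]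
    exact ⟨ih, (Function.iterate_succ_apply' _ _ _).symm⟩

theorem s_orb : S_Orb := by
  intro τ D
  refine ⟨fun e h1 h2 => ?_, fun e he => ?_⟩
  · obtain ⟨k, h3, h4⟩ := exists_exit (τ := τ) h2
    have hl : (List.range k).map (fun m => (nx τ)^[m] e) ++ [(nx τ)^[k] e] =
        (List.range (k + 1)).map fun m => (nx τ)^[m] e := by
      rw [List.range_succ, List.map_append, List.map_singleton]
    refine ⟨_, _, wk_range (nx τ) e k, fun x hx => ?_, h4, ?_, fun x => ?_⟩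
    · obtain ⟨m, hm, rfl⟩ := List.mem_map.1 hx
      exact h3 m (List.mem_range.1 hm)
    · rw [hl]
      exact List.nodup_range.map_on fun a ha b hb => orbit_inj h2 h3
        (Nat.lt_succ_iff.1 (List.mem_range.1 ha)) (Nat.lt_succ_iff.1 (List.mem_range.1 hb))
    · rw [hl, ← mem_cls' (mem_sd'.2 (Or.inl h1)), cls_strand (mem_sd'.2 (Or.inl h1)) h2 h3 h4]
      simp only [Finset.mem_image, List.mem_map, Finset.mem_range, List.mem_range]
  · rcases strand_or_loop τ D e with ⟨e₀, k, h1, h2, -⟩ | ⟨h1, -⟩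
    · exact Or.inl ⟨e₀, (mem_sd'.1 (h1.mem he)).resolve_right h2, h2, h1.symm'⟩
    · obtain ⟨l, hl⟩ := exists_lp (nx_inj τ) (sd D).finite_toSet (c := e)
        fun m => mem_sd'.2 (Or.inl (h1 m))
      have h2 : ∀ x ∈ l, Same τ D e x := hl.ind (P := fun x => Same τ D e x) Same.rfl'
        fun x _ hx => hx.trans' (same_nx (loop_inner h1 hx).1)
      refine Or.inr ⟨l, hl, fun x hx => loop_inner h1 (h2 x hx), fun x => ⟨fun hx => ?_, h2 x⟩⟩
      exact hx.ind (p := fun x => x ∈ l) hl.mem fun x _ _ => ⟨hl.succ_mem, hl.pred_mem (nx_inj τ)⟩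

namespace Dom

variable (P : Dom) {τ : TC} {i j k : ℕ}

/-! ### The boundary walk -/

theorem c_per (i : ℕ) : P.c (i + P.n) = P.c i := by
  induction i with
  | zero => rw [zero_add, P.close]
  | succ i ih => rw [add_right_comm, P.step, P.step, ih, P.per]

theorem c_mul (i m : ℕ) : P.c (i + P.n * m) = P.c i := by
  induction m with
  | zero => rfl
  | succ m ih => rw [mul_add, mul_one, ← add_assoc, c_per, ih]

theorem dir_mul (i m : ℕ) : P.dir (i + P.n * m) = P.dir i := by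
  induction m with
  | zero => rfl
  | succ m ih => rw [mul_add, mul_one, ← add_assoc, P.per, ih]

theorem c_mod (i : ℕ) : P.c (i % P.n) = P.c i := by rw [← P.c_mul _ (i / P.n), Nat.mod_add_div]
theorem dir_mod (i : ℕ) : P.dir (i % P.n) = P.dir i := by
  rw [← P.dir_mul _ (i / P.n), Nat.mod_add_div]
theorem b_mod (i : ℕ) : P.b (i % P.n) = P.b i := by rw [b, b, c_mod, dir_mod]
theorem b_per (i : ℕ) : P.b (i + P.n) = P.b i := by rw [b, b, c_per, P.per]

theorem c_eq_iff : P.c i = P.c j ↔ i % P.n = j % P.n := by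
  rw [← P.c_mod i, ← P.c_mod j]
  exact ⟨P.inj _ (Nat.mod_lt _ P.pos) _ (Nat.mod_lt _ P.pos), fun h => by rw [h]⟩

theorem dir_eq (h : P.c i = P.c j) : P.dir i = P.dir j := by
  rw [← P.dir_mod i, ← P.dir_mod j, P.c_eq_iff.1 h]

theorem fc_in (i : ℕ) : fc (P.c i) (P.dir i + 1) ∈ P.D := ((P.bdry _ _).2 ⟨i, rfl, rfl⟩).1
theorem fc_out (i : ℕ) : fc (P.c i) (P.dir i) ∉ P.D := ((P.bdry _ _).2 ⟨i, rfl, rfl⟩).2

theorem bdry_lt {v : V} {d : Fin 4} (h : fc v (d + 1) ∈ P.D) (h' : fc v d ∉ P.D) :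
    ∃ i < P.n, P.c i = v ∧ P.dir i = d := by
  obtain ⟨i, h1, h2⟩ := (P.bdry v d).1 ⟨h, h'⟩
  exact ⟨i % P.n, Nat.mod_lt _ P.pos, by rw [c_mod, h1], by rw [dir_mod, h2]⟩

theorem b_mem_bd (i : ℕ) : P.b i ∈ bd P.D :=
  edge_mem_bd.2 fun h => P.fc_out i (h.1 (P.fc_in i))

theorem b_mem_sd (i : ℕ) : P.b i ∈ sd P.D := bd_sub _ (P.b_mem_bd i)

theorem fc_back (v : V) (d : Fin 4) : fc (v + u d) (d + 2 + 1) = fc v d := by
  rw [← fc_step v d]
  rcases cases4 d with rfl | rfl | rfl | rfl <;> rfl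

theorem mem_bd_iff {e : E} : e ∈ bd P.D ↔ ∃ i < P.n, P.b i = e := by
  refine ⟨fun h => ?_, fun ⟨i, _, h⟩ => h ▸ P.b_mem_bd i⟩
  obtain ⟨d, -, h1, -⟩ := exists_dart e
  rw [← h1, edge_mem_bd] at h
  by_cases h2 : fc e.1 d ∈ P.D
  · obtain ⟨i, hi, a, b⟩ := P.bdry_lt (v := e.1 + u d) (d := d + 2) (by rwa [fc_back])
      (by rw [fc_step']; tauto)
    exact ⟨i, hi, by rw [Dom.b, a, b, edge_back, h1]⟩
  · obtain ⟨i, hi, a, b⟩ := P.bdry_lt (v := e.1) (d := d) (by tauto) h2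
    exact ⟨i, hi, by rw [Dom.b, a, b, h1]⟩

theorem bd_eq : bd P.D = (Finset.range P.n).image P.b := by
  ext e; simp [P.mem_bd_iff]

theorem c_eq_of_b (h : P.b i = P.b j) : P.c i = P.c j := by
  rcases edge_eq h with ⟨a, -⟩ | ⟨a, b⟩
  · exact a
  · exact absurd (P.fc_in j) (by rw [← fc_step', ← a, ← b]; exact P.fc_out i)

theorem b_inj (hi : i < P.n) (hj : j < P.n) (h : P.b i = P.b j) : i = j :=
  P.inj i hi j hj (P.c_eq_of_b h)

theorem b_ends (i : ℕ) : ((P.b i).1 = P.c i ∧ hd (P.b i) = P.c (i + 1)) ∨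
    ((P.b i).1 = P.c (i + 1) ∧ hd (P.b i) = P.c i) := by
  rw [P.step]; exact edge_ends _ _

theorem b_even (h : Even ((P.c i).1 + (P.c i).2)) :
    tin (P.b i) ∈ P.D ∧ tout (P.b i) ∉ P.D ∧ lv (P.b i) = P.c i ∧ rv (P.b i) = P.c (i + 1) := by
  obtain ⟨a, b, c, d⟩ := dart_even (P.dir i) h
  rw [P.step, Dom.b, a, b]
  exact ⟨P.fc_in i, P.fc_out i, c, d⟩

theorem b_odd (h : ¬Even ((P.c i).1 + (P.c i).2)) :
    tin (P.b i) ∉ P.D ∧ tout (P.b i) ∈ P.D ∧ lv (P.b i) = P.c (i + 1) ∧ rv (P.b i) = P.c i := by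
  obtain ⟨a, b, c, d⟩ := dart_odd (P.dir i) h
  rw [P.step, Dom.b, a, b]
  exact ⟨P.fc_out i, P.fc_in i, c, d⟩

theorem tin_b : tin (P.b i) ∈ P.D ↔ Even ((P.c i).1 + (P.c i).2) :=
  ⟨fun h => by_contra fun a => (P.b_odd a).1 h, fun h => (P.b_even h).1⟩

theorem b_lr (i : ℕ) : (lv (P.b i) = P.c i ∧ rv (P.b i) = P.c (i + 1)) ∨
    (lv (P.b i) = P.c (i + 1) ∧ rv (P.b i) = P.c i) :=
  (em _).imp (fun h => (P.b_even h).2.2) fun h => (P.b_odd h).2.2

theorem c_par (i : ℕ) : ((P.c i).1 + (P.c i).2) % 2 = ((P.c 0).1 + (P.c 0).2 + i) % 2 := by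
  induction i with
  | zero => simp
  | succ i ih =>
    rw [P.step]
    rcases cases4 (P.dir i) with h | h | h | h <;> rw [h] <;> simp <;> omega

theorem n_even : P.n % 2 = 0 := by
  have := P.c_par P.n
  rw [P.close] at this
  omega

theorem c_mem_vx (i : ℕ) : P.c i ∈ vx P.D := mem_vx.2 ⟨_, P.fc_in i⟩

theorem dir_ne_back (i : ℕ) : P.dir (i + 1) ≠ P.dir i + 2 := fun h =>
  P.fc_out (i + 1) (by rw [h, P.step, fc_step']; exact P.fc_in i)

/-- a vertex with a tile inside and a tile outside is a boundary vertex -/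
theorem exists_c {v : V} {d d' : Fin 4} (h : fc v d ∈ P.D) (h' : fc v d' ∉ P.D) :
    ∃ i < P.n, P.c i = v := by
  by_contra hn
  have key : ∀ d, fc v (d + 1) ∈ P.D → fc v d ∈ P.D := fun d a => by_contra fun b =>
    let ⟨i, hi, c, _⟩ := P.bdry_lt a b; hn ⟨i, hi, c⟩
  have k0 := key 0
  have k1 := key 1
  have k2 := key 2
  have k3 := key 3
  rcases cases4 d with rfl | rfl | rfl | rfl <;> rcases cases4 d' with rfl | rfl | rfl | rfl <;>
    simp only [a01, a11, a21, a31] at k0 k1 k2 k3 <;> tauto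

/-- induction on the vertices of a disc along its sides -/
theorem vx_ind {p : V → Prop} (h0 : p (P.c i)) (hs : ∀ e ∈ sd P.D, p e.1 ↔ p (hd e)) :
    ∀ v ∈ vx P.D, p v := by
  have h1 : ∀ m, p (P.c m) ↔ p (P.c 0) := fun m => by
    induction m with
    | zero => rfl
    | succ m ih =>
      have := hs _ (P.b_mem_sd m)
      rcases P.b_ends m with ⟨a, b⟩ | ⟨a, b⟩ <;> rw [a, b] at this <;> tauto
  have h2 : ∀ m, p (P.c m) := fun m => (h1 m).2 ((h1 i).1 h0)
  obtain ⟨x0, hx⟩ := ((vx P.D).finite_toSet.image Prod.fst).bddBelow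
  rintro ⟨x, y⟩
  refine ind_right (p := fun x => (x, y) ∈ vx P.D → p (x, y)) x0
    (fun x hx' h => absurd (hx ⟨_, h, rfl⟩) (not_le.2 hx')) (fun x ih h => ?_) x
  by_cases h3 : fc (x, y) 2 ∈ P.D
  · have h4 : ((x - 1, y), true) ∈ sd P.D := mem_sd.2 (Or.inl h3)
    simpa using (hs _ h4).1 (ih (fst_mem_vx h4))
  · obtain ⟨d, hd⟩ := mem_vx.1 h
    obtain ⟨m, -, hm⟩ := P.exists_c hd h3
    exact hm ▸ h2 m

theorem nb_conn {v w : V} (hv : v ∈ vx P.D) (hw : w ∈ vx P.D) :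
    Relation.ReflTransGen (Nb P.D) v w := by
  have st : ∀ e ∈ sd P.D, Nb P.D e.1 (hd e) ∧ Nb P.D (hd e) e.1 := fun e he => by
    obtain ⟨d, -, h1, h2⟩ := exists_dart e
    exact ⟨⟨d, h2.symm, h1.symm ▸ he⟩, d + 2, by rw [← h2, u_back], by rwa [← h2, edge_back, h1]⟩
  have h1 := P.vx_ind (i := 0) (p := fun v => Relation.ReflTransGen (Nb P.D) v (P.c 0)) .refl
    (fun e he => ⟨.head (st e he).2, .head (st e he).1⟩) v hv
  exact P.vx_ind (i := 0) (p := fun w => Relation.ReflTransGen (Nb P.D) v w) h1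
    (fun e he => ⟨fun h => h.tail (st e he).1, fun h => h.tail (st e he).2⟩) w hw

/-- functions with equal increments along the sides differ by a constant -/
theorem pot_unique {A : Type*} [AddCommGroup A] {φ φ' : V → A}
    (h : ∀ e ∈ sd P.D, φ (hd e) - φ e.1 = φ' (hd e) - φ' e.1) (h0 : φ (P.c i) = φ' (P.c i)) :
    ∀ v ∈ vx P.D, φ v = φ' v :=
  P.vx_ind (p := fun v => φ v = φ' v) h0 fun e he => by
    have := h e he
    exact ⟨fun a => by rwa [a, sub_left_inj] at this, fun a => by rwa [a, sub_right_inj] at this⟩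

/-! ### Potentials -/

/-- a closed form on a disc which is exact along the boundary is exact -/
theorem exists_pot {A : Type*} [AddCommGroup A] (χ : E → A) (a : V → A)
    (h : ∀ t ∈ P.D, χ (bot t) + χ (rgt t) = χ (lft t) + χ (top t))
    (ha : ∀ i < P.n, a (hd (P.b i)) - a (P.b i).1 = χ (P.b i)) :
    ∃ φ : V → A, (∀ e ∈ sd P.D, φ (hd e) - φ e.1 = χ e) ∧ ∀ i, φ (P.c i) = a (P.c i) := by
  classical
  obtain ⟨φ, hφ⟩ := pot_plane (fun e => if e ∈ sd P.D then χ e else a (hd e) - a e.1) fun t => by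
    by_cases ht : t ∈ P.D
    · have : ∀ e ∈ sd1 t, e ∈ sd P.D := fun e => mem_sd_of ht
      simp only [sd1, Finset.mem_insert, Finset.mem_singleton, forall_eq_or_imp, forall_eq] at this
      simp only [this, if_true, h t ht]
    · have : ∀ e ∈ sd1 t, (if e ∈ sd P.D then χ e else a (hd e) - a e.1) = a (hd e) - a e.1 := by
        intro e he
        split_ifs with h1
        · obtain ⟨i, hi, rfl⟩ := P.mem_bd_iff.1 (mem_bd.2 (by
            have := mem_sd.1 h1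
            rcases mem_sd1.1 he with rfl | rfl <;> tauto) : e ∈ bd P.D)
          exact (ha i hi).symm
        · rfl
      simp only [sd1, Finset.mem_insert, Finset.mem_singleton, forall_eq_or_imp, forall_eq] at this
      simp only [this]
      simp only [bot, rgt, lft, top, hd_true, hd_false]
      abel
  refine ⟨fun v => φ v + (a (P.c 0) - φ (P.c 0)), fun e he => ?_, fun i => ?_⟩
  · rw [add_sub_add_right_eq_sub, hφ, if_pos he]
  · induction i with
    | zero => simp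
    | succ i ih =>
      have h1 := hφ (P.b i)
      have h2 := ha _ (Nat.mod_lt i P.pos)
      rw [if_pos (P.b_mem_sd i)] at h1
      rw [b_mod, ← h1] at h2
      beta_reduce at ih ⊢
      rcases P.b_ends i with ⟨p, q⟩ | ⟨p, q⟩ <;> rw [p, q] at h2
      · rw [sub_eq_iff_eq_add.1 h2, ← ih]; abel
      · rw [← sub_sub_cancel (a (P.c i)) (a (P.c (i + 1))), h2, ← ih]; abel

/-- a function of the index as a function of the boundary vertex -/
theorem exists_ext {A : Type*} (g : ℕ → A) (h : g P.n = g 0) :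
    ∃ a : V → A, ∀ m ≤ P.n, a (P.c m) = g m := by
  classical
  refine ⟨fun v => g (if h : ∃ m < P.n, P.c m = v then h.choose else 0), fun m hm => ?_⟩
  have h1 : ∃ k < P.n, P.c k = P.c m := ⟨_, Nat.mod_lt m P.pos, P.c_mod m⟩
  have h2 := P.c_eq_iff.1 h1.choose_spec.2
  rw [Nat.mod_eq_of_lt h1.choose_spec.1] at h2
  simp only [dif_pos h1, h2]
  rcases hm.eq_or_lt with rfl | hm
  · rw [Nat.mod_self, h]
  · rw [Nat.mod_eq_of_lt hm]

/-- the same with boundary values given by the index -/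
theorem exists_pot' {A : Type*} [AddCommGroup A] (χ : E → A) (g : ℕ → A) (hg : g P.n = g 0)
    (h : ∀ t ∈ P.D, χ (bot t) + χ (rgt t) = χ (lft t) + χ (top t))
    (ha : ∀ i < P.n, g (i + 1) - g i = sg (P.dir i) • χ (P.b i)) :
    ∃ φ : V → A, (∀ e ∈ sd P.D, φ (hd e) - φ e.1 = χ e) ∧ ∀ m ≤ P.n, φ (P.c m) = g m := by
  obtain ⟨a, h1⟩ := P.exists_ext g hg
  obtain ⟨φ, h2, h3⟩ := P.exists_pot χ a h fun i hi => by
    have h4 := ha i hi
    rw [← h1 i hi.le, ← h1 (i + 1) hi, P.step] at h4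
    rw [Dom.b] at h4 ⊢
    generalize P.dir i = d at h4 ⊢
    generalize P.c i = v at h4 ⊢
    obtain ⟨x, y⟩ := v
    rcases cases4 d with rfl | rfl | rfl | rfl <;> simp [sub_eq_add_neg] at h4 ⊢
    · exact h4
    · exact h4
    · rw [← neg_inj, ← h4]; abel
    · rw [← neg_inj, ← h4]; abel
  exact ⟨φ, h2, fun m hm => (h3 m).trans (h1 m hm)⟩

/-! ### The strands form a matching of the boundary sides -/

theorem partner (τ : TC) (hi : i < P.n) : ∃! j, j < P.n ∧ j ≠ i ∧ Same τ P.D (P.b i) (P.b j) := by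
  obtain ⟨e, h1, h2, h3⟩ := exists_partner τ (P.b_mem_bd i)
  obtain ⟨j, hj, rfl⟩ := P.mem_bd_iff.1 h1
  have hne : j ≠ i := by rintro rfl; tauto
  refine ⟨j, ⟨hj, hne, h2⟩, fun k ⟨a, b, c⟩ => ?_⟩
  rcases partner_unique (P.b_mem_bd i) h1 (P.b_mem_bd k) h2 c
    (fun h => hne (P.b_inj hi hj h).symm) with h | h
  · exact absurd (P.b_inj a hi h) b
  · exact P.b_inj a hj h

variable {P}

theorem Str.same_iff (h : P.Str τ i j) (hk : k < P.n) :
    Same τ P.D (P.b i) (P.b k) ↔ k = i ∨ k = j := by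
  refine ⟨fun h1 => or_iff_not_imp_left.2 fun h2 => ?_, ?_⟩
  · exact (P.partner τ (h.1.trans h.2.1)).unique ⟨hk, h2, h1⟩ ⟨h.2.1, h.1.ne', h.2.2⟩
  · rintro (rfl | rfl)
    exacts [Same.rfl', h.2.2]

theorem Str.tin_iff (h : P.Str τ i j) : tin (P.b j) ∈ P.D ↔ tin (P.b i) ∉ P.D :=
  (bd_same (P.b_mem_bd i) (P.b_mem_bd j) h.2.2).resolve_left
    fun a => h.1.ne (P.b_inj (h.1.trans h.2.1) h.2.1 a)

theorem Str.par (h : P.Str τ i j) : (i + j) % 2 = 1 := by
  have h1 := h.tin_iff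
  have h2 := P.c_par i
  have h3 := P.c_par j
  rw [tin_b, tin_b, Int.even_iff, Int.even_iff] at h1
  omega

theorem mem_strs {p : ℕ × ℕ} : p ∈ P.strs τ ↔ P.Str τ p.1 p.2 := by
  classical
  simp only [strs, Finset.mem_filter, Finset.mem_product, Finset.mem_range]
  exact ⟨fun h => h.2, fun h => ⟨⟨h.1.trans h.2.1, h.2.1⟩, h⟩⟩

theorem Str.eq_of_same {i' j' : ℕ} (h : P.Str τ i j) (h' : P.Str τ i' j')
    (hs : Same τ P.D (P.b i) (P.b i')) : i = i' ∧ j = j' := by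
  have a := (h.same_iff (h'.1.trans h'.2.1)).1 hs
  have b := (h.same_iff h'.2.1).1 (hs.trans' h'.2.2)
  have := h.1
  have := h'.1
  omega

theorem exists_str (τ : TC) (hk : k < P.n) : ∃ i j, P.Str τ i j ∧ (k = i ∨ k = j) := by
  obtain ⟨j, ⟨a, b, c⟩, -⟩ := P.partner τ hk
  rcases lt_or_gt_of_ne b with h | h
  · exact ⟨j, k, ⟨h, hk, c.symm'⟩, Or.inr rfl⟩
  · exact ⟨k, j, ⟨h, a, c⟩, Or.inl rfl⟩

theorem exists_strs (τ : TC) (hk : k < P.n) :
    ∃! p, p ∈ P.strs τ ∧ Same τ P.D (P.b p.1) (P.b k) := by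
  obtain ⟨i, j, h, h1⟩ := exists_str τ hk
  refine ⟨(i, j), ⟨mem_strs.2 h, (h.same_iff hk).2 h1⟩, fun p ⟨a, b⟩ => ?_⟩
  obtain ⟨c, d⟩ := (mem_strs.1 a).eq_of_same h (b.trans' ((h.same_iff hk).2 h1).symm')
  exact Prod.ext c d

/-- a side lies on a strand or on a loop -/
theorem str_or_loop (τ : TC) {e : E} (he : e ∈ sd P.D) :
    (∃ i j, P.Str τ i j ∧ Same τ P.D (P.b i) e) ∨ Disjoint (cls τ P.D e) (bd P.D) := by
  refine or_iff_not_imp_right.2 fun h => ?_
  obtain ⟨x, h1, h2⟩ := Finset.not_disjoint_iff.1 h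
  obtain ⟨k, hk, rfl⟩ := P.mem_bd_iff.1 h2
  obtain ⟨i, j, a, b⟩ := exists_str τ hk
  exact ⟨i, j, a, ((a.same_iff hk).2 b).trans' ((mem_cls' he).1 h1).symm'⟩

end Dom

end Pool.Agent.P.MP_6c8efb_pr.Cardy
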