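import Pool.Agent.P.MP_6c8efb_pr.Cardy.HCyc
import Pool.Agent.P.MP_6c8efb_pr.Cardy.TDom
import Pool.Agent.P.MP_6c8efb_pr.Cardy.TIface

/-! Turning numbers of loops, of the boundary and of strands. -/

namespace Pool.Agent.P.MP_6c8efb_pr.Cardy

open Arm (TC)
open K

/-- the middle of a side in doubled coordinates -/
def mid (e : E) : V := e.1 + hd e

theorem mid_inj : Function.Injective mid := by
  rintro ⟨⟨a, b⟩, c⟩ ⟨⟨a', b'⟩, c'⟩ h
  cases c <;> cases c' <;> simp [mid] at h ⊢ <;> omega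

theorem mid_odd (e : E) : ((mid e).1 + (mid e).2) % 2 = 1 := by
  obtain ⟨⟨a, b⟩, c⟩ := e
  cases c <;> simp [mid] <;> omega

theorem mid_edge (v : V) (d : Fin 4) : mid (edge v d) = v + v + u d := by
  rcases edge_ends v d with ⟨h, h'⟩ | ⟨h, h'⟩ <;> rw [mid, h, h'] <;> abel

theorem trn_cases (τ : TC) (t : V) : trn τ t = 1 ∨ trn τ t = -1 := by
  unfold trn; split_ifs <;> simp

variable {τ : TC} {D : Finset V} {e : E}

/-- an arc of a strand as a diagonal step -/
theorem arc_step (τ : TC) (e : E) {X : ℤ} (h : X % 8 = 2 * nd e) :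
    kh (mid e, X + trn τ (tin e)) = mid (nx τ e) ∧
      (X + 2 * trn τ (tin e)) % 8 = 2 * nd (nx τ e) := by
  have k := k8 (X + trn τ (tin e))
  obtain ⟨⟨x, y⟩, b⟩ := e
  have h1 : Even (x + 1 + y) ↔ ¬Even (x + y) := by simp only [Int.even_iff]; omega
  have h2 : Even (x + (y + 1)) ↔ ¬Even (x + y) := by simp only [Int.even_iff]; omega
  have h3 : Even (x - 1 + y) ↔ ¬Even (x + y) := by simp only [Int.even_iff]; omega
  have h4 : Even (x + (y - 1)) ↔ ¬Even (x + y) := by simp only [Int.even_iff]; omega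
  have h5 : x ≠ x - 1 := by omega
  simp only [kh, nx, trn] at k ⊢
  generalize τ (tin ((x, y), b)) = c at k ⊢
  by_cases hp : Even (x + y) <;> cases b <;> cases c <;>
    simp [nd, nat, tin, lo, prt, mid, bot, lft, top, rgt, hp, h1, h2, h3, h4, h5] at h k ⊢ <;>
    omega

/-- the number of quarter turns in the first `k` tiles -/
def tsum (τ : TC) (e : E) (k : ℕ) : ℤ := ∑ m ∈ Finset.range k, trn τ (tin ((nx τ)^[m] e))

theorem tsum_succ (τ : TC) (e : E) (k : ℕ) :
    tsum τ e (k + 1) = tsum τ e k + trn τ (tin ((nx τ)^[k] e)) := Finset.sum_range_succ _ _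

theorem tsum_nd {X : ℤ} (h : X % 8 = 2 * nd e) (k : ℕ) :
    (X + 2 * tsum τ e k) % 8 = 2 * nd ((nx τ)^[k] e) := by
  induction k with
  | zero => simpa [tsum] using h
  | succ k ih =>
    rw [Function.iterate_succ_apply', ← (arc_step τ _ ih).2, tsum_succ]
    congr 1; ring

/-- the first `k` arcs after `e` -/
def strW (τ : TC) (e : E) (X : ℤ) (k : ℕ) : List KS := (List.range k).map fun m =>
  (mid ((nx τ)^[m] e), X + 2 * tsum τ e m + trn τ (tin ((nx τ)^[m] e)))

theorem strW_fst (X : ℤ) (k : ℕ) :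
    (strW τ e X k).map Prod.fst = (List.range k).map fun m => mid ((nx τ)^[m] e) := by
  simp [strW]

theorem kp_str {X a : ℤ} (h : X % 8 = 2 * nd e) (k : ℕ) (ha : |X - a| ≤ 2) :
    ∃ b, KP (mid e) a (strW τ e X (k + 1)) (mid ((nx τ)^[k + 1] e)) b ∧
      b = X + 2 * tsum τ e (k + 1) - trn τ (tin ((nx τ)^[k] e)) := by
  refine ⟨_, kp_range (fun m => mid ((nx τ)^[m] e))
    (fun m => X + 2 * tsum τ e m + trn τ (tin ((nx τ)^[m] e))) k ?_ (fun m _ => ⟨fun _ => mid_odd _, ?_⟩)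
    fun m _ => ?_, by rw [tsum_succ]; ring⟩
  · have := trn_cases τ (tin e)
    rw [abs_le] at ha ⊢
    simp only [tsum, Finset.sum_range_zero, Function.iterate_zero, id]
    omega
  · rw [Function.iterate_succ_apply']
    exact (arc_step τ _ (tsum_nd h m)).1
  · have := trn_cases τ (tin ((nx τ)^[m] e))
    have := trn_cases τ (tin ((nx τ)^[m + 1] e))
    rw [abs_le, tsum_succ]
    omega

theorem trK_range {k : ℕ} {K : Finset E}
    (hi : ∀ a < k, ∀ b < k, (nx τ)^[a] e = (nx τ)^[b] e → a = b)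
    (hK : ∀ x, (x ∈ K ∧ tin x ∈ D) ↔ ∃ m < k, (nx τ)^[m] e = x) : trK τ D K = tsum τ e k := by
  have : K.filter (fun x => tin x ∈ D) = (Finset.range k).image fun m => (nx τ)^[m] e := by
    ext x; simp [hK]
  rw [trK, this, Finset.sum_image fun a ha b hb =>
    hi a (Finset.mem_range.1 ha) b (Finset.mem_range.1 hb), tsum]

theorem nd_mod (e : E) : 2 * nd e % 8 = 2 * nd e := by
  unfold nd; split_ifs <;> rfl

theorem cyc' {p : V} {a b : ℤ} {l : List KS} (h : KP p a l p b) (hl : l ≠ [])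
    (hn : (l.map Prod.fst).Nodup) (hT : (b - a) % 8 = 0) : b - a = 8 ∨ b - a = -8 :=
  cyc (by rwa [add_sub_cancel]) hl hn hT

theorem s_loop : S_Loop := by
  intro τ D e he hd
  rcases strand_or_loop τ D e with ⟨e₀, k, h1, h2, -⟩ | ⟨h1, h2⟩
  · have := mem_sd'.1 (h1.mem he)
    exact absurd (mem_bd'.2 (by tauto)) (Finset.disjoint_left.1 hd ((mem_cls' he).2 h1))
  have hp : e ∈ Function.periodicPts (nx τ) := h2
  obtain ⟨k, hk⟩ := Nat.exists_eq_succ_of_ne_zero
    (Function.minimalPeriod_pos_of_mem_periodicPts hp).ne'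
  have h3 : (nx τ)^[k + 1] e = e := by
    have := Function.iterate_minimalPeriod (f := nx τ) (x := e)
    rwa [hk] at this
  have hi : ∀ a < k + 1, ∀ b < k + 1, (nx τ)^[a] e = (nx τ)^[b] e → a = b := fun a ha b hb h =>
    Function.iterate_injOn_Iio_minimalPeriod (by rwa [hk]) (by rwa [hk]) h
  rw [trK_range hi fun x => ?_]
  · have c := trn_cases τ (tin ((nx τ)^[k] e))
    obtain ⟨b, h4, h5⟩ := kp_str (τ := τ) (nd_mod e) k
      (a := 2 * nd e - trn τ (tin ((nx τ)^[k] e))) (by rw [abs_le]; omega)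
    have h6 := tsum_nd (τ := τ) (nd_mod e) (k + 1)
    rw [h3] at h4 h6
    have h7 := nd_mod e
    have := cyc' h4 (by simp [strW])
      (by
        rw [strW_fst]
        exact List.nodup_range.map_on fun a ha b hb h =>
          hi a (List.mem_range.1 ha) b (List.mem_range.1 hb) (mid_inj h)) (by omega)
    omega
  · rw [mem_cls' he, same_loop h1]
    refine ⟨fun ⟨⟨m, h⟩, _⟩ => ⟨m % (k + 1), Nat.mod_lt _ k.succ_pos, ?_⟩,
      fun ⟨m, _, h⟩ => ⟨⟨m, h⟩, h ▸ h1 m⟩⟩
    rw [← h, ← Nat.succ_eq_add_one, ← hk, Function.iterate_mod_minimalPeriod_eq]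

namespace Dom

variable (P : Dom) {i j : ℕ}

/-- the boundary cut into half sides -/
def pt (m : ℕ) : V := P.c (m / 2) + P.c ((m + 1) / 2)

/-- the angle of a boundary side -/
def an (i : ℕ) : ℤ := 2 * (((P.dir 0 : ℕ) : ℤ) + P.ψ i)

theorem pt_even (i : ℕ) : P.pt (2 * i) = P.c i + P.c i := by
  rw [pt, show 2 * i / 2 = i by omega, show (2 * i + 1) / 2 = i by omega]

theorem pt_odd (i : ℕ) : P.pt (2 * i + 1) = mid (P.b i) := by
  rw [pt, show (2 * i + 1) / 2 = i by omega, show (2 * i + 1 + 1) / 2 = i + 1 by omega, b,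
    mid_edge, P.step, add_assoc]

theorem pt_succ (m : ℕ) : P.pt (m + 1) = P.pt m + u (P.dir (m / 2)) := by
  rw [pt, pt, show (m + 1 + 1) / 2 = m / 2 + 1 by omega, P.step]
  abel

theorem ψ_succ (i : ℕ) : P.ψ (i + 1) = P.ψ i + tn (P.dir i) (P.dir (i + 1)) :=
  Finset.sum_range_succ _ _

theorem ψ_per (i : ℕ) : P.ψ (i + P.n) = P.ψ i + P.ψ P.n := by
  induction i with
  | zero => simp [ψ]
  | succ i ih => rw [add_right_comm, ψ_succ, ψ_succ, ih, add_right_comm i, P.per, P.per]; ring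

theorem an_mod (i : ℕ) : P.an i % 8 = 2 * ((P.dir i : ℕ) : ℤ) := by
  induction i with
  | zero => have := (P.dir 0).2; simp only [an, ψ, Finset.sum_range_zero]; omega
  | succ i ih =>
    have h := P.dir_ne_back i
    simp only [an, ψ_succ] at ih ⊢
    generalize P.dir (i + 1) = d' at h ⊢
    generalize P.dir i = d at h ih ⊢
    rcases cases4 d with rfl | rfl | rfl | rfl <;> rcases cases4 d' with rfl | rfl | rfl | rfl <;>
      simp [tn] at h ih ⊢ <;> omega

theorem an_half (m : ℕ) : |P.an ((m + 1) / 2) - P.an (m / 2)| ≤ 2 := by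
  rcases (by omega : (m + 1) / 2 = m / 2 ∨ (m + 1) / 2 = m / 2 + 1) with h | h <;> rw [h]
  · simp
  · simp only [an, ψ_succ, tn, abs_le]
    split_ifs <;> omega

theorem pt_eq_iff {m m' : ℕ} (h : P.pt m = P.pt m') : m % (2 * P.n) = m' % (2 * P.n) := by
  have key : ∀ i j, P.pt (2 * i) ≠ P.pt (2 * j + 1) := fun i j h => by
    have := mid_odd (P.b j)
    rw [← pt_odd, ← h, pt_even] at this
    simp only [Prod.fst_add, Prod.snd_add] at this
    omega
  obtain ⟨i, rfl | rfl⟩ := m.even_or_odd' <;> obtain ⟨j, rfl | rfl⟩ := m'.even_or_odd'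
  · rw [pt_even, pt_even] at h
    have : P.c i = P.c j := by simp only [Prod.ext_iff, Prod.fst_add, Prod.snd_add] at h ⊢; omega
    rw [Nat.mul_mod_mul_left, Nat.mul_mod_mul_left, P.c_eq_iff.1 this]
  · exact absurd h (key _ _)
  · exact absurd h.symm (key _ _)
  · rw [pt_odd, pt_odd] at h
    have := P.c_eq_iff.1 (P.c_eq_of_b (mid_inj h))
    rw [Nat.add_mod, Nat.mul_mod_mul_left, this, ← Nat.mul_mod_mul_left, ← Nat.add_mod]

theorem pt_inj {m m' : ℕ} (h : P.pt m = P.pt m') (h1 : m < m' + 2 * P.n) (h2 : m' < m + 2 * P.n) :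
    m = m' := Nat.ModEq.eq_of_abs_lt (P.pt_eq_iff h) (by rw [abs_lt]; omega)

theorem pt_ne {e : E} (h : e ∉ bd P.D) (m : ℕ) : P.pt m ≠ mid e := fun a => by
  obtain ⟨i, rfl | rfl⟩ := m.even_or_odd'
  · have := mid_odd e
    rw [← a, pt_even] at this
    simp only [Prod.fst_add, Prod.snd_add] at this
    omega
  · rw [pt_odd] at a
    exact h (mid_inj a ▸ P.b_mem_bd i)

theorem kh_dir (z : V) (d : Fin 4) {α : ℤ} (h : α % 8 = 2 * ((d : ℕ) : ℤ)) :
    Kok (z, α) ∧ kh (z, α) = z + u d ∧ Kok (z + u d, α + 4) ∧ kh (z + u d, α + 4) = z := by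
  have k := k8 α
  have k' := k8 (α + 4)
  rcases cases4 d with rfl | rfl | rfl | rfl <;> simp [Kok, kh, Prod.ext_iff] at h ⊢ <;> omega

/-- a counterclockwise arc of the boundary -/
def fwd (w k : ℕ) (o : ℤ) : List KS :=
  (List.range k).map fun r => (P.pt (w + r), P.an ((w + r) / 2) + o)

/-- a clockwise arc of the boundary -/
def bwd (w k : ℕ) (o : ℤ) : List KS :=
  (List.range k).map fun r => (P.pt (w + k - r), P.an ((w + k - r - 1) / 2) + o + 4)

theorem kp_fwd (w k : ℕ) {o a : ℤ} (ho : o % 8 = 0) (ha : |P.an (w / 2) + o - a| ≤ 3) :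
    KP (P.pt w) a (P.fwd w (k + 1) o) (P.pt (w + (k + 1))) (P.an ((w + k) / 2) + o) := by
  refine kp_range (fun r => P.pt (w + r)) (fun r => P.an ((w + r) / 2) + o) k ha
    (fun r _ => ?_) fun r _ => ?_
  · have := kh_dir (P.pt (w + r)) (P.dir ((w + r) / 2)) (α := P.an ((w + r) / 2) + o)
      (by have := P.an_mod ((w + r) / 2); omega)
    exact ⟨this.1, this.2.1.trans (P.pt_succ _).symm⟩
  · have := P.an_half (w + r)
    rw [abs_le] at this ⊢
    rw [← add_assoc]
    omega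

theorem kp_bwd (w k : ℕ) {o a : ℤ} (ho : o % 8 = 0) (ha : |P.an ((w + k) / 2) + o + 4 - a| ≤ 3) :
    KP (P.pt (w + (k + 1))) a (P.bwd w (k + 1) o) (P.pt w) (P.an (w / 2) + o + 4) := by
  have := kp_range (fun r => P.pt (w + (k + 1) - r))
    (fun r => P.an ((w + (k + 1) - r - 1) / 2) + o + 4) k ha (fun r hr => ?_) fun r hr => ?_
  · simpa [bwd, show w + (k + 1) - k - 1 = w by omega] using this
  · have := kh_dir (P.pt (w + k - r)) (P.dir ((w + k - r) / 2)) (α := P.an ((w + k - r) / 2) + o)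
      (by have := P.an_mod ((w + k - r) / 2); omega)
    rw [← P.pt_succ] at this
    simp only [show w + (k + 1) - r = w + k - r + 1 by omega, Nat.add_sub_cancel,
      show w + (k + 1) - (r + 1) = w + k - r by omega]
    exact this.2.2
  · have := P.an_half (w + k - r - 1)
    simp only [show w + (k + 1) - r - 1 = w + k - r - 1 + 1 by omega,
      show w + (k + 1) - (r + 1) - 1 = w + k - r - 1 by omega]
    rw [abs_le] at this ⊢
    omega

/-- the highest corner -/
theorem exists_top : ∃ i, P.dir i = 2 ∧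
    ∀ v ∈ vx P.D, v.2 < (P.c i).2 ∨ (v.2 = (P.c i).2 ∧ v.1 ≤ (P.c i).1) := by
  obtain ⟨t, ht, hm⟩ := P.D.exists_max_image (fun t => toLex (t.2, t.1)) ⟨_, P.fc_in 0⟩
  simp only [Prod.Lex.toLex_le_toLex] at hm
  obtain ⟨i, h1, h2⟩ := (P.bdry (t.1 + 1, t.2 + 1) 2).1 ⟨by simpa using ht, fun h => by
    have := hm _ h
    simp at this⟩
  refine ⟨i, h2, fun v hv => ?_⟩
  obtain ⟨d, hd⟩ := mem_vx.1 hv
  have := hm _ hd
  rw [h1]
  rcases cases4 d with rfl | rfl | rfl | rfl <;> simp at this ⊢ <;> omega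

theorem ψ_n : P.ψ P.n = 4 := by
  obtain ⟨i, h1, h2⟩ := P.exists_top
  obtain ⟨k, hk⟩ : ∃ k, 2 * P.n = k + 1 := ⟨2 * P.n - 1, by have := P.pos; omega⟩
  have a1 := P.an_half (2 * i + k)
  have a2 : P.an ((2 * i + k + 1) / 2) = P.an (2 * i / 2) + 2 * P.ψ P.n := by
    rw [show (2 * i + k + 1) / 2 = 2 * i / 2 + P.n by omega, an, an, ψ_per]; ring
  have a3 := P.an_mod ((2 * i + k + 1) / 2)
  have a4 := P.an_mod (2 * i / 2)
  rw [show (2 * i + k + 1) / 2 = i + P.n by omega, P.per, h1] at a3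
  rw [show (2 * i + k + 1) / 2 = i + P.n by omega] at a1 a2
  rw [show P.dir (2 * i / 2) = 2 by rw [← h1]; congr 1; omega] at a4
  have h := P.kp_fwd (2 * i) k (o := 0) (a := P.an ((2 * i + k) / 2) - 2 * P.ψ P.n) rfl
    (by rw [abs_le] at a1 ⊢; omega)
  have e : P.pt (2 * i + (k + 1)) = P.pt (2 * i) := by
    rw [← hk, ← mul_add, pt_even, pt_even, c_per]
  have hn : ((P.fwd (2 * i) (k + 1) 0).map Prod.fst).Nodup := by
    rw [fwd, List.map_map]
    refine List.nodup_range.map_on fun a ha b hb h => ?_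
    rw [List.mem_range] at ha hb
    have := P.pt_inj h (by omega) (by omega)
    omega
  have he : ∀ z ∈ (P.fwd (2 * i) (k + 1) 0).map Prod.fst, K.Ext (P.pt (2 * i)) z := by
    rw [fwd, List.map_map]
    refine List.forall_mem_map.2 fun r _ => ?_
    have b1 := h2 _ (P.c_mem_vx ((2 * i + r) / 2))
    have b2 := h2 _ (P.c_mem_vx ((2 * i + r + 1) / 2))
    rw [pt_even]
    simp only [K.Ext, Function.comp, pt, Prod.fst_add, Prod.snd_add]
    omega
  rw [e] at h
  rw [fwd, List.range_succ_eq_map, List.map_cons] at h hn he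
  have := (cyc_ext (T := 2 * P.ψ P.n) (by convert h using 1; ring) hn
    (by rw [Fin.val_two] at a3 a4; omega) he).2 (by simpa using a4)
  omega

theorem nd_in (h : tin (P.b i) ∈ P.D) : (P.an i + 2) % 8 = 2 * nd (P.b i) := by
  have h1 := P.tin_b.1 h
  have h2 := P.an_mod i
  rw [b]
  generalize P.c i = v at h1 ⊢
  generalize P.dir i = d at h2 ⊢
  have h3 : ¬Even (v.1 - 1 + v.2) := by simp only [Int.even_iff] at h1 ⊢; omega
  have h4 : ¬Even (v.1 + (v.2 - 1)) := by simp only [Int.even_iff] at h1 ⊢; omega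
  rcases cases4 d with rfl | rfl | rfl | rfl <;> simp [nd, nat, h1, h3, h4] at h2 ⊢ <;> omega

theorem nd_out (h : tin (P.b i) ∉ P.D) : (P.an i - 2) % 8 = 2 * nd (P.b i) := by
  have h1 := mt P.tin_b.2 h
  have h2 := P.an_mod i
  rw [b]
  generalize P.c i = v at h1 ⊢
  generalize P.dir i = d at h2 ⊢
  have h3 : Even (v.1 - 1 + v.2) := by simp only [Int.even_iff] at h1 ⊢; omega
  have h4 : Even (v.1 + (v.2 - 1)) := by simp only [Int.even_iff] at h1 ⊢; omega
  rcases cases4 d with rfl | rfl | rfl | rfl <;> simp [nd, nat, h1, h3, h4] at h2 ⊢ <;> omega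

theorem tout_b (h : tin (P.b i) ∈ P.D) : tout (P.b i) ∉ P.D := (P.b_even (P.tin_b.1 h)).2.1

/-- a strand followed by points of the boundary -/
theorem nodup_str {p k : ℕ} (hp : tin (P.b p) ∈ P.D) (h : Fw τ P.D (P.b p) k) (X : ℤ) {r : ℕ}
    (g : ℕ → ℕ) (α : ℕ → ℤ) (h1 : ∀ a < r, ∀ b < r, P.pt (g a) = P.pt (g b) → a = b)
    (h2 : ∀ a < r, P.pt (g a) ≠ mid (P.b p)) :
    ((strW τ (P.b p) X k ++ (List.range r).map fun a => (P.pt (g a), α a)).map Prod.fst).Nodup := by
  rw [List.map_append, strW_fst, List.map_map]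
  refine List.nodup_append.2 ⟨List.nodup_range.map_on fun a ha b hb e => ?_,
    List.nodup_range.map_on fun a ha b hb e => h1 a (List.mem_range.1 ha) b (List.mem_range.1 hb) e,
    List.forall_mem_map.2 fun m hm => List.forall_mem_map.2 fun a ha => Ne.symm ?_⟩
  · exact orbit_inj (P.tout_b hp) h (List.mem_range.1 ha).le (List.mem_range.1 hb).le (mid_inj e)
  · rw [List.mem_range] at hm ha
    cases m with
    | zero => exact h2 a ha
    | succ m => exact P.pt_ne (fun c => mem_bd'.1 c (iff_of_true (h _ hm) (h.mono hm.le).tout)) _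

/-- the turning of a strand; the entrance has the numbers `p` and `p + n` -/
theorem str_turn {p q k : ℕ} (h1 : p < q) (h2 : q < p + P.n) (hp : tin (P.b p) ∈ P.D)
    (h : Fw τ P.D (P.b p) (k + 1)) (hq : (nx τ)^[k + 1] (P.b p) = P.b q) (hx : tin (P.b q) ∉ P.D) :
    tsum τ (P.b p) (k + 1) = P.ψ q - P.ψ p - 2 := by
  have a0 := P.nd_in hp
  have a1 := P.nd_out hx
  have b0 := nd_mod (P.b p)
  have a2 := tsum_nd (τ := τ) b0 (k + 1)
  have c := trn_cases τ (tin ((nx τ)^[k] (P.b p)))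
  rw [hq] at a2
  set S := tsum τ (P.b p) (k + 1)
  set X := 2 * nd (P.b p)
  obtain ⟨r, hr⟩ : ∃ r, 2 * q + 1 + (r + 1) = 2 * (p + P.n) + 1 := ⟨2 * (p + P.n - q) - 1, by omega⟩
  obtain ⟨r', hr'⟩ : ∃ r, 2 * p + 1 + (r + 1) = 2 * q + 1 := ⟨2 * (q - p) - 1, by omega⟩
  have e1 : P.an (p + P.n) = P.an p + 8 := by rw [an, an, ψ_per, ψ_n]; ring
  obtain ⟨b, w1, hb⟩ := kp_str (τ := τ) b0 k (a := X - 2) (by simp)
  obtain ⟨b', w2, hb'⟩ := kp_str (τ := τ) b0 k (a := X + 2) (by simp)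
  have v1 := P.kp_fwd (2 * q + 1) r (o := X + 2 * S + 2 - P.an q) (a := b) (by omega)
    (by rw [show (2 * q + 1) / 2 = q by omega, abs_le]; omega)
  have v2 := P.kp_bwd (2 * p + 1) r' (o := X + 2 * S - 6 - P.an q) (a := b') (by omega)
    (by rw [show (2 * p + 1 + r') / 2 = q by omega, abs_le]; omega)
  rw [hr, pt_odd, pt_odd, b_per, show (2 * q + 1 + r) / 2 = p + P.n by omega, e1, ← hq] at v1
  rw [hr', pt_odd, pt_odd, show (2 * p + 1) / 2 = p by omega, ← hq] at v2
  have t1 := cyc' (w1.append v1)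
    (by simp [strW]) (P.nodup_str hp h _ _ _ (fun a ha b hb e => by
      have := P.pt_inj e (by omega) (by omega); omega) fun a ha e => by
      have := P.pt_inj (e.trans ((P.b_per p) ▸ P.pt_odd (p + P.n)).symm) (by omega) (by omega)
      omega) (by omega)
  have t2 := cyc' (w2.append v2)
    (by simp [strW]) (P.nodup_str hp h _ _ _ (fun a ha b hb e => by
      have := P.pt_inj e (by omega) (by omega); omega) fun a ha e => by
      have := P.pt_inj (e.trans (P.pt_odd p).symm) (by omega) (by omega)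
      omega) (by omega)
  simp only [an] at t1 t2
  omega

theorem trK_str {p q : ℕ} (h1 : p < q) (h2 : q < p + P.n) (hp : tin (P.b p) ∈ P.D)
    (hx : tin (P.b q) ∉ P.D) (h : Same τ P.D (P.b p) (P.b q)) :
    trK τ P.D (cls τ P.D (P.b p)) = P.ψ q - P.ψ p - 2 := by
  obtain ⟨k, h3, h4⟩ := (same_entry (P.tout_b hp)).1 h
  cases k with
  | zero => exact absurd (h4 ▸ hp) hx
  | succ k =>
    rw [← P.str_turn h1 h2 hp h3 h4 hx]
    refine trK_range (fun a ha b hb => orbit_inj (P.tout_b hp) h3 ha.le hb.le) fun x => ?_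
    rw [mem_cls' (P.b_mem_sd p), same_entry (P.tout_b hp)]
    refine ⟨fun ⟨⟨m, a, b⟩, c⟩ => ⟨m, ?_, b⟩, fun ⟨m, a, b⟩ => ⟨⟨m, h3.mono a.le, b⟩, b ▸ h3 m a⟩⟩
    by_contra hm
    exact hx (h4 ▸ (a.snoc (b ▸ c)) _ (by omega))

end Dom

theorem s_top2 : S_Top2 := by
  classical
  refine fun P τ => ⟨P.ψ_n, fun i j h => ?_, fun e he hd => ⟨s_loop τ _ e he hd, ?_⟩⟩
  · split_ifs with hi
    · rw [P.trK_str h.1 (by have := h.2.1; omega) hi (fun a => h.tin_iff.1 a hi) h.2.2, one_mul]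
    · rw [h.2.2.cls_eq, P.trK_str (q := i + P.n) (by have := h.2.1; omega) (by have := h.1; omega)
        (h.tin_iff.2 hi) (by rwa [P.b_per]) (by rw [P.b_per]; exact h.2.2.symm'), P.ψ_per, P.ψ_n]
      ring
  · have hb : ∀ i, ¬Same τ P.D e (P.b i) := fun i a =>
      Finset.disjoint_left.1 hd ((mem_cls' he).2 a) (P.b_mem_bd i)
    obtain ⟨J, h1, h2⟩ := P.exists_pot (fun x => if Same τ P.D e x then
      (if Even (x.1.1 + x.1.2) then -1 else 1 : ℤ) else 0) 0 (fun t ht => by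
        have a := (same_prt (τ := τ) ht (mem_sd1_iff.2 (Or.inl rfl))).congr (e := e)
        have b := (same_prt (τ := τ) ht (mem_sd1_iff.2 (.inr (.inr (.inl rfl))))).congr (e := e)
        have p1 : Even (t.1 + 1 + t.2) ↔ ¬Even (t.1 + t.2) := by simp only [Int.even_iff]; omega
        have p2 : Even (t.1 + (t.2 + 1)) ↔ ¬Even (t.1 + t.2) := by simp only [Int.even_iff]; omega
        cases hτ : τ t <;>
          simp only [hτ, prt_bot, prt_top, if_true, Bool.false_eq_true, if_false] at a b <;>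
          simp only [a, b] <;> simp only [bot, rgt, lft, top, p1, p2] <;> split_ifs <;> simp_all)
      fun i _ => by simp [hb]
    refine ⟨J, fun x hx => ?_, h2⟩
    have := h1 x hx
    simp only [lv, rv]
    split_ifs at this ⊢ <;> omega

end Pool.Agent.P.MP_6c8efb_pr.Cardy
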