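import Pool.Agent.P.MP_6c8efb_pr.Cardy.NNorm
import Pool.Agent.P.MP_6c8efb_pr.Cardy.NBig
import Pool.Agent.P.MP_6c8efb_pr.Cardy.NPoly
import Pool.Agent.P.MP_6c8efb_pr.Cardy.NSym
import Pool.Agent.P.MP_6c8efb_pr.Cardy.NDet
import Pool.Agent.P.MP_6c8efb_pr.Cardy.NSand
import Pool.Agent.P.MP_6c8efb_pr.Cardy.NGeo
import Pool.Agent.P.MP_6c8efb_pr.Cardy.NMod
import Pool.Agent.P.MP_6c8efb_pr.Cardy.TTurn

/-! The norm bound. -/

namespace Pool.Agent.P.MP_6c8efb_pr.Cardy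

theorem s_NormX : S_NormX :=
  have str := s_NStr s_loop s_top2
  have gen := s_NGen s_top2 str
  have sand := s_NSand s_NBig (s_NPoly s_NBig) (s_NDet str)
  normX s_NSym s_NGeo sand (s_NAlg s_top2 (s_NMod str s_NGeo gen s_NSym sand))
    (s_NDbl s_top2 s_NMir gen)

end Pool.Agent.P.MP_6c8efb_pr.Cardy
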