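import Pool.Agent.P.MP_6c8efb_pr.Cardy.NIface

/-! Local weights of the doubled domains. -/

open Finset
open scoped Real

namespace Pool.Agent.P.MP_6c8efb_pr.Cardy

open Arm (TC)
open DblA

theorem same_loc {τ : TC} {Q D : Finset V} {e : E}
    (h : ∀ f, Same τ Q e f → (f.1 ∈ Q ↔ f.1 ∈ D) ∧ (lo f ∈ Q ↔ lo f ∈ D)) (f : E) :
    Same τ Q e f ↔ Same τ D e f := by
  have k : ∀ y t, Same τ Q e y → y ∈ sd1 t → (t ∈ Q ↔ t ∈ D) := fun y t a b => by
    rcases mem_sd1.1 b with rfl | rfl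
    exacts [(h y a).1, (h y a).2]
  constructor <;> intro a
  · induction a with
    | refl => exact Same.rfl'
    | tail a b ih =>
      obtain ⟨t, b1, b2, rfl⟩ := b
      exact ih.trans' (same_prt ((k _ t a b2).1 b1) b2)
  · induction a with
    | refl => exact Same.rfl'
    | tail _ b ih =>
      obtain ⟨t, b1, b2, rfl⟩ := b
      exact ih.trans' (same_prt ((k _ t ih b2).2 b1) b2)

theorem cw_loc {τ : TC} {Q D : Finset V} {e : E} (γ : E → ℝ)
    (h : ∀ f, Same τ Q e f → (f.1 ∈ Q ↔ f.1 ∈ D) ∧ (lo f ∈ Q ↔ lo f ∈ D)) :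
    cw τ Q γ ∅ (cls τ Q e) = cw τ D γ ∅ (cls τ D e) := by
  have h1 : cls τ D e = cls τ Q e := by
    ext f
    rw [mem_cls, mem_cls, ← same_loc h]
    exact and_congr_left fun a => by rw [mem_sd, mem_sd, (h f a).1, (h f a).2]
  have h2 : cls τ Q e ∩ bd Q = cls τ Q e ∩ bd D := by
    ext f
    rw [mem_inter, mem_inter]
    exact and_congr_right fun a => by
      rw [mem_bd, mem_bd, (h f (mem_cls.1 a).2).1, (h f (mem_cls.1 a).2).2]
  rw [h1, cw, cw, h2, sum_congr rfl fun f a => show θs τ Q γ ∅ f = θs τ D γ ∅ f by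
    obtain ⟨a1, a2⟩ := h f (mem_cls.1 a).2
    unfold θs
    rcases tin_tout f with ⟨b, c⟩ | ⟨b, c⟩ <;> simp only [b, c, a1, a2]]

theorem lw_dbl (hM : S_NMir) (hG : S_NGen) {P P' : Dom} {M : ℕ} (M0 : 0 < M) (hB : P.Blow M P')
    (g w : ℕ → ℝ) (T : ℕ → Prop) [DecidablePred T] (N : ℤ → Prop) {Q : Finset V} {γ : E → ℝ}
    {y : ℤ} {r : ℕ} (hr : r + 1 < M)
    (h0 : ∀ k < P.n, T k → P.wv g k = 1 ∧ P.wv (-g) k = if P.tk k = 0 then 1 else w k)
    (h1 : Q.image (rfT y) = Q) (h2 : ∀ e ∈ bd Q, γ (rfE y e) = γ e)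
    (h3 : ∀ e : E, (∀ f : E, dd e.1 f.1 ≤ r → N f.1.2) ∨
      ∀ f : E, dd e.1 f.1 ≤ r → N (rfE y f).1.2)
    (h5 : ∀ f : E, N f.1.2 → (f.1 ∈ Q ↔ f.1 ∈ P'.D) ∧ (lo f ∈ Q ↔ lo f ∈ P'.D))
    (h6 : ∀ i < P'.n, N (P'.b i).1.2 → γ (P'.b i) = g (i / M))
    (h7 : ∀ k a b, N a → N b → min a b ≤ M * (P.c k).2 → M * (P.c k).2 ≤ max a b → T k)
    (h8 : ∀ k l, T k → T l → rfV y (M • P.c l) ≠ M • P.c k) :
    LW Q γ ((range P.n).filter fun k => P.tk k ≠ 0 ∧ T k) (fun k => rfV y (M • P.c k)) w r := by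
  have bdi : ∀ f : E, N f.1.2 → (f ∈ bd Q ↔ f ∈ bd P'.D) := fun f a => by
    rw [mem_bd, mem_bd, (h5 f a).1, (h5 f a).2]
  have C : ∀ (τ : TC) (γ : E → ℝ) (g : ℕ → ℝ) (e e' : E),
      (∀ i < P'.n, N (P'.b i).1.2 → γ (P'.b i) = g (i / M)) → e ∈ bd Q → e' ∈ bd Q → e ≠ e' →
      Same τ Q e e' → dd e.1 e'.1 < M → (∀ f, Same τ Q e f → N f.1.2) →
      (e.2 = e'.2 ∧ cw τ Q γ ∅ (cls τ Q e) = 1) ∨ ∃ k < P.n, T k ∧
        cw τ Q γ ∅ (cls τ Q e) = P.wv g k ∧ (e.2 = e'.2 ↔ P.tk k = 0) ∧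
        (e.2 = true → e'.2 = false → M • P.c k = (e'.1.1, e.1.2)) := by
    intro τ γ g e e' a6 a1 a2 a3 a4 a5 a7
    have b1 := a7 e Same.rfl'
    have b2 := a7 e' a4
    obtain ⟨i, hi, rfl⟩ := P'.mem_bd_iff.1 ((bdi e b1).1 a1)
    obtain ⟨j, hj, rfl⟩ := P'.mem_bd_iff.1 ((bdi e' b2).1 a2)
    rw [cw_loc γ fun f a => h5 f (a7 f a)]
    refine (hG P P' M g γ τ i j M0 hB hi hj (fun a => a3 (a ▸ rfl))
      ((same_loc (fun f a => h5 f (a7 f a)) _).1 a4) a5 (a6 i hi b1) (a6 j hj b2)).imp_right ?_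
    rintro ⟨k, c1, c2, c3, c4, c5, c6⟩
    exact ⟨k, c1, h7 k _ _ b1 b2 c5 c6, c2, c3, c4⟩
  intro τ e e' a1 a2 a3 a4 a5
  have a6 := a5 e' a4
  rcases h3 e with b | b
  · rcases C τ γ g e e' h6 a1 a2 a3 a4 (by omega) fun f a => b f (a5 f a) with
      c | ⟨k, c1, c2, c3, -, c5⟩
    · exact ⟨fun _ => c.2, fun d1 d2 => by simp [d1, d2] at c⟩
    · rw [c3, (h0 k c1 c2).1]
      exact ⟨fun _ => rfl, fun d1 d2 => Or.inr ⟨fun l hl =>
        c5 d1 d2 ▸ h8 k l c2 (mem_filter.1 hl).2.2, rfl⟩⟩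
  · obtain ⟨m1, m2⟩ := hM τ Q γ y e
    have m3 : ∀ f ∈ bd Q, rfE y f ∈ bd Q := fun f a => by
      rw [← h1, bd_rf]; exact mem_image_of_mem _ a
    rw [h1] at m1 m2
    rw [← m2]
    rcases C (fun t => !τ (rfT y t)) (fun f => -γ (rfE y f)) (-g) (rfE y e) (rfE y e')
      (fun i hi a => by
        simp only [h2 _ ((bdi _ a).2 (P'.b_mem_bd i)), h6 i hi a, Pi.neg_apply])
      (m3 e a1) (m3 e' a2) ((rfE_inv y).injective.ne a3) ((m1 e').2 a4)
      (by
        simp only [dd, rfE, abs_eq_max_neg] at a6 ⊢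
        split_ifs <;> omega)
      (fun f a => by
        rw [← rfE_inv y f] at a ⊢
        exact b _ (a5 _ ((m1 _).1 a))) with c | ⟨k, c1, c2, c3, c4, c5⟩
    · exact ⟨fun _ => c.2, fun d1 d2 => by simp [rfE, d1, d2] at c⟩
    · rw [c3, (h0 k c1 c2).2]
      refine ⟨fun d => if_pos (c4.1 d), fun d1 d2 => Or.inl ?_⟩
      have d3 : P.tk k ≠ 0 := fun d => by simpa [rfE, d1, d2] using c4.2 d
      exact ⟨k, mem_filter.2 ⟨mem_range.2 c1, d3, c2⟩, by
        simp only [c5 d1 d2]; simp [rfV, rfE, d1], if_neg d3⟩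

namespace Dom

variable {P P' : Dom} {M i s : ℕ}

theorem Blow.c_eq (h : P.Blow M P') (M0 : 0 < M) (i : ℕ) :
    P'.c i = M • P.c (i / M) + ((i % M : ℕ) : ℤ) • u (P.dir (i / M)) := by
  rw [← h.c' _ (Nat.mod_lt i M0).le, Nat.div_add_mod]

theorem Blow.wall (h : P.Blow M P') (hi : i < P'.n) {q a : ℤ} (h1 : q * M < (P'.b i).1.2)
    (h2 : (P'.b i).1.2 < (q + 1) * M) (h3 : q * M ≤ a) (h4 : a < (q + 1) * M) :
    (P'.b i).2 = false ∧ ∃ j < P'.n, j / M = i / M ∧ P'.b j = (((P'.b i).1.1, a), false) := by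
  have M0 : 0 < M := by
    rcases Nat.eq_zero_or_pos M with rfl | a
    · omega
    · exact a
  have M1 : (0 : ℤ) < M := by exact_mod_cast M0
  have e0 := Nat.mod_lt i M0
  have e1 : i / M < P.n := by rw [Nat.div_lt_iff_lt_mul M0, mul_comm, ← h.n]; exact hi
  have e2 : ∀ r < M, M * (i / M) + r < P'.n ∧ (M * (i / M) + r) / M = i / M := fun r hr =>
    ⟨by rw [h.n]; nlinarith, by rw [Nat.mul_add_div M0, Nat.div_eq_of_lt hr, add_zero]⟩
  have e3 : ∀ c : ℤ, q * M < M * c + M → M * c < (q + 1) * M → c = q := fun c b1 b2 => by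
    have : q < c + 1 := by nlinarith
    have : c < q + 1 := by nlinarith
    omega
  simp only [Dom.b, h.c_eq M0 i, h.dir i] at h1 h2 ⊢
  rcases cases4 (P.dir (i / M)) with d | d | d | d <;> simp [d] at h1 h2 ⊢
  · have := e3 _ (by omega) h2
    rw [this] at h1
    linarith
  · obtain ⟨r, hr⟩ := Int.eq_ofNat_of_zero_le (sub_nonneg.2 h3)
    have b := e3 (P.c (i / M)).2 (by omega) (by omega)
    have c : r < M := by nlinarith
    refine ⟨_, (e2 r c).1, (e2 r c).2, ?_⟩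
    rw [h.c' _ c.le, h.dir' _ c, d]
    simp [Prod.ext_iff, b]
    linarith
  · have := e3 _ (by omega) h2
    rw [this] at h1
    linarith
  · obtain ⟨r, hr⟩ := Int.eq_ofNat_of_zero_le (show 0 ≤ (q + 1) * M - 1 - a by omega)
    have b := e3 ((P.c (i / M)).2 - 1) (by rw [mul_sub]; omega) (by rw [mul_sub]; omega)
    have c : r < M := by nlinarith
    refine ⟨_, (e2 r c).1, (e2 r c).2, ?_⟩
    rw [h.c' _ c.le, h.dir' _ c, d]
    simp [Prod.ext_iff, ← b] at hr ⊢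
    linarith

theorem Blow.twist (h : P.Blow M P') (M0 : 0 < M) (hs : P'.dir s = 3) (i : ℕ) :
    ((P'.b i).1.2 < (P'.c s).2 → (s ≤ i ↔ s / M ≤ i / M)) ∧
    ((P'.c s).2 ≤ (P'.b i).1.2 → (s ≤ i ↔ s / M + 1 ≤ i / M)) := by
  have a1 : s ≤ i → s / M ≤ i / M := Nat.div_le_div_right
  have a2 : i ≤ s → i / M ≤ s / M := Nat.div_le_div_right
  by_cases b : i / M = s / M
  · have a3 := Nat.div_add_mod i M
    have a4 := Nat.div_add_mod s M
    rw [h.dir] at hs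
    rw [b] at a3
    simp only [Dom.b, h.c_eq M0 i, h.c_eq M0 s, h.dir i, b, hs]
    generalize i % M = r at *
    generalize s % M = r' at *
    simp
    omega
  · omega

theorem ang_b (g : ℕ → ℝ) (hi : i < P.n) : P.ang g (P.b i) = g i := by
  rw [ang, sum_eq_single_of_mem i (by simpa using hi) fun j hj hne =>
    absurd (P.b_inj (mem_range.1 (mem_filter.1 hj).1) hi (mem_filter.1 hj).2) hne]

theorem cvx_iff (k : ℕ) : P.Cvx k ↔ P.tk k = 1 := by
  rw [Cvx, tk, tn, P.per]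
  split_ifs with a <;> simp [a]

theorem tk_cases (k : ℕ) : P.tk k = 1 ∨ P.tk k = 0 ∨ P.tk k = -1 := by
  rw [tk, tn]
  split_ifs <;> simp

theorem gam_jump (h4 : P.ψ P.n = 4) {k₁ k₂ k : ℕ} (h : Mk P k₁ k₂) (hs : s ≤ P.n) (hk : k < P.n)
    (hne : P.c k ≠ P.c s) : P.gam k₁ k₂ s k - P.gam k₁ k₂ s ((k + P.n - 1) % P.n) =
      π / 3 * (-(P.tk k : ℝ) / 4 + if k ∈ ({0, k₁, k₂} : Finset ℕ) then 1 else 0) := by
  obtain ⟨h1, h2, h3⟩ := h
  have a1 : k ≠ s := by rintro rfl; exact hne rfl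
  have st : ∀ m, P.ψ (m + 1) = P.ψ m + tn (P.dir m) (P.dir (m + 1)) := fun m => sum_range_succ _ m
  cases k with
  | zero =>
    have a2 : s ≠ P.n := by rintro rfl; exact hne P.close.symm
    obtain ⟨m, hm⟩ : ∃ m, P.n = m + 1 := ⟨P.n - 1, by omega⟩
    have a3 : (P.ψ m : ℝ) = 4 - P.tk 0 := by
      have := st m
      rw [← hm, h4, ← zero_add P.n, P.per] at this
      rw [tk, show 0 + P.n - 1 = m by omega]
      exact_mod_cast (by omega : P.ψ m = 4 - tn (P.dir m) (P.dir 0))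
    rw [show (0 + P.n - 1) % P.n = m by rw [Nat.mod_eq_of_lt] <;> omega, gam, gam, a3, arc, arc,
      if_pos h1, if_neg (by omega : ¬s ≤ 0), if_neg (by omega : ¬m < k₁),
      if_neg (by omega : ¬m < k₂), if_pos (by omega : s ≤ m), if_pos (by simp)]
    simp [ψ]
    ring
  | succ k =>
    have a3 : (P.ψ (k + 1) : ℝ) = P.ψ k + P.tk (k + 1) := by
      rw [st, tk, show k + 1 + P.n - 1 = k + P.n by omega, P.per]
      push_cast
      rfl
    rw [show (k + 1 + P.n - 1) % P.n = k by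
      rw [show k + 1 + P.n - 1 = k + P.n by omega, Nat.add_mod_right, Nat.mod_eq_of_lt (by omega)],
      gam, gam, a3, arc, arc]
    simp only [mem_insert, mem_singleton, Nat.succ_ne_zero, false_or]
    split_ifs <;> first | omega | (push_cast; ring)

theorem wv_gam (h4 : P.ψ P.n = 4) {k₁ k₂ k : ℕ} (h : MkC P k₁ k₂) (hs : s ≤ P.n) (hk : k < P.n)
    (hne : P.c k ≠ P.c s) : P.wv (P.gam k₁ k₂ s) k = 1 ∧
      P.wv (-P.gam k₁ k₂ s) k = if P.tk k = 0 then 1 else P.wm {0, k₁, k₂} k := by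
  have a := gam_jump h4 h.1 hs hk hne
  have r3 : (√3 : ℝ) ≠ 0 := by positivity
  have c6 : 2 / √3 * Real.cos (π / 6) = 1 := by rw [Real.cos_pi_div_six]; field_simp
  have c3 : 2 / √3 * Real.cos (π / 3) = 1 / √3 := by rw [Real.cos_pi_div_three]; field_simp
  rw [wv, wv, Pi.neg_apply, Pi.neg_apply, ← neg_sub', a, wm]
  by_cases b : k ∈ ({0, k₁, k₂} : Finset ℕ)
  · have t : P.tk k = 1 := by
      rw [← cvx_iff]
      simp only [mem_insert, mem_singleton] at b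
      rcases b with rfl | rfl | rfl
      exacts [h.2.1, h.2.2.1, h.2.2.2]
    rw [if_pos b, if_neg (by omega), if_neg fun c => c.2 b, t]
    refine ⟨Eq.trans ?_ c6, Eq.trans ?_ c3⟩
    · congr 2; push_cast; ring
    · rw [← Real.cos_neg (π / 3)]; congr 2; push_cast; ring
  · rw [if_neg b]
    refine ⟨by rw [← c6, ← Real.cos_neg (π / 6)]; congr 2; ring, ?_⟩
    rcases tk_cases (P := P) k with t | t | t <;> rw [t]
    · rw [if_neg (by omega), if_pos ⟨rfl, b⟩, show π / 12 * (((1 : ℤ) : ℝ) - 2) +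
        -(π / 3 * (-((1 : ℤ) : ℝ) / 4 + 0)) = 0 by push_cast; ring, Real.cos_zero, mul_one]
    · rw [if_pos rfl, ← c6, ← Real.cos_neg (π / 6)]; congr 2; push_cast; ring
    · rw [if_neg (by omega), if_neg (by omega), ← c3, ← Real.cos_neg (π / 3)]
      congr 2; push_cast; ring

end Dom

theorem mem_dbl {R : Finset V} {y : ℤ} {t : V} : t ∈ dbl R y ↔ t ∈ R ∨ rfT y t ∈ R := by
  rw [dbl, mem_union, mem_im (rfT_inv y)]

theorem dbl_rf (R : Finset V) (y : ℤ) : (dbl R y).image (rfT y) = dbl R y := by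
  ext t
  rw [mem_im (rfT_inv y), mem_dbl, mem_dbl, rfT_inv, or_comm]

theorem s_NDbl (hT : S_Top2) (hM : S_NMir) (hG : S_NGen) : S_NDbl := by
  intro P P' M k₁ k₂ s ρ q y hk hB y1 y2 hs hd s1 s2
  have M1 : (0 : ℤ) < M := by nlinarith
  have M0 : 0 < M := by exact_mod_cast M1
  have hr : 2 * ρ + 1 < M := by
    have : (2 * ρ + 1 : ℤ) < M := by nlinarith
    exact_mod_cast this
  have h4 := (hT P fun _ => true).1
  have strip : ∀ x a b : ℤ, q * M ≤ a → a < (q + 1) * M → q * M ≤ b → b < (q + 1) * M →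
      ((x, a) ∈ P'.D ↔ (x, b) ∈ P'.D) := fun x a b a1 a2 b1 b2 => by
    rw [hB.mem M0, hB.mem M0, (div_iff M1).2 (show M * q ≤ a ∧ a < M * q + M by
      constructor <;> linarith), (div_iff M1).2 (show M * q ≤ b ∧ b < M * q + M by
      constructor <;> linarith)]
  have sn : s / M < P.n := by rw [Nat.div_lt_iff_lt_mul M0, mul_comm, ← hB.n]; exact hs
  have sq : (P.c (s / M)).2 = q + 1 ∧ (P.c (s / M + 1)).2 = q := by
    have a := Nat.mod_lt s M0
    rw [hB.dir] at hd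
    rw [hB.c_eq M0, hd] at s1 s2
    rw [P.step, hd]
    generalize s % M = r at *
    simp at s1 s2 ⊢
    have : q < (P.c (s / M)).2 := by nlinarith
    have : (P.c (s / M)).2 - 1 < q + 1 := by nlinarith
    omega
  have gm : ∀ s' i, i < P'.n → (s ≤ i ↔ s' ≤ i / M) →
      P'.ang (P'.gam (M * k₁) (M * k₂) s) (P'.b i) = P.gam k₁ k₂ s' (i / M) := fun s' i hi a => by
    simp only [Dom.ang_b _ hi, Dom.gam, hB.ψ, arc_blow M0, a]
  have sy : ∀ R, ∀ e ∈ bd (dbl R y), (rfE y e).1.2 < y ↔ ¬e.1.2 < y := fun R ⟨⟨a, b⟩, c⟩ he => by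
    cases c
    · simp [rfE]; omega
    · have : b ≠ y := by
        rintro rfl
        simp [mem_bd, mem_dbl, lo, rfT, or_comm, show 2 * b - 1 - b = b - 1 by ring,
          show 2 * b - 1 - (b - 1) = b by ring] at he
      simp [rfE]; omega
  have mq : ∀ c : ℤ, (c ≤ q ↔ M * c ≤ q * M) ∧ (q < c ↔ (q + 1) * M ≤ M * c) := fun c =>
    ⟨⟨fun a => by nlinarith, fun a => by nlinarith⟩, fun a => by nlinarith, fun a => by nlinarith⟩
  refine ⟨fun sy' => lw_dbl hM hG M0 hB (P.gam k₁ k₂ (s / M)) _ (fun k => (P.c k).2 ≤ q)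
    (fun b => b ≤ y + 2 * ρ) hr (fun k a b => Dom.wv_gam h4 hk sn.le a fun c => ?_)
    (dbl_rf _ y) (fun e he => ?_) (fun e => ?_) (fun f a => ?_) (fun i hi a => ?_)
    (fun k a b c d e f => ?_) fun k l a b c => ?_,
    fun sy' => lw_dbl hM hG M0 hB (P.gam k₁ k₂ (s / M + 1)) _ (fun k => q < (P.c k).2)
    (fun b => y - 2 * ρ ≤ b) hr (fun k a b => Dom.wv_gam h4 hk sn a fun c => ?_)
    (dbl_rf _ y) (fun e he => ?_) (fun e => ?_) (fun f a => ?_) (fun i hi a => ?_)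
    (fun k a b c d e f => ?_) fun k l a b c => ?_⟩
  · rw [c] at b; omega
  · simp only [sy _ e he, rfE_inv y e]
    split_ifs <;> rfl
  · refine (lt_or_ge e.1.2 y).imp (fun a f b => ?_) fun a f b => ?_ <;>
      simp only [dd, rfE, abs_eq_max_neg] at b ⊢ <;> (try split_ifs) <;> omega
  · have k : ∀ t : V, t.2 ≤ y + 2 * ρ → (t ∈ dbl (below P'.D y) y ↔ t ∈ P'.D) := fun t b => by
      simp only [mem_dbl, below, mem_filter, rfT]
      by_cases c : t.2 < y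
      · simp [c, show ¬2 * y - 1 - t.2 < y by omega]
      · rw [strip t.1 (2 * y - 1 - t.2) t.2 (by omega) (by omega) (by omega) (by omega)]
        simp [c, show 2 * y - 1 - t.2 < y by omega]
    exact ⟨k _ a, k _ (by unfold lo; split_ifs <;> simp only <;> omega)⟩
  · split_ifs with b
    · exact gm _ i hi ((hB.twist M0 hd i).1 (by omega))
    · obtain ⟨c, j, j1, j2, j3⟩ := hB.wall hi (q := q) (a := 2 * y - 1 - (P'.b i).1.2) (by omega)
        (by omega) (by omega) (by omega)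
      rw [show rfE y (P'.b i) = P'.b j by simp [j3, rfE, c], ← j2]
      exact gm _ j j1 ((hB.twist M0 hd j).1 (by rw [j3]; simp only; omega))
  · have := (mq (P.c k).2).2
    omega
  · have := (mq (P.c k).2).1.1 a
    have := (mq (P.c l).2).1.1 b
    simp [rfV, Prod.ext_iff] at c
    omega
  · rw [c] at b; omega
  · simp only [sy _ e he, rfE_inv y e]
    split_ifs <;> rfl
  · refine (le_or_gt y e.1.2).imp (fun a f b => ?_) fun a f b => ?_ <;>
      simp only [dd, rfE, abs_eq_max_neg] at b ⊢ <;> (try split_ifs) <;> omega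
  · have k : ∀ t : V, y - 2 * ρ - 1 ≤ t.2 → (t ∈ dbl (above P'.D y) y ↔ t ∈ P'.D) := fun t b => by
      simp only [mem_dbl, above, mem_filter, rfT]
      by_cases c : y ≤ t.2
      · simp [c, show ¬y ≤ 2 * y - 1 - t.2 by omega]
      · rw [strip t.1 (2 * y - 1 - t.2) t.2 (by omega) (by omega) (by omega) (by omega)]
        simp [c, show y ≤ 2 * y - 1 - t.2 by omega]
    exact ⟨k _ (by omega), k _ (by unfold lo; split_ifs <;> simp only <;> omega)⟩
  · split_ifs with b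
    · obtain ⟨c, j, j1, j2, j3⟩ := hB.wall hi (q := q) (a := 2 * y - 1 - (P'.b i).1.2) (by omega)
        (by omega) (by omega) (by omega)
      rw [show rfE y (P'.b i) = P'.b j by simp [j3, rfE, c], ← j2]
      exact gm _ j j1 ((hB.twist M0 hd j).2 (by rw [j3]; simp only; omega))
    · exact gm _ i hi ((hB.twist M0 hd i).2 (by omega))
  · have := (mq (P.c k).2).1
    omega
  · have := (mq (P.c k).2).2.1 a
    have := (mq (P.c l).2).2.1 b
    simp [rfV, Prod.ext_iff] at c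
    omega

end Pool.Agent.P.MP_6c8efb_pr.Cardy
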