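import Pool.Agent.P.MP_6c8efb_pr.Cardy.LDbl
import Pool.Agent.P.MP_6c8efb_pr.Cardy.LExp
import Pool.Agent.P.MP_6c8efb_pr.Cardy.TIface
import Pool.Agent.P.MP_6c8efb_pr.Cardy.TBlow
import Pool.Agent.P.MP_6c8efb_pr.Cardy.TInn

/-! The norm bound: definitions, statements of the steps and basic lemmas. -/

open MeasureTheory Finset
open scoped Real

namespace Pool.Agent.P.MP_6c8efb_pr.Cardy

open Arm (TC)

/-- the tiles of the box of radius `ρ` around the vertex `x` -/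
noncomputable def Bx (x : V) (ρ : ℕ) : Finset V :=
  Ico (x.1 - ρ) (x.1 + ρ) ×ˢ Ico (x.2 - ρ) (x.2 + ρ)

/-- the strands and loops of `U` -/
noncomputable def clss (τ : TC) (U : Finset V) : Finset (Finset E) := (sd U).image (cls τ U)

/-- a set of sides of diameter at least `ρ` -/
def Lrg (ρ : ℕ) (K : Finset E) : Prop := ∃ e ∈ K, ∃ e' ∈ K, (ρ : ℤ) ≤ dd e.1 e'.1

/-- a set of sides containing boundary sides on both lines through `x` -/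
def Crn (U : Finset V) (x : V) (K : Finset E) : Prop :=
  (∃ e ∈ K, e ∈ bd U ∧ e.2 = true ∧ e.1.2 = x.2) ∧ ∃ e ∈ K, e ∈ bd U ∧ e.2 = false ∧ e.1.1 = x.1

open Classical in
/-- the number of big classes -/
noncomputable def nb (U : Finset V) (ρ : ℕ) (τ : TC) : ℕ := ((clss τ U).filter (Lrg ρ)).card

open Classical in
/-- the number of strands round the corner `x` -/
noncomputable def nc (U : Finset V) (x : V) (τ : TC) : ℕ := ((clss τ U).filter (Crn U x)).card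

/-- the mean of the product of the weights -/
noncomputable def Zc (Q : Finset V) (γ : E → ℝ) : ℝ :=
  ∫ τ, ∏ K ∈ clss τ Q, cw τ Q γ ∅ K ∂PM fun _ => hf

/-- the factor of a corner -/
noncomputable def fac (U : Finset V) (x : V) (w : ℝ) : ℝ := ∫ τ, w ^ nc U x τ ∂PM fun _ => hf

/-- the factors of the convex and of the reflex model corner -/
noncomputable def fA (ρ : ℕ) (w : ℝ) : ℝ := fac ((Bx 0 ρ).filter fun t => 0 ≤ t.1 ∧ 0 ≤ t.2) 0 w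
noncomputable def fR (ρ : ℕ) (w : ℝ) : ℝ := fac ((Bx 0 ρ).filter fun t => ¬(0 ≤ t.1 ∧ 0 ≤ t.2)) 0 w

/-- the strands of radius at most `r` weigh `w k` round the corner `x k`, `k ∈ J`, and `1` else -/
def LW (Q : Finset V) (γ : E → ℝ) (J : Finset ℕ) (x : ℕ → V) (w : ℕ → ℝ) (r : ℕ) : Prop :=
  ∀ (τ : TC) (e e' : E), e ∈ bd Q → e' ∈ bd Q → e ≠ e' → Same τ Q e e' →
    (∀ f, Same τ Q e f → dd e.1 f.1 ≤ r) → (e.2 = e'.2 → cw τ Q γ ∅ (cls τ Q e) = 1) ∧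
    (e.2 = true → e'.2 = false →
      (∃ k ∈ J, x k = (e'.1.1, e.1.2) ∧ cw τ Q γ ∅ (cls τ Q e) = w k) ∨
      ((∀ k ∈ J, x k ≠ (e'.1.1, e.1.2)) ∧ cw τ Q γ ∅ (cls τ Q e) = 1))

/-- near `x` the set `Q` is a quadrant (`c` true) or the complement of a quadrant (`c` false) -/
def Shp (Q : Finset V) (x : V) (ρ : ℕ) (c : Prop) : Prop :=
  ∃ p q : Prop, ∀ t ∈ Bx x ρ, (t ∈ Q ↔ c) ↔ (x.1 ≤ t.1 ↔ p) ∧ (x.2 ≤ t.2 ↔ q)

/-- the turn of the boundary at the vertex `c k` -/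
def Dom.tk (P : Dom) (k : ℕ) : ℤ := tn (P.dir (k + P.n - 1)) (P.dir k)

/-- the weight of a small strand round the vertex `c k` when the angle on the side `i` is `g i` -/
noncomputable def Dom.wv (P : Dom) (g : ℕ → ℝ) (k : ℕ) : ℝ :=
  2 / √3 * Real.cos (π / 12 * (P.tk k - 2) + (g k - g ((k + P.n - 1) % P.n)))

/-- the weight of a small strand round a mirrored corner, `S` being the set of marks -/
noncomputable def Dom.wm (P : Dom) (S : Finset ℕ) (k : ℕ) : ℝ :=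
  if P.tk k = 1 ∧ k ∉ S then 2 / √3 else 1 / √3

/-- the factor of a mirrored corner -/
noncomputable def Dom.vf (P : Dom) (S : Finset ℕ) (ρ k : ℕ) : ℝ :=
  if P.tk k = 1 then fA ρ (P.wm S k) else if P.tk k = 0 then 1 else fR ρ (P.wm S k)

/-- the reflection of vertices -/
def rfV (y : ℤ) (v : V) : V := (v.1, 2 * y - v.2)

/-! ### Statements -/

def S_NBig : Prop := ∀ (z : ℝ) (K : ℕ), 1 ≤ z → ∃ C : ℝ, ∀ (U : Finset V) (x : V) (ρ : ℕ),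
  U ⊆ Bx x (K * (ρ + 1)) → ∫ τ, z ^ nb U ρ τ ∂PM (fun _ => hf) ≤ C

def S_NPoly : Prop := ∀ z : ℝ, 1 ≤ z → ∃ c : ℕ, ∀ (U : Finset V) (x : V) (ρ : ℕ),
  U ⊆ Bx x ρ → fac U x z ≤ ((ρ : ℝ) + 2) ^ c

def S_NSym : Prop := ∀ (Q : Finset V) (x : V) (ρ : ℕ) (w : ℝ),
  (Shp Q x ρ True → fac (Q ∩ Bx x ρ) x w = fA ρ w) ∧
  (Shp Q x ρ False → fac (Q ∩ Bx x ρ) x w = fR ρ w)

def S_NMir : Prop := ∀ (τ : TC) (Q : Finset V) (γ : E → ℝ) (y : ℤ) (e : E),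
  (∀ f, Same (fun t => !τ (rfT y t)) (Q.image (rfT y)) (rfE y e) (rfE y f) ↔ Same τ Q e f) ∧
  cw (fun t => !τ (rfT y t)) (Q.image (rfT y)) (fun f => -γ (rfE y f)) ∅
    (cls (fun t => !τ (rfT y t)) (Q.image (rfT y)) (rfE y e)) = cw τ Q γ ∅ (cls τ Q e)

def S_NDet : Prop := ∀ (Q : Finset V) (γ : E → ℝ) (J : Finset ℕ) (x : ℕ → V) (w : ℕ → ℝ) (ρ : ℕ)
  (τ : TC), LW Q γ J x w (2 * ρ) → (∀ k ∈ J, ∀ l ∈ J, x k = x l → k = l) →
  ∃ S ⊆ clss τ Q, S.card ≤ nb Q ρ τ ∧ ∏ K ∈ clss τ Q, cw τ Q γ ∅ K =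
    (∏ k ∈ J, w k ^ nc (Q ∩ Bx (x k) ρ) (x k) τ) * ∏ K ∈ S, cw τ Q γ ∅ K

def S_NSand : Prop := ∀ (η : ℝ) (K : ℕ), 0 < η → ∃ C : ℝ, 0 < C ∧ ∀ (Q : Finset V) (γ : E → ℝ)
  (J : Finset ℕ) (x : ℕ → V) (w : ℕ → ℝ) (ρ : ℕ) (x₀ : V), Q ⊆ Bx x₀ (K * (ρ + 1)) → J.card ≤ K →
  (∀ k ∈ J, ∀ l ∈ J, k ≠ l → (2 * ρ : ℤ) < dd (x k) (x l)) → (∀ k ∈ J, 1 / 2 ≤ w k ∧ w k ≤ 2) →
  LW Q γ J x w (2 * ρ) →
  |Zc Q γ| ≤ C * ((ρ : ℝ) + 1) ^ η * ∏ k ∈ J, fac (Q ∩ Bx (x k) ρ) (x k) (w k) ∧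
  ((∀ τ, ∀ K ∈ clss τ Q, 1 / 2 ≤ cw τ Q γ ∅ K) →
    ∏ k ∈ J, fac (Q ∩ Bx (x k) ρ) (x k) (w k) ≤ C * ((ρ : ℝ) + 1) ^ η * Zc Q γ)

/-- weights of loops and strands -/
def S_NStr : Prop := (∀ (τ : TC) (D : Finset V) (γ : E → ℝ), ∀ e ∈ sd D,
    Disjoint (cls τ D e) (bd D) → cw τ D γ ∅ (cls τ D e) = 1) ∧
  ∀ (P : Dom) (τ : TC) (γ : E → ℝ) (i j : ℕ), P.Str τ i j → cw τ P.D γ ∅ (cls τ P.D (P.b i)) =
    2 / √3 * Real.cos (π / 12 * (P.ψ j - P.ψ i - 2) + (γ (P.b j) - γ (P.b i)))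

/-- geometry of blow-ups -/
def S_NGeo : Prop := ∀ (P P' : Dom) (M : ℕ), 0 < M → P.Blow M P' →
  (∀ i j, i < j → j < P'.n → dd (P'.b i).1 (P'.b j).1 < M →
    j / M = i / M ∨ j / M = i / M + 1 ∨ (i / M = 0 ∧ j / M + 1 = P.n)) ∧
  ∀ k < P.n, ∀ ρ ≤ M, P.tk k ≠ 0 → Shp P'.D (M • P.c k) ρ (P.tk k = 1)

/-- weights of small strands of blow-ups -/
def S_NGen : Prop := ∀ (P P' : Dom) (M : ℕ) (g : ℕ → ℝ) (γ : E → ℝ) (τ : TC) (i j : ℕ), 0 < M →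
  P.Blow M P' → i < P'.n → j < P'.n → i ≠ j → Same τ P'.D (P'.b i) (P'.b j) →
  dd (P'.b i).1 (P'.b j).1 < M → γ (P'.b i) = g (i / M) → γ (P'.b j) = g (j / M) →
  ((P'.b i).2 = (P'.b j).2 ∧ cw τ P'.D γ ∅ (cls τ P'.D (P'.b i)) = 1) ∨
  ∃ k < P.n, cw τ P'.D γ ∅ (cls τ P'.D (P'.b i)) = P.wv g k ∧
    ((P'.b i).2 = (P'.b j).2 ↔ P.tk k = 0) ∧
    ((P'.b i).2 = true → (P'.b j).2 = false → M • P.c k = ((P'.b j).1.1, (P'.b i).1.2)) ∧
    min (P'.b i).1.2 (P'.b j).1.2 ≤ M * (P.c k).2 ∧ M * (P.c k).2 ≤ max (P'.b i).1.2 (P'.b j).1.2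

/-- the two relations between the factors of the model corners -/
def S_NMod : Prop := ∀ η : ℝ, 0 < η → ∃ C : ℝ, 0 < C ∧ ∀ ρ : ℕ,
  fA ρ (2 / √3) ^ 3 * fA ρ (1 / √3) ≤ C * ((ρ : ℝ) + 1) ^ η ∧
  fA ρ (2 / √3) * fR ρ (1 / √3) ≤ C * ((ρ : ℝ) + 1) ^ η

/-- the product of the factors of all corners -/
def S_NAlg : Prop := ∀ (P : Dom) (k₁ k₂ : ℕ) (η : ℝ), MkC P k₁ k₂ → 0 < η → ∃ C : ℝ, ∀ ρ : ℕ,
  ∏ k ∈ range P.n, P.vf {0, k₁, k₂} ρ k ≤ C * ((ρ : ℝ) + 1) ^ η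

/-- the local weights of the doubled domains -/
def S_NDbl : Prop := ∀ (P P' : Dom) (M k₁ k₂ s ρ : ℕ) (q y : ℤ), MkC P k₁ k₂ → P.Blow M P' →
  q * M + 2 * ρ + 1 ≤ y → y + 2 * ρ + 1 ≤ (q + 1) * M → s < P'.n → P'.dir s = 3 →
  q * M < (P'.c s).2 → (P'.c s).2 < (q + 1) * M →
  (y ≤ (P'.c s).2 → LW (dbl (below P'.D y) y) (fun e =>
    if e.1.2 < y then P'.ang (P'.gam (M * k₁) (M * k₂) s) e
    else P'.ang (P'.gam (M * k₁) (M * k₂) s) (rfE y e))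
    ((range P.n).filter fun k => P.tk k ≠ 0 ∧ (P.c k).2 ≤ q) (fun k => rfV y (M • P.c k))
    (P.wm {0, k₁, k₂}) (2 * ρ)) ∧
  ((P'.c s).2 ≤ y → LW (dbl (above P'.D y) y) (fun e =>
    if e.1.2 < y then P'.ang (P'.gam (M * k₁) (M * k₂) s) (rfE y e)
    else P'.ang (P'.gam (M * k₁) (M * k₂) s) e)
    ((range P.n).filter fun k => P.tk k ≠ 0 ∧ q < (P.c k).2) (fun k => rfV y (M • P.c k))
    (P.wm {0, k₁, k₂}) (2 * ρ))

/-! ### Basic lemmas -/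

variable {τ τ' : TC} {U Q : Finset V} {x t : V} {ρ : ℕ} {e : E} {K : Finset E} {γ : E → ℝ}

theorem mem_Bx : t ∈ Bx x ρ ↔
    x.1 - ρ ≤ t.1 ∧ t.1 < x.1 + ρ ∧ x.2 - ρ ≤ t.2 ∧ t.2 < x.2 + ρ := by
  simp only [Bx, mem_product, mem_Ico, and_assoc]

theorem mem_clss : K ∈ clss τ U ↔ ∃ e ∈ sd U, cls τ U e = K := mem_image

theorem cls_congr (h : ∀ t ∈ U, τ t = τ' t) (e : E) : cls τ U e = cls τ' U e := by
  ext f
  rw [mem_cls, mem_cls]
  exact and_congr_right fun _ =>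
    ⟨fun a => a.mono subset_rfl h, fun a => a.mono subset_rfl fun t ht => (h t ht).symm⟩

theorem dep_clss (U : Finset V) : DependsOn (fun τ => clss τ U) U := fun _ _ h =>
  image_congr fun e _ => cls_congr h e

theorem dep_nb (U : Finset V) (ρ : ℕ) : DependsOn (nb U ρ) U := fun _ _ h => by
  simp only [nb, show clss _ U = clss _ U from dep_clss U h]

theorem dep_nc (U : Finset V) (x : V) : DependsOn (nc U x) U := fun _ _ h => by
  simp only [nc, show clss _ U = clss _ U from dep_clss U h]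

theorem locF_nb (U : Finset V) (ρ : ℕ) : LocF (nb U ρ) := ⟨U, U.finite_toSet, dep_nb U ρ⟩
theorem locF_nc (U : Finset V) (x : V) : LocF (nc U x) := ⟨U, U.finite_toSet, dep_nc U x⟩

theorem cw_congr (h : ∀ t ∈ Q, τ t = τ' t) (K : Finset E) : cw τ Q γ ∅ K = cw τ' Q γ ∅ K := by
  unfold cw
  rw [sum_congr rfl fun e _ => show θs τ Q γ ∅ e = θs τ' Q γ ∅ e by
    unfold θs trn
    by_cases c : tin e ∈ Q
    · rw [h _ c]
    · rw [if_neg c, if_neg c]]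

theorem locF_cw (Q : Finset V) (γ : E → ℝ) : LocF fun τ => ∏ K ∈ clss τ Q, cw τ Q γ ∅ K :=
  ⟨Q, Q.finite_toSet, fun _ _ h => by
    simp only [show clss _ Q = clss _ Q from dep_clss Q h]
    exact prod_congr rfl fun K _ => cw_congr h K⟩

theorem abs_cw_le (τ : TC) (Q : Finset V) (γ : E → ℝ) (K : Finset E) : |cw τ Q γ ∅ K| ≤ 2 := by
  rw [cw, abs_mul, abs_mul, abs_of_nonneg (by positivity), abs_two, ← one_mul (2 : ℝ), mul_assoc]
  refine mul_le_mul (Real.rpow_le_one_of_one_le_of_nonpos (by norm_num) ?_) ?_ (by positivity)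
    zero_le_one
  · rw [neg_div, neg_nonpos]; positivity
  · have := Real.abs_cos_le_one (∑ e ∈ K, θs τ Q γ ∅ e)
    linarith

theorem Zv_eq_Zc (Q : Finset V) (γ : E → ℝ) (a : E → Bool) : Zv Q ∅ γ a = Zc Q γ := by
  rw [(s_Exp Q γ).1 a, Zc, ← integral_complex_ofReal]
  simp only [clss, Complex.ofReal_prod]

theorem Zc_neg (Q : Finset V) (γ : E → ℝ) : Zc Q (-γ) = Zc Q γ := by
  have := Zv_neg Q γ fun _ => true
  rw [Zv_eq_Zc, Zv_eq_Zc] at this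
  exact_mod_cast this

theorem LocF.prod' {ι κ : Type*} (s : Finset κ) {f : κ → (ι → Bool) → ℝ} (h : ∀ k ∈ s, LocF (f k)) :
    LocF fun ω => ∏ k ∈ s, f k ω := by
  classical
  induction s using Finset.induction_on with
  | empty => simpa using locF_const (1 : ℝ)
  | insert a s ha ih =>
    simp only [prod_insert ha]
    exact (h a (mem_insert_self ..)).comp₂ (ih fun k hk => h k (mem_insert_of_mem hk)) (· * ·)

theorem integral_prod_indep {ι κ : Type*} (p : ι → unitInterval) (s : Finset κ)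
    {f : κ → (ι → Bool) → ℝ} {S : κ → Set ι} (hf : ∀ k ∈ s, LocF (f k))
    (hS : ∀ k ∈ s, DependsOn (f k) (S k))
    (hd : ∀ k ∈ s, ∀ l ∈ s, k ≠ l → Disjoint (S k) (S l)) :
    ∫ ω, ∏ k ∈ s, f k ω ∂PM p = ∏ k ∈ s, ∫ ω, f k ω ∂PM p := by
  classical
  induction s using Finset.induction_on with
  | empty => simp
  | insert a s ha ih =>
    simp only [prod_insert ha]
    rw [integral_mul_indep p (hf a (mem_insert_self ..))
      (LocF.prod' s fun k hk => hf k (mem_insert_of_mem hk)) (hS a (mem_insert_self ..))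
      (T := ⋃ k ∈ s, S k) (fun ω ω' h => prod_congr rfl fun k hk => hS k (mem_insert_of_mem hk)
        fun i hi => h i (Set.mem_biUnion hk hi))
      (by simpa using fun k hk =>
        hd a (mem_insert_self ..) k (mem_insert_of_mem hk) (by rintro rfl; exact ha hk)),
      ih (fun k hk => hf k (mem_insert_of_mem hk)) (fun k hk => hS k (mem_insert_of_mem hk))
        fun k hk l hl => hd k (mem_insert_of_mem hk) l (mem_insert_of_mem hl)]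

theorem fac_pos {w : ℝ} (hw : 0 < w) (U : Finset V) (x : V) : 0 < fac U x w :=
  integral_pos_iff_support_of_nonneg (fun τ => by positivity)
    (((locF_nc U x).comp (w ^ ·)).integrable _) |>.2 (by
      rw [show (Function.support fun τ => w ^ nc U x τ) = Set.univ from
        Set.eq_univ_of_forall fun τ => (pow_pos hw _).ne']
      simp)

theorem fac_le_one {w : ℝ} (h0 : 0 ≤ w) (h1 : w ≤ 1) (U : Finset V) (x : V) : fac U x w ≤ 1 :=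
  (integral_mono (((locF_nc U x).comp (w ^ ·)).integrable _) (integrable_const (1 : ℝ))
    fun _ => pow_le_one₀ h0 h1).trans (by simp)

theorem one_le_fac {w : ℝ} (h1 : 1 ≤ w) (U : Finset V) (x : V) : 1 ≤ fac U x w :=
  le_trans (by simp) (integral_mono (integrable_const (1 : ℝ))
    (((locF_nc U x).comp (w ^ ·)).integrable _) fun _ => one_le_pow₀ h1)

end Pool.Agent.P.MP_6c8efb_pr.Cardy
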