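import Pool.Agent.P.MP_6c8efb_pr.Cardy.NDbl

/-! The norm bound from its steps. -/

open Finset
open scoped Real

namespace Pool.Agent.P.MP_6c8efb_pr.Cardy

open Arm (TC)
open DblA

theorem nsm1 (M : ℕ) (v : V) : (M • v).1 = M * v.1 := by simp
theorem nsm2 (M : ℕ) (v : V) : (M • v).2 = M * v.2 := by simp

theorem Shp.rf {D Q : Finset V} {x : V} {ρ : ℕ} {c : Prop} {y : ℤ} (h : Shp D x ρ c)
    (hQ : ∀ t ∈ Bx x ρ, rfT y t ∈ Q ↔ t ∈ D) : Shp Q (rfV y x) ρ c := by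
  obtain ⟨p, q, h⟩ := h
  refine ⟨p, ¬q, fun t ht => ?_⟩
  have a : rfT y t ∈ Bx x ρ := by
    simp only [mem_Bx, rfT, rfV] at ht ⊢
    omega
  have b := hQ _ a
  rw [rfT_inv] at b
  rw [b, h _ a, iff_not_comm (a := (rfV y x).2 ≤ t.2), @Iff.comm q]
  simp only [rfT, rfV, show x.2 ≤ 2 * y - 1 - t.2 ↔ ¬2 * y - x.2 ≤ t.2 by omega]

theorem Dom.wm_mem (P : Dom) (S : Finset ℕ) (k : ℕ) : 1 / 2 ≤ P.wm S k ∧ P.wm S k ≤ 2 := by
  have a : (1 : ℝ) ≤ √3 := Real.one_le_sqrt.2 (by norm_num)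
  have b : √3 ≤ (2 : ℝ) := Real.sqrt_le_iff.2 ⟨by norm_num, by norm_num⟩
  unfold Dom.wm
  split_ifs <;> constructor <;>
    first | rw [div_le_div_iff₀ (by linarith) (by linarith)] | rw [div_le_iff₀ (by linarith)]
  all_goals linarith

theorem Dom.vf_pos (P : Dom) (S : Finset ℕ) (ρ k : ℕ) : 0 < P.vf S ρ k := by
  have a : 0 < P.wm S k := by linarith [(P.wm_mem S k).1]
  unfold Dom.vf
  split_ifs
  exacts [fac_pos a _ _, one_pos, fac_pos a _ _]

/-- the bound for one doubled domain -/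
theorem half_bound (hS : S_NSym) (hG : S_NGeo) (hA : S_NSand) (P : Dom) (S : Finset ℕ) {η : ℝ}
    (hη : 0 < η) (K : ℕ) : ∃ C : ℝ, 0 < C ∧ ∀ (P' : Dom) (M ρ : ℕ) (y : ℤ) (R : Finset V)
      (γ : E → ℝ) (T : ℕ → Prop) [DecidablePred T], P.Blow M P' → 2 * ρ < M →
      (∀ t ∈ R, |t.1| < K * (ρ + 1) ∧ |t.2 - y| < K * (ρ + 1)) →
      (∀ k, T k → ∀ t ∈ Bx (M • P.c k) ρ, t ∈ R ∨ rfT y t ∈ R ↔ t ∈ P'.D) →
      LW (dbl R y) γ ((range P.n).filter fun k => P.tk k ≠ 0 ∧ T k) (fun k => rfV y (M • P.c k))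
        (P.wm S) (2 * ρ) →
      Zc (dbl R y) γ ≤ C * ((ρ : ℝ) + 1) ^ η * ∏ k ∈ (range P.n).filter T, P.vf S ρ k := by
  obtain ⟨C, C0, h⟩ := hA η (max (K + 1) P.n) hη
  refine ⟨C, C0, fun P' M ρ y R γ T _ hB hr h1 h2 h3 => ?_⟩
  have M0 : 0 < M := by omega
  refine (le_abs_self _).trans ((h _ γ _ _ _ ρ (0, y) (fun t ht => ?_) ?_ (fun k hk l hl hne => ?_)
    (fun k _ => P.wm_mem S k) h3).1.trans_eq ?_)
  · have a : ((K + 1) * (ρ + 1) : ℤ) ≤ (max (K + 1) P.n * (ρ + 1) : ℕ) := by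
      exact_mod_cast Nat.mul_le_mul_right _ (le_max_left _ _)
    rw [add_mul] at a
    rw [mem_Bx]
    rcases mem_dbl.1 ht with b | b <;> have := h1 _ b <;>
      simp only [rfT, abs_eq_max_neg] at this ⊢ <;> omega
  · exact ((card_filter_le _ _).trans_eq (card_range _)).trans (le_max_right _ _)
  · have a : P.c k ≠ P.c l := fun a =>
      hne (P.inj k (mem_range.1 (mem_filter.1 hk).1) l (mem_range.1 (mem_filter.1 hl).1) a)
    have b : ∀ c d : ℤ, c ≠ d → (M : ℤ) ≤ |M * c - M * d| := fun c d e => by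
      rw [← mul_sub, abs_mul, Nat.abs_cast]
      exact le_mul_of_one_le_right (by positivity) (Int.one_le_abs (sub_ne_zero.2 e))
    have c : (2 * ρ : ℤ) < M := by exact_mod_cast hr
    by_cases d : (P.c k).1 = (P.c l).1
    · have := b _ _ fun e : (P.c k).2 = (P.c l).2 => a (Prod.ext d e)
      simp only [dd, rfV, nsm1, nsm2, abs_eq_max_neg] at this ⊢
      omega
    · have := b _ _ d
      simp only [dd, rfV, nsm1, nsm2, abs_eq_max_neg] at this ⊢
      omega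
  · congr 1
    refine prod_subset_one_on_sdiff (fun k hk => ?_) (fun k hk => ?_) fun k hk => ?_
    · simp only [mem_filter] at hk ⊢
      exact ⟨hk.1, hk.2.2⟩
    · have : P.tk k = 0 := by
        simp only [mem_sdiff, mem_filter] at hk
        tauto
      simp [Dom.vf, this]
    · obtain ⟨a, b, c⟩ := mem_filter.1 hk
      have d := ((hG P P' M M0 hB).2 k (mem_range.1 a) ρ (by omega) b).rf (Q := dbl R y) (y := y)
        fun t ht => by rw [mem_dbl, rfT_inv, or_comm]; exact h2 k c t ht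
      unfold Dom.vf
      split_ifs with e
      · exact (hS _ _ _ _).1 (by simpa only [e] using d)
      · exact (hS _ _ _ _).2 (by simpa only [e] using d)

theorem normX (hS : S_NSym) (hG : S_NGeo) (hA : S_NSand) (hL : S_NAlg) (hD : S_NDbl) :
    S_NormX := by
  intro P k₁ k₂ ε η hk ε0 η0
  obtain ⟨B, hB⟩ : ∃ B : ℕ, ∀ t ∈ P.D, |t.1| < B ∧ |t.2| < B := by
    obtain ⟨B, hB⟩ := (P.D.finite_toSet.image fun t : V => (|t.1| + |t.2|).toNat).bddAbove
    refine ⟨B + 1, fun t ht => ?_⟩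
    have := hB ⟨t, ht, rfl⟩
    simp only [abs_eq_max_neg] at this ⊢
    omega
  obtain ⟨L, hL'⟩ := exists_nat_ge (2 / ε)
  obtain ⟨C, C0, h⟩ := half_bound hS hG hA P {0, k₁, k₂} (η := η / 2) (by positivity)
    ((2 * B + 2) * L)
  obtain ⟨C', h'⟩ := hL P k₁ k₂ η hk η0
  refine ⟨√(C * C * C'), fun M P' q y y' s M0 hb y1 y2 y3 y4 hs hd => ?_⟩
  have M1 : (0 : ℤ) < M := by exact_mod_cast M0
  have M2 : (0 : ℝ) < M := by exact_mod_cast M0
  obtain ⟨g, g0, g1, g2, g3⟩ : ∃ g : ℕ, 0 < g ∧ ε * M ≤ g ∧ q * M + g ≤ y ∧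
      y' + g ≤ (q + 1) * M := by
    have a : ∀ z : ℤ, ε * M ≤ z → (⌈ε * M⌉₊ : ℤ) ≤ z := fun z a => by
      rw [Int.natCast_ceil_eq_ceil (by positivity)]; exact Int.ceil_le.2 a
    have a1 := a (y - q * M) (by push_cast; linarith)
    have a2 := a ((q + 1) * M - y') (by push_cast; linarith)
    exact ⟨⌈ε * M⌉₊, Nat.ceil_pos.2 (by positivity), Nat.le_ceil _, by omega, by omega⟩
  obtain ⟨ρ, r1, r2⟩ : ∃ ρ : ℕ, 2 * ρ + 1 ≤ g ∧ g ≤ 2 * (ρ + 1) := ⟨(g - 1) / 2, by omega, by omega⟩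
  have r3 : (M : ℤ) ≤ L * (ρ + 1) := by
    have a : (g : ℝ) ≤ 2 * (ρ + 1) := by exact_mod_cast r2
    rw [div_le_iff₀ ε0] at hL'
    have : (M : ℝ) ≤ L * (ρ + 1) := le_of_mul_le_mul_left (by nlinarith) ε0
    exact_mod_cast this
  have r4 : 2 * ρ < M := by
    have : (2 * ρ : ℤ) < M := by nlinarith
    exact_mod_cast this
  have bd1 : ∀ a : ℤ, |a / M| < B → |a| ≤ B * M := fun a b => by
    have c := (div_iff M1).1 (rfl : a / M = a / M)
    rw [abs_lt] at b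
    rw [abs_le]
    constructor <;> nlinarith
  have bd2 : ∀ t ∈ P'.D, |t.1| ≤ B * M ∧ |t.2| ≤ B * M := fun t ht =>
    (hB _ ((hb.mem M0).1 ht)).imp (bd1 _) (bd1 _)
  have bd3 : ∀ z : ℤ, q * M < z → z < (q + 1) * M → ∀ t ∈ P'.D,
      |t.1| < ((2 * B + 2) * L : ℕ) * (ρ + 1) ∧ |t.2 - z| < ((2 * B + 2) * L : ℕ) * (ρ + 1) := by
    intro z z1 z2 t ht
    have a := bd2 t ht
    have b := (bd2 _ (P'.fc_in s)).2
    have c : (2 * B + 2) * M ≤ (((2 * B + 2) * L : ℕ) : ℤ) * (ρ + 1) := by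
      push_cast
      rw [mul_assoc]
      exact mul_le_mul_of_nonneg_left r3 (by positivity)
    rw [hd] at b
    simp only [a31, fc0, abs_eq_max_neg, add_mul, mul_assoc, one_mul] at a b c z2 g3 ⊢
    omega
  have strip : ∀ z : ℤ, q * M < z → z < (q + 1) * M → ∀ x, (x, z - 1) ∈ P'.D ↔ (x, z) ∈ P'.D :=
    fun z z1 z2 x => by
      rw [hb.mem M0, hb.mem M0, (div_iff M1).2 (show M * q ≤ z - 1 ∧ z - 1 < M * q + M by
        constructor <;> linarith), (div_iff M1).2 (show M * q ≤ z ∧ z < M * q + M by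
        constructor <;> linarith)]
  have e1 := (s_Dbl P'.D (P'.ang (P'.gam (M * k₁) (M * k₂) s)) y (fun _ => true)
    (strip y (by omega) (by omega))).1
  have e2 := (s_Dbl P'.D (P'.ang (P'.gam (M * k₁) (M * k₂) s)) y' (fun _ => true)
    (strip y' (by omega) (by omega))).2
  rw [Zv_eq_Zc, Complex.ofReal_inj] at e1 e2
  have mq : ∀ c : ℤ, (c ≤ q → M * c ≤ q * M) ∧ (q < c → (q + 1) * M ≤ M * c) := fun c =>
    ⟨fun a => by nlinarith, fun a => by nlinarith⟩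
  have f1 := h P' M ρ y (below P'.D y) _ (fun k => (P.c k).2 ≤ q) hb r4
    (fun t ht => bd3 y (by omega) (by omega) t (mem_filter.1 ht).1) (fun k a t ht => by
      have := (mq _).1 a
      simp only [mem_Bx, nsm2] at ht
      simp [below, rfT, show t.2 < y by omega, show ¬2 * y - 1 - t.2 < y by omega])
    ((hD P P' M k₁ k₂ s ρ q y hk hb (by omega) (by omega) hs hd (by omega) (by omega)).1 y2)
  have f2 := h P' M ρ y' (above P'.D y') _ (fun k => q < (P.c k).2) hb r4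
    (fun t ht => bd3 y' (by omega) (by omega) t (mem_filter.1 ht).1) (fun k a t ht => by
      have := (mq _).2 a
      simp only [mem_Bx, nsm2] at ht
      simp [above, rfT, show y' ≤ t.2 by omega, show ¬y' ≤ 2 * y' - 1 - t.2 by omega])
    ((hD P P' M k₁ k₂ s ρ q y' hk hb (by omega) (by omega) hs hd (by omega) (by omega)).2 y3)
  rw [← e1] at f1
  rw [← e2] at f2
  have f3 := prod_filter_mul_prod_filter_not (range P.n) (fun k => (P.c k).2 ≤ q)
    (P.vf {0, k₁, k₂} ρ)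
  simp only [not_le] at f3
  have f4 := h' ρ
  have f5 : ((ρ : ℝ) + 1) ^ η ≤ (M : ℝ) ^ η :=
    Real.rpow_le_rpow (by positivity) (by exact_mod_cast (by omega : ρ + 1 ≤ M)) η0.le
  have f6 : ((ρ : ℝ) + 1) ^ (η / 2) * ((ρ : ℝ) + 1) ^ (η / 2) = ((ρ : ℝ) + 1) ^ η := by
    rw [← Real.rpow_add (by positivity), add_halves]
  have f7 : 0 < ((ρ : ℝ) + 1) ^ η := by positivity
  have C1 : 0 ≤ C' := ((mul_pos_iff_of_pos_right f7).1 ((prod_pos fun k _ =>
    P.vf_pos _ ρ k).trans_le f4)).le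
  refine (abs_le_of_sq_le_sq' ?_ (by positivity)).2
  rw [mul_pow, mul_pow, Real.sq_sqrt (by positivity)]
  refine (mul_le_mul f1 f2 (sq_nonneg _) ((sq_nonneg _).trans f1)).trans ?_
  rw [mul_mul_mul_comm, f3, mul_mul_mul_comm, f6]
  calc _ ≤ C * C * (M : ℝ) ^ η * (C' * (M : ℝ) ^ η) := by
        refine mul_le_mul (by gcongr) (f4.trans (by gcongr))
          (prod_pos fun k _ => P.vf_pos _ ρ k).le (by positivity)
    _ = _ := by ring

end Pool.Agent.P.MP_6c8efb_pr.Cardy
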