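import Pool.Agent.P.MP_6c8efb_pr.Cardy.BDefs
import Pool.Agent.P.MP_6c8efb_pr.Arm.Cmp
import Pool.Agent.P.MP_6c8efb_pr.Ann

/-! Arm estimates for clusters and strands of tile configurations. -/

namespace Pool.Agent.P.MP_6c8efb_pr.Cardy

open Arm (TC Pt TConn link link_iff tm dual ends)
open Arm.CmpA (co Rel rel0 rel1 Pt_tm)

variable {τ : TC} {D : Finset V} {S : Set V} {x a b : V} {r R : ℤ}

/-- a cluster of the plane joins the ball of radius `r` around `x` to distance `R` -/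
def ArmT (x : V) (r R : ℤ) : Set TC := {τ | ∃ a b, TConn τ Set.univ a b ∧ dd x a ≤ r ∧ R ≤ dd x b}

/-- the tiles with a corner in the closed annulus -/
def AnT (x : V) (r R : ℤ) : Set V := {t | r - 1 ≤ dd x t ∧ dd x t ≤ R}

theorem AnT_finite (x : V) (r R : ℤ) : (AnT x r R).Finite := An_finite x (r - 1) R

theorem dd_link (x : V) (h : link τ S a b) : |dd x b - dd x a| ≤ 1 := by
  obtain ⟨h1, h2⟩ := h.abs
  simp only [dd, abs_eq_max_neg] at *
  omega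

/-- the last piece of a path which crosses a strip of a Lipschitz function -/
theorem tconn_strip {f : V → ℤ} (hf : ∀ a b, link τ S a b → |f b - f a| ≤ 1) {p q : ℤ} (hpq : p ≤ q)
    (h : TConn τ S a b) (ha : f a ≤ p) (hb : q ≤ f b) : ∃ a' b', f a' = p ∧ f b' = q ∧
      TConn τ S a a' ∧ TConn τ {t ∈ S | p ≤ f (ends τ t).1 ∧ f (ends τ t).1 ≤ q ∧
        p ≤ f (ends τ t).2 ∧ f (ends τ t).2 ≤ q} a' b' := by
  set T := {t ∈ S | p ≤ f (ends τ t).1 ∧ f (ends τ t).1 ≤ q ∧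
        p ≤ f (ends τ t).2 ∧ f (ends τ t).2 ≤ q}
  have := h.ind (P := fun z => f z < p ∨ (p ≤ f z ∧ f z ≤ q ∧ ∃ a', f a' = p ∧ TConn τ S a a' ∧
      TConn τ T a' z) ∨ ∃ a' b', f a' = p ∧ f b' = q ∧ TConn τ S a a' ∧ TConn τ T a' b')
    (by
      rcases ha.lt_or_eq with e | e
      · exact Or.inl e
      · exact Or.inr (Or.inl ⟨e.ge, e ▸ hpq, a, e, .refl', .refl'⟩)) (by
    rintro y z hy hl (e | ⟨e1, e2, a', e3, e4, e5⟩ | e)
    · have := abs_le.1 (hf _ _ hl)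
      by_cases c : f z < p
      · exact Or.inl c
      · exact Or.inr (Or.inl ⟨by omega, by omega, z, by omega, hy.snoc hl, .refl'⟩)
    · have := abs_le.1 (hf _ _ hl)
      by_cases c : f z < p
      · exact Or.inl c
      by_cases c' : f z ≤ q
      · obtain ⟨t, ht, e⟩ := hl
        refine Or.inr (Or.inl ⟨by omega, c', a', e3, e4, e5.snoc ⟨t, ⟨ht, ?_⟩, e⟩⟩)
        rcases e with e | e <;> rw [e] <;> simp only [] <;> omega
      · exact Or.inr (Or.inr ⟨a', y, e3, by omega, e4, e5⟩)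
    · exact Or.inr (Or.inr e))
  rcases this with e | ⟨-, e2, a', e3, e4, e5⟩ | e
  · omega
  · exact ⟨a', b, e3, by omega, e4, e5⟩
  · exact e

theorem ArmT_eq (x : V) (h : r ≤ R) : ArmT x r R =
    {τ | ∃ a b, (dd x a = r ∧ dd x b = R) ∧ TConn τ (AnT x r R) a b} := by
  ext τ
  constructor
  · rintro ⟨a, b, h1, h2, h3⟩
    obtain ⟨a', b', e1, e2, -, e4⟩ := tconn_strip (fun _ _ => dd_link x) h h1 h2 h3
    refine ⟨a', b', ⟨e1, e2⟩, e4.mono_set fun t ht => ?_⟩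
    have := ht.2
    simp only [AnT, ends, dd, abs_eq_max_neg, Set.mem_ofPred_eq] at this ⊢
    split_ifs at this <;> simp only [] at this <;> omega
  · rintro ⟨a, b, ⟨h1, h2⟩, h3⟩
    exact ⟨a, b, h3.mono_set (Set.subset_univ _), h1.le, h2.ge⟩

theorem dep_ArmT (x : V) (h : r ≤ R) : Dep (ArmT x r R) (AnT x r R) :=
  ArmT_eq x h ▸ Arm.dep_tconn _ _

theorem loc_ArmT (x : V) (h : r ≤ R) : Loc (ArmT x r R) := (dep_ArmT x h).loc (AnT_finite ..)

theorem ArmT_mono (x : V) {r r' R R' : ℤ} (hr : r ≤ r') (hR : R' ≤ R) : ArmT x r R ⊆ ArmT x r' R' :=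
  fun _ ⟨a, b, h1, h2, h3⟩ => ⟨a, b, h1, h2.trans hr, hR.trans h3⟩

/-- from diagonals of tiles to bonds -/
theorem toConn {e : ℤ} {ω : Cfg} (hR : Rel e τ ω) {z : V} (h : TConn τ S (co e z) b) :
    ∃ y, b = co e y ∧ Conn ω Set.univ z y := by
  refine h.ind (P := fun b => ∃ y, b = co e y ∧ Conn ω Set.univ z y) ⟨z, rfl, Conn.rfl'⟩ ?_
  rintro _ b - hl ⟨⟨p, q⟩, rfl, hc⟩
  obtain ⟨s, t, -, h2⟩ := link_iff.1 hl
  simp only [co, Prod.mk.injEq] at h2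
  rcases h2 with ⟨h2, ⟨⟨rfl, rfl⟩, rfl⟩ | ⟨rfl, e1, e2⟩⟩ | ⟨h2, ⟨⟨e1, rfl⟩, rfl⟩ | ⟨rfl, rfl, e2⟩⟩
  · refine ⟨_, ?_, hc.snoc (d := 1) trivial trivial ((hR p q).1 ▸ h2)⟩
    simp [co, Prod.ext_iff]; omega
  · have := (hR p (q - 1)).1
    rw [show p + (q - 1) + e = s by omega, show q - 1 - p = t by omega, h2] at this
    refine ⟨_, ?_, hc.snoc (d := 3) trivial trivial (by simpa using this.symm)⟩
    simp [co, Prod.ext_iff]; omega
  · have := (hR (p - 1) q).2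
    rw [show p - 1 + q + e = s by omega, show q - (p - 1) - 1 = q - p by omega, h2] at this
    refine ⟨_, ?_, hc.snoc (d := 2) trivial trivial (by simpa using this.symm)⟩
    simp [co, Prod.ext_iff]; omega
  · have := (hR p q).2
    rw [show q - p - 1 = t by omega, h2] at this
    refine ⟨_, ?_, hc.snoc (d := 0) trivial trivial (by simpa using this.symm)⟩
    simp [co, Prod.ext_iff]; omega

theorem dual_eq (ω : Cfg) : dual ω = du ω := by
  funext ⟨⟨p, q⟩, c⟩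
  cases c <;> simp [dual, du, dl]

theorem ArmT_tm {ω : Cfg} (h : tm ω ∈ ArmT x r R) :
    ω ∈ Arm1 ((x.1 - x.2) / 2, (x.1 + x.2) / 2) (r + 1) (R / 2 - 1) ∨
      du ω ∈ Arm1 ((x.1 - x.2) / 2, (x.1 + x.2) / 2) (r + 1) (R / 2 - 1) := by
  obtain ⟨a, b, h1, h2, h3⟩ := h
  have key : ∀ (e : ℤ) (ω' : Cfg), Rel e (tm ω) ω' → (e = 0 ∨ e = 1) → (a.1 + a.2) % 2 = e →
      ω' ∈ Arm1 ((x.1 - x.2) / 2, (x.1 + x.2) / 2) (r + 1) (R / 2 - 1) := fun e ω' hR he hp => by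
    have ea : a = co e ((a.1 - a.2 - e) / 2, (a.1 + a.2 - e) / 2) := by
      simp only [co, Prod.ext_iff]; omega
    obtain ⟨y, rfl, h4⟩ := toConn hR (ea ▸ h1)
    refine ⟨_, y, ⟨?_, ?_⟩, h4⟩
    · simp only [nm, dd, abs_eq_max_neg] at h2 ⊢; omega
    · simp only [nm, dd, co, abs_eq_max_neg] at h3 ⊢; omega
  rcases Int.emod_two_eq_zero_or_one (a.1 + a.2) with e | e
  · exact Or.inl (key 0 _ (rel0 ω) (Or.inl rfl) e)
  · exact Or.inr (dual_eq ω ▸ key 1 _ (rel1 ω) (Or.inr rfl) e)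

theorem Pt_ArmT_le (h : r + 1 ≤ R / 2 - 1) (h' : r ≤ R) : Pt (ArmT x r R) ≤
    2 * Q (Arm1 ((x.1 - x.2) / 2, (x.1 + x.2) / 2) (r + 1) (R / 2 - 1)) := by
  rw [← Pt_tm (loc_ArmT x h'), two_mul]
  refine (Pr_mono (B := Arm1 _ (r + 1) (R / 2 - 1) ∪ {ω | du ω ∈ Arm1 _ (r + 1) (R / 2 - 1)})
    fun ω hω => ArmT_tm hω).trans ((Pr_union_le _ _ _).trans_eq ?_)
  exact congrArg _ (Q_du_Arm1 _ h)

/-- polynomial decay of the arm probability -/
theorem armT_decay : ∃ c C : ℝ, 0 < c ∧ 1 ≤ C ∧ ∀ (x : V) (r R : ℤ), 1 ≤ r → 0 < R →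
    Pt (ArmT x r R) ≤ C * ((r : ℝ) / R) ^ c := by
  obtain ⟨c, C, c0, C0, h⟩ := ann_decay
  refine ⟨c, (2 * C + 1) * 8 ^ c, c0,
    one_le_mul_of_one_le_of_one_le (by linarith) (Real.one_le_rpow (by norm_num) c0.le),
    fun x r R hr hR => ?_⟩
  have r0 : (0 : ℝ) < r := by exact_mod_cast (by omega : 0 < r)
  have R0 : (0 : ℝ) < R := by exact_mod_cast hR
  rw [mul_assoc, ← Real.mul_rpow (by norm_num) (by positivity)]
  by_cases b : R < 8 * r
  · refine (Arm.Pt_le_one _).trans (one_le_mul_of_one_le_of_one_le (by linarith)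
      (Real.one_le_rpow ?_ c0.le))
    have : (R : ℝ) < 8 * r := by exact_mod_cast b
    rw [mul_div_assoc', le_div_iff₀ R0]
    linarith
  refine (Pt_ArmT_le (by omega) (by omega)).trans ?_
  have h1 := h ((x.1 - x.2) / 2, (x.1 + x.2) / 2) (r + 1) (R / 2 - 1) (by omega) (by omega)
  have h2 : (((r + 1 : ℤ) : ℝ) / ((R / 2 - 1 : ℤ) : ℝ)) ^ c ≤ (8 * ((r : ℝ) / R)) ^ c := by
    have a1 : (0 : ℝ) < ((R / 2 - 1 : ℤ) : ℝ) := by exact_mod_cast (by omega : 0 < R / 2 - 1)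
    refine Real.rpow_le_rpow (by positivity) ?_ c0.le
    rw [mul_div_assoc', div_le_div_iff₀ a1 R0]
    have a2 : R ≤ 4 * (R / 2 - 1) := by omega
    have a3 : (r + 1) * R ≤ 8 * r * (R / 2 - 1) := by nlinarith
    exact_mod_cast a3
  have h3 : 0 ≤ (8 * ((r : ℝ) / R)) ^ c := by positivity
  nlinarith

theorem ArmC_sub (D : Finset V) (x : V) (r R : ℤ) : ArmC D x r R ⊆ ArmT x r R :=
  fun _ ⟨a, b, h1, h2⟩ => ⟨a, b, h1.mono_set (Set.subset_univ _), h2⟩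

/-- both banks of an arc are joined -/
theorem Adj.conn {e e' : E} (h : Adj τ D e e') :
    TConn τ D (lv e) (lv e') ∧ TConn τ D (rv e) (rv e') := by
  obtain ⟨⟨s, t⟩, ht, he, rfl⟩ := h
  have l := (Arm.link_ends (τ := τ) (S := (D : Set V)) ht).conn
  have l' := l.symm'
  have p1 : Even (s + 1 + t) ↔ ¬Even (s + t) := by simp only [Int.even_iff]; omega
  have p2 : Even (s + (t + 1)) ↔ ¬Even (s + t) := by simp only [Int.even_iff]; omega
  simp only [sd1, Finset.mem_insert, Finset.mem_singleton] at he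
  cases c : τ (s, t) <;> simp only [ends, c] at l l' <;> by_cases p : Even (s + t) <;>
    rcases he with rfl | rfl | rfl | rfl <;>
    simp [prt, lv, rv, bot, lft, top, rgt, p, p1, p2] at l l' ⊢ <;>
    first | exact ⟨l, .refl'⟩ | exact ⟨l', .refl'⟩ | exact ⟨.refl', l⟩ | exact ⟨.refl', l'⟩

theorem Same.conn {e e' : E} (h : Same τ D e e') :
    TConn τ D (lv e) (lv e') ∧ TConn τ D (rv e) (rv e') := by
  induction h with
  | refl => exact ⟨.refl', .refl'⟩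
  | tail _ h2 ih => exact ⟨ih.1.trans' h2.conn.1, ih.2.trans' h2.conn.2⟩

theorem dd_lv (x : V) (e : E) : |dd x (lv e) - dd x e.1| ≤ 1 := by
  obtain ⟨⟨s, t⟩, c⟩ := e
  cases c <;> simp only [lv, dd, hd_true, hd_false, abs_eq_max_neg] <;> split_ifs <;>
    simp only [] <;> omega

theorem ArmS_sub (D : Finset V) (x : V) (r R : ℤ) : ArmS D x r R ⊆ ArmC D x (r + 1) (R - 1) := by
  rintro τ ⟨e, e', h1, h2, h3⟩
  have a1 := abs_le.1 (dd_lv x e)
  have a2 := abs_le.1 (dd_lv x e')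
  exact ⟨_, _, h1.conn.1, by omega, by omega⟩

theorem armC_decay : ∃ c C : ℝ, 0 < c ∧ 1 ≤ C ∧ ∀ (D : Finset V) (x : V) (r R : ℤ), 1 ≤ r → 0 < R →
    Pt (ArmC D x r R) ≤ C * ((r : ℝ) / R) ^ c :=
  let ⟨c, C, c0, C0, h⟩ := armT_decay
  ⟨c, C, c0, C0, fun D x r R hr hR => (Arm.Pt_mono (ArmC_sub D x r R)).trans (h x r R hr hR)⟩

theorem armS_decay : ∃ c C : ℝ, 0 < c ∧ 1 ≤ C ∧ ∀ (D : Finset V) (x : V) (r R : ℤ), 1 ≤ r → 0 < R →
    Pt (ArmS D x r R) ≤ C * ((r : ℝ) / R) ^ c := by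
  obtain ⟨c, C, c0, C0, h⟩ := armC_decay
  have h4 : (1 : ℝ) ≤ 4 ^ c := Real.one_le_rpow (by norm_num) c0.le
  refine ⟨c, C * 4 ^ c, c0, one_le_mul_of_one_le_of_one_le C0 h4, fun D x r R hr hR => ?_⟩
  have r0 : (0 : ℝ) < r := by exact_mod_cast (by omega : 0 < r)
  have R0 : (0 : ℝ) < R := by exact_mod_cast hR
  rw [mul_assoc, ← Real.mul_rpow (by norm_num) (by positivity)]
  by_cases b : R < 4 * r
  · refine (Arm.Pt_le_one _).trans (one_le_mul_of_one_le_of_one_le C0 (Real.one_le_rpow ?_ c0.le))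
    have : (R : ℝ) < 4 * r := by exact_mod_cast b
    rw [mul_div_assoc', le_div_iff₀ R0]
    linarith
  refine (Arm.Pt_mono (ArmS_sub D x r R)).trans ((h D x (r + 1) (R - 1) (by omega) (by omega)).trans
    (mul_le_mul_of_nonneg_left ?_ (by linarith)))
  have a1 : (0 : ℝ) < ((R - 1 : ℤ) : ℝ) := by exact_mod_cast (by omega : 0 < R - 1)
  refine Real.rpow_le_rpow (by positivity) ?_ c0.le
  rw [mul_div_assoc', div_le_div_iff₀ a1 R0]
  have a3 : (r + 1) * R ≤ 4 * r * (R - 1) := by nlinarith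
  exact_mod_cast a3

end Pool.Agent.P.MP_6c8efb_pr.Cardy
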