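import Pool.Agent.P.MP_6c8efb_pr.Cardy.BIface
import Pool.Agent.P.MP_6c8efb_pr.Cardy.TBasic
import Pool.Agent.P.MP_6c8efb_pr.Cardy.RArm

/-! Moduli of continuity of the observable. -/

open Complex MeasureTheory
open scoped Real

namespace Pool.Agent.P.MP_6c8efb_pr.Cardy

open Arm (TC Pt TConn)

theorem s_Arm : S_Arm := by
  obtain ⟨c, C, c0, C0, h⟩ := armT_decay
  obtain ⟨c', C', c0', C0', h'⟩ := armS_decay
  refine ⟨max C C', min c c', lt_min c0 c0', fun D x r R hr hR => ?_⟩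
  have r0 : (0 : ℝ) < r := by exact_mod_cast (by omega : 0 < r)
  have R0 : (0 : ℝ) < R := by exact_mod_cast (by omega : 0 < R)
  have q1 : (r : ℝ) / R ≤ 1 := (div_le_one R0).2 (by exact_mod_cast hR)
  have q0 : (0 : ℝ) < r / R := by positivity
  exact ⟨(h' D x r R hr (by omega)).trans (mul_le_mul (le_max_right _ _)
      (Real.rpow_le_rpow_of_exponent_ge q0 q1 (min_le_right _ _)) (by positivity) (by positivity)),
    ((Arm.Pt_mono (ArmC_sub D x r R)).trans (h x r R hr (by omega))).trans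
      (mul_le_mul (le_max_left _ _) (Real.rpow_le_rpow_of_exponent_ge q0 q1 (min_le_left _ _))
        (by positivity) (by positivity))⟩

namespace RM

/-- the arm estimate with some room; the bound is trivial when the ratio is not small -/
theorem arm_room : ∃ c C : ℝ, 0 < c ∧ 0 < C ∧
    (∀ r R : ℤ, 1 ≤ r → 0 < R → R ≤ 20 * r → 1 ≤ C * ((r : ℝ) / R) ^ c) ∧
    ∀ (D : Finset V) (x : V) (r R : ℤ), 1 ≤ r → 0 < R →
      Pt (ArmS D x (r + 5) (R - 5)) ≤ C * ((r : ℝ) / R) ^ c := by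
  obtain ⟨c, C, c0, C0, h⟩ := armS_decay
  have h4 : (1 : ℝ) ≤ 20 ^ c := Real.one_le_rpow (by norm_num) c0.le
  have triv : ∀ r R : ℤ, 1 ≤ r → 0 < R → R ≤ 20 * r → 1 ≤ C * 20 ^ c * ((r : ℝ) / R) ^ c := by
    intro r R hr hR b
    have r0 : (0 : ℝ) < r := by exact_mod_cast (by omega : 0 < r)
    have R0 : (0 : ℝ) < R := by exact_mod_cast hR
    rw [mul_assoc, ← Real.mul_rpow (by norm_num) (by positivity)]
    refine one_le_mul_of_one_le_of_one_le C0 (Real.one_le_rpow ?_ c0.le)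
    have : (R : ℝ) ≤ 20 * r := by exact_mod_cast b
    rw [mul_div_assoc', le_div_iff₀ R0]
    linarith
  refine ⟨c, C * 20 ^ c, c0, by positivity, triv, fun D x r R hr hR => ?_⟩
  by_cases b : R ≤ 20 * r
  · exact (Arm.Pt_le_one _).trans (triv r R hr hR b)
  have r0 : (0 : ℝ) < r := by exact_mod_cast (by omega : 0 < r)
  have R0 : (0 : ℝ) < R := by exact_mod_cast hR
  rw [mul_assoc, ← Real.mul_rpow (by norm_num) (by positivity)]
  refine (h D x (r + 5) (R - 5) (by omega) (by omega)).trans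
    (mul_le_mul_of_nonneg_left ?_ (by linarith))
  have a1 : (0 : ℝ) < ((R - 5 : ℤ) : ℝ) := by exact_mod_cast (by omega : 0 < R - 5)
  refine Real.rpow_le_rpow (by positivity) ?_ c0.le
  rw [mul_div_assoc', div_le_div_iff₀ a1 R0]
  have a3 : (r + 5) * R ≤ 20 * r * (R - 5) := by nlinarith
  exact_mod_cast a3

theorem ArmS_mono (D : Finset V) (x : V) {r r' R R' : ℤ} (hr : r ≤ r') (hR : R' ≤ R) :
    ArmS D x r R ⊆ ArmS D x r' R' :=
  fun _ ⟨a, b, h1, h2, h3⟩ => ⟨a, b, h1, h2.trans hr, hR.trans h3⟩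

theorem loc_ArmS (D : Finset V) (x : V) (r R : ℤ) : Loc (ArmS D x r R) :=
  ⟨D, D.finite_toSet, fun _ _ hτ ⟨a, b, h1, h2⟩ => ⟨a, b, h1.mono subset_rfl hτ, h2⟩⟩

theorem integrable {f : TC → ℂ} (hf' : LocF f) {K : ℝ} (h : ∀ τ, ‖f τ‖ ≤ K) :
    Integrable f (PM fun _ => hf) :=
  Integrable.of_bound hf'.measurable.aestronglyMeasurable K (ae_of_all _ h)

theorem abs_int_le {f : TC → ℝ} (hf' : LocF f) {K : ℝ} {A : Set TC} (h : ∀ τ, |f τ| ≤ K)
    (h0 : ∀ τ, τ ∉ A → f τ = 0) : |∫ τ, f τ ∂PM fun _ => hf| ≤ K * Pt A := by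
  have hL : Loc {τ | f τ ∈ ({0}ᶜ : Set ℝ)} := hf'.loc _
  have K0 : 0 ≤ K := (abs_nonneg _).trans (h fun _ => true)
  refine abs_integral_le_integral_abs.trans (le_trans ?_ (mul_le_mul_of_nonneg_left
    (Arm.Pt_mono (A := {τ | f τ ∈ ({0}ᶜ : Set ℝ)}) fun τ hτ => by_contra fun c => hτ (h0 τ c)) K0))
  rw [Pt, ← integral_indicator_const' _ hL]
  refine integral_mono ((hf'.comp _).integrable _) ((hL.locF_indicator K).integrable _) fun τ => ?_
  by_cases c : f τ = 0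
  · rw [Set.indicator_of_notMem (by simpa using c)]; simp [c]
  · rw [Set.indicator_of_mem (by simpa using c)]; exact h τ

theorem norm_int_le {f : TC → ℂ} (hf' : LocF f) {K : ℝ} {A : Set TC} (h : ∀ τ, ‖f τ‖ ≤ K)
    (h0 : ∀ τ, τ ∉ A → f τ = 0) : ‖∫ τ, f τ ∂PM fun _ => hf‖ ≤ K * Pt A :=
  (norm_integral_le_integral_norm _).trans ((le_abs_self _).trans
    (abs_int_le (hf'.comp _) (fun τ => by simpa using h τ) fun τ c => by simp [h0 τ c]))

theorem norm_ζ (k : ℕ) : ‖ζ ^ k‖ = 1 := by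
  rw [norm_pow, ζ, show (π / 3 * I : ℂ) = (π / 3 : ℝ) * I by push_cast; ring, norm_exp_ofReal_mul_I,
    one_pow]

theorem ζ_ne (k : ℕ) : ζ ^ k ≠ 0 := norm_ne_zero_iff.1 (by rw [norm_ζ]; norm_num)

theorem arc_mono (k₁ k₂ : ℕ) {i j : ℕ} (h : i ≤ j) : arc k₁ k₂ i ≤ arc k₁ k₂ j := by
  unfold arc; split_ifs <;> omega

variable {P : Dom} {τ : TC} {k₁ k₂ i j : ℕ} {x v w : V} {r : ℤ}

theorem dd_edge (x v : V) (d : Fin 4) : dd x (edge v d).1 = dd x v ∨
    dd x (edge v d).1 = dd x (v + u d) := by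
  rcases edge_ends v d with h | h <;> simp [h.1]

theorem dd_step (x v : V) (d : Fin 4) : |dd x (v + u d) - dd x v| ≤ 1 := nm_lip' x v d

theorem dd_b (P : Dom) (x : V) (i : ℕ) : dd x (P.b i).1 = dd x (P.c i) ∨
    dd x (P.b i).1 = dd x (P.c (i + 1)) := P.step i ▸ dd_edge ..

theorem dd_b' (P : Dom) (x : V) (i : ℕ) : |dd x (P.b i).1 - dd x (P.c i)| ≤ 1 := by
  have := dd_step x (P.c i) (P.dir i)
  rcases dd_edge x (P.c i) (P.dir i) with h | h <;> simp [Dom.b, h, this]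

theorem inn_tconn (h : TConn τ P.D v w) : P.Inn τ i v ↔ P.Inn τ i w := by
  have k : ∀ {v w}, TConn τ P.D v w → P.Inn τ i v → P.Inn τ i w := fun h h0 =>
    h.ind (P := fun z => P.Inn τ i z) h0 fun _ _ _ l ih => ih.tail (Or.inl l)
  exact ⟨k h, k h.symm'⟩

theorem inn_edge (hT : S_Top1) (h : P.Str τ i j) {d : Fin 4} (he : edge v d ∈ sd P.D) :
    (P.Inn τ i v ↔ P.Inn τ i (v + u d)) ↔ ¬Same τ P.D (P.b i) (edge v d) := by
  rw [← ((hT P τ).2.2.2 i j h).1 _ he]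
  rcases edge_ends v d with e | e <;> rw [e.1, e.2]
  exact iff_congr Iff.comm Iff.rfl |>.1 Iff.rfl |>.symm.trans Iff.rfl |>.symm

theorem inn_c (hT : S_Top1) (h : P.Str τ i j) {m : ℕ} (hm : m ≤ P.n) :
    P.Inn τ i (P.c m) ↔ i < m ∧ m ≤ j := ((hT P τ).2.2.2 i j h).2 m hm

/-- a strand which separates the ends of a path crosses it -/
theorem nr_inn (hT : S_Top1) (h : P.Str τ i j) (hp : Nr P.D x r v w)
    (hn : ∀ a d, dd x a ≤ r → dd x (a + u d) ≤ r → ¬Same τ P.D (P.b i) (edge a d)) :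
    P.Inn τ i v ↔ P.Inn τ i w := by
  induction hp with
  | refl => rfl
  | tail _ h2 ih =>
    obtain ⟨⟨d, rfl, he⟩, h3, h4⟩ := h2
    exact ih.trans ((inn_edge hT h he).2 (hn _ d h3 h4))

theorem mem_strs {p : ℕ × ℕ} : p ∈ P.strs τ ↔ P.Str τ p.1 p.2 := by
  simp only [Dom.strs, Finset.mem_filter, Finset.mem_product, Finset.mem_range]
  exact ⟨fun h => h.2, fun h => ⟨⟨h.1.trans h.2.1, h.2.1⟩, h⟩⟩

theorem sec_congr {m : ℕ} (h : ∀ i j, P.Str τ i j → arc k₁ k₂ i ≠ arc k₁ k₂ j →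
    (P.Inn τ i v ↔ P.Inn τ i w)) : P.Sec k₁ k₂ τ m v ↔ P.Sec k₁ k₂ τ m w := by
  refine exists_congr fun i => exists_congr fun j => and_congr_right fun hs => ?_
  split_ifs
  · exact and_congr_right fun a => and_congr_right fun b => not_congr (h i j hs (by omega))
  · exact and_congr_right fun a => and_congr_right fun b => h i j hs (by omega)

theorem pock_congr {m : ℕ} (h : ∀ i j, P.Str τ i j → arc k₁ k₂ i = m → arc k₁ k₂ j = m →
    (P.Inn τ i v ↔ P.Inn τ i w)) : P.pock k₁ k₂ τ m v = P.pock k₁ k₂ τ m w := by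
  ext p
  simp only [Dom.pock, Finset.mem_filter]
  exact and_congr_right fun hp => and_congr_right fun a => and_congr_right fun b =>
    h _ _ (mem_strs.1 hp) a b

theorem val_congr (h : ∀ i j, P.Str τ i j → (P.Inn τ i v ↔ P.Inn τ i w)) :
    P.val k₁ k₂ τ v = P.val k₁ k₂ τ w := by
  classical
  have a : ∀ m, P.Sec k₁ k₂ τ m v ↔ P.Sec k₁ k₂ τ m w := fun m => sec_congr fun i j s _ => h i j s
  have b : ∀ m, P.pock k₁ k₂ τ m v = P.pock k₁ k₂ τ m w := fun m =>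
    pock_congr fun i j s _ _ => h i j s
  simp only [Dom.val, a, b]

theorem val_tan {m : ℕ} (h : ∀ i j, P.Str τ i j → ¬(arc k₁ k₂ i = m ∧ arc k₁ k₂ j = m) →
    (P.Inn τ i v ↔ P.Inn τ i w)) :
    ((P.val k₁ k₂ τ v - P.val k₁ k₂ τ w) / ζ ^ (2 * m)).im = 0 := by
  classical
  have a : ∀ m, P.Sec k₁ k₂ τ m v ↔ P.Sec k₁ k₂ τ m w := fun m =>
    sec_congr fun i j s e => h i j s (by omega)
  have b : ∀ m', m' ≠ m → P.pock k₁ k₂ τ m' v = P.pock k₁ k₂ τ m' w := fun m' e =>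
    pock_congr fun i j s _ _ => h i j s (by omega)
  simp only [Dom.val, a]
  split_ifs
  · simp
  · simp
  · simp
  rw [← Finset.sum_sub_distrib, Finset.sum_div, im_sum]
  refine Finset.sum_eq_zero fun m' _ => ?_
  by_cases e : m' = m
  · subst e
    split_ifs <;> simp [neg_div, div_self (ζ_ne _)]
  · simp [b m' e]

theorem F_sub (hV : S_Val) (hk : Mk P k₁ k₂) (v w : V) : P.F k₁ k₂ v - P.F k₁ k₂ w =
    ∫ τ, (P.val k₁ k₂ τ v - P.val k₁ k₂ τ w) ∂PM fun _ => hf :=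
  (integral_sub (integrable ((hV P k₁ k₂ hk).1 v) fun τ => ((hV P k₁ k₂ hk).2 τ).1 v)
    (integrable ((hV P k₁ k₂ hk).1 w) fun τ => ((hV P k₁ k₂ hk).2 τ).1 w)).symm

theorem val_sub_le (hV : S_Val) (hk : Mk P k₁ k₂) (τ : TC) (v w : V) :
    ‖P.val k₁ k₂ τ v - P.val k₁ k₂ τ w‖ ≤ 2 :=
  (norm_sub_le _ _).trans (by
    linarith [((hV P k₁ k₂ hk).2 τ).1 v, ((hV P k₁ k₂ hk).2 τ).1 w])

end RM

open RM

theorem s_Mod (hT : S_Top1) (hV : S_Val) : S_Mod := by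
  obtain ⟨c, C, c0, C0, -, h⟩ := arm_room
  refine ⟨2 * C, c, c0, fun P k₁ k₂ x v w r R hk hr hR hp => ?_⟩
  have hA := h P.D x r R hr (by omega)
  have hL : LocF fun τ => P.val k₁ k₂ τ v - P.val k₁ k₂ τ w :=
    ((hV P k₁ k₂ hk).1 v).comp₂ ((hV P k₁ k₂ hk).1 w) (· - ·)
  have key : ∀ τ ∉ ArmS P.D x (r + 5) (R - 5), ∀ i j, P.Str τ i j →
      (R ≤ dd x (P.c i) ∨ R ≤ dd x (P.c j)) → (P.Inn τ i v ↔ P.Inn τ i w) := by
    intro τ hτ i j hs hd
    refine nr_inn hT hs hp fun a d h1 h2 h3 => hτ ?_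
    have h4 : dd x (edge a d).1 ≤ r + 5 := by rcases dd_edge x a d with e | e <;> omega
    rcases hd with hd | hd
    · exact ⟨_, _, h3.symm', h4, by have := abs_le.1 (dd_b' P x i); omega⟩
    · exact ⟨_, _, h3.symm'.trans' hs.2.2, h4, by have := abs_le.1 (dd_b' P x j); omega⟩
  rw [F_sub hV hk, mul_assoc]
  refine ⟨fun hb => ?_, fun m hb => ?_⟩
  · refine (norm_int_le hL (val_sub_le hV hk · v w) fun τ hτ => ?_).trans
      (mul_le_mul_of_nonneg_left hA zero_le_two)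
    exact sub_eq_zero.2 (val_congr fun i j hs =>
      key τ hτ i j hs (Or.inl (hb i (hs.1.trans hs.2.1))))
  · rw [← integral_div, ← RCLike.im_to_complex, ← integral_im
      ((integrable hL (val_sub_le hV hk · v w)).div_const _)]
    refine (abs_int_le (K := 2) (hL.comp fun z => RCLike.im (z / ζ ^ (2 * m))) (fun τ => ?_)
      fun τ hτ => ?_).trans (mul_le_mul_of_nonneg_left hA zero_le_two)
    · refine (abs_im_le_norm _).trans ?_
      rw [norm_div, norm_ζ, div_one]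
      exact val_sub_le hV hk τ v w
    · refine val_tan fun i j hs hm => key τ hτ i j hs ?_
      by_contra e
      push Not at e
      exact hm ⟨hb i (hs.1.trans hs.2.1) e.1, hb j hs.2.1 e.2⟩

end Pool.Agent.P.MP_6c8efb_pr.Cardy
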