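import Pool.Agent.P.MP_6c8efb_pr.Cardy.TInn

/-! The value of the observable in a configuration and its increments. -/

open Complex
open scoped Real

namespace Pool.Agent.P.MP_6c8efb_pr.Cardy

open Arm (TC Pt TConn)

namespace Vl

theorem ζ3 : ζ ^ 3 = -1 := by
  rw [ζ, ← Complex.exp_nat_mul, ← exp_pi_mul_I]; congr 1; push_cast; ring

theorem nζ (k : ℕ) : ‖ζ ^ k‖ = 1 := by
  rw [norm_pow, ζ, show (π / 3 * I : ℂ) = (π / 3 : ℝ) * I by push_cast; ring, norm_exp_ofReal_mul_I,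
    one_pow]

theorem ζ2 : ζ ^ 2 = ζ - 1 := by
  have h : ζ + 1 ≠ 0 := fun h => by
    have h1 := congrArg re h
    rw [ζ, show (π / 3 * I : ℂ) = (π / 3 : ℝ) * I by push_cast; ring, add_re, exp_ofReal_mul_I_re,
      Real.cos_pi_div_three] at h1
    norm_num at h1
  exact mul_left_cancel₀ h (by linear_combination ζ3)

theorem arc_le (k₁ k₂ i : ℕ) : arc k₁ k₂ i ≤ 2 := by unfold arc; split_ifs <;> omega

theorem arc_mon (k₁ k₂ : ℕ) {i j : ℕ} (h : i ≤ j) : arc k₁ k₂ i ≤ arc k₁ k₂ j := by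
  unfold arc; split_ifs <;> omega

variable {P : Dom} {τ τ' : TC} {k₁ k₂ i j m : ℕ} {v w : V}

theorem inn_cfg (h : ∀ t ∈ P.D, τ t = τ' t) (hv : P.Inn τ i v) : P.Inn τ' i v := by
  induction hv with
  | refl => exact .refl
  | tail _ a ih =>
    exact ih.tail (a.imp (fun b => b.mono subset_rfl h) fun ⟨d, p, q, s⟩ =>
      ⟨d, p, q, fun s' => s (s'.mono subset_rfl fun t ht => (h t ht).symm)⟩)

theorem val_eq (hs : ∀ i j, P.Str τ i j ↔ P.Str τ' i j)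
    (h : ∀ i j, P.Str τ i j → (P.Inn τ i v ↔ P.Inn τ' i w)) :
    P.val k₁ k₂ τ v = P.val k₁ k₂ τ' w := by
  classical
  have a : ∀ m, P.Sec k₁ k₂ τ m v ↔ P.Sec k₁ k₂ τ' m w := fun m =>
    exists_congr fun i => exists_congr fun j => by
      rw [← hs]; exact and_congr_right fun s => by rw [h i j s]
  have b : ∀ m, P.pock k₁ k₂ τ m v = P.pock k₁ k₂ τ' m w := fun m => by
    ext p
    simp only [Dom.pock, Finset.mem_filter, Dom.mem_strs, ← hs]
    exact and_congr_right fun s => by rw [h _ _ s]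
  simp only [Dom.val, a, b]

theorem loc_val (P : Dom) (k₁ k₂ : ℕ) (v : V) : LocF fun τ => P.val k₁ k₂ τ v := by
  refine ⟨P.D, P.D.finite_toSet, fun τ τ' h => val_eq (fun i j => ?_) fun i _ _ =>
    ⟨inn_cfg h, inn_cfg fun t ht => (h t ht).symm⟩⟩
  exact and_congr_right fun _ => and_congr_right fun _ =>
    ⟨fun s => s.mono subset_rfl h, fun s => s.mono subset_rfl fun t ht => (h t ht).symm⟩

theorem norm_val (P : Dom) (k₁ k₂ : ℕ) (τ : TC) (v : V) : ‖P.val k₁ k₂ τ v‖ ≤ 1 := by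
  have h1 : ‖ζ‖ = 1 := by simpa using nζ 1
  have e1 : 1 + ζ ^ 2 = ζ ^ 1 := by linear_combination ζ2
  have e2 : 1 + ζ ^ 4 = ζ ^ 5 := by linear_combination (ζ - ζ ^ 2) * ζ3 + ζ2
  have e3 : ζ ^ 2 + ζ ^ 4 = ζ ^ 3 := by linear_combination ζ ^ 2 * ζ2
  have e4 : ζ ^ 1 + ζ ^ 4 = 0 := by linear_combination ζ * ζ3
  unfold Dom.val
  split_ifs
  · exact (nζ 5).le
  · exact h1.le
  · exact (nζ 3).le
  · simp only [Finset.sum_range_succ, Finset.sum_range_zero, zero_add, mul_zero, pow_zero, mul_one,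
      show 2 * 2 = 4 from rfl]
    split_ifs <;> simp only [add_zero, zero_add, e1, e2, e3, e4, nζ, norm_zero, norm_one] <;> norm_num

theorem sec_zero : P.Sec k₁ k₂ τ 0 v ↔
    ∃ i j, P.Str τ i j ∧ arc k₁ k₂ i = 0 ∧ arc k₁ k₂ j = 2 ∧ ¬P.Inn τ i v := by simp [Dom.Sec]

theorem sec_pos (hm : m ≠ 0) : P.Sec k₁ k₂ τ m v ↔
    ∃ i j, P.Str τ i j ∧ arc k₁ k₂ i + 1 = m ∧ arc k₁ k₂ j = m ∧ P.Inn τ i v := by
  simp [Dom.Sec, hm]

/-- two strands are nested or side by side -/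
theorem rel {i' j' : ℕ} (h : P.Str τ i j) (h' : P.Str τ i' j') :
    (i ≤ i' ∧ j' ≤ j) ∨ (i' ≤ i ∧ j ≤ j') ∨ j < i' ∨ j' < i := by
  rcases lt_trichotomy i i' with a | rfl | a
  · have := h.nest h' a; omega
  · have := h.eq_of_same h' Same.rfl'; omega
  · have := h'.nest h a; omega

theorem val_sec (hm : m < 3) (h : P.Sec k₁ k₂ τ m v) : P.val k₁ k₂ τ v = ζ ^ (2 * m + 5) := by
  have x0 : ∀ m, m = 1 ∨ m = 2 → P.Sec k₁ k₂ τ m v → ¬P.Sec k₁ k₂ τ 0 v := fun m hm a b => by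
    obtain ⟨i, j, s, a1, a2, a3⟩ := (sec_pos (by omega)).1 a
    obtain ⟨i', j', s', b1, b2, b3⟩ := sec_zero.1 b
    have m1 := fun h => arc_mon k₁ k₂ (i := i) (j := i') h
    have m2 := fun h => arc_mon k₁ k₂ (i := j') (j := j) h
    have m3 := fun h => arc_mon k₁ k₂ (i := j) (j := i') h
    have m4 := fun h => arc_mon k₁ k₂ (i := j') (j := i) h
    rcases rel s s' with c | c | c | c
    · have := m1 c.1; have := m2 c.2; omega
    · exact b3 (s'.inn_sub s c.1 c.2 a3)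
    · have := m3 c.le; omega
    · have := m4 c.le; omega
  have x1 : P.Sec k₁ k₂ τ 2 v → ¬P.Sec k₁ k₂ τ 1 v := fun a b => by
    obtain ⟨i, j, s, a1, a2, a3⟩ := (sec_pos (by omega)).1 a
    obtain ⟨i', j', s', b1, b2, b3⟩ := (sec_pos (by omega)).1 b
    rcases rel s s' with c | c | c | c
    · have := arc_mon k₁ k₂ c.1; omega
    · have := arc_mon k₁ k₂ c.2; omega
    · have := arc_mon k₁ k₂ c.le; omega
    · exact s'.inn_disj s c b3 a3
  unfold Dom.val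
  obtain rfl | rfl | rfl : m = 0 ∨ m = 1 ∨ m = 2 := by omega
  · rw [if_pos h]
  · rw [if_neg (x0 1 (Or.inl rfl) h), if_pos h]
    linear_combination (ζ - ζ ^ 4) * ζ3
  · rw [if_neg (x0 2 (Or.inr rfl) h), if_neg (x1 h), if_pos h]
    linear_combination (ζ ^ 3 - ζ ^ 6) * ζ3

theorem mem_pock {q : ℕ × ℕ} : q ∈ P.pock k₁ k₂ τ m v ↔
    P.Str τ q.1 q.2 ∧ arc k₁ k₂ q.1 = m ∧ arc k₁ k₂ q.2 = m ∧ P.Inn τ q.1 v := by
  simp only [Dom.pock, Finset.mem_filter, Dom.mem_strs]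

open Classical in
theorem sw_eq {q : ℕ × ℕ} (h : P.Str τ q.1 q.2) : P.sw k₁ k₂ τ v q =
    if P.Inn τ q.1 v then (if arc k₁ k₂ q.2 = arc k₁ k₂ q.1 then -1
      else if arc k₁ k₂ q.2 = arc k₁ k₂ q.1 + 1 then 0 else 1)
    else if arc k₁ k₂ q.2 = arc k₁ k₂ q.1 + 2 then 0 else 1 := by
  have h1 := arc_mon k₁ k₂ h.1.le
  have h2 := arc_le k₁ k₂ q.2
  unfold Dom.sw
  generalize arc k₁ k₂ q.1 = a at *
  generalize arc k₁ k₂ q.2 = b at *
  interval_cases b <;> interval_cases a <;> split_ifs <;> first | rfl | omega | contradiction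

/-- crossing the strand `(i, j)` from the outer side `v` to the inner side `w` -/
theorem cross (h : P.Str τ i j) (hv : ¬P.Inn τ i v) (hw : P.Inn τ i w)
    (ho : ∀ i' j', P.Str τ i' j' → i' ≠ i →
      (P.Inn τ i' v ↔ i' < i ∧ j < j') ∧ (P.Inn τ i' w ↔ i' < i ∧ j < j')) :
    P.val k₁ k₂ τ w - P.val k₁ k₂ τ v = ζ ^ (arc k₁ k₂ i + arc k₁ k₂ j) *
      ∏ q ∈ (P.strs τ).erase (i, j), P.sw k₁ k₂ τ v q := by
  classical
  have ne : ∀ q ∈ (P.strs τ).erase (i, j), P.Str τ q.1 q.2 ∧ q.1 ≠ i := fun q hq => by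
    obtain ⟨a, b⟩ := Finset.mem_erase.1 hq
    rw [Dom.mem_strs] at b
    refine ⟨b, fun c => a (Prod.ext c ?_)⟩
    exact (b.eq_of_same h (c ▸ Same.rfl')).2
  have me : ∀ i' j', P.Str τ i' j' → i' ≠ i → (i', j') ∈ (P.strs τ).erase (i, j) :=
    fun i' j' a b => Finset.mem_erase.2 ⟨fun c => b (congrArg Prod.fst c), Dom.mem_strs.2 a⟩
  have un : ∀ j', P.Str τ i j' → j' = j := fun j' a => (a.eq_of_same h Same.rfl').2
  by_cases h0 : ∃ q ∈ (P.strs τ).erase (i, j), P.sw k₁ k₂ τ v q = 0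
  · obtain ⟨q, hq, h0⟩ := h0
    obtain ⟨s, n⟩ := ne q hq
    obtain ⟨a, b⟩ := ho _ _ s n
    have l := arc_le k₁ k₂ q.2
    rw [Finset.prod_eq_zero hq h0, mul_zero, sub_eq_zero]
    rw [sw_eq s] at h0
    split_ifs at h0 with c1 c2 c3 c4
    · norm_num at h0
    · rw [val_sec (m := arc k₁ k₂ q.2) (by omega) ((sec_pos (by omega)).2 ⟨_, _, s, c3.symm, rfl, c1⟩),
        val_sec (m := arc k₁ k₂ q.2) (by omega)
          ((sec_pos (by omega)).2 ⟨_, _, s, c3.symm, rfl, b.2 (a.1 c1)⟩)]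
    · norm_num at h0
    · rw [val_sec (m := 0) (by omega) (sec_zero.2 ⟨_, _, s, by omega, by omega, c1⟩),
        val_sec (m := 0) (by omega) (sec_zero.2 ⟨_, _, s, by omega, by omega, fun c => c1 (a.2 (b.1 c))⟩)]
    · norm_num at h0
  have h1 : ∀ i' j', P.Str τ i' j' → i' ≠ i → (i' < i ∧ j < j' → arc k₁ k₂ j' ≠ arc k₁ k₂ i' + 1) ∧
      (¬(i' < i ∧ j < j') → arc k₁ k₂ j' ≠ arc k₁ k₂ i' + 2) := fun i' j' s n => by
    have a := (ho _ _ s n).1
    refine ⟨fun b c => h0 ⟨_, me _ _ s n, ?_⟩, fun b c => h0 ⟨_, me _ _ s n, ?_⟩⟩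
    · rw [sw_eq (q := (i', j')) s, if_pos (a.2 b), if_neg (by simp only; omega), if_pos c]
    · rw [sw_eq (q := (i', j')) s, if_neg fun d => b (a.1 d), if_pos c]
  have v0 : P.Sec k₁ k₂ τ 0 v ↔ arc k₁ k₂ i = 0 ∧ arc k₁ k₂ j = 2 := by
    refine sec_zero.trans ⟨fun ⟨i', j', s, a, b, c⟩ => ?_, fun ⟨a, b⟩ => ⟨i, j, h, a, b, hv⟩⟩
    by_cases n : i' = i
    · subst n; exact ⟨a, un _ s ▸ b⟩
    · exact absurd (by omega) ((h1 _ _ s n).2 fun d => c ((ho _ _ s n).1.2 d))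
  have w0 : ¬P.Sec k₁ k₂ τ 0 w := fun a => by
    obtain ⟨i', j', s, a, b, c⟩ := sec_zero.1 a
    by_cases n : i' = i
    · subst n; exact c hw
    · exact absurd (by omega) ((h1 _ _ s n).2 fun d => c ((ho _ _ s n).2.2 d))
  have vp : ∀ m, m ≠ 0 → ¬P.Sec k₁ k₂ τ m v := fun m hm a => by
    obtain ⟨i', j', s, a, b, c⟩ := (sec_pos hm).1 a
    by_cases n : i' = i
    · subst n; exact hv c
    · exact absurd (by omega) ((h1 _ _ s n).1 ((ho _ _ s n).1.1 c))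
  have wp : ∀ m, m ≠ 0 → (P.Sec k₁ k₂ τ m w ↔ arc k₁ k₂ i + 1 = m ∧ arc k₁ k₂ j = m) := fun m hm => by
    refine (sec_pos hm).trans ⟨fun ⟨i', j', s, a, b, c⟩ => ?_, fun ⟨a, b⟩ => ⟨i, j, h, a, b, hw⟩⟩
    by_cases n : i' = i
    · subst n; exact ⟨a, un _ s ▸ b⟩
    · exact absurd (by omega) ((h1 _ _ s n).1 ((ho _ _ s n).2.1 c))
  have mo : ∀ {i' j' : ℕ}, i' < i ∧ j < j' → arc k₁ k₂ i' ≤ arc k₁ k₂ i ∧ arc k₁ k₂ j ≤ arc k₁ k₂ j' :=
    fun a => ⟨arc_mon k₁ k₂ a.1.le, arc_mon k₁ k₂ a.2.le⟩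
  have ab := arc_mon k₁ k₂ h.1.le
  have b2 := arc_le k₁ k₂ j
  have pe : ∀ m, ¬(arc k₁ k₂ i = m ∧ arc k₁ k₂ j = m) →
      P.pock k₁ k₂ τ m v = ∅ ∧ P.pock k₁ k₂ τ m w = ∅ := fun m hm => by
    refine ⟨Finset.eq_empty_of_forall_notMem fun q hq => ?_,
      Finset.eq_empty_of_forall_notMem fun q hq => ?_⟩ <;> obtain ⟨s, a, b, c⟩ := mem_pock.1 hq <;>
      by_cases n : q.1 = i
    · exact hv (n ▸ c)
    · have := mo ((ho _ _ s n).1.1 c); omega
    · exact hm ⟨n ▸ a, un _ (n ▸ s) ▸ b⟩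
    · have := mo ((ho _ _ s n).2.1 c); omega
  have pw : arc k₁ k₂ j = arc k₁ k₂ i → (P.pock k₁ k₂ τ (arc k₁ k₂ i) w).card =
      (P.pock k₁ k₂ τ (arc k₁ k₂ i) v).card + 1 := fun e => by
    rw [← Finset.card_insert_of_notMem (a := (i, j)) fun c => hv (mem_pock.1 c).2.2.2]
    congr 1
    ext q
    rw [Finset.mem_insert, mem_pock, mem_pock]
    constructor
    · rintro ⟨s, a, b, c⟩
      by_cases n : q.1 = i
      · exact Or.inl (Prod.ext n (un _ (n ▸ s)))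
      · exact Or.inr ⟨s, a, b, (ho _ _ s n).1.2 ((ho _ _ s n).2.1 c)⟩
    · rintro (rfl | ⟨s, a, b, c⟩)
      · exact ⟨h, rfl, e, hw⟩
      · have n : q.1 ≠ i := fun n => hv (n ▸ c)
        exact ⟨s, a, b, (ho _ _ s n).2.2 ((ho _ _ s n).1.1 c)⟩
  have pr : ∏ q ∈ (P.strs τ).erase (i, j), P.sw k₁ k₂ τ v q =
      (-1) ^ (P.pock k₁ k₂ τ (arc k₁ k₂ i) v).card := by
    rw [← Finset.prod_const, eq_comm]
    refine Finset.prod_subset_one_on_sdiff (fun q hq => ?_) (fun q hq => ?_) fun q hq => ?_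
    · obtain ⟨s, -, -, c⟩ := mem_pock.1 hq
      exact me _ _ s fun n => hv (n ▸ c)
    · obtain ⟨a, b⟩ := Finset.mem_sdiff.1 hq
      obtain ⟨s, n⟩ := ne q a
      rw [sw_eq s]
      split_ifs with c1 c2 c3 c4
      · have := mo ((ho _ _ s n).1.1 c1)
        exact absurd (mem_pock.2 ⟨s, by omega, by omega, c1⟩) b
      · exact absurd c3 ((h1 _ _ s n).1 ((ho _ _ s n).1.1 c1))
      · rfl
      · exact absurd c4 ((h1 _ _ s n).2 fun d => c1 ((ho _ _ s n).1.2 d))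
      · rfl
    · obtain ⟨s, a, b, c⟩ := mem_pock.1 hq
      rw [sw_eq s, if_pos c, if_pos (b.trans a.symm)]
  rw [pr]
  unfold Dom.val
  rw [if_neg w0, if_neg (vp 1 one_ne_zero), if_neg (vp 2 two_ne_zero)]
  simp only [v0, wp 1 one_ne_zero, wp 2 two_ne_zero, Finset.sum_range_succ, Finset.sum_range_zero]
  have p0 := pe 0
  have p1 := pe 1
  have p2 := pe 2
  have par : ∀ (c : ℕ) (z : ℂ), (if Odd (c + 1) then z else 0) - (if Odd c then z else 0) =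
      z * (-1) ^ c := fun c z => by
    rcases Nat.even_or_odd c with a | a
    · rw [if_pos a.add_one, if_neg (Nat.not_odd_iff_even.2 a), a.neg_one_pow]; ring
    · rw [if_neg (Nat.not_odd_iff_even.2 a.add_one), if_pos a, a.neg_one_pow]; ring
  generalize arc k₁ k₂ i = a at *
  generalize arc k₁ k₂ j = b at *
  interval_cases b <;> interval_cases a <;> simp at p0 p1 p2 pw <;> simp [*]
  linear_combination -ζ ^ 2 * ζ3

theorem jump (P : Dom) (k₁ k₂ : ℕ) (τ : TC) {z : E} (hz : z ∈ sd P.D) :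
    P.val k₁ k₂ τ (hd z) - P.val k₁ k₂ τ z.1 = P.jmp k₁ k₂ τ z := by
  classical
  unfold Dom.jmp
  by_cases h : ∃ i j, P.Str τ i j ∧ Same τ P.D (P.b i) z
  · obtain ⟨i, j, h, hs⟩ := h
    have hf : (P.strs τ).filter (fun p => Same τ P.D (P.b p.1) z) = {(i, j)} := by
      ext p
      rw [Finset.mem_filter, Finset.mem_singleton, Dom.mem_strs]
      refine ⟨fun ⟨a, b⟩ => ?_, by rintro rfl; exact ⟨h, hs⟩⟩
      obtain ⟨c, d⟩ := a.eq_of_same h (b.trans' hs.symm')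
      exact Prod.ext c d
    have ho : ∀ i' j', P.Str τ i' j' → i' ≠ i →
        (P.Inn τ i' z.1 ↔ i' < i ∧ j < j') ∧ (P.Inn τ i' (hd z) ↔ i' < i ∧ j < j') := by
      intro i' j' s n
      have ns : ¬Same τ P.D (P.b i') (P.b i) := fun a => n (s.eq_of_same h a).1
      obtain ⟨a, b⟩ := Dom.inn_other (P.b_mem_sd i) ns hs
      have n2 : i ≠ j' := by rintro rfl; exact ns s.2.2
      have n3 : j ≠ j' := by rintro rfl; exact ns (s.2.2.trans' h.2.2.symm')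
      have r := rel h s
      have := h.1
      have := h.2.1
      have := s.1
      rw [← a, ← b, and_self]
      rcases P.b_ends i with ⟨p, -⟩ | ⟨p, -⟩ <;> rw [p, s.inn_c (by omega)] <;> omega
    have fl := (h.inn_side hz).not.2 (not_not.2 hs)
    rw [hf, Finset.sum_singleton]
    by_cases c : P.Inn τ i (hd z)
    · rw [if_pos c, one_mul]
      exact cross h (fun d => fl (iff_of_true d c)) c ho
    · rw [if_neg c, neg_one_mul, neg_mul, ← neg_sub, neg_inj,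
        cross h c (by tauto) fun i' j' s n => (ho i' j' s n).symm]
      congr 1
      refine Finset.prod_congr rfl fun q hq => ?_
      obtain ⟨a, b⟩ := Finset.mem_erase.1 hq
      rw [Dom.mem_strs] at b
      have n : q.1 ≠ i := fun c => a (Prod.ext c (b.eq_of_same h (c ▸ Same.rfl')).2)
      unfold Dom.sw
      rw [(ho _ _ b n).1, (ho _ _ b n).2]
  · rw [Finset.sum_eq_zero fun p hp => ?_, sub_eq_zero]
    · exact val_eq (fun _ _ => Iff.rfl) fun i j s => (Dom.inn_side hz fun a => h ⟨i, j, s, a⟩).symm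
    · rw [Finset.mem_filter, Dom.mem_strs] at hp
      exact absurd ⟨_, _, hp⟩ h

end Vl

theorem s_Val : S_Val := fun P k₁ k₂ _ => ⟨Vl.loc_val P k₁ k₂, fun τ =>
  ⟨Vl.norm_val P k₁ k₂ τ, fun _ hz => Vl.jump P k₁ k₂ τ hz, fun _ hm _ _ h => Vl.val_sec hm h⟩⟩

end Pool.Agent.P.MP_6c8efb_pr.Cardy
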